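import Pool.Agent.MHL.StC

/-!
# MHL / A: the alternation lemma
-/

set_option autoImplicit false

namespace MHL

/-- bound for the number of elements of a set in terms of the position of its first element -/
def aa_Bd (GG : Finset ℕ) (M hi q : ℝ) (a : ℕ → ℝ) (n : ℕ) : Prop :=
  ∀ G : Finset ℕ, G ⊆ GG → G.card < n → ∀ g0 ∈ G, (∀ i ∈ G, g0 ≤ i) →
    (G.card : ℝ) ≤ M * (1 + (hi - a g0) / q)

/-- one step of the greedy procedure -/
lemma aa_step {GG : Finset ℕ} {M hi q : ℝ} {a b : ℕ → ℝ} {R : ℕ → ℕ → Prop} (hq : 0 < q)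
    (hM : 0 ≤ M) (hmono : ∀ i ∈ GG, ∀ j ∈ GG, i ≤ j → a i ≤ a j) (hhi : ∀ i ∈ GG, a i ≤ hi)
    (hR : ∀ i ∈ GG, ∀ j ∈ GG, i < j → R i j → a i + q ≤ b j)
    (hgood : ∀ B : Finset ℕ, B ⊆ GG → (∀ i ∈ B, ∀ j ∈ B, i < j → ¬ R i j) → (B.card : ℝ) ≤ M)
    {n : ℕ} (hb : aa_Bd GG M hi q b n) : aa_Bd GG M hi q a (n + 1) := by
  classical
  intro G hG hGn g0 hg0 hmin
  have hpos : 0 ≤ (hi - a g0) / q := div_nonneg (by linarith [hhi g0 (hG hg0)]) hq.le
  set Bad := G.filter (fun j => ∃ i ∈ G, i < j ∧ R i j) with hBad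
  rcases Bad.eq_empty_or_nonempty with h | h
  · have h1 : (G.card : ℝ) ≤ M := by
      apply hgood G hG
      intro i hi' j hj hij hr
      have : j ∈ Bad := by
        rw [hBad, Finset.mem_filter]
        exact ⟨hj, i, hi', hij, hr⟩
      rw [h] at this
      exact absurd this (Finset.notMem_empty j)
    nlinarith
  · obtain ⟨j0, hj0, hj0min⟩ := Finset.exists_min_image Bad id h
    rw [hBad, Finset.mem_filter] at hj0
    obtain ⟨hj0G, i0, hi0G, hi0j0, hr⟩ := hj0
    set G' := G.filter (fun j => j0 ≤ j) with hG'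
    set B := G.filter (fun j => ¬ j0 ≤ j) with hB
    have hcard : G'.card + B.card = G.card := Finset.card_filter_add_card_filter_not _
    have hBcard : (B.card : ℝ) ≤ M := by
      apply hgood B ((Finset.filter_subset _ _).trans hG)
      intro i hi' j hj hij hr'
      rw [hB, Finset.mem_filter] at hi' hj
      have h2 : j ∈ Bad := by
        rw [hBad, Finset.mem_filter]
        exact ⟨hj.1, i, hi'.1, hij, hr'⟩
      exact hj.2 (hj0min j h2)
    have hi0B : i0 ∈ B := by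
      rw [hB, Finset.mem_filter]
      exact ⟨hi0G, by omega⟩
    have hBpos : 0 < B.card := Finset.card_pos.2 ⟨i0, hi0B⟩
    have hG'card : G'.card < n := by omega
    have h3 := hb G' ((Finset.filter_subset _ _).trans hG) hG'card j0
      (by rw [hG', Finset.mem_filter]; exact ⟨hj0G, le_rfl⟩)
      (fun i hi' => (Finset.mem_filter.1 hi').2)
    have h4 := hR i0 (hG hi0G) j0 (hG hj0G) hi0j0 hr
    have h5 := hmono g0 (hG hg0) i0 (hG hi0G) (hmin i0 hi0G)
    have h6 : (hi - b j0) / q ≤ (hi - a g0) / q - 1 := by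
      rw [div_sub_one hq.ne']
      exact div_le_div_of_nonneg_right (by linarith) hq.le
    have h7 : M * (1 + (hi - b j0) / q) ≤ M * ((hi - a g0) / q) :=
      mul_le_mul_of_nonneg_left (by linarith) hM
    have h8 : (G.card : ℝ) = G'.card + B.card := by
      rw [← hcard]
      push_cast
      ring
    rw [h8]
    linarith

lemma aa_sm {A φ : ℝ} {g : ℤ → ℤ} {lo hi : ℤ} {w : ℕ} (hA : 1 ≤ A)
    (g1 : ∀ a b : ℤ, lo ≤ a → a ≤ b → b ≤ hi →
      |(sm g b : ℝ) - sm g a| ≤ A * Real.sqrt ((b : ℝ) - a))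
    (hw : A * Real.sqrt (2 * w) ≤ φ) {p q : ℤ} (hp : lo ≤ p ∧ p ≤ hi) (hq : lo ≤ q ∧ q ≤ hi)
    (h : |p - q| ≤ w) : |(sm g p : ℝ) - sm g q| ≤ φ := by
  have key : ∀ a b : ℤ, lo ≤ a → a ≤ b → b ≤ hi → b - a ≤ w →
      |(sm g b : ℝ) - sm g a| ≤ φ := by
    intro a b h1 h2 h3 h4
    refine (g1 a b h1 h2 h3).trans (le_trans ?_ hw)
    apply mul_le_mul_of_nonneg_left _ (by linarith)
    apply Real.sqrt_le_sqrt
    have h5 : ((b : ℝ) - a) ≤ w := by exact_mod_cast h4
    have h6 : (0 : ℝ) ≤ w := Nat.cast_nonneg w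
    linarith
  rw [abs_le] at h
  rcases le_total p q with hpq | hpq
  · rw [abs_sub_comm]
    exact key p q hp.1 hpq hq.2 (by omega)
  · exact key q p hq.1 hpq hp.2 (by omega)

/-- a pair of points with a large difference is far apart -/
lemma aa_far {A X : ℝ} {g : ℤ → ℤ} {lo hi : ℤ} (hA : 1 ≤ A) (hX : 0 < X)
    (g1 : ∀ a b : ℤ, lo ≤ a → a ≤ b → b ≤ hi →
      |(sm g b : ℝ) - sm g a| ≤ A * Real.sqrt ((b : ℝ) - a)) {p q : ℤ} (hp : lo ≤ p)
    (hpq : p < q) (hq : q ≤ hi) (h : Real.sqrt X / (2 * A) ≤ |(sm g q : ℝ) - sm g p|) :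
    (p : ℝ) + X / (4 * A ^ 4) ≤ q := by
  have hA0 : 0 < A := by linarith
  have h1 := h.trans (g1 p q hp hpq.le hq)
  rw [div_le_iff₀ (by positivity)] at h1
  have hd : (0 : ℝ) ≤ (q : ℝ) - p := by
    have : (p : ℝ) < q := by exact_mod_cast hpq
    linarith
  have h2 : X ≤ (A * Real.sqrt ((q : ℝ) - p) * (2 * A)) ^ 2 := by
    have h3 : Real.sqrt X ^ 2 ≤ (A * Real.sqrt ((q : ℝ) - p) * (2 * A)) ^ 2 :=
      pow_le_pow_left₀ (Real.sqrt_nonneg X) h1 2
    rwa [Real.sq_sqrt hX.le] at h3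
  have h4 : (A * Real.sqrt ((q : ℝ) - p) * (2 * A)) ^ 2 = 4 * A ^ 4 * ((q : ℝ) - p) := by
    have h5 := Real.sq_sqrt hd
    calc (A * Real.sqrt ((q : ℝ) - p) * (2 * A)) ^ 2
        = 4 * A ^ 4 * Real.sqrt ((q : ℝ) - p) ^ 2 := by ring
      _ = _ := by rw [h5]
  rw [h4] at h2
  have h6 : X / (4 * A ^ 4) ≤ (q : ℝ) - p := by
    rw [div_le_iff₀ (by positivity)]
    linarith
  linarith

section claims

variable {A φ X : ℝ} {g : ℤ → ℤ} {lo hi : ℤ} {w : ℕ} {GG : Finset ℕ} {pM pm : ℕ → ℤ}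
  {k : ℕ → ℝ} {WM Wm : ℝ} {Y : Finset ℤ}

lemma aa_W (h : Alt A φ X g lo hi w GG pM pm k WM Wm Y) : Wm ≤ WM := by
  have h1 : 0 ≤ Real.sqrt X / (2 * A) :=
    div_nonneg (Real.sqrt_nonneg X) (by linarith [h.hA])
  linarith [h.amp]

/-- claim (i) -/
lemma aa_i (h : Alt A φ X g lo hi w GG pM pm k WM Wm Y) {i j : ℕ} (hi' : i ∈ GG) (hj : j ∈ GG)
    (hij : i < j) (hk : k j < k i - 20 * φ) : (pM i : ℝ) + X / (4 * A ^ 4) ≤ pm j := by
  have hφ := h.hφ
  have hW := aa_W h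
  obtain ⟨y, hy, hpy⟩ := h.net (pM i) (h.rM i hi').1 (h.rM i hi').2
  have hyr := h.yr y hy
  have h1 := abs_le.1 (aa_sm h.hA h.g1 h.hw (h.rM i hi') hyr hpy)
  have h2 := abs_le.1 (h.relM i hi')
  have h3 := abs_le.1 (h.relM j hj)
  have h4 := abs_le.1 (h.relm j hj)
  have hm := h.mono i hi' j hj hij.le
  have hbar := h.bar y hy j hj (fun v _ hv2 => by
    refine lt_of_lt_of_le ?_ (le_abs_self _)
    linarith)
  have hpy' := abs_le.1 hpy
  have h5 : ¬ pM j ≤ y := by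
    intro hcon
    have h6 := abs_le.1 (aa_sm h.hA h.g1 h.hw (h.rM i hi') (h.rM j hj)
      (by rw [abs_le]; constructor <;> omega))
    linarith
  have h7 : ¬ pm j ≤ y := fun hc => h5 (hbar.2 hc)
  have h8 : pM i < pm j := by
    by_contra hcon
    have h6 := abs_le.1 (aa_sm h.hA h.g1 h.hw (h.rM i hi') (h.rm j hj)
      (by rw [abs_le]; constructor <;> omega))
    linarith
  apply aa_far h.hA h.hX h.g1 (h.rM i hi').1 h8 (h.rm j hj).2
  refine h.amp.trans ?_
  rw [abs_sub_comm]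
  refine le_trans ?_ (le_abs_self _)
  linarith

/-- claim (ii) -/
lemma aa_ii (h : Alt A φ X g lo hi w GG pM pm k WM Wm Y) {i j : ℕ} (hi' : i ∈ GG) (hj : j ∈ GG)
    (hij : i < j) (hk : k i < k j - 20 * φ) : (pm i : ℝ) + X / (4 * A ^ 4) ≤ pM j := by
  have hφ := h.hφ
  have hW := aa_W h
  obtain ⟨y, hy, hpy⟩ := h.net (pm i) (h.rm i hi').1 (h.rm i hi').2
  have hyr := h.yr y hy
  have h1 := abs_le.1 (aa_sm h.hA h.g1 h.hw (h.rm i hi') hyr hpy)
  have h2 := abs_le.1 (h.relm i hi')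
  have h3 := abs_le.1 (h.relM j hj)
  have h4 := abs_le.1 (h.relm j hj)
  have hm := h.mono i hi' j hj hij.le
  have hbar := h.bar y hy j hj (fun v hv1 _ => by
    refine lt_of_lt_of_le ?_ (neg_le_abs _)
    linarith)
  have hpy' := abs_le.1 hpy
  have h5 : ¬ pm j ≤ y := by
    intro hcon
    have h6 := abs_le.1 (aa_sm h.hA h.g1 h.hw (h.rm i hi') (h.rm j hj)
      (by rw [abs_le]; constructor <;> omega))
    linarith
  have h7 : ¬ pM j ≤ y := fun hc => h5 (hbar.1 hc)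
  have h8 : pm i < pM j := by
    by_contra hcon
    have h6 := abs_le.1 (aa_sm h.hA h.g1 h.hw (h.rm i hi') (h.rM j hj)
      (by rw [abs_le]; constructor <;> omega))
    linarith
  apply aa_far h.hA h.hX h.g1 (h.rm i hi').1 h8 (h.rM j hj).2
  refine h.amp.trans ?_
  refine le_trans ?_ (le_abs_self _)
  linarith

end claims

theorem thm_A : St_A := by
  classical
  intro A φ X g lo hi w GG pM pm k WM Wm Y h
  have hA := h.hA
  have hX := h.hX
  have hA4 : 1 ≤ A ^ 4 := one_le_pow₀ hA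
  set Good : Finset ℕ → Prop := fun B =>
    (∀ i ∈ B, ∀ j ∈ B, i < j → k i - 20 * φ ≤ k j) ∨
     (∀ i ∈ B, ∀ j ∈ B, i < j → k j - 20 * φ ≤ k i) with hGood
  have hne : (GG.powerset.filter Good).Nonempty := by
    refine ⟨∅, ?_⟩
    rw [Finset.mem_filter]
    refine ⟨Finset.empty_mem_powerset _, Or.inl ?_⟩
    intro i hi'
    exact absurd hi' (Finset.notMem_empty i)
  obtain ⟨BB, hBB, hmax⟩ := Finset.exists_max_image (GG.powerset.filter Good) Finset.card hne
  rw [Finset.mem_filter, Finset.mem_powerset] at hBB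
  refine ⟨BB, hBB.1, ?_, hBB.2⟩
  have hM0 : (0 : ℝ) ≤ BB.card := Nat.cast_nonneg _
  rcases GG.eq_empty_or_nonempty with hGG | hGG
  · rw [hGG]
    simp only [Finset.card_empty, Nat.cast_zero]
    positivity
  have hle : ∀ B : Finset ℕ, B ⊆ GG → Good B → (B.card : ℝ) ≤ BB.card := by
    intro B hB hg
    exact_mod_cast hmax B (by rw [Finset.mem_filter, Finset.mem_powerset]; exact ⟨hB, hg⟩)
  set q : ℝ := X / (4 * A ^ 4) with hq
  have hq0 : 0 < q := by positivity
  have hboth : ∀ n : ℕ, aa_Bd GG BB.card hi q (fun i => (pM i : ℝ)) n ∧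
      aa_Bd GG BB.card hi q (fun i => (pm i : ℝ)) n := by
    intro n
    induction n with
    | zero =>
      constructor <;> intro G _ hc <;> exact absurd hc (Nat.not_lt_zero _)
    | succ n ih =>
      constructor
      · refine aa_step (R := fun i j => k j < k i - 20 * φ) hq0 hM0 ?_ ?_ ?_ ?_ ih.2
        · intro i hi' j hj hij
          exact_mod_cast (h.mono i hi' j hj hij).1
        · intro i hi'
          exact_mod_cast (h.rM i hi').2
        · intro i hi' j hj hij hr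
          exact aa_i h hi' hj hij hr
        · intro B hB hn
          exact hle B hB (Or.inl fun i hi' j hj hij => not_lt.1 (hn i hi' j hj hij))
      · refine aa_step (R := fun i j => k i < k j - 20 * φ) hq0 hM0 ?_ ?_ ?_ ?_ ih.1
        · intro i hi' j hj hij
          exact_mod_cast (h.mono i hi' j hj hij).2
        · intro i hi'
          exact_mod_cast (h.rm i hi').2
        · intro i hi' j hj hij hr
          exact aa_ii h hi' hj hij hr
        · intro B hB hn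
          exact hle B hB (Or.inr fun i hi' j hj hij => not_lt.1 (hn i hi' j hj hij))
  obtain ⟨g0, hg0, hg0min⟩ := Finset.exists_min_image GG id hGG
  have h1 := (hboth (GG.card + 1)).1 GG subset_rfl (by omega) g0 hg0 (fun i hi' => hg0min i hi')
  have h2 : ((hi : ℝ) - pM g0) / q ≤ 18 * A ^ 4 := by
    rw [div_le_iff₀ hq0]
    have h3 : 18 * A ^ 4 * q = 4.5 * X := by
      rw [hq]
      field_simp
      norm_num
    rw [h3]
    have h4 : (lo : ℝ) ≤ pM g0 := by exact_mod_cast (h.rM g0 hg0).1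
    linarith [h.len]
  calc (GG.card : ℝ) ≤ BB.card * (1 + ((hi : ℝ) - pM g0) / q) := h1
    _ ≤ BB.card * (19 * A ^ 4) := mul_le_mul_of_nonneg_left (by linarith) hM0
    _ = 19 * A ^ 4 * BB.card := by ring

end MHL
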