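import Pool.Agent.MHL.StB

/-!
# MHL: boundary sums over good lines
-/

set_option autoImplicit false

namespace MHL

lemma b1_s2 (P : GP) : 2 ≤ P.s := by
  have h1 := P.hs
  have h2 := P.haj
  omega

/-- Cauchy-Schwarz on one side -/
lemma b1_side (P : GP) (f : ℤ → ℝ) (c d : ℤ) (hc : -3 * 2 ^ P.s ≤ c) (hd : d ≤ 3 * 2 ^ P.s)
    (hf : ∑ y ∈ Finset.Icc (-3 * 2 ^ P.s : ℤ) (3 * 2 ^ P.s), f y ^ 2 ≤ P.K1 * P.e / 2 ^ P.s) :
    ∑ y ∈ Finset.Icc c d, |f y| ≤ (5 / 2) * Real.sqrt (P.K1 * P.e) := by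
  have hsub : Finset.Icc c d ⊆ Finset.Icc (-3 * 2 ^ P.s : ℤ) (3 * 2 ^ P.s) :=
    Finset.Icc_subset_Icc hc hd
  have h1 : ∑ y ∈ Finset.Icc c d, |f y| ≤
      ∑ y ∈ Finset.Icc (-3 * 2 ^ P.s : ℤ) (3 * 2 ^ P.s), |f y| :=
    Finset.sum_le_sum_of_subset_of_nonneg hsub fun _ _ _ => abs_nonneg _
  refine h1.trans ?_
  have hcs := sq_sum_le_card_mul_sum_sq
    (s := Finset.Icc (-3 * 2 ^ P.s : ℤ) (3 * 2 ^ P.s)) (f := fun y => |f y|)
  simp only [sq_abs] at hcs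
  have hp : (0 : ℤ) < 2 ^ P.s := by positivity
  have hcard : ((Finset.Icc (-3 * 2 ^ P.s : ℤ) (3 * 2 ^ P.s)).card : ℝ) = 6 * 2 ^ P.s + 1 := by
    rw [Int.card_Icc]
    have : (((3 * 2 ^ P.s + 1 - -3 * 2 ^ P.s : ℤ).toNat : ℕ) : ℤ) = 6 * 2 ^ P.s + 1 := by
      rw [Int.toNat_of_nonneg (by linarith)]; ring
    exact_mod_cast this
  rw [hcard] at hcs
  have hX : (4 : ℝ) ≤ 2 ^ P.s := by
    calc (4 : ℝ) = 2 ^ 2 := by norm_num
      _ ≤ 2 ^ P.s := pow_le_pow_right₀ (by norm_num) (b1_s2 P)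
  have hXp : (0 : ℝ) < 2 ^ P.s := by positivity
  have hKe : 0 ≤ P.K1 * P.e := mul_nonneg (by linarith [P.hK1]) P.he.le
  have hb : (∑ y ∈ Finset.Icc (-3 * 2 ^ P.s : ℤ) (3 * 2 ^ P.s), |f y|) ^ 2 ≤
      ((5 / 2) * Real.sqrt (P.K1 * P.e)) ^ 2 := by
    refine hcs.trans ?_
    rw [mul_pow, Real.sq_sqrt hKe]
    calc (6 * (2 : ℝ) ^ P.s + 1) * ∑ y ∈ Finset.Icc (-3 * 2 ^ P.s : ℤ) (3 * 2 ^ P.s), f y ^ 2
        ≤ (6 * (2 : ℝ) ^ P.s + 1) * (P.K1 * P.e / 2 ^ P.s) :=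
          mul_le_mul_of_nonneg_left hf (by positivity)
      _ = (6 + 1 / (2 : ℝ) ^ P.s) * (P.K1 * P.e) := by
          field_simp
      _ ≤ (5 / 2) ^ 2 * (P.K1 * P.e) := by
          refine mul_le_mul_of_nonneg_right ?_ hKe
          have : 1 / (2 : ℝ) ^ P.s ≤ 1 / 4 := one_div_le_one_div_of_le (by norm_num) hX
          linarith
  exact (abs_le_of_sq_le_sq' hb (by positivity)).2

lemma b1_row (P : GP) (E : Env) (u : Pt → ℝ) (c : ℤ) (hC : Ctx P E u)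
    (hc1 : -3 * 2 ^ P.s ≤ c) (hc2 : c ≤ 3 * 2 ^ P.s) (hG : GRow P E u c) :
    ∑ x ∈ Finset.Icc (-3 * 2 ^ P.s : ℤ) (3 * 2 ^ P.s), dd E u (x, c) ^ 2
      ≤ P.K1 * P.e / 2 ^ P.s := by
  have h := hG.en
  refine le_trans (le_of_eq ?_) h
  refine Finset.sum_congr rfl fun x hx => ?_
  rw [Finset.mem_Icc] at hx
  have hp : (0 : ℤ) < 2 ^ P.s := by positivity
  have hm : ((x, c) : Pt) ∈ bx (0, 0) (4 * 2 ^ P.s) := by
    rw [mem_bx]
    push_cast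
    constructor
    · rw [abs_le]; constructor <;> simp only [sub_zero] <;> linarith [hx.1, hx.2]
    · rw [abs_le]; constructor <;> simp only [sub_zero] <;> linarith
  have hh := (hC.harm _ hm).d2
  have : dd E.tr (tru u) (c, x) = - dd E u (x, c) := by
    rw [← hh]; rfl
  rw [this]; ring

theorem thm_B1 : St_B1 := by
  intro P E u a b c d hC ha hab hb hc hcd hd hGa hGb hGc hGd
  have h1 := b1_side P (fun y => dd E u (a, y)) c d hc hd hGa.en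
  have h2 := b1_side P (fun y => dd E u (b, y)) c d hc hd hGb.en
  have h3 := b1_side P (fun x => dd E u (x, c)) a b ha hb
    (b1_row P E u c hC hc (hcd.trans hd) hGc)
  have h4 := b1_side P (fun x => dd E u (x, d)) a b ha hb
    (b1_row P E u d hC (hc.trans hcd) hd hGd)
  unfold bsum
  linarith

end MHL
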