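import Pool.Agent.MHL.StB

/-!
# MHL: the right hand side of the relations is small
-/

set_option autoImplicit false

namespace MHL

theorem thm_B2 : St_B2 := by
  intro P E u cm cp lev b S hL hb1 hbn hS0 hS
  have hn0 : (0 : ℝ) ≤ (P.n : ℝ) := Nat.cast_nonneg _
  have heta : 0 < P.eta := by unfold GP.eta; positivity
  have he : 0 < P.e := P.he
  have hstep := hL.step (b - 1) (by omega)
  have hb : b - 1 + 1 = b := by omega
  rw [hb] at hstep
  have hr1 := hL.rho (b - 1) (by omega)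
  have hr2 := hL.rho b hbn
  have hlt : lev (b - 1) < lev b := by linarith
  refine ⟨hlt, ?_⟩
  have hd : 0 < lev b - lev (b - 1) := by linarith
  have hnum : rho E u (bx (0, 0) (4 * 2 ^ P.s)) (lev (b - 1)) +
      rho E u (bx (0, 0) (4 * 2 ^ P.s)) (lev b) + S ≤
      2 * (P.e / P.eta) + 10 * Real.sqrt (P.K1 * P.e) := by linarith
  have hnn : 0 ≤ 2 * (P.e / P.eta) + 10 * Real.sqrt (P.K1 * P.e) := by positivity
  calc (rho E u (bx (0, 0) (4 * 2 ^ P.s)) (lev (b - 1)) +
      rho E u (bx (0, 0) (4 * 2 ^ P.s)) (lev b) + S) / (lev b - lev (b - 1))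
      ≤ (2 * (P.e / P.eta) + 10 * Real.sqrt (P.K1 * P.e)) / (lev b - lev (b - 1)) :=
        div_le_div_of_nonneg_right hnum hd.le
    _ ≤ (2 * (P.e / P.eta) + 10 * Real.sqrt (P.K1 * P.e)) / P.eta :=
        div_le_div_of_nonneg_left hnn heta (by linarith)
    _ = 128 * ((P.n : ℝ) + 1) ^ 2 * P.e + 80 * ((P.n : ℝ) + 1) * Real.sqrt (P.K1 * P.e) := by
        unfold GP.eta
        have : ((P.n : ℝ) + 1) ≠ 0 := by positivity
        field_simp
        ring
    _ ≤ P.φ / 4 := P.c5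

end MHL
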