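import Pool.Agent.MHL.StC

/-!
# MHL: chain lemma
-/

set_option autoImplicit false

namespace MHL

/-- windows in one cell -/
lemma cc_cell {A : ℝ} {g : ℤ → ℤ} {lo hi : ℤ} (hG : Good2 A g lo hi) (hA : 1 ≤ A)
    (q1 K : ℕ) (hq1 : 1 ≤ q1) (hK : 1 ≤ K) (J : ℤ) (hlo : lo ≤ J * (K * q1))
    (hhi : J * (K * q1) + K * q1 ≤ hi) (Z : Finset ℤ)
    (hZ : ∀ y ∈ Z, J * (K * q1) ≤ y ∧ y < J * (K * q1) + K * q1) (Lo T : ℝ)
    (h1 : ∀ y ∈ Z, Lo ≤ sm g y ∧ (sm g y : ℝ) ≤ Lo + 2 * Real.sqrt q1 * T) (hT : 0 ≤ T) :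
    ((Z.image (fun y => y / (q1 : ℤ))).card : ℝ) ≤ (T + 1) * (A ^ 3 * Real.sqrt K) := by
  classical
  have hq0 : (0 : ℤ) < q1 := by exact_mod_cast hq1
  have hq0r : (0 : ℝ) < q1 := by exact_mod_cast hq1
  have hsq : 0 < Real.sqrt q1 := Real.sqrt_pos.2 hq0r
  set F : ℕ → Finset ℕ := fun m => (Finset.range K).filter
    (fun i : ℕ => |(sm g (J * (K * q1) + i * q1) : ℝ) - (Lo + (2 * m + 1) * Real.sqrt q1)| ≤
      2 * A * Real.sqrt q1) with hF
  have hFc : ∀ m, ((F m).card : ℝ) ≤ A ^ 3 * Real.sqrt K := by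
    intro m
    refine hG.g3 (J * (K * q1)) q1 K (Lo + (2 * m + 1) * Real.sqrt q1) hq1 hK hlo ?_
    have hq0 : (0 : ℤ) ≤ q1 := by positivity
    linarith
  have hsub : Z.image (fun y => y / (q1 : ℤ)) ⊆ (Finset.range (⌊T⌋₊ + 1)).biUnion
      (fun m => (F m).image (fun i : ℕ => J * K + (i : ℤ))) := by
    intro c hc
    rw [Finset.mem_image] at hc
    obtain ⟨y, hy, rfl⟩ := hc
    obtain ⟨hy1, hy2⟩ := hZ y hy
    obtain ⟨hy3, hy4⟩ := h1 y hy
    set t : ℝ := ((sm g y : ℝ) - Lo) / (2 * Real.sqrt q1) with ht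
    have ht0 : 0 ≤ t := div_nonneg (by linarith) (by positivity)
    have htT : t ≤ T := by
      rw [ht, div_le_iff₀ (by positivity)]; linarith
    have hyt : (sm g y : ℝ) = Lo + t * (2 * Real.sqrt q1) := by
      rw [ht, div_mul_cancel₀ _ (by positivity)]; ring
    have hm1 : (⌊t⌋₊ : ℝ) ≤ t := Nat.floor_le ht0
    have hm2 : t < ⌊t⌋₊ + 1 := Nat.lt_floor_add_one t
    -- the index of the cell
    have hd := Int.mul_ediv_add_emod y q1
    have hd1 := Int.emod_nonneg y hq0.ne'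
    have hd2 := Int.emod_lt_of_pos y hq0
    set c := y / (q1 : ℤ) with hc
    have hcJ : J * K ≤ c := by
      by_contra h
      have h' : c + 1 ≤ J * K := by omega
      have : (c + 1) * q1 ≤ J * K * q1 := mul_le_mul_of_nonneg_right h' hq0.le
      nlinarith
    have hcK : c < J * K + K := by
      by_contra h
      have h' : J * K + K ≤ c := by omega
      have : (J * K + K) * q1 ≤ c * q1 := mul_le_mul_of_nonneg_right h' hq0.le
      nlinarith
    obtain ⟨i, hi⟩ : ∃ i : ℕ, c = J * K + i := ⟨(c - J * K).toNat, by omega⟩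
    have hiK : i < K := by
      have : (i : ℤ) < K := by omega
      exact_mod_cast this
    rw [Finset.mem_biUnion]
    refine ⟨⌊t⌋₊, Finset.mem_range.2 (Nat.lt_succ_of_le (Nat.floor_le_floor htT)), ?_⟩
    rw [Finset.mem_image]
    refine ⟨i, ?_, hi.symm⟩
    rw [hF, Finset.mem_filter]
    refine ⟨Finset.mem_range.2 hiK, ?_⟩
    have hstart : J * (K * q1) + i * q1 = c * q1 := by rw [hi]; ring
    rw [hstart]
    have hs1 : c * q1 ≤ y := by nlinarith
    have hs2 : y - c * q1 ≤ q1 := by nlinarith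
    have hs3 : lo ≤ c * q1 := by
      have h3 : J * K * q1 ≤ c * q1 := mul_le_mul_of_nonneg_right hcJ hq0.le
      nlinarith
    have hs4 := hG.g1 (c * q1) y hs3 hs1 (by omega)
    have hs5 : Real.sqrt ((y : ℝ) - ((c * q1 : ℤ) : ℝ)) ≤ Real.sqrt q1 := by
      apply Real.sqrt_le_sqrt
      have : ((y - c * q1 : ℤ) : ℝ) ≤ ((q1 : ℤ) : ℝ) := by exact_mod_cast hs2
      push_cast at this ⊢
      exact this
    have hs6 : |(sm g y : ℝ) - sm g (c * q1)| ≤ A * Real.sqrt q1 :=
      hs4.trans (mul_le_mul_of_nonneg_left hs5 (by linarith))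
    have hs7 : |(sm g y : ℝ) - (Lo + (2 * (⌊t⌋₊ : ℝ) + 1) * Real.sqrt q1)| ≤ Real.sqrt q1 := by
      rw [hyt, abs_le]
      constructor <;> nlinarith
    have hs8 : (sm g (c * q1) : ℝ) - (Lo + (2 * (⌊t⌋₊ : ℝ) + 1) * Real.sqrt q1) =
        ((sm g y : ℝ) - (Lo + (2 * (⌊t⌋₊ : ℝ) + 1) * Real.sqrt q1)) -
          ((sm g y : ℝ) - sm g (c * q1)) := by ring
    rw [hs8]
    refine (abs_sub _ _).trans ?_
    nlinarith
  have hcard := Finset.card_le_card hsub
  have hcard2 := hcard.trans Finset.card_biUnion_le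
  have hcard3 : ((Z.image (fun y => y / (q1 : ℤ))).card : ℝ) ≤
      ∑ m ∈ Finset.range (⌊T⌋₊ + 1), (((F m).image (fun i : ℕ => J * K + (i : ℤ))).card : ℝ) := by
    exact_mod_cast hcard2
  refine hcard3.trans ?_
  have hstep : ∀ m ∈ Finset.range (⌊T⌋₊ + 1),
      (((F m).image (fun i : ℕ => J * K + (i : ℤ))).card : ℝ) ≤ A ^ 3 * Real.sqrt K := by
    intro m _
    refine le_trans ?_ (hFc m)
    exact_mod_cast Finset.card_image_le
  refine (Finset.sum_le_sum hstep).trans ?_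
  rw [Finset.sum_const, Finset.card_range, nsmul_eq_mul]
  push_cast
  have : (⌊T⌋₊ : ℝ) ≤ T := Nat.floor_le hT
  apply mul_le_mul_of_nonneg_right (by linarith) (by positivity)

/-- telescoping over an increasing chain -/
lemma cc_tele (C : Finset ℤ) (F G : ℤ → ℝ) (β : ℝ)
    (h : ∀ J ∈ C, ∀ J' ∈ C, J < J' → G J - β ≤ F J') (hne : C.Nonempty) :
    ∃ lo ∈ C, ∃ hi ∈ C, lo ≤ hi ∧ (∀ J ∈ C, J ≤ hi) ∧
      ∑ J ∈ C, (G J - F J) ≤ G hi - F lo + ((C.card : ℝ) - 1) * β := by
  classical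
  induction C using Finset.induction_on_max with
  | empty => exact absurd hne Finset.not_nonempty_empty
  | insert m C hm ih =>
    have hmC : m ∉ C := fun h' => lt_irrefl _ (hm m h')
    rcases C.eq_empty_or_nonempty with h0 | h0
    · subst h0
      refine ⟨m, by simp, m, by simp, le_rfl, by simp, by simp⟩
    · obtain ⟨lo, hlo, hi, hhi, hle, hmax, hsum⟩ := ih
        (fun J hJ J' hJ' => h J (Finset.mem_insert_of_mem hJ) J' (Finset.mem_insert_of_mem hJ')) h0
      refine ⟨lo, Finset.mem_insert_of_mem hlo, m, Finset.mem_insert_self _ _,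
        (hm lo hlo).le, ?_, ?_⟩
      · intro J hJ
        rcases Finset.mem_insert.1 hJ with rfl | hJ
        · exact le_rfl
        · exact (hm J hJ).le
      · rw [Finset.sum_insert hmC, Finset.card_insert_of_notMem hmC]
        have h2 := h hi (Finset.mem_insert_of_mem hhi) m (Finset.mem_insert_self _ _) (hm hi hhi)
        push_cast
        linarith

lemma cc_step {A β : ℝ} {g : ℤ → ℤ} {X : ℕ} (hG : Good2 A g (-(8 * X)) (8 * X)) (hA : 1 ≤ A)
    (hβ0 : 0 ≤ β) (q1 K : ℕ) (hq1 : 1 ≤ q1) (hK : 1 ≤ K) (hqX : K * q1 ≤ X)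
    (hβ : β ≤ Real.sqrt q1) (Y : Finset ℤ) (hY : ∀ y ∈ Y, -3 * (X : ℤ) ≤ y ∧ y < 3 * X)
    (hm : ∀ y ∈ Y, ∀ y' ∈ Y, y < y' → (sm g y : ℝ) - β ≤ sm g y') :
    ((Y.image (fun y => y / (q1 : ℤ))).card : ℝ) ≤
      A ^ 3 * Real.sqrt K * (1.25 * A * Real.sqrt (X / q1) +
        2.5 * (Y.image (fun y => y / ((K : ℤ) * q1))).card) := by
  classical
  set q : ℤ := (K : ℤ) * q1 with hq
  have hq1' : (0 : ℤ) < q1 := by exact_mod_cast hq1
  have hK' : (0 : ℤ) < K := by exact_mod_cast hK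
  have hqpos : 0 < q := mul_pos hK' hq1'
  have hqX' : q ≤ X := by rw [hq]; exact_mod_cast hqX
  have hq0r : (0 : ℝ) < q1 := by exact_mod_cast hq1
  have hsq : 0 < Real.sqrt q1 := Real.sqrt_pos.2 hq0r
  set C := Y.image (fun y => y / q) with hC
  set YJ : ℤ → Finset ℤ := fun J => Y.filter (fun y => y / q = J) with hYJ
  have hne : ∀ J ∈ C, (YJ J).Nonempty := by
    intro J hJ
    obtain ⟨y, hy, hyJ⟩ := Finset.mem_image.1 hJ
    exact ⟨y, Finset.mem_filter.2 ⟨hy, hyJ⟩⟩
  have hdm : ∀ y : ℤ, y / q * q ≤ y ∧ y < y / q * q + q := by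
    intro y
    have hd := Int.mul_ediv_add_emod y q
    have hd1 := Int.emod_nonneg y hqpos.ne'
    have hd2 := Int.emod_lt_of_pos y hqpos
    constructor <;> nlinarith
  have hin : ∀ J, ∀ y ∈ YJ J, y ∈ Y ∧ J * q ≤ y ∧ y < J * q + q := by
    intro J y hy
    obtain ⟨h1, h2⟩ := Finset.mem_filter.1 hy
    have := hdm y
    rw [h2] at this
    exact ⟨h1, this⟩
  -- first and last elements
  have hex : ∀ J : ℤ, ∃ f l : ℤ, J ∈ C → f ∈ YJ J ∧ l ∈ YJ J ∧ ∀ y ∈ YJ J, f ≤ y ∧ y ≤ l := by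
    intro J
    by_cases hJ : J ∈ C
    · refine ⟨(YJ J).min' (hne J hJ), (YJ J).max' (hne J hJ), fun _ =>
        ⟨Finset.min'_mem _ _, Finset.max'_mem _ _, fun y hy =>
          ⟨Finset.min'_le _ _ hy, Finset.le_max' _ _ hy⟩⟩⟩
    · exact ⟨0, 0, fun h => absurd h hJ⟩
  choose f l hfl using hex
  have hmono : ∀ y ∈ Y, ∀ y' ∈ Y, y ≤ y' → (sm g y : ℝ) - β ≤ sm g y' := by
    intro y hy y' hy' hle
    rcases hle.eq_or_lt with h | h
    · subst h; linarith
    · exact hm y hy y' hy' h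
  set T : ℤ → ℝ := fun J => ((sm g (l J) : ℝ) - sm g (f J) + 2 * β) / (2 * Real.sqrt q1) with hT
  have hcell : ∀ J ∈ C, (((YJ J).image (fun y => y / (q1 : ℤ))).card : ℝ) ≤
      (T J + 1) * (A ^ 3 * Real.sqrt K) := by
    intro J hJ
    obtain ⟨hf, hl, hb⟩ := hfl J hJ
    have hfY := hin J _ hf
    have hlY := hin J _ hl
    have hfX := hY _ hfY.1
    have hlX := hY _ hlY.1
    have hT0 : 0 ≤ T J := by
      rw [hT]
      apply div_nonneg _ (by positivity)
      have := hmono _ hfY.1 _ hlY.1 (hb _ hf).2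
      linarith
    have hTe : 2 * Real.sqrt q1 * T J = (sm g (l J) : ℝ) - sm g (f J) + 2 * β := by
      rw [hT]
      dsimp only
      rw [mul_div_cancel₀ _ (by positivity)]
    refine cc_cell hG hA q1 K hq1 hK J ?_ ?_ (YJ J) ?_ ((sm g (f J) : ℝ) - β) (T J) ?_ hT0
    · rw [← hq]; linarith [hfY.2.2]
    · rw [← hq]; linarith [hfY.2.1]
    · intro y hy
      rw [← hq]; exact (hin J y hy).2
    · intro y hy
      have hyY := hin J y hy
      constructor
      · exact hmono _ hfY.1 _ hyY.1 (hb y hy).1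
      · rw [hTe]
        have := hmono _ hyY.1 _ hlY.1 (hb y hy).2
        linarith
  have hsplit : Y.image (fun y => y / (q1 : ℤ)) ⊆
      C.biUnion (fun J => (YJ J).image (fun y => y / (q1 : ℤ))) := by
    intro c hc
    obtain ⟨y, hy, rfl⟩ := Finset.mem_image.1 hc
    rw [Finset.mem_biUnion]
    exact ⟨y / q, Finset.mem_image_of_mem _ hy, Finset.mem_image_of_mem _
      (Finset.mem_filter.2 ⟨hy, rfl⟩)⟩
  have hcard := (Finset.card_le_card hsplit).trans Finset.card_biUnion_le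
  have hcard2 : ((Y.image (fun y => y / (q1 : ℤ))).card : ℝ) ≤
      ∑ J ∈ C, (((YJ J).image (fun y => y / (q1 : ℤ))).card : ℝ) := by exact_mod_cast hcard
  have hcard3 := hcard2.trans (Finset.sum_le_sum hcell)
  rw [← Finset.sum_mul] at hcard3
  -- the telescoping sum
  have htel : ∑ J ∈ C, ((sm g (l J) : ℝ) - sm g (f J)) ≤
      A * Real.sqrt (6 * X) + (C.card : ℝ) * β := by
    rcases C.eq_empty_or_nonempty with h0 | h0
    · rw [h0]; simp; positivity
    · obtain ⟨lo, hlo, hi, hhi, hle, -, hsum⟩ := cc_tele C (fun J => (sm g (f J) : ℝ))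
        (fun J => (sm g (l J) : ℝ)) β (by
          intro J hJ J' hJ' hJJ
          obtain ⟨-, hl, -⟩ := hfl J hJ
          obtain ⟨hf, -, -⟩ := hfl J' hJ'
          have h1 := hin J _ hl
          have h2 := hin J' _ hf
          apply hm _ h1.1 _ h2.1
          have h3 : (J + 1) * q ≤ J' * q := mul_le_mul_of_nonneg_right (by omega) hqpos.le
          nlinarith [h1.2.2, h2.2.1]) h0
      obtain ⟨hf, -, -⟩ := hfl lo hlo
      obtain ⟨-, hl, -⟩ := hfl hi hhi
      have h1 := hin lo _ hf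
      have h2 := hin hi _ hl
      have hX1 := hY _ h1.1
      have hX2 := hY _ h2.1
      have hfl' : f lo ≤ l hi := by
        rcases hle.eq_or_lt with h | h
        · subst h
          exact ((hfl lo hlo).2.2 _ (hfl lo hlo).1).2
        · have h3 : (lo + 1) * q ≤ hi * q := mul_le_mul_of_nonneg_right (by omega) hqpos.le
          nlinarith [h1.2.2, h2.2.1]
      have h4 := hG.g1 (f lo) (l hi) (by linarith) hfl' (by linarith)
      have h5 : Real.sqrt (((l hi : ℤ) : ℝ) - ((f lo : ℤ) : ℝ)) ≤ Real.sqrt (6 * X) := by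
        apply Real.sqrt_le_sqrt
        have : ((l hi - f lo : ℤ) : ℝ) ≤ ((6 * X : ℤ) : ℝ) := by
          have : l hi - f lo ≤ 6 * X := by linarith
          exact_mod_cast this
        push_cast at this
        linarith
      have h6 := (le_abs_self _).trans (h4.trans (mul_le_mul_of_nonneg_left h5 (by linarith)))
      have h7 : (0 : ℝ) ≤ C.card := by positivity
      nlinarith
  have hsumT : ∑ J ∈ C, (T J + 1) =
      (∑ J ∈ C, ((sm g (l J) : ℝ) - sm g (f J)) + (C.card : ℝ) * (2 * β)) / (2 * Real.sqrt q1)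
        + C.card := by
    rw [Finset.sum_add_distrib, hT, ← Finset.sum_div, Finset.sum_add_distrib]
    simp
  rw [hsumT] at hcard3
  refine hcard3.trans ?_
  rw [mul_comm (_ + _) (A ^ 3 * Real.sqrt K)]
  apply mul_le_mul_of_nonneg_left _ (by positivity)
  have hX6 : Real.sqrt (6 * X) = Real.sqrt 6 * (Real.sqrt (X / q1) * Real.sqrt q1) := by
    rw [← Real.sqrt_mul (by positivity), ← Real.sqrt_mul (by norm_num)]
    congr 1
    field_simp
  have h6 : Real.sqrt 6 ≤ 2.5 := by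
    rw [Real.sqrt_le_left (by norm_num)]; norm_num
  have hc0 : (0 : ℝ) ≤ C.card := by positivity
  have hmain : (∑ J ∈ C, ((sm g (l J) : ℝ) - sm g (f J)) + (C.card : ℝ) * (2 * β)) /
      (2 * Real.sqrt q1) ≤ 1.25 * A * Real.sqrt (X / q1) + 1.5 * C.card := by
    rw [div_le_iff₀ (by positivity)]
    have h8 : A * Real.sqrt (6 * X) ≤ 2.5 * A * (Real.sqrt (X / q1) * Real.sqrt q1) := by
      rw [hX6]
      have h9 : 0 ≤ A * (Real.sqrt (X / q1) * Real.sqrt q1) := by positivity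
      nlinarith
    have h10 : (C.card : ℝ) * β ≤ C.card * Real.sqrt q1 := mul_le_mul_of_nonneg_left hβ hc0
    nlinarith
  linarith

theorem thm_C : St_C := by
  classical
  intro P g β Y hG hβ0 hβ hY hm
  have hA := P.hA
  have hs := P.hs
  have key : ∀ m : ℕ, m ≤ P.j →
      ((Y.image (fun y => y / ((2 ^ (P.s' + P.a * (P.j - m)) : ℕ) : ℤ))).card : ℝ) ≤
        Real.sqrt (2 ^ (P.a * m)) * (6 * P.A * Real.sqrt (2 ^ P.a) * (4 * P.A ^ 3) ^ m) := by
    intro m
    induction m with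
    | zero =>
      intro _
      have h1 : Y.image (fun y => y / ((2 ^ (P.s' + P.a * (P.j - 0)) : ℕ) : ℤ)) ⊆
          Finset.Icc (-3) 2 := by
        intro c hc
        obtain ⟨y, hy, rfl⟩ := Finset.mem_image.1 hc
        obtain ⟨hy1, hy2⟩ := hY y hy
        rw [Nat.sub_zero, ← hs]
        have hpos : (0 : ℤ) < ((2 ^ P.s : ℕ) : ℤ) := by positivity
        rw [Finset.mem_Icc]
        constructor
        · rw [Int.le_ediv_iff_mul_le hpos]; push_cast; linarith
        · have : y / ((2 ^ P.s : ℕ) : ℤ) < 3 := by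
            rw [Int.ediv_lt_iff_lt_mul hpos]; push_cast; linarith
          omega
      have h2 := Finset.card_le_card h1
      have h3 : (Finset.Icc (-3 : ℤ) 2).card = 6 := by decide
      rw [h3] at h2
      have h4 : ((Y.image (fun y => y / ((2 ^ (P.s' + P.a * (P.j - 0)) : ℕ) : ℤ))).card : ℝ) ≤ 6 := by
        exact_mod_cast h2
      refine h4.trans ?_
      have h5 : (1 : ℝ) ≤ Real.sqrt (2 ^ P.a) := by
        rw [Real.one_le_sqrt]; exact one_le_pow₀ (by norm_num)
      simp only [mul_zero, pow_zero, Real.sqrt_one, one_mul, mul_one]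
      nlinarith
    | succ m ih =>
      intro hmj
      have ih' := ih (by omega)
      have hexp : P.s' + P.a * (P.j - m) = P.a + (P.s' + P.a * (P.j - (m + 1))) := by
        have : P.j - m = (P.j - (m + 1)) + 1 := by omega
        rw [this]; ring
      set e1 := P.s' + P.a * (P.j - (m + 1)) with he1
      have hXe : P.s = e1 + P.a * (m + 1) := by
        rw [hs, he1, add_assoc, ← mul_add]
        congr 2
        omega
      have hKq : (2 ^ P.a : ℕ) * 2 ^ e1 ≤ 2 ^ P.s := by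
        rw [← pow_add]
        apply Nat.pow_le_pow_right (by norm_num)
        rw [hXe]; nlinarith [Nat.zero_le (P.a * m)]
      have hβ' : β ≤ Real.sqrt ((2 ^ e1 : ℕ) : ℝ) := by
        refine hβ.trans (Real.sqrt_le_sqrt ?_)
        push_cast
        exact pow_le_pow_right₀ (by norm_num) (by rw [he1]; omega)
      have hG' : Good2 P.A g (-(8 * ((2 ^ P.s : ℕ) : ℤ))) (8 * ((2 ^ P.s : ℕ) : ℤ)) := by
        push_cast; exact hG
      have hstep := cc_step hG' hA hβ0 (2 ^ e1) (2 ^ P.a) Nat.one_le_two_pow Nat.one_le_two_pow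
        hKq hβ' Y (by push_cast; exact hY) hm
      have hKq2 : ((2 ^ P.a : ℕ) : ℤ) * ((2 ^ e1 : ℕ) : ℤ) =
          ((2 ^ (P.s' + P.a * (P.j - m)) : ℕ) : ℤ) := by
        rw [hexp, pow_add]; push_cast; ring
      rw [hKq2] at hstep
      refine hstep.trans ?_
      have hrat : (((2 ^ P.s : ℕ) : ℝ) / ((2 ^ e1 : ℕ) : ℝ)) = 2 ^ (P.a * (m + 1)) := by
        rw [hXe, pow_add]; push_cast
        field_simp
      rw [hrat]
      have hR : Real.sqrt ((2 : ℝ) ^ (P.a * (m + 1))) =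
          Real.sqrt (2 ^ (P.a * m)) * Real.sqrt (2 ^ P.a) := by
        rw [← Real.sqrt_mul (by positivity), ← pow_add, mul_add, mul_one]
      rw [hR]
      set R := Real.sqrt ((2 : ℝ) ^ (P.a * m)) with hRdef
      set k := Real.sqrt ((2 : ℝ) ^ P.a) with hk
      have hkc : Real.sqrt (((2 ^ P.a : ℕ) : ℝ)) = k := by rw [hk]; push_cast; rfl
      rw [hkc]
      have hR0 : 0 ≤ R := Real.sqrt_nonneg _
      have hk0 : 0 ≤ k := Real.sqrt_nonneg _
      have hB1 : (1 : ℝ) ≤ (4 * P.A ^ 3) ^ m := by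
        apply one_le_pow₀
        have : (1 : ℝ) ≤ P.A ^ 3 := one_le_pow₀ hA
        linarith
      rw [pow_succ]
      set B := (4 * P.A ^ 3) ^ m with hB
      have hA3 : 0 ≤ P.A ^ 3 := by positivity
      calc P.A ^ 3 * k * (1.25 * P.A * (R * k) +
            2.5 * ((Y.image (fun y => y / ((2 ^ (P.s' + P.a * (P.j - m)) : ℕ) : ℤ))).card : ℝ))
          ≤ P.A ^ 3 * k * (1.25 * P.A * (R * k) + 2.5 * (R * (6 * P.A * k * B))) := by
            gcongr
        _ = P.A ^ 3 * k * (P.A * R * k) * (1.25 + 15 * B) := by ring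
        _ ≤ P.A ^ 3 * k * (P.A * R * k) * (24 * B) := by
            apply mul_le_mul_of_nonneg_left (by linarith)
            positivity
        _ = R * k * (6 * P.A * k * (B * (4 * P.A ^ 3))) := by ring
  have h := key P.j le_rfl
  rw [Nat.sub_self, mul_zero, add_zero] at h
  unfold GP.mp
  push_cast at h
  exact h

end MHL
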