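import Pool.Agent.MHL.StB

/-!
# MHL: the context is invariant under transposition
-/

set_option autoImplicit false

namespace MHL

lemma ct_s1 (E : Env) (z : Pt) : (E.tr.s1 z).swap = E.s2 z.swap := rfl

lemma ct_s2 (E : Env) (z : Pt) : (E.tr.s2 z).swap = E.s1 z.swap := rfl

lemma ct_tru (u : Pt → ℝ) (z : Pt) : tru u z = u z.swap := rfl

lemma ct_mem {c : Pt} {r : ℕ} {z : Pt} : z ∈ bx c r ↔ z.swap ∈ bx c.swap r := by
  rw [mem_bx, mem_bx]
  simp only [Prod.fst_swap, Prod.snd_swap]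
  tauto

lemma ct_mem0 {r : ℕ} {z : Pt} (h : z ∈ bx (0, 0) r) : z.swap ∈ bx (0, 0) r := by
  rw [mem_bx] at h ⊢
  simp only [Prod.fst_swap, Prod.snd_swap]
  exact ⟨h.2, h.1⟩

lemma ct_en (E : Env) (u : Pt → ℝ) (c : Pt) (r : ℕ) :
    en E.tr (tru u) (bx c r) = en E u (bx c.swap r) := by
  unfold en
  congr 1
  refine Finset.sum_bij (fun z _ => z.swap) (fun z hz => ct_mem.1 hz) ?_ ?_ ?_
  · intro a _ b _ h
    exact Prod.swap_injective h
  · intro b hb
    refine ⟨b.swap, ?_, Prod.swap_swap b⟩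
    rw [ct_mem, Prod.swap_swap]
    exact hb
  · intro z _
    simp only [ct_tru, ct_s1, ct_s2]
    ring

lemma ct_harm {E : Env} {u : Pt → ℝ} {z : Pt} (h : Hm E u z.swap) : Hm E.tr (tru u) z := by
  unfold Hm at *
  simp only [ct_tru, ct_s1, ct_s2]
  linarith

theorem thm_Ct : St_Ct := by
  intro P E u hC
  refine ⟨⟨hC.good.gv, hC.good.gh⟩, ?_, ?_, ?_⟩
  · intro z hz
    exact ct_harm (hC.harm _ (ct_mem0 hz))
  · have h0 := ct_en E u (0, 0) (4 * 2 ^ P.s)
    rw [show ((0, 0) : Pt).swap = (0, 0) from rfl] at h0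
    rw [h0]
    exact hC.energy
  · intro i c hi hsub z hz w hw
    rw [ct_en, ct_tru, ct_tru]
    refine hC.osc i c.swap hi ?_ _ (ct_mem.1 hz) _ (ct_mem.1 hw)
    intro v hv
    have h1 : v.swap ∈ bx c (4 * 2 ^ i) := by
      rw [ct_mem, Prod.swap_swap]
      exact hv
    have h2 := ct_mem0 (hsub h1)
    rw [Prod.swap_swap] at h2
    exact h2

end MHL
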