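import Pool.Agent.MHL.StA

/-!
# MHL: restriction of a wall to `[a,x] x [c,y]`
-/

set_option autoImplicit false

namespace MHL

lemma dn_mem {a b c d p q : ℤ} :
    ((p, q) : Pt) ∈ (rc a b c d : Set Pt) ↔ (a ≤ p ∧ p ≤ b) ∧ (c ≤ q ∧ q ≤ d) := by
  rw [Finset.mem_coe, mem_rc]

lemma dn_sub {a b c d x y : ℤ} (hx : x ≤ b) (hy : y ≤ d) :
    (rc a x c y : Set Pt) ⊆ rc a b c d := by
  rintro ⟨p, q⟩ h
  rw [dn_mem] at h ⊢
  omega

theorem thm_DN (h3 : St_T3) (ht : St_Tr1) : St_DN := by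
  intro u a b c d x y lev U hU hax hxb hcy hyd hay
  have hRR : (rc a x c y : Set Pt) ⊆ rc a b c d := dn_sub hxb hyd
  -- left trace of the wall
  obtain ⟨t, htc, htd, hleft⟩ := ht a b c d U (by omega) (by omega) hU.sub hU.cU hU.cB
    (hU.top a le_rfl (by omega)) (hU.bot a le_rfl (by omega))
  have hty : t ≤ y := (hleft y (by omega) hyd).1 hay
  set R : Set Pt := (rc a x c y : Set Pt) with hR
  set A : Set Pt := comp (U ∩ R) (a, y) with hA
  set B : Set Pt := comp (R \ A) (a, c) with hB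
  have hdn : dn U a x c y = R \ B := rfl
  have hAU : A ⊆ U ∩ R := comp_sub
  have hayR : ((a, y) : Pt) ∈ R := by rw [hR, dn_mem]; omega
  have hacR : ((a, c) : Pt) ∈ R := by rw [hR, dn_mem]; omega
  have hbotA : ∀ x' : ℤ, a ≤ x' → x' ≤ x → ((x', c) : Pt) ∉ A := fun x' h1 h2 h =>
    hU.bot x' h1 (by omega) (hAU h).1
  obtain ⟨f1, f2, f3, f4⟩ := h3 R A (a, c) (con_rc _ _ _ _) (fun z hz => (hAU hz).2) con_comp
    ⟨(a, y), mem_comp_self ⟨hay, hayR⟩⟩ hacR (hbotA a le_rfl hax)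
  have hBR : B ⊆ R \ A := comp_sub
  have hcompl : R \ (R \ B) = B := by
    ext z
    constructor
    · rintro ⟨h1, h2⟩
      by_contra h
      exact h2 ⟨h1, h⟩
    · intro h
      exact ⟨(hBR h).1, fun h' => h'.2 h⟩
  have hacB : ((a, c) : Pt) ∈ R \ A := ⟨hacR, hbotA a le_rfl hax⟩
  rw [hdn, hcompl]
  refine ⟨fun z hz => hz.1, ?_, f2, f3, f1 (mem_comp_self ⟨hay, hayR⟩), ?_, ?_, ?_⟩
  · rintro z w hz hzR hwR hw hadj
    have hwB : w ∈ B := by
      by_contra h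
      exact hw ⟨hwR, h⟩
    have hzA : z ∈ A := f4 z w hzR hz.2 hwB hadj
    have hwU : w ∉ U := fun h => (hBR hwB).2 (comp_step hzA hadj ⟨h, hwR⟩)
    exact hU.ec z w (hAU hzA).1 (hRR hzR) (hRR hwR) hwU hadj
  · intro x' h1 h2 h
    refine h.2 (cn_hor h1 fun x'' h3 h4 => ⟨?_, hbotA x'' h3 (by omega)⟩)
    rw [hR, dn_mem]; omega
  · intro y' h1 h2
    rw [hleft y' h1 (by omega)]
    constructor
    · intro h
      by_contra hlt
      refine h.2 (cn_vert h1 fun y'' h3 h4 => ⟨?_, fun h5 => ?_⟩)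
      · rw [hR, dn_mem]; omega
      · have := (hleft y'' h3 (by omega)).1 (hAU h5).1
        omega
    · intro h
      refine f1 (Cn.symm4 (cn_vert h2 fun y'' h3 h4 => ⟨?_, ?_⟩))
      · exact (hleft y'' (by omega) (by omega)).2 (by omega)
      · rw [hR, dn_mem]; omega
  · intro hyd' x' h1 h2
    refine f1 ?_
    have h5 : Cn adj4 (U ∩ R) (a, y) (x', y) := cn_hor h1 fun x'' h3 h4 => ⟨?_, ?_⟩
    · rw [← hyd']; exact h5
    · rw [hyd']; exact hU.top x'' h3 (by omega)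
    · rw [hR, dn_mem]; omega

end MHL
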