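import Pool.Agent.MHL.StA

/-!
# MHL: restriction of a wall to a lower subrectangle, monotonicity and the right side
-/

set_option autoImplicit false

namespace MHL

lemma dnr_mem {a b c d p q : ℤ} : ((p, q) ∈ (rc a b c d : Set Pt)) ↔
    (a ≤ p ∧ p ≤ b) ∧ (c ≤ q ∧ q ≤ d) := by
  rw [Finset.mem_coe, mem_rc]

theorem thm_DNm : St_DNm := by
  intro a x c y U U' h
  have h1 : comp (U' ∩ (rc a x c y : Set Pt)) (a, y) ⊆ comp (U ∩ (rc a x c y : Set Pt)) (a, y) :=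
    comp_mono (Set.inter_subset_inter_left _ h)
  exact Set.sdiff_subset_sdiff_right (comp_mono (Set.sdiff_subset_sdiff_right h1))

/-- a discrete jump -/
lemma dnr_jump {P : ℤ → Prop} {y d : ℤ} (hyd : y ≤ d) (h1 : ¬ P y) (h2 : P d) :
    ∃ t : ℤ, y ≤ t ∧ t < d ∧ ¬ P t ∧ P (t + 1) := by
  obtain ⟨n, rfl⟩ : ∃ n : ℕ, d = y + n := ⟨(d - y).toNat, by omega⟩
  clear hyd
  induction n with
  | zero => exact absurd (by simpa using h2) h1
  | succ n ih =>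
    by_cases hP : P (y + n)
    · obtain ⟨t, h3, h4, h5, h6⟩ := ih hP
      exact ⟨t, h3, by push_cast; omega, h5, h6⟩
    · refine ⟨y + n, by omega, by push_cast; omega, hP, ?_⟩
      have : y + ((n + 1 : ℕ) : ℤ) = y + n + 1 := by push_cast; ring
      rwa [this] at h2

theorem thm_DNR (h3 : St_T3) (ht : St_Tr1) : St_DNR := by
  intro u a b c d x y lev U W hax hxb hcy hyd hU hxy
  set R : Set Pt := (rc a x c y : Set Pt) with hR
  set A1 : Set Pt := comp (U ∩ R) (a, y) with hA1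
  have hmem : ∀ p q : ℤ, (p, q) ∈ R ↔ (a ≤ p ∧ p ≤ x) ∧ (c ≤ q ∧ q ≤ y) := fun p q => dnr_mem
  have hA1sub : A1 ⊆ U ∩ R := comp_sub
  have hay : (a, y) ∈ A1 := mem_comp_self ⟨hU, (hmem a y).2 (by omega)⟩
  have hbotU : ∀ x' : ℤ, a ≤ x' → x' ≤ x → (x', c) ∉ U := fun x' h1 h2 =>
    W.bot x' h1 (h2.trans hxb)
  have hacR : (a, c) ∈ R := (hmem a c).2 (by omega)
  have hacA : (a, c) ∉ A1 := fun h => hbotU a le_rfl hax (hA1sub h).1
  obtain ⟨-, hC1, hC2, hC3⟩ := h3 R A1 (a, c) (con_rc _ _ _ _) (fun z hz => (hA1sub hz).2)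
    con_comp ⟨_, hay⟩ hacR hacA
  have hV : dn U a x c y = R \ comp (R \ A1) (a, c) := rfl
  rw [hV] at hxy
  obtain ⟨t, ht1, ht2, ht3⟩ := ht a b c d U (hax.trans hxb) (hcy.le.trans hyd) W.sub W.cU W.cB
    (W.top a le_rfl (hax.trans hxb)) (W.bot a le_rfl (hax.trans hxb))
  have hty : t ≤ y := (ht3 y hcy.le hyd).1 hU
  have hxc : (x, c) ∈ comp (R \ A1) (a, c) := by
    refine cn_hor hax fun x'' h3' h4 => ⟨(hmem x'' c).2 (by omega), fun h => ?_⟩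
    exact hbotU x'' h3' (by omega) (hA1sub h).1
  obtain ⟨y1, h1, h2, h4, h5⟩ := dnr_jump (P := fun q => (x, q) ∉ comp (R \ A1) (a, c)) hcy.le
    (by simpa using hxc) hxy.2
  simp only [not_not] at h4
  have hy1R : (x, y1 + 1) ∈ R := (hmem x (y1 + 1)).2 (by omega)
  have hadj : adj4 ((x, y1 + 1) : Pt) (x, y1) := by
    rw [adj4_iff]; right; simp
  have hy1A : (x, y1 + 1) ∈ A1 := hC3 (x, y1 + 1) (x, y1) hy1R h5 h4 hadj
  have hsub2 : U ∩ R ⊆ U ∩ (rc a x c d : Set Pt) := by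
    rintro ⟨p, q⟩ ⟨hpU, hp⟩
    refine ⟨hpU, ?_⟩
    rw [hmem] at hp
    rw [dnr_mem]
    omega
  have hp1 : Cn adj4 (U ∩ (rc a x c d : Set Pt)) (a, y) (a, d) := by
    refine cn_vert hyd fun y'' h6 h7 => ⟨(ht3 y'' (by omega) h7).2 (by omega), dnr_mem.2 (by omega)⟩
  have hp2 : Cn adj4 (U ∩ (rc a x c d : Set Pt)) (a, y) (x, y1 + 1) :=
    Cn.mono (show Cn adj4 (U ∩ R) (a, y) (x, y1 + 1) from hy1A) hsub2
  have hp3 : (x, y1 + 1) ∈ comp (U ∩ (rc a x c d : Set Pt)) (a, d) := hp1.symm4.trans hp2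
  refine ⟨y1 + 1, by omega, by omega, dnr_mem.2 (by omega), fun h => ?_⟩
  exact (comp_sub h).2 hp3

end MHL
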