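import Pool.Agent.MHL.StB

/-!
# MHL: flux identity (F1)
-/

set_option autoImplicit false

namespace MHL

lemma f1_up (F : ℤ → ℝ) (a b : ℤ) (hab : a ≤ b) :
    ∑ x ∈ Finset.Ico a b, (F (x + 1) - F x) = F b - F a := by
  induction b, hab using Int.le_induction with
  | base => simp
  | succ b hb ih =>
    have h1 : Finset.Ico a (b + 1) = insert b (Finset.Ico a b) := by
      ext x
      simp only [Finset.mem_Ico, Finset.mem_insert]
      omega
    rw [h1, Finset.sum_insert (by simp), ih]
    ring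

lemma f1_down (F : ℤ → ℝ) (a b : ℤ) (hab : a ≤ b) :
    ∑ x ∈ Finset.Ioc a b, (F (x - 1) - F x) = F a - F b := by
  induction b, hab using Int.le_induction with
  | base => simp
  | succ b hb ih =>
    have h1 : Finset.Ioc a (b + 1) = insert (b + 1) (Finset.Ioc a b) := by
      ext x
      simp only [Finset.mem_Ioc, Finset.mem_insert]
      omega
    rw [h1, Finset.sum_insert (by simp), ih]
    have h2 : b + 1 - 1 = b := by ring
    rw [h2]
    ring

lemma f1_row (F : ℤ → ℝ) (a b e : ℤ) (hab : a ≤ b) (he : e = 1 ∨ e = -1) :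
    ∑ x ∈ Finset.Icc a b, (if a ≤ x + e ∧ x + e ≤ b then F (x + e) - F x else 0)
      = (e : ℝ) * (F b - F a) := by
  rcases he with rfl | rfl
  · rw [← Finset.sum_filter]
    have h1 : (Finset.Icc a b).filter (fun x => a ≤ x + 1 ∧ x + 1 ≤ b) = Finset.Ico a b := by
      ext x
      simp only [Finset.mem_filter, Finset.mem_Icc, Finset.mem_Ico]
      omega
    rw [h1, f1_up F a b hab]
    push_cast
    ring
  · rw [← Finset.sum_filter]
    have h1 : (Finset.Icc a b).filter (fun x => a ≤ x + -1 ∧ x + -1 ≤ b) = Finset.Ioc a b := by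
      ext x
      simp only [Finset.mem_filter, Finset.mem_Icc, Finset.mem_Ioc]
      omega
    rw [h1]
    have h2 := f1_down F a b hab
    simp only [sub_eq_add_neg] at h2 ⊢
    rw [h2]
    push_cast
    ring

lemma f1_rc (a b c d : ℤ) : rc a b c d = Finset.Icc a b ×ˢ Finset.Icc c d := by
  ext z
  rw [mem_rc, Finset.mem_product, Finset.mem_Icc, Finset.mem_Icc]

theorem thm_F1 : St_F1 := by
  intro E G a b c d hab hcd
  rw [Finset.sum_add_distrib]
  unfold flux
  congr 1
  · rw [f1_rc, Finset.sum_product_right]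
    refine Finset.sum_congr rfl fun y hy => ?_
    rw [← f1_row (fun x => G (x, y)) a b (E.h y) hab (E.hh y)]
    refine Finset.sum_congr rfl fun x hx => ?_
    have hy' := Finset.mem_Icc.1 hy
    simp only [Env.s1, Finset.mem_product, Finset.mem_Icc]
    have : ((a ≤ x + E.h y ∧ x + E.h y ≤ b) ∧ (c ≤ y ∧ y ≤ d)) ↔
        (a ≤ x + E.h y ∧ x + E.h y ≤ b) := by tauto
    rw [if_congr this rfl rfl]
  · rw [f1_rc, Finset.sum_product]
    refine Finset.sum_congr rfl fun x hx => ?_
    rw [← f1_row (fun y => G (x, y)) c d (E.v x) hcd (E.hv x)]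
    refine Finset.sum_congr rfl fun y hy => ?_
    have hx' := Finset.mem_Icc.1 hx
    simp only [Env.s2, Finset.mem_product, Finset.mem_Icc]
    have : ((a ≤ x ∧ x ≤ b) ∧ (c ≤ y + E.v x ∧ y + E.v x ≤ d)) ↔
        (c ≤ y + E.v x ∧ y + E.v x ≤ d) := by tauto
    rw [if_congr this rfl rfl]

end MHL
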