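import Pool.Agent.MHL.StB

/-!
# MHL: gradient and second difference of the two-level phase
-/

set_option autoImplicit false

namespace MHL

lemma f2_cl_eq {c1 c2 s : ℝ} (h : c1 < c2) :
    cl c1 c2 s = (max (s - c1) 0 - max (s - c2) 0) / (c2 - c1) := by
  rcases le_total s c1 with h1 | h1
  · rw [cl_of_le h h1, max_eq_right (by linarith), max_eq_right (by linarith)]; simp
  · rcases le_total s c2 with h2 | h2
    · rw [cl_of_mem h h1 h2, max_eq_left (by linarith), max_eq_right (by linarith)]; simp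
    · rw [cl_of_ge h h2, max_eq_left (by linarith), max_eq_left (by linarith)]
      rw [show s - c1 - (s - c2) = c2 - c1 by ring, div_self (by linarith)]

lemma f2_kink (s t : ℝ) : |max (s + t) 0 + max (s - t) 0 - 2 * max s 0| = max (|t| - |s|) 0 := by
  rcases le_total 0 s with hs | hs <;> rcases le_total 0 t with ht | ht <;>
    simp only [abs_of_nonneg, abs_of_nonpos, hs, ht, max_eq_left, max_eq_right]
  · rw [max_eq_left (show (0:ℝ) ≤ s + t by linarith)]
    rcases le_total s t with h | h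
    · rw [max_eq_right (show s - t ≤ 0 by linarith), max_eq_left (show (0:ℝ) ≤ t - s by linarith),
        abs_of_nonneg (by linarith)]; ring
    · rw [max_eq_left (show (0:ℝ) ≤ s - t by linarith), max_eq_right (show t - s ≤ 0 by linarith)]
      rw [show s + t + (s - t) - 2 * s = 0 by ring, abs_zero]
  · rw [max_eq_left (show (0:ℝ) ≤ s - t by linarith)]
    rcases le_total s (-t) with h | h
    · rw [max_eq_right (show s + t ≤ 0 by linarith), max_eq_left (show (0:ℝ) ≤ -t - s by linarith),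
        abs_of_nonneg (by linarith)]; ring
    · rw [max_eq_left (show (0:ℝ) ≤ s + t by linarith), max_eq_right (show -t - s ≤ 0 by linarith)]
      rw [show s + t + (s - t) - 2 * s = 0 by ring, abs_zero]
  · rw [max_eq_right (show s - t ≤ 0 by linarith)]
    rcases le_total (-s) t with h | h
    · rw [max_eq_left (show (0:ℝ) ≤ s + t by linarith), max_eq_left (show (0:ℝ) ≤ t - -s by linarith),
        abs_of_nonneg (by linarith)]; ring
    · rw [max_eq_right (show s + t ≤ 0 by linarith), max_eq_right (show t - -s ≤ 0 by linarith)]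
      simp
  · rw [max_eq_right (show s + t ≤ 0 by linarith)]
    rcases le_total (-s) (-t) with h | h
    · rw [max_eq_left (show (0:ℝ) ≤ s - t by linarith),
        max_eq_left (show (0:ℝ) ≤ -t - -s by linarith), abs_of_nonneg (by linarith)]; ring
    · rw [max_eq_right (show s - t ≤ 0 by linarith), max_eq_right (show -t - -s ≤ 0 by linarith)]
      simp

/-- second difference of the clamp -/
lemma f2_cl2 {c1 c2 s t : ℝ} (h : c1 < c2) :
    |cl c1 c2 (s + t) + cl c1 c2 (s - t) - 2 * cl c1 c2 s| ≤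
      (max (|t| - |s - c1|) 0 + max (|t| - |s - c2|) 0) / (c2 - c1) := by
  have hpos : (0 : ℝ) < c2 - c1 := by linarith
  rw [f2_cl_eq h, f2_cl_eq h, f2_cl_eq h, ← f2_kink (s - c1) t, ← f2_kink (s - c2) t]
  rw [show (max (s + t - c1) 0 - max (s + t - c2) 0) / (c2 - c1) +
      (max (s - t - c1) 0 - max (s - t - c2) 0) / (c2 - c1) -
      2 * ((max (s - c1) 0 - max (s - c2) 0) / (c2 - c1)) =
      ((max (s - c1 + t) 0 + max (s - c1 - t) 0 - 2 * max (s - c1) 0) -
        (max (s - c2 + t) 0 + max (s - c2 - t) 0 - 2 * max (s - c2) 0)) / (c2 - c1) by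
    rw [show s + t - c1 = s - c1 + t by ring, show s + t - c2 = s - c2 + t by ring,
      show s - t - c1 = s - c1 - t by ring, show s - t - c2 = s - c2 - t by ring]
    ring]
  rw [abs_div, abs_of_pos hpos]
  exact div_le_div_of_nonneg_right (abs_sub _ _) hpos.le

/-- the phase of `w` is the clamp unless the values are on the far side -/
lemma f2_ph (u : Pt → ℝ) (U1 U2 : Set Pt) (c1 c2 : ℝ) (hU : U2 ⊆ U1) (z : Pt) :
    (z ∈ U2 ∧ ph u U1 U2 c1 c2 z = 1) ∨
    (z ∈ U1 ∧ z ∉ U2 ∧ ph u U1 U2 c1 c2 z = cl c1 c2 (u z)) ∨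
    (z ∉ U1 ∧ z ∉ U2 ∧ ph u U1 U2 c1 c2 z = 0) := by
  unfold ph
  by_cases h2 : z ∈ U2
  · left; simp [h2]
  · by_cases h1 : z ∈ U1
    · right; left; simp [h1, h2]
    · right; right; simp [h1, h2]

/-- adjacent points: both phases are clamps, or both in `U2`, or both outside `U1` -/
lemma f2_pair {u : Pt → ℝ} {R U1 U2 : Set Pt} {c1 c2 : ℝ} (h : c1 < c2) (hU : U2 ⊆ U1)
    (e1 : EC u R U1 c1) (e2 : EC u R U2 c2) {z w : Pt} (hz : z ∈ R) (hw : w ∈ R)
    (hzw : adj4 z w) :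
    (ph u U1 U2 c1 c2 z = cl c1 c2 (u z) ∧ ph u U1 U2 c1 c2 w = cl c1 c2 (u w)) ∨
    (z ∈ U2 ∧ w ∈ U2 ∧ ph u U1 U2 c1 c2 z = 1 ∧ ph u U1 U2 c1 c2 w = 1) ∨
    (z ∉ U1 ∧ w ∉ U1 ∧ ph u U1 U2 c1 c2 z = 0 ∧ ph u U1 U2 c1 c2 w = 0) := by
  have hwz := adj4_symm hzw
  rcases f2_ph u U1 U2 c1 c2 hU z with ⟨z2, pz⟩ | ⟨z1, z2, pz⟩ | ⟨z1, z2, pz⟩ <;>
    rcases f2_ph u U1 U2 c1 c2 hU w with ⟨w2, pw⟩ | ⟨w1, w2, pw⟩ | ⟨w1, w2, pw⟩
  · exact Or.inr (Or.inl ⟨z2, w2, pz, pw⟩)
  · left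
    have hh := e2 z w z2 hz hw w2 hzw
    exact ⟨by rw [pz, cl_of_ge h hh.1.le], pw⟩
  · left
    have hh := e2 z w z2 hz hw w2 hzw
    have hh1 := e1 z w (hU z2) hz hw w1 hzw
    exact ⟨by rw [pz, cl_of_ge h hh.1.le], by rw [pw, cl_of_le h hh1.2]⟩
  · left
    have hh := e2 w z w2 hw hz z2 hwz
    exact ⟨pz, by rw [pw, cl_of_ge h hh.1.le]⟩
  · exact Or.inl ⟨pz, pw⟩
  · left
    have hh1 := e1 z w z1 hz hw w1 hzw
    exact ⟨pz, by rw [pw, cl_of_le h hh1.2]⟩
  · left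
    have hh := e2 w z w2 hw hz z2 hwz
    have hh1 := e1 w z (hU w2) hw hz z1 hwz
    exact ⟨by rw [pz, cl_of_le h hh1.2], by rw [pw, cl_of_ge h hh.1.le]⟩
  · left
    have hh1 := e1 w z w1 hw hz z1 hwz
    exact ⟨by rw [pz, cl_of_le h hh1.2], pw⟩
  · exact Or.inr (Or.inr ⟨z1, w1, pz, pw⟩)

/-- a successor of a point of `U2`: the defect of the phase -/
lemma f2_top {u : Pt → ℝ} {R U1 U2 : Set Pt} {c1 c2 : ℝ} (h : c1 < c2) (hU : U2 ⊆ U1)
    (e1 : EC u R U1 c1) (e2 : EC u R U2 c2) {z w : Pt} (hz : z ∈ R) (hw : w ∈ R)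
    (hzw : adj4 z w) (z2 : z ∈ U2) :
    ph u U1 U2 c1 c2 w = 1 ∨ (c2 < u z ∧ u w ≤ c2 ∧ ph u U1 U2 c1 c2 w = cl c1 c2 (u w)) := by
  rcases f2_ph u U1 U2 c1 c2 hU w with ⟨w2, pw⟩ | ⟨w1, w2, pw⟩ | ⟨w1, w2, pw⟩
  · exact Or.inl pw
  · have hh := e2 z w z2 hz hw w2 hzw
    exact Or.inr ⟨hh.1, hh.2, pw⟩
  · have hh := e2 z w z2 hz hw w2 hzw
    have hh1 := e1 z w (hU z2) hz hw w1 hzw
    exact Or.inr ⟨hh.1, hh.2, by rw [pw, cl_of_le h hh1.2]⟩

lemma f2_bot {u : Pt → ℝ} {R U1 U2 : Set Pt} {c1 c2 : ℝ} (h : c1 < c2) (hU : U2 ⊆ U1)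
    (e1 : EC u R U1 c1) (e2 : EC u R U2 c2) {z w : Pt} (hz : z ∈ R) (hw : w ∈ R)
    (hzw : adj4 z w) (z1 : z ∉ U1) :
    ph u U1 U2 c1 c2 w = 0 ∨ (u z ≤ c1 ∧ c1 < u w ∧ ph u U1 U2 c1 c2 w = cl c1 c2 (u w)) := by
  have hwz := adj4_symm hzw
  rcases f2_ph u U1 U2 c1 c2 hU w with ⟨w2, pw⟩ | ⟨w1, w2, pw⟩ | ⟨w1, w2, pw⟩
  · have hh := e2 w z w2 hw hz (fun hz2 => z1 (hU hz2)) hwz
    have hh1 := e1 w z (hU w2) hw hz z1 hwz
    exact Or.inr ⟨hh1.2, hh1.1, by rw [pw, cl_of_ge h hh.1.le]⟩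
  · have hh1 := e1 w z w1 hw hz z1 hwz
    exact Or.inr ⟨hh1.2, hh1.1, pw⟩
  · exact Or.inl pw

/-- one sided bounds for the clamp -/
lemma f2_one_sub {c1 c2 s : ℝ} (h : c1 < c2) (hs : s ≤ c2) :
    1 - cl c1 c2 s ≤ (c2 - s) / (c2 - c1) := by
  have hpos : (0 : ℝ) < c2 - c1 := by linarith
  rw [f2_cl_eq h, max_eq_right (show s - c2 ≤ 0 by linarith), sub_zero, sub_le_iff_le_add,
    ← add_div, le_div_iff₀ hpos]
  linarith [le_max_left (s - c1) 0]

lemma f2_cl_le {c1 c2 s : ℝ} (h : c1 < c2) (hs : c1 ≤ s) :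
    cl c1 c2 s ≤ (s - c1) / (c2 - c1) := by
  have hpos : (0 : ℝ) < c2 - c1 := by linarith
  rw [f2_cl_eq h, max_eq_left (show 0 ≤ s - c1 by linarith)]
  refine div_le_div_of_nonneg_right ?_ hpos.le
  linarith [le_max_right (s - c2) 0]

theorem thm_F2 : St_F2 := by
  intro u R U1 U2 c1 c2 h hU hR e1 e2
  have hpos : (0 : ℝ) < c2 - c1 := by linarith
  refine ⟨?_, ?_⟩
  · intro z hz w hw hzw
    rcases f2_pair h hU e1 e2 hz hw hzw with ⟨p1, p2⟩ | ⟨_, _, p1, p2⟩ | ⟨_, _, p1, p2⟩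
    · rw [p1, p2]; exact cl_lip h
    · rw [p1, p2]; simp only [sub_self, abs_zero]; positivity
    · rw [p1, p2]; simp only [sub_self, abs_zero]; positivity
  · intro E z hz hs1 hs2 hH
    have a1 := adj4_s1 E z
    have a2 := adj4_s2 E z
    have d1 : u (E.s1 z) = u z + dd E u z := by unfold dd; ring
    have d2 : u (E.s2 z) = u z - dd E u z := by have := hH.d2; linarith
    have hgen : (ph u U1 U2 c1 c2 z = cl c1 c2 (u z) ∧
        ph u U1 U2 c1 c2 (E.s1 z) = cl c1 c2 (u (E.s1 z)) ∧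
        ph u U1 U2 c1 c2 (E.s2 z) = cl c1 c2 (u (E.s2 z))) →
        |ph u U1 U2 c1 c2 (E.s1 z) + ph u U1 U2 c1 c2 (E.s2 z) - 2 * ph u U1 U2 c1 c2 z| ≤
      (max (|dd E u z| - |u z - c1|) 0 + max (|dd E u z| - |u z - c2|) 0) / (c2 - c1) := by
      rintro ⟨p0, p1, p2⟩
      rw [p0, p1, p2, d1, d2]
      exact f2_cl2 h
    rcases f2_ph u U1 U2 c1 c2 hU z with ⟨z2, pz⟩ | ⟨z1, z2, pz⟩ | ⟨z1, z2, pz⟩
    · -- `z` in `U2`
      have t1 := f2_top h hU e1 e2 hz hs1 a1 z2
      have t2 := f2_top h hU e1 e2 hz hs2 a2 z2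
      rcases t1 with q1 | ⟨l1, l2, q1⟩
      · rcases t2 with q2 | ⟨m1, m2, q2⟩
        · rw [pz, q1, q2]
          norm_num
          positivity
        · rw [pz, q1, q2]
          rw [show (1 : ℝ) + cl c1 c2 (u (E.s2 z)) - 2 * 1 = -(1 - cl c1 c2 (u (E.s2 z))) by ring,
            abs_neg, abs_of_nonneg (by linarith [cl_le_one c1 c2 (u (E.s2 z))])]
          refine (f2_one_sub h m2).trans (div_le_div_of_nonneg_right ?_ hpos.le)
          rw [d2]
          have b1 := le_abs_self (dd E u z)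
          have b2 : |u z - c2| = u z - c2 := abs_of_pos (by linarith)
          have b3 := le_max_left (|dd E u z| - |u z - c2|) 0
          have b4 := le_max_right (|dd E u z| - |u z - c1|) 0
          rw [b2] at b3 ⊢
          linarith
      · rcases t2 with q2 | ⟨m1, m2, q2⟩
        · rw [pz, q1, q2]
          rw [show cl c1 c2 (u (E.s1 z)) + 1 - 2 * 1 = -(1 - cl c1 c2 (u (E.s1 z))) by ring,
            abs_neg, abs_of_nonneg (by linarith [cl_le_one c1 c2 (u (E.s1 z))])]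
          refine (f2_one_sub h l2).trans (div_le_div_of_nonneg_right ?_ hpos.le)
          rw [d1]
          have b1 := neg_abs_le (dd E u z)
          have b2 : |u z - c2| = u z - c2 := abs_of_pos (by linarith)
          have b3 := le_max_left (|dd E u z| - |u z - c2|) 0
          have b4 := le_max_right (|dd E u z| - |u z - c1|) 0
          rw [b2] at b3 ⊢
          linarith
        · exfalso
          rw [d1] at l2
          rw [d2] at m2
          linarith
    · -- `z` in `U1 \ U2`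
      have t1 := f2_pair h hU e1 e2 hz hs1 a1
      have t2 := f2_pair h hU e1 e2 hz hs2 a2
      rcases t1 with ⟨_, p1⟩ | ⟨k, _⟩ | ⟨k, _⟩
      · rcases t2 with ⟨_, p2⟩ | ⟨k, _⟩ | ⟨k, _⟩
        · exact hgen ⟨pz, p1, p2⟩
        · exact absurd k z2
        · exact absurd z1 k
      · exact absurd k z2
      · exact absurd z1 k
    · -- `z` outside `U1`
      have t1 := f2_bot h hU e1 e2 hz hs1 a1 z1
      have t2 := f2_bot h hU e1 e2 hz hs2 a2 z1
      rcases t1 with q1 | ⟨l1, l2, q1⟩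
      · rcases t2 with q2 | ⟨m1, m2, q2⟩
        · rw [pz, q1, q2]
          norm_num
          positivity
        · rw [pz, q1, q2]
          rw [show (0 : ℝ) + cl c1 c2 (u (E.s2 z)) - 2 * 0 = cl c1 c2 (u (E.s2 z)) by ring,
            abs_of_nonneg (cl_nonneg _ _ _)]
          refine (f2_cl_le h m2.le).trans (div_le_div_of_nonneg_right ?_ hpos.le)
          rw [d2]
          have b1 := neg_abs_le (dd E u z)
          have b2 : |u z - c1| = -(u z - c1) := abs_of_nonpos (by linarith)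
          have b3 := le_max_left (|dd E u z| - |u z - c1|) 0
          have b4 := le_max_right (|dd E u z| - |u z - c2|) 0
          rw [b2] at b3 ⊢
          linarith
      · rcases t2 with q2 | ⟨m1, m2, q2⟩
        · rw [pz, q1, q2]
          rw [show cl c1 c2 (u (E.s1 z)) + 0 - 2 * 0 = cl c1 c2 (u (E.s1 z)) by ring,
            abs_of_nonneg (cl_nonneg _ _ _)]
          refine (f2_cl_le h l2.le).trans (div_le_div_of_nonneg_right ?_ hpos.le)
          rw [d1]
          have b1 := le_abs_self (dd E u z)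
          have b2 : |u z - c1| = -(u z - c1) := abs_of_nonpos (by linarith)
          have b3 := le_max_left (|dd E u z| - |u z - c1|) 0
          have b4 := le_max_right (|dd E u z| - |u z - c2|) 0
          rw [b2] at b3 ⊢
          linarith
        · exfalso
          rw [d1] at l2
          rw [d2] at m2
          linarith

end MHL
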