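import Pool.Agent.MHL.StB

/-!
# MHL: flux of a two-level phase
-/

set_option autoImplicit false

namespace MHL

lemma f3_rc_eq (a b c d : ℤ) : rc a b c d = Finset.Icc a b ×ˢ Finset.Icc c d := by
  ext z
  rw [mem_rc, Finset.mem_product, Finset.mem_Icc, Finset.mem_Icc]

lemma f3_sum (a b c d : ℤ) (f : Pt → ℝ) :
    ∑ z ∈ rc a b c d, f z = ∑ x ∈ Finset.Icc a b, ∑ y ∈ Finset.Icc c d, f (x, y) := by
  rw [f3_rc_eq, Finset.sum_product]

/-- the part of the sides -/
noncomputable def f3_bd (f : Pt → ℝ) (a b c d : ℤ) (z : Pt) : ℝ :=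
  (if z.1 = a then f z else 0) + (if z.1 = b then f z else 0) +
  (if z.2 = c then f z else 0) + (if z.2 = d then f z else 0)

lemma f3_sum_bd (f : Pt → ℝ) {a b c d : ℤ} (hab : a ≤ b) (hcd : c ≤ d) :
    ∑ z ∈ rc a b c d, f3_bd f a b c d z =
      ∑ y ∈ Finset.Icc c d, f (a, y) + ∑ y ∈ Finset.Icc c d, f (b, y) +
      ∑ x ∈ Finset.Icc a b, f (x, c) + ∑ x ∈ Finset.Icc a b, f (x, d) := by
  have h1 : ∀ e : ℤ, e ∈ Finset.Icc a b → ∑ z ∈ rc a b c d, (if z.1 = e then f z else 0) =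
      ∑ y ∈ Finset.Icc c d, f (e, y) := by
    intro e he
    rw [f3_sum, Finset.sum_comm]
    refine Finset.sum_congr rfl fun y _ => ?_
    have h2 : ∀ x ∈ Finset.Icc a b, (if ((x, y) : Pt).1 = e then f (x, y) else 0) =
        if e = x then f (x, y) else 0 := by
      intro x _
      by_cases h : x = e
      · rw [if_pos h, if_pos h.symm]
      · rw [if_neg h, if_neg fun h' => h h'.symm]
    rw [Finset.sum_congr rfl h2, Finset.sum_ite_eq, if_pos he]
  have h2 : ∀ e : ℤ, e ∈ Finset.Icc c d → ∑ z ∈ rc a b c d, (if z.2 = e then f z else 0) =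
      ∑ x ∈ Finset.Icc a b, f (x, e) := by
    intro e he
    rw [f3_sum]
    refine Finset.sum_congr rfl fun x _ => ?_
    have h2 : ∀ y ∈ Finset.Icc c d, (if ((x, y) : Pt).2 = e then f (x, y) else 0) =
        if e = y then f (x, y) else 0 := by
      intro y _
      by_cases h : y = e
      · rw [if_pos h, if_pos h.symm]
      · rw [if_neg h, if_neg fun h' => h h'.symm]
    rw [Finset.sum_congr rfl h2, Finset.sum_ite_eq, if_pos he]
  unfold f3_bd
  rw [Finset.sum_add_distrib, Finset.sum_add_distrib, Finset.sum_add_distrib,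
    h1 a (Finset.mem_Icc.2 ⟨le_rfl, hab⟩), h1 b (Finset.mem_Icc.2 ⟨hab, le_rfl⟩),
    h2 c (Finset.mem_Icc.2 ⟨le_rfl, hcd⟩), h2 d (Finset.mem_Icc.2 ⟨hcd, le_rfl⟩)]

lemma f3_bd_nonneg {f : Pt → ℝ} (hf : ∀ z, 0 ≤ f z) (a b c d : ℤ) (z : Pt) :
    0 ≤ f3_bd f a b c d z := by
  unfold f3_bd
  have := hf z
  split_ifs <;> linarith

lemma f3_le_bd {f : Pt → ℝ} (hf : ∀ z, 0 ≤ f z) {a b c d : ℤ} {z : Pt}
    (h : (z.1 = a ∨ z.1 = b) ∨ (z.2 = c ∨ z.2 = d)) : f z ≤ f3_bd f a b c d z := by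
  unfold f3_bd
  have := hf z
  rcases h with (h | h) | (h | h)
  · rw [if_pos h]; split_ifs <;> linarith
  · rw [if_pos h]; split_ifs <;> linarith
  · rw [if_pos h]; split_ifs <;> linarith
  · rw [if_pos h]; split_ifs <;> linarith

theorem thm_F3 (h1 : St_F1) (h2 : St_F2) : St_F3 := by
  intro E u B a b c d U1 U2 c1 c2 hab hcd hB hH h21 hU1 e1 e2 hc
  obtain ⟨g1, g2⟩ := h2 u (rc a b c d) U1 U2 c1 c2 hc h21 hU1 e1 e2
  have hc' : 0 < c2 - c1 := by linarith
  obtain ⟨G, hG⟩ : ∃ G, G = ph u U1 U2 c1 c2 := ⟨_, rfl⟩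
  rw [← hG] at g1 g2 ⊢
  rw [h1 E G a b c d hab hcd]
  have key : ∀ z ∈ rc a b c d,
      |(if E.s1 z ∈ rc a b c d then G (E.s1 z) - G z else 0) +
        (if E.s2 z ∈ rc a b c d then G (E.s2 z) - G z else 0)| ≤
      (max (|dd E u z| - |u z - c1|) 0 + max (|dd E u z| - |u z - c2|) 0 +
        f3_bd (fun z => |dd E u z|) a b c d z) / (c2 - c1) := by
    intro z hz
    have hm1 : 0 ≤ max (|dd E u z| - |u z - c1|) 0 := le_max_right _ _
    have hm2 : 0 ≤ max (|dd E u z| - |u z - c2|) 0 := le_max_right _ _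
    have hb0 : 0 ≤ f3_bd (fun z => |dd E u z|) a b c d z :=
      f3_bd_nonneg (fun z => abs_nonneg _) a b c d z
    have hzm := mem_rc.1 hz
    have b1 : E.s1 z ∉ rc a b c d → (z.1 = a ∨ z.1 = b) ∨ (z.2 = c ∨ z.2 = d) := by
      intro h
      rw [mem_rc] at h
      unfold Env.s1 at h
      simp only at h
      rcases E.hh z.2 with h' | h' <;> rw [h'] at h <;> omega
    have b2 : E.s2 z ∉ rc a b c d → (z.1 = a ∨ z.1 = b) ∨ (z.2 = c ∨ z.2 = d) := by
      intro h
      rw [mem_rc] at h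
      unfold Env.s2 at h
      simp only at h
      rcases E.hv z.1 with h' | h' <;> rw [h'] at h <;> omega
    have a1 : E.s1 z ∈ rc a b c d → |G (E.s1 z) - G z| ≤ |dd E u z| / (c2 - c1) := by
      intro h
      have := g1 z hz (E.s1 z) h (adj4_s1 E z)
      rw [abs_sub_comm, abs_sub_comm (u z)] at this
      exact this
    have a2 : E.s2 z ∈ rc a b c d → |G (E.s2 z) - G z| ≤ |dd E u z| / (c2 - c1) := by
      intro h
      have := g1 z hz (E.s2 z) h (adj4_s2 E z)
      rw [abs_sub_comm, abs_sub_comm (u z), (hH z hz).d2, abs_neg] at this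
      exact this
    rw [le_div_iff₀ hc']
    by_cases s1 : E.s1 z ∈ rc a b c d
    · by_cases s2 : E.s2 z ∈ rc a b c d
      · rw [if_pos s1, if_pos s2]
        have h3 := g2 E z hz s1 s2 (hH z hz)
        rw [le_div_iff₀ hc'] at h3
        have e : G (E.s1 z) - G z + (G (E.s2 z) - G z) = G (E.s1 z) + G (E.s2 z) - 2 * G z := by
          ring
        rw [e]
        linarith
      · rw [if_pos s1, if_neg s2, add_zero]
        have h3 := a1 s1
        rw [le_div_iff₀ hc'] at h3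
        have h4 := f3_le_bd (f := fun z => |dd E u z|) (fun z => abs_nonneg _) (b2 s2)
        linarith
    · by_cases s2 : E.s2 z ∈ rc a b c d
      · rw [if_neg s1, if_pos s2, zero_add]
        have h3 := a2 s2
        rw [le_div_iff₀ hc'] at h3
        have h4 := f3_le_bd (f := fun z => |dd E u z|) (fun z => abs_nonneg _) (b1 s1)
        linarith
      · rw [if_neg s1, if_neg s2, add_zero, abs_zero, zero_mul]
        linarith
  refine (Finset.abs_sum_le_sum_abs _ _).trans ((Finset.sum_le_sum key).trans ?_)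
  rw [← Finset.sum_div, Finset.sum_add_distrib, Finset.sum_add_distrib, f3_sum_bd _ hab hcd]
  refine div_le_div_of_nonneg_right ?_ hc'.le
  have r1 : ∑ z ∈ rc a b c d, max (|dd E u z| - |u z - c1|) 0 ≤ rho E u B c1 :=
    Finset.sum_le_sum_of_subset_of_nonneg hB fun _ _ _ => le_max_right _ _
  have r2 : ∑ z ∈ rc a b c d, max (|dd E u z| - |u z - c2|) 0 ≤ rho E u B c2 :=
    Finset.sum_le_sum_of_subset_of_nonneg hB fun _ _ _ => le_max_right _ _
  unfold bsum
  linarith

end MHL
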