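import Pool.Agent.MHL.StA

/-!
# MHL: frozen statements, part B: flux identity, phases, levels, good lines
-/

set_option autoImplicit false

namespace MHL

/-! ### flux identity and phases -/

/-- boundary flux of `G` -/
noncomputable def flux (E : Env) (G : Pt → ℝ) (a b c d : ℤ) : ℝ :=
  ∑ y ∈ Finset.Icc c d, (E.h y : ℝ) * (G (b, y) - G (a, y)) +
  ∑ x ∈ Finset.Icc a b, (E.v x : ℝ) * (G (x, d) - G (x, c))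

/-- sum of `|dd|` over the four sides -/
noncomputable def bsum (E : Env) (u : Pt → ℝ) (a b c d : ℤ) : ℝ :=
  ∑ y ∈ Finset.Icc c d, |dd E u (a, y)| + ∑ y ∈ Finset.Icc c d, |dd E u (b, y)| +
  ∑ x ∈ Finset.Icc a b, |dd E u (x, c)| + ∑ x ∈ Finset.Icc a b, |dd E u (x, d)|

/-- weighted sum over an interval -/
noncomputable def xi (g : ℤ → ℤ) (F : ℤ → ℝ) (s t : ℤ) : ℝ := ∑ k ∈ Finset.Ico s t, (g k : ℝ) * F k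

/-- flux identity -/
def St_F1 : Prop := ∀ (E : Env) (G : Pt → ℝ) (a b c d : ℤ), a ≤ b → c ≤ d →
  flux E G a b c d = ∑ z ∈ rc a b c d,
    ((if E.s1 z ∈ rc a b c d then G (E.s1 z) - G z else 0) +
     (if E.s2 z ∈ rc a b c d then G (E.s2 z) - G z else 0))

/-- two-level phase: gradient and second difference -/
def St_F2 : Prop := ∀ (u : Pt → ℝ) (R U1 U2 : Set Pt) (c1 c2 : ℝ), c1 < c2 → U2 ⊆ U1 →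
  U1 ⊆ R → EC u R U1 c1 → EC u R U2 c2 →
  (∀ z ∈ R, ∀ w ∈ R, adj4 z w →
    |ph u U1 U2 c1 c2 z - ph u U1 U2 c1 c2 w| ≤ |u z - u w| / (c2 - c1)) ∧
  (∀ (E : Env) (z : Pt), z ∈ R → E.s1 z ∈ R → E.s2 z ∈ R → Hm E u z →
    |ph u U1 U2 c1 c2 (E.s1 z) + ph u U1 U2 c1 c2 (E.s2 z) - 2 * ph u U1 U2 c1 c2 z| ≤
      (max (|dd E u z| - |u z - c1|) 0 + max (|dd E u z| - |u z - c2|) 0) / (c2 - c1))

/-- flux of a phase -/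
def St_F3 : Prop := ∀ (E : Env) (u : Pt → ℝ) (B : Finset Pt) (a b c d : ℤ) (U1 U2 : Set Pt)
  (c1 c2 : ℝ), a ≤ b → c ≤ d → rc a b c d ⊆ B → (∀ z ∈ rc a b c d, Hm E u z) → U2 ⊆ U1 →
  U1 ⊆ rc a b c d → EC u (rc a b c d) U1 c1 → EC u (rc a b c d) U2 c2 → c1 < c2 →
  |flux E (ph u U1 U2 c1 c2) a b c d| ≤
    (rho E u B c1 + rho E u B c2 + bsum E u a b c d) / (c2 - c1)

/-- relation, wall from the left side to the right side -/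
def St_R1 : Prop := ∀ (E : Env) (u : Pt → ℝ) (B : Finset Pt) (a b c d : ℤ) (U1 U2 : Set Pt)
  (c1 c2 : ℝ) (t0 t1 p0 p1 : ℤ), a ≤ b → c ≤ d → rc a b c d ⊆ B →
  (∀ z ∈ rc a b c d, Hm E u z) → U2 ⊆ U1 →
  U1 ⊆ rc a b c d → EC u (rc a b c d) U1 c1 → EC u (rc a b c d) U2 c2 → c1 < c2 →
  (∀ x : ℤ, a ≤ x → x ≤ b → (x, d) ∈ U2) → (∀ x : ℤ, a ≤ x → x ≤ b → (x, c) ∉ U1) →
  (∀ y : ℤ, c ≤ y → y ≤ d → ((a, y) ∈ U1 ↔ t0 ≤ y)) →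
  (∀ y : ℤ, c ≤ y → y ≤ d → ((a, y) ∈ U2 ↔ t1 ≤ y)) →
  (∀ y : ℤ, c ≤ y → y ≤ d → ((b, y) ∈ U1 ↔ p0 ≤ y)) →
  (∀ y : ℤ, c ≤ y → y ≤ d → ((b, y) ∈ U2 ↔ p1 ≤ y)) →
  c < t0 → t0 ≤ t1 → t1 ≤ d → c < p0 → p0 ≤ p1 → p1 ≤ d →
  |((sm E.h p1 : ℝ) - sm E.v (b + 1) - xi E.h (fun y => cl c1 c2 (u (b, y))) p0 p1) -
    ((sm E.h t1 : ℝ) - sm E.v a - xi E.h (fun y => cl c1 c2 (u (a, y))) t0 t1)| ≤
    (rho E u B c1 + rho E u B c2 + bsum E u a b c d) / (c2 - c1)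

/-- relation, wall from the left side to the top side -/
def St_R2 : Prop := ∀ (E : Env) (u : Pt → ℝ) (B : Finset Pt) (a b c d : ℤ) (U1 U2 : Set Pt)
  (c1 c2 : ℝ) (t0 t1 r1 r2 : ℤ), a ≤ b → c ≤ d → rc a b c d ⊆ B →
  (∀ z ∈ rc a b c d, Hm E u z) → U2 ⊆ U1 →
  U1 ⊆ rc a b c d → EC u (rc a b c d) U1 c1 → EC u (rc a b c d) U2 c2 → c1 < c2 →
  (∀ x : ℤ, a ≤ x → x ≤ b → (x, c) ∉ U1) → (∀ y : ℤ, c ≤ y → y ≤ d → (b, y) ∉ U1) →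
  (∀ y : ℤ, c ≤ y → y ≤ d → ((a, y) ∈ U1 ↔ t0 ≤ y)) →
  (∀ y : ℤ, c ≤ y → y ≤ d → ((a, y) ∈ U2 ↔ t1 ≤ y)) →
  (∀ x : ℤ, a ≤ x → x ≤ b → ((x, d) ∈ U1 ↔ x < r1)) →
  (∀ x : ℤ, a ≤ x → x ≤ b → ((x, d) ∈ U2 ↔ x < r2)) →
  c < t0 → t0 ≤ t1 → t1 ≤ d → a < r2 → r2 ≤ r1 → r1 ≤ b →
  |((sm E.h (d + 1) : ℝ) - sm E.v r2 - xi E.v (fun x => cl c1 c2 (u (x, d))) r2 r1) -
    ((sm E.h t1 : ℝ) - sm E.v a - xi E.h (fun y => cl c1 c2 (u (a, y))) t0 t1)| ≤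
    (rho E u B c1 + rho E u B c2 + bsum E u a b c d) / (c2 - c1)

/-- relation, wall from the left side to the bottom side -/
def St_R3 : Prop := ∀ (E : Env) (u : Pt → ℝ) (B : Finset Pt) (a b c d : ℤ) (U1 U2 : Set Pt)
  (c1 c2 : ℝ) (t0 t1 r1 r2 : ℤ), a ≤ b → c ≤ d → rc a b c d ⊆ B →
  (∀ z ∈ rc a b c d, Hm E u z) → U2 ⊆ U1 →
  U1 ⊆ rc a b c d → EC u (rc a b c d) U1 c1 → EC u (rc a b c d) U2 c2 → c1 < c2 →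
  (∀ x : ℤ, a ≤ x → x ≤ b → (x, d) ∈ U2) → (∀ y : ℤ, c ≤ y → y ≤ d → (b, y) ∈ U2) →
  (∀ y : ℤ, c ≤ y → y ≤ d → ((a, y) ∈ U1 ↔ t0 ≤ y)) →
  (∀ y : ℤ, c ≤ y → y ≤ d → ((a, y) ∈ U2 ↔ t1 ≤ y)) →
  (∀ x : ℤ, a ≤ x → x ≤ b → ((x, c) ∈ U1 ↔ r1 ≤ x)) →
  (∀ x : ℤ, a ≤ x → x ≤ b → ((x, c) ∈ U2 ↔ r2 ≤ x)) →
  c < t0 → t0 ≤ t1 → t1 ≤ d → a < r1 → r1 ≤ r2 → r2 ≤ b →
  |((sm E.h c : ℝ) - sm E.v r2 + xi E.v (fun x => cl c1 c2 (u (x, c))) r1 r2) -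
    ((sm E.h t1 : ℝ) - sm E.v a - xi E.h (fun y => cl c1 c2 (u (a, y))) t0 t1)| ≤
    (rho E u B c1 + rho E u B c2 + bsum E u a b c d) / (c2 - c1)

/-! ### levels -/

/-- existence of good levels -/
def St_L1 : Prop := ∀ (P : GP) (E : Env) (u : Pt → ℝ) (cm cp : ℝ), Ctx P E u →
  cm + 1 / 4 ≤ cp → ∃ lev : ℕ → ℝ, Lv P E u cm cp lev

/-! ### good lines -/

/-- the context is invariant under transposition -/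
def St_Ct : Prop := ∀ (P : GP) (E : Env) (u : Pt → ℝ), Ctx P E u → Ctx P E.tr (tru u)

/-- sum of squares of oscillations over the boxes of a grid -/
def St_L2 : Prop := ∀ (P : GP) (E : Env) (u : Pt → ℝ) (i : ℕ), Ctx P E u → 4 * 2 ^ i ≤ 2 ^ P.s →
  ∑ k ∈ Finset.Icc (-3 * 2 ^ (P.s - i) : ℤ) (3 * 2 ^ (P.s - i)),
    ∑ l ∈ Finset.Icc (-3 * 2 ^ (P.s - i) : ℤ) (3 * 2 ^ (P.s - i)),
      osc (bx (k * 2 ^ i, l * 2 ^ i) (2 ^ i)) u ^ 2 ≤ 81 * P.L * P.e / Real.sqrt (2 ^ i)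

open Classical in
/-- few bad columns -/
def St_L3 : Prop := ∀ (P : GP) (E : Env) (u : Pt → ℝ), Ctx P E u →
  (((Finset.Ico (-3 * 2 ^ P.s : ℤ) (3 * 2 ^ P.s)).filter (fun x => ¬ GCol P E u x)).card : ℝ)
    ≤ ((P.s : ℝ) + 1) * 2 ^ P.s / P.K1

/-- good columns in all windows of length `≥ d/2` -/
def St_L4 : Prop := ∀ (P : GP) (E : Env) (u : Pt → ℝ) (p : ℤ) (w : ℕ), Ctx P E u →
  -3 * 2 ^ P.s ≤ p → p + w ≤ 3 * 2 ^ P.s → P.d ≤ 2 * w →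
  ∃ x : ℤ, p ≤ x ∧ x < p + w ∧ GCol P E u x

/-- variation along a good column -/
def St_L5 : Prop := ∀ (P : GP) (E : Env) (u : Pt → ℝ) (x : ℤ) (i : ℕ), Ctx P E u →
  GCol P E u x → 4 * 2 ^ i ≤ 2 ^ P.s →
  ∑ k ∈ Finset.Icc (-3 * 2 ^ (P.s - i) : ℤ) (3 * 2 ^ (P.s - i)),
      osc (Finset.Icc (k * 2 ^ i - 2 ^ i) (k * 2 ^ i + 2 ^ i)) (fun y : ℤ => u (x, y))
    ≤ 24 * Real.sqrt (P.K1 * P.L * P.e) / ((2 : ℝ) ^ i) ^ (1 / 4 : ℝ)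

/-- dyadic estimate of the sum of the errors along a good column -/
def St_L6 : Prop := ∀ (P : GP) (E : Env) (u : Pt → ℝ) (x : ℤ) (lev : ℕ → ℝ) (B : Finset ℕ)
  (s t : ℕ → ℤ), Ctx P E u → GCol P E u x → (∀ b < P.n, lev b + P.eta ≤ lev (b + 1)) →
  (∀ b ∈ B, 1 ≤ b ∧ b ≤ P.n) →
  (∀ b ∈ B, -3 * 2 ^ P.s ≤ s b ∧ s b ≤ t b ∧ t b ≤ 3 * 2 ^ P.s ∧ t b - s b ≤ 2 ^ P.k0) →
  ∑ b ∈ B, |xi E.h (fun y => cl (lev (b - 1)) (lev b) (u (x, y))) (s b) (t b)| ≤ P.Xi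

/-- number of exceptional levels on a good column -/
def St_L7 : Prop := ∀ (P : GP) (E : Env) (u : Pt → ℝ) (x : ℤ) (lev : ℕ → ℝ) (B : Finset ℕ)
  (s t : ℕ → ℤ), Ctx P E u → GCol P E u x → (∀ b < P.n, lev b + P.eta ≤ lev (b + 1)) →
  (∀ b ∈ B, 1 ≤ b ∧ b ≤ P.n) →
  (∀ b ∈ B, -3 * 2 ^ P.s ≤ s b ∧ s b ≤ t b ∧ t b ≤ 3 * 2 ^ P.s) →
  (∀ b ∈ B, ∀ b' ∈ B, b ≠ b' → Disjoint (Finset.Ico (s b) (t b)) (Finset.Ico (s b') (t b'))) →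
  ∃ Ex ⊆ B, (Ex.card : ℝ) ≤ 6 * 2 ^ P.s / 2 ^ P.k0 + 8 * P.Xi / P.φ ∧
    ∀ b ∈ B, b ∉ Ex →
      |xi E.h (fun y => cl (lev (b - 1)) (lev b) (u (x, y))) (s b) (t b)| ≤ P.φ / 8

/-- boundary sums over good lines -/
def St_B1 : Prop := ∀ (P : GP) (E : Env) (u : Pt → ℝ) (a b c d : ℤ), Ctx P E u →
  -3 * 2 ^ P.s ≤ a → a ≤ b → b ≤ 3 * 2 ^ P.s → -3 * 2 ^ P.s ≤ c → c ≤ d → d ≤ 3 * 2 ^ P.s →
  GCol P E u a → GCol P E u b → GRow P E u c → GRow P E u d →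
  bsum E u a b c d ≤ 10 * Real.sqrt (P.K1 * P.e)

/-- the right hand side of the relations is at most `φ/4` -/
def St_B2 : Prop := ∀ (P : GP) (E : Env) (u : Pt → ℝ) (cm cp : ℝ) (lev : ℕ → ℝ) (b : ℕ) (S : ℝ),
  Lv P E u cm cp lev → 1 ≤ b → b ≤ P.n → 0 ≤ S → S ≤ 10 * Real.sqrt (P.K1 * P.e) →
  lev (b - 1) < lev b ∧
  (rho E u (bx (0, 0) (4 * 2 ^ P.s)) (lev (b - 1)) + rho E u (bx (0, 0) (4 * 2 ^ P.s)) (lev b)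
    + S) / (lev b - lev (b - 1)) ≤ P.φ / 4

end MHL
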