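import Mathlib
import Pool.Agent.MHL.StB

/-!
# MHL: L2, sum of squares of oscillations over the boxes of a grid
-/

set_option autoImplicit false

namespace MHL

lemma l2_card (z q : ℤ) (hq : 0 < q) (M : Finset ℤ) :
    ((M.filter (fun k => |z - k * q| ≤ 4 * q)).card : ℝ) ≤ 9 := by
  have h1 : M.filter (fun k => |z - k * q| ≤ 4 * q) ⊆ Finset.Icc (z / q - 4) (z / q + 4) := by
    intro k hk
    rw [Finset.mem_filter, abs_le] at hk
    obtain ⟨_, h2, h3⟩ := hk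
    have e1 := Int.mul_ediv_add_emod z q
    have e2 := Int.emod_nonneg z hq.ne'
    have e3 := Int.emod_lt_of_pos z hq
    rw [Finset.mem_Icc]
    constructor
    · by_contra h
      push Not at h
      have h4 : k + 1 ≤ z / q - 4 := by omega
      have h5 : (k + 1) * q ≤ (z / q - 4) * q := mul_le_mul_of_nonneg_right h4 hq.le
      nlinarith
    · by_contra h
      push Not at h
      have h4 : z / q + 4 + 1 ≤ k := by omega
      have h5 : (z / q + 4 + 1) * q ≤ k * q := mul_le_mul_of_nonneg_right h4 hq.le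
      nlinarith
  have h2 := Finset.card_le_card h1
  rw [Int.card_Icc] at h2
  have h3 : (z / q + 4 + 1 - (z / q - 4)).toNat = 9 := by
    have : z / q + 4 + 1 - (z / q - 4) = 9 := by ring
    rw [this]; rfl
  rw [h3] at h2
  exact_mod_cast h2

lemma l2_le {i s : ℕ} (h : 4 * 2 ^ i ≤ 2 ^ s) : i + 2 ≤ s := by
  have h1 : 2 ^ (i + 2) ≤ 2 ^ s := by
    calc 2 ^ (i + 2) = 4 * 2 ^ i := by ring
      _ ≤ 2 ^ s := h
  exact (Nat.pow_le_pow_iff_right (by norm_num)).1 h1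

theorem thm_L2 : St_L2 := by
  classical
  intro P E u i hC hi
  have his := l2_le hi
  have hL : 0 < P.L := lt_of_lt_of_le one_pos P.hL
  set M : Finset ℤ := Finset.Icc (-3 * 2 ^ (P.s - i) : ℤ) (3 * 2 ^ (P.s - i)) with hM
  have hp : (0 : ℝ) < 2 ^ i := by positivity
  have hq : 0 < Real.sqrt (2 ^ i) := Real.sqrt_pos.2 hp
  have hpz : (0 : ℤ) < 2 ^ i := by positivity
  have hsubz : (2 : ℤ) ^ (P.s - i) * 2 ^ i = 2 ^ P.s := by
    rw [← pow_add]; congr 1; omega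
  have hiz : (4 : ℤ) * 2 ^ i ≤ 2 ^ P.s := by exact_mod_cast hi
  set Big : Finset Pt := bx (0, 0) (4 * 2 ^ P.s) with hBig
  set g : Pt → ℝ := fun z => (u (E.s1 z) - u z) ^ 2 + (u (E.s2 z) - u z) ^ 2 with hg
  have hg0 : ∀ z, 0 ≤ g z := fun z => by simp only [hg]; positivity
  have hsub : ∀ k ∈ M, ∀ l ∈ M, bx (k * 2 ^ i, l * 2 ^ i) (4 * 2 ^ i) ⊆ Big := by
    intro k hk l hl z hz
    rw [hM, Finset.mem_Icc] at hk hl
    rw [hBig, mem_bx]
    rw [mem_bx] at hz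
    push_cast at hz ⊢
    rw [abs_le, abs_le] at hz
    have k1 : (-3 * 2 ^ (P.s - i)) * 2 ^ i ≤ k * 2 ^ i := mul_le_mul_of_nonneg_right hk.1 hpz.le
    have k2 : k * 2 ^ i ≤ (3 * 2 ^ (P.s - i)) * 2 ^ i := mul_le_mul_of_nonneg_right hk.2 hpz.le
    have l1 : (-3 * 2 ^ (P.s - i)) * 2 ^ i ≤ l * 2 ^ i := mul_le_mul_of_nonneg_right hl.1 hpz.le
    have l2 : l * 2 ^ i ≤ (3 * 2 ^ (P.s - i)) * 2 ^ i := mul_le_mul_of_nonneg_right hl.2 hpz.le
    rw [mul_assoc, hsubz] at k1 k2 l1 l2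
    rw [abs_le, abs_le]
    obtain ⟨⟨z1, z2⟩, z3, z4⟩ := hz
    refine ⟨⟨?_, ?_⟩, ?_, ?_⟩ <;> linarith
  have hosc : ∀ k ∈ M, ∀ l ∈ M, osc (bx (k * 2 ^ i, l * 2 ^ i) (2 ^ i)) u ^ 2 ≤
      (P.L / (2 * Real.sqrt (2 ^ i))) * ∑ z ∈ bx (k * 2 ^ i, l * 2 ^ i) (4 * 2 ^ i), g z := by
    intro k hk l hl
    have h0 : 0 ≤ ∑ z ∈ bx (k * 2 ^ i, l * 2 ^ i) (4 * 2 ^ i), g z :=
      Finset.sum_nonneg fun z _ => hg0 z
    apply osc_sq_le (by positivity)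
    intro z hz w hw
    have h1 := hC.osc i (k * 2 ^ i, l * 2 ^ i) hi (hsub k hk l hl) z hz w hw
    have h2 : en E u (bx (k * 2 ^ i, l * 2 ^ i) (4 * 2 ^ i)) =
        (∑ z ∈ bx (k * 2 ^ i, l * 2 ^ i) (4 * 2 ^ i), g z) / 2 := rfl
    rw [h2] at h1
    have h3 : (u z - u w) ^ 2 ≤
        (P.L * ((∑ z ∈ bx (k * 2 ^ i, l * 2 ^ i) (4 * 2 ^ i), g z) / 2)) / Real.sqrt (2 ^ i) := by
      rw [le_div_iff₀ hq, mul_comm]
      exact h1
    refine h3.trans (le_of_eq ?_)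
    field_simp
  -- the double sum
  have hsum : ∑ k ∈ M, ∑ l ∈ M, ∑ z ∈ bx (k * 2 ^ i, l * 2 ^ i) (4 * 2 ^ i), g z ≤
      81 * ∑ z ∈ Big, g z := by
    have h1 : ∀ k ∈ M, ∀ l ∈ M, ∑ z ∈ bx (k * 2 ^ i, l * 2 ^ i) (4 * 2 ^ i), g z =
        ∑ z ∈ Big, g z * ((if |z.1 - k * 2 ^ i| ≤ 4 * 2 ^ i then 1 else 0) *
          (if |z.2 - l * 2 ^ i| ≤ 4 * 2 ^ i then 1 else 0)) := by
      intro k hk l hl
      rw [← Finset.sum_subset (hsub k hk l hl)]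
      · apply Finset.sum_congr rfl
        intro z hz
        rw [mem_bx] at hz
        push_cast at hz
        rw [if_pos hz.1, if_pos hz.2]
        ring
      · intro z _ hz
        rw [mem_bx] at hz
        push_cast at hz
        by_cases h1 : |z.1 - k * 2 ^ i| ≤ 4 * 2 ^ i
        · rw [if_neg (fun h2 => hz ⟨h1, h2⟩)]; ring
        · rw [if_neg h1]; ring
    have h2 : ∑ k ∈ M, ∑ l ∈ M, ∑ z ∈ bx (k * 2 ^ i, l * 2 ^ i) (4 * 2 ^ i), g z =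
        ∑ z ∈ Big, g z * ((∑ k ∈ M, (if |z.1 - k * 2 ^ i| ≤ 4 * 2 ^ i then (1 : ℝ) else 0)) *
          (∑ l ∈ M, (if |z.2 - l * 2 ^ i| ≤ 4 * 2 ^ i then (1 : ℝ) else 0))) := by
      rw [Finset.sum_congr rfl fun k hk => Finset.sum_congr rfl fun l hl => h1 k hk l hl]
      rw [Finset.sum_congr rfl fun k _ => Finset.sum_comm, Finset.sum_comm]
      apply Finset.sum_congr rfl
      intro z _
      rw [Finset.sum_mul_sum, Finset.mul_sum]
      apply Finset.sum_congr rfl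
      intro k _
      rw [Finset.mul_sum]
    rw [h2, Finset.mul_sum]
    apply Finset.sum_le_sum
    intro z _
    have h3 : ∀ t : ℤ, ∑ k ∈ M, (if |t - k * 2 ^ i| ≤ 4 * 2 ^ i then (1 : ℝ) else 0) ≤ 9 := by
      intro t
      rw [Finset.sum_boole]
      exact l2_card t (2 ^ i) hpz M
    have h4 : ∀ t : ℤ, 0 ≤ ∑ k ∈ M, (if |t - k * 2 ^ i| ≤ 4 * 2 ^ i then (1 : ℝ) else 0) := by
      intro t
      apply Finset.sum_nonneg
      intro k _
      split_ifs <;> norm_num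
    have h5 : (∑ k ∈ M, (if |z.1 - k * 2 ^ i| ≤ 4 * 2 ^ i then (1 : ℝ) else 0)) *
          (∑ l ∈ M, (if |z.2 - l * 2 ^ i| ≤ 4 * 2 ^ i then (1 : ℝ) else 0)) ≤ 9 * 9 :=
      mul_le_mul (h3 _) (h3 _) (h4 _) (by norm_num)
    calc _ ≤ g z * (9 * 9) := mul_le_mul_of_nonneg_left h5 (hg0 z)
      _ = 81 * g z := by ring
  have hen : ∑ z ∈ Big, g z ≤ 2 * P.e := by
    have h1 := hC.energy
    have h2 : en E u Big = (∑ z ∈ Big, g z) / 2 := rfl
    rw [h2] at h1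
    linarith
  calc ∑ k ∈ M, ∑ l ∈ M, osc (bx (k * 2 ^ i, l * 2 ^ i) (2 ^ i)) u ^ 2
      ≤ ∑ k ∈ M, ∑ l ∈ M, (P.L / (2 * Real.sqrt (2 ^ i))) *
          ∑ z ∈ bx (k * 2 ^ i, l * 2 ^ i) (4 * 2 ^ i), g z :=
        Finset.sum_le_sum fun k hk => Finset.sum_le_sum fun l hl => hosc k hk l hl
    _ = (P.L / (2 * Real.sqrt (2 ^ i))) *
          ∑ k ∈ M, ∑ l ∈ M, ∑ z ∈ bx (k * 2 ^ i, l * 2 ^ i) (4 * 2 ^ i), g z := by
        rw [Finset.mul_sum]
        apply Finset.sum_congr rfl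
        intro k _
        rw [Finset.mul_sum]
    _ ≤ (P.L / (2 * Real.sqrt (2 ^ i))) * (81 * (2 * P.e)) := by
        apply mul_le_mul_of_nonneg_left _ (by positivity)
        linarith
    _ = 81 * P.L * P.e / Real.sqrt (2 ^ i) := by
        field_simp

end MHL
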