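import Pool.Agent.MHL.StC
import Pool.Agent.MHL.L2

/-!
# MHL: G1, selection of a small box
-/

set_option autoImplicit false

namespace MHL

/-- the sum of the energies over the boxes of a grid -/
lemma g1_en (P : GP) (E : Env) (u : Pt → ℝ) (i : ℕ) (hC : Ctx P E u) (hi : 4 * 2 ^ i ≤ 2 ^ P.s) :
    ∑ k ∈ Finset.Icc (-3 * 2 ^ (P.s - i) : ℤ) (3 * 2 ^ (P.s - i)),
      ∑ l ∈ Finset.Icc (-3 * 2 ^ (P.s - i) : ℤ) (3 * 2 ^ (P.s - i)),
        en E u (bx (k * 2 ^ i, l * 2 ^ i) (4 * 2 ^ i)) ≤ 81 * P.e ∧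
    ∀ k ∈ Finset.Icc (-3 * 2 ^ (P.s - i) : ℤ) (3 * 2 ^ (P.s - i)),
      ∀ l ∈ Finset.Icc (-3 * 2 ^ (P.s - i) : ℤ) (3 * 2 ^ (P.s - i)),
        bx (k * 2 ^ i, l * 2 ^ i) (4 * 2 ^ i) ⊆ bx (0, 0) (4 * 2 ^ P.s) := by
  classical
  have his := l2_le hi
  set M : Finset ℤ := Finset.Icc (-3 * 2 ^ (P.s - i) : ℤ) (3 * 2 ^ (P.s - i)) with hM
  have hpz : (0 : ℤ) < 2 ^ i := by positivity
  have hsubz : (2 : ℤ) ^ (P.s - i) * 2 ^ i = 2 ^ P.s := by
    rw [← pow_add]; congr 1; omega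
  have hiz : (4 : ℤ) * 2 ^ i ≤ 2 ^ P.s := by exact_mod_cast hi
  set Big : Finset Pt := bx (0, 0) (4 * 2 ^ P.s) with hBig
  set g : Pt → ℝ := fun z => (u (E.s1 z) - u z) ^ 2 + (u (E.s2 z) - u z) ^ 2 with hg
  have hg0 : ∀ z, 0 ≤ g z := fun z => by simp only [hg]; positivity
  have hsub : ∀ k ∈ M, ∀ l ∈ M, bx (k * 2 ^ i, l * 2 ^ i) (4 * 2 ^ i) ⊆ Big := by
    intro k hk l hl z hz
    rw [hM, Finset.mem_Icc] at hk hl
    rw [hBig, mem_bx]
    rw [mem_bx] at hz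
    push_cast at hz ⊢
    rw [abs_le, abs_le] at hz
    have k1 : (-3 * 2 ^ (P.s - i)) * 2 ^ i ≤ k * 2 ^ i := mul_le_mul_of_nonneg_right hk.1 hpz.le
    have k2 : k * 2 ^ i ≤ (3 * 2 ^ (P.s - i)) * 2 ^ i := mul_le_mul_of_nonneg_right hk.2 hpz.le
    have l1 : (-3 * 2 ^ (P.s - i)) * 2 ^ i ≤ l * 2 ^ i := mul_le_mul_of_nonneg_right hl.1 hpz.le
    have l2 : l * 2 ^ i ≤ (3 * 2 ^ (P.s - i)) * 2 ^ i := mul_le_mul_of_nonneg_right hl.2 hpz.le
    rw [mul_assoc, hsubz] at k1 k2 l1 l2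
    rw [abs_le, abs_le]
    obtain ⟨⟨z1, z2⟩, z3, z4⟩ := hz
    refine ⟨⟨?_, ?_⟩, ?_, ?_⟩ <;> linarith
  refine ⟨?_, hsub⟩
  have hsum : ∑ k ∈ M, ∑ l ∈ M, ∑ z ∈ bx (k * 2 ^ i, l * 2 ^ i) (4 * 2 ^ i), g z ≤
      81 * ∑ z ∈ Big, g z := by
    have h1 : ∀ k ∈ M, ∀ l ∈ M, ∑ z ∈ bx (k * 2 ^ i, l * 2 ^ i) (4 * 2 ^ i), g z =
        ∑ z ∈ Big, g z * ((if |z.1 - k * 2 ^ i| ≤ 4 * 2 ^ i then 1 else 0) *
          (if |z.2 - l * 2 ^ i| ≤ 4 * 2 ^ i then 1 else 0)) := by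
      intro k hk l hl
      rw [← Finset.sum_subset (hsub k hk l hl)]
      · apply Finset.sum_congr rfl
        intro z hz
        rw [mem_bx] at hz
        push_cast at hz
        rw [if_pos hz.1, if_pos hz.2]
        ring
      · intro z _ hz
        rw [mem_bx] at hz
        push_cast at hz
        by_cases h1 : |z.1 - k * 2 ^ i| ≤ 4 * 2 ^ i
        · rw [if_neg (fun h2 => hz ⟨h1, h2⟩)]; ring
        · rw [if_neg h1]; ring
    have h2 : ∑ k ∈ M, ∑ l ∈ M, ∑ z ∈ bx (k * 2 ^ i, l * 2 ^ i) (4 * 2 ^ i), g z =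
        ∑ z ∈ Big, g z * ((∑ k ∈ M, (if |z.1 - k * 2 ^ i| ≤ 4 * 2 ^ i then (1 : ℝ) else 0)) *
          (∑ l ∈ M, (if |z.2 - l * 2 ^ i| ≤ 4 * 2 ^ i then (1 : ℝ) else 0))) := by
      rw [Finset.sum_congr rfl fun k hk => Finset.sum_congr rfl fun l hl => h1 k hk l hl]
      rw [Finset.sum_congr rfl fun k _ => Finset.sum_comm, Finset.sum_comm]
      apply Finset.sum_congr rfl
      intro z _
      rw [Finset.sum_mul_sum, Finset.mul_sum]
      apply Finset.sum_congr rfl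
      intro k _
      rw [Finset.mul_sum]
    rw [h2, Finset.mul_sum]
    apply Finset.sum_le_sum
    intro z _
    have h3 : ∀ t : ℤ, ∑ k ∈ M, (if |t - k * 2 ^ i| ≤ 4 * 2 ^ i then (1 : ℝ) else 0) ≤ 9 := by
      intro t
      rw [Finset.sum_boole]
      exact l2_card t (2 ^ i) hpz M
    have h4 : ∀ t : ℤ, 0 ≤ ∑ k ∈ M, (if |t - k * 2 ^ i| ≤ 4 * 2 ^ i then (1 : ℝ) else 0) := by
      intro t
      apply Finset.sum_nonneg
      intro k _
      split_ifs <;> norm_num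
    have h5 : (∑ k ∈ M, (if |z.1 - k * 2 ^ i| ≤ 4 * 2 ^ i then (1 : ℝ) else 0)) *
          (∑ l ∈ M, (if |z.2 - l * 2 ^ i| ≤ 4 * 2 ^ i then (1 : ℝ) else 0)) ≤ 9 * 9 :=
      mul_le_mul (h3 _) (h3 _) (h4 _) (by norm_num)
    calc _ ≤ g z * (9 * 9) := mul_le_mul_of_nonneg_left h5 (hg0 z)
      _ = 81 * g z := by ring
  have hen : (∑ z ∈ Big, g z) / 2 ≤ P.e := hC.energy
  have h1 : ∀ k l : ℤ, en E u (bx (k * 2 ^ i, l * 2 ^ i) (4 * 2 ^ i)) =
      (∑ z ∈ bx (k * 2 ^ i, l * 2 ^ i) (4 * 2 ^ i), g z) / 2 := fun k l => rfl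
  simp only [h1]
  simp only [← Finset.sum_div]
  linarith

/-- many blocks contain a good column -/
lemma g1_blocks (h3 : St_L3) (P : GP) (E : Env) (u : Pt → ℝ) (hC : Ctx P E u) (m2 : ℕ)
    (hm : 2 * m2 * 2 ^ P.s' = 2 ^ P.s) :
    ∃ K ⊆ Finset.Ico (2 * m2 : ℤ) (3 * m2), (m2 : ℝ) / 2 ≤ K.card ∧
      ∀ k ∈ K, ∃ x : ℤ, k * 2 ^ P.s' ≤ x ∧ x < k * 2 ^ P.s' + 2 ^ P.s' ∧ GCol P E u x := by
  classical
  set r : ℤ := 2 ^ P.s' with hr
  have hr0 : 0 < r := by positivity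
  have hmz : 2 * (m2 : ℤ) * r = 2 ^ P.s := by rw [hr]; exact_mod_cast hm
  set K0 : Finset ℤ := Finset.Ico (2 * m2 : ℤ) (3 * m2) with hK0
  set Bd := K0.filter (fun k => ¬ ∃ x : ℤ, k * r ≤ x ∧ x < k * r + r ∧ GCol P E u x) with hBd
  refine ⟨K0.filter (fun k => ∃ x : ℤ, k * r ≤ x ∧ x < k * r + r ∧ GCol P E u x),
    Finset.filter_subset _ _, ?_, fun k hk => (Finset.mem_filter.1 hk).2⟩
  have hcard : (K0.filter (fun k => ∃ x : ℤ, k * r ≤ x ∧ x < k * r + r ∧ GCol P E u x)).card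
      + Bd.card = m2 := by
    rw [hBd, Finset.card_filter_add_card_filter_not, hK0, Int.card_Ico]
    omega
  -- bad blocks
  have hb : Bd.card * 2 ^ P.s' ≤ ((Finset.Ico (-3 * 2 ^ P.s : ℤ) (3 * 2 ^ P.s)).filter
      (fun x => ¬ GCol P E u x)).card := by
    have e1 : (Bd ×ˢ Finset.Ico (0 : ℤ) r).card = Bd.card * 2 ^ P.s' := by
      rw [Finset.card_product, Int.card_Ico, sub_zero, hr]
      congr 1
    rw [← e1]
    refine Finset.card_le_card_of_injOn (fun p => p.1 * r + p.2) ?_ ?_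
    · rintro ⟨k, t⟩ hp
      simp only [Finset.coe_product, Set.mem_prod, Finset.mem_coe, hBd, Finset.mem_filter,
        Finset.mem_Ico, hK0] at hp
      obtain ⟨⟨⟨k1, k2⟩, k3⟩, t1, t2⟩ := hp
      simp only [Finset.coe_filter, Finset.mem_Ico, Set.mem_ofPred_eq]
      have e2 : 2 * (m2 : ℤ) * r ≤ k * r := mul_le_mul_of_nonneg_right k1 hr0.le
      have e3 : (k + 1) * r ≤ 3 * (m2 : ℤ) * r := mul_le_mul_of_nonneg_right (by omega) hr0.le
      have e4 : (0 : ℤ) < 2 ^ P.s := by positivity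
      have e5 : 0 ≤ (m2 : ℤ) * r := by positivity
      refine ⟨⟨by nlinarith, by nlinarith⟩, fun hg => k3 ⟨k * r + t, by linarith, by linarith, hg⟩⟩
    · rintro ⟨k, t⟩ hp ⟨k', t'⟩ hp' he
      simp only [Finset.coe_product, Set.mem_prod, Finset.mem_coe, Finset.mem_Ico] at hp hp'
      simp only at he
      have hk : k = k' := by
        by_contra hne
        rcases lt_or_gt_of_ne hne with hlt | hgt
        · have : (k + 1) * r ≤ k' * r := mul_le_mul_of_nonneg_right (by omega) hr0.le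
          nlinarith [hp.2.2, hp'.2.1]
        · have : (k' + 1) * r ≤ k * r := mul_le_mul_of_nonneg_right (by omega) hr0.le
          nlinarith [hp.2.1, hp'.2.2]
      subst hk
      have : t = t' := by linarith
      rw [this]
  have h3' := h3 P E u hC
  have hb' : (Bd.card : ℝ) * 2 ^ P.s' ≤ ((P.s : ℝ) + 1) * 2 ^ P.s / P.K1 :=
    le_trans (by exact_mod_cast hb) h3'
  have hK1 : 0 < P.K1 := lt_of_lt_of_le one_pos P.hK1
  have hd : (1 : ℝ) ≤ P.d := by exact_mod_cast P.hd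
  have hK1' : 200 * ((P.s : ℝ) + 2) < P.K1 := by
    have e1 := P.c3
    have e2 : (100 : ℝ) * P.d ≤ 2 ^ P.s := by exact_mod_cast P.c10
    have e3 : 2 * ((P.s : ℝ) + 2) * (100 * P.d) ≤ 2 * ((P.s : ℝ) + 2) * 2 ^ P.s :=
      mul_le_mul_of_nonneg_left e2 (by positivity)
    have e4 : (P.d : ℝ) * (200 * ((P.s : ℝ) + 2)) < P.d * P.K1 := by nlinarith
    exact lt_of_mul_lt_mul_left e4 (by linarith)
  have hX : (0 : ℝ) < 2 ^ P.s := by positivity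
  have hs0 : (0 : ℝ) ≤ P.s := by positivity
  have h4 : ((P.s : ℝ) + 1) * 2 ^ P.s / P.K1 ≤ 2 ^ P.s / 200 := by
    rw [div_le_div_iff₀ hK1 (by norm_num)]
    nlinarith [mul_le_mul_of_nonneg_left (show 200 * ((P.s : ℝ) + 1) ≤ P.K1 by linarith) hX.le]
  have hmr : 2 * (m2 : ℝ) * 2 ^ P.s' = 2 ^ P.s := by exact_mod_cast hm
  have hr1 : (0 : ℝ) < 2 ^ P.s' := by positivity
  have h5 : (Bd.card : ℝ) ≤ m2 / 100 := by
    have : (Bd.card : ℝ) * 2 ^ P.s' ≤ m2 / 100 * 2 ^ P.s' := by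
      refine (hb'.trans h4).trans ?_
      rw [← hmr]
      apply le_of_eq; ring
    exact le_of_mul_le_mul_right this hr1
  have h6 : ((K0.filter (fun k => ∃ x : ℤ, k * r ≤ x ∧ x < k * r + r ∧ GCol P E u x)).card : ℝ)
      + Bd.card = m2 := by exact_mod_cast hcard
  have h7 : (0 : ℝ) ≤ m2 := by positivity
  linarith

theorem thm_G1 (h2 : St_L2) (h3 : St_L3) : St_G1 := by
  classical
  intro P E u hC hcs
  have _ := h2
  by_contra hN
  -- scales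
  have haj := P.haj
  have hs := P.hs
  obtain ⟨b, hb⟩ : ∃ b : ℕ, P.a * P.j = b + 1 := ⟨P.a * P.j - 1, by omega⟩
  have hb1 : 1 ≤ b := by omega
  set m2 : ℕ := 2 ^ b with hm2
  have hss : P.s - P.s' = b + 1 := by omega
  have hsX : 2 ^ P.s = 2 * m2 * 2 ^ P.s' := by
    rw [hs, hb, hm2]; ring
  have hi : 4 * 2 ^ P.s' ≤ 2 ^ P.s := by
    rw [hsX]
    have : 2 ≤ m2 := by
      rw [hm2]
      calc 2 = 2 ^ 1 := by norm_num
        _ ≤ 2 ^ b := Nat.pow_le_pow_right (by norm_num) hb1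
    nlinarith [Nat.pos_of_ne_zero (pow_ne_zero P.s' (two_ne_zero : (2:ℕ) ≠ 0))]
  obtain ⟨hen, hsub⟩ := g1_en P E u P.s' hC hi
  obtain ⟨K, hKs, hKc, hKg⟩ := g1_blocks h3 P E u hC m2 hsX.symm
  rw [hss] at hen hsub
  set M : Finset ℤ := Finset.Icc (-3 * 2 ^ (b + 1) : ℤ) (3 * 2 ^ (b + 1)) with hM
  have hm2z : (m2 : ℤ) = 2 ^ b := by rw [hm2]; push_cast; rfl
  have hKM : K ⊆ M := by
    intro k hk
    have := hKs hk
    rw [Finset.mem_Ico] at this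
    rw [hM, Finset.mem_Icc, pow_succ]
    have h0 : (0 : ℤ) < 2 ^ b := by positivity
    rw [hm2z] at this
    omega
  have hr0 : (0 : ℝ) < 2 ^ P.s' := by positivity
  have hX0 : (0 : ℝ) < 2 ^ P.s := by positivity
  have hrs : 0 < Real.sqrt (2 ^ P.s') := Real.sqrt_pos.2 hr0
  have hrz : (0 : ℤ) < 2 ^ P.s' := by positivity
  -- lower bound
  have hlow : ∀ k ∈ K, P.sig ≤ ∑ l ∈ M, osc (bx (k * 2 ^ P.s', l * 2 ^ P.s') (2 ^ P.s')) u ^ 2 := by
    intro k hk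
    obtain ⟨x, hx1, hx2, hx3⟩ := hKg k hk
    have hkI := hKs hk
    rw [Finset.mem_Ico] at hkI
    have hXz : (2 : ℤ) ^ P.s = 2 * m2 * 2 ^ P.s' := by exact_mod_cast hsX
    have e1 : 2 * (m2 : ℤ) * 2 ^ P.s' ≤ k * 2 ^ P.s' := mul_le_mul_of_nonneg_right hkI.1 hrz.le
    have e2 : (k + 1) * 2 ^ P.s' ≤ 3 * (m2 : ℤ) * 2 ^ P.s' :=
      mul_le_mul_of_nonneg_right (by omega) hrz.le
    have h1 := hcs x (by rw [hXz]; linarith) (by rw [hXz]; nlinarith) hx3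
    refine h1.trans ?_
    unfold cs
    rw [hss, ← hM]
    apply Finset.sum_le_sum
    intro l _
    have h2 : osc (Finset.Icc (l * 2 ^ P.s' - 2 ^ P.s') (l * 2 ^ P.s' + 2 ^ P.s'))
        (fun y : ℤ => u (x, y)) ≤ osc (bx (k * 2 ^ P.s', l * 2 ^ P.s') (2 ^ P.s')) u := by
      apply osc_le (osc_nonneg _ _)
      intro y hy y' hy'
      rw [Finset.mem_Icc] at hy hy'
      apply le_osc u (a := (x, y)) (b := (x, y'))
      · rw [mem_bx, abs_le, abs_le]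
        push_cast
        refine ⟨⟨?_, ?_⟩, ?_, ?_⟩ <;> linarith [hy.1, hy.2]
      · rw [mem_bx, abs_le, abs_le]
        push_cast
        refine ⟨⟨?_, ?_⟩, ?_, ?_⟩ <;> linarith [hy'.1, hy'.2]
    exact pow_le_pow_left₀ (osc_nonneg _ _) h2 2
  -- constants
  set A := P.A with hA
  have hA1 : 1 ≤ A := P.hA
  have hA0 : 0 < A := by linarith
  have he := P.he
  have hsa : 0 < Real.sqrt (2 ^ P.a) := Real.sqrt_pos.2 (by positivity)
  have hloss : P.loss = 10 ^ 10 * A ^ 9 * Real.sqrt (2 ^ P.a) * (4 * A ^ 3) ^ P.j := rfl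
  have hloss0 : 0 < P.loss := by rw [hloss]; positivity
  set κ := Real.sqrt (2 ^ P.s) / (P.e * P.loss) with hκ
  have hκ0 : 0 < κ := by
    rw [hκ]; exact div_pos (Real.sqrt_pos.2 hX0) (mul_pos he hloss0)
  -- upper bound
  have hup : ∀ k ∈ M, ∀ l ∈ M, osc (bx (k * 2 ^ P.s', l * 2 ^ P.s') (2 ^ P.s')) u ^ 2 ≤
      κ / Real.sqrt (2 ^ P.s') * en E u (bx (k * 2 ^ P.s', l * 2 ^ P.s') (4 * 2 ^ P.s')) := by
    intro k hk l hl
    have h0 := en_nonneg E u (bx (k * 2 ^ P.s', l * 2 ^ P.s') (4 * 2 ^ P.s'))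
    have hne : (bx (k * 2 ^ P.s', l * 2 ^ P.s') (2 ^ P.s')).Nonempty := by
      refine ⟨(k * 2 ^ P.s', l * 2 ^ P.s'), ?_⟩
      rw [mem_bx]; simp
    obtain ⟨z, hz, w, hw, hzw⟩ := osc_exists u hne
    rw [hzw]
    rcases le_or_gt (u z - u w) 0 with hle | hgt
    · have h1 := osc_nonneg (bx (k * 2 ^ P.s', l * 2 ^ P.s') (2 ^ P.s')) u
      rw [hzw] at h1
      have h2 : u z - u w = 0 := le_antisymm hle h1
      rw [h2]
      have : 0 ≤ κ / Real.sqrt (2 ^ P.s') *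
        en E u (bx (k * 2 ^ P.s', l * 2 ^ P.s') (4 * 2 ^ P.s')) := by positivity
      simpa using this
    · have h1 : Real.sqrt (2 ^ P.s') * (u z - u w) ^ 2 ≤
          κ * en E u (bx (k * 2 ^ P.s', l * 2 ^ P.s') (4 * 2 ^ P.s')) := by
        by_contra hc
        push Not at hc
        exact hN ⟨(k * 2 ^ P.s', l * 2 ^ P.s'), z, w, hsub k hk l hl, hz, hw, hgt, hc.le⟩
      rw [div_mul_eq_mul_div, le_div_iff₀ hrs, mul_comm]
      exact h1
  -- the sum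
  have hS1 : (m2 : ℝ) / 2 * P.sig ≤
      ∑ k ∈ M, ∑ l ∈ M, osc (bx (k * 2 ^ P.s', l * 2 ^ P.s') (2 ^ P.s')) u ^ 2 := by
    have hsig0 : 0 ≤ P.sig := by
      unfold GP.sig GP.mp
      positivity
    calc (m2 : ℝ) / 2 * P.sig ≤ K.card * P.sig := mul_le_mul_of_nonneg_right hKc hsig0
      _ = ∑ _k ∈ K, P.sig := by rw [Finset.sum_const, nsmul_eq_mul]
      _ ≤ ∑ k ∈ K, ∑ l ∈ M, osc (bx (k * 2 ^ P.s', l * 2 ^ P.s') (2 ^ P.s')) u ^ 2 :=
        Finset.sum_le_sum hlow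
      _ ≤ _ := Finset.sum_le_sum_of_subset_of_nonneg hKM fun k _ _ =>
        Finset.sum_nonneg fun l _ => by positivity
  have hS2 : ∑ k ∈ M, ∑ l ∈ M, osc (bx (k * 2 ^ P.s', l * 2 ^ P.s') (2 ^ P.s')) u ^ 2 ≤
      κ / Real.sqrt (2 ^ P.s') * (81 * P.e) := by
    refine (Finset.sum_le_sum fun k hk => Finset.sum_le_sum fun l hl => hup k hk l hl).trans ?_
    simp only [← Finset.mul_sum]
    exact mul_le_mul_of_nonneg_left hen (by positivity)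
  have hS := hS1.trans hS2
  -- arithmetic
  set q := Real.sqrt (2 ^ (P.a * P.j)) with hq
  have hq0 : 0 < q := Real.sqrt_pos.2 (by positivity)
  have hqq : q * q = 2 * m2 := by
    rw [hq, Real.mul_self_sqrt (by positivity), hb, hm2]
    push_cast
    ring
  have hsq : Real.sqrt (2 ^ P.s) = Real.sqrt (2 ^ P.s') * q := by
    rw [hq, ← Real.sqrt_mul (by positivity), ← pow_add, ← hs]
  set B := Real.sqrt (2 ^ P.a) * (4 * A ^ 3) ^ P.j with hB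
  have hB0 : 0 < B := by positivity
  have hlossB : P.loss = 10 ^ 10 * A ^ 9 * B := by rw [hloss, hB]; ring
  have hsigB : P.sig = 1 / (1478656 * A ^ 8 * (q * (6 * A * B))) := by
    unfold GP.sig GP.mp
    rw [hB, hq]
    congr 2
    ring
  have hR : κ / Real.sqrt (2 ^ P.s') * (81 * P.e) = 81 * q / P.loss := by
    rw [hκ, hsq]
    field_simp
  rw [hR, hsigB, hlossB] at hS
  have hL : (m2 : ℝ) / 2 * (1 / (1478656 * A ^ 8 * (q * (6 * A * B)))) =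
      q / (4 * 8871936 * A ^ 9 * B) := by
    have : (m2 : ℝ) = q * q / 2 := by linarith
    rw [this]
    field_simp
    ring
  rw [hL, div_le_div_iff₀ (by positivity) (by positivity)] at hS
  have hpos : 0 < q * A ^ 9 * B := by positivity
  nlinarith

end MHL
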