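import Pool.Agent.MHL.StC

/-!
# MHL: the growth lemma
-/

set_option autoImplicit false

namespace MHL

lemma gl_map {r : Pt → Pt → Prop} {S S' : Set Pt} (f : Pt → Pt)
    (hr : ∀ z w, r z w → r (f z) (f w)) (hS : ∀ z ∈ S, f z ∈ S') {p q : Pt} (h : Cn r S p q) :
    Cn r S' (f p) (f q) :=
  ⟨hS _ h.1, h.2.lift f fun _ _ h => ⟨hr _ _ h.1, hS _ h.2⟩⟩

lemma gl_good_mono {A : ℝ} {g : ℤ → ℤ} {lo hi lo' hi' : ℤ} (h : Good2 A g lo hi) (h1 : lo ≤ lo')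
    (h2 : hi' ≤ hi) : Good2 A g lo' hi' := by
  refine ⟨?_, ?_, ?_⟩
  · intro a b h3 h4 h5
    exact h.g1 a b (h1.trans h3) h4 (h5.trans h2)
  · intro a b h3 h4 h5 h6
    exact h.g2 a b (h1.trans h3) h4 (h5.trans h2) h6
  · intro a q n x h3 h4 h5 h6
    exact h.g3 a q n x h3 h4 (h1.trans h5) (h6.trans h2)

lemma gl_ctx {P : GP} {E : Env} {u : Pt → ℝ} (h : CtxM P E u 2) : CtxM P E u 1 := by
  refine ⟨h.1, ?_, ?_⟩
  · refine gl_good_mono h.2.gh ?_ ?_ <;> · push_cast; linarith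
  · refine gl_good_mono h.2.gv ?_ ?_ <;> · push_cast; linarith

lemma gl_fc_le {X : ℕ} (i : Fin 4) {z : Pt} (hz : z ∈ bx (0, 0) (2 * X)) : fc i z ≤ 2 * X := by
  rw [mem_bx] at hz
  have h1 := abs_le.1 hz.1
  have h2 := abs_le.1 hz.2
  push_cast at h1 h2
  simp only [sub_zero] at h1 h2
  unfold fc
  split_ifs <;> linarith

lemma gl_cr (u u' : Pt → ℝ) (f : Pt → Pt) (X : ℕ) (i : Fin 4) (c : ℝ)
    (hf4 : ∀ z w, adj4 z w → adj4 (f z) (f w)) (hf8 : ∀ z w, adj8 z w → adj8 (f z) (f w))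
    (hu : ∀ z, u' (f z) = u z) (hf1 : ∀ z, (f z).1 = fc i z)
    (hf2 : ∀ z ∈ bx (0, 0) (2 * X), -2 * (X : ℤ) ≤ (f z).2 ∧ (f z).2 ≤ 2 * X)
    (h4 : Sh adj4 {z | c + 1 / 4 < u z} X i) (h8 : Sh adj8 {z | u z ≤ c} X i) :
    CrR u' X c (c + 1 / 4) := by
  have hrc : ∀ z, z ∈ bx (0, 0) (2 * X) → (X : ℤ) ≤ fc i z →
      f z ∈ rc X (2 * X) (-2 * X) (2 * X) := by
    intro z hz hX
    rw [mem_rc]
    exact ⟨⟨by rw [hf1]; exact hX, by rw [hf1]; exact gl_fc_le i hz⟩, hf2 z hz⟩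
  constructor
  · obtain ⟨p, q, hp, hq, hC⟩ := h4
    refine ⟨f p, f q, by rw [hf1, hp], by rw [hf1, hq], gl_map f hf4 ?_ hC⟩
    rintro z ⟨hz1, hz2, hz3⟩
    refine ⟨?_, by exact_mod_cast hrc z hz2 hz3⟩
    show c + 1 / 4 < u' (f z)
    rw [hu]
    exact hz1
  · obtain ⟨p, q, hp, hq, hC⟩ := h8
    refine ⟨f p, f q, by rw [hf1, hp], by rw [hf1, hq], gl_map f hf8 ?_ hC⟩
    rintro z ⟨hz1, hz2, hz3⟩
    refine ⟨?_, by exact_mod_cast hrc z hz2 hz3⟩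
    show u' (f z) ≤ c
    rw [hu]
    exact hz1

lemma gl_core (hk : St_K) (hg : St_G1) {P : GP} {E : Env} {u : Pt → ℝ} {c : ℝ}
    (h : CtxM P E u 1) (hC : CrR u ((2 ^ P.s : ℕ) : ℤ) c (c + 1 / 4)) : Concl P E u := by
  refine hg P E u h.1 fun x0 h1 h2 h3 => hk P E u c (c + 1 / 4) x0 h le_rfl ?_ h1 h2 h3
  push_cast at hC
  exact hC

theorem thm_GL (h4 : St_M4) (hk : St_K) (hg : St_G1) (hs : St_Sy) : St_GL := by
  intro P E u z0 z1 hctx hz0 hz1 hu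
  have hharm : ∀ z ∈ bx (0, 0) (2 * 2 ^ P.s), Hm E u z := by
    intro z hz
    apply hctx.1.harm
    rw [mem_bx] at hz ⊢
    have : (0 : ℤ) < 2 ^ P.s := by positivity
    push_cast at hz ⊢
    exact ⟨by linarith [hz.1], by linarith [hz.2]⟩
  obtain ⟨i, c, h1, h2⟩ := h4 E u (2 ^ P.s) z0 z1 Nat.one_le_two_pow hharm hz0 hz1 hu
  obtain ⟨srx, str, crx, ctr⟩ := hs P E u
  have hb : ∀ z : Pt, z ∈ bx (0, 0) (2 * 2 ^ P.s) →
      ((-2 * ((2 ^ P.s : ℕ) : ℤ) ≤ z.1 ∧ z.1 ≤ 2 * ((2 ^ P.s : ℕ) : ℤ)) ∧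
      (-2 * ((2 ^ P.s : ℕ) : ℤ) ≤ z.2 ∧ z.2 ≤ 2 * ((2 ^ P.s : ℕ) : ℤ))) := by
    intro z hz
    rw [mem_bx] at hz
    have h1 := abs_le.1 hz.1
    have h2 := abs_le.1 hz.2
    push_cast at h1 h2 ⊢
    simp only [sub_zero] at h1 h2
    exact ⟨⟨by linarith, by linarith⟩, ⟨by linarith, by linarith⟩⟩
  fin_cases i
  · -- right
    apply gl_core hk hg (gl_ctx hctx) (c := c)
    refine gl_cr u u id (2 ^ P.s) 0 c (fun _ _ h => h) (fun _ _ h => h) (fun _ => rfl)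
      (fun z => ?_) (fun z hz => (hb z hz).2) h1 h2
    simp [fc]
  · -- top
    apply ctr
    apply gl_core hk hg (gl_ctx (str 2 hctx)) (c := c)
    refine gl_cr u (tru u) (fun z => (z.2, z.1)) (2 ^ P.s) 1 c ?_ ?_ (fun _ => rfl)
      (fun z => ?_) (fun z hz => (hb z hz).1) h1 h2
    · intro z w h
      unfold adj4 at *
      simp only
      rw [add_comm]
      exact h
    · intro z w h
      exact ⟨h.2, h.1⟩
    · simp [fc]
  · -- left
    apply crx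
    apply gl_core hk hg (srx 1 hctx) (c := c)
    refine gl_cr u (rxu u) (fun z => (-z.1, z.2)) (2 ^ P.s) 2 c ?_ ?_ (fun z => ?_)
      (fun z => ?_) (fun z hz => (hb z hz).2) h1 h2
    · intro z w h
      unfold adj4 at *
      simp only
      have : |(-z.1 : ℤ) - -w.1| = |z.1 - w.1| := by rw [← abs_neg]; congr 1; ring
      rw [this]
      exact h
    · intro z w h
      refine ⟨?_, h.2⟩
      simp only
      have : |(-z.1 : ℤ) - -w.1| = |z.1 - w.1| := by rw [← abs_neg]; congr 1; ring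
      rw [this]
      exact h.1
    · unfold rxu
      simp
    · simp [fc]
  · -- bottom
    apply ctr
    obtain ⟨srx', _, crx', _⟩ := hs P E.tr (tru u)
    apply crx'
    apply gl_core hk hg (srx' 1 (str 2 hctx)) (c := c)
    refine gl_cr u (rxu (tru u)) (fun z => (-z.2, z.1)) (2 ^ P.s) 3 c ?_ ?_ (fun z => ?_)
      (fun z => ?_) (fun z hz => (hb z hz).1) h1 h2
    · intro z w h
      unfold adj4 at *
      simp only
      have : |(-z.2 : ℤ) - -w.2| = |z.2 - w.2| := by rw [← abs_neg]; congr 1; ring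
      rw [this, add_comm]
      exact h
    · intro z w h
      refine ⟨?_, h.1⟩
      simp only
      have : |(-z.2 : ℤ) - -w.2| = |z.2 - w.2| := by rw [← abs_neg]; congr 1; ring
      rw [this]
      exact h.2
    · unfold rxu tru
      simp
    · simp [fc]

end MHL
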