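import Pool.Agent.MHL.StC

/-!
# MHL: the growth lemma for a general centre and scale
-/

set_option autoImplicit false

namespace MHL

lemma gls_s1 (E : Env) (c z : Pt) : E.s1 (z + c) = (E.sh c).s1 z + c := by
  unfold Env.s1 Env.sh
  ext
  · simp only [Prod.fst_add, Prod.snd_add]
    ring
  · simp only [Prod.snd_add]

lemma gls_s2 (E : Env) (c z : Pt) : E.s2 (z + c) = (E.sh c).s2 z + c := by
  unfold Env.s2 Env.sh
  ext
  · simp only [Prod.fst_add]
  · simp only [Prod.fst_add, Prod.snd_add]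
    ring

lemma gls_mem {c c' z : Pt} {r : ℕ} : z + c ∈ bx (c' + c) r ↔ z ∈ bx c' r := by
  rw [mem_bx, mem_bx]
  simp only [Prod.fst_add, Prod.snd_add, add_sub_add_right_eq_sub]

lemma gls_hm {E : Env} {u : Pt → ℝ} {c z : Pt} (θ : ℝ) (h : Hm E u (z + c)) :
    Hm (E.sh c) (fun z => u (z + c) / θ) z := by
  unfold Hm at *
  rw [gls_s1, gls_s2] at h
  simp only
  rw [← add_div, h]
  ring

lemma gls_en (E : Env) (u : Pt → ℝ) (c c' : Pt) (r : ℕ) (θ : ℝ) :
    en (E.sh c) (fun z => u (z + c) / θ) (bx c' r) = en E u (bx (c' + c) r) / θ ^ 2 := by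
  unfold en
  have h : ∑ z ∈ bx (c' + c) r, ((u (E.s1 z) - u z) ^ 2 + (u (E.s2 z) - u z) ^ 2) =
      ∑ z ∈ bx c' r, ((u ((E.sh c).s1 z + c) - u (z + c)) ^ 2 +
        (u ((E.sh c).s2 z + c) - u (z + c)) ^ 2) := by
    symm
    refine Finset.sum_bij (fun z _ => z + c) ?_ ?_ ?_ ?_
    · intro z hz
      exact gls_mem.2 hz
    · intro a _ b _ hab
      exact add_right_cancel hab
    · intro b hb
      refine ⟨b - c, ?_, by simp⟩
      rw [← gls_mem (c := c), sub_add_cancel]
      exact hb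
    · intro z _
      rw [gls_s1, gls_s2]
  rw [h, div_right_comm]
  congr 1
  rw [Finset.sum_div]
  refine Finset.sum_congr rfl fun z _ => ?_
  ring

lemma gls_good {A : ℝ} {g : ℤ → ℤ} {lo hi lo' hi' : ℤ} (c : ℤ) (h : Good2 A g lo hi)
    (h1 : lo ≤ lo' + c) (h2 : hi' + c ≤ hi) : Good2 A (fun k => g (k + c)) lo' hi' := by
  refine ⟨?_, ?_, ?_⟩
  · intro a b ha hab hb
    have h3 := h.g1 (a + c) (b + c) (by omega) (by omega) (by omega)
    rw [sm_shift, sm_shift]
    push_cast at h3 ⊢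
    have e1 : (sm g (b + c) : ℝ) - sm g c - (sm g (a + c) - sm g c) =
        sm g (b + c) - sm g (a + c) := by ring
    have e2 : (b : ℝ) + c - (a + c) = b - a := by ring
    rw [e1]
    rw [e2] at h3
    exact h3
  · intro a b ha hab hb hA
    obtain ⟨s, t, hs, ht, h3⟩ := h.g2 (a + c) (b + c) (by omega) (by omega) (by omega)
      (by push_cast; linarith)
    refine ⟨s - c, t - c, by omega, by omega, ?_⟩
    rw [sm_shift, sm_shift, sub_add_cancel, sub_add_cancel]
    push_cast at h3 ⊢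
    have e1 : (sm g s : ℝ) - sm g c - (sm g t - sm g c) = sm g s - sm g t := by ring
    have e2 : (b : ℝ) + c - (a + c) = b - a := by ring
    rw [e1]
    rw [e2] at h3
    exact h3
  · intro a q n x hq hn ha hb
    have h3 := h.g3 (a + c) q n (x + sm g c) hq hn (by omega) (by omega)
    refine le_trans (le_of_eq ?_) h3
    congr 2
    apply Finset.filter_congr
    intro i _
    rw [sm_shift]
    have e : a + (i : ℤ) * q + c = a + c + i * q := by ring
    rw [e]
    push_cast
    have e1 : (sm g (a + c + i * q) : ℝ) - sm g c - x = sm g (a + c + i * q) - (x + sm g c) := by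
      ring
    rw [e1]

lemma gls_goodE {A : ℝ} {E : Env} {c : Pt} {L L' : ℕ} (h : GoodE A E c L) (hL : L' ≤ L) :
    GoodE A (E.sh c) (0, 0) L' := by
  constructor
  · exact gls_good c.2 h.gh (by push_cast; omega) (by push_cast; omega)
  · exact gls_good c.1 h.gv (by push_cast; omega) (by push_cast; omega)

theorem thm_GLs (h : St_GL) : St_GLs := by
  intro P E u c z0 z1 θ hgood hharm hosc hz0 hz1 hθ hθu hen
  have hθ2 : 0 < θ ^ 2 := by positivity
  have hc0 : ((0, 0) : Pt) + c = c := by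
    ext <;> simp
  have hctx : Ctx P (E.sh c) (fun z => u (z + c) / θ) := by
    refine ⟨gls_goodE hgood (by omega), ?_, ?_, ?_⟩
    · intro z hz
      apply gls_hm
      apply hharm
      have := (gls_mem (c := c)).2 hz
      rwa [hc0] at this
    · rw [gls_en, hc0, div_le_iff₀ hθ2]
      exact hen
    · intro i c' hi hsub z hz w hw
      have hsub' : bx (c' + c) (4 * 2 ^ i) ⊆ bx c (4 * 2 ^ P.s) := by
        intro y hy
        have h1 : y - c ∈ bx c' (4 * 2 ^ i) := by
          rw [← gls_mem (c := c), sub_add_cancel]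
          exact hy
        have h2 := (gls_mem (c := c)).2 (hsub h1)
        rwa [sub_add_cancel, hc0] at h2
      have h1 := hosc i (c' + c) hi hsub' (z + c) (gls_mem.2 hz) (w + c) (gls_mem.2 hw)
      rw [gls_en]
      have e1 : (u (z + c) / θ - u (w + c) / θ) ^ 2 = (u (z + c) - u (w + c)) ^ 2 / θ ^ 2 := by
        rw [← sub_div, div_pow]
      rw [e1, ← mul_div_assoc, ← mul_div_assoc]
      exact div_le_div_of_nonneg_right h1 hθ2.le
  have hz : ∀ z : Pt, z ∈ bx c (2 ^ P.s) → z - c ∈ bx (0, 0) (2 ^ P.s) := by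
    intro z hz
    rw [← gls_mem (c := c), sub_add_cancel, hc0]
    exact hz
  obtain ⟨c', z, w, hsub, hzm, hwm, hpos, hineq⟩ := h P (E.sh c) (fun z => u (z + c) / θ)
    (z0 - c) (z1 - c) ⟨hctx, gls_goodE hgood le_rfl⟩ (hz z0 hz0) (hz z1 hz1) (by
      simp only [sub_add_cancel]
      rw [← sub_div, le_div_iff₀ hθ, one_mul]
      exact hθu)
  refine ⟨c' + c, z + c, w + c, ?_, gls_mem.2 hzm, gls_mem.2 hwm, ?_, ?_⟩
  · intro y hy
    have h1 : y - c ∈ bx c' (4 * 2 ^ P.s') := by
      rw [← gls_mem (c := c), sub_add_cancel]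
      exact hy
    have h2 := (gls_mem (c := c)).2 (hsub h1)
    rwa [sub_add_cancel, hc0] at h2
  · simp only at hpos
    rw [← sub_div] at hpos
    exact (div_pos_iff_of_pos_right hθ).1 hpos
  · rw [gls_en] at hineq
    have e1 : (u (z + c) / θ - u (w + c) / θ) ^ 2 = (u (z + c) - u (w + c)) ^ 2 / θ ^ 2 := by
      rw [← sub_div, div_pow]
    simp only at hineq
    rw [e1, ← mul_div_assoc, ← mul_div_assoc] at hineq
    exact (div_le_div_iff_of_pos_right hθ2).1 hineq

end MHL
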