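import Pool.Agent.MHL.StC

/-!
# MHL: goodness is invariant under change of sign
-/

set_option autoImplicit false

namespace MHL

theorem thm_Gn : St_Gn := by
  intro A g lo hi hG
  refine ⟨?_, ?_, ?_⟩
  · intro a b h1 h2 h3
    have := hG.g1 a b h1 h2 h3
    rw [sm_neg, sm_neg]
    push_cast
    have e : (-(sm g b : ℝ) - -(sm g a : ℝ)) = -((sm g b : ℝ) - sm g a) := by ring
    rw [e, abs_neg]
    exact this
  · intro a b h1 h2 h3 h4
    obtain ⟨s, t, hs, ht, hst⟩ := hG.g2 a b h1 h2 h3 h4
    refine ⟨t, s, ht, hs, ?_⟩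
    rw [sm_neg, sm_neg]
    push_cast
    linarith
  · intro a q n x h1 h2 h3 h4
    have := hG.g3 a q n (-x) h1 h2 h3 h4
    refine le_trans (le_of_eq ?_) this
    congr 2
    apply Finset.filter_congr
    intro i _
    rw [sm_neg]
    push_cast
    have e : (-(sm g (a + i * q) : ℝ) - x) = -((sm g (a + i * q) : ℝ) - -x) := by ring
    rw [e, abs_neg]

end MHL
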