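import Pool.Agent.MHL.StC

/-!
# MHL, module K: every good column in `[X, 3X/2)`
-/

set_option autoImplicit false

namespace MHL

/-- paths under a map -/
lemma k_map {r : Pt → Pt → Prop} {S T : Set Pt} {a b : Pt} (ρ : Pt → Pt)
    (hr : ∀ x y, r x y → r (ρ x) (ρ y)) (hS : ∀ z ∈ S, ρ z ∈ T) (h : Cn r S a b) :
    Cn r T (ρ a) (ρ b) :=
  ⟨hS _ h.1, h.2.lift ρ fun _ _ h => ⟨hr _ _ h.1, hS _ h.2⟩⟩

lemma k_adj4 (x y : Pt) (h : adj4 x y) : adj4 (x.1, -x.2) (y.1, -y.2) := by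
  unfold adj4 at *
  have h1 : |(-x.2) - (-y.2)| = |x.2 - y.2| := by
    rw [show (-x.2) - (-y.2) = -(x.2 - y.2) by ring, abs_neg]
  show |x.1 - y.1| + |(-x.2) - (-y.2)| = 1
  rw [h1]; exact h

lemma k_adj8 (x y : Pt) (h : adj8 x y) : adj8 (x.1, -x.2) (y.1, -y.2) := by
  unfold adj8 at *
  have h1 : |(-x.2) - (-y.2)| = |x.2 - y.2| := by
    rw [show (-x.2) - (-y.2) = -(x.2 - y.2) by ring, abs_neg]
  show |x.1 - y.1| ≤ 1 ∧ |(-x.2) - (-y.2)| ≤ 1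
  rw [h1]; exact h

theorem thm_K (h5 : St_T5) (h4 : St_L4) (hc : St_Ct) (h0 : St_K0) (h1 : St_K1) (hr : St_Ry) :
    St_K := by
  intro P E u cm cp x0 hC hgap hCr hx0 hx0' hG0
  have hd100 : (100 * P.d : ℤ) ≤ 2 ^ P.s := by exact_mod_cast P.c10
  have hdn : (0 : ℤ) ≤ P.d := by positivity
  have hX : (0 : ℤ) < 2 ^ P.s := by positivity
  set X : ℤ := 2 ^ P.s with hXdef
  obtain ⟨x1, hx1a, hx1b, hG1⟩ := h4 P E u (2 * X - P.d) P.d hC.1 (by omega) (by omega) (by omega)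
  obtain ⟨y0, hy0a, hy0b, hR0⟩ := h4 P E.tr (tru u) (-2 * X - P.d) P.d (hc P E u hC.1)
    (by omega) (by omega) (by omega)
  obtain ⟨y1, hy1a, hy1b, hR1⟩ := h4 P E.tr (tru u) (2 * X) P.d (hc P E u hC.1)
    (by omega) (by omega) (by omega)
  have hx01 : x0 ≤ x1 := by omega
  obtain ⟨⟨p, q, hp, hq, hpq⟩, ⟨p', q', hp', hq', hpq'⟩⟩ := hCr
  obtain ⟨a, b, ha, hb, hab⟩ := h5 adj4 (fun z => z.1) _ p q x0 x1
    (fun z w hzw => by
      have := adj4_adj8 hzw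
      exact this.1) hx01 hpq (by show p.1 ≤ x0; omega) (by show x1 ≤ q.1; omega)
  obtain ⟨a', b', ha', hb', hab'⟩ := h5 adj8 (fun z => z.1) _ p' q' x0 x1
    (fun z w hzw => hzw.1) hx01 hpq' (by show p'.1 ≤ x0; omega) (by show x1 ≤ q'.1; omega)
  have ha : a = (x0, a.2) := Prod.ext ha rfl
  have ha' : a' = (x0, a'.2) := Prod.ext ha' rfl
  have hua : cp < u a := hab.left.1.1
  have hua' : u a' ≤ cm := hab'.left.1.1
  have hne : a.2 ≠ a'.2 := by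
    intro hcon
    have : a = a' := by rw [ha, ha', hcon]
    rw [this] at hua
    linarith
  rcases lt_or_gt_of_ne hne with hlt | hlt
  · -- reflection
    have hry := hr P E u
    have hC' := (hry.1 0 hC).1
    have key4 : Cn adj4 ({z | cp < ryu u z} ∩ rc x0 x1 (-y1) (-y0)) (x0, -a.2) (b.1, -b.2) := by
      have := k_map (T := {z | cp < ryu u z} ∩ rc x0 x1 (-y1) (-y0)) (fun z : Pt => (z.1, -z.2))
        k_adj4 (fun z hz => ?_) hab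
      · rw [ha] at this
        exact this
      · obtain ⟨⟨hz1, hz2⟩, hz3, hz4⟩ := hz
        rw [Finset.mem_coe, mem_rc] at hz2
        refine ⟨?_, ?_⟩
        · show cp < u (z.1, - -z.2)
          rw [neg_neg]
          exact hz1
        · rw [Finset.mem_coe, mem_rc]
          change x0 ≤ z.1 at hz3
          change z.1 ≤ x1 at hz4
          show (x0 ≤ z.1 ∧ z.1 ≤ x1) ∧ (-y1 ≤ -z.2 ∧ -z.2 ≤ -y0)
          refine ⟨⟨hz3, hz4⟩, ?_, ?_⟩ <;> omega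
    have key8 : Cn adj8 ({z | ryu u z ≤ cm} ∩ rc x0 x1 (-y1) (-y0)) (x0, -a'.2)
        (b'.1, -b'.2) := by
      have := k_map (T := {z | ryu u z ≤ cm} ∩ rc x0 x1 (-y1) (-y0)) (fun z : Pt => (z.1, -z.2))
        k_adj8 (fun z hz => ?_) hab'
      · rw [ha'] at this
        exact this
      · obtain ⟨⟨hz1, hz2⟩, hz3, hz4⟩ := hz
        rw [Finset.mem_coe, mem_rc] at hz2
        refine ⟨?_, ?_⟩
        · show u (z.1, - -z.2) ≤ cm
          rw [neg_neg]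
          exact hz1
        · rw [Finset.mem_coe, mem_rc]
          change x0 ≤ z.1 at hz3
          change z.1 ≤ x1 at hz4
          show (x0 ≤ z.1 ∧ z.1 ≤ x1) ∧ (-y1 ≤ -z.2 ∧ -z.2 ≤ -y0)
          refine ⟨⟨hz3, hz4⟩, ?_, ?_⟩ <;> omega
    obtain ⟨lev, U, t, hCD⟩ := h1 P E.ry (ryu u) x0 x1 (-y1) (-y0) (-a.2) (-a'.2) cm cp
      (b.1, -b.2) (b'.1, -b'.2) hC' hgap ⟨hx0, hx0'⟩ ⟨hx1a, by omega⟩
      ⟨by omega, by omega⟩ ⟨by omega, by omega⟩ (hry.2.1 x0 hG0) (hry.2.1 x1 hG1)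
      (hry.2.2.1 y1 hR1) (hry.2.2.1 y0 hR0) key4 hb key8 hb' (by omega)
    have := h0 P E.ry (ryu u) x0 x1 (-y1) (-y0) lev U t hCD
    rw [hry.2.2.2 x0] at this
    exact this
  · have key4 : Cn adj4 ({z | cp < u z} ∩ rc x0 x1 y0 y1) (x0, a.2) b := by
      rw [← ha]
      refine hab.mono ?_
      rintro z ⟨⟨hz1, hz2⟩, hz3, hz4⟩
      rw [Finset.mem_coe, mem_rc] at hz2
      refine ⟨hz1, ?_⟩
      rw [Finset.mem_coe, mem_rc]
      change x0 ≤ z.1 at hz3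
      change z.1 ≤ x1 at hz4
      refine ⟨⟨hz3, hz4⟩, ?_, ?_⟩ <;> omega
    have key8 : Cn adj8 ({z | u z ≤ cm} ∩ rc x0 x1 y0 y1) (x0, a'.2) b' := by
      rw [← ha']
      refine hab'.mono ?_
      rintro z ⟨⟨hz1, hz2⟩, hz3, hz4⟩
      rw [Finset.mem_coe, mem_rc] at hz2
      refine ⟨hz1, ?_⟩
      rw [Finset.mem_coe, mem_rc]
      change x0 ≤ z.1 at hz3
      change z.1 ≤ x1 at hz4
      refine ⟨⟨hz3, hz4⟩, ?_, ?_⟩ <;> omega
    obtain ⟨lev, U, t, hCD⟩ := h1 P E u x0 x1 y0 y1 a.2 a'.2 cm cp b b' hC.1 hgap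
      ⟨hx0, hx0'⟩ ⟨hx1a, by omega⟩ ⟨hy0a, by omega⟩ ⟨hy1a, by omega⟩ hG0 hG1 hR0 hR1
      key4 hb key8 hb' hlt
    exact h0 P E u x0 x1 y0 y1 lev U t hCD

end MHL
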