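import Pool.Agent.MHL.StC

/-!
# MHL, module K0: from the column data to the lower bound for the sum of squares of oscillations
-/

set_option autoImplicit false

namespace MHL

/-- walls decrease -/
lemma k0_anti {P : GP} {E : Env} {u : Pt → ℝ} {x0 x1 y0 y1 : ℤ} {lev : ℕ → ℝ} {U : ℕ → Set Pt}
    {t : ℕ → ℤ} (h : CD P E u x0 x1 y0 y1 lev U t) {i j : ℕ} (hij : i ≤ j) (hj : j ≤ P.n) :
    U j ⊆ U i := by
  induction j, hij using Nat.le_induction with
  | base => exact subset_rfl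
  | succ j hij ih => exact (h.mono j (by omega)).trans (ih (by omega))

/-- traces increase -/
lemma k0_mono {P : GP} {E : Env} {u : Pt → ℝ} {x0 x1 y0 y1 : ℤ} {lev : ℕ → ℝ} {U : ℕ → Set Pt}
    {t : ℕ → ℤ} (h : CD P E u x0 x1 y0 y1 lev U t) {i j : ℕ} (hij : i ≤ j) (hj : j ≤ P.n) :
    t i ≤ t j := by
  obtain ⟨h1, h2, h3⟩ := h.tr j hj
  obtain ⟨_, _, h6⟩ := h.tr i (hij.trans hj)
  exact (h6 (t j) h1.le h2).1 (k0_anti h hij hj ((h3 (t j) h1.le h2).2 le_rfl))

/-- values at the two ends of the edge -/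
lemma k0_edge {P : GP} {E : Env} {u : Pt → ℝ} {x0 x1 y0 y1 : ℤ} {lev : ℕ → ℝ} {U : ℕ → Set Pt}
    {t : ℕ → ℤ} (h : CD P E u x0 x1 y0 y1 lev U t) {i : ℕ} (hi : i ≤ P.n) :
    lev i < u (x0, t i) ∧ u (x0, t i - 1) ≤ lev i := by
  obtain ⟨h1, h2, h3⟩ := h.tr i hi
  have hx : x0 ≤ x1 := by
    have ha := h.hx0
    have hb := h.hx1
    have hc : (100 * P.d : ℤ) ≤ 2 ^ P.s := by exact_mod_cast P.c10
    have hd : (0 : ℤ) ≤ P.d := by positivity
    omega
  refine (h.wall i hi).ec (x0, t i) (x0, t i - 1) ((h3 (t i) h1.le h2).2 le_rfl) ?_ ?_ ?_ ?_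
  · rw [Finset.mem_coe, mem_rc]
    exact ⟨⟨le_rfl, hx⟩, h1.le, h2⟩
  · rw [Finset.mem_coe, mem_rc]
    exact ⟨⟨le_rfl, hx⟩, by show y0 ≤ t i - 1; omega, by show t i - 1 ≤ y1; omega⟩
  · intro hc
    have := (h3 (t i - 1) (by omega) (by omega)).1 hc
    omega
  · rw [adj4_iff]
    right
    exact ⟨rfl, Or.inl (by show t i = t i - 1 + 1; ring)⟩

/-- levels grow at least linearly -/
lemma k0_lev {P : GP} {E : Env} {u : Pt → ℝ} {cm cp : ℝ} {lev : ℕ → ℝ}
    (h : Lv P E u cm cp lev) {i j : ℕ} (hij : i ≤ j) (hj : j ≤ P.n) :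
    ((j : ℝ) - i) * P.eta ≤ lev j - lev i := by
  induction j, hij using Nat.le_induction with
  | base => simp
  | succ j hij ih =>
    have h1 := h.step j (by omega)
    have h2 := ih (by omega)
    push_cast
    linarith

theorem thm_K0 (h5 : St_N5) (hc : St_C) (hg : St_Gn) : St_K0 := by
  intro P E u x0 x1 y0 y1 lev U t h
  obtain ⟨BB, hBB, hn, hmon⟩ := h5 P E u x0 x1 y0 y1 lev U t h
  obtain ⟨cm, cp, hL⟩ := h.lv
  have hA0 : (0 : ℝ) < P.A := lt_of_lt_of_le one_pos P.hA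
  have hs' : P.s' ≤ P.s := by have := P.hs; omega
  have hd100 : (100 * P.d : ℤ) ≤ 2 ^ P.s := by exact_mod_cast P.c10
  have hdn : (0 : ℤ) ≤ P.d := by positivity
  -- range of the traces
  have hr : ∀ i ∈ BB, -3 * 2 ^ P.s ≤ t i ∧ t i < 3 * 2 ^ P.s := by
    intro i hi
    have hi' := Finset.mem_Icc.1 (hBB hi)
    obtain ⟨h1, h2, _⟩ := h.tr i hi'.2
    have ha := h.hy0
    have hb := h.hy1
    have hp : (0 : ℤ) < 2 ^ P.s := by positivity
    constructor <;> omega
  -- number of cells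
  have hcard : (((BB.image t).image (fun y => y / 2 ^ P.s')).card : ℝ) ≤ P.mp := by
    have hgood : Good2 P.A E.h (-(8 * 2 ^ P.s)) (8 * 2 ^ P.s) := by
      have := h.ctx.good.gh
      simpa using this
    have hβ0 : (0 : ℝ) ≤ 20 * P.φ := by have := P.hφ; linarith
    have hY : ∀ y ∈ BB.image t, -3 * 2 ^ P.s ≤ y ∧ y < 3 * 2 ^ P.s := by
      intro y hy
      obtain ⟨i, hi, rfl⟩ := Finset.mem_image.1 hy
      exact hr i hi
    have hlt : ∀ i ∈ BB, ∀ j ∈ BB, t i < t j → i < j := by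
      intro i hi j hj hij
      by_contra hcon
      have := k0_mono h (not_lt.1 hcon) (Finset.mem_Icc.1 (hBB hi)).2
      omega
    rcases hmon with hm | hm
    · refine hc P E.h (20 * P.φ) (BB.image t) hgood hβ0 P.c7 hY ?_
      intro y hy y' hy' hyy
      obtain ⟨i, hi, rfl⟩ := Finset.mem_image.1 hy
      obtain ⟨j, hj, rfl⟩ := Finset.mem_image.1 hy'
      exact hm i hi j hj (hlt i hi j hj hyy)
    · refine hc P (fun k => - E.h k) (20 * P.φ) (BB.image t) (hg _ _ _ _ hgood) hβ0 P.c7 hY ?_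
      intro y hy y' hy' hyy
      obtain ⟨i, hi, rfl⟩ := Finset.mem_image.1 hy
      obtain ⟨j, hj, rfl⟩ := Finset.mem_image.1 hy'
      have := hm i hi j hj (hlt i hi j hj hyy)
      rw [sm_neg, sm_neg]
      push_cast
      linarith
  rw [Finset.image_image] at hcard
  set K : Finset ℤ := BB.image ((fun y => y / 2 ^ P.s') ∘ t) with hK
  have hrpos : (0 : ℤ) < 2 ^ P.s' := by positivity
  set os : ℤ → ℝ := fun k =>
    osc (Finset.Icc (k * 2 ^ P.s' - 2 ^ P.s') (k * 2 ^ P.s' + 2 ^ P.s')) (fun y : ℤ => u (x0, y))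
    with hos
  -- the oscillation in one cell
  have hcell : ∀ k ∈ K,
      (((BB.filter (fun i => t i / 2 ^ P.s' = k)).card : ℝ) - 1) * P.eta ≤ os k := by
    intro k hk
    set B := BB.filter (fun i => t i / 2 ^ P.s' = k) with hB
    have hne : B.Nonempty := by
      obtain ⟨i, hi, hik⟩ := Finset.mem_image.1 hk
      exact ⟨i, Finset.mem_filter.2 ⟨hi, hik⟩⟩
    set i0 := B.min' hne
    set j0 := B.max' hne
    have hi0 := Finset.mem_filter.1 (B.min'_mem hne)
    have hj0 := Finset.mem_filter.1 (B.max'_mem hne)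
    have hle : i0 ≤ j0 := B.min'_le_max' hne
    have hj0n : j0 ≤ P.n := (Finset.mem_Icc.1 (hBB hj0.1)).2
    have hi0n : i0 ≤ P.n := hle.trans hj0n
    have hcd : (B.card : ℝ) - 1 ≤ (j0 : ℝ) - i0 := by
      have hsub : B ⊆ Finset.Icc i0 j0 := fun i hi =>
        Finset.mem_Icc.2 ⟨B.min'_le i hi, B.le_max' i hi⟩
      have h1 := Finset.card_le_card hsub
      rw [Nat.card_Icc] at h1
      have h2 : (B.card : ℝ) ≤ ((j0 + 1 - i0 : ℕ) : ℝ) := by exact_mod_cast h1
      rw [Nat.cast_sub (by omega)] at h2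
      push_cast at h2
      linarith
    have heta : 0 ≤ P.eta := by unfold GP.eta; positivity
    have e1 := (k0_edge h hi0n).2
    have e2 := (k0_edge h hj0n).1
    have e3 := k0_lev hL hle hj0n
    have hmem : ∀ y : ℤ, y / 2 ^ P.s' = k → k * 2 ^ P.s' ≤ y ∧ y < k * 2 ^ P.s' + 2 ^ P.s' := by
      intro y hy
      constructor
      · have := Int.ediv_mul_le y hrpos.ne'
        rw [hy] at this
        exact this
      · have := Int.lt_ediv_add_one_mul_self y hrpos
        rw [hy] at this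
        linarith
    have m1 := hmem _ hi0.2
    have m2 := hmem _ hj0.2
    have hosc := le_osc (s := Finset.Icc (k * 2 ^ P.s' - 2 ^ P.s') (k * 2 ^ P.s' + 2 ^ P.s'))
      (fun y : ℤ => u (x0, y)) (a := t j0) (b := t i0 - 1)
      (Finset.mem_Icc.2 ⟨by linarith [m2.1], by linarith [m2.2]⟩)
      (Finset.mem_Icc.2 ⟨by linarith [m1.1], by linarith [m1.2]⟩)
    have h4 := mul_le_mul_of_nonneg_right hcd heta
    have h5 : u (x0, t j0) - u (x0, t i0 - 1) ≤ os k := hosc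
    linarith
  -- summation over the cells
  have hsum : (BB.card : ℝ) = ∑ k ∈ K, ((BB.filter (fun i => t i / 2 ^ P.s' = k)).card : ℝ) := by
    have := Finset.card_eq_sum_card_fiberwise (s := BB) (t := K)
      (f := fun i => t i / 2 ^ P.s') (fun i hi => Finset.mem_image_of_mem _ hi)
    rw [this]
    push_cast
    rfl
  have heta : 0 < P.eta := by unfold GP.eta; positivity
  have hS : ((BB.card : ℝ) - K.card) * P.eta ≤ ∑ k ∈ K, os k := by
    have h1 := Finset.sum_le_sum hcell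
    rw [← Finset.sum_mul, Finset.sum_sub_distrib, ← hsum] at h1
    simpa using h1
  -- subset of cells
  have hKsub : K ⊆ Finset.Icc (-3 * 2 ^ (P.s - P.s') : ℤ) (3 * 2 ^ (P.s - P.s')) := by
    intro k hk
    obtain ⟨i, hi, hik⟩ := Finset.mem_image.1 hk
    have h1 := hr i hi
    have hpow : (2 : ℤ) ^ P.s = 2 ^ (P.s - P.s') * 2 ^ P.s' := by
      rw [← pow_add]; congr 1; omega
    simp only [Function.comp] at hik
    rw [Finset.mem_Icc, ← hik]
    constructor
    · rw [Int.le_ediv_iff_mul_le hrpos]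
      rw [hpow] at h1
      linarith [h1.1]
    · apply Int.ediv_le_of_le_mul hrpos
      rw [hpow] at h1
      linarith [h1.2]
  have hcs : ∑ k ∈ K, os k ^ 2 ≤ cs P u x0 := by
    unfold cs
    exact Finset.sum_le_sum_of_subset_of_nonneg hKsub fun _ _ _ => sq_nonneg _
  have hCS : (∑ k ∈ K, os k) ^ 2 ≤ K.card * ∑ k ∈ K, os k ^ 2 := sq_sum_le_card_mul_sum_sq
  -- numbers
  have hA4 : 0 < P.A ^ 4 := by positivity
  have hmp0 : 0 < P.mp := by unfold GP.mp; positivity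
  have hn1 : (1 : ℝ) ≤ P.n := by exact_mod_cast P.hn
  have hc11 : P.mp * (80 * P.A ^ 4) ≤ P.n := P.c11
  have hmpB : P.mp ≤ BB.card / 2 := by
    have h1 : P.mp * (80 * P.A ^ 4) ≤ 38 * P.A ^ 4 * BB.card := hc11.trans hn
    have h2 : P.mp * 80 ≤ 38 * BB.card := by
      have : (P.mp * 80) * P.A ^ 4 ≤ (38 * BB.card) * P.A ^ 4 := by linarith
      exact le_of_mul_le_mul_right this hA4
    have h3 : (0 : ℝ) ≤ BB.card := by positivity
    linarith
  have hlow : 1 / (1216 * P.A ^ 4) ≤ ∑ k ∈ K, os k := by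
    refine le_trans ?_ hS
    have h1 : (BB.card : ℝ) / 2 ≤ (BB.card : ℝ) - K.card := by
      have : (K.card : ℝ) ≤ P.mp := hcard
      linarith
    refine le_trans ?_ (mul_le_mul_of_nonneg_right h1 heta.le)
    unfold GP.eta
    rw [div_mul_div_comm, mul_one, div_le_div_iff₀ (by positivity) (by positivity)]
    have h2 : (P.n : ℝ) * 32 ≤ 38 * P.A ^ 4 * BB.card * 32 := by linarith
    nlinarith [h2, hn1]
  have hfin : (1 / (1216 * P.A ^ 4)) ^ 2 ≤ P.mp * cs P u x0 := by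
    have h0 : 0 ≤ 1 / (1216 * P.A ^ 4) := by positivity
    calc (1 / (1216 * P.A ^ 4)) ^ 2 ≤ (∑ k ∈ K, os k) ^ 2 := pow_le_pow_left₀ h0 hlow 2
      _ ≤ K.card * ∑ k ∈ K, os k ^ 2 := hCS
      _ ≤ P.mp * cs P u x0 :=
        mul_le_mul hcard hcs (Finset.sum_nonneg fun _ _ => sq_nonneg _) hmp0.le
  unfold GP.sig
  rw [div_le_iff₀ (by positivity)]
  have h1 : (1 / (1216 * P.A ^ 4)) ^ 2 = 1 / (1478656 * P.A ^ 8) := by
    rw [div_pow, mul_pow, one_pow, ← pow_mul]; norm_num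
  rw [h1, div_le_iff₀ (by positivity)] at hfin
  linarith

end MHL
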