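import Pool.Agent.MHL.StC

/-!
# MHL module K1: construction of the column data
-/

set_option autoImplicit false

namespace MHL

lemma k1_eta_pos (P : GP) : 0 < P.eta := by
  unfold GP.eta
  positivity

/-- monotonicity of the levels -/
lemma k1_lev {P : GP} {E : Env} {u : Pt → ℝ} {cm cp : ℝ} {lev : ℕ → ℝ}
    (h : Lv P E u cm cp lev) : ∀ i j : ℕ, i ≤ j → j ≤ P.n → lev i ≤ lev j := by
  intro i j hij
  induction j, hij using Nat.le_induction with
  | base => intro _; exact le_rfl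
  | succ j hj ih =>
    intro hn
    have h1 := ih (by omega)
    have h2 := h.step j (by omega)
    have h3 := k1_eta_pos P
    linarith

theorem thm_K1 (hl : St_L1) (h1 : St_W1) (h2 : St_W2) (ht : St_Tr1) : St_K1 := by
  intro P E u x0 x1 y0 y1 yp ym cm cp q0 q1 ctx hc hx0 hx1 hy0 hy1 gx0 gx1 gy0 gy1 cn0 hq0 cn1 hq1
    hym
  obtain ⟨lev, hlev⟩ := hl P E u cm cp ctx hc
  have hmon := k1_lev hlev
  have hd : 100 * P.d ≤ 2 ^ P.s := P.c10
  have hd' : 100 * (P.d : ℤ) ≤ 2 ^ P.s := by exact_mod_cast hd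
  have hp : (0 : ℤ) < 2 ^ P.s := by positivity
  have hx : x0 ≤ x1 := by omega
  have hy : y0 ≤ y1 := by omega
  have hwall : ∀ i ≤ P.n, Wall u x0 x1 y0 y1 (lev i)
      (WU u (rc x0 x1 y0 y1) (x0, yp) (x0, y0) (lev i)) := by
    intro i hi
    refine h1 u x0 x1 y0 y1 yp ym cm cp (lev i) q0 q1 hx hy cn0 hq0 cn1 hq1 hym ?_ ?_
    · exact hlev.lo.trans (hmon 0 i (Nat.zero_le i) hi)
    · exact (hmon i P.n hi le_rfl).trans hlev.hi
  have htr : ∀ i : ℕ, ∃ t : ℤ, i ≤ P.n → y0 < t ∧ t ≤ y1 ∧ ∀ y : ℤ, y0 ≤ y → y ≤ y1 →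
      ((x0, y) ∈ WU u (rc x0 x1 y0 y1) (x0, yp) (x0, y0) (lev i) ↔ t ≤ y) := by
    intro i
    by_cases hi : i ≤ P.n
    · have hw := hwall i hi
      obtain ⟨t, h3⟩ := ht x0 x1 y0 y1 _ hx hy hw.sub hw.cU hw.cB (hw.top x0 le_rfl hx)
        (hw.bot x0 le_rfl hx)
      exact ⟨t, fun _ => h3⟩
    · exact ⟨0, fun h => absurd h hi⟩
  choose t ht using htr
  refine ⟨lev, fun i => WU u (rc x0 x1 y0 y1) (x0, yp) (x0, y0) (lev i), t, ?_⟩
  exact
    { ctx := ctx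
      lv := ⟨cm, cp, hlev⟩
      hx0 := hx0
      hx1 := hx1
      hy0 := hy0
      hy1 := hy1
      gx0 := gx0
      gx1 := gx1
      gy0 := gy0
      gy1 := gy1
      wall := hwall
      mono := fun i hi => h2 u _ _ _ _ _ (hmon i (i + 1) (Nat.le_succ i) hi)
      tr := fun i hi => ht i hi }

end MHL
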