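import Pool.Agent.MHL.StB

/-!
# MHL [L1]: existence of good levels
-/

set_option autoImplicit false

open MeasureTheory

namespace MHL

lemma l1_prim (s : ℝ) : HasDerivAt (fun s : ℝ => s * |s|) (2 * |s|) s := by
  refine hasDerivAt_of_hasDerivAt_of_ne' (x := 0) (f := fun s : ℝ => s * |s|)
    (g := fun s : ℝ => 2 * |s|) ?_ ?_ ?_ s
  · intro y hy
    have h1 := (hasDerivAt_id y).mul (hasDerivAt_abs hy)
    have h2 : 1 * |y| + id y * (SignType.sign y : ℝ) = 2 * |y| := by
      change 1 * |y| + y * (SignType.sign y : ℝ) = 2 * |y|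
      rw [self_mul_sign]; ring
    rw [h2] at h1
    exact h1
  · fun_prop
  · fun_prop

lemma l1_key (m s : ℝ) (hm : 0 ≤ m) : max (m - |s|) 0 = (|s + m| + |s - m| - 2 * |s|) / 2 := by
  rcases le_total 0 s with h | h
  · rw [abs_of_nonneg h, abs_of_nonneg (by linarith : (0 : ℝ) ≤ s + m)]
    rcases le_total s m with h2 | h2
    · rw [abs_of_nonpos (by linarith : s - m ≤ 0), max_eq_left (by linarith)]; ring
    · rw [abs_of_nonneg (by linarith : 0 ≤ s - m), max_eq_right (by linarith)]; ring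
  · rw [abs_of_nonpos h, abs_of_nonpos (by linarith : s - m ≤ 0)]
    rcases le_total (-s) m with h2 | h2
    · rw [abs_of_nonneg (by linarith : 0 ≤ s + m), max_eq_left (by linarith)]; ring
    · rw [abs_of_nonpos (by linarith : s + m ≤ 0), max_eq_right (by linarith)]; ring

/-- the primitive -/
noncomputable def l1_G (m s : ℝ) : ℝ :=
  ((s + m) * |s + m| + (s - m) * |s - m| - 2 * (s * |s|)) / 4

lemma l1_G_abs (m s : ℝ) (hm : 0 ≤ m) : |l1_G m s| ≤ m ^ 2 / 2 := by
  unfold l1_G
  rw [abs_le]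
  rcases le_total 0 s with h | h
  · rw [abs_of_nonneg h, abs_of_nonneg (by linarith : (0 : ℝ) ≤ s + m)]
    rcases le_total s m with h2 | h2
    · rw [abs_of_nonpos (by linarith : s - m ≤ 0)]
      constructor <;> nlinarith [mul_nonneg h hm, mul_nonneg h (sub_nonneg.2 h2), sq_nonneg (s - m)]
    · rw [abs_of_nonneg (by linarith : 0 ≤ s - m)]
      constructor <;> nlinarith [sq_nonneg m]
  · rw [abs_of_nonpos h, abs_of_nonpos (by linarith : s - m ≤ 0)]
    rcases le_total (-s) m with h2 | h2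
    · rw [abs_of_nonneg (by linarith : 0 ≤ s + m)]
      have h3 : 0 ≤ -s := by linarith
      constructor <;> nlinarith [mul_nonneg h3 hm, mul_nonneg h3 (sub_nonneg.2 h2),
        sq_nonneg (s + m)]
    · rw [abs_of_nonpos (by linarith : s + m ≤ 0)]
      constructor <;> nlinarith [sq_nonneg m]

lemma l1_int (m v α β : ℝ) (hm : 0 ≤ m) : ∫ c in α..β, max (m - |v - c|) 0 ≤ m ^ 2 := by
  have hd : ∀ c : ℝ, HasDerivAt (fun c => l1_G m (c - v)) (max (m - |v - c|) 0) c := by
    intro c
    rw [abs_sub_comm v c, l1_key m (c - v) hm]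
    have h0 : HasDerivAt (fun c : ℝ => c - v) 1 c := (hasDerivAt_id c).sub_const v
    have h1 : HasDerivAt (fun c : ℝ => (c - v + m) * |c - v + m|) (2 * |c - v + m| * 1) c :=
      HasDerivAt.comp (h := fun c : ℝ => c - v + m) (h₂ := fun s : ℝ => s * |s|) c
        (l1_prim (c - v + m)) (h0.add_const m)
    have h2 : HasDerivAt (fun c : ℝ => (c - v - m) * |c - v - m|) (2 * |c - v - m| * 1) c :=
      HasDerivAt.comp (h := fun c : ℝ => c - v - m) (h₂ := fun s : ℝ => s * |s|) c
        (l1_prim (c - v - m)) (h0.sub_const m)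
    have h3 : HasDerivAt (fun c : ℝ => (c - v) * |c - v|) (2 * |c - v| * 1) c :=
      HasDerivAt.comp (h := fun c : ℝ => c - v) (h₂ := fun s : ℝ => s * |s|) c
        (l1_prim (c - v)) h0
    have h4 := ((h1.add h2).sub (h3.const_mul 2)).div_const 4
    have e : (2 * |c - v + m| * 1 + 2 * |c - v - m| * 1 - 2 * (2 * |c - v| * 1)) / 4 =
        (|c - v + m| + |c - v - m| - 2 * |c - v|) / 2 := by ring
    rw [e] at h4
    exact h4
  have hc : Continuous (fun c : ℝ => max (m - |v - c|) 0) := by fun_prop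
  rw [intervalIntegral.integral_eq_sub_of_hasDerivAt (fun c _ => hd c)
    (hc.intervalIntegrable _ _)]
  have h1 := abs_le.1 (l1_G_abs m (β - v) hm)
  have h2 := abs_le.1 (l1_G_abs m (α - v) hm)
  linarith

lemma l1_cont (E : Env) (u : Pt → ℝ) (B : Finset Pt) : Continuous (fun c => rho E u B c) := by
  unfold rho
  fun_prop

lemma l1_rho_int (E : Env) (u : Pt → ℝ) (B : Finset Pt) (α β : ℝ) :
    ∫ c in α..β, rho E u B c ≤ ∑ z ∈ B, dd E u z ^ 2 := by
  unfold rho
  rw [intervalIntegral.integral_finsetSum]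
  · refine Finset.sum_le_sum fun z _ => ?_
    have h := l1_int |dd E u z| (u z) α β (abs_nonneg _)
    rwa [sq_abs] at h
  · intro z _
    apply Continuous.intervalIntegrable
    fun_prop

/-- a good level in an interval of length `η` -/
lemma l1_exists (E : Env) (u : Pt → ℝ) (B : Finset Pt) (α η e : ℝ) (hη : 0 < η)
    (he : ∑ z ∈ B, dd E u z ^ 2 ≤ e) : ∃ c, α ≤ c ∧ c ≤ α + η ∧ rho E u B c ≤ e / η := by
  have hc := l1_cont E u B
  obtain ⟨c, hcm, hmin⟩ := (isCompact_Icc (a := α) (b := α + η)).exists_isMinOn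
    ⟨α, Set.left_mem_Icc.2 (by linarith)⟩ hc.continuousOn
  refine ⟨c, hcm.1, hcm.2, ?_⟩
  rw [le_div_iff₀ hη]
  have h1 : ∫ _ in α..(α + η), rho E u B c ≤ ∫ t in α..(α + η), rho E u B t := by
    apply intervalIntegral.integral_mono_on (by linarith) (continuous_const.intervalIntegrable _ _)
      (hc.intervalIntegrable _ _)
    intro t ht
    exact hmin ht
  rw [intervalIntegral.integral_const, smul_eq_mul] at h1
  have h2 := l1_rho_int E u B α (α + η)
  have h3 : (α + η - α) * rho E u B c = rho E u B c * η := by ring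
  rw [h3] at h1
  linarith

theorem thm_L1 : St_L1 := by
  intro P E u cm cp hctx hcp
  have hη : 0 < P.eta := by unfold GP.eta; positivity
  have he : ∑ z ∈ bx (0, 0) (4 * 2 ^ P.s), dd E u z ^ 2 ≤ P.e := by
    rw [← en_eq_of_harm hctx.harm]
    exact hctx.energy
  have hex : ∀ b : ℕ, ∃ c, cm + 2 * b * P.eta ≤ c ∧ c ≤ cm + 2 * b * P.eta + P.eta ∧
      rho E u (bx (0, 0) (4 * 2 ^ P.s)) c ≤ P.e / P.eta := fun b =>
    l1_exists E u _ _ _ _ hη he
  choose lev h1 h2 h3 using hex
  refine ⟨lev, ⟨?_, ?_, ?_, fun b _ => h3 b⟩⟩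
  · have := h1 0
    simpa using this
  · refine (h2 P.n).trans (le_trans ?_ hcp)
    have e1 : 2 * (P.n : ℝ) * P.eta + P.eta ≤ 1 / 4 := by
      have e2 : 2 * (P.n : ℝ) * P.eta + P.eta = (2 * P.n + 1) * P.eta := by ring
      rw [e2]
      unfold GP.eta
      rw [mul_one_div, div_le_div_iff₀ (by positivity) (by norm_num)]
      have : (0 : ℝ) ≤ P.n := Nat.cast_nonneg _
      linarith
    linarith
  · intro b _
    have e1 := h2 b
    have e2 := h1 (b + 1)
    push_cast at e2
    linarith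

end MHL
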