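import Mathlib
import Pool.Agent.MHL.StB

/-!
# MHL: L3, few bad columns
-/

set_option autoImplicit false

namespace MHL

open Classical in
/-- Markov inequality -/
lemma l3_markov {ι : Type*} (s : Finset ι) (f : ι → ℝ) (t M : ℝ) (hf : ∀ x ∈ s, 0 ≤ f x)
    (ht : 0 < t) (hM : ∑ x ∈ s, f x ≤ M) : ((s.filter (fun x => ¬ f x ≤ t)).card : ℝ) ≤ M / t := by
  rw [le_div_iff₀ ht]
  refine le_trans ?_ hM
  calc ((s.filter (fun x => ¬ f x ≤ t)).card : ℝ) * t
      = ∑ _x ∈ s.filter (fun x => ¬ f x ≤ t), t := by rw [Finset.sum_const, nsmul_eq_mul]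
    _ ≤ ∑ x ∈ s.filter (fun x => ¬ f x ≤ t), f x := by
        apply Finset.sum_le_sum
        intro x hx
        rw [Finset.mem_filter] at hx
        exact le_of_not_ge hx.2
    _ ≤ ∑ x ∈ s, f x :=
        Finset.sum_le_sum_of_subset_of_nonneg (Finset.filter_subset _ _) fun x hx _ => hf x hx

lemma l3_le {i s : ℕ} (h : 4 * 2 ^ i ≤ 2 ^ s) : i + 2 ≤ s := by
  have h1 : 2 ^ (i + 2) ≤ 2 ^ s := by
    calc 2 ^ (i + 2) = 4 * 2 ^ i := by ring
      _ ≤ 2 ^ s := h
  exact (Nat.pow_le_pow_iff_right (by norm_num)).1 h1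

/-- sum over blocks -/
lemma l3_block (S M : Finset ℤ) (q : ℤ) (hq : 0 < q) (T : ℤ → ℝ) (hT : ∀ m, 0 ≤ T m)
    (hS : ∀ x ∈ S, x / q ∈ M) : ∑ x ∈ S, T (x / q) ≤ (q : ℝ) * ∑ m ∈ M, T m := by
  classical
  rw [← Finset.sum_fiberwise_of_maps_to hS, Finset.mul_sum]
  apply Finset.sum_le_sum
  intro m _
  have h1 : ∑ x ∈ S.filter (fun x => x / q = m), T (x / q) =
      ∑ x ∈ S.filter (fun x => x / q = m), T m := by
    apply Finset.sum_congr rfl
    intro x hx
    rw [(Finset.mem_filter.1 hx).2]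
  rw [h1, Finset.sum_const, nsmul_eq_mul]
  apply mul_le_mul_of_nonneg_right _ (hT m)
  have h2 : S.filter (fun x => x / q = m) ⊆ Finset.Ico (m * q) (m * q + q) := by
    intro x hx
    have h3 := (Finset.mem_filter.1 hx).2
    have e1 := Int.mul_ediv_add_emod x q
    have e2 := Int.emod_nonneg x hq.ne'
    have e3 := Int.emod_lt_of_pos x hq
    rw [h3] at e1
    rw [Finset.mem_Ico]
    constructor <;> nlinarith
  have h3 := Finset.card_le_card h2
  rw [Int.card_Ico] at h3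
  have h4 : (((m * q + q - m * q).toNat : ℕ) : ℤ) = q := by
    rw [Int.toNat_of_nonneg (by linarith)]; ring
  have h5 : ((S.filter (fun x => x / q = m)).card : ℤ) ≤ q := by
    calc ((S.filter (fun x => x / q = m)).card : ℤ) ≤ (((m * q + q - m * q).toNat : ℕ) : ℤ) := by
          exact_mod_cast h3
      _ = q := h4
  exact_mod_cast h5

theorem thm_L3 (h : St_L2) : St_L3 := by
  classical
  intro P E u hC
  have hK : 0 < P.K1 := lt_of_lt_of_le one_pos P.hK1
  have hL : 0 < P.L := lt_of_lt_of_le one_pos P.hL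
  have he := P.he
  have hps : (0 : ℝ) < 2 ^ P.s := by positivity
  have hpsz : (0 : ℤ) < 2 ^ P.s := by positivity
  set S : Finset ℤ := Finset.Ico (-3 * 2 ^ P.s : ℤ) (3 * 2 ^ P.s) with hS
  set fe : ℤ → ℝ := fun x =>
    ∑ y ∈ Finset.Icc (-3 * 2 ^ P.s : ℤ) (3 * 2 ^ P.s), dd E u (x, y) ^ 2 with hfe
  set fo : ℕ → ℤ → ℝ := fun i x =>
    ∑ k ∈ Finset.Icc (-3 * 2 ^ (P.s - i) : ℤ) (3 * 2 ^ (P.s - i)),
      osc (Finset.Icc (k * 2 ^ i - 2 ^ i) (k * 2 ^ i + 2 ^ i)) (fun y : ℤ => u (x, y)) ^ 2 with hfo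
  set te : ℝ := P.K1 * P.e / 2 ^ P.s with hte
  set tho : ℕ → ℝ := fun i => 81 * P.K1 * P.L * P.e * Real.sqrt (2 ^ i) / 2 ^ P.s with htho
  -- energy
  have hE : ((S.filter (fun x => ¬ fe x ≤ te)).card : ℝ) ≤ 2 ^ P.s / P.K1 := by
    have h1 : ∑ x ∈ S, fe x ≤ P.e := by
      have h2 := hC.energy
      rw [en_eq_of_harm hC.harm] at h2
      refine le_trans ?_ h2
      have h3 : ∑ x ∈ S, fe x =
          ∑ z ∈ S ×ˢ Finset.Icc (-3 * 2 ^ P.s : ℤ) (3 * 2 ^ P.s), dd E u z ^ 2 := by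
        rw [Finset.sum_product]
      rw [h3]
      apply Finset.sum_le_sum_of_subset_of_nonneg
      · intro z hz
        rw [Finset.mem_product, hS, Finset.mem_Ico, Finset.mem_Icc] at hz
        rw [mem_bx]
        push_cast
        obtain ⟨⟨h4, h5⟩, h6, h7⟩ := hz
        rw [sub_zero, sub_zero, abs_le, abs_le]
        refine ⟨⟨?_, ?_⟩, ?_, ?_⟩ <;> linarith
      · intro z _ _
        exact sq_nonneg _
    have h2 := l3_markov S fe te P.e (fun x _ => Finset.sum_nonneg fun _ _ => sq_nonneg _)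
      (by positivity) h1
    refine h2.trans (le_of_eq ?_)
    rw [hte]
    field_simp
  -- oscillations
  have hO : ∀ i : ℕ, 4 * 2 ^ i ≤ 2 ^ P.s →
      ((S.filter (fun x => ¬ fo i x ≤ tho i)).card : ℝ) ≤ 2 ^ P.s / P.K1 := by
    intro i hi
    have his := l3_le hi
    have hp : (0 : ℝ) < 2 ^ i := by positivity
    have hq : 0 < Real.sqrt (2 ^ i) := Real.sqrt_pos.2 hp
    have hpz : (0 : ℤ) < 2 ^ i := by positivity
    have hsubz : (2 : ℤ) ^ (P.s - i) * 2 ^ i = 2 ^ P.s := by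
      rw [← pow_add]; congr 1; omega
    set M : Finset ℤ := Finset.Icc (-3 * 2 ^ (P.s - i) : ℤ) (3 * 2 ^ (P.s - i)) with hM
    set T : ℤ → ℝ := fun m => ∑ k ∈ M, osc (bx (m * 2 ^ i, k * 2 ^ i) (2 ^ i)) u ^ 2 with hT
    have hT0 : ∀ m, 0 ≤ T m := fun m => Finset.sum_nonneg fun _ _ => sq_nonneg _
    have h1 : ∑ m ∈ M, T m ≤ 81 * P.L * P.e / Real.sqrt (2 ^ i) := h P E u i hC hi
    have h2 : ∀ x ∈ S, fo i x ≤ T (x / 2 ^ i) := by
      intro x _
      simp only [hfo, hT]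
      apply Finset.sum_le_sum
      intro k _
      apply pow_le_pow_left₀ (osc_nonneg _ _)
      apply osc_le (osc_nonneg _ _)
      intro y hy y' hy'
      rw [Finset.mem_Icc] at hy hy'
      have e1 := Int.mul_ediv_add_emod x (2 ^ i)
      have e2 := Int.emod_nonneg x hpz.ne'
      have e3 := Int.emod_lt_of_pos x hpz
      have hx : |x - x / 2 ^ i * 2 ^ i| ≤ 2 ^ i := by
        rw [abs_le]; constructor <;> nlinarith
      apply le_osc u (a := (x, y)) (b := (x, y'))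
      · rw [mem_bx]
        push_cast
        refine ⟨hx, ?_⟩
        rw [abs_le]; constructor <;> linarith [hy.1, hy.2]
      · rw [mem_bx]
        push_cast
        refine ⟨hx, ?_⟩
        rw [abs_le]; constructor <;> linarith [hy'.1, hy'.2]
    have h3 : ∀ x ∈ S, x / 2 ^ i ∈ M := by
      intro x hx
      rw [hS, Finset.mem_Ico] at hx
      rw [hM, Finset.mem_Icc]
      have e1 := Int.mul_ediv_add_emod x (2 ^ i)
      have e2 := Int.emod_nonneg x hpz.ne'
      have e3 := Int.emod_lt_of_pos x hpz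
      constructor
      · rw [Int.le_ediv_iff_mul_le hpz, mul_assoc, hsubz]
        exact hx.1
      · have h4 : x / 2 ^ i < 3 * 2 ^ (P.s - i) := by
          rw [Int.ediv_lt_iff_lt_mul hpz, mul_assoc, hsubz]
          exact hx.2
        exact h4.le
    have h4 : ∑ x ∈ S, fo i x ≤ 2 ^ i * (81 * P.L * P.e / Real.sqrt (2 ^ i)) := by
      calc ∑ x ∈ S, fo i x ≤ ∑ x ∈ S, T (x / 2 ^ i) := Finset.sum_le_sum h2
        _ ≤ ((2 ^ i : ℤ) : ℝ) * ∑ m ∈ M, T m := l3_block S M (2 ^ i) hpz T hT0 h3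
        _ ≤ 2 ^ i * (81 * P.L * P.e / Real.sqrt (2 ^ i)) := by
          push_cast
          exact mul_le_mul_of_nonneg_left h1 hp.le
    have h5 := l3_markov S (fo i) (tho i) _
      (fun x _ => Finset.sum_nonneg fun _ _ => sq_nonneg _) (by simp only [htho]; positivity) h4
    refine h5.trans (le_of_eq ?_)
    have hsq : Real.sqrt (2 ^ i) * Real.sqrt (2 ^ i) = 2 ^ i := Real.mul_self_sqrt hp.le
    have key : ∀ q w : ℝ, 0 < q → q * q = w →
        w * (81 * P.L * P.e / q) / (81 * P.K1 * P.L * P.e * q / 2 ^ P.s) = 2 ^ P.s / P.K1 := by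
      intro q w hq hw
      rw [← hw]
      field_simp
    exact key _ _ hq hsq
  -- union
  have hsub : S.filter (fun x => ¬ GCol P E u x) ⊆ S.filter (fun x => ¬ fe x ≤ te) ∪
      ((Finset.range P.s).filter (fun i => 4 * 2 ^ i ≤ 2 ^ P.s)).biUnion
        (fun i => S.filter (fun x => ¬ fo i x ≤ tho i)) := by
    intro x hx
    rw [Finset.mem_filter] at hx
    by_contra hcon
    rw [Finset.mem_union, Finset.mem_biUnion, Finset.mem_filter] at hcon
    push Not at hcon
    obtain ⟨h1, h2⟩ := hcon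
    apply hx.2
    refine ⟨h1 hx.1, ?_⟩
    intro i hi
    by_contra h3
    have his := l3_le hi
    exact h2 i (Finset.mem_filter.2 ⟨Finset.mem_range.2 (by omega), hi⟩)
      (Finset.mem_filter.2 ⟨hx.1, lt_of_not_ge h3⟩)
  have hcard : ((S.filter (fun x => ¬ GCol P E u x)).card : ℝ) ≤
      2 ^ P.s / P.K1 + P.s * (2 ^ P.s / P.K1) := by
    have h1 := (Finset.card_le_card hsub).trans (Finset.card_union_le _ _)
    have h2 : (((((Finset.range P.s).filter (fun i => 4 * 2 ^ i ≤ 2 ^ P.s)).biUnion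
        (fun i => S.filter (fun x => ¬ fo i x ≤ tho i))).card : ℕ) : ℝ) ≤
        P.s * (2 ^ P.s / P.K1) := by
      have h3 := Finset.card_biUnion_le (s := (Finset.range P.s).filter
        (fun i => 4 * 2 ^ i ≤ 2 ^ P.s)) (t := fun i => S.filter (fun x => ¬ fo i x ≤ tho i))
      have h4 : ((∑ i ∈ (Finset.range P.s).filter (fun i => 4 * 2 ^ i ≤ 2 ^ P.s),
          (S.filter (fun x => ¬ fo i x ≤ tho i)).card : ℕ) : ℝ) ≤ P.s * (2 ^ P.s / P.K1) := by
        push_cast
        calc ∑ i ∈ (Finset.range P.s).filter (fun i => 4 * 2 ^ i ≤ 2 ^ P.s),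
            ((S.filter (fun x => ¬ fo i x ≤ tho i)).card : ℝ)
            ≤ ∑ _i ∈ (Finset.range P.s).filter (fun i => 4 * 2 ^ i ≤ 2 ^ P.s),
              (2 ^ P.s / P.K1 : ℝ) :=
              Finset.sum_le_sum fun i hi => hO i (Finset.mem_filter.1 hi).2
          _ = (((Finset.range P.s).filter (fun i => 4 * 2 ^ i ≤ 2 ^ P.s)).card : ℝ) *
              (2 ^ P.s / P.K1) := by rw [Finset.sum_const, nsmul_eq_mul]
          _ ≤ P.s * (2 ^ P.s / P.K1) := by
              apply mul_le_mul_of_nonneg_right _ (by positivity)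
              have h5 := Finset.card_filter_le (Finset.range P.s) (fun i => 4 * 2 ^ i ≤ 2 ^ P.s)
              rw [Finset.card_range] at h5
              exact_mod_cast h5
      refine le_trans ?_ h4
      exact_mod_cast h3
    have h3 : ((S.filter (fun x => ¬ GCol P E u x)).card : ℝ) ≤
        ((S.filter (fun x => ¬ fe x ≤ te)).card : ℝ) +
        (((((Finset.range P.s).filter (fun i => 4 * 2 ^ i ≤ 2 ^ P.s)).biUnion
        (fun i => S.filter (fun x => ¬ fo i x ≤ tho i))).card : ℕ) : ℝ) := by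
      exact_mod_cast h1
    linarith
  have hfin : 2 ^ P.s / P.K1 + P.s * (2 ^ P.s / P.K1) = ((P.s : ℝ) + 1) * 2 ^ P.s / P.K1 := by
    ring
  rw [hfin] at hcard
  refine le_trans (le_of_eq ?_) hcard
  norm_cast

end MHL
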