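import Pool.Agent.MHL.StB

set_option autoImplicit false

namespace MHL

theorem thm_L4 (h : St_L3) : St_L4 := by
  classical
  intro P E u p w hC hp hpw hd
  by_contra hcon
  have hall : ∀ x : ℤ, p ≤ x → x < p + w → ¬ GCol P E u x := fun x h1 h2 h3 =>
    hcon ⟨x, h1, h2, h3⟩
  have h1 := h P E u hC
  have hsub : Finset.Ico p (p + w) ⊆
      (Finset.Ico (-3 * 2 ^ P.s : ℤ) (3 * 2 ^ P.s)).filter (fun x => ¬ GCol P E u x) := by
    intro x hx
    rw [Finset.mem_Ico] at hx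
    rw [Finset.mem_filter, Finset.mem_Ico]
    exact ⟨⟨hp.trans hx.1, lt_of_lt_of_le hx.2 hpw⟩, hall x hx.1 hx.2⟩
  have h2 := Finset.card_le_card hsub
  rw [Int.card_Ico] at h2
  have h3 : (p + (w : ℤ) - p).toNat = w := by
    rw [add_sub_cancel_left]
    exact Int.toNat_natCast w
  rw [h3] at h2
  have h4 : (w : ℝ) ≤ ((P.s : ℝ) + 1) * 2 ^ P.s / P.K1 := by
    refine le_trans ?_ h1
    exact_mod_cast h2
  have hK : 0 < P.K1 := lt_of_lt_of_le one_pos P.hK1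
  rw [le_div_iff₀ hK] at h4
  have h5 := P.c3
  have h6 : (P.d : ℝ) ≤ 2 * w := by exact_mod_cast hd
  have h7 : (P.d : ℝ) * P.K1 ≤ 2 * w * P.K1 := mul_le_mul_of_nonneg_right h6 hK.le
  have h8 : (0 : ℝ) < 2 ^ P.s := by positivity
  nlinarith

end MHL
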