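import Mathlib
import Pool.Agent.MHL.StB

/-!
# MHL: L5, variation along a good column
-/

set_option autoImplicit false

namespace MHL

lemma l5_card (m : ℕ) :
    ((Finset.Icc (-3 * 2 ^ m : ℤ) (3 * 2 ^ m)).card : ℝ) ≤ 7 * 2 ^ m := by
  rw [Int.card_Icc]
  have h1 : (1 : ℤ) ≤ 2 ^ m := one_le_pow₀ (by norm_num)
  have h2 : (((3 * 2 ^ m + 1 - -3 * 2 ^ m : ℤ).toNat : ℤ) : ℝ) = 6 * 2 ^ m + 1 := by
    rw [Int.toNat_of_nonneg (by linarith)]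
    push_cast
    ring
  have h3 : (((3 * 2 ^ m + 1 - -3 * 2 ^ m : ℤ).toNat : ℕ) : ℝ) =
      (((3 * 2 ^ m + 1 - -3 * 2 ^ m : ℤ).toNat : ℤ) : ℝ) := by norm_cast
  rw [h3, h2]
  have h4 : (1 : ℝ) ≤ 2 ^ m := one_le_pow₀ (by norm_num)
  linarith

lemma l5_le {i s : ℕ} (h : 4 * 2 ^ i ≤ 2 ^ s) : i + 2 ≤ s := by
  have h1 : 2 ^ (i + 2) ≤ 2 ^ s := by
    calc 2 ^ (i + 2) = 4 * 2 ^ i := by ring
      _ ≤ 2 ^ s := h
  exact (Nat.pow_le_pow_iff_right (by norm_num)).1 h1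

theorem thm_L5 : St_L5 := by
  intro P E u x i hC hG hi
  set f : ℤ → ℝ := fun k =>
    osc (Finset.Icc (k * 2 ^ i - 2 ^ i) (k * 2 ^ i + 2 ^ i)) (fun y : ℤ => u (x, y)) with hf
  set S := Finset.Icc (-3 * 2 ^ (P.s - i) : ℤ) (3 * 2 ^ (P.s - i)) with hS
  have his := l5_le hi
  have h1 : (∑ k ∈ S, f k) ^ 2 ≤ (S.card : ℝ) * ∑ k ∈ S, f k ^ 2 := sq_sum_le_card_mul_sum_sq
  have h2 := hG.os i hi
  have h3 := l5_card (P.s - i)
  have hK : 0 < P.K1 := lt_of_lt_of_le one_pos P.hK1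
  have hL : 0 < P.L := lt_of_lt_of_le one_pos P.hL
  have he := P.he
  have hp : (0 : ℝ) < 2 ^ i := by positivity
  have hps : (0 : ℝ) < 2 ^ P.s := by positivity
  have hq : 0 < Real.sqrt (2 ^ i) := Real.sqrt_pos.2 hp
  have hsq : Real.sqrt (2 ^ i) * Real.sqrt (2 ^ i) = 2 ^ i := Real.mul_self_sqrt hp.le
  have hsub : (2 : ℝ) ^ (P.s - i) * 2 ^ i = 2 ^ P.s := by
    rw [← pow_add]; congr 1; omega
  have hpos : 0 ≤ ∑ k ∈ S, f k ^ 2 := Finset.sum_nonneg fun _ _ => sq_nonneg _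
  have h4 : (∑ k ∈ S, f k) ^ 2 ≤ 567 * (P.K1 * P.L * P.e) / Real.sqrt (2 ^ i) := by
    calc (∑ k ∈ S, f k) ^ 2 ≤ (S.card : ℝ) * ∑ k ∈ S, f k ^ 2 := h1
      _ ≤ (7 * 2 ^ (P.s - i)) * (81 * P.K1 * P.L * P.e * Real.sqrt (2 ^ i) / 2 ^ P.s) :=
        mul_le_mul h3 h2 hpos (by positivity)
      _ = 567 * (P.K1 * P.L * P.e) / Real.sqrt (2 ^ i) := by
        have h5 : (0 : ℝ) < 2 ^ (P.s - i) := by positivity
        have key : ∀ q m w : ℝ, 0 < q → 0 < m → q * q = w →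
            7 * m * (81 * P.K1 * P.L * P.e * q / (m * w)) = 567 * (P.K1 * P.L * P.e) / q := by
          intro q m w hq hm hw
          rw [← hw]
          field_simp
          ring
        rw [← hsub]
        exact key _ _ _ hq h5 hsq
  have hroot : (((2 : ℝ) ^ i) ^ (1 / 4 : ℝ)) ^ 2 = Real.sqrt (2 ^ i) := by
    rw [← Real.rpow_natCast, ← Real.rpow_mul hp.le, Real.sqrt_eq_rpow]
    norm_num
  have hr : 0 < ((2 : ℝ) ^ i) ^ (1 / 4 : ℝ) := Real.rpow_pos_of_pos hp _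
  have hfin : (∑ k ∈ S, f k) ^ 2 ≤
      (24 * Real.sqrt (P.K1 * P.L * P.e) / ((2 : ℝ) ^ i) ^ (1 / 4 : ℝ)) ^ 2 := by
    refine h4.trans ?_
    rw [div_pow, hroot, mul_pow, Real.sq_sqrt (by positivity)]
    apply div_le_div_of_nonneg_right _ hq.le
    have : 0 < P.K1 * P.L * P.e := by positivity
    linarith
  exact le_of_sq_le_sq hfin (by positivity)

end MHL
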