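import Pool.Agent.MHL.StB

/-!
# MHL: dyadic estimate of the sum of the errors along a good column
-/

set_option autoImplicit false

namespace MHL

/-- coarse-grained weighted sum -/
noncomputable def l6_e (h : ℤ → ℤ) (F : ℤ → ℝ) (s t : ℤ) (k : ℕ) : ℝ :=
  ∑ y ∈ Finset.Ico s t, (h y : ℝ) * F (max ((y / 2 ^ k) * 2 ^ k) s)

lemma l6_e_zero (h : ℤ → ℤ) (F : ℤ → ℝ) (s t : ℤ) : l6_e h F s t 0 = xi h F s t := by
  unfold l6_e xi
  refine Finset.sum_congr rfl fun y hy => ?_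
  rw [Finset.mem_Ico] at hy
  have : max ((y / 2 ^ 0) * 2 ^ 0) s = y := by simp [hy.1]
  rw [this]

lemma l6_div {c y m : ℤ} (hc : 0 < c) : y / c = m ↔ m * c ≤ y ∧ y < (m + 1) * c := by
  rw [← Int.le_ediv_iff_mul_le hc, ← Int.ediv_lt_iff_lt_mul hc]
  omega

lemma l6_fiber {h : ℤ → ℤ} {A : ℝ} {s t : ℤ} (hA : 0 ≤ A)
    (hg : ∀ a b : ℤ, s ≤ a → a ≤ b → b ≤ t →
      |(sm h b : ℝ) - sm h a| ≤ A * Real.sqrt ((b : ℝ) - a)) (k : ℕ) (m : ℤ) :
    |∑ y ∈ (Finset.Ico s t).filter (fun y => y / 2 ^ k = m), (h y : ℝ)| ≤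
      A * Real.sqrt (2 ^ k) := by
  have hk : (0 : ℤ) < 2 ^ k := by positivity
  have h1 : (Finset.Ico s t).filter (fun y => y / 2 ^ k = m) =
      Finset.Ico (max s (m * 2 ^ k)) (min t ((m + 1) * 2 ^ k)) := by
    ext y
    simp only [Finset.mem_filter, Finset.mem_Ico, max_le_iff, lt_min_iff, l6_div hk]
    tauto
  rw [h1]
  rcases le_or_gt (max s (m * 2 ^ k)) (min t ((m + 1) * 2 ^ k)) with h2 | h2
  · rw [sum_Ico_real h h2]
    refine (hg _ _ (le_max_left _ _) h2 (min_le_left _ _)).trans ?_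
    refine mul_le_mul_of_nonneg_left (Real.sqrt_le_sqrt ?_) hA
    have h3 : min t ((m + 1) * 2 ^ k) - max s (m * 2 ^ k) ≤ 2 ^ k := by
      have h4 : min t ((m + 1) * 2 ^ k) ≤ (m + 1) * 2 ^ k := min_le_right _ _
      have h5 : m * 2 ^ k ≤ max s (m * 2 ^ k) := le_max_right _ _
      have h6 : (m + 1) * 2 ^ k = m * 2 ^ k + (2 : ℤ) ^ k := by ring
      omega
    exact_mod_cast h3
  · rw [Finset.Ico_eq_empty (by omega), Finset.sum_empty, abs_zero]
    positivity

lemma l6_step {h : ℤ → ℤ} {F : ℤ → ℝ} {A : ℝ} {s t : ℤ} (hA : 0 ≤ A)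
    (hg : ∀ a b : ℤ, s ≤ a → a ≤ b → b ≤ t →
      |(sm h b : ℝ) - sm h a| ≤ A * Real.sqrt ((b : ℝ) - a)) (k : ℕ) :
    |l6_e h F s t k - l6_e h F s t (k + 1)| ≤ A * Real.sqrt (2 ^ k) *
      ∑ m ∈ (Finset.Ico s t).image (fun y => y / 2 ^ k),
        |F (max (m * 2 ^ k) s) - F (max ((m / 2) * 2 ^ (k + 1)) s)| := by
  have h0 : l6_e h F s t k - l6_e h F s t (k + 1) = ∑ y ∈ Finset.Ico s t,
      (h y : ℝ) * (F (max ((y / 2 ^ k) * 2 ^ k) s) -
        F (max (((y / 2 ^ k) / 2) * 2 ^ (k + 1)) s)) := by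
    unfold l6_e
    rw [← Finset.sum_sub_distrib]
    refine Finset.sum_congr rfl fun y _ => ?_
    have h1 : y / 2 ^ k / 2 = y / 2 ^ (k + 1) := by
      rw [Int.ediv_ediv_of_nonneg (by positivity), ← pow_succ]
    rw [h1]
    ring
  rw [h0, ← Finset.sum_fiberwise_of_maps_to (g := fun y : ℤ => y / 2 ^ k)
    (t := (Finset.Ico s t).image (fun y => y / 2 ^ k))
    (fun y hy => Finset.mem_image_of_mem _ hy)]
  refine (Finset.abs_sum_le_sum_abs _ _).trans ?_
  rw [Finset.mul_sum]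
  refine Finset.sum_le_sum fun m _ => ?_
  have h2 : ∑ y ∈ (Finset.Ico s t).filter (fun y => y / 2 ^ k = m),
      (h y : ℝ) * (F (max ((y / 2 ^ k) * 2 ^ k) s) -
        F (max (((y / 2 ^ k) / 2) * 2 ^ (k + 1)) s)) =
      (∑ y ∈ (Finset.Ico s t).filter (fun y => y / 2 ^ k = m), (h y : ℝ)) *
        (F (max (m * 2 ^ k) s) - F (max ((m / 2) * 2 ^ (k + 1)) s)) := by
    rw [Finset.sum_mul]
    refine Finset.sum_congr rfl fun y hy => ?_
    rw [Finset.mem_filter] at hy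
    rw [hy.2]
  rw [h2, abs_mul]
  exact mul_le_mul_of_nonneg_right (l6_fiber hA hg k m) (abs_nonneg _)

lemma l6_last {h : ℤ → ℤ} {F : ℤ → ℝ} {A : ℝ} {s t : ℤ} (hA : 0 ≤ A)
    (hg : ∀ a b : ℤ, s ≤ a → a ≤ b → b ≤ t →
      |(sm h b : ℝ) - sm h a| ≤ A * Real.sqrt ((b : ℝ) - a)) (k : ℕ)
    (hF : ∀ y, |F y| ≤ 1) (hst : t - s ≤ 2 ^ k) :
    |l6_e h F s t k| ≤ 2 * (A * Real.sqrt (2 ^ k)) := by
  have hk : (0 : ℤ) < 2 ^ k := by positivity
  unfold l6_e
  rw [← Finset.sum_fiberwise_of_maps_to (g := fun y : ℤ => y / 2 ^ k)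
    (t := ({s / 2 ^ k, s / 2 ^ k + 1} : Finset ℤ)) (by
      intro y hy
      rw [Finset.mem_Ico] at hy
      have h1 : s / 2 ^ k ≤ y / 2 ^ k := Int.ediv_le_ediv hk hy.1
      have h2 : y / 2 ^ k < s / 2 ^ k + 2 := by
        rw [Int.ediv_lt_iff_lt_mul hk]
        have h3 := (l6_div hk (y := s) (m := s / 2 ^ k)).1 rfl
        have h4 : (s / 2 ^ k + 2) * 2 ^ k = (s / 2 ^ k + 1) * 2 ^ k + 2 ^ k := by ring
        omega
      simp only [Finset.mem_insert, Finset.mem_singleton]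
      omega)]
  refine (Finset.abs_sum_le_sum_abs _ _).trans ?_
  have h1 : ∀ m ∈ ({s / 2 ^ k, s / 2 ^ k + 1} : Finset ℤ),
      |∑ y ∈ (Finset.Ico s t).filter (fun y => y / 2 ^ k = m),
        (h y : ℝ) * F (max ((y / 2 ^ k) * 2 ^ k) s)| ≤ A * Real.sqrt (2 ^ k) := by
    intro m _
    have h2 : ∑ y ∈ (Finset.Ico s t).filter (fun y => y / 2 ^ k = m),
        (h y : ℝ) * F (max ((y / 2 ^ k) * 2 ^ k) s) =
        (∑ y ∈ (Finset.Ico s t).filter (fun y => y / 2 ^ k = m), (h y : ℝ)) *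
          F (max (m * 2 ^ k) s) := by
      rw [Finset.sum_mul]
      refine Finset.sum_congr rfl fun y hy => ?_
      rw [Finset.mem_filter] at hy
      rw [hy.2]
    rw [h2, abs_mul]
    have h3 := l6_fiber hA hg k m
    have h4 := hF (max (m * 2 ^ k) s)
    calc _ ≤ (A * Real.sqrt (2 ^ k)) * 1 := mul_le_mul h3 h4 (abs_nonneg _) (by positivity)
      _ = _ := mul_one _
  refine (Finset.sum_le_sum h1).trans ?_
  rw [Finset.sum_const, nsmul_eq_mul]
  refine mul_le_mul_of_nonneg_right ?_ (by positivity)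
  exact_mod_cast Finset.card_le_two

/-- the dyadic estimate for one interval -/
lemma l6_one {h : ℤ → ℤ} {F : ℤ → ℝ} {A : ℝ} {s t : ℤ} (hA : 0 ≤ A)
    (hg : ∀ a b : ℤ, s ≤ a → a ≤ b → b ≤ t →
      |(sm h b : ℝ) - sm h a| ≤ A * Real.sqrt ((b : ℝ) - a)) (K : ℕ)
    (hF : ∀ y, |F y| ≤ 1) (hst : t - s ≤ 2 ^ K) :
    |xi h F s t| ≤ ∑ k ∈ Finset.range K, (A * Real.sqrt (2 ^ k) *
      ∑ m ∈ (Finset.Ico s t).image (fun y => y / 2 ^ k),
        |F (max (m * 2 ^ k) s) - F (max ((m / 2) * 2 ^ (k + 1)) s)|) +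
      2 * (A * Real.sqrt (2 ^ K)) := by
  have h1 : ∀ K : ℕ, |xi h F s t| ≤ ∑ k ∈ Finset.range K, (A * Real.sqrt (2 ^ k) *
      ∑ m ∈ (Finset.Ico s t).image (fun y => y / 2 ^ k),
        |F (max (m * 2 ^ k) s) - F (max ((m / 2) * 2 ^ (k + 1)) s)|) + |l6_e h F s t K| := by
    intro K
    induction K with
    | zero => simp [l6_e_zero]
    | succ K ih =>
      rw [Finset.sum_range_succ]
      have h2 := l6_step (F := F) hA hg K
      have h3 : |l6_e h F s t K| ≤ |l6_e h F s t K - l6_e h F s t (K + 1)| +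
          |l6_e h F s t (K + 1)| := by
        have := abs_add_le (l6_e h F s t K - l6_e h F s t (K + 1)) (l6_e h F s t (K + 1))
        rwa [sub_add_cancel] at this
      linarith
  exact (h1 K).trans (by linarith [l6_last (F := F) hA hg K hF hst])

/-! ### sums of clamps -/

lemma l6_cl_sub {c1 c2 p q η : ℝ} (hη : 0 < η) (h : c1 + η ≤ c2) (hpq : p ≤ q) :
    cl c1 c2 q - cl c1 c2 p ≤ (min (max q c1) c2 - min (max p c1) c2) / η := by
  have hc : c1 < c2 := by linarith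
  have key : ∀ s, cl c1 c2 s = (min (max s c1) c2 - c1) / (c2 - c1) := by
    intro s
    rcases le_total s c1 with h1 | h1
    · rw [cl_of_le hc h1, max_eq_right h1, min_eq_left hc.le]; simp
    · rcases le_total s c2 with h2 | h2
      · rw [cl_of_mem hc h1 h2, max_eq_left h1, min_eq_left h2]
      · rw [cl_of_ge hc h2, max_eq_left h1, min_eq_right h2, div_self (by linarith)]
  rw [key, key, ← sub_div]
  have h3 : min (max q c1) c2 - c1 - (min (max p c1) c2 - c1) =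
      min (max q c1) c2 - min (max p c1) c2 := by ring
  rw [h3]
  have h4 : 0 ≤ min (max q c1) c2 - min (max p c1) c2 := by
    have := min_le_min (max_le_max hpq (le_refl c1)) (le_refl c2)
    linarith
  exact div_le_div_of_nonneg_left h4 hη (by linarith)

lemma l6_sum_cl {lev : ℕ → ℝ} {n : ℕ} {η p q : ℝ} (hη : 0 < η)
    (hl : ∀ b < n, lev b + η ≤ lev (b + 1)) (hpq : p ≤ q) :
    ∑ b ∈ Finset.range n, (cl (lev b) (lev (b + 1)) q - cl (lev b) (lev (b + 1)) p)
      ≤ (q - p) / η := by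
  have h0 : ∀ N ≤ n, lev 0 ≤ lev N ∧
      ∑ b ∈ Finset.range N, (cl (lev b) (lev (b + 1)) q - cl (lev b) (lev (b + 1)) p)
      ≤ (min (max q (lev 0)) (lev N) - min (max p (lev 0)) (lev N)) / η := by
    intro N
    induction N with
    | zero => intro _; simp
    | succ N ih =>
      intro hN
      obtain ⟨h1, h2⟩ := ih (by omega)
      have h3 := hl N (by omega)
      refine ⟨by linarith, ?_⟩
      rw [Finset.sum_range_succ]
      have h4 := l6_cl_sub hη h3 hpq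
      have key : ∀ s, min (max s (lev 0)) (lev (N + 1)) =
          min (max s (lev 0)) (lev N) + (min (max s (lev N)) (lev (N + 1)) - lev N) := by
        intro s
        rcases le_total s (lev N) with h5 | h5
        · rw [max_eq_right h5, min_eq_left (by linarith : lev N ≤ lev (N + 1)), sub_self,
            add_zero]
          have h6 : max s (lev 0) ≤ lev N := max_le h5 h1
          rw [min_eq_left h6, min_eq_left (by linarith)]
        · rw [max_eq_left h5, max_eq_left (by linarith : lev 0 ≤ s), min_eq_right h5]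
          ring
      rw [key q, key p]
      have h7 : (min (max q (lev 0)) (lev N) + (min (max q (lev N)) (lev (N + 1)) - lev N) -
          (min (max p (lev 0)) (lev N) + (min (max p (lev N)) (lev (N + 1)) - lev N))) / η =
          (min (max q (lev 0)) (lev N) - min (max p (lev 0)) (lev N)) / η +
          (min (max q (lev N)) (lev (N + 1)) - min (max p (lev N)) (lev (N + 1))) / η := by
        rw [← add_div]; congr 1; ring
      rw [h7]
      linarith
  obtain ⟨h1, h2⟩ := h0 n le_rfl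
  refine h2.trans (div_le_div_of_nonneg_right ?_ hη.le)
  rcases le_total q (lev 0) with h3 | h3
  · rw [max_eq_right h3, max_eq_right (hpq.trans h3)]; linarith
  · rw [max_eq_left h3]
    rcases le_total q (lev n) with h4 | h4
    · rw [min_eq_left h4]
      have h5 : max p (lev 0) ≤ q := max_le hpq h3
      rw [min_eq_left (h5.trans h4)]
      linarith [le_max_left p (lev 0)]
    · rw [min_eq_right h4]
      rcases le_total p (lev n) with h6 | h6
      · have h7 : max p (lev 0) ≤ lev n := max_le h6 h1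
        rw [min_eq_left h7]
        linarith [le_max_left p (lev 0)]
      · rw [min_eq_right (h6.trans (le_max_left _ _))]
        linarith

/-! ### the geometric sum -/

lemma l6_geom (S : ℝ) (hS : 0 ≤ S) (K : ℕ) :
    ∑ k ∈ Finset.range K, (Real.sqrt (2 ^ k) * (2 * (24 * S / ((2 : ℝ) ^ (k + 1)) ^ (1 / 4 : ℝ))))
      ≤ 250 * S * ((2 : ℝ) ^ K) ^ (1 / 4 : ℝ) := by
  set r : ℝ := (2 : ℝ) ^ (1 / 4 : ℝ) with hr
  have hr0 : 0 < r := by positivity
  have hr4 : r ^ 4 = 2 := by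
    rw [hr, ← Real.rpow_natCast, ← Real.rpow_mul (by norm_num)]
    norm_num
  have hr1 : 1.18 ≤ r := by
    by_contra hlt
    push Not at hlt
    have : r ^ 4 < 1.18 ^ 4 := pow_lt_pow_left₀ hlt hr0.le (by norm_num)
    rw [hr4] at this
    norm_num at this
  have hp : ∀ k : ℕ, ((2 : ℝ) ^ k) ^ (1 / 4 : ℝ) = r ^ k := by
    intro k
    rw [hr, ← Real.rpow_natCast, ← Real.rpow_natCast, ← Real.rpow_mul (by norm_num),
      ← Real.rpow_mul (by norm_num), mul_comm]
  have hs : ∀ k : ℕ, Real.sqrt (2 ^ k) = r ^ k * r ^ k := by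
    intro k
    rw [Real.sqrt_eq_iff_mul_self_eq (by positivity) (by positivity), ← hr4]
    ring
  induction K with
  | zero => simp; positivity
  | succ K ih =>
    rw [Finset.sum_range_succ]
    refine (add_le_add_left ih _).trans ?_
    rw [hp, hp, hs]
    have h1 : r ^ K * r ^ K * (2 * (24 * S / r ^ (K + 1))) = 48 * S * r ^ K / r := by
      rw [pow_succ]
      field_simp
      ring
    rw [h1]
    have h2 : 48 * S * r ^ K / r ≤ 250 * S * r ^ K * (r - 1) := by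
      rw [div_le_iff₀ hr0]
      have h3 : 48 ≤ 250 * (r - 1) * r := by nlinarith
      have h4 : 0 ≤ S * r ^ K := by positivity
      calc 48 * S * r ^ K = 48 * (S * r ^ K) := by ring
        _ ≤ 250 * (r - 1) * r * (S * r ^ K) := mul_le_mul_of_nonneg_right h3 h4
        _ = _ := by ring
    have h5 : 250 * S * r ^ (K + 1) = 250 * S * r ^ K + 250 * S * r ^ K * (r - 1) := by
      rw [pow_succ]; ring
    rw [h5]
    linarith

/-! ### assembly -/

/-- extreme values of a function on a nonempty finite set -/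
lemma l6_ext (W : Finset ℤ) (hW : W.Nonempty) (f : ℤ → ℝ) :
    ∃ p q : ℝ, p ≤ q ∧ (∀ y ∈ W, p ≤ f y ∧ f y ≤ q) ∧ q - p = osc W f := by
  obtain ⟨a, ha, hA⟩ := W.exists_max_image f hW
  obtain ⟨b, hb, hB⟩ := W.exists_min_image f hW
  refine ⟨f b, f a, hA b hb, fun y hy => ⟨hB y hy, hA y hy⟩, le_antisymm (le_osc f ha hb) ?_⟩
  refine osc_le (by linarith [hA b hb]) fun x hx y hy => ?_
  linarith [hA x hx, hB y hy]

lemma l6_sum_cl_sub {P : GP} {lev : ℕ → ℝ} {B : Finset ℕ}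
    (hl : ∀ b < P.n, lev b + P.eta ≤ lev (b + 1)) (hη : 0 < P.eta)
    (hB : ∀ b ∈ B, 1 ≤ b ∧ b ≤ P.n) {p q : ℝ} (hpq : p ≤ q) :
    ∑ b ∈ B, (cl (lev (b - 1)) (lev b) q - cl (lev (b - 1)) (lev b) p) ≤ (q - p) / P.eta := by
  refine le_trans ?_ (l6_sum_cl hη hl hpq)
  have h1 : ∑ b ∈ Finset.range P.n, (cl (lev b) (lev (b + 1)) q - cl (lev b) (lev (b + 1)) p) =
      ∑ b ∈ (Finset.range P.n).image (fun b => b + 1),
        (cl (lev (b - 1)) (lev b) q - cl (lev (b - 1)) (lev b) p) := by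
    rw [Finset.sum_image (by intro a _ b _ h; simpa using h)]
    refine Finset.sum_congr rfl fun b _ => ?_
    simp
  rw [h1]
  refine Finset.sum_le_sum_of_subset_of_nonneg ?_ ?_
  · intro b hb
    obtain ⟨h2, h3⟩ := hB b hb
    rw [Finset.mem_image]
    exact ⟨b - 1, by rw [Finset.mem_range]; omega, by omega⟩
  · intro b hb _
    rw [Finset.mem_image] at hb
    obtain ⟨a, ha, rfl⟩ := hb
    rw [Finset.mem_range] at ha
    have h2 := hl a ha
    have h3 : lev (a + 1 - 1) < lev (a + 1) := by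
      rw [Nat.add_sub_cancel]; linarith
    linarith [cl_mono h3 hpq]

lemma l6_level (h5 : St_L5) {P : GP} {E : Env} {u : Pt → ℝ} {x : ℤ} {lev : ℕ → ℝ}
    {B : Finset ℕ} {s t : ℕ → ℤ} (hC : Ctx P E u) (hG : GCol P E u x)
    (hl : ∀ b < P.n, lev b + P.eta ≤ lev (b + 1)) (hη : 0 < P.eta)
    (hB : ∀ b ∈ B, 1 ≤ b ∧ b ≤ P.n)
    (hI : ∀ b ∈ B, -3 * 2 ^ P.s ≤ s b ∧ s b ≤ t b ∧ t b ≤ 3 * 2 ^ P.s ∧ t b - s b ≤ 2 ^ P.k0)
    {k : ℕ} (hk : k < P.k0) :
    ∑ b ∈ B, ∑ m ∈ (Finset.Ico (s b) (t b)).image (fun y => y / 2 ^ k),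
      |cl (lev (b - 1)) (lev b) (u (x, max (m * 2 ^ k) (s b))) -
        cl (lev (b - 1)) (lev b) (u (x, max ((m / 2) * 2 ^ (k + 1)) (s b)))| ≤
    2 * (24 * Real.sqrt (P.K1 * P.L * P.e) / ((2 : ℝ) ^ (k + 1)) ^ (1 / 4 : ℝ)) / P.eta := by
  have hk0 : P.k0 + 4 ≤ P.s := by
    have h1 : (2 : ℝ) ^ (P.k0 + 4) ≤ 2 ^ P.s := by
      have := P.c4
      calc (2 : ℝ) ^ (P.k0 + 4) = 16 * 2 ^ P.k0 := by rw [pow_add]; ring
        _ ≤ _ := by exact_mod_cast this
    exact (pow_le_pow_iff_right₀ (by norm_num)).1 h1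
  have h4k : 4 * 2 ^ (k + 1) ≤ 2 ^ P.s := by
    calc 4 * 2 ^ (k + 1) = 2 ^ (k + 1 + 2) := by ring
      _ ≤ 2 ^ P.s := Nat.pow_le_pow_right (by norm_num) (by omega)
  have hL5 := h5 P E u x (k + 1) hC hG (by exact_mod_cast h4k)
  set W : ℤ → Finset ℤ := fun l =>
    Finset.Icc (l * 2 ^ (k + 1) - 2 ^ (k + 1)) (l * 2 ^ (k + 1) + 2 ^ (k + 1)) with hW
  have hWne : ∀ l, (W l).Nonempty := fun l => ⟨l * 2 ^ (k + 1), by
    have : (0 : ℤ) < 2 ^ (k + 1) := by positivity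
    simp only [hW, Finset.mem_Icc]
    omega⟩
  choose p q hpq hW1 hW2 using fun l => l6_ext (W l) (hWne l) (fun y : ℤ => u (x, y))
  set M : Finset ℤ := Finset.Ico (-3 * 2 ^ (P.s - k) : ℤ) (3 * 2 ^ (P.s - k)) with hM
  have hlev : ∀ b ∈ B, lev (b - 1) < lev b := by
    intro b hb
    obtain ⟨h1, h2⟩ := hB b hb
    have h3 := hl (b - 1) (by omega)
    rw [Nat.sub_add_cancel h1] at h3
    linarith
  have hk2 : (0 : ℤ) < 2 ^ k := by positivity
  have hps : (2 : ℤ) ^ P.s = 2 ^ (P.s - k) * 2 ^ k := by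
    rw [← pow_add]; congr 1; omega
  have hps1 : (2 : ℤ) ^ (P.s - k) = 2 * 2 ^ (P.s - (k + 1)) := by
    rw [← pow_succ']; congr 1; omega
  -- the estimate of the terms
  have hterm : ∀ b ∈ B, ∑ m ∈ (Finset.Ico (s b) (t b)).image (fun y => y / 2 ^ k),
      |cl (lev (b - 1)) (lev b) (u (x, max (m * 2 ^ k) (s b))) -
        cl (lev (b - 1)) (lev b) (u (x, max ((m / 2) * 2 ^ (k + 1)) (s b)))| ≤
      ∑ m ∈ M, (cl (lev (b - 1)) (lev b) (q (m / 2)) - cl (lev (b - 1)) (lev b) (p (m / 2))) := by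
    intro b hb
    obtain ⟨i1, i2, i3, i4⟩ := hI b hb
    have hsub : (Finset.Ico (s b) (t b)).image (fun y => y / 2 ^ k) ⊆ M := by
      intro m hm
      rw [Finset.mem_image] at hm
      obtain ⟨y, hy, rfl⟩ := hm
      rw [Finset.mem_Ico] at hy
      rw [hM, Finset.mem_Ico, Int.le_ediv_iff_mul_le hk2, Int.ediv_lt_iff_lt_mul hk2]
      rw [hps] at i1 i3
      constructor
      · calc -3 * 2 ^ (P.s - k) * 2 ^ k = -3 * (2 ^ (P.s - k) * 2 ^ k) := by ring
          _ ≤ y := i1.trans hy.1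
      · calc y < t b := hy.2
          _ ≤ 3 * (2 ^ (P.s - k) * 2 ^ k) := i3
          _ = _ := by ring
    refine le_trans (Finset.sum_le_sum ?_) (Finset.sum_le_sum_of_subset_of_nonneg hsub ?_)
    · intro m hm
      rw [Finset.mem_image] at hm
      obtain ⟨y, hy, hym⟩ := hm
      rw [Finset.mem_Ico] at hy
      have h1 := (l6_div hk2).1 hym
      have h2 : m / 2 * 2 ^ (k + 1) ≤ m * 2 ^ k := by
        have h3 : m / 2 * 2 ≤ m := Int.ediv_mul_le m (by norm_num)
        calc m / 2 * 2 ^ (k + 1) = (m / 2 * 2) * 2 ^ k := by rw [pow_succ]; ring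
          _ ≤ m * 2 ^ k := mul_le_mul_of_nonneg_right h3 hk2.le
      have h3 : (m + 1) * 2 ^ k ≤ m / 2 * 2 ^ (k + 1) + 2 ^ (k + 1) := by
        have h4 : m + 1 ≤ (m / 2 + 1) * 2 := by omega
        calc (m + 1) * 2 ^ k ≤ ((m / 2 + 1) * 2) * 2 ^ k := mul_le_mul_of_nonneg_right h4 hk2.le
          _ = _ := by rw [pow_succ]; ring
      have hpos : (0 : ℤ) < 2 ^ (k + 1) := by positivity
      have m1 : max (m * 2 ^ k) (s b) ∈ W (m / 2) := by
        simp only [hW, Finset.mem_Icc]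
        constructor
        · exact le_trans (by linarith) (le_max_left _ _)
        · exact max_le (by linarith) (by linarith)
      have m2 : max ((m / 2) * 2 ^ (k + 1)) (s b) ∈ W (m / 2) := by
        simp only [hW, Finset.mem_Icc]
        constructor
        · exact le_trans (by linarith) (le_max_left _ _)
        · exact max_le (by linarith) (by linarith)
      have e1 := hW1 _ _ m1
      have e2 := hW1 _ _ m2
      have hlt := hlev b hb
      rw [abs_le]
      constructor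
      · have a1 := cl_mono hlt e1.1
        have a2 := cl_mono hlt e2.2
        linarith
      · have a1 := cl_mono hlt e1.2
        have a2 := cl_mono hlt e2.1
        linarith
    · intro m _ _
      linarith [cl_mono (hlev b hb) (hpq (m / 2))]
  refine (Finset.sum_le_sum hterm).trans ?_
  rw [Finset.sum_comm]
  have h6 : ∀ m ∈ M, ∑ b ∈ B, (cl (lev (b - 1)) (lev b) (q (m / 2)) -
      cl (lev (b - 1)) (lev b) (p (m / 2))) ≤ osc (W (m / 2)) (fun y : ℤ => u (x, y)) / P.eta := by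
    intro m _
    have := l6_sum_cl_sub hl hη hB (hpq (m / 2))
    rwa [hW2] at this
  refine (Finset.sum_le_sum h6).trans ?_
  rw [← Finset.sum_div]
  refine div_le_div_of_nonneg_right ?_ hη.le
  refine le_trans ?_ (mul_le_mul_of_nonneg_left hL5 (by norm_num : (0 : ℝ) ≤ 2))
  rw [← Finset.sum_fiberwise_of_maps_to (g := fun m : ℤ => m / 2)
    (t := Finset.Icc (-3 * 2 ^ (P.s - (k + 1)) : ℤ) (3 * 2 ^ (P.s - (k + 1)))) (by
      intro m hm
      rw [hM, Finset.mem_Ico, hps1] at hm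
      rw [Finset.mem_Icc]
      omega), Finset.mul_sum]
  refine Finset.sum_le_sum fun l _ => ?_
  have h7 : ∑ m ∈ M.filter (fun m => m / 2 = l), osc (W (m / 2)) (fun y : ℤ => u (x, y)) =
      ((M.filter (fun m => m / 2 = l)).card : ℝ) * osc (W l) (fun y : ℤ => u (x, y)) := by
    rw [← nsmul_eq_mul, ← Finset.sum_const]
    refine Finset.sum_congr rfl fun m hm => ?_
    rw [Finset.mem_filter] at hm
    rw [hm.2]
  rw [h7]
  refine mul_le_mul_of_nonneg_right ?_ (osc_nonneg _ _)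
  have h8 : M.filter (fun m => m / 2 = l) ⊆ {2 * l, 2 * l + 1} := by
    intro m hm
    rw [Finset.mem_filter] at hm
    simp only [Finset.mem_insert, Finset.mem_singleton]
    omega
  have h9 := (Finset.card_le_card h8).trans Finset.card_le_two
  exact_mod_cast h9

theorem thm_L6 (h5 : St_L5) : St_L6 := by
  intro P E u x lev B s t hC hG hl hB hI
  have hA : 0 ≤ P.A := by linarith [P.hA]
  have hn1 : (0 : ℝ) < (P.n : ℝ) + 1 := by positivity
  have hη : 0 < P.eta := by unfold GP.eta; positivity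
  have hS : 0 ≤ Real.sqrt (P.K1 * P.L * P.e) := Real.sqrt_nonneg _
  have hone : ∀ b ∈ B, |xi E.h (fun y => cl (lev (b - 1)) (lev b) (u (x, y))) (s b) (t b)| ≤
      ∑ k ∈ Finset.range P.k0, (P.A * Real.sqrt (2 ^ k) *
      ∑ m ∈ (Finset.Ico (s b) (t b)).image (fun y => y / 2 ^ k),
        |cl (lev (b - 1)) (lev b) (u (x, max (m * 2 ^ k) (s b))) -
        cl (lev (b - 1)) (lev b) (u (x, max ((m / 2) * 2 ^ (k + 1)) (s b)))|) +
      2 * (P.A * Real.sqrt (2 ^ P.k0)) := by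
    intro b hb
    obtain ⟨i1, i2, i3, i4⟩ := hI b hb
    refine l6_one hA ?_ P.k0 ?_ i4
    · intro a c h1 h2 h3
      refine hC.good.gh.g1 a c ?_ h2 ?_
      · have : (0 : ℤ) < 2 ^ P.s := by positivity
        push_cast
        linarith
      · have : (0 : ℤ) < 2 ^ P.s := by positivity
        push_cast
        linarith
    · intro y
      rw [abs_of_nonneg (cl_nonneg _ _ _)]
      exact cl_le_one _ _ _
  refine (Finset.sum_le_sum hone).trans ?_
  rw [Finset.sum_add_distrib, Finset.sum_comm, Finset.sum_const, nsmul_eq_mul]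
  have hfirst : ∑ k ∈ Finset.range P.k0, ∑ b ∈ B, (P.A * Real.sqrt (2 ^ k) *
      ∑ m ∈ (Finset.Ico (s b) (t b)).image (fun y => y / 2 ^ k),
        |cl (lev (b - 1)) (lev b) (u (x, max (m * 2 ^ k) (s b))) -
        cl (lev (b - 1)) (lev b) (u (x, max ((m / 2) * 2 ^ (k + 1)) (s b)))|) ≤
      P.A / P.eta * ∑ k ∈ Finset.range P.k0, (Real.sqrt (2 ^ k) *
        (2 * (24 * Real.sqrt (P.K1 * P.L * P.e) / ((2 : ℝ) ^ (k + 1)) ^ (1 / 4 : ℝ)))) := by
    rw [Finset.mul_sum]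
    refine Finset.sum_le_sum fun k hk => ?_
    rw [Finset.mem_range] at hk
    rw [← Finset.mul_sum]
    have h1 := l6_level h5 hC hG hl hη hB hI hk
    calc _ ≤ P.A * Real.sqrt (2 ^ k) * (2 * (24 * Real.sqrt (P.K1 * P.L * P.e) /
          ((2 : ℝ) ^ (k + 1)) ^ (1 / 4 : ℝ)) / P.eta) :=
        mul_le_mul_of_nonneg_left h1 (by positivity)
      _ = _ := by ring
  have hcard : (B.card : ℝ) ≤ P.n := by
    have h1 : B ⊆ Finset.Icc 1 P.n := fun b hb => Finset.mem_Icc.2 (hB b hb)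
    have h2 := Finset.card_le_card h1
    rw [Nat.card_Icc] at h2
    exact_mod_cast (by omega : B.card ≤ P.n)
  have hgeom := l6_geom (Real.sqrt (P.K1 * P.L * P.e)) hS P.k0
  have h2 : P.A / P.eta * ∑ k ∈ Finset.range P.k0, (Real.sqrt (2 ^ k) *
        (2 * (24 * Real.sqrt (P.K1 * P.L * P.e) / ((2 : ℝ) ^ (k + 1)) ^ (1 / 4 : ℝ)))) ≤
      P.A / P.eta * (250 * Real.sqrt (P.K1 * P.L * P.e) * ((2 : ℝ) ^ P.k0) ^ (1 / 4 : ℝ)) :=
    mul_le_mul_of_nonneg_left hgeom (by positivity)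
  have h3 : P.A / P.eta * (250 * Real.sqrt (P.K1 * P.L * P.e) * ((2 : ℝ) ^ P.k0) ^ (1 / 4 : ℝ)) =
      P.A * (2000 * ((P.n : ℝ) + 1) * Real.sqrt (P.K1 * P.L * P.e) *
        ((2 : ℝ) ^ P.k0) ^ (1 / 4 : ℝ)) := by
    unfold GP.eta
    field_simp
    ring
  have h4 : (B.card : ℝ) * (2 * (P.A * Real.sqrt (2 ^ P.k0))) ≤
      P.n * (2 * (P.A * Real.sqrt (2 ^ P.k0))) :=
    mul_le_mul_of_nonneg_right hcard (by positivity)
  unfold GP.Xi
  rw [mul_add]
  have h5 : P.A * (2 * P.n * Real.sqrt (2 ^ P.k0)) =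
      P.n * (2 * (P.A * Real.sqrt (2 ^ P.k0))) := by ring
  rw [h5]
  linarith

end MHL
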