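import Pool.Agent.MHL.StB

/-!
# MHL: number of exceptional levels on a good column
-/

set_option autoImplicit false

namespace MHL

theorem thm_L7 (h : St_L6) : St_L7 := by
  classical
  intro P E u x lev B s t hC hG hlev hB hst hdis
  set F : ℕ → ℝ := fun b => |xi E.h (fun y => cl (lev (b - 1)) (lev b) (u (x, y))) (s b) (t b)|
    with hF
  set Lg := B.filter (fun b => (2 : ℤ) ^ P.k0 < t b - s b) with hLg
  set Sh := B.filter (fun b => ¬ ((2 : ℤ) ^ P.k0 < t b - s b)) with hSh
  set Bd := Sh.filter (fun b => P.φ / 8 < F b) with hBd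
  have hφ : 0 < P.φ := lt_of_lt_of_le one_pos P.hφ
  have hk0 : (0 : ℝ) < (2 : ℝ) ^ P.k0 := by positivity
  refine ⟨Lg ∪ Bd, ?_, ?_, ?_⟩
  · refine Finset.union_subset (Finset.filter_subset _ _) ?_
    exact (Finset.filter_subset _ _).trans (Finset.filter_subset _ _)
  · have h1 : (Lg.card : ℝ) ≤ 6 * 2 ^ P.s / 2 ^ P.k0 := by
      rw [le_div_iff₀ hk0]
      have hdj : Set.PairwiseDisjoint (Lg : Set ℕ) (fun b => Finset.Ico (s b) (t b)) := by
        intro b hb b' hb' hne
        exact hdis b (Finset.mem_filter.1 hb).1 b' (Finset.mem_filter.1 hb').1 hne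
      have hU : (Lg.biUnion fun b => Finset.Ico (s b) (t b)) ⊆
          Finset.Ico (-3 * 2 ^ P.s : ℤ) (3 * 2 ^ P.s) := by
        intro y hy
        rw [Finset.mem_biUnion] at hy
        obtain ⟨b, hb, hy⟩ := hy
        have hb2 := hst b (Finset.mem_filter.1 hb).1
        rw [Finset.mem_Ico] at hy ⊢
        exact ⟨by linarith [hb2.1, hy.1], by linarith [hb2.2.2, hy.2]⟩
      have hc := Finset.card_le_card hU
      rw [Finset.card_biUnion (fun b hb b' hb' hne => hdj hb hb' hne), Int.card_Ico] at hc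
      have hsum : (Lg.card : ℤ) * 2 ^ P.k0 ≤
          ((∑ b ∈ Lg, (Finset.Ico (s b) (t b)).card : ℕ) : ℤ) := by
        push_cast
        rw [← nsmul_eq_mul, ← Finset.sum_const]
        refine Finset.sum_le_sum fun b hb => ?_
        have hb3 := (Finset.mem_filter.1 hb).2
        have hp : (0 : ℤ) < 2 ^ P.k0 := by positivity
        rw [Int.card_Ico, Int.toNat_of_nonneg (by linarith)]
        exact hb3.le
      have hs0 : (0 : ℤ) < 2 ^ P.s := by positivity
      have hfin : (Lg.card : ℤ) * 2 ^ P.k0 ≤ 6 * 2 ^ P.s := by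
        refine hsum.trans ?_
        have : ((∑ b ∈ Lg, (Finset.Ico (s b) (t b)).card : ℕ) : ℤ) ≤
            (((3 * 2 ^ P.s - -3 * 2 ^ P.s : ℤ).toNat : ℕ) : ℤ) := by exact_mod_cast hc
        rw [Int.toNat_of_nonneg (by linarith)] at this
        linarith
      exact_mod_cast hfin
    have h2 : (Bd.card : ℝ) ≤ 8 * P.Xi / P.φ := by
      rw [le_div_iff₀ hφ]
      have hL6 := h P E u x lev Sh s t hC hG hlev
        (fun b hb => hB b (Finset.mem_filter.1 hb).1)
        (fun b hb => by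
          have h3 := hst b (Finset.mem_filter.1 hb).1
          have h4 := (Finset.mem_filter.1 hb).2
          exact ⟨h3.1, h3.2.1, h3.2.2, not_lt.1 h4⟩)
      have h5 : ∑ b ∈ Bd, F b ≤ ∑ b ∈ Sh, F b :=
        Finset.sum_le_sum_of_subset_of_nonneg (Finset.filter_subset _ _)
          (fun _ _ _ => abs_nonneg _)
      have h6 : (Bd.card : ℝ) * (P.φ / 8) ≤ ∑ b ∈ Bd, F b := by
        rw [← nsmul_eq_mul, ← Finset.sum_const]
        exact Finset.sum_le_sum fun b hb => (Finset.mem_filter.1 hb).2.le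
      have h7 : ∑ b ∈ Sh, F b ≤ P.Xi := hL6
      linarith
    have h3 : ((Lg ∪ Bd).card : ℝ) ≤ Lg.card + Bd.card := by
      exact_mod_cast Finset.card_union_le _ _
    linarith
  · intro b hb hnb
    by_contra hcon
    rw [not_le] at hcon
    refine hnb (Finset.mem_union.2 ?_)
    by_cases hl : (2 : ℤ) ^ P.k0 < t b - s b
    · exact Or.inl (Finset.mem_filter.2 ⟨hb, hl⟩)
    · exact Or.inr (Finset.mem_filter.2 ⟨Finset.mem_filter.2 ⟨hb, hl⟩, hcon⟩)

end MHL
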