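import Pool.Agent.MHL.StA

/-!
# MHL: the component of a superlevel set reaches the boundary of the box
-/

set_option autoImplicit false

namespace MHL

lemma m1_bx {r : ℕ} {z : Pt} : z ∈ bx (0, 0) r ↔ |z.1| ≤ r ∧ |z.2| ≤ r := by
  rw [mem_bx]; simp

lemma m1_bx2 {r : ℕ} {z w : Pt} (hz : z ∈ bx (0, 0) r) (h1 : |z.1| ≠ r) (h2 : |z.2| ≠ r)
    (h : adj4 z w) : w ∈ bx (0, 0) r := by
  rw [m1_bx] at hz ⊢
  have h3 : |z.1| < r := lt_of_le_of_ne hz.1 h1
  have h4 : |z.2| < r := lt_of_le_of_ne hz.2 h2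
  rw [abs_lt] at h3 h4
  rw [abs_le, abs_le]
  rcases adj4_iff.1 h with ⟨h5, h6 | h6⟩ | ⟨h5, h6 | h6⟩ <;> omega

theorem thm_M1 : St_M1 := by
  intro E u r z1 hH hz1
  by_contra hcon
  push Not at hcon
  set S : Set Pt := {z | u z1 ≤ u z} ∩ bx (0, 0) r with hS
  have hz1S : z1 ∈ S := ⟨le_refl (u z1), hz1⟩
  -- the component as a finite set
  have hfin : (comp S z1).Finite := (bx (0, 0) r).finite_toSet.subset fun z hz => (comp_sub hz).2
  obtain ⟨m, hm, hmax⟩ := hfin.exists_maximalFor u _ ⟨z1, mem_comp_self hz1S⟩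
  have hmax' : ∀ z ∈ comp S z1, u z ≤ u m := by
    intro z hz
    rcases le_total (u z) (u m) with h | h
    · exact h
    · exact hmax hz h
  have hbd : ∀ z ∈ comp S z1, |z.1| ≠ r ∧ |z.2| ≠ r := by
    intro z hz
    have hzb : z ∈ bx (0, 0) r := (comp_sub hz).2
    constructor
    · intro h
      exact hcon z hzb (Or.inl h) hz
    · intro h
      exact hcon z hzb (Or.inr h) hz
  -- the maximal points are closed under s1
  have hstep : ∀ z ∈ comp S z1, u z = u m → E.s1 z ∈ comp S z1 ∧ u (E.s1 z) = u m := by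
    intro z hz hzm
    have hzS := comp_sub hz
    have hb := hbd z hz
    have hw1 : E.s1 z ∈ bx (0, 0) r := m1_bx2 hzS.2 hb.1 hb.2 (adj4_s1 E z)
    have hw2 : E.s2 z ∈ bx (0, 0) r := m1_bx2 hzS.2 hb.1 hb.2 (adj4_s2 E z)
    have hh := hH z hzS.2
    unfold Hm at hh
    have hzz : u z1 ≤ u z := hzS.1
    have key : ∀ w : Pt, adj4 z w → w ∈ bx (0, 0) r → u w ≤ u m := by
      intro w hw hwb
      by_cases hu : u z1 ≤ u w
      · exact hmax' w (comp_step hz hw ⟨hu, hwb⟩)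
      · push Not at hu
        linarith
    have k1 := key _ (adj4_s1 E z) hw1
    have k2 := key _ (adj4_s2 E z) hw2
    have e1 : u (E.s1 z) = u m := by linarith
    refine ⟨comp_step hz (adj4_s1 E z) ⟨?_, hw1⟩, e1⟩
    show u z1 ≤ u (E.s1 z)
    linarith
  have hiter : ∀ n : ℕ, ((m.1 + n * E.h m.2, m.2) : Pt) ∈ comp S z1 ∧
      u ((m.1 + n * E.h m.2, m.2) : Pt) = u m := by
    intro n
    induction n with
    | zero => simpa using hm
    | succ n ih =>
      have h1 := hstep _ ih.1 ih.2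
      have h2 : E.s1 ((m.1 + n * E.h m.2, m.2) : Pt) = (m.1 + ((n + 1 : ℕ) : ℤ) * E.h m.2, m.2) := by
        unfold Env.s1
        simp only [Prod.mk.injEq, and_true]
        push_cast
        ring
      rwa [h2] at h1
  have h1 := (comp_sub (hiter (2 * r + 1)).1).2
  have h2 := (comp_sub hm).2
  rw [Finset.mem_coe, m1_bx, abs_le, abs_le] at h1 h2
  simp only at h1
  push_cast at h1
  rcases E.hh m.2 with hh | hh <;> rw [hh] at h1 <;> omega

end MHL
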