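import Pool.Agent.MHL.Defs

/-!
# MHL: basic lemmas for the definitions
-/

set_option autoImplicit false

namespace MHL

/-! ### partial sums -/

@[simp] lemma sm_zero (g : ℤ → ℤ) : sm g 0 = 0 := by simp [sm]

lemma sm_succ (g : ℤ → ℤ) (n : ℤ) : sm g (n + 1) = sm g n + g n := by
  unfold sm
  rcases le_or_gt 0 n with hn | hn
  · have h1 : Finset.Ico (n + 1) 0 = ∅ := by
      rw [Finset.Ico_eq_empty_iff]; omega
    have h2 : Finset.Ico n 0 = ∅ := by
      rw [Finset.Ico_eq_empty_iff]; omega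
    have h3 : Finset.Ico 0 (n + 1) = insert n (Finset.Ico 0 n) := by
      ext k; simp only [Finset.mem_Ico, Finset.mem_insert]; omega
    rw [h1, h2, h3, Finset.sum_insert (by simp)]
    simp; ring
  · have h1 : Finset.Ico 0 (n + 1) = ∅ := by
      rw [Finset.Ico_eq_empty_iff]; omega
    have h2 : Finset.Ico 0 n = ∅ := by
      rw [Finset.Ico_eq_empty_iff]; omega
    have h3 : Finset.Ico n 0 = insert n (Finset.Ico (n + 1) 0) := by
      ext k; simp only [Finset.mem_Ico, Finset.mem_insert]; omega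
    rw [h1, h2, h3, Finset.sum_insert (by simp)]
    simp

lemma sum_Ico_eq (g : ℤ → ℤ) {a b : ℤ} (h : a ≤ b) :
    ∑ k ∈ Finset.Ico a b, g k = sm g b - sm g a := by
  obtain ⟨n, rfl⟩ : ∃ n : ℕ, b = a + n := ⟨(b - a).toNat, by omega⟩
  clear h
  induction n with
  | zero => simp
  | succ n ih =>
    have h3 : Finset.Ico a (a + ((n + 1 : ℕ) : ℤ)) = insert (a + (n : ℤ)) (Finset.Ico a (a + n)) := by
      ext k; simp only [Finset.mem_Ico, Finset.mem_insert]; push_cast; omega
    rw [h3, Finset.sum_insert (by simp), ih]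
    have : a + ((n + 1 : ℕ) : ℤ) = (a + n) + 1 := by push_cast; ring
    rw [this, sm_succ]; ring

lemma sum_Ico_real (g : ℤ → ℤ) {a b : ℤ} (h : a ≤ b) :
    ∑ k ∈ Finset.Ico a b, (g k : ℝ) = (sm g b : ℝ) - sm g a := by
  have := sum_Ico_eq g h
  exact_mod_cast this

lemma sm_neg (g : ℤ → ℤ) (n : ℤ) : sm (fun k => - g k) n = - sm g n := by
  unfold sm; simp [Finset.sum_neg_distrib]; ring

lemma sm_shift (g : ℤ → ℤ) (c n : ℤ) : sm (fun k => g (k + c)) n = sm g (n + c) - sm g c := by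
  rcases le_or_gt 0 n with hn | hn
  · have h1 := sum_Ico_eq (fun k => g (k + c)) hn
    have h2 := sum_Ico_eq g (show c ≤ n + c by omega)
    rw [sm_zero, sub_zero] at h1
    rw [← h1, ← h2]
    refine Finset.sum_bij (fun k _ => k + c) ?_ ?_ ?_ ?_
    · intro k hk; simp only [Finset.mem_Ico] at hk ⊢; omega
    · intro a _ b _ hab; simpa using hab
    · intro b hb; simp only [Finset.mem_Ico] at hb
      exact ⟨b - c, by simp only [Finset.mem_Ico]; omega, by ring⟩
    · intro k _; rfl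
  · have h1 := sum_Ico_eq (fun k => g (k + c)) hn.le
    have h2 := sum_Ico_eq g (show n + c ≤ c by omega)
    rw [sm_zero, zero_sub] at h1
    have h3 : ∑ k ∈ Finset.Ico n 0, g (k + c) = ∑ k ∈ Finset.Ico (n + c) c, g k := by
      refine Finset.sum_bij (fun k _ => k + c) ?_ ?_ ?_ ?_
      · intro k hk; simp only [Finset.mem_Ico] at hk ⊢; omega
      · intro a _ b _ hab; simpa using hab
      · intro b hb; simp only [Finset.mem_Ico] at hb
        exact ⟨b - c, by simp only [Finset.mem_Ico]; omega, by ring⟩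
      · intro k _; rfl
    rw [h3, h2] at h1
    linarith

/-- reflection: `h'(k) = h(-k)` -/
lemma sm_refl (g : ℤ → ℤ) (n : ℤ) : sm (fun k => g (-k)) n = sm g 1 - sm g (1 - n) := by
  rcases le_or_gt 0 n with hn | hn
  · have h1 := sum_Ico_eq (fun k => g (-k)) hn
    have h2 := sum_Ico_eq g (show 1 - n ≤ 1 by omega)
    rw [sm_zero, sub_zero] at h1
    rw [← h1, ← h2]
    refine Finset.sum_bij (fun k _ => -k) ?_ ?_ ?_ ?_
    · intro k hk; simp only [Finset.mem_Ico] at hk ⊢; omega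
    · intro a _ b _ hab; simpa using hab
    · intro b hb; simp only [Finset.mem_Ico] at hb
      exact ⟨-b, by simp only [Finset.mem_Ico]; omega, by ring⟩
    · intro k _; rfl
  · have h1 := sum_Ico_eq (fun k => g (-k)) hn.le
    have h2 := sum_Ico_eq g (show 1 ≤ 1 - n by omega)
    rw [sm_zero, zero_sub] at h1
    have h3 : ∑ k ∈ Finset.Ico n 0, g (-k) = ∑ k ∈ Finset.Ico 1 (1 - n), g k := by
      refine Finset.sum_bij (fun k _ => -k) ?_ ?_ ?_ ?_
      · intro k hk; simp only [Finset.mem_Ico] at hk ⊢; omega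
      · intro a _ b _ hab; simpa using hab
      · intro b hb; simp only [Finset.mem_Ico] at hb
        exact ⟨-b, by simp only [Finset.mem_Ico]; omega, by ring⟩
      · intro k _; rfl
    rw [h3, h2] at h1
    linarith

/-! ### oscillation -/

section osc
variable {ι : Type*}

lemma osc_nonneg (s : Finset ι) (f : ι → ℝ) : 0 ≤ osc s f := NNReal.coe_nonneg _

lemma le_osc {s : Finset ι} (f : ι → ℝ) {a b : ι} (ha : a ∈ s) (hb : b ∈ s) :
    f a - f b ≤ osc s f := by
  have h : Real.toNNReal (f a - f b) ≤ (s ×ˢ s).sup (fun p => Real.toNNReal (f p.1 - f p.2)) :=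
    Finset.le_sup (f := fun p : ι × ι => Real.toNNReal (f p.1 - f p.2)) (b := (a, b))
      (Finset.mem_product.2 ⟨ha, hb⟩)
  exact (Real.le_coe_toNNReal _).trans (by exact_mod_cast h)

lemma abs_sub_le_osc {s : Finset ι} (f : ι → ℝ) {a b : ι} (ha : a ∈ s) (hb : b ∈ s) :
    |f a - f b| ≤ osc s f :=
  abs_le.2 ⟨by have := le_osc f hb ha; linarith, le_osc f ha hb⟩

lemma osc_le {s : Finset ι} {f : ι → ℝ} {c : ℝ} (hc : 0 ≤ c)
    (h : ∀ a ∈ s, ∀ b ∈ s, f a - f b ≤ c) : osc s f ≤ c := by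
  have h1 : (s ×ˢ s).sup (fun p => Real.toNNReal (f p.1 - f p.2)) ≤ (⟨c, hc⟩ : NNReal) := by
    refine Finset.sup_le fun p hp => ?_
    rw [Finset.mem_product] at hp
    rw [Real.toNNReal_le_iff_le_coe]
    exact h _ hp.1 _ hp.2
  exact_mod_cast h1

lemma osc_mono {s t : Finset ι} (f : ι → ℝ) (h : s ⊆ t) : osc s f ≤ osc t f :=
  osc_le (osc_nonneg _ _) fun _ ha _ hb => le_osc f (h ha) (h hb)

lemma osc_exists {s : Finset ι} (f : ι → ℝ) (hs : s.Nonempty) :
    ∃ a ∈ s, ∃ b ∈ s, osc s f = f a - f b := by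
  obtain ⟨a, ha, hA⟩ := s.exists_max_image f hs
  obtain ⟨b, hb, hB⟩ := s.exists_min_image f hs
  refine ⟨a, ha, b, hb, le_antisymm ?_ (le_osc f ha hb)⟩
  refine osc_le (by linarith [hA b hb]) fun x hx y hy => ?_
  linarith [hA x hx, hB y hy]

lemma osc_sq_le {s : Finset ι} {f : ι → ℝ} {c : ℝ} (hc : 0 ≤ c)
    (h : ∀ a ∈ s, ∀ b ∈ s, (f a - f b) ^ 2 ≤ c) : osc s f ^ 2 ≤ c := by
  rcases s.eq_empty_or_nonempty with rfl | hs
  · have : osc (∅ : Finset ι) f = 0 := by simp [osc]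
    rw [this]; simpa using hc
  · obtain ⟨a, ha, b, hb, hab⟩ := osc_exists f hs
    rw [hab]; exact h a ha b hb
end osc

/-! ### adjacency and connectedness -/

lemma adj4_symm {z w : Pt} (h : adj4 z w) : adj4 w z := by
  unfold adj4 at *; rw [abs_sub_comm w.1, abs_sub_comm w.2]; exact h
lemma adj8_symm {z w : Pt} (h : adj8 z w) : adj8 w z := by
  unfold adj8 at *; rw [abs_sub_comm w.1, abs_sub_comm w.2]; exact h
lemma adj4_adj8 {z w : Pt} (h : adj4 z w) : adj8 z w := by
  unfold adj4 at h; unfold adj8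
  have h1 := abs_nonneg (z.1 - w.1)
  have h2 := abs_nonneg (z.2 - w.2)
  constructor <;> omega
/-- the four cases of `adj4` -/
lemma adj4_iff {z w : Pt} : adj4 z w ↔ (z.2 = w.2 ∧ (z.1 = w.1 + 1 ∨ w.1 = z.1 + 1)) ∨
    (z.1 = w.1 ∧ (z.2 = w.2 + 1 ∨ w.2 = z.2 + 1)) := by
  unfold adj4
  constructor
  · intro h
    rcases abs_cases (z.1 - w.1) with ⟨h1, _⟩ | ⟨h1, _⟩ <;>
      rcases abs_cases (z.2 - w.2) with ⟨h2, _⟩ | ⟨h2, _⟩ <;> rw [h1, h2] at h <;> omega
  · rintro (⟨h1, h2 | h2⟩ | ⟨h1, h2 | h2⟩) <;> rw [h1, h2] <;> simp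

lemma adj4_s1 (E : Env) (z : Pt) : adj4 z (E.s1 z) := by
  rw [adj4_iff]; unfold Env.s1; rcases E.hh z.2 with h | h <;> rw [h] <;> simp
lemma adj4_s2 (E : Env) (z : Pt) : adj4 z (E.s2 z) := by
  rw [adj4_iff]; unfold Env.s2; rcases E.hv z.1 with h | h <;> rw [h] <;> simp

variable {r : Pt → Pt → Prop} {S T : Set Pt} {a b c : Pt}

lemma Cn.refl (ha : a ∈ S) : Cn r S a a := ⟨ha, Relation.ReflTransGen.refl⟩
lemma Cn.trans (h1 : Cn r S a b) (h2 : Cn r S b c) : Cn r S a c := ⟨h1.1, h1.2.trans h2.2⟩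
lemma Cn.left (h : Cn r S a b) : a ∈ S := h.1
lemma Cn.right (h : Cn r S a b) : b ∈ S := by
  obtain ⟨h1, h2⟩ := h
  induction h2 with
  | refl => exact h1
  | tail _ h _ => exact h.2
lemma Cn.mono (h : Cn r S a b) (hST : S ⊆ T) : Cn r T a b :=
  ⟨hST h.1, h.2.lift id fun _ _ h => ⟨h.1, hST h.2⟩⟩
lemma Cn.mono_r {r' : Pt → Pt → Prop} (h : Cn r S a b) (hr : ∀ x y, r x y → r' x y) :
    Cn r' S a b := ⟨h.1, h.2.lift id fun _ _ h => ⟨hr _ _ h.1, h.2⟩⟩
lemma Cn.step (h1 : Cn r S a b) (h2 : r b c) (h3 : c ∈ S) : Cn r S a c :=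
  ⟨h1.1, h1.2.tail ⟨h2, h3⟩⟩
lemma Cn.single (ha : a ∈ S) (h2 : r a b) (h3 : b ∈ S) : Cn r S a b :=
  (Cn.refl ha).step h2 h3
lemma Cn.symm (hr : ∀ x y, r x y → r y x) (h : Cn r S a b) : Cn r S b a := by
  obtain ⟨h1, h2⟩ := h
  induction h2 with
  | refl => exact Cn.refl h1
  | tail h h' ih =>
    have hb : Cn r S a _ := ⟨h1, h⟩
    exact (Cn.single h'.2 (hr _ _ h'.1) hb.right).trans ih
lemma Cn.symm4 (h : Cn adj4 S a b) : Cn adj4 S b a := h.symm fun _ _ => adj4_symm
lemma Cn.symm8 (h : Cn adj8 S a b) : Cn adj8 S b a := h.symm fun _ _ => adj8_symm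
lemma Cn.to8 (h : Cn adj4 S a b) : Cn adj8 S a b := h.mono_r fun _ _ => adj4_adj8
/-- induction along a path inside `S` -/
lemma Cn.induct {p : Pt → Prop} (h : Cn r S a b) (ha : p a)
    (hs : ∀ x y, x ∈ S → y ∈ S → r x y → p x → p y) : p b := by
  obtain ⟨h1, h2⟩ := h
  have : p b ∧ b ∈ S := by
    induction h2 with
    | refl => exact ⟨ha, h1⟩
    | tail _ h ih => exact ⟨hs _ _ ih.2 h.2 h.1 ih.1, h.2⟩
  exact this.1

lemma comp_sub : comp S a ⊆ S := fun _ h => Cn.right h
lemma mem_comp_self (ha : a ∈ S) : a ∈ comp S a := Cn.refl ha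
lemma comp_step (hb : b ∈ comp S a) (h : adj4 b c) (hc : c ∈ S) : c ∈ comp S a :=
  Cn.step hb h hc
lemma Cn.comp_path (h : Cn adj4 S a b) : Cn adj4 (comp S a) a b := by
  have hpath : Cn adj4 (comp S a) a b ∧ b ∈ comp S a := by
    obtain ⟨h1, h2⟩ := h
    induction h2 with
    | refl => exact ⟨Cn.refl (mem_comp_self h1), mem_comp_self h1⟩
    | tail _ h ih => exact ⟨ih.1.step h.1 (comp_step ih.2 h.1 h.2), comp_step ih.2 h.1 h.2⟩
  exact hpath.1
lemma con_comp : Con (comp S a) := by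
  intro x hx y hy
  have h1 : Cn adj4 (comp S a) a x := Cn.comp_path hx
  have h2 : Cn adj4 (comp S a) a y := Cn.comp_path hy
  exact h1.symm4.trans h2
lemma comp_mono (h : S ⊆ T) : comp S a ⊆ comp T a := fun _ hz => Cn.mono hz h
lemma comp_nonmem (ha : a ∉ S) : comp S a = ∅ := by
  ext z; simp only [comp, Set.mem_ofPred_eq, Set.mem_empty_iff_false, iff_false]
  exact fun h => ha h.1

/-- vertical segments are connected -/
lemma cn_vert {x y1 y2 : ℤ} (h : y1 ≤ y2) (hS : ∀ y, y1 ≤ y → y ≤ y2 → (x, y) ∈ S) :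
    Cn adj4 S (x, y1) (x, y2) := by
  obtain ⟨n, rfl⟩ : ∃ n : ℕ, y2 = y1 + n := ⟨(y2 - y1).toNat, by omega⟩
  clear h
  induction n with
  | zero => simpa using Cn.refl (hS y1 le_rfl (by simp))
  | succ n ih =>
    refine (ih fun y h1 h2 => hS y h1 (by push_cast; omega)).step ?_ (hS _ (by omega) le_rfl)
    rw [adj4_iff]; right; simp; omega
/-- horizontal segments are connected -/
lemma cn_hor {x1 x2 y : ℤ} (h : x1 ≤ x2) (hS : ∀ x, x1 ≤ x → x ≤ x2 → (x, y) ∈ S) :
    Cn adj4 S (x1, y) (x2, y) := by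
  obtain ⟨n, rfl⟩ : ∃ n : ℕ, x2 = x1 + n := ⟨(x2 - x1).toNat, by omega⟩
  clear h
  induction n with
  | zero => simpa using Cn.refl (hS x1 le_rfl (by simp))
  | succ n ih =>
    refine (ih fun y h1 h2 => hS y h1 (by push_cast; omega)).step ?_ (hS _ (by omega) le_rfl)
    rw [adj4_iff]; left; simp; omega

/-- rectangles are connected -/
lemma con_rc (a b c d : ℤ) : Con (rc a b c d : Set Pt) := by
  rintro ⟨x1, y1⟩ h1 ⟨x2, y2⟩ h2
  simp only [Finset.mem_coe, mem_rc] at h1 h2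
  have hA : Cn adj4 (rc a b c d : Set Pt) (x1, y1) (x2, y1) := by
    rcases le_total x1 x2 with h | h
    · exact cn_hor h fun x _ _ => by simp only [Finset.mem_coe, mem_rc]; omega
    · exact (cn_hor h fun x _ _ => by simp only [Finset.mem_coe, mem_rc]; omega).symm4
  have hB : Cn adj4 (rc a b c d : Set Pt) (x2, y1) (x2, y2) := by
    rcases le_total y1 y2 with h | h
    · exact cn_vert h fun x _ _ => by simp only [Finset.mem_coe, mem_rc]; omega
    · exact (cn_vert h fun x _ _ => by simp only [Finset.mem_coe, mem_rc]; omega).symm4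
  exact hA.trans hB

/-! ### harmonic functions -/

lemma Hm.d2 {E : Env} {u : Pt → ℝ} {z : Pt} (h : Hm E u z) : u (E.s2 z) - u z = - dd E u z := by
  unfold Hm at h; unfold dd; linarith

lemma en_eq_of_harm {E : Env} {u : Pt → ℝ} {U : Finset Pt} (h : ∀ z ∈ U, Hm E u z) :
    en E u U = ∑ z ∈ U, dd E u z ^ 2 := by
  unfold en
  rw [Finset.sum_div]
  refine Finset.sum_congr rfl fun z hz => ?_
  rw [(h z hz).d2]; unfold dd; ring

lemma en_nonneg (E : Env) (u : Pt → ℝ) (U : Finset Pt) : 0 ≤ en E u U := by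
  unfold en; positivity

lemma en_mono (E : Env) (u : Pt → ℝ) {U V : Finset Pt} (h : U ⊆ V) : en E u U ≤ en E u V := by
  unfold en
  refine div_le_div_of_nonneg_right ?_ (by norm_num)
  exact Finset.sum_le_sum_of_subset_of_nonneg h fun _ _ _ => by positivity

/-- along an edge inside a set of harmonicity the difference is `dd` of one of the two ends -/
lemma edge_dd {E : Env} {u : Pt → ℝ} {z w : Pt} (hz : Hm E u z) (hw : Hm E u w) (h : adj4 z w) :
    |u z - u w| = |dd E u z| ∨ |u z - u w| = |dd E u w| := by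
  have key : ∀ z w : Pt, Hm E u z → Hm E u w → (E.s1 z = w ∨ E.s2 z = w) →
      |u z - u w| = |dd E u z| := by
    rintro z w hz _ (h | h)
    · rw [← h, abs_sub_comm]; rfl
    · rw [← h, abs_sub_comm, hz.d2, abs_neg]
  have : (E.s1 z = w ∨ E.s2 z = w) ∨ (E.s1 w = z ∨ E.s2 w = z) := by
    rw [adj4_iff] at h
    unfold Env.s1 Env.s2
    rcases h with ⟨h1, h2⟩ | ⟨h1, h2⟩
    · rcases E.hh z.2 with hh | hh <;> rcases h2 with h2 | h2
      · right; left; ext
        · simp only [← h1, hh]; omega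
        · simp [h1]
      · left; left; ext
        · simp only [hh]; omega
        · simp [h1]
      · left; left; ext
        · simp only [hh]; omega
        · simp [h1]
      · right; left; ext
        · simp only [← h1, hh]; omega
        · simp [h1]
    · rcases E.hv z.1 with hh | hh <;> rcases h2 with h2 | h2
      · right; right; ext
        · simp [h1]
        · simp only [← h1, hh]; omega
      · left; right; ext
        · simp [h1]
        · simp only [hh]; omega
      · left; right; ext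
        · simp [h1]
        · simp only [hh]; omega
      · right; right; ext
        · simp [h1]
        · simp only [← h1, hh]; omega
  rcases this with h | h
  · exact Or.inl (key z w hz hw h)
  · right; rw [abs_sub_comm]; exact key w z hw hz h

/-! ### clamp -/

lemma cl_nonneg (c1 c2 s : ℝ) : 0 ≤ cl c1 c2 s := le_max_left _ _
lemma cl_le_one (c1 c2 s : ℝ) : cl c1 c2 s ≤ 1 := max_le zero_le_one (min_le_left _ _)
lemma cl_mono {c1 c2 s t : ℝ} (h : c1 < c2) (hst : s ≤ t) : cl c1 c2 s ≤ cl c1 c2 t := by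
  unfold cl
  have : (s - c1) / (c2 - c1) ≤ (t - c1) / (c2 - c1) :=
    div_le_div_of_nonneg_right (by linarith) (by linarith)
  exact max_le_max le_rfl (min_le_min le_rfl this)
lemma cl_of_le {c1 c2 s : ℝ} (h : c1 < c2) (hs : s ≤ c1) : cl c1 c2 s = 0 := by
  unfold cl
  have : (s - c1) / (c2 - c1) ≤ 0 := div_nonpos_of_nonpos_of_nonneg (by linarith) (by linarith)
  rw [max_eq_left]; exact (min_le_right _ _).trans this
lemma cl_of_ge {c1 c2 s : ℝ} (h : c1 < c2) (hs : c2 ≤ s) : cl c1 c2 s = 1 := by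
  unfold cl
  have : 1 ≤ (s - c1) / (c2 - c1) := by rw [le_div_iff₀ (by linarith)]; linarith
  rw [min_eq_left this]; simp
lemma cl_of_mem {c1 c2 s : ℝ} (h : c1 < c2) (h1 : c1 ≤ s) (h2 : s ≤ c2) :
    cl c1 c2 s = (s - c1) / (c2 - c1) := by
  unfold cl
  have h3 : (s - c1) / (c2 - c1) ≤ 1 := by rw [div_le_one (by linarith)]; linarith
  have h4 : 0 ≤ (s - c1) / (c2 - c1) := div_nonneg (by linarith) (by linarith)
  rw [min_eq_right h3, max_eq_right h4]
lemma cl_lip {c1 c2 s t : ℝ} (h : c1 < c2) : |cl c1 c2 s - cl c1 c2 t| ≤ |s - t| / (c2 - c1) := by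
  have key : ∀ s t : ℝ, s ≤ t → cl c1 c2 t - cl c1 c2 s ≤ (t - s) / (c2 - c1) := by
    intro s t hst
    unfold cl
    have e : (t - c1) / (c2 - c1) = (s - c1) / (c2 - c1) + (t - s) / (c2 - c1) := by
      rw [← add_div]; congr 1; ring
    have h0 : 0 ≤ (t - s) / (c2 - c1) := div_nonneg (by linarith) (by linarith)
    rw [e]
    generalize (s - c1) / (c2 - c1) = p at *
    generalize (t - s) / (c2 - c1) = q at *
    rcases le_total 1 (p + q) with h1 | h1 <;> rcases le_total 1 p with h2 | h2 <;>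
      simp only [h1, h2, min_eq_left, min_eq_right] <;>
      rcases le_total 0 p with h3 | h3 <;> rcases le_total 0 (p + q) with h4 | h4 <;>
      simp only [h3, h4, max_eq_left, max_eq_right, zero_le_one] <;> linarith
  rcases le_total s t with hst | hst
  · rw [abs_sub_comm, abs_of_nonneg (by linarith [cl_mono h hst]), abs_sub_comm,
      abs_of_nonneg (by linarith)]
    exact key s t hst
  · rw [abs_of_nonneg (by linarith [cl_mono h hst]), abs_of_nonneg (by linarith)]
    exact key t s hst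

end MHL
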