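import Pool.Agent.MHL.Api

/-!
# MHL: frozen statements, part A: planar topology, crossings, walls
-/

set_option autoImplicit false

namespace MHL

/-! ### topology of rectangles -/

/-- a 4-connected left-right crossing and an 8-connected bottom-top crossing meet -/
def St_T1 : Prop := ∀ (a b c d : ℤ) (S S' : Set Pt) (p q p' q' : Pt), a ≤ b → c ≤ d →
  S ⊆ rc a b c d → S' ⊆ rc a b c d → Disjoint S S' →
  Cn adj4 S p q → p.1 = a → q.1 = b → Cn adj8 S' p' q' → p'.2 = c → q'.2 = d → False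

/-- the same with the directions exchanged -/
def St_T1t : Prop := ∀ (a b c d : ℤ) (S S' : Set Pt) (p q p' q' : Pt), a ≤ b → c ≤ d →
  S ⊆ rc a b c d → S' ⊆ rc a b c d → Disjoint S S' →
  Cn adj4 S p q → p.2 = c → q.2 = d → Cn adj8 S' p' q' → p'.1 = a → q'.1 = b → False

/-- Hex: 4-connected left-right crossing or 8-connected bottom-top crossing of the complement -/
def St_T2 : Prop := ∀ (a b c d : ℤ) (S : Set Pt), a ≤ b → c ≤ d →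
  (∃ p q : Pt, p.1 = a ∧ q.1 = b ∧ Cn adj4 (S ∩ rc a b c d) p q) ∨
  (∃ p q : Pt, p.2 = c ∧ q.2 = d ∧ Cn adj8 ((rc a b c d : Set Pt) \ S) p q)

/-- Hex with the directions exchanged -/
def St_T2t : Prop := ∀ (a b c d : ℤ) (S : Set Pt), a ≤ b → c ≤ d →
  (∃ p q : Pt, p.2 = c ∧ q.2 = d ∧ Cn adj4 (S ∩ rc a b c d) p q) ∨
  (∃ p q : Pt, p.1 = a ∧ q.1 = b ∧ Cn adj8 ((rc a b c d : Set Pt) \ S) p q)

/-- filling: complement of a component of the complement of a connected set -/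
def St_T3 : Prop := ∀ (R A0 : Set Pt) (w0 : Pt), Con R → A0 ⊆ R → Con A0 → A0.Nonempty →
  w0 ∈ R → w0 ∉ A0 →
  A0 ⊆ R \ comp (R \ A0) w0 ∧ Con (R \ comp (R \ A0) w0) ∧ Con (comp (R \ A0) w0) ∧
  ∀ z w : Pt, z ∈ R → z ∉ comp (R \ A0) w0 → w ∈ comp (R \ A0) w0 → adj4 z w → z ∈ A0

/-- disjoint connected sets do not alternate on the boundary of a rectangle -/
def St_T4 : Prop := ∀ (a b c d : ℤ) (U B : Set Pt), a ≤ b → c ≤ d →
  U ⊆ rc a b c d → B ⊆ rc a b c d → Disjoint U B → Con U → Con B → (a, d) ∈ U → (a, c) ∈ B →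
  (∀ y1 y2 : ℤ, y1 < y2 → (a, y1) ∈ U → (a, y2) ∈ B → False) ∧
  (∀ y1 y2 : ℤ, y1 < y2 → (b, y1) ∈ U → (b, y2) ∈ B → False) ∧
  (∀ x1 x2 : ℤ, x1 < x2 → (x1, d) ∈ B → (x2, d) ∈ U → False) ∧
  (∀ x y : ℤ, (x, d) ∈ B → (b, y) ∈ U → False) ∧
  (∀ x1 x2 : ℤ, x1 < x2 → (x1, c) ∈ U → (x2, c) ∈ B → False) ∧
  (∀ x y : ℤ, (x, c) ∈ U → (b, y) ∈ B → False)

/-- part of a path between two levels of an integer coordinate `f` -/
def St_T5 : Prop := ∀ (r : Pt → Pt → Prop) (f : Pt → ℤ) (S : Set Pt) (p q : Pt) (α β : ℤ),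
  (∀ z w, r z w → |f z - f w| ≤ 1) → α ≤ β → Cn r S p q → f p ≤ α → β ≤ f q →
  ∃ p' q' : Pt, f p' = α ∧ f q' = β ∧ Cn r (S ∩ {z | α ≤ f z ∧ f z ≤ β}) p' q'

/-- a connected set starting above a left-right 8-crossing does not meet the bottom side -/
def St_T6 : Prop := ∀ (a b c d yp ym : ℤ) (S S' : Set Pt) (q : Pt), a ≤ b → c ≤ d →
  S ⊆ rc a b c d → S' ⊆ rc a b c d → Disjoint S S' → Con S → (a, yp) ∈ S → ym < yp →
  Cn adj8 S' (a, ym) q → q.1 = b → ∀ x : ℤ, (x, c) ∉ S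

/-! ### traces on the sides of a rectangle -/

/-- left trace -/
def St_Tr1 : Prop := ∀ (a b c d : ℤ) (V : Set Pt), a ≤ b → c ≤ d → V ⊆ rc a b c d → Con V →
  Con ((rc a b c d : Set Pt) \ V) → (a, d) ∈ V → (a, c) ∉ V →
  ∃ t : ℤ, c < t ∧ t ≤ d ∧ ∀ y : ℤ, c ≤ y → y ≤ d → ((a, y) ∈ V ↔ t ≤ y)

/-- right trace -/
def St_Tr2 : Prop := ∀ (a b c d : ℤ) (V : Set Pt), a ≤ b → c ≤ d → V ⊆ rc a b c d → Con V →
  Con ((rc a b c d : Set Pt) \ V) → (a, d) ∈ V → (a, c) ∉ V → (b, d) ∈ V → (b, c) ∉ V →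
  ∃ t : ℤ, c < t ∧ t ≤ d ∧ ∀ y : ℤ, c ≤ y → y ≤ d → ((b, y) ∈ V ↔ t ≤ y)

/-- top trace if the top right corner is not in `V` -/
def St_Tr3 : Prop := ∀ (a b c d : ℤ) (V : Set Pt), a ≤ b → c ≤ d → V ⊆ rc a b c d → Con V →
  Con ((rc a b c d : Set Pt) \ V) → (a, d) ∈ V → (a, c) ∉ V → (b, d) ∉ V →
  (∃ t : ℤ, a < t ∧ t ≤ b ∧ ∀ x : ℤ, a ≤ x → x ≤ b → ((x, d) ∈ V ↔ x < t)) ∧
  ∀ y : ℤ, c ≤ y → y ≤ d → (b, y) ∉ V

/-- bottom trace if the bottom right corner is in `V` -/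
def St_Tr4 : Prop := ∀ (a b c d : ℤ) (V : Set Pt), a ≤ b → c ≤ d → V ⊆ rc a b c d → Con V →
  Con ((rc a b c d : Set Pt) \ V) → (a, d) ∈ V → (a, c) ∉ V → (b, c) ∈ V →
  (∃ t : ℤ, a < t ∧ t ≤ b ∧ ∀ x : ℤ, a ≤ x → x ≤ b → ((x, c) ∈ V ↔ t ≤ x)) ∧
  ∀ y : ℤ, c ≤ y → y ≤ d → (b, y) ∈ V

/-! ### walls -/

/-- the filled component of the high crossing is a wall -/
def St_W1 : Prop := ∀ (u : Pt → ℝ) (a b c d yp ym : ℤ) (cm cp lev : ℝ) (q0 q1 : Pt),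
  a ≤ b → c ≤ d →
  Cn adj4 ({z | cp < u z} ∩ rc a b c d) (a, yp) q0 → q0.1 = b →
  Cn adj8 ({z | u z ≤ cm} ∩ rc a b c d) (a, ym) q1 → q1.1 = b → ym < yp →
  cm ≤ lev → lev ≤ cp → Wall u a b c d lev (WU u (rc a b c d) (a, yp) (a, c) lev)

/-- walls are monotone in the level -/
def St_W2 : Prop := ∀ (u : Pt → ℝ) (R : Set Pt) (p0 w0 : Pt) (lev lev' : ℝ), lev ≤ lev' →
  WU u R p0 w0 lev' ⊆ WU u R p0 w0 lev

/-- restriction to `[a,x] x [c,y]` -/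
def St_DN : Prop := ∀ (u : Pt → ℝ) (a b c d x y : ℤ) (lev : ℝ) (U : Set Pt),
  Wall u a b c d lev U → a ≤ x → x ≤ b → c < y → y ≤ d → (a, y) ∈ U →
  dn U a x c y ⊆ rc a x c y ∧ EC u (rc a x c y) (dn U a x c y) lev ∧ Con (dn U a x c y) ∧
  Con ((rc a x c y : Set Pt) \ dn U a x c y) ∧ (a, y) ∈ dn U a x c y ∧
  (∀ x' : ℤ, a ≤ x' → x' ≤ x → (x', c) ∉ dn U a x c y) ∧
  (∀ y' : ℤ, c ≤ y' → y' ≤ y → ((a, y') ∈ dn U a x c y ↔ (a, y') ∈ U)) ∧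
  (y = d → ∀ x' : ℤ, a ≤ x' → x' ≤ x → (x', d) ∈ dn U a x c y)

/-- monotonicity of the restriction -/
def St_DNm : Prop := ∀ (a x c y : ℤ) (U U' : Set Pt), U' ⊆ U → dn U' a x c y ⊆ dn U a x c y

/-- if the restricted wall contains the top right corner then its large restriction has a point
on the right side below -/
def St_DNR : Prop := ∀ (u : Pt → ℝ) (a b c d x y : ℤ) (lev : ℝ) (U : Set Pt),
  Wall u a b c d lev U → a ≤ x → x ≤ b → c < y → y ≤ d → (a, y) ∈ U → (x, y) ∈ dn U a x c y →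
  ∃ y' : ℤ, c ≤ y' ∧ y' ≤ y ∧ (x, y') ∈ dn U a x c d

/-- restriction to `[a,x] x [y,d]` -/
def St_UP : Prop := ∀ (u : Pt → ℝ) (a b c d x y : ℤ) (lev : ℝ) (U : Set Pt),
  Wall u a b c d lev U → a ≤ x → x ≤ b → c ≤ y → y < d → (a, y) ∉ U →
  upw U a x y d ⊆ rc a x y d ∧ EC u (rc a x y d) (upw U a x y d) lev ∧ Con (upw U a x y d) ∧
  Con ((rc a x y d : Set Pt) \ upw U a x y d) ∧ (a, y) ∉ upw U a x y d ∧
  (∀ x' : ℤ, a ≤ x' → x' ≤ x → (x', d) ∈ upw U a x y d) ∧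
  (∀ y' : ℤ, y ≤ y' → y' ≤ d → ((a, y') ∈ upw U a x y d ↔ (a, y') ∈ U))

/-- monotonicity of the restriction -/
def St_UPm : Prop := ∀ (a x y d : ℤ) (U U' : Set Pt), U' ⊆ U → upw U' a x y d ⊆ upw U a x y d

/-- if the restricted wall does not contain the bottom right corner then the large restriction
misses a point of the right side above -/
def St_UPR : Prop := ∀ (u : Pt → ℝ) (a b c d x y : ℤ) (lev : ℝ) (U : Set Pt),
  Wall u a b c d lev U → a ≤ x → x ≤ b → c ≤ y → y < d → (a, y) ∉ U → (x, y) ∉ upw U a x y d →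
  ∃ y' : ℤ, y ≤ y' ∧ y' ≤ d ∧ (x, y') ∉ dn U a x c d

/-! ### maximum principle and crossings of the four side rectangles -/

/-- the component of `{u ≥ u z1}` reaches the boundary of the box -/
def St_M1 : Prop := ∀ (E : Env) (u : Pt → ℝ) (r : ℕ) (z1 : Pt),
  (∀ z ∈ bx (0, 0) r, Hm E u z) → z1 ∈ bx (0, 0) r →
  ∃ w ∈ bx (0, 0) r, (|w.1| = r ∨ |w.2| = r) ∧
    Cn adj4 ({z | u z1 ≤ u z} ∩ bx (0, 0) r) z1 w

/-- the coordinate pointing to side `i`: right, top, left, bottom -/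
def fc (i : Fin 4) (z : Pt) : ℤ :=
  if i = 0 then z.1 else if i = 1 then z.2 else if i = 2 then -z.1 else -z.2

/-- short crossing, inside `S`, of the side rectangle `i` of `box(0,2X) \ box(0,X)` -/
def Sh (r : Pt → Pt → Prop) (S : Set Pt) (X : ℕ) (i : Fin 4) : Prop :=
  ∃ p q : Pt, fc i p = X ∧ fc i q = 2 * X ∧
    Cn r (S ∩ {z | z ∈ bx (0, 0) (2 * X) ∧ (X : ℤ) ≤ fc i z}) p q

/-- a path from `box(0,X)` to the boundary of `box(0,2X)` contains a short crossing -/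
def St_M2 : Prop := ∀ (S : Set Pt) (X : ℕ) (z w : Pt), Cn adj4 (S ∩ bx (0, 0) (2 * X)) z w →
  z ∈ bx (0, 0) X → (|w.1| = 2 * X ∨ |w.2| = 2 * X) → ∃ i : Fin 4, Sh adj4 S X i

/-- Hex and corners: no high short crossing of `i` gives a low short crossing of a neighbour -/
def St_M3 : Prop := ∀ (S : Set Pt) (X : ℕ) (i j : Fin 4), 1 ≤ X → (j = i + 1 ∨ i = j + 1) →
  ¬ Sh adj4 S X i → Sh adj8 Sᶜ X j

/-- some side rectangle has both crossings with a gap `1/4` -/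
def St_M4 : Prop := ∀ (E : Env) (u : Pt → ℝ) (X : ℕ) (z0 z1 : Pt), 1 ≤ X →
  (∀ z ∈ bx (0, 0) (2 * X), Hm E u z) → z0 ∈ bx (0, 0) X → z1 ∈ bx (0, 0) X →
  1 ≤ u z1 - u z0 → ∃ (i : Fin 4) (c : ℝ), Sh adj4 {z | c + 1 / 4 < u z} X i ∧
    Sh adj8 {z | u z ≤ c} X i

end MHL
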