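import Pool.Agent.MHL.Defs
import Pool.Agent.MHL.Api
import Pool.Agent.MHL.StA

set_option autoImplicit false

namespace MHL

lemma m2_lip (i : Fin 4) (z w : Pt) (h : adj4 z w) : |fc i z - fc i w| ≤ 1 := by
  unfold adj4 at h
  have h1 := abs_nonneg (z.1 - w.1)
  have h2 := abs_nonneg (z.2 - w.2)
  unfold fc
  split_ifs
  · linarith
  · linarith
  · have : -z.1 - -w.1 = -(z.1 - w.1) := by ring
    rw [this, abs_neg]; linarith
  · have : -z.2 - -w.2 = -(z.2 - w.2) := by ring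
    rw [this, abs_neg]; linarith

lemma m2_le (i : Fin 4) (X : ℕ) {z : Pt} (h : z ∈ bx (0, 0) X) : fc i z ≤ X := by
  rw [mem_bx] at h
  simp only [sub_zero, abs_le] at h
  unfold fc
  split_ifs
  · linarith [h.1.2]
  · linarith [h.2.2]
  · linarith [h.1.1]
  · linarith [h.2.1]

theorem thm_M2 (h5 : St_T5) : St_M2 := by
  intro S X z w hzw hz hw
  have hi : ∃ i : Fin 4, fc i w = 2 * X := by
    rcases hw with h | h
    · rcases abs_choice w.1 with h' | h'
      · exact ⟨0, by rw [← h, h']; simp [fc]⟩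
      · exact ⟨2, by rw [← h, h']; simp [fc]⟩
    · rcases abs_choice w.2 with h' | h'
      · exact ⟨1, by rw [← h, h']; simp [fc]⟩
      · exact ⟨3, by rw [← h, h']; simp [fc]⟩
  obtain ⟨i, hi⟩ := hi
  have hX : (0 : ℤ) ≤ X := Int.natCast_nonneg X
  obtain ⟨p, q, hp, hq, hpq⟩ := h5 adj4 (fc i) (S ∩ bx (0, 0) (2 * X)) z w X (2 * X)
    (m2_lip i) (by linarith) hzw (m2_le i X hz) (le_of_eq hi.symm)
  refine ⟨i, p, q, hp, hq, ?_⟩
  refine hpq.mono ?_
  rintro x ⟨⟨hxS, hxb⟩, hx1, hx2⟩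
  exact ⟨hxS, hxb, hx1⟩

end MHL
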