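import Pool.Agent.MHL.StA

/-!
# MHL: Hex and corners for the side rectangles
-/

set_option autoImplicit false

namespace MHL

lemma m3_sub {S : Set Pt} {X : ℕ} {a b c d : ℤ} (ha : -(2 * (X : ℤ)) ≤ a) (hb : b ≤ 2 * X)
    (hc : -(2 * (X : ℤ)) ≤ c) (hd : d ≤ 2 * X) :
    (rc a b c d : Set Pt) \ S ⊆ Sᶜ ∩ {z | z ∈ bx (0, 0) (2 * X)} := by
  rintro z ⟨h1, h2⟩
  refine ⟨h2, ?_⟩
  simp only [Finset.mem_coe, mem_rc] at h1
  show z ∈ bx (0, 0) (2 * X)
  rw [mem_bx]
  push_cast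
  simp only [sub_zero, abs_le]
  refine ⟨⟨?_, ?_⟩, ?_, ?_⟩ <;> omega

/-- the path of the complement along the side `i` -/
lemma m3_key (h2 : St_T2) (h2t : St_T2t) (S : Set Pt) (X : ℕ) (i j : Fin 4) (hX : 1 ≤ X)
    (hij : j = i + 1 ∨ i = j + 1) (hns : ¬ Sh adj4 S X i) :
    ∃ p q : Pt, fc j p = -(2 * (X : ℤ)) ∧ fc j q = 2 * X ∧
      Cn adj8 (Sᶜ ∩ {z | z ∈ bx (0, 0) (2 * X)}) p q := by
  have hX' : (1 : ℤ) ≤ X := by exact_mod_cast hX
  have hmem : ∀ z : Pt, z ∈ bx (0, 0) (2 * X) ↔ (-(2 * (X : ℤ)) ≤ z.1 ∧ z.1 ≤ 2 * X) ∧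
      (-(2 * (X : ℤ)) ≤ z.2 ∧ z.2 ≤ 2 * X) := by
    intro z
    rw [mem_bx]
    push_cast
    simp only [sub_zero, abs_le]
  by_cases hi : i = 0 ∨ i = 2
  · -- vertical path
    have hv : ∃ p q : Pt, p.2 = -(2 * (X : ℤ)) ∧ q.2 = 2 * X ∧
        Cn adj8 (Sᶜ ∩ {z | z ∈ bx (0, 0) (2 * X)}) p q := by
      rcases hi with rfl | rfl
      · rcases h2 X (2 * X) (-(2 * X)) (2 * X) S (by omega) (by omega) with
          ⟨p, q, hp, hq, hc⟩ | ⟨p, q, hp, hq, hc⟩
        · refine absurd ⟨p, q, ?_, ?_, hc.mono ?_⟩ hns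
          · simp [fc, hp]
          · simp [fc, hq]
          · rintro z ⟨hz1, hz2⟩
            refine ⟨hz1, ?_⟩
            simp only [Finset.mem_coe, mem_rc] at hz2
            refine ⟨(hmem z).2 ?_, ?_⟩
            · omega
            · simp only [fc, if_true]; omega
        · exact ⟨p, q, hp, hq, hc.mono (m3_sub (by omega) (by omega) (by omega) (by omega))⟩
      · rcases h2 (-(2 * X)) (-X) (-(2 * X)) (2 * X) S (by omega) (by omega) with
          ⟨p, q, hp, hq, hc⟩ | ⟨p, q, hp, hq, hc⟩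
        · refine absurd ⟨q, p, ?_, ?_, hc.symm4.mono ?_⟩ hns
          · simp [fc, hq]
          · simp [fc, hp]
          · rintro z ⟨hz1, hz2⟩
            refine ⟨hz1, ?_⟩
            simp only [Finset.mem_coe, mem_rc] at hz2
            refine ⟨(hmem z).2 ?_, ?_⟩
            · omega
            · simp [fc]; omega
        · exact ⟨p, q, hp, hq, hc.mono (m3_sub (by omega) (by omega) (by omega) (by omega))⟩
    obtain ⟨p, q, hp, hq, hc⟩ := hv
    have hj : j = 1 ∨ j = 3 := by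
      rcases hi with rfl | rfl <;> revert hij <;> revert j <;> decide
    rcases hj with rfl | rfl
    · exact ⟨p, q, by simp [fc, hp], by simp [fc, hq], hc⟩
    · exact ⟨q, p, by simp [fc, hq], by simp [fc, hp], hc.symm8⟩
  · have hi' : i = 1 ∨ i = 3 := by
      have h4 : ∀ k : Fin 4, ¬ (k = 0 ∨ k = 2) → k = 1 ∨ k = 3 := by decide
      exact h4 i hi
    have hv : ∃ p q : Pt, p.1 = -(2 * (X : ℤ)) ∧ q.1 = 2 * X ∧
        Cn adj8 (Sᶜ ∩ {z | z ∈ bx (0, 0) (2 * X)}) p q := by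
      rcases hi' with rfl | rfl
      · rcases h2t (-(2 * X)) (2 * X) X (2 * X) S (by omega) (by omega) with
          ⟨p, q, hp, hq, hc⟩ | ⟨p, q, hp, hq, hc⟩
        · refine absurd ⟨p, q, ?_, ?_, hc.mono ?_⟩ hns
          · simp [fc, hp]
          · simp [fc, hq]
          · rintro z ⟨hz1, hz2⟩
            refine ⟨hz1, ?_⟩
            simp only [Finset.mem_coe, mem_rc] at hz2
            refine ⟨(hmem z).2 ?_, ?_⟩
            · omega
            · simp [fc]; omega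
        · exact ⟨p, q, hp, hq, hc.mono (m3_sub (by omega) (by omega) (by omega) (by omega))⟩
      · rcases h2t (-(2 * X)) (2 * X) (-(2 * X)) (-X) S (by omega) (by omega) with
          ⟨p, q, hp, hq, hc⟩ | ⟨p, q, hp, hq, hc⟩
        · refine absurd ⟨q, p, ?_, ?_, hc.symm4.mono ?_⟩ hns
          · simp [fc, hq]
          · simp [fc, hp]
          · rintro z ⟨hz1, hz2⟩
            refine ⟨hz1, ?_⟩
            simp only [Finset.mem_coe, mem_rc] at hz2
            refine ⟨(hmem z).2 ?_, ?_⟩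
            · omega
            · simp [fc]; omega
        · exact ⟨p, q, hp, hq, hc.mono (m3_sub (by omega) (by omega) (by omega) (by omega))⟩
    obtain ⟨p, q, hp, hq, hc⟩ := hv
    have hj : j = 0 ∨ j = 2 := by
      rcases hi' with rfl | rfl <;> revert hij <;> revert j <;> decide
    rcases hj with rfl | rfl
    · exact ⟨p, q, by simp [fc, hp], by simp [fc, hq], hc⟩
    · exact ⟨q, p, by simp [fc, hq], by simp [fc, hp], hc.symm8⟩

theorem thm_M3 (h2 : St_T2) (h2t : St_T2t) (h5 : St_T5) : St_M3 := by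
  intro S X i j hX hij hns
  obtain ⟨p, q, hp, hq, hc⟩ := m3_key h2 h2t S X i j hX hij hns
  have hX' : (1 : ℤ) ≤ X := by exact_mod_cast hX
  have hstep : ∀ z w : Pt, adj8 z w → |fc j z - fc j w| ≤ 1 := by
    intro z w h
    unfold fc
    obtain ⟨h1, h2⟩ := h
    split_ifs
    · exact h1
    · exact h2
    · rw [show -z.1 - -w.1 = -(z.1 - w.1) by ring, abs_neg]; exact h1
    · rw [show -z.2 - -w.2 = -(z.2 - w.2) by ring, abs_neg]; exact h2
  obtain ⟨p', q', hp', hq', hc'⟩ := h5 adj8 (fc j) _ p q X (2 * X) hstep (by omega) hc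
    (by rw [hp]; omega) (by rw [hq])
  refine ⟨p', q', hp', hq', hc'.mono ?_⟩
  rintro z ⟨⟨hz1, hz2⟩, hz3, _⟩
  exact ⟨hz1, hz2, hz3⟩

end MHL
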