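import Pool.Agent.MHL.StA

/-!
# MHL: a side rectangle with a high and a low crossing
-/

set_option autoImplicit false

namespace MHL

lemma m4_mono {r : Pt → Pt → Prop} {S T : Set Pt} {X : ℕ} {i : Fin 4} (h : Sh r S X i)
    (hST : S ⊆ T) : Sh r T X i := by
  obtain ⟨p, q, hp, hq, hc⟩ := h
  exact ⟨p, q, hp, hq, hc.mono (Set.inter_subset_inter_left _ hST)⟩

lemma m4_to8 {S : Set Pt} {X : ℕ} {i : Fin 4} (h : Sh adj4 S X i) : Sh adj8 S X i := by
  obtain ⟨p, q, hp, hq, hc⟩ := h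
  exact ⟨p, q, hp, hq, hc.to8⟩

/-- one step of the level argument -/
lemma m4_step (h3 : St_M3) {u : Pt → ℝ} {X : ℕ} (hX : 1 ≤ X)
    (hno : ∀ (i : Fin 4) (c : ℝ), Sh adj4 {z | c + 1 / 4 < u z} X i →
      ¬ Sh adj8 {z | u z ≤ c} X i) {i j : Fin 4} (hij : j = i + 1 ∨ i = j + 1) {c : ℝ}
    (h : Sh adj8 {z | u z ≤ c} X i) : Sh adj8 {z | u z ≤ c + 1 / 4} X j := by
  have h1 : ¬ Sh adj4 {z | c + 1 / 4 < u z} X i := fun h1 => hno i c h1 h
  have h2 := h3 {z | c + 1 / 4 < u z} X i j hX hij h1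
  refine m4_mono h2 ?_
  intro z hz
  simp only [Set.mem_compl_iff, Set.mem_ofPred_eq, not_lt] at hz
  exact hz

theorem thm_M4 (h1 : St_M1) (h2 : St_M2) (h3 : St_M3) : St_M4 := by
  intro E u X z0 z1 hX hu hz0 hz1 h01
  by_contra hcon
  have hno : ∀ (i : Fin 4) (c : ℝ), Sh adj4 {z | c + 1 / 4 < u z} X i →
      ¬ Sh adj8 {z | u z ≤ c} X i := by
    intro i c ha hb
    exact hcon ⟨i, c, ha, hb⟩
  have hsub : ∀ z : Pt, z ∈ bx (0, 0) X → z ∈ bx (0, 0) (2 * X) := by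
    intro z hz
    rw [mem_bx] at hz ⊢
    push_cast
    have hX' : (1 : ℤ) ≤ X := by exact_mod_cast hX
    simp only [sub_zero] at hz ⊢
    constructor
    · linarith [hz.1]
    · linarith [hz.2]
  -- high crossing
  obtain ⟨w1, hw1, hb1, hc1⟩ := h1 E u (2 * X) z1 hu (hsub z1 hz1)
  obtain ⟨i1, hi1⟩ := h2 _ X z1 w1 hc1 hz1 (by push_cast at hb1; exact hb1)
  -- low crossing
  obtain ⟨w0, hw0, hb0, hc0⟩ := h1 E (fun z => - u z) (2 * X) z0 (by
    intro z hz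
    have := hu z hz
    unfold Hm at this ⊢
    linarith) (hsub z0 hz0)
  obtain ⟨i0, hi0⟩ := h2 _ X z0 w0 hc0 hz0 (by push_cast at hb0; exact hb0)
  have hlow : Sh adj8 {z | u z ≤ u z0} X i0 := by
    refine m4_mono (m4_to8 hi0) ?_
    intro z hz
    simp only [Set.mem_ofPred_eq] at hz ⊢
    linarith
  have hhigh : ∀ i : Fin 4, i = i1 → Sh adj4 {z | u z0 + 3 / 4 < u z} X i := by
    rintro i rfl
    refine m4_mono hi1 ?_
    intro z hz
    simp only [Set.mem_ofPred_eq] at hz ⊢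
    linarith
  have hfin : ∀ (i : Fin 4) (c : ℝ), c ≤ u z0 + 1 / 2 → Sh adj8 {z | u z ≤ c} X i → i ≠ i1 := by
    intro i c hc hs hi
    refine hno i c (m4_mono (hhigh i hi) ?_) hs
    intro z hz
    simp only [Set.mem_ofPred_eq] at hz ⊢
    linarith
  -- the four sides
  have e0 : i0 ≠ i1 := hfin i0 (u z0) (by linarith) hlow
  have s1 : Sh adj8 {z | u z ≤ u z0 + 1 / 4} X (i0 + 1) := m4_step h3 hX hno (Or.inl rfl) hlow
  have e1 : i0 + 1 ≠ i1 := hfin _ _ (by linarith) s1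
  have s3 : Sh adj8 {z | u z ≤ u z0 + 1 / 4} X (i0 + 3) := by
    refine m4_step h3 hX hno (Or.inr ?_) hlow
    have h4 : ∀ k : Fin 4, k = k + 3 + 1 := by decide
    exact h4 i0
  have e3 : i0 + 3 ≠ i1 := hfin _ _ (by linarith) s3
  have s2 : Sh adj8 {z | u z ≤ u z0 + 1 / 4 + 1 / 4} X (i0 + 2) := by
    refine m4_step h3 hX hno (Or.inl ?_) s1
    have h4 : ∀ k : Fin 4, k + 2 = k + 1 + 1 := by decide
    exact h4 i0
  have e2 : i0 + 2 ≠ i1 := hfin _ _ (by linarith) s2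
  have h4 : ∀ k l : Fin 4, k ≠ l → k + 1 ≠ l → k + 3 ≠ l → k + 2 ≠ l → False := by decide
  exact h4 i0 i1 e0 e1 e3 e2

end MHL
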