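import Pool.Agent.MHL.Api

/-!
# MHL: the mixing theorem (interface between the growth lemma and the exit time part)
-/

set_option autoImplicit false

namespace MHL

/-- mixing estimate with constant `Λ` for all dyadic radii `≤ T` in the box of centre `c0` and
radius `L` -/
def MTp (E : Env) (Λ : ℝ) (c0 : Pt) (L : ℕ) (T : ℝ) : Prop :=
  ∀ s : ℕ, (2 : ℝ) ^ s ≤ T → ∀ c : Pt, bx c (16 * 2 ^ s) ⊆ bx c0 L → ∀ u : Pt → ℝ,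
    (∀ z ∈ bx c (4 * 2 ^ s), Hm E u z) → ∀ z ∈ bx c (2 ^ s), ∀ w ∈ bx c (2 ^ s),
      Real.sqrt (2 ^ s) * (u z - u w) ^ 2 ≤ Λ * en E u (bx c (4 * 2 ^ s))

/-- mixing theorem -/
def St_MT : Prop := ∀ ε : ℝ, 0 < ε → ε ≤ 1 → ∃ ε' : ℝ, 0 < ε' ∧ ∃ T0 : ℝ, ∀ T : ℝ, T0 ≤ T →
  ∀ (E : Env) (c0 : Pt) (L : ℕ), GoodE (T ^ ε') E c0 L → MTp E (T ^ ε) c0 L T

end MHL
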