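import Pool.Agent.MHL.StC
import Pool.Agent.MHL.StM

/-!
# MHL: the mixing theorem from the growth lemma (descent)
-/

set_option autoImplicit false

namespace MHL

lemma mt_bx {c' c : Pt} {r' r : ℕ} : bx c' r' ⊆ bx c r ↔
    (c.1 - r ≤ c'.1 - r' ∧ c'.1 + r' ≤ c.1 + r) ∧ (c.2 - r ≤ c'.2 - r' ∧ c'.2 + r' ≤ c.2 + r) := by
  constructor
  · intro h
    have h1 := h (show (c'.1 + (r' : ℤ), c'.2 + (r' : ℤ)) ∈ bx c' r' by rw [mem_bx]; simp)
    have h2 := h (show (c'.1 - (r' : ℤ), c'.2 - (r' : ℤ)) ∈ bx c' r' by rw [mem_bx]; simp)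
    rw [mem_bx, abs_le, abs_le] at h1 h2
    simp only at h1 h2
    omega
  · intro h z hz
    rw [mem_bx, abs_le, abs_le] at hz ⊢
    omega

lemma mt_grow {c' c : Pt} {r' r : ℕ} (d : ℕ) (h : bx c' r' ⊆ bx c r) :
    bx c' (r' + d) ⊆ bx c (r + d) := by
  rw [mt_bx] at h ⊢
  push_cast
  omega

lemma mt_rad {c : Pt} {r r' : ℕ} (h : r' ≤ r) : bx c r' ⊆ bx c r := by
  rw [mt_bx]
  omega

lemma mt_good {A : ℝ} {g : ℤ → ℤ} {lo hi lo' hi' : ℤ} (h : Good2 A g lo hi) (h1 : lo ≤ lo')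
    (h2 : hi' ≤ hi) : Good2 A g lo' hi' :=
  ⟨fun a b ha hab hb => h.g1 a b (h1.trans ha) hab (hb.trans h2),
   fun a b ha hab hb hA => h.g2 a b (h1.trans ha) hab (hb.trans h2) hA,
   fun a q n x hq hn ha hb => h.g3 a q n x hq hn (h1.trans ha) (hb.trans h2)⟩

lemma mt_goodE {A : ℝ} {E : Env} {c c0 : Pt} {r L : ℕ} (h : GoodE A E c0 L)
    (hs : bx c r ⊆ bx c0 L) : GoodE A E c r := by
  rw [mt_bx] at hs
  exact ⟨mt_good h.gh hs.2.1 hs.2.2, mt_good h.gv hs.1.1 hs.1.2⟩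

/-- the state of the descent -/
def mt_st (E : Env) (u : Pt → ℝ) (c0 : Pt) (s0 aj : ℕ) (Te Ls : ℝ) (k s : ℕ) : Prop :=
  s + k * aj = s0 ∧ ∃ c z w : Pt, bx c (4 * 2 ^ s) ⊆ bx c0 (4 * 2 ^ s0) ∧ z ∈ bx c (2 ^ s) ∧
    w ∈ bx c (2 ^ s) ∧ 0 < u z - u w ∧
    Te / Ls ^ k * en E u (bx c (4 * 2 ^ s)) ≤ Real.sqrt (2 ^ s) * (u z - u w) ^ 2

lemma mt_loss_pos (P : GP) : 0 < P.loss := by
  have hA : 0 < P.A := lt_of_lt_of_le one_pos P.hA
  have : 0 < Real.sqrt (2 ^ P.a) := Real.sqrt_pos.2 (by positivity)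
  unfold GP.loss
  positivity

theorem thm_MT (hg : St_GLs) (ht : St_TB) (hp : St_Par) : St_MT := by
  classical
  intro ε hε hε1
  obtain ⟨ε', hε', N, T0, hP⟩ := hp ε hε hε1
  refine ⟨ε', hε', max (max T0 2) (8 ^ (25 / (6 * ε)) + 1), ?_⟩
  intro T hT E c0 L hG
  have hT0 : T0 ≤ T := (le_max_left _ _).trans ((le_max_left _ _).trans hT)
  have hT2 : 2 ≤ T := (le_max_right _ _).trans ((le_max_left _ _).trans hT)
  have hT8 : (8 : ℝ) ^ (25 / (6 * ε)) < T := by
    have := (le_max_right (max T0 2) (8 ^ (25 / (6 * ε)) + 1)).trans hT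
    linarith
  have hTp : 0 < T := by linarith
  have hT1 : 1 < T := by linarith
  have hbig : 8 < T ^ (6 * ε / 25) := by
    have h1 : ((8 : ℝ) ^ (25 / (6 * ε))) ^ (6 * ε / 25) < T ^ (6 * ε / 25) :=
      Real.rpow_lt_rpow (by positivity) hT8 (by positivity)
    rw [← Real.rpow_mul (by norm_num)] at h1
    have h2 : 25 / (6 * ε) * (6 * ε / 25) = 1 := by field_simp
    rwa [h2, Real.rpow_one] at h1
  obtain ⟨a, j, Ls, hLs, hLsN, hTN, hPar⟩ := hP T hT0
  have hTe : 0 < T ^ ε := Real.rpow_pos_of_pos hTp ε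
  by_contra hMT
  -- minimal bad scale
  have hex : ∃ s : ℕ, ¬ ((2 : ℝ) ^ s ≤ T → ∀ c : Pt, bx c (16 * 2 ^ s) ⊆ bx c0 L → ∀ u : Pt → ℝ,
    (∀ z ∈ bx c (4 * 2 ^ s), Hm E u z) → ∀ z ∈ bx c (2 ^ s), ∀ w ∈ bx c (2 ^ s),
      Real.sqrt (2 ^ s) * (u z - u w) ^ 2 ≤ T ^ ε * en E u (bx c (4 * 2 ^ s))) := by
    by_contra hc
    push Not at hc
    exact hMT hc
  have hmin := fun m (hm : m < Nat.find hex) => not_not.1 (Nat.find_min hex hm)
  have hbad := Nat.find_spec hex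
  generalize Nat.find hex = s0 at hmin hbad
  push Not at hbad
  obtain ⟨hs0T, c1, hc1, u, hu, z1, hz1, w1, hw1, hzw⟩ := hbad
  have hen0 := en_nonneg E u (bx c1 (4 * 2 ^ s0))
  -- first state
  have hst0 : mt_st E u c1 s0 (a * j) (T ^ ε) Ls 0 s0 := by
    refine ⟨by ring, ?_⟩
    have hne : u z1 - u w1 ≠ 0 := by
      intro h0
      rw [h0] at hzw
      have : 0 ≤ T ^ ε * en E u (bx c1 (4 * 2 ^ s0)) := by positivity
      simp at hzw
      linarith
    rcases lt_or_gt_of_ne hne with h | h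
    · refine ⟨c1, w1, z1, subset_rfl, hw1, hz1, by linarith, ?_⟩
      rw [pow_zero, div_one]
      have : (u w1 - u z1) ^ 2 = (u z1 - u w1) ^ 2 := by ring
      rw [this]; exact hzw.le
    · refine ⟨c1, z1, w1, subset_rfl, hz1, hw1, h, ?_⟩
      rw [pow_zero, div_one]
      exact hzw.le
  -- bounds for the losses
  have hLk : ∀ k ≤ N, Ls ^ k ≤ T ^ (ε / 100) := fun k hk =>
    (pow_le_pow_right₀ hLs hk).trans hLsN
  have hLk0 : ∀ k, 0 < Ls ^ k := fun k => pow_pos (by linarith) k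
  -- one step
  have hstep : ∀ k s : ℕ, k < N → mt_st E u c1 s0 (a * j) (T ^ ε) Ls k s →
      T ^ (ε / 2) ≤ (2 : ℝ) ^ s → ∃ s', mt_st E u c1 s0 (a * j) (T ^ ε) Ls (k + 1) s' := by
    rintro k s hk ⟨hs, c, z, w, hc, hz, hw, hpos, hen⟩ hlarge
    have hss0 : s ≤ s0 := by
      rw [← hs]; exact Nat.le_add_right _ _
    have hsT : (2 : ℝ) ^ s ≤ T := (pow_le_pow_right₀ (by norm_num) hss0).trans hs0T
    have hsq : 0 < Real.sqrt (2 ^ s) := Real.sqrt_pos.2 (by positivity)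
    have he0 : 0 < Real.sqrt (2 ^ s) * Ls ^ k / T ^ ε := by
      have := hLk0 k
      positivity
    obtain ⟨P, hPs, hPa, hPj, hPA, hPL, hPe, hPl⟩ := hPar s (Real.sqrt (2 ^ s) * Ls ^ k / T ^ ε)
      hlarge hsT he0 (by
        have h1 : T ^ (99 * ε / 100) * T ^ (ε / 100) = T ^ ε := by
          rw [← Real.rpow_add hTp]; congr 1; ring
        have h2 : Ls ^ k * T ^ (99 * ε / 100) ≤ T ^ ε := by
          rw [← h1, mul_comm]
          exact mul_le_mul_of_nonneg_left (hLk k hk.le) (Real.rpow_pos_of_pos hTp _).le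
        rw [div_mul_eq_mul_div, div_le_iff₀ hTe, mul_assoc]
        exact mul_le_mul_of_nonneg_left h2 hsq.le)
    have hPs' := P.hs
    rw [hPs, hPa, hPj] at hPs'
    -- the box is inside the big one
    have hgE : GoodE P.A E c (8 * 2 ^ P.s + 2) := by
      rw [hPA, hPs]
      refine mt_goodE hG (subset_trans ?_ (subset_trans (mt_grow (12 * 2 ^ s0) hc)
        (subset_trans (mt_rad ?_) hc1)))
      · apply mt_rad
        have h1 : 2 ^ s ≤ 2 ^ s0 := Nat.pow_le_pow_right (by norm_num) hss0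
        have h2 : 1 ≤ 2 ^ s := Nat.one_le_two_pow
        omega
      · omega
    obtain ⟨c', z', w', hc', hz', hw', hpos', hen'⟩ := hg P E u c w z (u z - u w) hgE
      (by rw [hPs]; exact fun z hz => hu z (hc hz))
      (by
        intro i c' hi hsub zz hzz ww hww
        rw [hPs] at hi hsub
        rw [hPL]
        have his : i < s0 := by
          have h1 : 2 ^ i < 2 ^ s := by
            have : 0 < 2 ^ i := by positivity
            omega
          exact lt_of_lt_of_le ((Nat.pow_lt_pow_iff_right (by norm_num)).1 h1) hss0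
        have hiT : (2 : ℝ) ^ i ≤ T := (pow_le_pow_right₀ (by norm_num) his.le).trans hs0T
        refine hmin i his hiT c' ?_ u (fun z hz => hu z (hc (hsub hz))) zz hzz ww hww
        have h3 := mt_grow (12 * 2 ^ i) (subset_trans hsub hc)
        have h4 : 2 ^ i ≤ 2 ^ s0 := Nat.pow_le_pow_right (by norm_num) his.le
        refine subset_trans (mt_rad (by omega)) (subset_trans h3 (subset_trans (mt_rad ?_) hc1))
        omega)
      (by rw [hPs]; exact hw) (by rw [hPs]; exact hz) hpos le_rfl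
      (by
        rw [hPs, hPe]
        have h1 := hLk0 k
        have h2 : en E u (bx c (4 * 2 ^ s)) =
            (T ^ ε / Ls ^ k * en E u (bx c (4 * 2 ^ s))) * (Ls ^ k / T ^ ε) := by
          field_simp
        rw [h2]
        calc _ ≤ (Real.sqrt (2 ^ s) * (u z - u w) ^ 2) * (Ls ^ k / T ^ ε) :=
              mul_le_mul_of_nonneg_right hen (by positivity)
          _ = _ := by ring)
    rw [hPs] at hc' hen'
    refine ⟨P.s', ?_, c', z', w', subset_trans hc' hc, hz', hw', hpos', ?_⟩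
    · rw [add_mul, one_mul, ← hs, hPs']; ring
    · refine le_trans ?_ hen'
      apply mul_le_mul_of_nonneg_right _ (en_nonneg _ _ _)
      rw [hPe, pow_succ]
      have h1 := hLk0 k
      have h2 := mt_loss_pos P
      have h3 : Real.sqrt (2 ^ s) / (Real.sqrt (2 ^ s) * Ls ^ k / T ^ ε * P.loss) =
          T ^ ε / (Ls ^ k * P.loss) := by
        field_simp
      rw [h3]
      exact div_le_div_of_nonneg_left hTe.le (by positivity)
        (mul_le_mul_of_nonneg_left hPl h1.le)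
  -- some state has a small radius
  have hsmall : ∃ k s : ℕ, k ≤ N ∧ mt_st E u c1 s0 (a * j) (T ^ ε) Ls k s ∧
      (2 : ℝ) ^ s < T ^ (ε / 2) := by
    by_contra hc
    push Not at hc
    have hall : ∀ k ≤ N, ∃ s, mt_st E u c1 s0 (a * j) (T ^ ε) Ls k s := by
      intro k
      induction k with
      | zero => intro _; exact ⟨s0, hst0⟩
      | succ k ih =>
        intro hk
        obtain ⟨s, hs⟩ := ih (by omega)
        exact hstep k s (by omega) hs (hc k s (by omega) hs)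
    obtain ⟨s, hs⟩ := hall N le_rfl
    have h1 := hc N s le_rfl hs
    have h2 : (2 : ℝ) ^ s * (2 ^ (a * j)) ^ N = 2 ^ s0 := by
      rw [← pow_mul, ← pow_add, ← hs.1]
      congr 1
      ring
    have h3 : (2 : ℝ) ^ s ≤ 1 := by
      by_contra h4
      push Not at h4
      have h5 : 0 < ((2 : ℝ) ^ (a * j)) ^ N := by positivity
      have h6 : ((2 : ℝ) ^ (a * j)) ^ N < 2 ^ s * (2 ^ (a * j)) ^ N := by nlinarith
      rw [h2] at h6
      linarith
    have h7 : 1 < T ^ (ε / 2) := Real.one_lt_rpow hT1 (by positivity)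
    linarith
  -- contradiction
  obtain ⟨k, s, hk, ⟨hs, c, z, w, hc, hz, hw, hpos, hen⟩, hsm⟩ := hsmall
  have hsub : bx c (2 ^ s) ⊆ bx c (4 * 2 ^ s) := mt_rad (by omega)
  have hTB := ht E u c z w (2 ^ s) (fun z hz => hu z (hc (hsub hz))) hz hw
  have hmono := en_mono E u hsub
  set e1 := en E u (bx c (4 * 2 ^ s)) with he1
  push_cast at hTB
  have hr : (0 : ℝ) < 2 ^ s := by positivity
  have h1 : (u z - u w) ^ 2 ≤ 8 * 2 ^ s * e1 :=
    hTB.trans (mul_le_mul_of_nonneg_left hmono (by positivity))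
  have h2 : 0 < (u z - u w) ^ 2 := by positivity
  have he1p : 0 < e1 := by
    by_contra hneg
    push Not at hneg
    have : 8 * 2 ^ s * e1 ≤ 0 := mul_nonpos_of_nonneg_of_nonpos (by positivity) hneg
    linarith
  have h3 : T ^ ε / Ls ^ k ≤ 8 * 2 ^ s * Real.sqrt (2 ^ s) := by
    have h4 : T ^ ε / Ls ^ k * e1 ≤ (8 * 2 ^ s * Real.sqrt (2 ^ s)) * e1 := by
      refine hen.trans ?_
      calc Real.sqrt (2 ^ s) * (u z - u w) ^ 2 ≤ Real.sqrt (2 ^ s) * (8 * 2 ^ s * e1) :=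
            mul_le_mul_of_nonneg_left h1 (Real.sqrt_nonneg _)
        _ = _ := by ring
    exact le_of_mul_le_mul_right h4 he1p
  have h4 : T ^ (99 * ε / 100) ≤ T ^ ε / Ls ^ k := by
    rw [le_div_iff₀ (hLk0 k)]
    calc T ^ (99 * ε / 100) * Ls ^ k ≤ T ^ (99 * ε / 100) * T ^ (ε / 100) :=
          mul_le_mul_of_nonneg_left (hLk k hk) (Real.rpow_pos_of_pos hTp _).le
      _ = T ^ ε := by rw [← Real.rpow_add hTp]; congr 1; ring
  have h5 : Real.sqrt (2 ^ s) ≤ T ^ (ε / 4) := by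
    rw [show T ^ (ε / 4) = Real.sqrt (T ^ (ε / 2)) by
      rw [Real.sqrt_eq_rpow, ← Real.rpow_mul hTp.le]; congr 1; ring]
    exact Real.sqrt_le_sqrt hsm.le
  have h6 : 8 * 2 ^ s * Real.sqrt (2 ^ s) ≤ 8 * T ^ (3 * ε / 4) := by
    have h7 : T ^ (3 * ε / 4) = T ^ (ε / 2) * T ^ (ε / 4) := by
      rw [← Real.rpow_add hTp]; congr 1; ring
    rw [h7, mul_assoc]
    apply mul_le_mul_of_nonneg_left _ (by norm_num)
    exact mul_le_mul hsm.le h5 (Real.sqrt_nonneg _) (Real.rpow_pos_of_pos hTp _).le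
  have h7 : T ^ (99 * ε / 100) = T ^ (6 * ε / 25) * T ^ (3 * ε / 4) := by
    rw [← Real.rpow_add hTp]; congr 1; ring
  have h8 : 0 < T ^ (3 * ε / 4) := Real.rpow_pos_of_pos hTp _
  have h9 : 8 * T ^ (3 * ε / 4) < T ^ (99 * ε / 100) := by
    rw [h7]
    exact mul_lt_mul_of_pos_right hbig h8
  linarith

end MHL
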