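import Pool.Agent.MHL.StC

/-!
# MHL [N0]: existence of the traces of the restricted walls
-/

set_option autoImplicit false

namespace MHL

lemma n0_sub {P : GP} {E : Env} {u : Pt → ℝ} {x0 x1 y0 y1 : ℤ} {lev : ℕ → ℝ}
    {U : ℕ → Set Pt} {t : ℕ → ℤ} (h : CD P E u x0 x1 y0 y1 lev U t) (i j : ℕ) (hij : i ≤ j)
    (hj : j ≤ P.n) : U j ⊆ U i := by
  induction j, hij using Nat.le_induction with
  | base => exact subset_rfl
  | succ j hij ih => exact (h.mono j (by omega)).trans (ih (by omega))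

theorem thm_N0 (hd : St_DN) (hm : St_DNm) (ht : St_Tr2) : St_N0 := by
  intro P E u x0 x1 y0 y1 lev U t x h hx0 hx1
  have key : ∀ i : ℕ, ∃ p : ℤ, i ≤ P.n → (y0 < p ∧ p ≤ y1 ∧
      ∀ y : ℤ, y0 ≤ y → y ≤ y1 → ((x, y) ∈ dn (U i) x0 x y0 y1 ↔ p ≤ y)) := by
    intro i
    by_cases hi : i ≤ P.n
    · have hw := h.wall i hi
      have hy : y0 < y1 := lt_of_lt_of_le (h.tr i hi).1 (h.tr i hi).2.1
      have htop : (x0, y1) ∈ U i := hw.top x0 le_rfl (hx0.trans hx1)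
      obtain ⟨d1, _, d3, d4, d5, d6, _, d8⟩ :=
        hd u x0 x1 y0 y1 x y1 (lev i) (U i) hw hx0 hx1 hy le_rfl htop
      obtain ⟨p, hp⟩ := ht x0 x y0 y1 (dn (U i) x0 x y0 y1) hx0 hy.le d1 d3 d4 d5
        (d6 x0 le_rfl hx0) (d8 rfl x hx0 le_rfl) (d6 x hx0 le_rfl)
      exact ⟨p, fun _ => hp⟩
    · exact ⟨0, fun hh => absurd hh hi⟩
  choose p hp using key
  refine ⟨p, fun i hi => hp i hi, fun i j hij hj => ?_⟩
  have hi : i ≤ P.n := hij.trans hj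
  obtain ⟨i1, i2, i3⟩ := hp i hi
  obtain ⟨j1, j2, j3⟩ := hp j hj
  have h1 : (x, p j) ∈ dn (U j) x0 x y0 y1 := (j3 (p j) j1.le j2).2 le_rfl
  have h2 : (x, p j) ∈ dn (U i) x0 x y0 y1 := hm x0 x y0 y1 (U i) (U j) (n0_sub h i j hij hj) h1
  exact (i3 (p j) j1.le j2).1 h2

end MHL
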