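import Pool.Agent.MHL.StC

/-!
# MHL [N1]: relation on a good column
-/

set_option autoImplicit false

namespace MHL

lemma n1_anti {P : GP} {E : Env} {u : Pt → ℝ} {x0 x1 y0 y1 : ℤ} {lev : ℕ → ℝ}
    {U : ℕ → Set Pt} {t : ℕ → ℤ} (C : CD P E u x0 x1 y0 y1 lev U t) {i j : ℕ} (hij : i ≤ j)
    (hj : j ≤ P.n) : U j ⊆ U i := by
  induction j, hij using Nat.le_induction with
  | base => exact Set.Subset.refl _
  | succ k hk ih => exact (C.mono k (by omega)).trans (ih (by omega))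

lemma n1_tmono {P : GP} {E : Env} {u : Pt → ℝ} {x0 x1 y0 y1 : ℤ} {lev : ℕ → ℝ}
    {U : ℕ → Set Pt} {t : ℕ → ℤ} (C : CD P E u x0 x1 y0 y1 lev U t) {i j : ℕ} (hij : i ≤ j)
    (hj : j ≤ P.n) : t i ≤ t j := by
  obtain ⟨h1, h2, h3⟩ := C.tr j hj
  obtain ⟨g1, g2, g3⟩ := C.tr i (hij.trans hj)
  exact (g3 (t j) h1.le h2).mp (n1_anti C hij hj ((h3 (t j) h1.le h2).mpr le_rfl))

lemma n1_disj {n : ℕ} {t : ℕ → ℤ} (h : ∀ i j : ℕ, i ≤ j → j ≤ n → t i ≤ t j) :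
    ∀ b ∈ Finset.Icc 1 n, ∀ b' ∈ Finset.Icc 1 n, b ≠ b' →
      Disjoint (Finset.Ico (t (b - 1)) (t b)) (Finset.Ico (t (b' - 1)) (t b')) := by
  have key : ∀ b ∈ Finset.Icc 1 n, ∀ b' ∈ Finset.Icc 1 n, b < b' →
      Disjoint (Finset.Ico (t (b - 1)) (t b)) (Finset.Ico (t (b' - 1)) (t b')) := by
    intro b hb b' hb' hlt
    rw [Finset.mem_Icc] at hb hb'
    have h1 : t b ≤ t (b' - 1) := h b (b' - 1) (by omega) (by omega)
    rw [Finset.disjoint_left]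
    intro k hk hk'
    rw [Finset.mem_Ico] at hk hk'
    omega
  intro b hb b' hb' hne
  rcases lt_or_gt_of_ne hne with h1 | h1
  · exact key b hb b' hb' h1
  · exact (key b' hb' b hb h1).symm

lemma n1_d {P : GP} : 100 * (P.d : ℤ) ≤ 2 ^ P.s := by
  have h := P.c10
  exact_mod_cast h

theorem thm_N1 (hd : St_DN) (hm : St_DNm) (hr : St_R1) (h7 : St_L7) (b1 : St_B1) (b2 : St_B2) :
    St_N1 := by
  intro P E u x0 x1 y0 y1 lev U t x p C hx0 hx1 gx PT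
  obtain ⟨cm, cp, hlv⟩ := C.lv
  have hd1 := n1_d (P := P)
  have hd0 : (0 : ℤ) ≤ P.d := by positivity
  have hx0' := C.hx0
  have hx1' := C.hx1
  have hy0' := C.hy0
  have hy1' := C.hy1
  set X : ℤ := 2 ^ P.s with hX
  have hXpos : (0 : ℤ) < X := by positivity
  have htm : ∀ i j : ℕ, i ≤ j → j ≤ P.n → t i ≤ t j := fun i j hij hj => n1_tmono C hij hj
  -- exceptional sets
  obtain ⟨Ex0, -, hc0, he0⟩ := h7 P E u x0 lev (Finset.Icc 1 P.n) (fun b => t (b - 1)) t C.ctx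
    C.gx0 hlv.step (fun b hb => Finset.mem_Icc.mp hb) (by
      intro b hb
      rw [Finset.mem_Icc] at hb
      obtain ⟨h1, h2, -⟩ := C.tr b hb.2
      obtain ⟨g1, g2, -⟩ := C.tr (b - 1) (by omega)
      have h3 := htm (b - 1) b (by omega) hb.2
      refine ⟨?_, h3, ?_⟩
      · change -3 * X ≤ t (b - 1)
        linarith
      · change t b ≤ 3 * X
        linarith) (n1_disj htm)
  obtain ⟨Ex1, -, hc1, he1⟩ := h7 P E u x lev (Finset.Icc 1 P.n) (fun b => p (b - 1)) p C.ctx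
    gx hlv.step (fun b hb => Finset.mem_Icc.mp hb) (by
      intro b hb
      rw [Finset.mem_Icc] at hb
      obtain ⟨h1, h2, -⟩ := PT.1 b hb.2
      obtain ⟨g1, g2, -⟩ := PT.1 (b - 1) (by omega)
      have h3 := PT.2 (b - 1) b (by omega) hb.2
      refine ⟨?_, h3, ?_⟩
      · change -3 * X ≤ p (b - 1)
        linarith
      · change p b ≤ 3 * X
        linarith) (n1_disj PT.2)
  refine ⟨Ex0 ∪ Ex1, ?_, ?_⟩
  · have h1 : ((Ex0 ∪ Ex1).card : ℝ) ≤ Ex0.card + Ex1.card := by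
      exact_mod_cast Finset.card_union_le Ex0 Ex1
    unfold GP.Z
    linarith
  intro i hi1 hin hiE
  rw [Finset.mem_union, not_or] at hiE
  have hiB : i ∈ Finset.Icc 1 P.n := Finset.mem_Icc.mpr ⟨hi1, hin⟩
  have e0 := he0 i hiB hiE.1
  have e1 := he1 i hiB hiE.2
  have hi' : i - 1 ≤ P.n := by omega
  obtain ⟨t1a, t1b, t1c⟩ := C.tr i hin
  obtain ⟨t0a, t0b, t0c⟩ := C.tr (i - 1) hi'
  obtain ⟨p1a, p1b, p1c⟩ := PT.1 i hin
  obtain ⟨p0a, p0b, p0c⟩ := PT.1 (i - 1) hi'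
  have hyy : y0 < y1 := lt_of_lt_of_le t1a t1b
  have D1 := hd u x0 x1 y0 y1 x y1 (lev (i - 1)) (U (i - 1)) (C.wall (i - 1) hi') hx0 hx1 hyy
    le_rfl ((t0c y1 hyy.le le_rfl).mpr t0b)
  have D2 := hd u x0 x1 y0 y1 x y1 (lev i) (U i) (C.wall i hin) hx0 hx1 hyy
    le_rfl ((t1c y1 hyy.le le_rfl).mpr t1b)
  have hsub : rc x0 x y0 y1 ⊆ bx (0, 0) (4 * 2 ^ P.s) := by
    intro z hz
    rw [mem_rc] at hz
    rw [mem_bx, abs_le, abs_le]
    have e : ((4 * 2 ^ P.s : ℕ) : ℤ) = 4 * X := by push_cast; rfl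
    rw [e]
    dsimp only
    obtain ⟨⟨z1, z2⟩, z3, z4⟩ := hz
    refine ⟨⟨?_, ?_⟩, ?_, ?_⟩ <;> linarith
  have hbs := b1 P E u x0 x y0 y1 C.ctx (by change -3 * X ≤ x0; linarith) hx0
    (by change x ≤ 3 * X; linarith) (by change -3 * X ≤ y0; linarith) hyy.le
    (by change y1 ≤ 3 * X; linarith) C.gx0 gx C.gy0 C.gy1
  have hbn : 0 ≤ bsum E u x0 x y0 y1 := by
    unfold bsum
    positivity
  obtain ⟨hl, hb⟩ := b2 P E u cm cp lev i (bsum E u x0 x y0 y1) hlv hi1 hin hbn hbs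
  have R := hr E u (bx (0, 0) (4 * 2 ^ P.s)) x0 x y0 y1 (dn (U (i - 1)) x0 x y0 y1)
    (dn (U i) x0 x y0 y1) (lev (i - 1)) (lev i) (t (i - 1)) (t i) (p (i - 1)) (p i) hx0 hyy.le
    hsub (fun z hz => C.ctx.harm z (hsub hz))
    (hm x0 x y0 y1 (U (i - 1)) (U i) (n1_anti C (by omega) hin))
    D1.1 D1.2.1 D2.2.1 hl (D2.2.2.2.2.2.2.2 rfl) D1.2.2.2.2.2.1
    (fun y hy hy' => (D1.2.2.2.2.2.2.1 y hy hy').trans (t0c y hy hy'))
    (fun y hy hy' => (D2.2.2.2.2.2.2.1 y hy hy').trans (t1c y hy hy'))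
    p0c p1c t0a (htm (i - 1) i (by omega) hin) t1b p0a (PT.2 (i - 1) i (by omega) hin) p1b
  have R' := R.trans hb
  rw [abs_le] at R' e0 e1 ⊢
  have hφ := P.hφ
  constructor <;> linarith [R'.1, R'.2, e0.1, e0.2, e1.1, e1.2]

end MHL
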