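import Pool.Agent.MHL.StC

/-!
# MHL: N2, barrier rows are not crossed
-/

set_option autoImplicit false

namespace MHL

lemma n2_sub {n : ℕ} {U : ℕ → Set Pt} (h : ∀ i < n, U (i + 1) ⊆ U i) :
    ∀ k i : ℕ, i + k ≤ n → U (i + k) ⊆ U i := by
  intro k
  induction k with
  | zero => intro i _; exact subset_rfl
  | succ k ih =>
    intro i hi
    exact (h (i + k) (by omega)).trans (ih i (by omega))

lemma n2_mono {P : GP} {E : Env} {u : Pt → ℝ} {x0 x1 y0 y1 : ℤ} {lev : ℕ → ℝ}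
    {U : ℕ → Set Pt} {t : ℕ → ℤ} (h : CD P E u x0 x1 y0 y1 lev U t) {i j : ℕ} (hij : i ≤ j)
    (hj : j ≤ P.n) : t i ≤ t j := by
  obtain ⟨k, rfl⟩ : ∃ k, j = i + k := ⟨j - i, by omega⟩
  obtain ⟨a1, a2, a3⟩ := h.tr (i + k) hj
  obtain ⟨b1, b2, b3⟩ := h.tr i (by omega)
  have h1 : (x0, t (i + k)) ∈ U (i + k) := (a3 _ a1.le a2).2 le_rfl
  exact (b3 _ a1.le a2).1 (n2_sub h.mono k i hj h1)

theorem thm_N2 (ha : St_N2a) (hb : St_N2b) : St_N2 := by
  intro P E u x0 x1 y0 y1 lev U t x y p hCD hx0 hx1 hG hPT hy0 hy1 hR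
  obtain ⟨Ex1, hc1, h1⟩ := ha P E u x0 x1 y0 y1 lev U t x y p hCD hx0 hx1 hG hPT hy0 hy1 hR
  obtain ⟨Ex2, hc2, h2⟩ := hb P E u x0 x1 y0 y1 lev U t x y p hCD hx0 hx1 hG hPT hy0 hy1 hR
  set Ex3 := (Finset.Icc 1 P.n).filter (fun i => t (i - 1) ≤ y ∧ y < t i) with hEx3
  have hc3 : Ex3.card ≤ 1 := by
    rw [Finset.card_le_one]
    intro i hi j hj
    rw [hEx3, Finset.mem_filter, Finset.mem_Icc] at hi hj
    obtain ⟨⟨i1, i2⟩, i3, i4⟩ := hi
    obtain ⟨⟨j1, j2⟩, j3, j4⟩ := hj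
    rcases lt_trichotomy i j with h | h | h
    · have := n2_mono hCD (show i ≤ j - 1 by omega) (by omega)
      omega
    · exact h
    · have := n2_mono hCD (show j ≤ i - 1 by omega) (by omega)
      omega
  refine ⟨Ex1 ∪ Ex2 ∪ Ex3, ?_, ?_⟩
  · have e1 : (Ex1 ∪ Ex2 ∪ Ex3).card ≤ Ex1.card + Ex2.card + Ex3.card :=
      (Finset.card_union_le _ _).trans (Nat.add_le_add_right (Finset.card_union_le _ _) _)
    have e2 : ((Ex1 ∪ Ex2 ∪ Ex3).card : ℝ) ≤ Ex1.card + Ex2.card + Ex3.card := by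
      exact_mod_cast e1
    have e3 : (Ex3.card : ℝ) ≤ 1 := by exact_mod_cast hc3
    linarith
  · intro i hi1 hi2 hi3 hbar
    rw [Finset.mem_union, Finset.mem_union, not_or, not_or] at hi3
    obtain ⟨⟨n1, n2⟩, n3⟩ := hi3
    constructor
    · intro hti
      exact h1 i hi1 hi2 n1 hbar hti
    · intro hpi
      by_contra hti
      push Not at hti
      have h4 : y < t (i - 1) := by
        by_contra hle
        push Not at hle
        exact n3 (by
          rw [hEx3, Finset.mem_filter, Finset.mem_Icc]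
          exact ⟨⟨hi1, hi2⟩, hle, hti⟩)
      have := h2 i hi1 hi2 n2 hbar h4
      omega

end MHL
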