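import Pool.Agent.MHL.StC

/-!
# MHL: N2b, barrier row below the starting point
-/

set_option autoImplicit false

namespace MHL

lemma n2b_U {P : GP} {E : Env} {u : Pt → ℝ} {x0 x1 y0 y1 : ℤ} {lev : ℕ → ℝ}
    {U : ℕ → Set Pt} {t : ℕ → ℤ} (h : CD P E u x0 x1 y0 y1 lev U t) :
    ∀ i j : ℕ, i ≤ j → j ≤ P.n → U j ⊆ U i := by
  intro i j hij
  induction j, hij using Nat.le_induction with
  | base => intro _; exact subset_rfl
  | succ k hk ih => intro hkn; exact (h.mono k (by omega)).trans (ih (by omega))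

lemma n2b_t {P : GP} {E : Env} {u : Pt → ℝ} {x0 x1 y0 y1 : ℤ} {lev : ℕ → ℝ}
    {U : ℕ → Set Pt} {t : ℕ → ℤ} (h : CD P E u x0 x1 y0 y1 lev U t) :
    ∀ i j : ℕ, i ≤ j → j ≤ P.n → t i ≤ t j := by
  intro i j hij hj
  obtain ⟨h1, h2, h3⟩ := h.tr j hj
  obtain ⟨_, _, h6⟩ := h.tr i (by omega)
  have : (x0, t j) ∈ U j := (h3 (t j) h1.le h2).2 le_rfl
  exact (h6 (t j) h1.le h2).1 (n2b_U h i j hij hj this)

theorem thm_N2b (hu : St_UP) (hm : St_UPm) (hR : St_UPR) (h4 : St_Tr4) (hr : St_R3) (h7 : St_L7)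
    (b1 : St_B1) (b2 : St_B2) (hc : St_Ct) : St_N2b := by
  intro P E u x0 x1 y0 y1 lev U t x y p hCD hx0 hx1 hgx hPT hy0 hy1 hgy
  classical
  obtain ⟨cm, cp, hlv⟩ := hCD.lv
  have hs1 : (1 : ℤ) ≤ 2 ^ P.s := one_le_pow₀ (by norm_num)
  have hd2 : 100 * (P.d : ℤ) ≤ 2 ^ P.s := by exact_mod_cast P.c10
  have rx0 := hCD.hx0
  have rx1 := hCD.hx1
  have ry0 := hCD.hy0
  have ry1 := hCD.hy1
  have hstep := hlv.step
  set V : ℕ → Set Pt := fun i => upw (U i) x0 x y y1 with hV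
  have hUP : ∀ i : ℕ, i ≤ P.n → y < t i →
      V i ⊆ rc x0 x y y1 ∧ EC u (rc x0 x y y1) (V i) (lev i) ∧ Con (V i) ∧
      Con ((rc x0 x y y1 : Set Pt) \ V i) ∧ (x0, y) ∉ V i ∧
      (∀ x' : ℤ, x0 ≤ x' → x' ≤ x → (x', y1) ∈ V i) ∧
      (∀ y' : ℤ, y ≤ y' → y' ≤ y1 → ((x0, y') ∈ V i ↔ t i ≤ y')) := by
    intro i hi hti
    obtain ⟨_, _, t3⟩ := hCD.tr i hi
    obtain ⟨q1, q2, q3, q4, q5, q6, q7⟩ := hu u x0 x1 y0 y1 x y (lev i) (U i)
      (hCD.wall i hi) hx0 hx1 hy0.le hy1 (fun hh => absurd ((t3 y hy0.le hy1.le).1 hh) (by omega))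
    refine ⟨q1, q2, q3, q4, q5, q6, ?_⟩
    intro y' h1 h2
    exact (q7 y' h1 h2).trans (t3 y' (by linarith) h2)
  have hVm : ∀ i j : ℕ, i ≤ j → j ≤ P.n → V j ⊆ V i := fun i j hij hj =>
    hm x0 x y y1 (U i) (U j) (n2b_U hCD i j hij hj)
  have hTr : ∀ i : ℕ, (i ≤ P.n ∧ y < t i ∧ (x, y) ∈ V i) →
      ∃ r : ℤ, (x0 < r ∧ r ≤ x ∧ ∀ x' : ℤ, x0 ≤ x' → x' ≤ x → ((x', y) ∈ V i ↔ r ≤ x')) ∧
        ∀ y' : ℤ, y ≤ y' → y' ≤ y1 → (x, y') ∈ V i := by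
    rintro i ⟨hi, hti, hxy⟩
    obtain ⟨q1, q2, q3, q4, q5, q6, q7⟩ := hUP i hi hti
    obtain ⟨⟨r, hr1, hr2, hr3⟩, hr4⟩ := h4 x0 x y y1 (V i) hx0 hy1.le q1 q3 q4
      (q6 x0 le_rfl hx0) q5 hxy
    exact ⟨r, ⟨hr1, hr2, hr3⟩, hr4⟩
  choose! r hr1 hr2 using hTr
  have hrm : ∀ i j : ℕ, i ≤ j → j ≤ P.n → y < t i → (x, y) ∈ V j → r i ≤ r j := by
    intro i j hij hj hti hxy
    have hCi : i ≤ P.n ∧ y < t i ∧ (x, y) ∈ V i :=
      ⟨by omega, hti, hVm i j hij hj hxy⟩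
    have hCj : j ≤ P.n ∧ y < t j ∧ (x, y) ∈ V j :=
      ⟨hj, hti.trans_le (n2b_t hCD i j hij hj), hxy⟩
    obtain ⟨j1, j2, j3⟩ := hr1 j hCj
    obtain ⟨i1, i2, i3⟩ := hr1 i hCi
    have : (r j, y) ∈ V j := (j3 (r j) (by omega) (by omega)).2 (by omega)
    exact (i3 (r j) (by omega) (by omega)).1 (hVm i j hij hj this)
  -- exceptional sets
  obtain ⟨Ex2, hEx2s, hEx2c, hEx2⟩ := h7 P E u x0 lev (Finset.Icc 1 P.n) (fun i => t (i - 1)) t
    hCD.ctx hCD.gx0 hstep (fun b hb => Finset.mem_Icc.1 hb)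
    (by
      intro b hb
      rw [Finset.mem_Icc] at hb
      obtain ⟨t1, t2, _⟩ := hCD.tr b hb.2
      obtain ⟨t3, t4, _⟩ := hCD.tr (b - 1) (by omega)
      refine ⟨by linarith, n2b_t hCD _ _ (by omega) hb.2, by linarith⟩)
    (by
      intro b hb b' hb' hne
      rw [Finset.mem_Icc] at hb hb'
      rw [Finset.disjoint_left]
      intro z hz hz'
      rw [Finset.mem_Ico] at hz hz'
      rcases lt_or_gt_of_ne hne with h | h
      · have := n2b_t hCD b (b' - 1) (by omega) (by omega)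
        omega
      · have := n2b_t hCD b' (b - 1) (by omega) (by omega)
        omega)
  set C : Finset ℕ := (Finset.Icc 1 P.n).filter (fun i => y < t (i - 1) ∧ (x, y) ∈ V i) with hC
  have hCC : ∀ i ∈ C, (1 ≤ i ∧ i ≤ P.n) ∧ (i - 1 ≤ P.n ∧ y < t (i - 1) ∧ (x, y) ∈ V (i - 1)) ∧
      (i ≤ P.n ∧ y < t i ∧ (x, y) ∈ V i) := by
    intro i hi
    rw [hC, Finset.mem_filter, Finset.mem_Icc] at hi
    exact ⟨hi.1, ⟨by omega, hi.2.1, hVm (i - 1) i (by omega) hi.1.2 hi.2.2⟩,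
      hi.1.2, hi.2.1.trans_le (n2b_t hCD (i - 1) i (by omega) hi.1.2), hi.2.2⟩
  obtain ⟨Ex3, hEx3s, hEx3c, hEx3⟩ := h7 P E.tr (tru u) y lev C (fun i => r (i - 1)) r
    (hc P E u hCD.ctx) hgy hstep (fun b hb => (hCC b hb).1)
    (by
      intro b hb
      obtain ⟨c1, c2, c3⟩ := hCC b hb
      obtain ⟨r1, r2, _⟩ := hr1 b c3
      obtain ⟨r3, r4, _⟩ := hr1 (b - 1) c2
      exact ⟨by linarith, hrm (b - 1) b (by omega) c1.2 c2.2.1 c3.2.2, by linarith⟩)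
    (by
      intro b hb b' hb' hne
      obtain ⟨c1, c2, c3⟩ := hCC b hb
      obtain ⟨c1', c2', c3'⟩ := hCC b' hb'
      rw [Finset.disjoint_left]
      intro z hz hz'
      rw [Finset.mem_Ico] at hz hz'
      rcases lt_or_gt_of_ne hne with h | h
      · have := hrm b (b' - 1) (by omega) (by omega) c3.2.1 c2'.2.2
        omega
      · have := hrm b' (b - 1) (by omega) (by omega) c3'.2.1 c2.2.2
        omega)
  refine ⟨Ex2 ∪ Ex3, ?_, ?_⟩
  · have e1 : ((Ex2 ∪ Ex3).card : ℝ) ≤ Ex2.card + Ex3.card := by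
      have := Finset.card_union_le Ex2 Ex3
      exact_mod_cast this
    have e2 : P.Z = 6 * 2 ^ P.s / 2 ^ P.k0 + 8 * P.Xi / P.φ := rfl
    linarith
  · intro i hi1 hi2 hiE hbar hti
    simp only [Finset.mem_union, not_or] at hiE
    obtain ⟨hn2, hn3⟩ := hiE
    have hti' : y < t i := hti.trans_le (n2b_t hCD (i - 1) i (by omega) hi2)
    by_cases hA : (x, y) ∈ V i
    · exfalso
      have hiC : i ∈ C := by
        rw [hC, Finset.mem_filter, Finset.mem_Icc]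
        exact ⟨⟨hi1, hi2⟩, hti, hA⟩
      obtain ⟨_, c2, c3⟩ := hCC i hiC
      have hxi1 := hEx2 i (Finset.mem_Icc.2 ⟨hi1, hi2⟩) hn2
      have hxi2 := hEx3 i hiC hn3
      obtain ⟨q1, q2, q3, q4, q5, q6, q7⟩ := hUP (i - 1) c2.1 c2.2.1
      obtain ⟨q1', q2', q3', q4', q5', q6', q7'⟩ := hUP i hi2 hti'
      obtain ⟨r1, r2, r3⟩ := hr1 (i - 1) c2
      obtain ⟨r1', r2', r3'⟩ := hr1 i c3
      have hsub : rc x0 x y y1 ⊆ bx (0, 0) (4 * 2 ^ P.s) := by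
        intro z hz
        rw [mem_rc] at hz
        rw [mem_bx]
        push_cast
        simp only [sub_zero, abs_le]
        refine ⟨⟨by linarith, by linarith⟩, ⟨by linarith, by linarith⟩⟩
      have hbs := b1 P E u x0 x y y1 hCD.ctx (by linarith) hx0 (by linarith) (by linarith)
        hy1.le (by linarith) hCD.gx0 hgx hgy hCD.gy1
      have hbs0 : 0 ≤ bsum E u x0 x y y1 := by
        unfold bsum; positivity
      obtain ⟨hlt, hB2⟩ := b2 P E u cm cp lev i (bsum E u x0 x y y1) hlv hi1 hi2 hbs0 hbs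
      obtain ⟨_, t2, _⟩ := hCD.tr i (by omega)
      have hrel := hr E u (bx (0, 0) (4 * 2 ^ P.s)) x0 x y y1 (V (i - 1)) (V i) (lev (i - 1))
        (lev i) (t (i - 1)) (t i) (r (i - 1)) (r i) hx0 hy1.le hsub
        (fun z hz => hCD.ctx.harm z (hsub hz)) (hVm _ _ (by omega) hi2) q1 q2 q2' hlt q6'
        (hr2 i c3) q7 q7' r3 r3' hti (n2b_t hCD _ _ (by omega) hi2) t2 r1
        (hrm _ _ (by omega) hi2 hti hA) r2'
      have hb := hbar (r i - 1) (by omega) (by omega)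
      rw [show r i - 1 + 1 = r i by ring] at hb
      have hE : (E.tr).h = E.v := rfl
      have hT : (fun y_1 : ℤ => cl (lev (i - 1)) (lev i) (tru u (y, y_1))) =
          fun x' : ℤ => cl (lev (i - 1)) (lev i) (u (x', y)) := rfl
      rw [hE, hT] at hxi2
      have hrel2 := hrel.trans hB2
      rw [abs_le] at hrel2 hxi1 hxi2
      revert hb
      rw [imp_false, not_lt, abs_le]
      constructor <;> linarith [hrel2.1, hrel2.2, hxi1.1, hxi1.2, hxi2.1, hxi2.2]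
    · obtain ⟨_, _, t3⟩ := hCD.tr i hi2
      obtain ⟨y', hy'1, hy'2, hy'3⟩ := hR u x0 x1 y0 y1 x y (lev i) (U i)
        (hCD.wall i hi2) hx0 hx1 hy0.le hy1
        (fun hh => absurd ((t3 y hy0.le hy1.le).1 hh) (by omega)) hA
      obtain ⟨_, _, p3⟩ := hPT.1 i hi2
      have := (not_congr (p3 y' (by linarith) hy'2)).1 hy'3
      linarith [not_le.1 this]

end MHL
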