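import Pool.Agent.MHL.StC

/-!
# MHL: net of good rows
-/

set_option autoImplicit false

namespace MHL

theorem thm_N3 (h4 : St_L4) (hc : St_Ct) : St_N3 := by
  classical
  intro P E u y0 y1 hctx hy0 hy1
  have hctx' := hc P E u hctx
  have hX0 : (1 : ℤ) ≤ 2 ^ P.s := one_le_pow₀ (by norm_num)
  set X : ℤ := 2 ^ P.s with hX
  have hd1 : 1 ≤ P.d := P.hd
  have hdX : 100 * (P.d : ℤ) ≤ X := by
    have := P.c10
    rw [hX]
    exact_mod_cast this
  set w : ℕ := (P.d + 1) / 2 with hw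
  have hw1 : 1 ≤ w := by omega
  have hwd : w ≤ P.d := by omega
  have hdw : P.d ≤ 2 * w := by omega
  have hgood : ∀ p : ℤ, -3 * X ≤ p → p + w ≤ 3 * X →
      ∃ x : ℤ, p ≤ x ∧ x < p + w ∧ GRow P E u x := fun p h1 h2 =>
    h4 P E.tr (tru u) p w hctx' h1 h2 hdw
  set m : ℕ := ((y1 - 1 - y0) / w).toNat with hm
  have hwz : (0 : ℤ) < w := by exact_mod_cast hw1
  have hdz : (w : ℤ) ≤ P.d := by exact_mod_cast hwd
  have hd1z : (1 : ℤ) ≤ P.d := by exact_mod_cast hd1
  have hm0 : (m : ℤ) = (y1 - 1 - y0) / w := by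
    rw [hm, Int.toNat_of_nonneg]
    apply Int.ediv_nonneg
    · obtain ⟨h1, h2⟩ := hy0; obtain ⟨h3, h4⟩ := hy1; linarith
    · exact hwz.le
  have hmw : (m : ℤ) * w ≤ y1 - 1 - y0 := by
    rw [hm0]; exact Int.ediv_mul_le _ hwz.ne'
  have hjm : ∀ j : ℤ, j * w ≤ y1 - 1 - y0 → j ≤ m := by
    intro j hj
    rw [hm0]
    exact (Int.le_ediv_iff_mul_le hwz).2 hj
  obtain ⟨hy0a, hy0b⟩ := hy0
  obtain ⟨hy1a, hy1b⟩ := hy1
  have hf : ∀ j : ℕ, ∃ x : ℤ, j < m → (y0 + 1 + j * w ≤ x ∧ x < y0 + 1 + (j + 1) * w ∧ x < y1 ∧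
      GRow P E u x) := by
    intro j
    by_cases hj : j < m
    · have hjz : ((j : ℤ) + 1) * w ≤ m * w := by
        apply mul_le_mul_of_nonneg_right _ hwz.le
        exact_mod_cast hj
      have hj0 : (0 : ℤ) ≤ (j : ℤ) * w := by positivity
      have hexp : ((j : ℤ) + 1) * w = j * w + w := by ring
      obtain ⟨x, h1, h2, h3⟩ := hgood (y0 + 1 + j * w) (by linarith) (by linarith)
      exact ⟨x, fun _ => ⟨h1, by linarith, by linarith, h3⟩⟩
    · exact ⟨0, fun h => absurd h hj⟩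
  choose f hf using hf
  obtain ⟨g, hg1, hg2, hg3⟩ := hgood (y1 - w) (by linarith) (by linarith)
  refine ⟨(Finset.range m).image f ∪ {g}, ?_, ?_, ?_⟩
  · have h1 : ((Finset.range m).image f ∪ {g}).card ≤ m + 1 := by
      refine (Finset.card_union_le _ _).trans ?_
      rw [Finset.card_singleton]
      have := Finset.card_image_le (s := Finset.range m) (f := f)
      rw [Finset.card_range] at this
      omega
    have h2 : (((Finset.range m).image f ∪ {g}).card : ℝ) ≤ m + 1 := by exact_mod_cast h1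
    have hdr : (0 : ℝ) < P.d := by exact_mod_cast hd1
    have h3 : (m : ℝ) * P.d ≤ 2 * (4 * 2 ^ P.s + 2 * P.d) := by
      have h5 : (m : ℤ) * P.d ≤ 2 * (4 * X + 2 * P.d) := by
        have h6 : (P.d : ℤ) ≤ 2 * w := by exact_mod_cast hdw
        have h7 : (m : ℤ) * P.d ≤ m * (2 * w) := mul_le_mul_of_nonneg_left h6 (by positivity)
        nlinarith
      have h8 : (m : ℝ) * P.d ≤ 2 * (4 * (X : ℝ) + 2 * P.d) := by exact_mod_cast h5
      have h9 : (X : ℝ) = 2 ^ P.s := by rw [hX]; push_cast; rfl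
      rwa [h9] at h8
    have h4' : (m : ℝ) ≤ 8 * 2 ^ P.s / P.d + 4 := by
      rw [← sub_le_iff_le_add, le_div_iff₀ hdr]
      nlinarith
    linarith
  · intro y hy
    rw [Finset.mem_union, Finset.mem_image, Finset.mem_singleton] at hy
    rcases hy with ⟨j, hj, rfl⟩ | rfl
    · obtain ⟨h1, h2, h3, h5⟩ := hf j (Finset.mem_range.1 hj)
      have hj0 : (0 : ℤ) ≤ (j : ℤ) * w := by positivity
      exact ⟨by linarith, h3, h5⟩
    · exact ⟨by linarith, by linarith, hg3⟩
  · intro p hp0 hp1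
    by_cases hp : y1 - w ≤ p
    · exact ⟨g, Finset.mem_union_right _ (Finset.mem_singleton_self g),
        abs_le.2 ⟨by linarith, by linarith⟩⟩
    · push Not at hp
      have hq : ∃ j : ℕ, j < m ∧ y0 + j * w ≤ p ∧ p < y0 + 1 + (j + 1) * w := by
        refine ⟨((p - y0) / w).toNat, ?_, ?_, ?_⟩
        · have h0 : 0 ≤ (p - y0) / w := Int.ediv_nonneg (by linarith) hwz.le
          have h1 : (p - y0) / w * w ≤ p - y0 := Int.ediv_mul_le _ hwz.ne'
          have h2 := hjm ((p - y0) / w + 1) (by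
            have : ((p - y0) / (w : ℤ) + 1) * w = (p - y0) / w * w + w := by ring
            rw [this]; linarith)
          omega
        · rw [Int.toNat_of_nonneg (Int.ediv_nonneg (by linarith) hwz.le)]
          have h1 : (p - y0) / w * w ≤ p - y0 := Int.ediv_mul_le _ hwz.ne'
          linarith
        · rw [Int.toNat_of_nonneg (Int.ediv_nonneg (by linarith) hwz.le)]
          have h1 := Int.lt_ediv_add_one_mul_self (p - y0) hwz
          linarith
      obtain ⟨j, hj, hj1, hj2⟩ := hq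
      obtain ⟨h1, h2, h3, h5⟩ := hf j hj
      refine ⟨f j, Finset.mem_union_left _ (Finset.mem_image_of_mem _ (Finset.mem_range.2 hj)), ?_⟩
      have hexp : ((j : ℤ) + 1) * w = j * w + w := by ring
      rw [abs_le]
      constructor <;> linarith

end MHL
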