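import Pool.Agent.MHL.StC

/-!
# MHL: the good set of levels and the data of the alternation lemma
-/

set_option autoImplicit false

namespace MHL

lemma n4_two_pow_nonneg (P : GP) : (1 : ℤ) ≤ 2 ^ P.s := one_le_pow₀ (by norm_num)

/-- `100 d ≤ 2^s` as integers -/
lemma n4_d (P : GP) : 100 * (P.d : ℤ) ≤ 2 ^ P.s := by
  have := P.c10
  exact_mod_cast this

/-- a good column close to a given column in `[x0,x1]` -/
lemma n4_near (h4 : St_L4) {P : GP} {E : Env} {u : Pt → ℝ} (hc : Ctx P E u) {x0 x1 xs : ℤ}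
    (hx0 : -3 * 2 ^ P.s ≤ x0) (hx1 : x1 + 1 ≤ 3 * 2 ^ P.s) (hl : 2 * (P.d : ℤ) ≤ x1 - x0)
    (hs0 : x0 ≤ xs) (hs1 : xs ≤ x1) :
    ∃ x : ℤ, x0 ≤ x ∧ x ≤ x1 ∧ |x - xs| ≤ P.d ∧ GCol P E u x := by
  have hd := P.hd
  obtain ⟨w, hw⟩ : ∃ w : ℕ, w = (P.d + 1) / 2 := ⟨_, rfl⟩
  have hw1 : P.d ≤ 2 * w := by omega
  have hw2 : w ≤ P.d := by omega
  rcases le_or_gt (xs + w) (x1 + 1) with h | h
  · obtain ⟨x, hx1', hx2, hg⟩ := h4 P E u xs w hc (by omega) (by omega) hw1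
    refine ⟨x, by omega, by omega, ?_, hg⟩
    rw [abs_le]; constructor <;> omega
  · obtain ⟨x, hx1', hx2, hg⟩ := h4 P E u (xs - w + 1) w hc (by omega) (by omega) hw1
    refine ⟨x, by omega, by omega, ?_, hg⟩
    rw [abs_le]; constructor <;> omega

/-- `v`-sums vary little over distance `d` -/
lemma n4_var {P : GP} {g : ℤ → ℤ} {lo hi : ℤ} (hG : Good2 P.A g lo hi) {a b : ℤ}
    (ha : lo ≤ a) (ha' : a ≤ hi) (hb : lo ≤ b) (hb' : b ≤ hi) (hab : |a - b| ≤ P.d) :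
    |(sm g a : ℝ) - sm g b| ≤ P.φ := by
  have key : ∀ a b : ℤ, lo ≤ a → b ≤ hi → a ≤ b → b - a ≤ P.d →
      |(sm g b : ℝ) - sm g a| ≤ P.φ := by
    intro a b ha hb hab hd
    refine (hG.g1 a b ha hab hb).trans (le_trans ?_ P.c2)
    apply mul_le_mul_of_nonneg_left _ (by linarith [P.hA])
    apply Real.sqrt_le_sqrt
    have : ((b - a : ℤ) : ℝ) ≤ ((P.d : ℤ) : ℝ) := by exact_mod_cast hd
    push_cast at this
    have h0 : (0 : ℝ) ≤ P.d := by positivity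
    linarith
  rw [abs_le] at hab
  rcases le_total a b with h | h
  · rw [abs_sub_comm]; exact key a b ha hb' h (by omega)
  · exact key b a hb ha' h (by omega)

theorem thm_N4 (h0 : St_N0) (h1 : St_N1) (h2 : St_N2) (h3 : St_N3) (h4 : St_L4) : St_N4 := by
  classical
  intro P E u x0 x1 y0 y1 lev U t hCD
  have hc := hCD.ctx
  have hA := P.hA
  have hφ := P.hφ
  have hS := n4_two_pow_nonneg P
  have hd100 := n4_d P
  have hd1 : 1 ≤ P.d := P.hd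
  obtain ⟨hx0a, hx0b⟩ := hCD.hx0
  obtain ⟨hx1a, hx1b⟩ := hCD.hx1
  obtain ⟨hy0a, hy0b⟩ := hCD.hy0
  obtain ⟨hy1a, hy1b⟩ := hCD.hy1
  set S : ℤ := 2 ^ P.s with hSdef
  have hd0 : (1 : ℤ) ≤ P.d := by exact_mod_cast hd1
  have hlen : 49 * S ≤ 100 * (x1 - x0) := by linarith
  have hle : x0 ≤ x1 := by linarith
  -- the good windows
  have hGv : Good2 P.A E.v (-(8 * S)) (8 * S) := by
    have := hc.good.gv
    simpa [hSdef] using this
  have hGh : Good2 P.A E.h (-(8 * S)) (8 * S) := by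
    have := hc.good.gh
    simpa [hSdef] using this
  -- maximum and minimum
  have hne : (Finset.Icc x0 x1).Nonempty := Finset.nonempty_Icc.2 hle
  obtain ⟨xs, hxs, hmax⟩ := (Finset.Icc x0 x1).exists_max_image (fun x => sm E.v (x + 1)) hne
  obtain ⟨xt, hxt, hmin⟩ := (Finset.Icc x0 x1).exists_min_image (fun x => sm E.v (x + 1)) hne
  rw [Finset.mem_Icc] at hxs hxt
  obtain ⟨xM, hM0, hM1, hMd, hMg⟩ := n4_near h4 hc (x0 := x0) (x1 := x1) (xs := xs)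
    (by linarith) (by linarith) (by linarith) hxs.1 hxs.2
  obtain ⟨xm, hm0, hm1, hmd, hmg⟩ := n4_near h4 hc (x0 := x0) (x1 := x1) (xs := xt)
    (by linarith) (by linarith) (by linarith) hxt.1 hxt.2
  have hvM : |(sm E.v (xM + 1) : ℝ) - sm E.v (xs + 1)| ≤ P.φ :=
    n4_var hGv (by linarith) (by linarith) (by linarith) (by linarith)
      (by rw [add_sub_add_right_eq_sub]; exact hMd)
  have hvm : |(sm E.v (xm + 1) : ℝ) - sm E.v (xt + 1)| ≤ P.φ :=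
    n4_var hGv (by linarith) (by linarith) (by linarith) (by linarith)
      (by rw [add_sub_add_right_eq_sub]; exact hmd)
  rw [abs_le] at hvM hvm
  set WM : ℝ := (sm E.v (xM + 1) : ℝ) with hWM
  set Wm : ℝ := (sm E.v (xm + 1) : ℝ) with hWm
  have hup : ∀ x' : ℤ, x0 ≤ x' → x' ≤ x1 → (sm E.v (x' + 1) : ℝ) ≤ WM + P.φ := by
    intro x' h h'
    have h5 := hmax x' (Finset.mem_Icc.2 ⟨h, h'⟩)
    have h6 : (sm E.v (x' + 1) : ℝ) ≤ sm E.v (xs + 1) := by exact_mod_cast h5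
    linarith [hvM.1]
  have hlo : ∀ x' : ℤ, x0 ≤ x' → x' ≤ x1 → Wm - P.φ ≤ (sm E.v (x' + 1) : ℝ) := by
    intro x' h h'
    have h5 := hmin x' (Finset.mem_Icc.2 ⟨h, h'⟩)
    have h6 : (sm E.v (xt + 1) : ℝ) ≤ sm E.v (x' + 1) := by exact_mod_cast h5
    linarith [hvm.2]
  -- traces
  obtain ⟨pM, hpM⟩ := h0 P E u x0 x1 y0 y1 lev U t xM hCD hM0 hM1
  obtain ⟨pm, hpm⟩ := h0 P E u x0 x1 y0 y1 lev U t xm hCD hm0 hm1
  obtain ⟨Y, hYc, hYr, hYn⟩ := h3 P E u y0 y1 hc ⟨hy0a, hy0b⟩ ⟨hy1a, hy1b⟩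
  obtain ⟨ExM, hExM, hrM⟩ := h1 P E u x0 x1 y0 y1 lev U t xM pM hCD hM0 hM1 hMg hpM
  obtain ⟨Exm, hExm, hrm⟩ := h1 P E u x0 x1 y0 y1 lev U t xm pm hCD hm0 hm1 hmg hpm
  have hEy : ∀ (x : ℤ) (p : ℕ → ℤ), x0 ≤ x → x ≤ x1 → GCol P E u x → PT P x0 x y0 y1 U p →
      ∃ Ex : ℤ → Finset ℕ, ∀ y ∈ Y, ((Ex y).card : ℝ) ≤ 4 * P.Z + 3 ∧
        ∀ i : ℕ, 1 ≤ i → i ≤ P.n → i ∉ Ex y →
        (∀ x' : ℤ, x0 ≤ x' → x' ≤ x →
          P.φ / 2 + 1 < |((sm E.h y : ℝ) - sm E.v (x' + 1)) - ((sm E.h (t i) : ℝ) - sm E.v x0)|) →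
        (t i ≤ y ↔ p i ≤ y) := by
    intro x p hx hx' hg hp
    have : ∀ y : ℤ, ∃ Ex : Finset ℕ, y ∈ Y → ((Ex.card : ℝ) ≤ 4 * P.Z + 3 ∧
        ∀ i : ℕ, 1 ≤ i → i ≤ P.n → i ∉ Ex →
        (∀ x' : ℤ, x0 ≤ x' → x' ≤ x →
          P.φ / 2 + 1 < |((sm E.h y : ℝ) - sm E.v (x' + 1)) - ((sm E.h (t i) : ℝ) - sm E.v x0)|) →
        (t i ≤ y ↔ p i ≤ y)) := by
      intro y
      by_cases hy : y ∈ Y
      · obtain ⟨hy1, hy2, hy3⟩ := hYr y hy
        obtain ⟨Ex, hEx, hEx2⟩ := h2 P E u x0 x1 y0 y1 lev U t x y p hCD hx hx' hg hp hy1 hy2 hy3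
        exact ⟨Ex, fun _ => ⟨hEx, hEx2⟩⟩
      · exact ⟨∅, fun h => absurd h hy⟩
    choose Ex hEx using this
    exact ⟨Ex, hEx⟩
  obtain ⟨EM, hEM⟩ := hEy xM pM hM0 hM1 hMg hpM
  obtain ⟨Em, hEm⟩ := hEy xm pm hm0 hm1 hmg hpm
  set bad : Finset ℕ := (ExM ∪ Exm) ∪ Y.biUnion (fun y => EM y ∪ Em y) with hbad
  have hsqrt := Real.sqrt_nonneg ((2 : ℝ) ^ P.s)
  have hRS : ((S : ℤ) : ℝ) = 2 ^ P.s := by rw [hSdef]; push_cast; rfl
  have hSr : (0 : ℝ) < 2 ^ P.s := by positivity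
  refine ⟨Finset.Icc 1 P.n \ bad, pM, pm, WM, Wm, Y, Finset.sdiff_subset, ?_, ?_⟩
  · -- counting
    have hZ0 : 0 ≤ P.Z := by
      have h5 : (0 : ℝ) ≤ 2 * P.Z := (Nat.cast_nonneg _).trans hExM
      linarith
    have hb1 : (bad.card : ℝ) ≤ 4 * P.Z + Y.card * (8 * P.Z + 6) := by
      have h5 : bad.card ≤ (ExM.card + Exm.card) + ∑ y ∈ Y, ((EM y).card + (Em y).card) := by
        refine (Finset.card_union_le _ _).trans (add_le_add (Finset.card_union_le _ _) ?_)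
        refine Finset.card_biUnion_le.trans (Finset.sum_le_sum fun y _ => Finset.card_union_le _ _)
      have h6 : (bad.card : ℝ) ≤ ((ExM.card : ℝ) + Exm.card) +
          ∑ y ∈ Y, (((EM y).card : ℝ) + (Em y).card) := by exact_mod_cast h5
      have h7 : ∑ y ∈ Y, (((EM y).card : ℝ) + (Em y).card) ≤ ∑ y ∈ Y, (8 * P.Z + 6) := by
        refine Finset.sum_le_sum fun y hy => ?_
        linarith [(hEM y hy).1, (hEm y hy).1]
      rw [Finset.sum_const, nsmul_eq_mul] at h7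
      linarith
    have hd0r : (0 : ℝ) < P.d := by exact_mod_cast hd1
    have hR : (100 : ℝ) ≤ 2 ^ P.s / P.d := by
      rw [le_div_iff₀ hd0r]
      have := P.c10
      exact_mod_cast this
    have hc6 := P.c6
    have hZeq : (6 * (2 : ℝ) ^ P.s / 2 ^ P.k0 + 8 * (P.A * (2000 * ((P.n : ℝ) + 1) *
        Real.sqrt (P.K1 * P.L * P.e) * ((2 : ℝ) ^ P.k0) ^ (1 / 4 : ℝ) +
          2 * P.n * Real.sqrt (2 ^ P.k0))) / P.φ) = P.Z := by
      unfold GP.Z GP.Xi; rfl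
    rw [hZeq] at hc6
    have e1 : 20 * (2 : ℝ) ^ P.s / P.d = 20 * (2 ^ P.s / P.d) := by ring
    have e2 : 8 * (2 : ℝ) ^ P.s / P.d = 8 * (2 ^ P.s / P.d) := by ring
    rw [e1] at hc6
    rw [e2] at hYc
    set R : ℝ := 2 ^ P.s / P.d with hRdef
    have hb2 : (Y.card : ℝ) * (8 * P.Z + 6) ≤ (8 * R + 6) * (8 * P.Z + 6) :=
      mul_le_mul_of_nonneg_right hYc (by linarith)
    have hb3 : (bad.card : ℝ) ≤ P.n / 2 := by
      refine hb1.trans ((add_le_add_right hb2 _).trans (le_trans ?_ hc6))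
      nlinarith
    have hcard : (P.n : ℝ) ≤ (Finset.Icc 1 P.n \ bad).card + bad.card := by
      have h5 : P.n ≤ (Finset.Icc 1 P.n \ bad).card + bad.card := by
        have h6 := Finset.card_le_card_sdiff_add_card (s := Finset.Icc 1 P.n) (t := bad)
        rw [Nat.card_Icc] at h6
        omega
      exact_mod_cast h5
    linarith
  · have hGG : ∀ i ∈ Finset.Icc 1 P.n \ bad, (1 ≤ i ∧ i ≤ P.n) ∧ i ∉ ExM ∧ i ∉ Exm ∧
        ∀ y ∈ Y, i ∉ EM y ∧ i ∉ Em y := by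
      intro i hi
      rw [Finset.mem_sdiff, Finset.mem_Icc] at hi
      obtain ⟨hi1, hi2⟩ := hi
      rw [hbad] at hi2
      simp only [Finset.mem_union, Finset.mem_biUnion, not_or, not_exists, not_and] at hi2
      exact ⟨hi1, hi2.1.1, hi2.1.2, fun y hy => hi2.2 y hy⟩
    constructor
    · exact hA
    · exact hφ
    · exact hSr
    · intro a b ha hab hb
      exact hGh.g1 a b (by linarith) hab (by linarith)
    · exact P.c2
    · intro i hi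
      have h5 := hpM.1 i (hGG i hi).1.2
      exact ⟨h5.1.le, h5.2.1⟩
    · intro i hi
      have h5 := hpm.1 i (hGG i hi).1.2
      exact ⟨h5.1.le, h5.2.1⟩
    · intro i _ j hj hij
      exact ⟨hpM.2 i j hij (hGG j hj).1.2, hpm.2 i j hij (hGG j hj).1.2⟩
    · intro i hi
      obtain ⟨hi1, hi2, -, -⟩ := hGG i hi
      exact hrM i hi1.1 hi1.2 hi2
    · intro i hi
      obtain ⟨hi1, -, hi2, -⟩ := hGG i hi
      exact hrm i hi1.1 hi1.2 hi2
    · intro y hy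
      obtain ⟨h5, h6, -⟩ := hYr y hy
      exact ⟨h5.le, h6.le⟩
    · exact hYn
    · intro y hy i hi hbar
      obtain ⟨hi1, -, -, hi2⟩ := hGG i hi
      obtain ⟨h5, h6⟩ := hi2 y hy
      have h7 := (hEM y hy).2 i hi1.1 hi1.2 h5 (fun x' h h' => by
        have h8 := hbar (sm E.v (x' + 1)) (hlo x' h (h'.trans hM1)) (hup x' h (h'.trans hM1))
        exact h8)
      have h9 := (hEm y hy).2 i hi1.1 hi1.2 h6 (fun x' h h' => by
        have h8 := hbar (sm E.v (x' + 1)) (hlo x' h (h'.trans hm1)) (hup x' h (h'.trans hm1))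
        exact h8)
      exact h7.symm.trans h9
    · -- amplitude
      have hA4 : P.A ^ 4 ≤ ((x1 + 1 : ℤ) : ℝ) - ((x0 + 1 : ℤ) : ℝ) := by
        have h5 : (49 : ℝ) * 2 ^ P.s ≤ 100 * (x1 - x0) := by
          rw [← hRS]; exact_mod_cast hlen
        have h6 := P.c9
        push_cast
        linarith
      obtain ⟨a, b, ha, hb, hab⟩ := hGv.g2 (x0 + 1) (x1 + 1) (by linarith) (by linarith)
        (by linarith) hA4
      have h5 := hmax (a - 1) (Finset.mem_Icc.2 ⟨by linarith [ha.1], by linarith [ha.2]⟩)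
      have h6 := hmin (b - 1) (Finset.mem_Icc.2 ⟨by linarith [hb.1], by linarith [hb.2]⟩)
      rw [sub_add_cancel] at h5 h6
      have h7 : (sm E.v a : ℝ) ≤ sm E.v (xs + 1) := by exact_mod_cast h5
      have h8 : (sm E.v (xt + 1) : ℝ) ≤ sm E.v b := by exact_mod_cast h6
      have h9 : 0.7 * Real.sqrt (2 ^ P.s) ≤
          Real.sqrt (((x1 + 1 : ℤ) : ℝ) - ((x0 + 1 : ℤ) : ℝ)) := by
        apply Real.le_sqrt_of_sq_le
        rw [mul_pow, Real.sq_sqrt hSr.le]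
        have h5 : (49 : ℝ) * 2 ^ P.s ≤ 100 * (x1 - x0) := by
          rw [← hRS]; exact_mod_cast hlen
        push_cast
        linarith
      have hApos : 0 < P.A := by linarith
      have h10 : 0.7 * Real.sqrt (2 ^ P.s) / P.A ≤
          Real.sqrt (((x1 + 1 : ℤ) : ℝ) - ((x0 + 1 : ℤ) : ℝ)) / P.A :=
        div_le_div_of_nonneg_right h9 hApos.le
      have h11 : 2 * P.φ ≤ 0.2 * Real.sqrt (2 ^ P.s) / P.A := by
        rw [le_div_iff₀ hApos]
        have := P.c8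
        nlinarith
      have h12 : Real.sqrt (2 ^ P.s) / (2 * P.A) =
          0.7 * Real.sqrt (2 ^ P.s) / P.A - 0.2 * Real.sqrt (2 ^ P.s) / P.A := by
        field_simp; norm_num
      rw [h12]
      linarith [hvM.1, hvM.2, hvm.1, hvm.2]
    · have h5 : ((y1 - y0 : ℤ) : ℝ) ≤ ((4 * S + 2 * P.d : ℤ) : ℝ) := by
        have : y1 - y0 ≤ 4 * S + 2 * P.d := by linarith
        exact_mod_cast this
      have h6 : (100 : ℝ) * P.d ≤ 2 ^ P.s := by
        have := P.c10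
        exact_mod_cast this
      push_cast at h5
      rw [hRS] at h5
      linarith

end MHL
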