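import Pool.Agent.MHL.StC

/-!
# MHL: long monotone piece of the left traces
-/

set_option autoImplicit false

namespace MHL

theorem thm_N5 (h4 : St_N4) (ha : St_A) : St_N5 := by
  intro P E u x0 x1 y0 y1 lev U t hCD
  obtain ⟨GG, pM, pm, WM, Wm, Y, hGG, hcard, hAlt⟩ := h4 P E u x0 x1 y0 y1 lev U t hCD
  obtain ⟨BB, hBB, hBc, hmon⟩ := ha _ _ _ _ _ _ _ _ _ _ _ _ _ _ hAlt
  refine ⟨BB, hBB.trans hGG, by linarith, ?_⟩
  rcases hmon with h | h
  · left
    intro i hi j hj hij
    have := h i hi j hj hij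
    linarith
  · right
    intro i hi j hj hij
    have := h i hi j hj hij
    linarith

end MHL
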