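import Pool.Agent.MHL.StB

/-!
# MHL: relation of two walls running from the left side to the right side
-/

set_option autoImplicit false

namespace MHL

/-- splitting a sum over `Icc c d` at two thresholds -/
lemma r1_split (H : ℤ → ℝ) {c d p q : ℤ} (h1 : c ≤ p) (h2 : p ≤ q) (h3 : q ≤ d + 1) :
    ∑ y ∈ Finset.Icc c d, H y =
      ∑ y ∈ Finset.Ico c p, H y + ∑ y ∈ Finset.Ico p q, H y + ∑ y ∈ Finset.Ico q (d + 1), H y := by
  have e : Finset.Icc c d = Finset.Ico c (d + 1) := by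
    ext y; simp only [Finset.mem_Icc, Finset.mem_Ico]; omega
  rw [e, ← Finset.Ico_union_Ico_eq_Ico (h1.trans h2) h3,
    Finset.sum_union (Finset.Ico_disjoint_Ico_consecutive _ _ _),
    ← Finset.Ico_union_Ico_eq_Ico h1 h2,
    Finset.sum_union (Finset.Ico_disjoint_Ico_consecutive _ _ _)]

/-- a function that is 0 below `p`, `F` on `[p,q)` and 1 from `q` on -/
lemma r1_up (g : ℤ → ℤ) (F G : ℤ → ℝ) {c d p q : ℤ} (h1 : c ≤ p) (h2 : p ≤ q) (h3 : q ≤ d + 1)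
    (g0 : ∀ y, c ≤ y → y < p → G y = 0) (gF : ∀ y, p ≤ y → y < q → G y = F y)
    (g1 : ∀ y, q ≤ y → y ≤ d → G y = 1) :
    ∑ y ∈ Finset.Icc c d, (g y : ℝ) * G y = (sm g (d + 1) : ℝ) - sm g q + xi g F p q := by
  rw [r1_split (fun y => (g y : ℝ) * G y) h1 h2 h3]
  have e1 : ∑ y ∈ Finset.Ico c p, (g y : ℝ) * G y = 0 := by
    refine Finset.sum_eq_zero fun y hy => ?_
    rw [Finset.mem_Ico] at hy
    rw [g0 y hy.1 hy.2, mul_zero]
  have e2 : ∑ y ∈ Finset.Ico p q, (g y : ℝ) * G y = xi g F p q := by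
    unfold xi
    refine Finset.sum_congr rfl fun y hy => ?_
    rw [Finset.mem_Ico] at hy
    rw [gF y hy.1 hy.2]
  have e3 : ∑ y ∈ Finset.Ico q (d + 1), (g y : ℝ) * G y = (sm g (d + 1) : ℝ) - sm g q := by
    rw [← sum_Ico_real g h3]
    refine Finset.sum_congr rfl fun y hy => ?_
    rw [Finset.mem_Ico] at hy
    rw [g1 y hy.1 (by omega), mul_one]
  rw [e1, e2, e3]
  ring

lemma r1_in2 {u : Pt → ℝ} {U1 U2 : Set Pt} {c1 c2 : ℝ} {z : Pt} (h : z ∈ U2) :
    ph u U1 U2 c1 c2 z = 1 := by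
  unfold ph; rw [if_pos h]

lemma r1_in1 {u : Pt → ℝ} {U1 U2 : Set Pt} {c1 c2 : ℝ} {z : Pt} (h2 : z ∉ U2) (h : z ∈ U1) :
    ph u U1 U2 c1 c2 z = cl c1 c2 (u z) := by
  unfold ph; rw [if_neg h2, if_pos h]

lemma r1_out {u : Pt → ℝ} {U1 U2 : Set Pt} {c1 c2 : ℝ} {z : Pt} (hs : U2 ⊆ U1) (h : z ∉ U1) :
    ph u U1 U2 c1 c2 z = 0 := by
  unfold ph; rw [if_neg fun hz => h (hs hz), if_neg h]

theorem thm_R1 (h : St_F3) : St_R1 := by
  intro E u B a b c d U1 U2 c1 c2 t0 t1 p0 p1 hab hcd hB hH hs hU hE1 hE2 hc htop hbot ha1 ha2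
    hb1 hb2 ct tt td cp pp pd
  have hF := h E u B a b c d U1 U2 c1 c2 hab hcd hB hH hs hU hE1 hE2 hc
  have eb : ∑ y ∈ Finset.Icc c d, (E.h y : ℝ) * ph u U1 U2 c1 c2 (b, y) =
      (sm E.h (d + 1) : ℝ) - sm E.h p1 + xi E.h (fun y => cl c1 c2 (u (b, y))) p0 p1 := by
    refine r1_up E.h (fun y => cl c1 c2 (u (b, y))) (fun y => ph u U1 U2 c1 c2 (b, y)) cp.le pp
      (by omega) ?_ ?_ ?_
    · intro y h1 h2
      exact r1_out hs fun hy => by
        have := (hb1 y h1 (by omega)).1 hy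
        omega
    · intro y h1 h2
      exact r1_in1 (fun hy => by
        have := (hb2 y (by omega) (by omega)).1 hy
        omega) ((hb1 y (by omega) (by omega)).2 h1)
    · intro y h1 h2
      exact r1_in2 ((hb2 y (by omega) h2).2 h1)
  have ea : ∑ y ∈ Finset.Icc c d, (E.h y : ℝ) * ph u U1 U2 c1 c2 (a, y) =
      (sm E.h (d + 1) : ℝ) - sm E.h t1 + xi E.h (fun y => cl c1 c2 (u (a, y))) t0 t1 := by
    refine r1_up E.h (fun y => cl c1 c2 (u (a, y))) (fun y => ph u U1 U2 c1 c2 (a, y)) ct.le tt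
      (by omega) ?_ ?_ ?_
    · intro y h1 h2
      exact r1_out hs fun hy => by
        have := (ha1 y h1 (by omega)).1 hy
        omega
    · intro y h1 h2
      exact r1_in1 (fun hy => by
        have := (ha2 y (by omega) (by omega)).1 hy
        omega) ((ha1 y (by omega) (by omega)).2 h1)
    · intro y h1 h2
      exact r1_in2 ((ha2 y (by omega) h2).2 h1)
  have ev : ∑ x ∈ Finset.Icc a b, (E.v x : ℝ) *
      (ph u U1 U2 c1 c2 (x, d) - ph u U1 U2 c1 c2 (x, c)) = (sm E.v (b + 1) : ℝ) - sm E.v a := by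
    have e : Finset.Icc a b = Finset.Ico a (b + 1) := by
      ext y; simp only [Finset.mem_Icc, Finset.mem_Ico]; omega
    rw [← sum_Ico_real E.v (show a ≤ b + 1 by omega), e]
    refine Finset.sum_congr rfl fun x hx => ?_
    rw [Finset.mem_Ico] at hx
    rw [r1_in2 (htop x hx.1 (by omega)), r1_out hs (hbot x hx.1 (by omega))]
    ring
  have hfl : flux E (ph u U1 U2 c1 c2) a b c d =
      -(((sm E.h p1 : ℝ) - sm E.v (b + 1) - xi E.h (fun y => cl c1 c2 (u (b, y))) p0 p1) -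
        ((sm E.h t1 : ℝ) - sm E.v a - xi E.h (fun y => cl c1 c2 (u (a, y))) t0 t1)) := by
    unfold flux
    rw [ev]
    have e1 : ∑ y ∈ Finset.Icc c d, (E.h y : ℝ) *
        (ph u U1 U2 c1 c2 (b, y) - ph u U1 U2 c1 c2 (a, y)) =
        ∑ y ∈ Finset.Icc c d, (E.h y : ℝ) * ph u U1 U2 c1 c2 (b, y) -
        ∑ y ∈ Finset.Icc c d, (E.h y : ℝ) * ph u U1 U2 c1 c2 (a, y) := by
      rw [← Finset.sum_sub_distrib]
      exact Finset.sum_congr rfl fun y _ => by ring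
    rw [e1, ea, eb]
    ring
  rw [hfl, abs_neg] at hF
  exact hF

end MHL
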