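import Pool.Agent.MHL.StB

/-!
# MHL: relation for a wall from the left side to the top side
-/

set_option autoImplicit false

namespace MHL

/-- weighted sum of a profile increasing from 0 to 1 -/
lemma r2_up (g : ℤ → ℤ) (F P : ℤ → ℝ) {c d t0 t1 : ℤ} (h1 : c ≤ t0) (h2 : t0 ≤ t1)
    (h3 : t1 ≤ d + 1) (hP1 : ∀ y, c ≤ y → y ≤ d → t1 ≤ y → P y = 1)
    (hP0 : ∀ y, c ≤ y → y ≤ d → y < t0 → P y = 0)
    (hPm : ∀ y, c ≤ y → y ≤ d → t0 ≤ y → y < t1 → P y = F y) :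
    ∑ y ∈ Finset.Icc c d, (g y : ℝ) * P y = (sm g (d + 1) : ℝ) - sm g t1 + xi g F t0 t1 := by
  have e0 : Finset.Icc c d = Finset.Ico c t0 ∪ Finset.Ico t0 t1 ∪ Finset.Ico t1 (d + 1) := by
    ext y
    simp only [Finset.mem_Icc, Finset.mem_union, Finset.mem_Ico]
    omega
  have d1 : Disjoint (Finset.Ico c t0 ∪ Finset.Ico t0 t1) (Finset.Ico t1 (d + 1)) := by
    rw [Finset.disjoint_left]
    intro y
    simp only [Finset.mem_union, Finset.mem_Ico]
    omega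
  have d2 : Disjoint (Finset.Ico c t0) (Finset.Ico t0 t1) := by
    rw [Finset.disjoint_left]
    intro y
    simp only [Finset.mem_Ico]
    omega
  rw [e0, Finset.sum_union d1, Finset.sum_union d2]
  have s1 : ∑ y ∈ Finset.Ico c t0, (g y : ℝ) * P y = 0 := by
    apply Finset.sum_eq_zero
    intro y hy
    rw [Finset.mem_Ico] at hy
    rw [hP0 y hy.1 (by omega) hy.2, mul_zero]
  have s2 : ∑ y ∈ Finset.Ico t0 t1, (g y : ℝ) * P y = xi g F t0 t1 := by
    unfold xi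
    apply Finset.sum_congr rfl
    intro y hy
    rw [Finset.mem_Ico] at hy
    rw [hPm y (by omega) (by omega) hy.1 hy.2]
  have s3 : ∑ y ∈ Finset.Ico t1 (d + 1), (g y : ℝ) * P y = (sm g (d + 1) : ℝ) - sm g t1 := by
    rw [← sum_Ico_real g h3]
    apply Finset.sum_congr rfl
    intro y hy
    rw [Finset.mem_Ico] at hy
    rw [hP1 y (by omega) (by omega) hy.1, mul_one]
  rw [s1, s2, s3]
  ring

/-- weighted sum of a profile decreasing from 1 to 0 -/
lemma r2_down (g : ℤ → ℤ) (F P : ℤ → ℝ) {a b r1 r2 : ℤ} (h1 : a ≤ r2) (h2 : r2 ≤ r1)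
    (h3 : r1 ≤ b + 1) (hP1 : ∀ y, a ≤ y → y ≤ b → y < r2 → P y = 1)
    (hP0 : ∀ y, a ≤ y → y ≤ b → r1 ≤ y → P y = 0)
    (hPm : ∀ y, a ≤ y → y ≤ b → r2 ≤ y → y < r1 → P y = F y) :
    ∑ y ∈ Finset.Icc a b, (g y : ℝ) * P y = (sm g r2 : ℝ) - sm g a + xi g F r2 r1 := by
  have e0 : Finset.Icc a b = Finset.Ico a r2 ∪ Finset.Ico r2 r1 ∪ Finset.Ico r1 (b + 1) := by
    ext y
    simp only [Finset.mem_Icc, Finset.mem_union, Finset.mem_Ico]
    omega
  have d1 : Disjoint (Finset.Ico a r2 ∪ Finset.Ico r2 r1) (Finset.Ico r1 (b + 1)) := by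
    rw [Finset.disjoint_left]
    intro y
    simp only [Finset.mem_union, Finset.mem_Ico]
    omega
  have d2 : Disjoint (Finset.Ico a r2) (Finset.Ico r2 r1) := by
    rw [Finset.disjoint_left]
    intro y
    simp only [Finset.mem_Ico]
    omega
  rw [e0, Finset.sum_union d1, Finset.sum_union d2]
  have s1 : ∑ y ∈ Finset.Ico r1 (b + 1), (g y : ℝ) * P y = 0 := by
    apply Finset.sum_eq_zero
    intro y hy
    rw [Finset.mem_Ico] at hy
    rw [hP0 y (by omega) (by omega) hy.1, mul_zero]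
  have s2 : ∑ y ∈ Finset.Ico r2 r1, (g y : ℝ) * P y = xi g F r2 r1 := by
    unfold xi
    apply Finset.sum_congr rfl
    intro y hy
    rw [Finset.mem_Ico] at hy
    rw [hPm y (by omega) (by omega) hy.1 hy.2]
  have s3 : ∑ y ∈ Finset.Ico a r2, (g y : ℝ) * P y = (sm g r2 : ℝ) - sm g a := by
    rw [← sum_Ico_real g h1]
    apply Finset.sum_congr rfl
    intro y hy
    rw [Finset.mem_Ico] at hy
    rw [hP1 y (by omega) (by omega) hy.2, mul_one]
  rw [s1, s2, s3]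
  ring

lemma r2_ph_two {u : Pt → ℝ} {U1 U2 : Set Pt} {c1 c2 : ℝ} {z : Pt} (h : z ∈ U2) :
    ph u U1 U2 c1 c2 z = 1 := by
  unfold ph
  rw [if_pos h]

lemma r2_ph_one {u : Pt → ℝ} {U1 U2 : Set Pt} {c1 c2 : ℝ} {z : Pt} (h : z ∉ U2) (h' : z ∈ U1) :
    ph u U1 U2 c1 c2 z = cl c1 c2 (u z) := by
  unfold ph
  rw [if_neg h, if_pos h']

lemma r2_ph_zero {u : Pt → ℝ} {U1 U2 : Set Pt} {c1 c2 : ℝ} {z : Pt} (h : z ∉ U2) (h' : z ∉ U1) :
    ph u U1 U2 c1 c2 z = 0 := by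
  unfold ph
  rw [if_neg h, if_neg h']

theorem thm_R2 (h : St_F3) : St_R2 := by
  intro E u B a b c d U1 U2 c1 c2 t0 t1 r1 r2 hab hcd hB hH h21 h1R hec1 hec2 hc hbot hright
    hl1 hl2 ht1 ht2 hct htt htd har hrr hrb
  have key := h E u B a b c d U1 U2 c1 c2 hab hcd hB hH h21 h1R hec1 hec2 hc
  have eleft : ∑ y ∈ Finset.Icc c d, (E.h y : ℝ) * ph u U1 U2 c1 c2 (a, y) =
      (sm E.h (d + 1) : ℝ) - sm E.h t1 + xi E.h (fun y => cl c1 c2 (u (a, y))) t0 t1 := by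
    apply r2_up E.h (fun y => cl c1 c2 (u (a, y))) (fun y => ph u U1 U2 c1 c2 (a, y)) hct.le htt
      (by omega)
    · intro y hy1 hy2 hy3
      exact r2_ph_two ((hl2 y hy1 hy2).2 hy3)
    · intro y hy1 hy2 hy3
      exact r2_ph_zero (fun hh => by have := (hl2 y hy1 hy2).1 hh; omega)
        (fun hh => by have := (hl1 y hy1 hy2).1 hh; omega)
    · intro y hy1 hy2 hy3 hy4
      exact r2_ph_one (fun hh => by have := (hl2 y hy1 hy2).1 hh; omega) ((hl1 y hy1 hy2).2 hy3)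
  have etop : ∑ x ∈ Finset.Icc a b, (E.v x : ℝ) * ph u U1 U2 c1 c2 (x, d) =
      (sm E.v r2 : ℝ) - sm E.v a + xi E.v (fun x => cl c1 c2 (u (x, d))) r2 r1 := by
    apply r2_down E.v (fun x => cl c1 c2 (u (x, d))) (fun x => ph u U1 U2 c1 c2 (x, d)) har.le hrr
      (by omega)
    · intro y hy1 hy2 hy3
      exact r2_ph_two ((ht2 y hy1 hy2).2 hy3)
    · intro y hy1 hy2 hy3
      exact r2_ph_zero (fun hh => by have := (ht2 y hy1 hy2).1 hh; omega)
        (fun hh => by have := (ht1 y hy1 hy2).1 hh; omega)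
    · intro y hy1 hy2 hy3 hy4
      exact r2_ph_one (fun hh => by have := (ht2 y hy1 hy2).1 hh; omega) ((ht1 y hy1 hy2).2 hy4)
  have eflux : flux E (ph u U1 U2 c1 c2) a b c d =
      -((sm E.h (d + 1) : ℝ) - sm E.h t1 + xi E.h (fun y => cl c1 c2 (u (a, y))) t0 t1) +
      ((sm E.v r2 : ℝ) - sm E.v a + xi E.v (fun x => cl c1 c2 (u (x, d))) r2 r1) := by
    rw [← eleft, ← etop]
    unfold flux
    rw [← Finset.sum_neg_distrib]
    congr 1
    · apply Finset.sum_congr rfl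
      intro y hy
      rw [Finset.mem_Icc] at hy
      rw [r2_ph_zero (z := (b, y)) (fun hh => hright y hy.1 hy.2 (h21 hh)) (hright y hy.1 hy.2)]
      ring
    · apply Finset.sum_congr rfl
      intro x hx
      rw [Finset.mem_Icc] at hx
      rw [r2_ph_zero (z := (x, c)) (fun hh => hbot x hx.1 hx.2 (h21 hh)) (hbot x hx.1 hx.2)]
      ring
  rw [eflux, ← abs_neg] at key
  refine le_trans (le_of_eq ?_) key
  congr 1
  ring

end MHL
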