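import Pool.Agent.MHL.Sm

/-!
# MHL: reflection in `y`
-/

set_option autoImplicit false

namespace MHL

lemma ry_good {A : ℝ} {E : Env} {R m : ℕ} (h : GoodE A E (0, 0) (R + (m + 1))) :
    GoodE A E.ry (0, 0) (R + m) := by
  refine ⟨?_, ?_⟩
  · have h1 := h.gh.refl
    exact h1.mono (by push_cast; omega) (by push_cast; omega)
  · exact (h.gv.mono (by simp) (by simp)).neg

/-- oscillation over a reflected interval -/
lemma ry_osc (f : ℤ → ℝ) (a b : ℤ) :
    osc (Finset.Icc a b) (fun y : ℤ => f (-y)) = osc (Finset.Icc (-b) (-a)) f := by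
  apply le_antisymm
  · refine osc_le (osc_nonneg _ _) fun x hx y hy => ?_
    rw [Finset.mem_Icc] at hx hy
    exact le_osc f (Finset.mem_Icc.2 ⟨by omega, by omega⟩) (Finset.mem_Icc.2 ⟨by omega, by omega⟩)
  · refine osc_le (osc_nonneg _ _) fun x hx y hy => ?_
    rw [Finset.mem_Icc] at hx hy
    have := le_osc (s := Finset.Icc a b) (fun y : ℤ => f (-y)) (a := -x) (b := -y)
      (Finset.mem_Icc.2 ⟨by omega, by omega⟩) (Finset.mem_Icc.2 ⟨by omega, by omega⟩)
    simpa using this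

/-- reindexing of a symmetric sum -/
lemma ry_sum (F : ℤ → ℝ) (N : ℤ) :
    ∑ k ∈ Finset.Icc (-N) N, F (-k) = ∑ k ∈ Finset.Icc (-N) N, F k := by
  refine Finset.sum_bij (fun k _ => -k) ?_ ?_ ?_ ?_
  · intro k hk; rw [Finset.mem_Icc] at hk ⊢; omega
  · intro a _ b _ h; simpa using h
  · intro b hb; rw [Finset.mem_Icc] at hb
    exact ⟨-b, Finset.mem_Icc.2 ⟨by omega, by omega⟩, by simp⟩
  · intro k _; rfl

lemma ry_ossum (f : ℤ → ℝ) (N q : ℤ) :
    ∑ k ∈ Finset.Icc (-N) N, osc (Finset.Icc (k * q - q) (k * q + q)) (fun y : ℤ => f (-y)) ^ 2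
      = ∑ k ∈ Finset.Icc (-N) N, osc (Finset.Icc (k * q - q) (k * q + q)) f ^ 2 := by
  rw [← ry_sum]
  refine Finset.sum_congr rfl fun k _ => ?_
  rw [ry_osc]
  congr 3 <;> ring

theorem thm_Ry : St_Ry := by
  intro P E u
  refine ⟨?_, ?_, ?_, ?_⟩
  · rintro m ⟨h1, h2⟩
    have h3 := ry_good (R := 8 * 2 ^ P.s) (m := m) (by simpa [add_assoc] using h2)
    refine ⟨sm_ctx (sm_symm_ry E) h1 ?_, h3⟩
    exact ⟨h3.gh.mono (by simp) (by simp), h3.gv.mono (by simp) (by simp)⟩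
  · intro x h
    refine ⟨?_, fun i hi => ?_⟩
    · refine le_trans (le_of_eq ?_) h.en
      have := ry_sum (fun y : ℤ => dd E u (x, y) ^ 2) (3 * 2 ^ P.s)
      rw [show (-3 * 2 ^ P.s : ℤ) = -(3 * 2 ^ P.s) by ring, ← this]
      rfl
    · refine le_trans (le_of_eq ?_) (h.os i hi)
      have := ry_ossum (fun y : ℤ => u (x, y)) (3 * 2 ^ (P.s - i)) (2 ^ i)
      rw [show (-3 * 2 ^ (P.s - i) : ℤ) = -(3 * 2 ^ (P.s - i)) by ring]
      exact this
  · intro y h
    unfold GRow at *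
    have key : ∀ b : ℤ, tru (ryu u) (-y, b) = tru u (y, b) := by
      intro b; simp [tru, ryu]
    have key2 : ∀ b : ℤ, dd E.ry.tr (tru (ryu u)) (-y, b) = dd E.tr (tru u) (y, b) := by
      intro b
      simp only [dd, Env.s1, Env.tr, Env.ry, tru, ryu]
      congr 3 <;> ring_nf
    refine ⟨?_, fun i hi => ?_⟩
    · simp only [key2]; exact h.en
    · simp only [key]; exact h.os i hi
  · intro x
    have := ry_ossum (fun y : ℤ => u (x, y)) (3 * 2 ^ (P.s - P.s')) (2 ^ P.s')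
    unfold cs
    rw [show (-3 * 2 ^ (P.s - P.s') : ℤ) = -(3 * 2 ^ (P.s - P.s')) by ring]
    exact this

end MHL
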