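import Pool.Agent.MHL.Sm

/-!
# MHL: reflection in `x` and transposition
-/

set_option autoImplicit false

namespace MHL

lemma sy_good_rx {A : ℝ} {E : Env} {R m : ℕ} (h : GoodE A E (0, 0) (R + (m + 1))) :
    GoodE A E.rx (0, 0) (R + m) := by
  refine ⟨?_, ?_⟩
  · exact (h.gh.mono (by simp) (by simp)).neg
  · have h1 := h.gv.refl
    exact h1.mono (by push_cast; omega) (by push_cast; omega)

theorem thm_Sy : St_Sy := by
  intro P E u
  refine ⟨?_, ?_, ?_, ?_⟩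
  · rintro m ⟨h1, h2⟩
    have h3 := sy_good_rx (R := 8 * 2 ^ P.s) (m := m) (by simpa [add_assoc] using h2)
    refine ⟨sm_ctx (sm_symm_rx E) h1 ?_, h3⟩
    exact ⟨h3.gh.mono (by simp) (by simp), h3.gv.mono (by simp) (by simp)⟩
  · rintro m ⟨h1, h2⟩
    exact ⟨sm_ctx (sm_symm_tr E) h1 ⟨h1.good.gv, h1.good.gh⟩, ⟨h2.gv, h2.gh⟩⟩
  · exact fun h => sm_concl (sm_symm_rx E) h
  · exact fun h => sm_concl (sm_symm_tr E) h

end MHL
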