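import Pool.Agent.MHL.StA

/-!
# MHL [T1]: crossings of a rectangle meet

The proof uses the mod 2 chain of edges of the 4-connected crossing and the parity of the number of
its horizontal edges above a point.
-/

set_option autoImplicit false

namespace MHL

/-- indicator with values in `ZMod 2` -/
def t1_ind (z w : Pt) : ZMod 2 := if z = w then 1 else 0

/-- chain of edges inside `S` with boundary `p + g`: `N` for the horizontal edges, `M` for the
vertical ones -/
structure t1_ch (S : Set Pt) (p g : Pt) (N M : Pt → ZMod 2) : Prop where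
  n : ∀ z, N z ≠ 0 → z ∈ S ∧ (z.1 + 1, z.2) ∈ S
  m : ∀ z, M z ≠ 0 → z ∈ S ∧ (z.1, z.2 + 1) ∈ S
  bd : ∀ z : Pt, N z + N (z.1 - 1, z.2) + (M z + M (z.1, z.2 - 1)) = t1_ind z p + t1_ind z g

lemma t1_ind_ne {z w : Pt} (h : t1_ind z w ≠ 0) : z = w := by
  unfold t1_ind at h
  by_contra hne
  rw [if_neg hne] at h
  exact h rfl

lemma t1_ind_of_ne {z w : Pt} (h : z ≠ w) : t1_ind z w = 0 := if_neg h

lemma t1_two (x : ZMod 2) : x + x = 0 := CharTwo.add_self_eq_zero x

lemma t1_ind_left (z e : Pt) : t1_ind (z.1 - 1, z.2) e = t1_ind z (e.1 + 1, e.2) := by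
  unfold t1_ind
  rcases z with ⟨x, y⟩
  rcases e with ⟨x', y'⟩
  by_cases h : (x, y) = (x' + 1, y')
  · rw [if_pos h, if_pos]
    rw [Prod.mk.injEq] at h ⊢
    exact ⟨by rw [h.1]; ring, h.2⟩
  · rw [if_neg h, if_neg]
    intro h2
    apply h
    rw [Prod.mk.injEq] at h2 ⊢
    exact ⟨by rw [← h2.1]; ring, h2.2⟩

lemma t1_ind_down (z e : Pt) : t1_ind (z.1, z.2 - 1) e = t1_ind z (e.1, e.2 + 1) := by
  unfold t1_ind
  rcases z with ⟨x, y⟩
  rcases e with ⟨x', y'⟩
  by_cases h : (x, y) = (x', y' + 1)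
  · rw [if_pos h, if_pos]
    rw [Prod.mk.injEq] at h ⊢
    exact ⟨h.1, by rw [h.2]; ring⟩
  · rw [if_neg h, if_neg]
    intro h2
    apply h
    rw [Prod.mk.injEq] at h2 ⊢
    exact ⟨h2.1, by rw [← h2.2]; ring⟩

lemma t1_addN {S : Set Pt} {p g : Pt} {N M : Pt → ZMod 2} (h : t1_ch S p g N M) {e g' : Pt}
    (he : e ∈ S) (he' : (e.1 + 1, e.2) ∈ S)
    (hg : (g = e ∧ g' = (e.1 + 1, e.2)) ∨ (g' = e ∧ g = (e.1 + 1, e.2))) :
    t1_ch S p g' (fun z => N z + t1_ind z e) M := by
  refine ⟨?_, h.m, ?_⟩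
  · intro z hz
    by_cases h0 : N z = 0
    · change N z + t1_ind z e ≠ 0 at hz
      rw [h0, zero_add] at hz
      rw [t1_ind_ne hz]
      exact ⟨he, he'⟩
    · exact h.n z h0
  · intro z
    have hb := h.bd z
    have hl := t1_ind_left z e
    have hsum : t1_ind z e + t1_ind z (e.1 + 1, e.2) = t1_ind z g + t1_ind z g' := by
      rcases hg with ⟨h1, h2⟩ | ⟨h1, h2⟩
      · rw [h1, h2]
      · rw [h1, h2, add_comm]
    change N z + t1_ind z e + (N (z.1 - 1, z.2) + t1_ind (z.1 - 1, z.2) e) +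
      (M z + M (z.1, z.2 - 1)) = _
    calc N z + t1_ind z e + (N (z.1 - 1, z.2) + t1_ind (z.1 - 1, z.2) e) +
      (M z + M (z.1, z.2 - 1)) = (N z + N (z.1 - 1, z.2) + (M z + M (z.1, z.2 - 1))) +
        (t1_ind z e + t1_ind z (e.1 + 1, e.2)) := by rw [hl]; ring
      _ = (t1_ind z p + t1_ind z g) + (t1_ind z g + t1_ind z g') := by rw [hb, hsum]
      _ = t1_ind z p + t1_ind z g' + (t1_ind z g + t1_ind z g) := by ring
      _ = _ := by rw [t1_two, add_zero]

lemma t1_addM {S : Set Pt} {p g : Pt} {N M : Pt → ZMod 2} (h : t1_ch S p g N M) {e g' : Pt}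
    (he : e ∈ S) (he' : (e.1, e.2 + 1) ∈ S)
    (hg : (g = e ∧ g' = (e.1, e.2 + 1)) ∨ (g' = e ∧ g = (e.1, e.2 + 1))) :
    t1_ch S p g' N (fun z => M z + t1_ind z e) := by
  refine ⟨h.n, ?_, ?_⟩
  · intro z hz
    by_cases h0 : M z = 0
    · change M z + t1_ind z e ≠ 0 at hz
      rw [h0, zero_add] at hz
      rw [t1_ind_ne hz]
      exact ⟨he, he'⟩
    · exact h.m z h0
  · intro z
    have hb := h.bd z
    have hl := t1_ind_down z e
    have hsum : t1_ind z e + t1_ind z (e.1, e.2 + 1) = t1_ind z g + t1_ind z g' := by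
      rcases hg with ⟨h1, h2⟩ | ⟨h1, h2⟩
      · rw [h1, h2]
      · rw [h1, h2, add_comm]
    change N z + N (z.1 - 1, z.2) + (M z + t1_ind z e +
      (M (z.1, z.2 - 1) + t1_ind (z.1, z.2 - 1) e)) = _
    calc N z + N (z.1 - 1, z.2) + (M z + t1_ind z e +
      (M (z.1, z.2 - 1) + t1_ind (z.1, z.2 - 1) e)) =
        (N z + N (z.1 - 1, z.2) + (M z + M (z.1, z.2 - 1))) +
        (t1_ind z e + t1_ind z (e.1, e.2 + 1)) := by rw [hl]; ring
      _ = (t1_ind z p + t1_ind z g) + (t1_ind z g + t1_ind z g') := by rw [hb, hsum]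
      _ = t1_ind z p + t1_ind z g' + (t1_ind z g + t1_ind z g) := by ring
      _ = _ := by rw [t1_two, add_zero]

/-- a 4-path gives a chain -/
lemma t1_chain {S : Set Pt} {p g : Pt} (h : Cn adj4 S p g) :
    ∃ N M : Pt → ZMod 2, t1_ch S p g N M := by
  refine Cn.induct (p := fun g => ∃ N M : Pt → ZMod 2, t1_ch S p g N M) h ?_ ?_
  · refine ⟨fun _ => 0, fun _ => 0, fun z hz => absurd rfl hz, fun z hz => absurd rfl hz, ?_⟩
    intro z
    rw [t1_two (t1_ind z p)]
    simp
  · rintro z w hz hw hr ⟨N, M, hch⟩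
    rw [adj4_iff] at hr
    rcases hr with ⟨h1, h2 | h2⟩ | ⟨h1, h2 | h2⟩
    · -- `z = w + (1, 0)`
      have e : z = (w.1 + 1, w.2) := Prod.ext h2 h1
      exact ⟨_, _, t1_addN hch (e := w) (g' := w) hw (e ▸ hz) (Or.inr ⟨rfl, e⟩)⟩
    · have e : w = (z.1 + 1, z.2) := Prod.ext h2 h1.symm
      exact ⟨_, _, t1_addN hch (e := z) (g' := w) hz (e ▸ hw) (Or.inl ⟨rfl, e⟩)⟩
    · have e : z = (w.1, w.2 + 1) := Prod.ext h1 h2
      exact ⟨_, _, t1_addM hch (e := w) (g' := w) hw (e ▸ hz) (Or.inr ⟨rfl, e⟩)⟩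
    · have e : w = (z.1, z.2 + 1) := Prod.ext h1.symm h2
      exact ⟨_, _, t1_addM hch (e := z) (g' := w) hz (e ▸ hw) (Or.inl ⟨rfl, e⟩)⟩

lemma t1_Ioc {y d : ℤ} (h : y ≤ d) : Finset.Ioc (y - 1) d = insert y (Finset.Ioc y d) := by
  ext k; simp only [Finset.mem_Ioc, Finset.mem_insert]; omega

/-- telescoping sum -/
lemma t1_tel (m : ℤ → ZMod 2) (d : ℤ) (n : ℕ) :
    ∑ k ∈ Finset.Ioc (d - n) d, (m k + m (k - 1)) = m d + m (d - n) := by
  induction n with
  | zero => simp [t1_two]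
  | succ n ih =>
    have h1 : d - ((n + 1 : ℕ) : ℤ) = (d - n) - 1 := by push_cast; ring
    rw [h1, t1_Ioc (by omega), Finset.sum_insert (by simp), ih]
    have h2 := t1_two (m (d - n))
    calc m (d - n) + m (d - n - 1) + (m d + m (d - n)) =
        m d + m (d - n - 1) + (m (d - n) + m (d - n)) := by ring
      _ = _ := by rw [h2, add_zero]

lemma t1_tel' (m : ℤ → ZMod 2) {y d : ℤ} (h : y ≤ d) :
    ∑ k ∈ Finset.Ioc y d, (m k + m (k - 1)) = m d + m y := by
  have h1 := t1_tel m d (d - y).toNat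
  have h2 : d - ((d - y).toNat : ℤ) = y := by omega
  rwa [h2] at h1

theorem thm_T1 : St_T1 := by
  intro a b c d S S' p q p' q' hab hcd hS hS' hdis h4 hp hq h8 hp' hq'
  have hpS : p ∈ S := h4.left
  have hqS : q ∈ S := h4.right
  have hSb : ∀ z ∈ S, (a ≤ z.1 ∧ z.1 ≤ b) ∧ (c ≤ z.2 ∧ z.2 ≤ d) := fun z hz =>
    mem_rc.1 (Finset.mem_coe.1 (hS hz))
  have hSb' : ∀ z ∈ S', (a ≤ z.1 ∧ z.1 ≤ b) ∧ (c ≤ z.2 ∧ z.2 ≤ d) := fun z hz =>
    mem_rc.1 (Finset.mem_coe.1 (hS' hz))
  have hSS : ∀ z ∈ S', z ∉ S := fun z hz h => Set.disjoint_left.1 hdis h hz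
  -- the extended crossing
  have hg4 : Cn adj4 (insert (b + 1, q.2) S) p (b + 1, q.2) := by
    refine (h4.mono (Set.subset_insert _ _)).step ?_ (Set.mem_insert _ _)
    rw [adj4_iff]
    left
    exact ⟨rfl, Or.inr (by rw [hq])⟩
  obtain ⟨N, M, hch⟩ := t1_chain hg4
  have hS1 : ∀ z ∈ insert ((b + 1, q.2) : Pt) S, a ≤ z.1 ∧ c ≤ z.2 ∧ z.2 ≤ d := by
    intro z hz
    rcases Set.mem_insert_iff.1 hz with rfl | hz
    · have := hSb q hqS
      refine ⟨?_, this.2.1, this.2.2⟩
      change a ≤ b + 1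
      omega
    · have := hSb z hz
      exact ⟨this.1.1, this.2.1, this.2.2⟩
  have hout : ∀ z : Pt, z.1 ≤ b → z ∉ S → z ∉ insert ((b + 1, q.2) : Pt) S := by
    intro z hz hzS h
    rcases Set.mem_insert_iff.1 h with h | h
    · rw [h] at hz
      change b + 1 ≤ b at hz
      omega
    · exact hzS h
  have hN0 : ∀ z : Pt, z.1 ≤ b → z ∉ S → N z = 0 := by
    intro z hz hzS
    by_contra h
    exact hout z hz hzS (hch.n z h).1
  have hN0' : ∀ z : Pt, z.1 + 1 ≤ b → (z.1 + 1, z.2) ∉ S → N z = 0 := by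
    intro z hz hzS
    by_contra h
    exact hout _ hz hzS (hch.n z h).2
  have hM0 : ∀ z : Pt, z.1 ≤ b → z ∉ S → M z = 0 := by
    intro z hz hzS
    by_contra h
    exact hout z hz hzS (hch.m z h).1
  have hMd : ∀ x : ℤ, M (x, d) = 0 := by
    intro x
    by_contra h
    have := hS1 _ (hch.m _ h).2
    change a ≤ x ∧ c ≤ d + 1 ∧ d + 1 ≤ d at this
    omega
  have hMc : ∀ x : ℤ, M (x, c - 1) = 0 := by
    intro x
    by_contra h
    have := hS1 _ (hch.m _ h).1
    change a ≤ x ∧ c ≤ c - 1 ∧ c - 1 ≤ d at this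
    omega
  have hNa : ∀ y : ℤ, N (a - 1, y) = 0 := by
    intro y
    by_contra h
    have := hS1 _ (hch.n _ h).1
    change a ≤ a - 1 ∧ _ at this
    omega
  set f : ℤ → ℤ → ZMod 2 := fun x y => ∑ k ∈ Finset.Ioc y d, N (x, k) with hf
  have fstep : ∀ x y : ℤ, y ≤ d → f x (y - 1) = N (x, y) + f x y := by
    intro x y hy
    simp only [hf]
    rw [t1_Ioc hy, Finset.sum_insert (by simp)]
  have fcol : ∀ x y : ℤ, y ≤ d → f x y + f (x - 1) y =
      M (x, y) + ∑ k ∈ Finset.Ioc y d, (t1_ind (x, k) p + t1_ind (x, k) (b + 1, q.2)) := by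
    intro x y hy
    have h1 := t1_tel' (fun k => M (x, k)) hy
    simp only [hMd, zero_add] at h1
    rw [← h1]
    simp only [hf]
    rw [← Finset.sum_add_distrib, ← Finset.sum_add_distrib]
    refine Finset.sum_congr rfl fun k _ => ?_
    have h2 := hch.bd (x, k)
    simp only at h2
    rw [← h2]
    have h3 := t1_two (M (x, k) + M (x, k - 1))
    calc N (x, k) + N (x - 1, k) = N (x, k) + N (x - 1, k) +
          ((M (x, k) + M (x, k - 1)) + (M (x, k) + M (x, k - 1))) := by rw [h3, add_zero]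
      _ = _ := by ring
  have fcol0 : ∀ x y : ℤ, y ≤ d → a < x → x ≤ b → f x y + f (x - 1) y = M (x, y) := by
    intro x y hy hx1 hx2
    rw [fcol x y hy, Finset.sum_eq_zero, add_zero]
    intro k _
    rw [t1_ind_of_ne, t1_ind_of_ne, add_zero]
    · intro h
      have := congrArg Prod.fst h
      change x = b + 1 at this
      omega
    · intro h
      have := congrArg Prod.fst h
      change x = p.1 at this
      omega
  -- the total number of crossings of each line is odd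
  have htot : ∀ n : ℕ, a + n ≤ b → f (a + n) (c - 1) = 1 := by
    intro n
    induction n with
    | zero =>
      intro _
      have h1 := fcol a (c - 1) (by omega)
      rw [hMc, zero_add] at h1
      have h2 : f (a - 1) (c - 1) = 0 := by
        simp only [hf]
        exact Finset.sum_eq_zero fun k _ => hNa k
      rw [h2, add_zero] at h1
      have h3 : a + ((0 : ℕ) : ℤ) = a := by simp
      rw [h3, h1, Finset.sum_eq_single p.2]
      · have e1 : t1_ind (a, p.2) p = 1 := by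
          unfold t1_ind
          rw [if_pos]
          exact Prod.ext hp.symm rfl
        rw [e1, t1_ind_of_ne, add_zero]
        intro h
        have := congrArg Prod.fst h
        change a = b + 1 at this
        omega
      · intro k _ hk
        rw [t1_ind_of_ne, t1_ind_of_ne, add_zero]
        · intro h
          have := congrArg Prod.fst h
          change a = b + 1 at this
          omega
        · intro h
          exact hk (congrArg Prod.snd h)
      · intro h
        exfalso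
        apply h
        rw [Finset.mem_Ioc]
        have := hSb p hpS
        omega
    | succ n ih =>
      intro hn
      have h1 := fcol0 (a + ((n + 1 : ℕ) : ℤ)) (c - 1) (by omega) (by push_cast; omega) hn
      rw [hMc] at h1
      have h2 : a + ((n + 1 : ℕ) : ℤ) - 1 = a + n := by push_cast; ring
      rw [h2, ih (by push_cast at hn; omega)] at h1
      calc f (a + ((n + 1 : ℕ) : ℤ)) (c - 1) = (f (a + ((n + 1 : ℕ) : ℤ)) (c - 1) + 1) + 1 := by
            rw [add_assoc, t1_two, add_zero]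
        _ = 1 := by rw [h1, zero_add]
  -- invariance
  have heq : ∀ s t : ZMod 2, s + t = 0 → s = t := by
    intro s t h
    calc s = (s + t) + t := by rw [add_assoc, t1_two, add_zero]
      _ = t := by rw [h, zero_add]
  have inv_v : ∀ x y : ℤ, x ≤ b → y ≤ d → (x, y) ∉ S → f x (y - 1) = f x y := by
    intro x y hx hy h
    rw [fstep x y hy, hN0 _ hx h, zero_add]
  have inv_h : ∀ z w : Pt, z ∉ S → w ∉ S → (a ≤ z.1 ∧ z.1 ≤ b) ∧ (c ≤ z.2 ∧ z.2 ≤ d) →
      (a ≤ w.1 ∧ w.1 ≤ b) ∧ (c ≤ w.2 ∧ w.2 ≤ d) → w.1 = z.1 + 1 → |z.2 - w.2| ≤ 1 →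
      f z.1 z.2 = f w.1 w.2 := by
    rintro ⟨x, y⟩ ⟨x', y'⟩ hz hw hzb hwb hx hy
    change x' = x + 1 at hx
    subst hx
    simp only at hzb hwb hy ⊢
    have h1 := fcol0 (x + 1) y' (by omega) (by omega) (by omega)
    rw [hM0 _ (by omega) hw] at h1
    have h2 := heq _ _ h1
    rw [h2]
    have h3 : x + 1 - 1 = x := by ring
    rw [h3]
    rw [abs_le] at hy
    have hcase : y' = y ∨ y' = y + 1 ∨ y' = y - 1 := by omega
    rcases hcase with rfl | rfl | rfl
    · rfl
    · have h4 := fstep x (y + 1) (by omega)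
      have h5 : y + 1 - 1 = y := by ring
      rw [h5] at h4
      rw [h4, hN0' (x, y + 1) (by change x + 1 ≤ b; omega) hw, zero_add]
    · exact (inv_v x y (by omega) (by omega) hz).symm
  have inv : ∀ z w : Pt, z ∈ S' → w ∈ S' → adj8 z w → f z.1 z.2 = f w.1 w.2 := by
    intro z w hz hw hr
    unfold adj8 at hr
    have hzb := hSb' z hz
    have hwb := hSb' w hw
    have h1 := abs_le.1 hr.1
    have hcase : w.1 = z.1 ∨ w.1 = z.1 + 1 ∨ z.1 = w.1 + 1 := by omega
    rcases hcase with h | h | h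
    · have h2 := abs_le.1 hr.2
      have hcase2 : w.2 = z.2 ∨ w.2 = z.2 + 1 ∨ w.2 = z.2 - 1 := by omega
      rw [h]
      rcases hcase2 with h3 | h3 | h3
      · rw [h3]
      · have h4 := inv_v w.1 w.2 (by omega) (by omega) (hSS w hw)
        rw [h, h3] at h4
        rw [h3, ← h4]
        congr 1
        ring
      · have h4 := inv_v z.1 z.2 (by omega) (by omega) (hSS z hz)
        rw [h3, h4]
    · exact inv_h z w (hSS z hz) (hSS w hw) hzb hwb h hr.2
    · refine (inv_h w z (hSS w hw) (hSS z hz) hwb hzb h ?_).symm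
      rw [abs_sub_comm]
      exact hr.2
  have hstart : f p'.1 p'.2 = 1 := by
    have hb := hSb' p' h8.left
    have h1 := htot (p'.1 - a).toNat (by omega)
    have h2 : a + ((p'.1 - a).toNat : ℤ) = p'.1 := by omega
    rw [h2] at h1
    have h3 := inv_v p'.1 c (by omega) hcd (by
      have := hSS p' h8.left
      rw [← hp']
      exact this)
    rw [hp', ← h3, h1]
  have hend : f q'.1 q'.2 = 1 :=
    Cn.induct (p := fun z => f z.1 z.2 = 1) h8 hstart fun x y hx hy hr h => by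
      rw [← inv x y hx hy hr]; exact h
  rw [hq'] at hend
  simp only [hf, Finset.Ioc_self, Finset.sum_empty] at hend
  exact zero_ne_one hend

end MHL
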