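import Pool.Agent.MHL.StA

/-!
# MHL: transposed forms of the two planar lemmas
-/

set_option autoImplicit false

namespace MHL

lemma t1t_adj4 {z w : Pt} (h : adj4 z w) : adj4 z.swap w.swap := by
  unfold adj4 at h ⊢
  simp only [Prod.fst_swap, Prod.snd_swap]
  omega

lemma t1t_adj8 {z w : Pt} (h : adj8 z w) : adj8 z.swap w.swap := ⟨h.2, h.1⟩

lemma t1t_cn {r : Pt → Pt → Prop} (hr : ∀ z w : Pt, r z w → r z.swap w.swap) {S : Set Pt}
    {a b : Pt} (h : Cn r S a b) : Cn r (Prod.swap ⁻¹' S) a.swap b.swap := by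
  obtain ⟨h1, h2⟩ := h
  refine ⟨by simpa using h1, ?_⟩
  induction h2 with
  | refl => exact Relation.ReflTransGen.refl
  | tail _ h ih => exact ih.tail ⟨hr _ _ h.1, by simpa using h.2⟩

lemma t1t_cn4 {S : Set Pt} {a b : Pt} (h : Cn adj4 S a b) :
    Cn adj4 (Prod.swap ⁻¹' S) a.swap b.swap := t1t_cn (fun _ _ h => t1t_adj4 h) h

lemma t1t_cn8 {S : Set Pt} {a b : Pt} (h : Cn adj8 S a b) :
    Cn adj8 (Prod.swap ⁻¹' S) a.swap b.swap := t1t_cn (fun _ _ h => t1t_adj8 h) h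

lemma t1t_rc {a b c d : ℤ} {z : Pt} : z.swap ∈ rc a b c d ↔ z ∈ rc c d a b := by
  simp only [mem_rc, Prod.fst_swap, Prod.snd_swap]
  exact and_comm

lemma t1t_sub {a b c d : ℤ} {S : Set Pt} (h : S ⊆ rc a b c d) :
    Prod.swap ⁻¹' S ⊆ (rc c d a b : Set Pt) := by
  intro z hz
  have := h hz
  exact t1t_rc.1 this

theorem thm_T1t (h : St_T1) : St_T1t := by
  intro a b c d S S' p q p' q' hab hcd hS hS' hd h1 hp hq h2 hp' hq'
  refine h c d a b (Prod.swap ⁻¹' S) (Prod.swap ⁻¹' S') p.swap q.swap p'.swap q'.swap hcd hab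
    (t1t_sub hS) (t1t_sub hS') ?_ (t1t_cn4 h1) hp hq
    (t1t_cn8 h2) hp' hq'
  exact hd.preimage _

theorem thm_T2t (h : St_T2) : St_T2t := by
  intro a b c d S hab hcd
  rcases h c d a b (Prod.swap ⁻¹' S) hcd hab with ⟨p, q, hp, hq, h1⟩ | ⟨p, q, hp, hq, h1⟩
  · left
    refine ⟨p.swap, q.swap, hp, hq, ?_⟩
    refine (t1t_cn4 h1).mono ?_
    rintro z ⟨hz1, hz2⟩
    refine ⟨by simpa using hz1, ?_⟩
    exact t1t_rc.1 hz2
  · right
    refine ⟨p.swap, q.swap, hp, hq, ?_⟩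
    refine (t1t_cn8 h1).mono ?_
    rintro z ⟨hz1, hz2⟩
    refine ⟨t1t_rc.1 hz1, ?_⟩
    intro hz
    exact hz2 (by simpa using hz)

end MHL
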