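import Mathlib
import Pool.Agent.MHL.StA

/-!
# MHL: T2, the Hex theorem
-/

set_option autoImplicit false

namespace MHL

/-- value in `ZMod 2` of a Boolean -/
def t2_bz (b : Bool) : ZMod 2 := if b then 1 else 0

/-- outer end -/
def t2_o (p q r : Bool) : Bool := !q && (p || r)

set_option synthInstance.maxSize 4096 in
lemma t2_sq : ∀ a1 a2 a3 a4 b1 b2 b3 b4 : Bool,
    (a1 && b1) = false → (a2 && b2) = false → (a3 && b3) = false → (a4 && b4) = false →
    (t2_o a4 a1 a2 && t2_o a1 a2 a3 && (b1 != b2)) = false →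
    (t2_o a1 a2 a3 && t2_o a2 a3 a4 && (b2 != b3)) = false →
    (t2_o a2 a3 a4 && t2_o a3 a4 a1 && (b3 != b4)) = false →
    (t2_o a3 a4 a1 && t2_o a4 a1 a2 && (b4 != b1)) = false →
    (t2_o a4 a1 a2 && t2_o a2 a3 a4 && (b1 != b3)) = false →
    (t2_o a1 a2 a3 && t2_o a3 a4 a1 && (b2 != b4)) = false →
    (t2_bz a1 * t2_bz b2 + t2_bz a2 * t2_bz b1) + (t2_bz a2 * t2_bz b3 + t2_bz a3 * t2_bz b2)
      + (t2_bz a4 * t2_bz b3 + t2_bz a3 * t2_bz b4) + (t2_bz a1 * t2_bz b4 + t2_bz a4 * t2_bz b1)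
      = 0 := by
  decide

theorem thm_T2 : St_T2 := by
  classical
  intro a b c d S hab hcd
  by_contra hcon
  push Not at hcon
  obtain ⟨hno, hno8⟩ := hcon
  -- the points connected to the left column
  set A : Set Pt := {z | ∃ p : Pt, p.1 = a ∧ Cn adj4 (S ∩ rc a b c d) p z} with hA
  set A' : Set Pt := {z | z ∈ A ∨ z.1 = a - 1} with hA'
  set D : Set Pt := {z | ∃ p : Pt, p.2 = d ∧ Cn adj8 ((rc a b c d : Set Pt) \ S) p z} with hD
  have hAS : ∀ z ∈ A, z ∈ S ∩ (rc a b c d : Set Pt) := by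
    rintro z ⟨p, _, h⟩
    exact h.right
  have hDS : ∀ z ∈ D, z ∈ (rc a b c d : Set Pt) \ S := by
    rintro z ⟨p, _, h⟩
    exact h.right
  have hrc : ∀ x y : ℤ, (x, y) ∈ (rc a b c d : Set Pt) ↔ (a ≤ x ∧ x ≤ b) ∧ (c ≤ y ∧ y ≤ d) := by
    intro x y
    simp only [Finset.mem_coe, mem_rc]
  have hdisj : ∀ z, z ∈ A' → z ∉ D := by
    rintro z (h | h) hz
    · exact (hDS z hz).2 (hAS z h).1
    · have h1 := (hDS z hz).1
      obtain ⟨x, y⟩ := z
      rw [hrc] at h1
      simp only at h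
      omega
  have hb : ∀ y, (b, y) ∉ A' := by
    rintro y (h | h)
    · obtain ⟨p, hp, h⟩ := h
      exact hno p (b, y) hp rfl h
    · simp only at h
      omega
  -- outer ends
  have hout : ∀ x y x' y' : ℤ, a - 1 ≤ x' → x' ≤ b → c ≤ y' → y' ≤ d →
      adj4 (x, y) (x', y') → (x, y) ∈ A' → (x', y') ∉ A' →
      (x', y') ∈ (rc a b c d : Set Pt) \ S := by
    intro x y x' y' h1 h2 h3 h4 hadj hz hw
    have h5 : x' ≠ a - 1 := fun h => hw (Or.inr h)
    have h6 : (x', y') ∈ (rc a b c d : Set Pt) := by rw [hrc]; omega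
    refine ⟨h6, fun hS => hw (Or.inl ?_)⟩
    rcases hz with ⟨p, hp, hz⟩ | hz
    · exact ⟨p, hp, hz.step hadj ⟨hS, h6⟩⟩
    · simp only at hz
      refine ⟨(x', y'), ?_, Cn.refl ⟨hS, h6⟩⟩
      simp only
      rw [adj4_iff] at hadj
      simp only at hadj
      omega
  set α : ℤ → ℤ → Bool := fun x y => decide ((x, y) ∈ A') with hα
  set β : ℤ → ℤ → Bool := fun x y => decide ((x, y) ∈ D) with hβ
  have hαt : ∀ x y, α x y = true ↔ (x, y) ∈ A' := fun x y => decide_eq_true_iff
  have hβt : ∀ x y, β x y = true ↔ (x, y) ∈ D := fun x y => decide_eq_true_iff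
  set gh : ℤ → ℤ → ZMod 2 := fun x y =>
    t2_bz (α x y) * t2_bz (β (x + 1) y) + t2_bz (α (x + 1) y) * t2_bz (β x y) with hgh
  set gv : ℤ → ℤ → ZMod 2 := fun x y =>
    t2_bz (α x y) * t2_bz (β x (y + 1)) + t2_bz (α x (y + 1)) * t2_bz (β x y) with hgv
  have hab' : ∀ x y, (α x y && β x y) = false := by
    intro x y
    rw [Bool.and_eq_false_iff]
    by_cases h : (x, y) ∈ A'
    · right
      rw [← Bool.not_eq_true, hβt]
      exact hdisj _ h
    · left
      rw [← Bool.not_eq_true, hαt]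
      exact h
  -- outer ends in a square
  have ho : ∀ x y x1 y1 x2 y2 : ℤ, a - 1 ≤ x → x ≤ b → c ≤ y → y ≤ d →
      adj4 (x1, y1) (x, y) → adj4 (x2, y2) (x, y) → t2_o (α x1 y1) (α x y) (α x2 y2) = true →
      (x, y) ∈ (rc a b c d : Set Pt) \ S := by
    intro x y x1 y1 x2 y2 h1 h2 h3 h4 hadj1 hadj2 h
    unfold t2_o at h
    rw [Bool.and_eq_true, Bool.not_eq_true', Bool.or_eq_true, hαt, hαt, ← Bool.not_eq_true,
      hαt] at h
    rcases h.2 with h5 | h5
    · exact hout x1 y1 x y h1 h2 h3 h4 hadj1 h5 h.1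
    · exact hout x2 y2 x y h1 h2 h3 h4 hadj2 h5 h.1
  have hDstep : ∀ z w : Pt, adj8 z w → z ∈ (rc a b c d : Set Pt) \ S →
      w ∈ (rc a b c d : Set Pt) \ S → z ∈ D → w ∈ D := by
    rintro z w hzw _ hw ⟨p, hp, h⟩
    exact ⟨p, hp, h.step hzw hw⟩
  have hDiff : ∀ x y x' y' : ℤ, adj8 (x, y) (x', y') → (x, y) ∈ (rc a b c d : Set Pt) \ S →
      (x', y') ∈ (rc a b c d : Set Pt) \ S → (β x y != β x' y') = false := by
    intro x y x' y' hadj h1 h2
    have h3 : (x, y) ∈ D ↔ (x', y') ∈ D :=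
      ⟨hDstep _ _ hadj h1 h2, hDstep _ _ (adj8_symm hadj) h2 h1⟩
    have h4 : β x y = β x' y' := by
      rw [Bool.eq_iff_iff, hβt, hβt]; exact h3
    rw [h4, bne_self_eq_false]
  have hpair : ∀ p q r : Bool, (p = true → q = true → r = false) → (p && q && r) = false := by
    decide
  have hsq : ∀ x y : ℤ, a - 1 ≤ x → x < b → c ≤ y → y < d →
      gh x y + gv (x + 1) y + gh x (y + 1) + gv x y = 0 := by
    intro x y h1 h2 h3 h4
    have A12 : adj4 (x, y) (x + 1, y) := by rw [adj4_iff]; simp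
    have A23 : adj4 (x + 1, y) (x + 1, y + 1) := by rw [adj4_iff]; simp
    have A43 : adj4 (x, y + 1) (x + 1, y + 1) := by rw [adj4_iff]; simp
    have A14 : adj4 (x, y) (x, y + 1) := by rw [adj4_iff]; simp
    have o1 : t2_o (α x (y + 1)) (α x y) (α (x + 1) y) = true →
        (x, y) ∈ (rc a b c d : Set Pt) \ S :=
      ho x y x (y + 1) (x + 1) y (by omega) (by omega) (by omega) (by omega)
        (adj4_symm A14) (adj4_symm A12)
    have o2 : t2_o (α x y) (α (x + 1) y) (α (x + 1) (y + 1)) = true →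
        (x + 1, y) ∈ (rc a b c d : Set Pt) \ S :=
      ho (x + 1) y x y (x + 1) (y + 1) (by omega) (by omega) (by omega) (by omega)
        A12 (adj4_symm A23)
    have o3 : t2_o (α (x + 1) y) (α (x + 1) (y + 1)) (α x (y + 1)) = true →
        (x + 1, y + 1) ∈ (rc a b c d : Set Pt) \ S :=
      ho (x + 1) (y + 1) (x + 1) y x (y + 1) (by omega) (by omega) (by omega) (by omega)
        A23 A43
    have o4 : t2_o (α (x + 1) (y + 1)) (α x (y + 1)) (α x y) = true →
        (x, y + 1) ∈ (rc a b c d : Set Pt) \ S :=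
      ho x (y + 1) (x + 1) (y + 1) x y (by omega) (by omega) (by omega) (by omega)
        (adj4_symm A43) A14
    have key := t2_sq (α x y) (α (x + 1) y) (α (x + 1) (y + 1)) (α x (y + 1))
      (β x y) (β (x + 1) y) (β (x + 1) (y + 1)) (β x (y + 1))
      (hab' _ _) (hab' _ _) (hab' _ _) (hab' _ _)
      (hpair _ _ _ fun u v => hDiff _ _ _ _ (adj4_adj8 A12) (o1 u) (o2 v))
      (hpair _ _ _ fun u v => hDiff _ _ _ _ (adj4_adj8 A23) (o2 u) (o3 v))
      (hpair _ _ _ fun u v => hDiff _ _ _ _ (adj4_adj8 (adj4_symm A43)) (o3 u) (o4 v))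
      (hpair _ _ _ fun u v => hDiff _ _ _ _ (adj4_adj8 (adj4_symm A14)) (o4 u) (o1 v))
      (hpair _ _ _ fun u v => hDiff _ _ _ _ (by unfold adj8; simp) (o1 u) (o3 v))
      (hpair _ _ _ fun u v => hDiff _ _ _ _ (by unfold adj8; simp) (o2 u) (o4 v))
    simp only [hgh, hgv]
    rw [← key]
  have h2z : ∀ u : ZMod 2, u + u = 0 := by decide
  -- sums along the rows
  have hsum : ∀ y : ℤ, c ≤ y → y < d → ∀ n : ℕ, a - 1 + n ≤ b →
      (∑ i ∈ Finset.range n, gh (a - 1 + i) y) + (∑ i ∈ Finset.range n, gh (a - 1 + i) (y + 1))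
        = gv (a - 1) y + gv (a - 1 + n) y := by
    intro y h1 h2 n
    induction n with
    | zero =>
      intro _
      simp only [Finset.range_zero, Finset.sum_empty, Nat.cast_zero, add_zero]
      exact (h2z _).symm
    | succ n ih =>
      intro hn
      push_cast at hn
      have ih' := ih (by omega)
      have h3 := hsq (a - 1 + n) y (by omega) (by omega) h1 h2
      have e : a - 1 + ((n + 1 : ℕ) : ℤ) = a - 1 + n + 1 := by push_cast; ring
      rw [Finset.sum_range_succ, Finset.sum_range_succ, e]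
      have h5 := h2z (gv (a - 1 + n + 1) y)
      linear_combination ih' + h3 - h5
  obtain ⟨n, hn⟩ : ∃ n : ℕ, a - 1 + n = b := ⟨(b - a + 1).toNat, by omega⟩
  have hrow : ∀ y : ℤ, c ≤ y → y < d →
      (∑ i ∈ Finset.range n, gh (a - 1 + i) y) = ∑ i ∈ Finset.range n, gh (a - 1 + i) (y + 1) := by
    intro y h1 h2
    have h3 := hsum y h1 h2 n hn.le
    rw [hn] at h3
    have h4 : gv (a - 1) y = 0 := by
      have e1 : β (a - 1) y = false := by
        have := hab' (a - 1) y
        have h5 : α (a - 1) y = true := (hαt _ _).2 (Or.inr rfl)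
        rw [h5] at this
        simpa using this
      have e2 : β (a - 1) (y + 1) = false := by
        have := hab' (a - 1) (y + 1)
        have h5 : α (a - 1) (y + 1) = true := (hαt _ _).2 (Or.inr rfl)
        rw [h5] at this
        simpa using this
      simp only [hgv]
      rw [e1, e2]
      simp [t2_bz]
    have h5 : gv b y = 0 := by
      have e1 : α b y = false := by
        rw [← Bool.not_eq_true, hαt]; exact hb y
      have e2 : α b (y + 1) = false := by
        rw [← Bool.not_eq_true, hαt]; exact hb (y + 1)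
      simp only [hgv]
      rw [e1, e2]
      simp [t2_bz]
    rw [h4, h5, add_zero] at h3
    have h6 := h2z (∑ i ∈ Finset.range n, gh (a - 1 + i) (y + 1))
    linear_combination h3 - h6
  have hall : ∀ m : ℕ, c + m ≤ d →
      (∑ i ∈ Finset.range n, gh (a - 1 + i) c) = ∑ i ∈ Finset.range n, gh (a - 1 + i) (c + m) := by
    intro m
    induction m with
    | zero => intro _; simp
    | succ m ih =>
      intro hm
      push_cast at hm
      rw [ih (by omega), hrow (c + m) (by omega) (by omega)]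
      have e : c + ((m + 1 : ℕ) : ℤ) = c + m + 1 := by push_cast; ring
      rw [e]
  have htop1 : ∀ x : ℤ, a - 1 ≤ x → x < b → gh x d = t2_bz (α x d) + t2_bz (α (x + 1) d) := by
    intro x h1 h2
    have A12 : adj4 (x, d) (x + 1, d) := by rw [adj4_iff]; simp
    have hin : ∀ x' : ℤ, (x', d) ∈ (rc a b c d : Set Pt) \ S → β x' d = true := by
      intro x' h
      rw [hβt]
      exact ⟨(x', d), rfl, Cn.refl h⟩
    have key : ∀ a1 a2 b1 b2 : Bool, (a1 && b1) = false → (a2 && b2) = false →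
        (a1 = true → a2 = false → b2 = true) → (a2 = true → a1 = false → b1 = true) →
        t2_bz a1 * t2_bz b2 + t2_bz a2 * t2_bz b1 = t2_bz a1 + t2_bz a2 := by decide
    apply key _ _ _ _ (hab' _ _) (hab' _ _)
    · intro u v
      apply hin
      rw [hαt] at u
      rw [← Bool.not_eq_true, hαt] at v
      exact hout x d (x + 1) d (by omega) (by omega) hcd le_rfl A12 u v
    · intro u v
      apply hin
      rw [hαt] at u
      rw [← Bool.not_eq_true, hαt] at v
      exact hout (x + 1) d x d (by omega) (by omega) hcd le_rfl (adj4_symm A12) u v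
  have htop : ∀ m : ℕ, a - 1 + m ≤ b →
      (∑ i ∈ Finset.range m, gh (a - 1 + i) d) = t2_bz (α (a - 1) d) + t2_bz (α (a - 1 + m) d) := by
    intro m
    induction m with
    | zero =>
      intro _
      simp only [Finset.range_zero, Finset.sum_empty, Nat.cast_zero, add_zero]
      exact (h2z _).symm
    | succ m ih =>
      intro hm
      push_cast at hm
      rw [Finset.sum_range_succ, ih (by omega), htop1 (a - 1 + m) (by omega) (by omega)]
      have e : a - 1 + ((m + 1 : ℕ) : ℤ) = a - 1 + m + 1 := by push_cast; ring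
      rw [e]
      have h4 := h2z (t2_bz (α (a - 1 + m) d))
      linear_combination h4
  obtain ⟨m, hm⟩ : ∃ m : ℕ, c + m = d := ⟨(d - c).toNat, by omega⟩
  have h1 := hall m hm.le
  rw [hm, htop n hn.le, hn] at h1
  have h2 : α (a - 1) d = true := (hαt _ _).2 (Or.inr rfl)
  have h3 : α b d = false := by
    rw [← Bool.not_eq_true, hαt]; exact hb d
  rw [h2, h3] at h1
  have h4 : ∑ i ∈ Finset.range n, gh (a - 1 + i) c ≠ 0 := by
    rw [h1]; decide
  obtain ⟨i, _, hi⟩ := Finset.exists_ne_zero_of_sum_ne_zero h4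
  have h5 : ∃ x : ℤ, (x, c) ∈ D := by
    by_contra hcon
    push Not at hcon
    apply hi
    have e : ∀ x, β x c = false := by
      intro x
      rw [← Bool.not_eq_true, hβt]; exact hcon x
    simp only [hgh]
    rw [e, e]
    simp [t2_bz]
  obtain ⟨x, p, hp, hx⟩ := h5
  exact hno8 (x, c) p rfl hp hx.symm8

end MHL
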