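import Pool.Agent.MHL.StA

/-!
# MHL / T3: filling of a connected set
-/

set_option autoImplicit false

namespace MHL

theorem thm_T3 : St_T3 := by
  intro R A0 w0 hR hsub hA hne _ _
  have h1 : A0 ⊆ R \ comp (R \ A0) w0 := by
    intro z hz
    exact ⟨hsub hz, fun h => (comp_sub h).2 hz⟩
  obtain ⟨a0, ha0⟩ := hne
  have key : ∀ z ∈ R \ comp (R \ A0) w0, Cn adj4 (R \ comp (R \ A0) w0) z a0 := by
    intro z hz
    by_cases hzA : z ∈ A0
    · exact (hA z hzA a0 ha0).mono h1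
    have hz' : z ∈ R \ A0 := ⟨hz.1, hzA⟩
    have hp := (hR z hz.1 a0 (hsub ha0)).induct
      (p := fun x => (Cn adj4 (R \ comp (R \ A0) w0) z x ∧ x ∈ comp (R \ A0) z) ∨
        ∃ a ∈ A0, Cn adj4 (R \ comp (R \ A0) w0) z a)
      (Or.inl ⟨Cn.refl hz, mem_comp_self hz'⟩) (by
        intro x y _ hy hxy hx
        rcases hx with ⟨hx1, hx2⟩ | hx
        · by_cases hyA : y ∈ A0
          · exact Or.inr ⟨y, hyA, hx1.step hxy (h1 hyA)⟩
          · have hy' : y ∈ R \ A0 := ⟨hy, hyA⟩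
            have hyc : y ∈ comp (R \ A0) z := comp_step hx2 hxy hy'
            refine Or.inl ⟨hx1.step hxy ⟨hy, fun hyB => ?_⟩, hyc⟩
            apply hz.2
            have e1 : Cn adj4 (R \ A0) w0 y := hyB
            have e2 : Cn adj4 (R \ A0) z y := hyc
            exact e1.trans e2.symm4
        · exact Or.inr hx)
    rcases hp with ⟨_, hp⟩ | ⟨a, ha, hp⟩
    · exact absurd ha0 (comp_sub hp).2
    · exact hp.trans ((hA a ha a0 ha0).mono h1)
  refine ⟨h1, ?_, con_comp, ?_⟩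
  · intro z hz w hw
    exact (key z hz).trans (key w hw).symm4
  · intro z w hz hzB hw hzw
    by_contra hzA
    exact hzB (comp_step hw (adj4_symm hzw) ⟨hz, hzA⟩)

end MHL
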