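import Pool.Agent.MHL.StA

/-!
# MHL: disjoint connected sets do not alternate on the boundary of a rectangle
-/

set_option autoImplicit false

namespace MHL

lemma t4_adj_left (x y : ℤ) : adj4 (x, y) (x - 1, y) := by
  rw [adj4_iff]; left; simp

lemma t4_adj_right (x y : ℤ) : adj4 (x, y) (x + 1, y) := by
  rw [adj4_iff]; left; simp

lemma t4_adj_up (x y : ℤ) : adj4 (x, y) (x, y + 1) := by
  rw [adj4_iff]; right; simp

lemma t4_adj_down (x y : ℤ) : adj4 (x, y) (x, y - 1) := by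
  rw [adj4_iff]; right; simp

lemma t4_one (h : St_T1) {a b c d : ℤ} {U B : Set Pt} (hab : a ≤ b) (hcd : c ≤ d)
    (hU : U ⊆ rc a b c d) (hB : B ⊆ rc a b c d) (hd : Disjoint U B) (cU : Con U) (cB : Con B)
    (h1 : (a, d) ∈ U) (h2 : (a, c) ∈ B) {y1 y2 : ℤ} (hy : y1 < y2) (h3 : (a, y1) ∈ U)
    (h4 : (a, y2) ∈ B) : False := by
  have e3 := mem_rc.1 (hU h3)
  have e4 := mem_rc.1 (hB h4)
  simp only at e3 e4
  set S : Set Pt := U ∪ {z | z = (a - 1, y1) ∨ (z.2 = d + 1 ∧ a ≤ z.1 ∧ z.1 ≤ b)} with hS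
  set S' : Set Pt := B ∪ {z | z.1 = a - 1 ∧ y2 ≤ z.2 ∧ z.2 ≤ d + 1} with hS'
  have hUS : U ⊆ S := Set.subset_union_left
  have hBS : B ⊆ S' := Set.subset_union_left
  have memS : ∀ x : ℤ, a ≤ x → x ≤ b → (x, d + 1) ∈ S := fun x hx1 hx2 =>
    Or.inr (Or.inr ⟨rfl, hx1, hx2⟩)
  have memS' : ∀ y : ℤ, y2 ≤ y → y ≤ d + 1 → (a - 1, y) ∈ S' := fun y hy1 hy2 =>
    Or.inr ⟨rfl, hy1, hy2⟩
  refine h (a - 1) b c (d + 1) S S' (a - 1, y1) (b, d + 1) (a, c) (a - 1, d + 1) (by omega)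
    (by omega) ?_ ?_ ?_ ?_ rfl rfl ?_ rfl rfl
  · rintro ⟨x, y⟩ (hz | hz | hz)
    · have := mem_rc.1 (hU hz)
      rw [Finset.mem_coe, mem_rc]
      simp only at this ⊢
      omega
    · rw [Finset.mem_coe, mem_rc, hz]
      simp only
      omega
    · rw [Finset.mem_coe, mem_rc]
      simp only at hz ⊢
      omega
  · rintro ⟨x, y⟩ (hz | hz)
    · have := mem_rc.1 (hB hz)
      rw [Finset.mem_coe, mem_rc]
      simp only at this ⊢
      omega
    · rw [Finset.mem_coe, mem_rc]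
      simp only [Set.mem_ofPred_eq] at hz ⊢
      omega
  · rw [Set.disjoint_left]
    rintro ⟨x, y⟩ (hz | hz | hz) (hw | hw)
    · exact Set.disjoint_left.1 hd hz hw
    · have := mem_rc.1 (hU hz)
      simp only [Set.mem_ofPred_eq] at this hw
      omega
    · have := mem_rc.1 (hB hw)
      rw [Prod.mk.injEq] at hz
      simp only at this
      omega
    · rw [Prod.mk.injEq] at hz
      simp only [Set.mem_ofPred_eq] at hw
      omega
    · have := mem_rc.1 (hB hw)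
      simp only at this hz
      omega
    · simp only [Set.mem_ofPred_eq] at hw hz
      omega
  · have p1 : Cn adj4 S (a - 1, y1) (a, y1) :=
      (Cn.single (hUS h3) (t4_adj_left a y1) (Or.inr (Or.inl rfl))).symm4
    have p2 : Cn adj4 S (a, y1) (a, d) := (cU _ h3 _ h1).mono hUS
    have p3 : Cn adj4 S (a, d) (a, d + 1) :=
      Cn.single (hUS h1) (t4_adj_up a d) (memS a le_rfl hab)
    have p4 : Cn adj4 S (a, d + 1) (b, d + 1) := cn_hor hab memS
    exact ((p1.trans p2).trans p3).trans p4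
  · have p1 : Cn adj4 S' (a, c) (a, y2) := (cB _ h2 _ h4).mono hBS
    have p2 : Cn adj4 S' (a, y2) (a - 1, y2) :=
      Cn.single (hBS h4) (t4_adj_left a y2) (memS' y2 le_rfl (by omega))
    have p3 : Cn adj4 S' (a - 1, y2) (a - 1, d + 1) := cn_vert (by omega) memS'
    exact ((p1.trans p2).trans p3).to8

lemma t4_two (h : St_T1) {a b c d : ℤ} {U B : Set Pt} (hab : a ≤ b) (hcd : c ≤ d)
    (hU : U ⊆ rc a b c d) (hB : B ⊆ rc a b c d) (hd : Disjoint U B) (cU : Con U) (cB : Con B)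
    (h1 : (a, d) ∈ U) (h2 : (a, c) ∈ B) {y1 y2 : ℤ} (hy : y1 < y2) (h3 : (b, y1) ∈ U)
    (h4 : (b, y2) ∈ B) : False := by
  have e3 := mem_rc.1 (hU h3)
  have e4 := mem_rc.1 (hB h4)
  simp only at e3 e4
  set S : Set Pt := U ∪ {z | z = (b + 1, y1)} with hS
  set S' : Set Pt := B ∪ {z | z.1 = b + 1 ∧ y2 ≤ z.2 ∧ z.2 ≤ d} with hS'
  have hUS : U ⊆ S := Set.subset_union_left
  have hBS : B ⊆ S' := Set.subset_union_left
  have memS' : ∀ y : ℤ, y2 ≤ y → y ≤ d → (b + 1, y) ∈ S' := fun y hy1 hy2 =>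
    Or.inr ⟨rfl, hy1, hy2⟩
  refine h a (b + 1) c d S S' (a, d) (b + 1, y1) (a, c) (b + 1, d) (by omega)
    hcd ?_ ?_ ?_ ?_ rfl rfl ?_ rfl rfl
  · rintro ⟨x, y⟩ (hz | hz)
    · have := mem_rc.1 (hU hz)
      rw [Finset.mem_coe, mem_rc]
      simp only at this ⊢
      omega
    · rw [Set.mem_ofPred_eq] at hz
      rw [Finset.mem_coe, mem_rc, hz]
      simp only
      omega
  · rintro ⟨x, y⟩ (hz | hz)
    · have := mem_rc.1 (hB hz)
      rw [Finset.mem_coe, mem_rc]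
      simp only at this ⊢
      omega
    · rw [Finset.mem_coe, mem_rc]
      simp only [Set.mem_ofPred_eq] at hz ⊢
      omega
  · rw [Set.disjoint_left]
    rintro ⟨x, y⟩ (hz | hz) (hw | hw)
    · exact Set.disjoint_left.1 hd hz hw
    · have := mem_rc.1 (hU hz)
      simp only [Set.mem_ofPred_eq] at this hw
      omega
    · have := mem_rc.1 (hB hw)
      rw [Set.mem_ofPred_eq, Prod.mk.injEq] at hz
      simp only at this
      omega
    · rw [Set.mem_ofPred_eq, Prod.mk.injEq] at hz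
      simp only [Set.mem_ofPred_eq] at hw
      omega
  · have p1 : Cn adj4 S (a, d) (b, y1) := (cU _ h1 _ h3).mono hUS
    exact p1.trans (Cn.single (hUS h3) (t4_adj_right b y1) (Or.inr rfl))
  · have p1 : Cn adj4 S' (a, c) (b, y2) := (cB _ h2 _ h4).mono hBS
    have p2 : Cn adj4 S' (b, y2) (b + 1, y2) :=
      Cn.single (hBS h4) (t4_adj_right b y2) (memS' y2 le_rfl (by omega))
    have p3 : Cn adj4 S' (b + 1, y2) (b + 1, d) := cn_vert (by omega) memS'
    exact ((p1.trans p2).trans p3).to8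

lemma t4_three (h : St_T1) {a b c d : ℤ} {U B : Set Pt} (hab : a ≤ b) (hcd : c ≤ d)
    (hU : U ⊆ rc a b c d) (hB : B ⊆ rc a b c d) (hd : Disjoint U B) (cU : Con U) (cB : Con B)
    (h1 : (a, d) ∈ U) (h2 : (a, c) ∈ B) {x1 x2 : ℤ} (hx : x1 < x2) (h3 : (x1, d) ∈ B)
    (h4 : (x2, d) ∈ U) : False := by
  have e3 := mem_rc.1 (hB h3)
  have e4 := mem_rc.1 (hU h4)
  simp only at e3 e4
  set S : Set Pt := U ∪ {z | z.2 = d + 1 ∧ x2 ≤ z.1 ∧ z.1 ≤ b} with hS
  set S' : Set Pt := B ∪ {z | z = (x1, d + 1)} with hS'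
  have hUS : U ⊆ S := Set.subset_union_left
  have hBS : B ⊆ S' := Set.subset_union_left
  have memS : ∀ x : ℤ, x2 ≤ x → x ≤ b → (x, d + 1) ∈ S := fun x hx1 hx2 =>
    Or.inr ⟨rfl, hx1, hx2⟩
  refine h a b c (d + 1) S S' (a, d) (b, d + 1) (a, c) (x1, d + 1) hab
    (by omega) ?_ ?_ ?_ ?_ rfl rfl ?_ rfl rfl
  · rintro ⟨x, y⟩ (hz | hz)
    · have := mem_rc.1 (hU hz)
      rw [Finset.mem_coe, mem_rc]
      simp only at this ⊢
      omega
    · rw [Finset.mem_coe, mem_rc]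
      simp only [Set.mem_ofPred_eq] at hz ⊢
      omega
  · rintro ⟨x, y⟩ (hz | hz)
    · have := mem_rc.1 (hB hz)
      rw [Finset.mem_coe, mem_rc]
      simp only at this ⊢
      omega
    · rw [Set.mem_ofPred_eq] at hz
      rw [Finset.mem_coe, mem_rc, hz]
      simp only
      omega
  · rw [Set.disjoint_left]
    rintro ⟨x, y⟩ (hz | hz) (hw | hw)
    · exact Set.disjoint_left.1 hd hz hw
    · have := mem_rc.1 (hU hz)
      rw [Set.mem_ofPred_eq, Prod.mk.injEq] at hw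
      simp only at this
      omega
    · have := mem_rc.1 (hB hw)
      simp only [Set.mem_ofPred_eq] at this hz
      omega
    · rw [Set.mem_ofPred_eq, Prod.mk.injEq] at hw
      simp only [Set.mem_ofPred_eq] at hz
      omega
  · have p1 : Cn adj4 S (a, d) (x2, d) := (cU _ h1 _ h4).mono hUS
    have p2 : Cn adj4 S (x2, d) (x2, d + 1) :=
      Cn.single (hUS h4) (t4_adj_up x2 d) (memS x2 le_rfl (by omega))
    have p3 : Cn adj4 S (x2, d + 1) (b, d + 1) := cn_hor (by omega) memS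
    exact (p1.trans p2).trans p3
  · have p1 : Cn adj4 S' (a, c) (x1, d) := (cB _ h2 _ h3).mono hBS
    exact (p1.trans (Cn.single (hBS h3) (t4_adj_up x1 d) (Or.inr rfl))).to8

lemma t4_five (h : St_T1) {a b c d : ℤ} {U B : Set Pt} (hab : a ≤ b) (hcd : c ≤ d)
    (hU : U ⊆ rc a b c d) (hB : B ⊆ rc a b c d) (hd : Disjoint U B) (cU : Con U) (cB : Con B)
    (h1 : (a, d) ∈ U) (h2 : (a, c) ∈ B) {x1 x2 : ℤ} (hx : x1 < x2) (h3 : (x1, c) ∈ U)
    (h4 : (x2, c) ∈ B) : False := by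
  have e3 := mem_rc.1 (hU h3)
  have e4 := mem_rc.1 (hB h4)
  simp only at e3 e4
  set S : Set Pt := B ∪ {z | z.2 = c - 1 ∧ x2 ≤ z.1 ∧ z.1 ≤ b} with hS
  set S' : Set Pt := U ∪ {z | z = (x1, c - 1)} with hS'
  have hBS : B ⊆ S := Set.subset_union_left
  have hUS : U ⊆ S' := Set.subset_union_left
  have memS : ∀ x : ℤ, x2 ≤ x → x ≤ b → (x, c - 1) ∈ S := fun x hx1 hx2 =>
    Or.inr ⟨rfl, hx1, hx2⟩
  refine h a b (c - 1) d S S' (a, c) (b, c - 1) (x1, c - 1) (a, d) hab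
    (by omega) ?_ ?_ ?_ ?_ rfl rfl ?_ rfl rfl
  · rintro ⟨x, y⟩ (hz | hz)
    · have := mem_rc.1 (hB hz)
      rw [Finset.mem_coe, mem_rc]
      simp only at this ⊢
      omega
    · rw [Finset.mem_coe, mem_rc]
      simp only [Set.mem_ofPred_eq] at hz ⊢
      omega
  · rintro ⟨x, y⟩ (hz | hz)
    · have := mem_rc.1 (hU hz)
      rw [Finset.mem_coe, mem_rc]
      simp only at this ⊢
      omega
    · rw [Set.mem_ofPred_eq] at hz
      rw [Finset.mem_coe, mem_rc, hz]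
      simp only
      omega
  · rw [Set.disjoint_left]
    rintro ⟨x, y⟩ (hz | hz) (hw | hw)
    · exact Set.disjoint_left.1 hd hw hz
    · have := mem_rc.1 (hB hz)
      rw [Set.mem_ofPred_eq, Prod.mk.injEq] at hw
      simp only at this
      omega
    · have := mem_rc.1 (hU hw)
      simp only [Set.mem_ofPred_eq] at this hz
      omega
    · rw [Set.mem_ofPred_eq, Prod.mk.injEq] at hw
      simp only [Set.mem_ofPred_eq] at hz
      omega
  · have p1 : Cn adj4 S (a, c) (x2, c) := (cB _ h2 _ h4).mono hBS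
    have p2 : Cn adj4 S (x2, c) (x2, c - 1) :=
      Cn.single (hBS h4) (t4_adj_down x2 c) (memS x2 le_rfl (by omega))
    have p3 : Cn adj4 S (x2, c - 1) (b, c - 1) := cn_hor (by omega) memS
    exact (p1.trans p2).trans p3
  · have p1 : Cn adj4 S' (a, d) (x1, c) := (cU _ h1 _ h3).mono hUS
    exact (p1.trans (Cn.single (hUS h3) (t4_adj_down x1 c) (Or.inr rfl))).to8.symm8

theorem thm_T4 (h : St_T1) : St_T4 := by
  intro a b c d U B hab hcd hU hB hd cU cB h1 h2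
  refine ⟨fun y1 y2 hy h3 h4 => t4_one h hab hcd hU hB hd cU cB h1 h2 hy h3 h4,
    fun y1 y2 hy h3 h4 => t4_two h hab hcd hU hB hd cU cB h1 h2 hy h3 h4,
    fun x1 x2 hx h3 h4 => t4_three h hab hcd hU hB hd cU cB h1 h2 hx h3 h4, ?_,
    fun x1 x2 hx h3 h4 => t4_five h hab hcd hU hB hd cU cB h1 h2 hx h3 h4, ?_⟩
  · intro x y h3 h4
    exact h a b c d U B (a, d) (b, y) (a, c) (x, d) hab hcd hU hB hd (cU _ h1 _ h4) rfl rfl
      (cB _ h2 _ h3).to8 rfl rfl
  · intro x y h3 h4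
    exact h a b c d B U (a, c) (b, y) (x, c) (a, d) hab hcd hB hU hd.symm (cB _ h2 _ h4) rfl rfl
      (cU _ h3 _ h1).to8 rfl rfl

end MHL
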