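import Pool.Agent.MHL.Defs
import Pool.Agent.MHL.Api
import Pool.Agent.MHL.StA

set_option autoImplicit false

namespace MHL

theorem thm_T5 : St_T5 := by
  intro r f S p q α β hr hαβ hpq hp hq
  by_contra hcon
  have hend : ∀ z, (∃ p', f p' = α ∧ Cn r (S ∩ {z | α ≤ f z ∧ f z ≤ β}) p' z) → f z ≠ β := by
    rintro z ⟨p', hp', hc⟩ hz
    exact hcon ⟨p', z, hp', hz, hc⟩
  have key : f q < α ∨ ∃ p', f p' = α ∧ Cn r (S ∩ {z | α ≤ f z ∧ f z ≤ β}) p' q := by
    refine Cn.induct (p := fun z => f z < α ∨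
      ∃ p', f p' = α ∧ Cn r (S ∩ {z | α ≤ f z ∧ f z ≤ β}) p' z) hpq ?_ ?_
    · rcases lt_or_eq_of_le hp with h | h
      · exact Or.inl h
      · exact Or.inr ⟨p, h, Cn.refl ⟨hpq.1, h.ge, h.le.trans hαβ⟩⟩
    · intro x y hx hy hxy h
      have hl := abs_le.1 (hr x y hxy)
      rcases h with h | ⟨p', hp', hc⟩
      · rcases lt_trichotomy (f y) α with h' | h' | h'
        · exact Or.inl h'
        · exact Or.inr ⟨y, h', Cn.refl ⟨hy, h'.ge, h'.le.trans hαβ⟩⟩
        · omega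
      · have h1 : f x ≠ β := hend x ⟨p', hp', hc⟩
        have h2 := hc.right.2
        have h3 : f x ≤ β := h2.2
        rcases lt_or_ge (f y) α with h' | h'
        · exact Or.inl h'
        · refine Or.inr ⟨p', hp', hc.step hxy ⟨hy, h', ?_⟩⟩
          omega
  rcases key with h | h
  · omega
  · obtain ⟨p', hp', hc⟩ := h
    have h1 : f q ≤ β := hc.right.2.2
    exact hend q ⟨p', hp', hc⟩ (le_antisymm h1 hq)

end MHL
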