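import Pool.Agent.MHL.StA

/-!
# MHL: a connected set above a left-right 8-crossing does not meet the bottom side
-/

set_option autoImplicit false

namespace MHL

lemma t6_mem {a b c d p q : ℤ} : ((p, q) ∈ (rc a b c d : Set Pt)) ↔
    (a ≤ p ∧ p ≤ b) ∧ (c ≤ q ∧ q ≤ d) := by
  rw [Finset.mem_coe, mem_rc]

theorem thm_T6 (h : St_T1t) : St_T6 := by
  intro a b c d yp ym S S' q hab hcd hS hS' hd hC hp hlt hq hqb x hx
  have hpR := t6_mem.1 (hS hp)
  have hmR := t6_mem.1 (hS' hq.left)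
  set P : Set Pt := S ∪ {z | z.1 = a - 1 ∧ yp ≤ z.2 ∧ z.2 ≤ d} with hP
  set Q : Set Pt := S' ∪ {(a - 1, ym)} with hQ
  have hPsub : P ⊆ rc (a - 1) b c d := by
    rintro ⟨p1, p2⟩ (h1 | h1)
    · have := t6_mem.1 (hS h1)
      exact t6_mem.2 (by omega)
    · simp only [Set.mem_ofPred_eq] at h1
      exact t6_mem.2 (by omega)
  have hQsub : Q ⊆ rc (a - 1) b c d := by
    rintro ⟨p1, p2⟩ (h1 | h1)
    · have := t6_mem.1 (hS' h1)
      exact t6_mem.2 (by omega)
    · simp only [Set.mem_singleton_iff, Prod.mk.injEq] at h1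
      exact t6_mem.2 (by omega)
  have hPQ : Disjoint P Q := by
    rw [Set.disjoint_left]
    rintro ⟨p1, p2⟩ (h1 | h1) (h2 | h2)
    · exact Set.disjoint_left.1 hd h1 h2
    · have := t6_mem.1 (hS h1)
      simp only [Set.mem_singleton_iff, Prod.mk.injEq] at h2
      omega
    · have := t6_mem.1 (hS' h2)
      simp only [Set.mem_ofPred_eq] at h1
      omega
    · simp only [Set.mem_ofPred_eq] at h1
      simp only [Set.mem_singleton_iff, Prod.mk.injEq] at h2
      omega
  have c1 : Cn adj4 P (x, c) (a, yp) := (hC _ hx _ hp).mono Set.subset_union_left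
  have c2 : Cn adj4 P (a, yp) (a - 1, yp) := by
    refine Cn.single (Or.inl hp) ?_ (Or.inr ?_)
    · rw [adj4_iff]; left; simp
    · exact ⟨rfl, le_rfl, by omega⟩
  have c3 : Cn adj4 P (a - 1, yp) (a - 1, d) := by
    refine cn_vert (by omega) fun y h1 h2 => Or.inr ?_
    simp only [Set.mem_ofPred_eq]
    exact ⟨trivial, h1, h2⟩
  have c4 : Cn adj8 Q (a - 1, ym) (a, ym) := by
    refine Cn.single (Or.inr rfl) ?_ (Or.inl hq.left)
    constructor <;> simp
  have c5 : Cn adj8 Q (a, ym) q := hq.mono Set.subset_union_left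
  exact h (a - 1) b c d P Q (x, c) (a - 1, d) (a - 1, ym) q (by omega) hcd hPsub hQsub hPQ
    ((c1.trans c2).trans c3) rfl rfl (c4.trans c5) rfl hqb

end MHL
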