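import Pool.Agent.MHL.StC

/-!
# MHL module TB: the trivial bound (L-shaped path)
-/

set_option autoImplicit false

namespace MHL

lemma tb_cs (g : ℤ → ℝ) (a : ℤ) (n : ℕ) :
    (g (a + n) - g a) ^ 2 ≤ n * ∑ k ∈ Finset.range n, (g (a + k + 1) - g (a + k)) ^ 2 := by
  have h1 : g (a + n) - g a = ∑ k ∈ Finset.range n, (g (a + k + 1) - g (a + k)) := by
    induction n with
    | zero => simp
    | succ n ih =>
      rw [Finset.sum_range_succ, ← ih]
      push_cast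
      rw [show a + ((n : ℤ) + 1) = a + n + 1 by ring]
      ring
  rw [h1]
  have h2 := sq_sum_le_card_mul_sum_sq (s := Finset.range n)
    (f := fun k : ℕ => (g (a + k + 1) - g (a + k)))
  rw [Finset.card_range] at h2
  exact h2

/-- sum over a segment of the box -/
lemma tb_inj (F : Pt → ℝ) (hF : ∀ z, 0 ≤ F z) (B : Finset Pt) (n : ℕ) (f : ℕ → Pt)
    (hf : Function.Injective f) (hB : ∀ k ≤ n, f k ∈ B) :
    ∑ k ∈ Finset.range (n + 1), F (f k) ≤ ∑ z ∈ B, F z := by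
  rw [← Finset.sum_image (s := Finset.range (n + 1)) (g := f) (f := F)
    (fun a _ b _ h => hf h)]
  refine Finset.sum_le_sum_of_subset_of_nonneg ?_ fun z _ _ => hF z
  intro z hz
  rw [Finset.mem_image] at hz
  obtain ⟨k, hk, rfl⟩ := hz
  exact hB k (by rw [Finset.mem_range] at hk; omega)

lemma tb_row (E : Env) (u : Pt → ℝ) (x y : ℤ) (n : ℕ) :
    ∑ k ∈ Finset.range n, (u (x + k + 1, y) - u (x + k, y)) ^ 2
      ≤ ∑ k ∈ Finset.range (n + 1), dd E u (x + (k : ℤ), y) ^ 2 := by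
  rcases E.hh y with h | h
  · rw [Finset.sum_range_succ]
    have : ∀ k ∈ Finset.range n, (u (x + k + 1, y) - u (x + k, y)) ^ 2
        = dd E u (x + (k : ℤ), y) ^ 2 := by
      intro k _
      unfold dd Env.s1
      simp only [h]
    rw [Finset.sum_congr rfl this]
    have := sq_nonneg (dd E u (x + (n : ℤ), y))
    linarith
  · rw [Finset.sum_range_succ']
    have : ∀ k ∈ Finset.range n, (u (x + k + 1, y) - u (x + k, y)) ^ 2
        = dd E u (x + ((k + 1 : ℕ) : ℤ), y) ^ 2 := by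
      intro k _
      unfold dd Env.s1
      simp only [h]
      push_cast
      rw [show x + ((k : ℤ) + 1) + -1 = x + k by ring, show x + ((k : ℤ) + 1) = x + k + 1 by ring]
      ring
    rw [Finset.sum_congr rfl this]
    have := sq_nonneg (dd E u (x + ((0 : ℕ) : ℤ), y))
    linarith

lemma tb_col (E : Env) (u : Pt → ℝ) (x y : ℤ) (n : ℕ) (hu : ∀ k : ℕ, k ≤ n → Hm E u (x, y + k)) :
    ∑ k ∈ Finset.range n, (u (x, y + k + 1) - u (x, y + k)) ^ 2
      ≤ ∑ k ∈ Finset.range (n + 1), dd E u (x, y + (k : ℤ)) ^ 2 := by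
  rcases E.hv x with h | h
  · rw [Finset.sum_range_succ]
    have : ∀ k ∈ Finset.range n, (u (x, y + k + 1) - u (x, y + k)) ^ 2
        = dd E u (x, y + (k : ℤ)) ^ 2 := by
      intro k hk
      rw [Finset.mem_range] at hk
      have h3 := (hu k hk.le).d2
      unfold Env.s2 at h3
      simp only [h] at h3
      rw [h3]; ring
    rw [Finset.sum_congr rfl this]
    have := sq_nonneg (dd E u (x, y + (n : ℤ)))
    linarith
  · rw [Finset.sum_range_succ']
    have : ∀ k ∈ Finset.range n, (u (x, y + k + 1) - u (x, y + k)) ^ 2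
        = dd E u (x, y + ((k + 1 : ℕ) : ℤ)) ^ 2 := by
      intro k hk
      rw [Finset.mem_range] at hk
      have h3 := (hu (k + 1) hk).d2
      unfold Env.s2 at h3
      simp only [h] at h3
      push_cast at h3 ⊢
      rw [show y + ((k : ℤ) + 1) + -1 = y + k by ring] at h3
      rw [show y + (k : ℤ) + 1 = y + ((k : ℤ) + 1) by ring]
      have h4 : u (x, y + ((k : ℤ) + 1)) - u (x, y + k) = dd E u (x, y + ((k : ℤ) + 1)) := by
        linarith
      rw [h4]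
    rw [Finset.sum_congr rfl this]
    have := sq_nonneg (dd E u (x, y + ((0 : ℕ) : ℤ)))
    linarith

/-- horizontal segment -/
lemma tb_h (E : Env) (u : Pt → ℝ) (c : Pt) (r : ℕ) (x1 x2 y : ℤ) (h12 : x1 ≤ x2)
    (h1 : (x1, y) ∈ bx c r) (h2 : (x2, y) ∈ bx c r) :
    (u (x2, y) - u (x1, y)) ^ 2 ≤ 2 * r * ∑ z ∈ bx c r, dd E u z ^ 2 := by
  obtain ⟨n, rfl⟩ : ∃ n : ℕ, x2 = x1 + n := ⟨(x2 - x1).toNat, by omega⟩
  rw [mem_bx] at h1 h2
  simp only [abs_le] at h1 h2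
  have hn : (n : ℤ) ≤ 2 * r := by omega
  have hn' : (n : ℝ) ≤ 2 * r := by exact_mod_cast hn
  have h3 := tb_cs (fun k => u (k, y)) x1 n
  have h4 := tb_row E u x1 y n
  have h5 := tb_inj (fun z => dd E u z ^ 2) (fun z => sq_nonneg _) (bx c r) n
    (fun k => (x1 + (k : ℤ), y)) (by intro a b hab; simpa using hab)
    (by
      intro k hk
      rw [mem_bx]
      simp only [abs_le]
      omega)
  have h6 : 0 ≤ ∑ z ∈ bx c r, dd E u z ^ 2 := Finset.sum_nonneg fun z _ => sq_nonneg _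
  calc (u (x1 + n, y) - u (x1, y)) ^ 2
      ≤ n * ∑ k ∈ Finset.range n, (u (x1 + k + 1, y) - u (x1 + k, y)) ^ 2 := h3
    _ ≤ n * ∑ z ∈ bx c r, dd E u z ^ 2 :=
        mul_le_mul_of_nonneg_left (h4.trans h5) (Nat.cast_nonneg n)
    _ ≤ 2 * r * ∑ z ∈ bx c r, dd E u z ^ 2 := mul_le_mul_of_nonneg_right hn' h6

/-- vertical segment -/
lemma tb_v (E : Env) (u : Pt → ℝ) (c : Pt) (r : ℕ) (hu : ∀ z ∈ bx c r, Hm E u z)
    (x y1 y2 : ℤ) (h12 : y1 ≤ y2)
    (h1 : (x, y1) ∈ bx c r) (h2 : (x, y2) ∈ bx c r) :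
    (u (x, y2) - u (x, y1)) ^ 2 ≤ 2 * r * ∑ z ∈ bx c r, dd E u z ^ 2 := by
  obtain ⟨n, rfl⟩ : ∃ n : ℕ, y2 = y1 + n := ⟨(y2 - y1).toNat, by omega⟩
  rw [mem_bx] at h1 h2
  simp only [abs_le] at h1 h2
  have hn : (n : ℤ) ≤ 2 * r := by omega
  have hn' : (n : ℝ) ≤ 2 * r := by exact_mod_cast hn
  have hin : ∀ k : ℕ, k ≤ n → (x, y1 + (k : ℤ)) ∈ bx c r := by
    intro k hk
    rw [mem_bx]
    simp only [abs_le]
    omega
  have h3 := tb_cs (fun k => u (x, k)) y1 n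
  have h4 := tb_col E u x y1 n fun k hk => hu _ (hin k hk)
  have h5 := tb_inj (fun z => dd E u z ^ 2) (fun z => sq_nonneg _) (bx c r) n
    (fun k => (x, y1 + (k : ℤ))) (by intro a b hab; simpa using hab) hin
  have h6 : 0 ≤ ∑ z ∈ bx c r, dd E u z ^ 2 := Finset.sum_nonneg fun z _ => sq_nonneg _
  calc (u (x, y1 + n) - u (x, y1)) ^ 2
      ≤ n * ∑ k ∈ Finset.range n, (u (x, y1 + k + 1) - u (x, y1 + k)) ^ 2 := h3
    _ ≤ n * ∑ z ∈ bx c r, dd E u z ^ 2 :=
        mul_le_mul_of_nonneg_left (h4.trans h5) (Nat.cast_nonneg n)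
    _ ≤ 2 * r * ∑ z ∈ bx c r, dd E u z ^ 2 := mul_le_mul_of_nonneg_right hn' h6

theorem thm_TB : St_TB := by
  rintro E u c ⟨zx, zy⟩ ⟨wx, wy⟩ r hu hz hw
  rw [en_eq_of_harm hu]
  have hm : (wx, zy) ∈ bx c r := by
    rw [mem_bx] at hz hw ⊢
    exact ⟨hw.1, hz.2⟩
  have h1 : (u (zx, zy) - u (wx, zy)) ^ 2 ≤ 2 * r * ∑ z ∈ bx c r, dd E u z ^ 2 := by
    rcases le_total zx wx with h | h
    · have := tb_h E u c r zx wx zy h hz hm
      calc (u (zx, zy) - u (wx, zy)) ^ 2 = (u (wx, zy) - u (zx, zy)) ^ 2 := by ring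
        _ ≤ _ := this
    · exact tb_h E u c r wx zx zy h hm hz
  have h2 : (u (wx, zy) - u (wx, wy)) ^ 2 ≤ 2 * r * ∑ z ∈ bx c r, dd E u z ^ 2 := by
    rcases le_total zy wy with h | h
    · have := tb_v E u c r hu wx zy wy h hm hw
      calc (u (wx, zy) - u (wx, wy)) ^ 2 = (u (wx, wy) - u (wx, zy)) ^ 2 := by ring
        _ ≤ _ := this
    · exact tb_v E u c r hu wx wy zy h hw hm
  nlinarith [sq_nonneg ((u (zx, zy) - u (wx, zy)) - (u (wx, zy) - u (wx, wy)))]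

end MHL
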