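import Pool.Agent.MHL.StA

/-!
# MHL: traces of connected sets on the sides of a rectangle
-/

set_option autoImplicit false

namespace MHL

lemma tr_mem {a b c d p q : ℤ} : ((p, q) ∈ (rc a b c d : Set Pt)) ↔
    (a ≤ p ∧ p ≤ b) ∧ (c ≤ q ∧ q ≤ d) := by
  rw [Finset.mem_coe, mem_rc]

/-- a discrete jump -/
lemma tr_jump {P : ℤ → Prop} {y d : ℤ} (hyd : y ≤ d) (h1 : ¬ P y) (h2 : P d) :
    ∃ t : ℤ, y ≤ t ∧ t < d ∧ ¬ P t ∧ P (t + 1) := by
  obtain ⟨n, rfl⟩ : ∃ n : ℕ, d = y + n := ⟨(d - y).toNat, by omega⟩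
  clear hyd
  induction n with
  | zero => exact absurd (by simpa using h2) h1
  | succ n ih =>
    by_cases hP : P (y + n)
    · obtain ⟨t, h3, h4, h5, h6⟩ := ih hP
      exact ⟨t, h3, by push_cast; omega, h5, h6⟩
    · refine ⟨y + n, by omega, by push_cast; omega, hP, ?_⟩
      have : y + ((n + 1 : ℕ) : ℤ) = y + n + 1 := by push_cast; ring
      rwa [this] at h2

/-- threshold of an up-set of an integer interval -/
lemma tr_up {P : ℤ → Prop} {c d : ℤ} (hcd : c ≤ d) (h1 : ¬ P c) (h2 : P d)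
    (h : ∀ y1 y2 : ℤ, c ≤ y1 → y1 < y2 → y2 ≤ d → P y1 → P y2) :
    ∃ t : ℤ, c < t ∧ t ≤ d ∧ ∀ y : ℤ, c ≤ y → y ≤ d → (P y ↔ t ≤ y) := by
  obtain ⟨t, h3, h4, h5, h6⟩ := tr_jump hcd h1 h2
  refine ⟨t + 1, by omega, by omega, fun y hy1 hy2 => ⟨fun hy => ?_, fun hy => ?_⟩⟩
  · by_contra hcon
    rcases eq_or_lt_of_le (show y ≤ t by omega) with rfl | hlt
    · exact h5 hy
    · exact h5 (h y t hy1 hlt (by omega) hy)
  · rcases eq_or_lt_of_le hy with rfl | hlt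
    · exact h6
    · exact h (t + 1) y (by omega) hlt hy2 h6

theorem thm_Tr1 (h : St_T4) : St_Tr1 := by
  intro a b c d V hab hcd hV hc1 hc2 had hac
  have hR : ∀ p q : ℤ, (a ≤ p ∧ p ≤ b) ∧ (c ≤ q ∧ q ≤ d) → (p, q) ∉ V →
      (p, q) ∈ (rc a b c d : Set Pt) \ V := fun p q h1 h2 => ⟨tr_mem.2 h1, h2⟩
  obtain ⟨k1, -⟩ := h a b c d V ((rc a b c d : Set Pt) \ V) hab hcd hV Set.sdiff_subset
    Set.disjoint_sdiff_right hc1 hc2 had (hR a c (by omega) hac)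
  refine tr_up (P := fun y => (a, y) ∈ V) hcd hac had fun y1 y2 h1 h2 h3 h4 => ?_
  by_contra hcon
  exact k1 y1 y2 h2 h4 (hR a y2 (by omega) hcon)

theorem thm_Tr2 (h : St_T4) : St_Tr2 := by
  intro a b c d V hab hcd hV hc1 hc2 had hac hbd hbc
  have hR : ∀ p q : ℤ, (a ≤ p ∧ p ≤ b) ∧ (c ≤ q ∧ q ≤ d) → (p, q) ∉ V →
      (p, q) ∈ (rc a b c d : Set Pt) \ V := fun p q h1 h2 => ⟨tr_mem.2 h1, h2⟩
  obtain ⟨-, k2, -⟩ := h a b c d V ((rc a b c d : Set Pt) \ V) hab hcd hV Set.sdiff_subset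
    Set.disjoint_sdiff_right hc1 hc2 had (hR a c (by omega) hac)
  refine tr_up (P := fun y => (b, y) ∈ V) hcd hbc hbd fun y1 y2 h1 h2 h3 h4 => ?_
  by_contra hcon
  exact k2 y1 y2 h2 h4 (hR b y2 (by omega) hcon)

theorem thm_Tr3 (h : St_T4) : St_Tr3 := by
  intro a b c d V hab hcd hV hc1 hc2 had hac hbd
  have hR : ∀ p q : ℤ, (a ≤ p ∧ p ≤ b) ∧ (c ≤ q ∧ q ≤ d) → (p, q) ∉ V →
      (p, q) ∈ (rc a b c d : Set Pt) \ V := fun p q h1 h2 => ⟨tr_mem.2 h1, h2⟩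
  obtain ⟨-, -, k3, k4, -⟩ := h a b c d V ((rc a b c d : Set Pt) \ V) hab hcd hV Set.sdiff_subset
    Set.disjoint_sdiff_right hc1 hc2 had (hR a c (by omega) hac)
  constructor
  · obtain ⟨t, h1, h2, h3⟩ := tr_up (P := fun x => (x, d) ∉ V) hab (by simpa using had) hbd
      (fun y1 y2 h1 h2 h3 h4 h5 => k3 y1 y2 h2 (hR y1 d (by omega) h4) h5)
    refine ⟨t, h1, h2, fun x hx1 hx2 => ?_⟩
    have := h3 x hx1 hx2
    by_cases hx : (x, d) ∈ V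
    · refine ⟨fun _ => ?_, fun _ => hx⟩
      by_contra hcon
      exact (this.2 (by omega)) hx
    · refine ⟨fun h => absurd h hx, fun h => ?_⟩
      have := this.1 hx
      omega
  · intro y hy1 hy2 hy
    exact k4 b y (hR b d (by omega) hbd) hy

theorem thm_Tr4 (h : St_T4) : St_Tr4 := by
  intro a b c d V hab hcd hV hc1 hc2 had hac hbc
  have hR : ∀ p q : ℤ, (a ≤ p ∧ p ≤ b) ∧ (c ≤ q ∧ q ≤ d) → (p, q) ∉ V →
      (p, q) ∈ (rc a b c d : Set Pt) \ V := fun p q h1 h2 => ⟨tr_mem.2 h1, h2⟩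
  obtain ⟨-, -, -, -, k5, k6⟩ := h a b c d V ((rc a b c d : Set Pt) \ V) hab hcd hV
    Set.sdiff_subset Set.disjoint_sdiff_right hc1 hc2 had (hR a c (by omega) hac)
  constructor
  · refine tr_up (P := fun x => (x, c) ∈ V) hab hac hbc fun y1 y2 h1 h2 h3 h4 => ?_
    by_contra hcon
    exact k5 y1 y2 h2 h4 (hR y2 c (by omega) hcon)
  · intro y hy1 hy2
    by_contra hcon
    exact k6 b y hbc (hR b y (by omega) hcon)

end MHL
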