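import Pool.Agent.MHL.StA

/-!
# MHL: restriction of a wall to an upper subrectangle
-/

set_option autoImplicit false

namespace MHL

lemma up_mem {a b c d p q : ℤ} : ((p, q) ∈ (rc a b c d : Set Pt)) ↔
    (a ≤ p ∧ p ≤ b) ∧ (c ≤ q ∧ q ≤ d) := by
  rw [Finset.mem_coe, mem_rc]

/-- basic facts on the blocking component -/
lemma up_sub {a b c d x y : ℤ} (h1 : x ≤ b) (h2 : c ≤ y) :
    (rc a x y d : Set Pt) ⊆ rc a b c d := by
  rintro ⟨p, q⟩ h
  rw [up_mem] at h ⊢
  omega

theorem thm_UP (h3 : St_T3) (ht : St_Tr1) : St_UP := by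
  intro u a b c d x y lev U W hax hxb hcy hyd hU
  have hsub : (rc a x y d : Set Pt) ⊆ rc a b c d := up_sub hxb hcy
  set R : Set Pt := (rc a x y d : Set Pt) with hR
  set B1 : Set Pt := comp (R \ U) (a, y) with hB1
  have hmem : ∀ p q : ℤ, (p, q) ∈ R ↔ (a ≤ p ∧ p ≤ x) ∧ (y ≤ q ∧ q ≤ d) := fun p q => up_mem
  have hB1sub : B1 ⊆ R \ U := comp_sub
  have hay : (a, y) ∈ B1 := mem_comp_self ⟨(hmem a y).2 (by omega), hU⟩
  have htopU : ∀ x' : ℤ, a ≤ x' → x' ≤ x → (x', d) ∈ U := fun x' h1 h2 =>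
    W.top x' h1 (h2.trans hxb)
  have hadR : (a, d) ∈ R := (hmem a d).2 (by omega)
  have hadB : (a, d) ∉ B1 := fun h => (hB1sub h).2 (htopU a le_rfl hax)
  obtain ⟨-, hC1, hC2, hC3⟩ := h3 R B1 (a, d) (con_rc _ _ _ _) (fun z hz => (hB1sub hz).1)
    con_comp ⟨_, hay⟩ hadR hadB
  have hV : upw U a x y d = comp (R \ B1) (a, d) := rfl
  rw [hV]
  set V : Set Pt := comp (R \ B1) (a, d) with hVdef
  have hVsub : V ⊆ R \ B1 := comp_sub
  obtain ⟨t, ht1, ht2, ht3⟩ := ht a b c d U (hax.trans hxb) (hcy.trans hyd.le) W.sub W.cU W.cB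
    (W.top a le_rfl (hax.trans hxb)) (W.bot a le_rfl (hax.trans hxb))
  have hyt : y < t := by
    by_contra hcon
    exact hU ((ht3 y hcy hyd.le).2 (by omega))
  refine ⟨fun z hz => (hVsub hz).1, ?_, con_comp, hC1, fun h => (hVsub h).2 hay, ?_, ?_⟩
  · intro z w hz hzR hwR hwV hadj
    have hwB : w ∈ B1 := hC3 w z hwR hwV hz (adj4_symm hadj)
    have hzU : z ∈ U := by
      by_contra hzU
      exact (hVsub hz).2 (comp_step hwB (adj4_symm hadj) ⟨hzR, hzU⟩)
    exact W.ec z w hzU (hsub hzR) (hsub hwR) (hB1sub hwB).2 hadj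
  · intro x' h1 h2
    refine cn_hor h1 fun x'' h3' h4 => ⟨(hmem x'' d).2 (by omega), fun h => ?_⟩
    exact (hB1sub h).2 (htopU x'' h3' (by omega))
  · intro y' h1 h2
    constructor
    · intro h
      by_contra hnU
      have hy't : y' < t := by
        by_contra hcon
        exact hnU ((ht3 y' (by omega) h2).2 (by omega))
      have : (a, y') ∈ B1 := by
        refine cn_vert h1 fun y'' h3' h4 => ⟨(hmem a y'').2 (by omega), fun h => ?_⟩
        have := (ht3 y'' (by omega) (by omega)).1 h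
        omega
      exact (hVsub h).2 this
    · intro h
      have hty' : t ≤ y' := (ht3 y' (by omega) h2).1 h
      have : Cn adj4 (R \ B1) (a, y') (a, d) := by
        refine cn_vert h2 fun y'' h3' h4 => ⟨(hmem a y'').2 (by omega), fun h => ?_⟩
        exact (hB1sub h).2 ((ht3 y'' (by omega) (by omega)).2 (by omega))
      exact this.symm4

end MHL
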