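import Pool.Agent.MHL.StA

/-!
# MHL: restriction of a wall to an upper subrectangle, monotonicity and the right side
-/

set_option autoImplicit false

namespace MHL

lemma upr_mem {a b c d p q : ℤ} : ((p, q) ∈ (rc a b c d : Set Pt)) ↔
    (a ≤ p ∧ p ≤ b) ∧ (c ≤ q ∧ q ≤ d) := by
  rw [Finset.mem_coe, mem_rc]

theorem thm_UPm : St_UPm := by
  intro a x y d U U' h
  have h1 : comp ((rc a x y d : Set Pt) \ U) (a, y) ⊆ comp ((rc a x y d : Set Pt) \ U') (a, y) :=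
    comp_mono (Set.sdiff_subset_sdiff_right h)
  exact comp_mono (Set.sdiff_subset_sdiff_right h1)

/-- a discrete jump -/
lemma upr_jump {P : ℤ → Prop} {y d : ℤ} (hyd : y ≤ d) (h1 : ¬ P y) (h2 : P d) :
    ∃ t : ℤ, y ≤ t ∧ t < d ∧ ¬ P t ∧ P (t + 1) := by
  obtain ⟨n, rfl⟩ : ∃ n : ℕ, d = y + n := ⟨(d - y).toNat, by omega⟩
  clear hyd
  induction n with
  | zero => exact absurd (by simpa using h2) h1
  | succ n ih =>
    by_cases hP : P (y + n)
    · obtain ⟨t, h3, h4, h5, h6⟩ := ih hP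
      exact ⟨t, h3, by push_cast; omega, h5, h6⟩
    · refine ⟨y + n, by omega, by push_cast; omega, hP, ?_⟩
      have : y + ((n + 1 : ℕ) : ℤ) = y + n + 1 := by push_cast; ring
      rwa [this] at h2

theorem thm_UPR (h3 : St_T3) (ht : St_Tr1) : St_UPR := by
  intro u a b c d x y lev U W hax hxb hcy hyd hU hxy
  set R : Set Pt := (rc a x y d : Set Pt) with hR
  set B1 : Set Pt := comp (R \ U) (a, y) with hB1
  have hmem : ∀ p q : ℤ, (p, q) ∈ R ↔ (a ≤ p ∧ p ≤ x) ∧ (y ≤ q ∧ q ≤ d) := fun p q => upr_mem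
  have hB1sub : B1 ⊆ R \ U := comp_sub
  have hay : (a, y) ∈ B1 := mem_comp_self ⟨(hmem a y).2 (by omega), hU⟩
  have htopU : ∀ x' : ℤ, a ≤ x' → x' ≤ x → (x', d) ∈ U := fun x' h1 h2 =>
    W.top x' h1 (h2.trans hxb)
  have hadR : (a, d) ∈ R := (hmem a d).2 (by omega)
  have hadB : (a, d) ∉ B1 := fun h => (hB1sub h).2 (htopU a le_rfl hax)
  obtain ⟨-, hC1, hC2, hC3⟩ := h3 R B1 (a, d) (con_rc _ _ _ _) (fun z hz => (hB1sub hz).1)
    con_comp ⟨_, hay⟩ hadR hadB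
  have hV : upw U a x y d = comp (R \ B1) (a, d) := rfl
  rw [hV] at hxy
  obtain ⟨t, ht1, ht2, ht3⟩ := ht a b c d U (hax.trans hxb) (hcy.trans hyd.le) W.sub W.cU W.cB
    (W.top a le_rfl (hax.trans hxb)) (W.bot a le_rfl (hax.trans hxb))
  have hyt : y < t := by
    by_contra hcon
    exact hU ((ht3 y hcy hyd.le).2 (by omega))
  have hxd : (x, d) ∈ comp (R \ B1) (a, d) := by
    refine cn_hor hax fun x'' h3' h4 => ⟨(hmem x'' d).2 (by omega), fun h => ?_⟩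
    exact (hB1sub h).2 (htopU x'' h3' (by omega))
  obtain ⟨y1, h1, h2, h4, h5⟩ := upr_jump (P := fun q => (x, q) ∈ comp (R \ B1) (a, d)) hyd.le
    hxy hxd
  have hy1R : (x, y1) ∈ R := (hmem x y1).2 (by omega)
  have hadj : adj4 ((x, y1) : Pt) (x, y1 + 1) := by
    rw [adj4_iff]; right; simp
  have hy1B : (x, y1) ∈ B1 := hC3 (x, y1) (x, y1 + 1) hy1R h4 h5 hadj
  refine ⟨y1, h1, h2.le, fun hdn => hdn.2 ?_⟩
  have hsub2 : R \ U ⊆ (rc a x c d : Set Pt) \ comp (U ∩ rc a x c d) (a, d) := by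
    rintro ⟨p, q⟩ ⟨hp, hpU⟩
    refine ⟨?_, fun h => hpU (comp_sub h).1⟩
    rw [hmem] at hp
    rw [upr_mem]
    omega
  have hp1 : Cn adj4 ((rc a x c d : Set Pt) \ comp (U ∩ rc a x c d) (a, d)) (a, c) (a, y) := by
    refine cn_vert hcy fun y'' h6 h7 => ⟨upr_mem.2 (by omega), fun h => ?_⟩
    have h8 := (ht3 y'' h6 (by omega)).1 (comp_sub h).1
    omega
  have hp2 : Cn adj4 ((rc a x c d : Set Pt) \ comp (U ∩ rc a x c d) (a, d)) (a, y) (x, y1) :=
    Cn.mono (show Cn adj4 (R \ U) (a, y) (x, y1) from hy1B) hsub2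
  exact hp1.trans hp2

end MHL
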