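import Pool.Agent.MHL.StA

/-!
# MHL: the filled component of the high crossing is a wall
-/

set_option autoImplicit false

namespace MHL

theorem thm_W1 (h1 : St_T1) (h3 : St_T3) (h6 : St_T6) : St_W1 := by
  intro u a b c d yp ym cm cp lev q0 q1 hab hcd hH hq0 hL hq1 hyy hcm hcp
  unfold WU
  set R : Set Pt := (rc a b c d : Set Pt) with hR
  set A : Set Pt := comp ({z | lev < u z} ∩ R) (a, yp) with hA
  have hAR : A ⊆ R := fun z hz => (comp_sub hz).2
  have hAl : ∀ z ∈ A, lev < u z := fun z hz => (comp_sub hz).1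
  have hmono : ({z | cp < u z} ∩ R) ⊆ ({z | lev < u z} ∩ R) :=
    fun z hz => ⟨lt_of_le_of_lt hcp hz.1, hz.2⟩
  have hH' : Cn adj4 A (a, yp) q0 := (hH.mono hmono).comp_path
  have hpA : (a, yp) ∈ A := hH'.left
  have hcA : Con A := con_comp
  have hbot : ∀ x : ℤ, (x, c) ∉ A := by
    refine h6 a b c d yp ym A ({z | u z ≤ cm} ∩ R) q1 hab hcd hAR (fun z hz => hz.2) ?_ hcA hpA
      hyy hL hq1
    rw [Set.disjoint_left]
    intro z hz hz'
    have h2 := hAl z hz
    have h4 : u z ≤ cm := hz'.1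
    linarith
  have hw0 : (a, c) ∈ R := by
    simp only [hR, Finset.mem_coe, mem_rc]; omega
  obtain ⟨hAU, hU, hB, hE⟩ := h3 R A (a, c) (con_rc a b c d) hAR hcA ⟨_, hpA⟩ hw0 (hbot a)
  set B : Set Pt := comp (R \ A) (a, c) with hBdef
  have hBR : B ⊆ R := fun z hz => (comp_sub hz).1
  have hBA : ∀ z ∈ B, z ∉ A := fun z hz => (comp_sub hz).2
  have hw0B : (a, c) ∈ B := mem_comp_self ⟨hw0, hbot a⟩
  refine ⟨fun z hz => hz.1, ?_, hU, ?_, ?_, ?_⟩
  · intro z w hz hzR hwR hwU hzw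
    have hwB : w ∈ B := by
      by_contra hwB
      exact hwU ⟨hwR, hwB⟩
    have hzA : z ∈ A := hE z w hzR hz.2 hwB hzw
    refine ⟨hAl z hzA, ?_⟩
    by_contra hlt
    rw [not_le] at hlt
    exact hBA w hwB (comp_step hzA hzw ⟨hlt, hwR⟩)
  · have : R \ (R \ B) = B := by
      rw [Set.sdiff_sdiff_right_self]
      exact Set.inter_eq_right.2 hBR
    rw [this]; exact hB
  · intro x hax hxb
    refine ⟨by simp only [hR, Finset.mem_coe, mem_rc]; omega, fun hx => ?_⟩
    have hp : Cn adj8 B (a, c) (x, d) := (Cn.comp_path hx).to8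
    refine h1 a b c d A B (a, yp) q0 (a, c) (x, d) hab hcd hAR hBR ?_ hH' rfl hq0 hp rfl rfl
    rw [Set.disjoint_left]
    intro z hz hz'
    exact hBA z hz' hz
  · intro x hax hxb hx
    refine hx.2 ?_
    have hp : Cn adj4 (R \ A) (a, c) (x, c) := by
      refine cn_hor hax fun x' h1' h2' => ⟨?_, hbot x'⟩
      simp only [hR, Finset.mem_coe, mem_rc]; omega
    exact hp

theorem thm_W2 : St_W2 := by
  intro u R p0 w0 lev lev' hlev
  unfold WU
  intro z hz
  refine ⟨hz.1, fun hz' => hz.2 ?_⟩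
  refine comp_mono ?_ hz'
  intro w hw
  refine ⟨hw.1, fun hw' => hw.2 ?_⟩
  refine comp_mono ?_ hw'
  intro v hv
  exact ⟨lt_of_le_of_lt hlev hv.1, hv.2⟩

end MHL
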