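import Pool.Agent.MHL.A
import Pool.Agent.MHL.B1
import Pool.Agent.MHL.B2
import Pool.Agent.MHL.C
import Pool.Agent.MHL.Ct
import Pool.Agent.MHL.DN
import Pool.Agent.MHL.DNR
import Pool.Agent.MHL.F1
import Pool.Agent.MHL.F2
import Pool.Agent.MHL.F3
import Pool.Agent.MHL.G1
import Pool.Agent.MHL.GL
import Pool.Agent.MHL.GLs
import Pool.Agent.MHL.Gn
import Pool.Agent.MHL.K
import Pool.Agent.MHL.K0
import Pool.Agent.MHL.K1
import Pool.Agent.MHL.L1
import Pool.Agent.MHL.L2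
import Pool.Agent.MHL.L3
import Pool.Agent.MHL.L4
import Pool.Agent.MHL.L5
import Pool.Agent.MHL.L6
import Pool.Agent.MHL.L7
import Pool.Agent.MHL.M1
import Pool.Agent.MHL.M2
import Pool.Agent.MHL.M3
import Pool.Agent.MHL.M4
import Pool.Agent.MHL.MT
import Pool.Agent.MHL.N0
import Pool.Agent.MHL.N1
import Pool.Agent.MHL.N2
import Pool.Agent.MHL.N2a
import Pool.Agent.MHL.N2b
import Pool.Agent.MHL.N3
import Pool.Agent.MHL.N4
import Pool.Agent.MHL.N5
import Pool.Agent.MHL.Par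
import Pool.Agent.MHL.R1
import Pool.Agent.MHL.R2
import Pool.Agent.MHL.R3
import Pool.Agent.MHL.Ry
import Pool.Agent.MHL.Sy
import Pool.Agent.MHL.T1
import Pool.Agent.MHL.T1t
import Pool.Agent.MHL.T2
import Pool.Agent.MHL.T3
import Pool.Agent.MHL.T4
import Pool.Agent.MHL.T5
import Pool.Agent.MHL.T6
import Pool.Agent.MHL.TB
import Pool.Agent.MHL.Tr
import Pool.Agent.MHL.UP
import Pool.Agent.MHL.UPR
import Pool.Agent.MHL.W1

/-!
# MHL: the mixing theorem, all modules plugged in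
-/

set_option autoImplicit false

namespace MHL

theorem allMT : St_MT := by
  have t1 := thm_T1
  have t1t := thm_T1t t1
  have t2 := thm_T2
  have t2t := thm_T2t t2
  have t3 := thm_T3
  have t4 := thm_T4 t1
  have t5 := thm_T5
  have t6 := thm_T6 t1t
  have tr1 := thm_Tr1 t4
  have tr2 := thm_Tr2 t4
  have tr3 := thm_Tr3 t4
  have tr4 := thm_Tr4 t4
  have w1 := thm_W1 t1 t3 t6
  have w2 := thm_W2
  have dn := thm_DN t3 tr1
  have dnm := thm_DNm
  have dnr := thm_DNR t3 tr1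
  have up := thm_UP t3 tr1
  have upm := thm_UPm
  have upr := thm_UPR t3 tr1
  have m1 := thm_M1
  have m2 := thm_M2 t5
  have m3 := thm_M3 t2 t2t t5
  have m4 := thm_M4 m1 m2 m3
  have f3 := thm_F3 thm_F1 thm_F2
  have r1 := thm_R1 f3
  have r2 := thm_R2 f3
  have r3 := thm_R3 f3
  have l1 := thm_L1
  have l2 := thm_L2
  have l3 := thm_L3 l2
  have l4 := thm_L4 l3
  have l5 := thm_L5
  have l6 := thm_L6 l5
  have l7 := thm_L7 l6
  have b1 := thm_B1
  have b2 := thm_B2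
  have ct := thm_Ct
  have n0 := thm_N0 dn dnm tr2
  have n1 := thm_N1 dn dnm r1 l7 b1 b2
  have n2a := thm_N2a dn dnm dnr tr3 r2 l7 b1 b2 ct
  have n2b := thm_N2b up upm upr tr4 r3 l7 b1 b2 ct
  have n2 := thm_N2 n2a n2b
  have n3 := thm_N3 l4 ct
  have n4 := thm_N4 n0 n1 n2 n3 l4
  have n5 := thm_N5 n4 thm_A
  have k0 := thm_K0 n5 thm_C thm_Gn
  have k1 := thm_K1 l1 w1 w2 tr1
  have k := thm_K t5 l4 ct k0 k1 thm_Ry
  have g1 := thm_G1 l2 l3
  have gl := thm_GL m4 k g1 thm_Sy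
  exact thm_MT (thm_GLs gl) thm_TB thm_Par

end MHL
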