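import Mathlib

/-!
# MHL: harmonic functions on the randomly oriented Manhattan lattice: definitions

`Env` = orientations of rows (`h`) and columns (`v`), `s1`, `s2` = the two successors of a vertex,
`Hm` = harmonic, `en` = energy, `bx` = box, `rc` = rectangle.
-/

set_option autoImplicit false

namespace MHL

/-- points of the lattice -/
abbrev Pt := ℤ × ℤ

/-- environment of orientations: `h y` for row `y`, `v x` for column `x` -/
structure Env where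
  h : ℤ → ℤ
  v : ℤ → ℤ
  hh : ∀ y, h y = 1 ∨ h y = -1
  hv : ∀ x, v x = 1 ∨ v x = -1

/-- horizontal successor -/
def Env.s1 (E : Env) (z : Pt) : Pt := (z.1 + E.h z.2, z.2)
/-- vertical successor -/
def Env.s2 (E : Env) (z : Pt) : Pt := (z.1, z.2 + E.v z.1)
/-- transposed environment -/
def Env.tr (E : Env) : Env := ⟨E.v, E.h, E.hv, E.hh⟩
/-- translated environment -/
def Env.sh (E : Env) (c : Pt) : Env :=
  ⟨fun y => E.h (y + c.2), fun x => E.v (x + c.1), fun _ => E.hh _, fun _ => E.hv _⟩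
/-- environment reflected in `y ↦ -y` -/
def Env.ry (E : Env) : Env :=
  ⟨fun y => E.h (-y), fun x => - E.v x, fun _ => E.hh _, fun x => by
    rcases E.hv x with h | h <;> simp [h]⟩
/-- environment reflected in `x ↦ -x` -/
def Env.rx (E : Env) : Env :=
  ⟨fun y => - E.h y, fun x => E.v (-x), fun y => by
    rcases E.hh y with h | h <;> simp [h], fun _ => E.hv _⟩
/-- all arrows reversed -/
def Env.rev (E : Env) : Env :=
  ⟨fun y => - E.h y, fun x => - E.v x, fun y => by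
    rcases E.hh y with h | h <;> simp [h], fun x => by
    rcases E.hv x with h | h <;> simp [h]⟩

/-- `u` is harmonic at `z` -/
def Hm (E : Env) (u : Pt → ℝ) (z : Pt) : Prop := u (E.s1 z) + u (E.s2 z) = 2 * u z
/-- horizontal difference along the arrow -/
noncomputable def dd (E : Env) (u : Pt → ℝ) (z : Pt) : ℝ := u (E.s1 z) - u z
/-- energy of `w` on `U` -/
noncomputable def en (E : Env) (w : Pt → ℝ) (U : Finset Pt) : ℝ :=
  (∑ z ∈ U, ((w (E.s1 z) - w z) ^ 2 + (w (E.s2 z) - w z) ^ 2)) / 2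
/-- box with centre `c` and radius `r` -/
noncomputable def bx (c : Pt) (r : ℕ) : Finset Pt := Finset.Icc (c.1 - r, c.2 - r) (c.1 + r, c.2 + r)
/-- rectangle `[a,b] x [c,d]` -/
noncomputable def rc (a b c d : ℤ) : Finset Pt := Finset.Icc (a, c) (b, d)

lemma mem_rc {a b c d : ℤ} {z : Pt} :
    z ∈ rc a b c d ↔ (a ≤ z.1 ∧ z.1 ≤ b) ∧ (c ≤ z.2 ∧ z.2 ≤ d) := by
  rcases z with ⟨x, y⟩
  simp only [rc, Finset.mem_Icc, Prod.mk_le_mk]
  tauto

lemma mem_bx {c : Pt} {r : ℕ} {z : Pt} :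
    z ∈ bx c r ↔ |z.1 - c.1| ≤ r ∧ |z.2 - c.2| ≤ r := by
  rcases z with ⟨x, y⟩
  rcases c with ⟨a, b⟩
  simp only [bx, Finset.mem_Icc, Prod.mk_le_mk, abs_le]
  constructor
  · rintro ⟨⟨h1, h2⟩, h3, h4⟩
    refine ⟨⟨by linarith, by linarith⟩, ⟨by linarith, by linarith⟩⟩
  · rintro ⟨⟨h1, h2⟩, h3, h4⟩
    refine ⟨⟨by linarith, by linarith⟩, ⟨by linarith, by linarith⟩⟩

/-- partial sums: `sm g 0 = 0`, `sm g (n+1) = sm g n + g n` for all integers `n` -/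
noncomputable def sm (g : ℤ → ℤ) (n : ℤ) : ℤ := ∑ k ∈ Finset.Ico 0 n, g k - ∑ k ∈ Finset.Ico n 0, g k

/-- oscillation of a function on a finite set (0 on the empty set) -/
noncomputable def osc {ι : Type*} (s : Finset ι) (f : ι → ℝ) : ℝ :=
  (((s ×ˢ s).sup (fun p => Real.toNNReal (f p.1 - f p.2)) : NNReal) : ℝ)

/-- `g` is `A`-good on `[lo, hi]`: modulus of continuity, lower oscillation, local times -/
structure Good (A : ℝ) (g : ℤ → ℤ) (lo hi : ℤ) : Prop where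
  g1 : ∀ a b : ℤ, lo ≤ a → a ≤ b → b ≤ hi →
    |(sm g b : ℝ) - sm g a| ≤ A * Real.sqrt ((b : ℝ) - a)
  g2 : ∀ a b : ℤ, lo ≤ a → a ≤ b → b ≤ hi → A ^ 4 ≤ (b : ℝ) - a →
    ∃ s t : ℤ, (a ≤ s ∧ s ≤ b) ∧ (a ≤ t ∧ t ≤ b) ∧
      Real.sqrt ((b : ℝ) - a) / A ≤ (sm g s : ℝ) - sm g t
  g3 : ∀ (a : ℤ) (q n : ℕ) (x : ℝ), 1 ≤ q → 1 ≤ n → lo ≤ a → a + n * q ≤ hi →
    (((Finset.range n).filter
      (fun i : ℕ => |(sm g (a + i * q) : ℝ) - x| ≤ 2 * A * Real.sqrt q)).card : ℝ)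
      ≤ A ^ 3 * Real.sqrt n

/-- the same with the local time condition for all arithmetic progressions inside `[lo, hi]`
(this form is invariant under reflections) -/
structure Good2 (A : ℝ) (g : ℤ → ℤ) (lo hi : ℤ) : Prop where
  g1 : ∀ a b : ℤ, lo ≤ a → a ≤ b → b ≤ hi →
    |(sm g b : ℝ) - sm g a| ≤ A * Real.sqrt ((b : ℝ) - a)
  g2 : ∀ a b : ℤ, lo ≤ a → a ≤ b → b ≤ hi → A ^ 4 ≤ (b : ℝ) - a →
    ∃ s t : ℤ, (a ≤ s ∧ s ≤ b) ∧ (a ≤ t ∧ t ≤ b) ∧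
      Real.sqrt ((b : ℝ) - a) / A ≤ (sm g s : ℝ) - sm g t
  g3 : ∀ (a : ℤ) (q n : ℕ) (x : ℝ), 1 ≤ q → 1 ≤ n → lo ≤ a → a + ((n : ℤ) - 1) * q ≤ hi →
    (((Finset.range n).filter
      (fun i : ℕ => |(sm g (a + i * q) : ℝ) - x| ≤ 2 * A * Real.sqrt q)).card : ℝ)
      ≤ A ^ 3 * Real.sqrt n

/-- good environment in the box with centre `c` and radius `L` -/
structure GoodE (A : ℝ) (E : Env) (c : Pt) (L : ℕ) : Prop where
  gh : Good2 A E.h (c.2 - L) (c.2 + L)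
  gv : Good2 A E.v (c.1 - L) (c.1 + L)

/-! ### planar topology -/

/-- nearest neighbours -/
def adj4 (z w : Pt) : Prop := |z.1 - w.1| + |z.2 - w.2| = 1
/-- nearest neighbours or diagonal neighbours or equal -/
def adj8 (z w : Pt) : Prop := |z.1 - w.1| ≤ 1 ∧ |z.2 - w.2| ≤ 1
/-- `a` and `b` are connected in `S` -/
def Cn (r : Pt → Pt → Prop) (S : Set Pt) (a b : Pt) : Prop :=
  a ∈ S ∧ Relation.ReflTransGen (fun x y => r x y ∧ y ∈ S) a b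
/-- `S` is 4-connected -/
def Con (S : Set Pt) : Prop := ∀ a ∈ S, ∀ b ∈ S, Cn adj4 S a b
/-- the 4-component of `a` in `S` -/
def comp (S : Set Pt) (a : Pt) : Set Pt := {z | Cn adj4 S a z}

/-- edge condition: on every edge from `U` to `R \ U` the function passes the level `c` -/
def EC (u : Pt → ℝ) (R U : Set Pt) (c : ℝ) : Prop :=
  ∀ z w : Pt, z ∈ U → z ∈ R → w ∈ R → w ∉ U → adj4 z w → c < u z ∧ u w ≤ c

/-- clamp of `(s - c1) / (c2 - c1)` to `[0,1]` -/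
noncomputable def cl (c1 c2 s : ℝ) : ℝ := max 0 (min 1 ((s - c1) / (c2 - c1)))

open Classical in
/-- two-level phase -/
noncomputable def ph (u : Pt → ℝ) (U1 U2 : Set Pt) (c1 c2 : ℝ) (z : Pt) : ℝ :=
  if z ∈ U2 then 1 else if z ∈ U1 then cl c1 c2 (u z) else 0

/-- kink mass at level `c` -/
noncomputable def rho (E : Env) (u : Pt → ℝ) (B : Finset Pt) (c : ℝ) : ℝ :=
  ∑ z ∈ B, max (|dd E u z| - |u z - c|) 0

/-- filled wall: `U` is an upper region in the rectangle `[a,b] x [c,d]` -/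
structure Wall (u : Pt → ℝ) (a b c d : ℤ) (lev : ℝ) (U : Set Pt) : Prop where
  sub : U ⊆ rc a b c d
  ec : EC u (rc a b c d) U lev
  cU : Con U
  cB : Con ((rc a b c d : Set Pt) \ U)
  top : ∀ x : ℤ, a ≤ x → x ≤ b → (x, d) ∈ U
  bot : ∀ x : ℤ, a ≤ x → x ≤ b → (x, c) ∉ U

/-- the wall of level `lev` built from a point `p0` of the high crossing and the point `w0` -/
def WU (u : Pt → ℝ) (R : Set Pt) (p0 w0 : Pt) (lev : ℝ) : Set Pt :=
  R \ comp (R \ comp ({z | lev < u z} ∩ R) p0) w0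

/-- restriction of a wall to `[a,x] x [c,y]` and refilling -/
def dn (U : Set Pt) (a x c y : ℤ) : Set Pt :=
  (rc a x c y : Set Pt) \ comp ((rc a x c y : Set Pt) \ comp (U ∩ rc a x c y) (a, y)) (a, c)

/-- restriction of a wall to `[a,x] x [y,d]` and refilling (seen from the complement) -/
def upw (U : Set Pt) (a x y d : ℤ) : Set Pt :=
  comp ((rc a x y d : Set Pt) \ comp ((rc a x y d : Set Pt) \ U) (a, y)) (a, d)

/-! ### parameters of the growth lemma -/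

/-- parameters: `X = 2^s` big radius, `2^s'` small radius, `K = 2^a`, `s = s' + a j`, `n` levels,
`d` mesh of the net of good lines, `2^k0` longest good interval -/
structure GP where
  (s s' a j n d k0 : ℕ)
  (A L K1 φ e : ℝ)
  hs : s = s' + a * j
  ha : 1 ≤ a
  hj : 1 ≤ j
  haj : 2 ≤ a * j
  hn : 1 ≤ n
  hd : 1 ≤ d
  hA : 1 ≤ A
  hL : 1 ≤ L
  hK1 : 1 ≤ K1
  hφ : 1 ≤ φ
  he : 0 < e
  /-- `H` and `W` vary by at most `φ` over distance `2 d` -/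
  c2 : A * Real.sqrt (2 * d) ≤ φ
  /-- few bad lines -/
  c3 : 2 * ((s : ℝ) + 2) * 2 ^ s < d * K1
  c4 : 16 * 2 ^ k0 ≤ 2 ^ s
  /-- error terms of the flux identity -/
  c5 : 128 * ((n : ℝ) + 1) ^ 2 * e + 80 * ((n : ℝ) + 1) * Real.sqrt (K1 * e) ≤ φ / 4
  /-- number of exceptional levels -/
  c6 : (3 + 4 * (20 * (2 : ℝ) ^ s / d + 3)) * (6 * 2 ^ s / 2 ^ k0 +
    8 * (A * (2000 * ((n : ℝ) + 1) * Real.sqrt (K1 * L * e) * ((2 : ℝ) ^ k0) ^ (1 / 4 : ℝ)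
      + 2 * n * Real.sqrt (2 ^ k0))) / φ + 3) ≤ n / 2
  c7 : 20 * φ ≤ Real.sqrt (2 ^ s')
  c8 : 100 * A * φ ≤ Real.sqrt (2 ^ s)
  c9 : 5 * A ^ 4 ≤ 2 * 2 ^ s
  c10 : 100 * d ≤ 2 ^ s
  /-- few cells -/
  c11 : Real.sqrt (2 ^ (a * j)) * (6 * A * Real.sqrt (2 ^ a) * (4 * A ^ 3) ^ j) * (80 * A ^ 4) ≤ n

namespace GP
/-- number of cells met by a monotone piece -/
noncomputable def mp (P : GP) : ℝ :=
  Real.sqrt (2 ^ (P.a * P.j)) * (6 * P.A * Real.sqrt (2 ^ P.a) * (4 * P.A ^ 3) ^ P.j)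
/-- spacing of levels -/
noncomputable def eta (P : GP) : ℝ := 1 / (8 * ((P.n : ℝ) + 1))
/-- total dyadic error -/
noncomputable def Xi (P : GP) : ℝ :=
  P.A * (2000 * ((P.n : ℝ) + 1) * Real.sqrt (P.K1 * P.L * P.e) * ((2 : ℝ) ^ P.k0) ^ (1 / 4 : ℝ)
    + 2 * P.n * Real.sqrt (2 ^ P.k0))
/-- loss factor of one step of the descent -/
noncomputable def loss (P : GP) : ℝ :=
  10 ^ 10 * P.A ^ 9 * Real.sqrt (2 ^ P.a) * (4 * P.A ^ 3) ^ P.j
end GP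

/-- the setting of the growth lemma -/
structure Ctx (P : GP) (E : Env) (u : Pt → ℝ) : Prop where
  good : GoodE P.A E (0, 0) (8 * 2 ^ P.s)
  harm : ∀ z ∈ bx (0, 0) (4 * 2 ^ P.s), Hm E u z
  energy : en E u (bx (0, 0) (4 * 2 ^ P.s)) ≤ P.e
  osc : ∀ (i : ℕ) (c : Pt), 4 * 2 ^ i ≤ 2 ^ P.s → bx c (4 * 2 ^ i) ⊆ bx (0, 0) (4 * 2 ^ P.s) →
    ∀ z ∈ bx c (2 ^ i), ∀ w ∈ bx c (2 ^ i),
      Real.sqrt (2 ^ i) * (u z - u w) ^ 2 ≤ P.L * en E u (bx c (4 * 2 ^ i))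

/-- good column -/
structure GCol (P : GP) (E : Env) (u : Pt → ℝ) (x : ℤ) : Prop where
  en : ∑ y ∈ Finset.Icc (-3 * 2 ^ P.s : ℤ) (3 * 2 ^ P.s), dd E u (x, y) ^ 2
    ≤ P.K1 * P.e / 2 ^ P.s
  os : ∀ i : ℕ, 4 * 2 ^ i ≤ 2 ^ P.s →
    ∑ k ∈ Finset.Icc (-3 * 2 ^ (P.s - i) : ℤ) (3 * 2 ^ (P.s - i)),
      osc (Finset.Icc (k * 2 ^ i - 2 ^ i) (k * 2 ^ i + 2 ^ i)) (fun y : ℤ => u (x, y)) ^ 2
    ≤ 81 * P.K1 * P.L * P.e * Real.sqrt (2 ^ i) / 2 ^ P.s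

/-- transposed function -/
def tru (u : Pt → ℝ) : Pt → ℝ := fun z => u (z.2, z.1)

/-- good row = good column after transposition -/
def GRow (P : GP) (E : Env) (u : Pt → ℝ) (y : ℤ) : Prop := GCol P E.tr (tru u) y

/-- conclusion of the growth lemma: a small box with a large ratio -/
def Concl (P : GP) (E : Env) (u : Pt → ℝ) : Prop :=
  ∃ c z w : Pt, bx c (4 * 2 ^ P.s') ⊆ bx (0, 0) (4 * 2 ^ P.s) ∧ z ∈ bx c (2 ^ P.s') ∧
    w ∈ bx c (2 ^ P.s') ∧ 0 < u z - u w ∧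
    Real.sqrt (2 ^ P.s) / (P.e * P.loss) * en E u (bx c (4 * 2 ^ P.s'))
      ≤ Real.sqrt (2 ^ P.s') * (u z - u w) ^ 2

/-- levels -/
structure Lv (P : GP) (E : Env) (u : Pt → ℝ) (cm cp : ℝ) (lev : ℕ → ℝ) : Prop where
  lo : cm ≤ lev 0
  hi : lev P.n ≤ cp
  step : ∀ b < P.n, lev b + P.eta ≤ lev (b + 1)
  rho : ∀ b ≤ P.n, rho E u (bx (0, 0) (4 * 2 ^ P.s)) (lev b) ≤ P.e / P.eta

end MHL
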