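import Pool.Agent.MHL.StE

/-!
# MHL: energy of a finitely supported function
-/

set_option autoImplicit false

namespace MHL

lemma e1_inj1 (E : Env) : Function.Injective E.s1 := by
  rintro ⟨x, y⟩ ⟨x', y'⟩ h
  simp only [Env.s1, Prod.mk.injEq] at h
  obtain ⟨h1, h2⟩ := h
  subst h2
  simp only [Prod.mk.injEq, and_true]
  omega

lemma e1_inj2 (E : Env) : Function.Injective E.s2 := by
  rintro ⟨x, y⟩ ⟨x', y'⟩ h
  simp only [Env.s2, Prod.mk.injEq] at h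
  obtain ⟨h1, h2⟩ := h
  subst h1
  simp only [Prod.mk.injEq, true_and]
  omega

/-- the sum of squares over an injective image is at most the sum over `B` -/
lemma e1_sq {s : Pt → Pt} (hs : Function.Injective s) (B V : Finset Pt) (ψ : Pt → ℝ)
    (h0 : ∀ z, z ∉ B → ψ z = 0) : ∑ z ∈ V, ψ (s z) ^ 2 ≤ ∑ z ∈ B, ψ z ^ 2 := by
  have h1 : ∑ z ∈ V, ψ (s z) ^ 2 = ∑ w ∈ V.image s, ψ w ^ 2 :=
    (Finset.sum_image (f := fun w => ψ w ^ 2) fun a _ b _ hab => hs hab).symm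
  have h2 : ∑ w ∈ V.image s ∪ B, ψ w ^ 2 = ∑ w ∈ B, ψ w ^ 2 := by
    symm
    refine Finset.sum_subset Finset.subset_union_right fun w _ hw => ?_
    rw [h0 w hw]; ring
  rw [h1, ← h2]
  exact Finset.sum_le_sum_of_subset_of_nonneg Finset.subset_union_left fun _ _ _ => sq_nonneg _

theorem thm_E1 : St_E1 := by
  intro E B U ψ h0
  have hmono : en E ψ U ≤ en E ψ (U ∪ B) := en_mono E ψ Finset.subset_union_left
  refine hmono.trans ?_
  have a1 := e1_sq (e1_inj1 E) B (U ∪ B) ψ h0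
  have a2 := e1_sq (e1_inj2 E) B (U ∪ B) ψ h0
  have a3 : ∑ z ∈ U ∪ B, ψ z ^ 2 = ∑ z ∈ B, ψ z ^ 2 := by
    symm
    refine Finset.sum_subset Finset.subset_union_right fun w _ hw => ?_
    rw [h0 w hw]; ring
  have a4 : ∑ z ∈ U ∪ B, ψ z * Pf E ψ z = ∑ z ∈ B, ψ z * Pf E ψ z := by
    symm
    refine Finset.sum_subset Finset.subset_union_right fun w _ hw => ?_
    rw [h0 w hw]; ring
  have a5 : en E ψ (U ∪ B) = (∑ z ∈ U ∪ B, ψ (E.s1 z) ^ 2 + ∑ z ∈ U ∪ B, ψ (E.s2 z) ^ 2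
      + 2 * ∑ z ∈ U ∪ B, ψ z ^ 2 - 4 * ∑ z ∈ U ∪ B, ψ z * Pf E ψ z) / 2 := by
    unfold en Pf
    congr 1
    rw [Finset.mul_sum, Finset.mul_sum, ← Finset.sum_add_distrib, ← Finset.sum_add_distrib,
      ← Finset.sum_sub_distrib]
    refine Finset.sum_congr rfl fun z _ => ?_
    ring
  have a6 : ∑ z ∈ B, ψ z * (ψ z - Pf E ψ z) = ∑ z ∈ B, ψ z ^ 2 - ∑ z ∈ B, ψ z * Pf E ψ z := by
    rw [← Finset.sum_sub_distrib]
    refine Finset.sum_congr rfl fun z _ => ?_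
    ring
  rw [a5, a6, a3, a4]
  linarith

end MHL
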