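import Pool.Agent.MHL.StE

/-!
# MHL: parameters for the exit times
-/

set_option autoImplicit false

namespace MHL

/-- `40000 + 30 log T` is eventually at most `T^ε / 20000` -/
lemma e10_ev (ε : ℝ) (hε : 0 < ε) : ∀ᶠ T : ℝ in Filter.atTop,
    20000 * (40000 + 30 * Real.log T) ≤ T ^ ε := by
  have h1 : Filter.Tendsto (fun T : ℝ => T ^ ε) Filter.atTop Filter.atTop :=
    tendsto_rpow_atTop hε
  have h2 : (fun T : ℝ => Real.log T) =o[Filter.atTop] fun T => T ^ ε :=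
    isLittleO_log_rpow_atTop hε
  have h3 := h2.bound (show (0 : ℝ) < 1 / 1200000 by norm_num)
  filter_upwards [h1.eventually_ge_atTop 1600000000, h3, Filter.eventually_ge_atTop 1]
    with T h4 h5 h6
  have h7 : 0 ≤ Real.log T := Real.log_nonneg h6
  rw [Real.norm_of_nonneg h7, Real.norm_of_nonneg (by positivity)] at h5
  linarith

lemma e10_exp (T : ℝ) (hT : 1 ≤ T) (n : ℕ) (hn : 40000 + 30 * Real.log T ≤ n) :
    4 * (4 * T + 1) ^ 3 ≤ (3 / 2 : ℝ) ^ n := by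
  have hT0 : 0 < T := by linarith
  have h1 : (1 / 3 : ℝ) ≤ Real.log (3 / 2) := by
    have := Real.one_sub_inv_le_log_of_pos (show (0 : ℝ) < 3 / 2 by norm_num)
    norm_num at this
    linarith
  have h2 : (3 / 2 : ℝ) ^ n = Real.exp (n * Real.log (3 / 2)) := by
    rw [mul_comm, Real.exp_mul, Real.exp_log (by norm_num), Real.rpow_natCast]
  have h3 : Real.exp (500 + 3 * Real.log T) ≤ Real.exp (n * Real.log (3 / 2)) := by
    apply Real.exp_le_exp.2
    have h4 : 0 ≤ Real.log T := Real.log_nonneg hT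
    have h5 : (n : ℝ) * (1 / 3) ≤ n * Real.log (3 / 2) :=
      mul_le_mul_of_nonneg_left h1 (Nat.cast_nonneg n)
    linarith
  have h4 : Real.exp (500 + 3 * Real.log T) = Real.exp 500 * T ^ 3 := by
    rw [Real.exp_add, mul_comm 3, Real.exp_mul, Real.exp_log hT0]
    norm_num
  have h5 : (501 : ℝ) ≤ Real.exp 500 := by
    have := Real.add_one_le_exp (500 : ℝ)
    linarith
  have h6 : 4 * (4 * T + 1) ^ 3 ≤ 500 * T ^ 3 := by
    have h7 : (4 * T + 1) ^ 3 ≤ (5 * T) ^ 3 :=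
      pow_le_pow_left₀ (by linarith) (by linarith) 3
    calc 4 * (4 * T + 1) ^ 3 ≤ 4 * (5 * T) ^ 3 := by linarith
      _ = 500 * T ^ 3 := by ring
  have h8 : 500 * T ^ 3 ≤ Real.exp 500 * T ^ 3 :=
    mul_le_mul_of_nonneg_right (by linarith) (by positivity)
  rw [h2]
  linarith

theorem thm_E10 : St_E10 := by
  intro ε hε _
  obtain ⟨T0, hT0⟩ := Filter.eventually_atTop.1 (e10_ev ε hε)
  refine ⟨max T0 1, fun T hT => ?_⟩
  have hT1 : 1 ≤ T := (le_max_right _ _).trans hT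
  have hT0' : 0 < T := by linarith
  have hlog : 0 ≤ Real.log T := Real.log_nonneg hT1
  have hmain := hT0 T ((le_max_left _ _).trans hT)
  set M : ℝ := 40000 + 30 * Real.log T with hM
  have hM0 : 40000 ≤ M := by rw [hM]; linarith
  refine ⟨hT1, ?_⟩
  -- the least `κ` with `M ≤ 2 ^ κ`
  have hex : ∃ κ : ℕ, M ≤ (2 : ℝ) ^ κ := by
    obtain ⟨κ, hκ⟩ := pow_unbounded_of_one_lt M (show (1 : ℝ) < 2 by norm_num)
    exact ⟨κ, hκ.le⟩
  classical
  obtain ⟨κ, h1, h2⟩ : ∃ κ : ℕ, M ≤ (2 : ℝ) ^ κ ∧ (2 : ℝ) ^ κ ≤ 2 * M := by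
    refine ⟨Nat.find hex, Nat.find_spec hex, ?_⟩
    rcases Nat.eq_zero_or_pos (Nat.find hex) with h0 | h0
    · rw [h0, pow_zero]; linarith
    · have h3 := Nat.find_min hex (show Nat.find hex - 1 < Nat.find hex by omega)
      rw [not_le] at h3
      have h4 : (2 : ℝ) ^ (Nat.find hex) = 2 * 2 ^ (Nat.find hex - 1) := by
        rw [← pow_succ']; congr 1; omega
      rw [h4]; linarith
  have hx : (0 : ℝ) < T ^ ε := by positivity
  have h3 : (10 : ℝ) ^ 4 * 2 ^ κ ≤ T ^ ε := by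
    calc (10 : ℝ) ^ 4 * 2 ^ κ ≤ 10 ^ 4 * (2 * M) := by linarith
      _ = 20000 * M := by ring
      _ ≤ T ^ ε := hmain
  refine ⟨κ, hM0.trans h1, ?_, ?_, ?_⟩
  · have e1 : T ^ (4 * ε) = (T ^ ε) ^ 3 * T ^ ε := by
      rw [← pow_succ, ← Real.rpow_natCast, ← Real.rpow_mul hT0'.le]
      congr 1; push_cast; ring
    rw [e1]
    apply mul_le_mul_of_nonneg_right _ hx.le
    calc (10 : ℝ) ^ 12 * ((2 : ℝ) ^ κ) ^ 3 = (10 ^ 4 * 2 ^ κ) ^ 3 := by ring
      _ ≤ (T ^ ε) ^ 3 := pow_le_pow_left₀ (by positivity) h3 3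
  · have h4 : T ^ ε ≤ T ^ (2 * ε) := Real.rpow_le_rpow_of_exponent_le hT1 (by linarith)
    have h5 : (0 : ℝ) < 2 ^ κ := by positivity
    linarith
  · refine e10_exp T hT1 (2 ^ κ) ?_
    push_cast
    exact h1

end MHL
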