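import Pool.Agent.MHL.StE

/-!
# MHL: maximum principle
-/

set_option autoImplicit false

namespace MHL

lemma e2_iter (E : Env) (z : Pt) (n : ℕ) : (E.s1)^[n] z = (z.1 + n * E.h z.2, z.2) := by
  induction n with
  | zero => simp
  | succ n ih =>
    rw [Function.iterate_succ_apply', ih]
    simp only [Env.s1, Prod.mk.injEq, and_true]
    push_cast
    ring

lemma e2_exit (E : Env) (B : Finset Pt) (z : Pt) : ∃ n : ℕ, (E.s1)^[n] z ∉ B := by
  by_contra hcon
  push Not at hcon
  have hinj : Function.Injective (fun n : ℕ => (E.s1)^[n] z) := by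
    intro a b hab
    simp only [e2_iter, Prod.mk.injEq, and_true] at hab
    rcases E.hh z.2 with h | h
    · rw [h] at hab; omega
    · rw [h] at hab; omega
  have hfin : (Set.range (fun n : ℕ => (E.s1)^[n] z)).Finite :=
    B.finite_toSet.subset (by rintro _ ⟨n, rfl⟩; exact hcon n)
  exact Set.infinite_range_of_injective hinj hfin

/-- a finitely supported function without energy vanishes -/
lemma e2_zero (E : Env) (B : Finset Pt) (f : Pt → ℝ) (h0 : ∀ z, z ∉ B → f z = 0)
    (hen : ∀ U : Finset Pt, en E f U ≤ 0) (z : Pt) : f z = 0 := by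
  have h1 : ∀ z, f (E.s1 z) = f z := by
    intro z
    have h := hen {z}
    unfold en at h
    rw [Finset.sum_singleton] at h
    have hs : (f (E.s1 z) - f z) ^ 2 ≤ 0 := by
      nlinarith [sq_nonneg (f (E.s1 z) - f z), sq_nonneg (f (E.s2 z) - f z)]
    have := pow_eq_zero_iff (two_ne_zero) |>.1 (le_antisymm hs (sq_nonneg _))
    linarith
  have h2 : ∀ n : ℕ, f ((E.s1)^[n] z) = f z := by
    intro n
    induction n with
    | zero => rfl
    | succ n ih => rw [Function.iterate_succ_apply', h1, ih]
  obtain ⟨n, hn⟩ := e2_exit E B z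
  rw [← h2 n, h0 _ hn]

theorem thm_E2 (h : St_E1) : St_E2 := by
  classical
  intro E B ψ hsub hbd
  set f : Pt → ℝ := fun z => if z ∈ B then max (ψ z) 0 else 0 with hf
  have h0 : ∀ z, z ∉ B → f z = 0 := fun z hz => by simp only [hf, if_neg hz]
  have hin : ∀ z, z ∈ B → f z = max (ψ z) 0 := fun z hz => by simp only [hf, if_pos hz]
  have hle : ∀ z, (z ∉ B → ψ z ≤ 0) → ψ z ≤ f z := by
    intro z hz
    by_cases hB : z ∈ B
    · rw [hin z hB]; exact le_max_left _ _
    · rw [h0 z hB]; exact hz hB
  have hterm : ∀ z ∈ B, f z * (f z - Pf E f z) ≤ 0 := by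
    intro z hz
    rcases le_or_gt (ψ z) 0 with hneg | hpos
    · rw [hin z hz, max_eq_right hneg]; simp
    · have e1 : f z = ψ z := by rw [hin z hz, max_eq_left hpos.le]
      have e2 : Pf E ψ z ≤ Pf E f z := by
        unfold Pf
        have := hle (E.s1 z) (hbd z hz).1
        have := hle (E.s2 z) (hbd z hz).2
        linarith
      have e3 := hsub z hz
      rw [e1]
      exact mul_nonpos_of_nonneg_of_nonpos hpos.le (by linarith)
  have hen : ∀ U : Finset Pt, en E f U ≤ 0 := by
    intro U
    have h1 := h E B U f h0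
    have h2 : ∑ z ∈ B, f z * (f z - Pf E f z) ≤ 0 := Finset.sum_nonpos hterm
    linarith
  intro z hz
  have h1 := e2_zero E B f h0 hen z
  rw [hin z hz] at h1
  exact (le_max_left _ _).trans h1.le

end MHL
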