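import Pool.Agent.MHL.StE

/-!
# MHL: existence of the Green function
-/

set_option autoImplicit false

namespace MHL

open Classical in
/-- extension by zero -/
noncomputable def e3_ext (B : Finset Pt) (f : B → ℝ) (z : Pt) : ℝ :=
  if h : z ∈ B then f ⟨z, h⟩ else 0

lemma e3_ext_mem (B : Finset Pt) (f : B → ℝ) (z : B) : e3_ext B f z = f z := by
  unfold e3_ext
  rw [dif_pos z.2]

lemma e3_ext_off (B : Finset Pt) (f : B → ℝ) {z : Pt} (h : z ∉ B) : e3_ext B f z = 0 := by
  unfold e3_ext
  rw [dif_neg h]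

lemma e3_ext_add (B : Finset Pt) (f g : B → ℝ) (z : Pt) :
    e3_ext B (f + g) z = e3_ext B f z + e3_ext B g z := by
  unfold e3_ext
  split_ifs <;> simp

lemma e3_ext_smul (B : Finset Pt) (c : ℝ) (f : B → ℝ) (z : Pt) :
    e3_ext B (c • f) z = c * e3_ext B f z := by
  unfold e3_ext
  split_ifs <;> simp

/-- the operator `1 - P` on functions on `B` -/
noncomputable def e3_T (E : Env) (B : Finset Pt) : (B → ℝ) →ₗ[ℝ] (B → ℝ) where
  toFun f := fun z => e3_ext B f z - Pf E (e3_ext B f) z
  map_add' f g := by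
    funext z
    simp only [Pi.add_apply, Pf, e3_ext_add]
    ring
  map_smul' c f := by
    funext z
    simp only [Pi.smul_apply, Pf, e3_ext_smul, smul_eq_mul, RingHom.id_apply]
    ring

lemma e3_le (h : St_E2) (E : Env) (B : Finset Pt) (f : B → ℝ)
    (hf : ∀ z : B, e3_T E B f z = 0) (z : B) : f z ≤ 0 := by
  have h1 := h E B (e3_ext B f) ?_ ?_ z z.2
  · rwa [e3_ext_mem] at h1
  · intro w hw
    have := hf ⟨w, hw⟩
    simp only [e3_T, LinearMap.coe_mk, AddHom.coe_mk] at this
    linarith
  · intro w _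
    exact ⟨fun h => (e3_ext_off B f h).le, fun h => (e3_ext_off B f h).le⟩

theorem thm_E3 (h : St_E2) : St_E3 := by
  intro E B g
  have hinj : Function.Injective (e3_T E B) := by
    rw [← LinearMap.ker_eq_bot, LinearMap.ker_eq_bot']
    intro f hf
    have h1 : ∀ z, f z ≤ 0 := e3_le h E B f fun z => by rw [hf]; rfl
    have h2 : ∀ z, (-f) z ≤ 0 := e3_le h E B (-f) fun z => by rw [map_neg, hf]; simp
    funext z
    have := h1 z
    have h3 := h2 z
    simp only [Pi.neg_apply] at h3
    simp only [Pi.zero_apply]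
    linarith
  have hsurj : Function.Surjective (e3_T E B) := LinearMap.injective_iff_surjective.1 hinj
  obtain ⟨f, hf⟩ := hsurj (fun z => g z)
  refine ⟨e3_ext B f, fun z hz => e3_ext_off B f hz, fun z hz => ?_⟩
  have := congrFun hf ⟨z, hz⟩
  simp only [e3_T, LinearMap.coe_mk, AddHom.coe_mk] at this
  exact this

end MHL
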