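import Pool.Agent.MHL.StE

/-!
# MHL: `L²` bound by exit times
-/

set_option autoImplicit false

namespace MHL

lemma e4_pos (h2 : St_E2) {E : Env} {B : Finset Pt} {g f : Pt → ℝ} (h : Gr E B g f)
    (hg : ∀ z ∈ B, 0 ≤ g z) (z : Pt) : 0 ≤ f z := by
  by_cases hz : z ∈ B
  · have h1 : ∀ z ∈ B, (fun z => -f z) z ≤ 0 := by
      refine h2 E B (fun z => -f z) ?_ ?_
      · intro y hy
        have h3 := h.eq y hy
        have h4 := hg y hy
        unfold Pf at h3 ⊢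
        linarith
      · intro y _
        refine ⟨fun h3 => ?_, fun h3 => ?_⟩
        · simp [h.off _ h3]
        · simp [h.off _ h3]
    have := h1 z hz
    simp only [Left.neg_nonpos_iff] at this
    exact this
  · rw [h.off z hz]

lemma e4_reindex (σ τ : Pt → Pt) (h1 : ∀ z, σ (τ z) = z) (h2 : ∀ z, τ (σ z) = z)
    (B : Finset Pt) (f g : Pt → ℝ) (hf : ∀ z, z ∉ B → f z = 0) (hg : ∀ z, z ∉ B → g z = 0) :
    ∑ z ∈ B, f z * g (τ z) = ∑ z ∈ B, f (σ z) * g z := by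
  classical
  have e1 : ∑ z ∈ B, f z * g (τ z) = ∑ z ∈ B.filter (fun z => τ z ∈ B), f z * g (τ z) := by
    rw [Finset.sum_filter]
    refine Finset.sum_congr rfl fun z _ => ?_
    split_ifs with h
    · rfl
    · rw [hg _ h, mul_zero]
  have e2 : ∑ z ∈ B, f (σ z) * g z = ∑ z ∈ B.filter (fun z => σ z ∈ B), f (σ z) * g z := by
    rw [Finset.sum_filter]
    refine Finset.sum_congr rfl fun z _ => ?_
    split_ifs with h
    · rfl
    · rw [hf _ h, zero_mul]
  rw [e1, e2]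
  refine Finset.sum_nbij' τ σ ?_ ?_ ?_ ?_ ?_
  · intro z hz
    rw [Finset.mem_filter] at hz ⊢
    rw [h1]
    exact ⟨hz.2, hz.1⟩
  · intro z hz
    rw [Finset.mem_filter] at hz ⊢
    rw [h2]
    exact ⟨hz.2, hz.1⟩
  · intro z _; exact h1 z
  · intro z _; exact h2 z
  · intro z _; rw [h1]

lemma e4_adj (E : Env) (B : Finset Pt) (w t : Pt → ℝ) (hw : ∀ z, z ∉ B → w z = 0)
    (ht : ∀ z, z ∉ B → t z = 0) :
    ∑ z ∈ B, w z * Pf E.rev t z = ∑ z ∈ B, Pf E w z * t z := by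
  have a1 : ∑ z ∈ B, w z * t (E.rev.s1 z) = ∑ z ∈ B, w (E.s1 z) * t z := by
    refine e4_reindex E.s1 E.rev.s1 ?_ ?_ B w t hw ht
    · intro z; simp [Env.s1, Env.rev]
    · intro z; simp [Env.s1, Env.rev]
  have a2 : ∑ z ∈ B, w z * t (E.rev.s2 z) = ∑ z ∈ B, w (E.s2 z) * t z := by
    refine e4_reindex E.s2 E.rev.s2 ?_ ?_ B w t hw ht
    · intro z; simp [Env.s2, Env.rev]
    · intro z; simp [Env.s2, Env.rev]
  have b1 : ∑ z ∈ B, w z * Pf E.rev t z =
      (∑ z ∈ B, w z * t (E.rev.s1 z) + ∑ z ∈ B, w z * t (E.rev.s2 z)) / 2 := by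
    rw [← Finset.sum_add_distrib, Finset.sum_div]
    refine Finset.sum_congr rfl fun z _ => ?_
    unfold Pf; ring
  have b2 : ∑ z ∈ B, Pf E w z * t z =
      (∑ z ∈ B, w (E.s1 z) * t z + ∑ z ∈ B, w (E.s2 z) * t z) / 2 := by
    rw [← Finset.sum_add_distrib, Finset.sum_div]
    refine Finset.sum_congr rfl fun z _ => ?_
    unfold Pf; ring
  rw [b1, b2, a1, a2]

theorem thm_E4 (h2 : St_E2) (h3 : St_E3) : St_E4 := by
  intro E B M g ψ t t' hψ ht ht' htM ht'M
  obtain ⟨w, hw⟩ := h3 E B (fun z => g z ^ 2)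
  have hw0 : ∀ z, 0 ≤ w z := e4_pos h2 hw fun z _ => sq_nonneg _
  have ht0 : ∀ z, 0 ≤ t z := e4_pos h2 ht fun z _ => zero_le_one
  rcases B.eq_empty_or_nonempty with rfl | ⟨z0, hz0⟩
  · simp
  have hM : 0 ≤ M := (ht0 z0).trans (htM z0 hz0)
  -- the pointwise inequality
  have hpt : ∀ z, ψ z ^ 2 ≤ t z * w z := by
    intro z
    have h4 : ∀ a : ℝ, 0 ≤ t z * (a * a) + (-2 * ψ z) * a + w z := by
      intro a
      have h5 : Gr E B (fun z => (g z - a) ^ 2) (fun z => w z - 2 * a * ψ z + a ^ 2 * t z) := by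
        refine ⟨fun y hy => ?_, fun y hy => ?_⟩
        · simp only [hw.off y hy, hψ.off y hy, ht.off y hy]; ring
        · have e1 := hw.eq y hy
          have e2 := hψ.eq y hy
          have e3 := ht.eq y hy
          unfold Pf at e1 e2 e3 ⊢
          linear_combination e1 - 2 * a * e2 + a ^ 2 * e3
      have h6 := e4_pos h2 h5 (fun y _ => sq_nonneg _) z
      linarith
    have h7 := discrim_le_zero h4
    unfold discrim at h7
    linarith
  -- adjointness
  have hadj : ∑ z ∈ B, w z = ∑ z ∈ B, g z ^ 2 * t' z := by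
    have h4 := e4_adj E B w t' hw.off ht'.off
    have h5 : ∑ z ∈ B, w z = ∑ z ∈ B, w z * t' z - ∑ z ∈ B, w z * Pf E.rev t' z := by
      rw [← Finset.sum_sub_distrib]
      refine Finset.sum_congr rfl fun z hz => ?_
      have h6 := ht'.eq z hz
      rw [← mul_sub, h6, mul_one]
    have h6 : ∑ z ∈ B, g z ^ 2 * t' z = ∑ z ∈ B, w z * t' z - ∑ z ∈ B, Pf E w z * t' z := by
      rw [← Finset.sum_sub_distrib]
      refine Finset.sum_congr rfl fun z hz => ?_
      have h7 := hw.eq z hz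
      rw [← sub_mul, h7]
    rw [h5, h6, h4]
  calc ∑ z ∈ B, ψ z ^ 2 ≤ ∑ z ∈ B, M * w z := by
        refine Finset.sum_le_sum fun z hz => (hpt z).trans ?_
        exact mul_le_mul_of_nonneg_right (htM z hz) (hw0 z)
    _ = M * ∑ z ∈ B, g z ^ 2 * t' z := by rw [← Finset.mul_sum, hadj]
    _ ≤ M * ∑ z ∈ B, g z ^ 2 * M := by
        refine mul_le_mul_of_nonneg_left (Finset.sum_le_sum fun z hz => ?_) hM
        exact mul_le_mul_of_nonneg_left (ht'M z hz) (sq_nonneg _)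
    _ = M ^ 2 * ∑ z ∈ B, g z ^ 2 := by rw [← Finset.sum_mul]; ring

end MHL
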