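import Pool.Agent.MHL.StE

/-!
# MHL E5: trivial bound for the exit time of a box
-/

set_option autoImplicit false

namespace MHL

lemma e5_card (c : Pt) (r : ℕ) : ((bx c r).card : ℝ) = (2 * (r : ℝ) + 1) ^ 2 := by
  have h : (bx c r).card = (2 * r + 1) * (2 * r + 1) := by
    unfold bx
    rw [Finset.card_Icc_prod, Int.card_Icc, Int.card_Icc]
    congr 1
    · dsimp only; omega
    · dsimp only; omega
  rw [h]; push_cast; ring

lemma e5_nonneg (h2 : St_E2) {E : Env} {B : Finset Pt} {t : Pt → ℝ}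
    (ht : Gr E B (fun _ => 1) t) (z : Pt) : 0 ≤ t z := by
  by_cases hz : z ∈ B
  · have := h2 E B (fun w => - t w) ?_ ?_ z hz
    · linarith
    · intro w hw
      have h := ht.eq w hw
      unfold Pf at h ⊢
      dsimp only at h ⊢
      linarith
    · intro w hw
      refine ⟨fun h => ?_, fun h => ?_⟩
      · rw [ht.off _ h]; simp
      · rw [ht.off _ h]; simp
  · rw [ht.off z hz]

lemma e5_edge (E : Env) (t : Pt → ℝ) (x y : ℤ) :
    (t (x + 1, y) - t (x, y)) ^ 2 ≤ dd E t (x, y) ^ 2 ∨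
    (t (x + 1, y) - t (x, y)) ^ 2 ≤ dd E t (x + 1, y) ^ 2 := by
  unfold dd Env.s1
  dsimp only
  rcases E.hh y with h | h
  · left; rw [h]
  · right; rw [h]
    have : x + 1 + -1 = x := by ring
    rw [this]
    nlinarith

lemma e5_sum (E : Env) (t : Pt → ℝ) (x y : ℤ) (n : ℕ) :
    ∑ i ∈ Finset.range n, (t (x + (i : ℤ) + 1, y) - t (x + (i : ℤ), y)) ^ 2 ≤
      ∑ i ∈ Finset.range (n + 1), dd E t (x + (i : ℤ), y) ^ 2 := by
  rcases E.hh y with h | h
  · rw [Finset.sum_range_succ]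
    have : ∑ i ∈ Finset.range n, (t (x + (i : ℤ) + 1, y) - t (x + (i : ℤ), y)) ^ 2 ≤
      ∑ i ∈ Finset.range n, dd E t (x + (i : ℤ), y) ^ 2 := by
      refine Finset.sum_le_sum fun i _ => ?_
      unfold dd Env.s1; dsimp only; rw [h]
    have h0 := sq_nonneg (dd E t (x + (n : ℤ), y))
    linarith
  · rw [Finset.sum_range_succ']
    have : ∑ i ∈ Finset.range n, (t (x + (i : ℤ) + 1, y) - t (x + (i : ℤ), y)) ^ 2 ≤
      ∑ i ∈ Finset.range n, dd E t (x + ((i + 1 : ℕ) : ℤ), y) ^ 2 := by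
      refine Finset.sum_le_sum fun i _ => ?_
      unfold dd Env.s1; dsimp only; rw [h]
      have e1 : x + ((i + 1 : ℕ) : ℤ) + -1 = x + (i : ℤ) := by push_cast; ring
      have e2 : x + ((i + 1 : ℕ) : ℤ) = x + (i : ℤ) + 1 := by push_cast; ring
      rw [e1, e2]
      nlinarith
    have h0 := sq_nonneg (dd E t (x + ((0 : ℕ) : ℤ), y))
    linarith

lemma e5_path (E : Env) (t : Pt → ℝ) (x y : ℤ) (n : ℕ) :
    (t (x + (n : ℤ), y) - t (x, y)) ^ 2 ≤
      n * (2 * en E t ((Finset.range (n + 1)).image fun i : ℕ => ((x + (i : ℤ), y) : Pt))) := by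
  have h1 : t (x + (n : ℤ), y) - t (x, y) =
      ∑ i ∈ Finset.range n, (t (x + (i : ℤ) + 1, y) - t (x + (i : ℤ), y)) := by
    have := Finset.sum_range_sub (fun i : ℕ => t (x + (i : ℤ), y)) n
    rw [show x + ((0 : ℕ) : ℤ) = x by simp] at this
    rw [← this]
    refine Finset.sum_congr rfl fun i _ => ?_
    rw [show x + ((i + 1 : ℕ) : ℤ) = x + (i : ℤ) + 1 by push_cast; ring]
  have h2 : (∑ i ∈ Finset.range n, (t (x + (i : ℤ) + 1, y) - t (x + (i : ℤ), y))) ^ 2 ≤
      n * ∑ i ∈ Finset.range n, (t (x + (i : ℤ) + 1, y) - t (x + (i : ℤ), y)) ^ 2 := by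
    have := sq_sum_le_card_mul_sum_sq (s := Finset.range n)
      (f := fun i : ℕ => t (x + (i : ℤ) + 1, y) - t (x + (i : ℤ), y))
    simpa using this
  rw [h1]
  refine h2.trans (mul_le_mul_of_nonneg_left ((e5_sum E t x y n).trans ?_) (by positivity))
  have h3 : ∑ z ∈ (Finset.range (n + 1)).image (fun i : ℕ => ((x + (i : ℤ), y) : Pt)), dd E t z ^ 2 =
      ∑ i ∈ Finset.range (n + 1), dd E t (x + (i : ℤ), y) ^ 2 := by
    rw [Finset.sum_image]
    intro a _ b _ hab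
    simpa using hab
  rw [← h3]
  unfold en
  have : ∀ U : Finset Pt, ∑ z ∈ U, dd E t z ^ 2 ≤
      2 * ((∑ z ∈ U, ((t (E.s1 z) - t z) ^ 2 + (t (E.s2 z) - t z) ^ 2)) / 2) := by
    intro U
    rw [mul_div_cancel₀ _ (two_ne_zero)]
    refine Finset.sum_le_sum fun z _ => ?_
    unfold dd
    have := sq_nonneg (t (E.s2 z) - t z)
    linarith
  exact this _

lemma e5_en (h1 : St_E1) {E : Env} {B : Finset Pt} {t : Pt → ℝ}
    (ht : Gr E B (fun _ => 1) t) (m : ℝ) (hm : ∀ z ∈ B, t z ≤ m) (U : Finset Pt) :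
    en E t U ≤ 2 * (B.card * m) := by
  refine (h1 E B U t ht.off).trans ?_
  refine mul_le_mul_of_nonneg_left ?_ (by norm_num)
  calc ∑ z ∈ B, t z * (t z - Pf E t z) ≤ ∑ z ∈ B, m := by
        refine Finset.sum_le_sum fun z hz => ?_
        rw [ht.eq z hz, mul_one]; exact hm z hz
    _ = B.card * m := by rw [Finset.sum_const, nsmul_eq_mul]

theorem thm_E5 (h1 : St_E1) (h2 : St_E2) : St_E5 := by
  intro E c r t ht z
  have hne : (bx c r).Nonempty := ⟨c, by rw [mem_bx]; simp⟩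
  obtain ⟨w, hw, hmax⟩ := (bx c r).exists_max_image t hne
  have hnn := e5_nonneg h2 ht
  have hmaxall : ∀ z, t z ≤ t w := by
    intro z
    by_cases hz : z ∈ bx c r
    · exact hmax z hz
    · rw [ht.off z hz]; exact hnn w
  refine (hmaxall z).trans ?_
  have hw' := hw
  rw [mem_bx] at hw'
  obtain ⟨hwx, hwy⟩ := hw'
  rw [abs_le] at hwx
  set n : ℕ := (c.1 + r - w.1).toNat + 1 with hn
  have hn1 : (n : ℤ) = c.1 + r - w.1 + 1 := by omega
  have hn2 : (n : ℝ) ≤ 2 * r + 1 := by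
    have : (n : ℤ) ≤ 2 * r + 1 := by omega
    exact_mod_cast this
  have hout : t (w.1 + (n : ℤ), w.2) = 0 := by
    apply ht.off
    rw [mem_bx]
    rintro ⟨h, _⟩
    rw [abs_le] at h
    dsimp only at h
    omega
  have hpath := e5_path E t w.1 w.2 n
  rw [hout] at hpath
  have hen := e5_en h1 ht (t w) hmax ((Finset.range (n + 1)).image fun i : ℕ => ((w.1 + (i : ℤ), w.2) : Pt))
  rw [e5_card] at hen
  have hww : t (w.1, w.2) = t w := rfl
  rw [hww] at hpath
  have hm0 := hnn w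
  have hen0 := en_nonneg E t ((Finset.range (n + 1)).image fun i : ℕ => ((w.1 + (i : ℤ), w.2) : Pt))
  set e := en E t ((Finset.range (n + 1)).image fun i : ℕ => ((w.1 + (i : ℤ), w.2) : Pt)) with he
  have h3 : (t w) ^ 2 ≤ (4 * (2 * (r : ℝ) + 1) ^ 3) * t w := by
    have a1 : (n : ℝ) * (2 * e) ≤ (2 * r + 1) * (2 * e) := mul_le_mul_of_nonneg_right hn2 (by linarith)
    have a2 : (2 * (r : ℝ) + 1) * (2 * e) ≤ (2 * r + 1) * (2 * (2 * ((2 * (r : ℝ) + 1) ^ 2 * t w))) :=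
      mul_le_mul_of_nonneg_left (by linarith) (by positivity)
    nlinarith
  by_contra hcon
  rw [not_le] at hcon
  have : 0 < t w := lt_of_le_of_lt (by positivity) hcon
  nlinarith

end MHL
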