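import Pool.Agent.MHL.StE

/-!
# MHL: chaining
-/

set_option autoImplicit false

namespace MHL

/-- a horizontal leg -/
lemma e6_hor {f : Pt → ℝ} {c : Pt} {R r : ℕ} {δ : ℝ}
    (h : ∀ p ∈ bx c R, ∀ q ∈ bx p r, |f p - f q| ≤ δ) {z : Pt} (hz : z ∈ bx c R) (n : ℕ) :
    ∀ k : ℤ, (z.1 + k, z.2) ∈ bx c R → |k| ≤ n * r → |f z - f (z.1 + k, z.2)| ≤ n * δ := by
  induction n with
  | zero =>
    intro k _ hk
    have : k = 0 := by
      rw [abs_le] at hk
      push_cast at hk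
      omega
    subst this
    simp
  | succ n ih =>
    intro k hk hkn
    have hn : (0 : ℝ) ≤ n := Nat.cast_nonneg n
    have hstep : ∃ k' : ℤ, (z.1 + k', z.2) ∈ bx c R ∧ |k'| ≤ n * r ∧ |k - k'| ≤ r := by
      rw [mem_bx] at hz hk
      have e : ((n + 1 : ℕ) : ℤ) * r = n * r + r := by push_cast; ring
      rw [e] at hkn
      have hnr : (0 : ℤ) ≤ n * r := by positivity
      have hr0 : (0 : ℤ) ≤ r := by positivity
      simp only [abs_le] at hz hk hkn
      rcases le_or_gt |k| (r : ℤ) with h1 | h1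
      · refine ⟨0, ?_, ?_, ?_⟩
        · rw [mem_bx]; simp only [abs_le, add_zero]; exact hz
        · simpa using hnr
        · simpa using h1
      · rcases le_or_gt 0 k with h2 | h2
        · rw [abs_of_nonneg h2] at h1
          refine ⟨k - r, ?_, ?_, ?_⟩
          · rw [mem_bx]; simp only [abs_le]; omega
          · rw [abs_le]; omega
          · rw [abs_le]; omega
        · rw [abs_of_neg h2] at h1
          refine ⟨k + r, ?_, ?_, ?_⟩
          · rw [mem_bx]; simp only [abs_le]; omega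
          · rw [abs_le]; omega
          · rw [abs_le]; omega
    obtain ⟨k', h1, h2, h3⟩ := hstep
    have h4 := ih k' h1 h2
    have h5 := h (z.1 + k', z.2) h1 (z.1 + k, z.2) (by
      rw [mem_bx]
      refine ⟨?_, by simp⟩
      have : (z.1 + k - (z.1 + k') : ℤ) = k - k' := by ring
      show |z.1 + k - (z.1 + k')| ≤ (r : ℤ)
      rw [this]; exact h3)
    have h6 := abs_sub_le (f z) (f (z.1 + k', z.2)) (f (z.1 + k, z.2))
    push_cast
    linarith

/-- a vertical leg -/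
lemma e6_ver {f : Pt → ℝ} {c : Pt} {R r : ℕ} {δ : ℝ}
    (h : ∀ p ∈ bx c R, ∀ q ∈ bx p r, |f p - f q| ≤ δ) {z : Pt} (hz : z ∈ bx c R) (n : ℕ) (k : ℤ)
    (hk : (z.1, z.2 + k) ∈ bx c R) (hkn : |k| ≤ n * r) : |f z - f (z.1, z.2 + k)| ≤ n * δ := by
  have h' : ∀ p ∈ bx (c.2, c.1) R, ∀ q ∈ bx p r, |f (p.2, p.1) - f (q.2, q.1)| ≤ δ := by
    intro p hp q hq
    refine h (p.2, p.1) ?_ (q.2, q.1) ?_
    · rw [mem_bx] at hp ⊢; exact ⟨hp.2, hp.1⟩
    · rw [mem_bx] at hq ⊢; exact ⟨hq.2, hq.1⟩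
  have := e6_hor (f := fun p => f (p.2, p.1)) h' (z := (z.2, z.1)) (by
    rw [mem_bx] at hz ⊢; exact ⟨hz.2, hz.1⟩) n k (by
    rw [mem_bx] at hk ⊢; exact ⟨hk.2, hk.1⟩) hkn
  exact this

theorem thm_E6 : St_E6 := by
  intro f c R r δ hr hδ h z hz w hw
  set n : ℕ := 2 * R / r + 1 with hn
  have hnr : 2 * R ≤ n * r := by
    have h1 := Nat.div_add_mod (2 * R) r
    have h2 := Nat.mod_lt (2 * R) (show 0 < r by omega)
    have h3 : n * r = r * (2 * R / r) + r := by rw [hn]; ring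
    rw [h3]; omega
  have hnr' : (2 * R : ℤ) ≤ n * r := by exact_mod_cast hnr
  have hn2 : (n : ℝ) ≤ 2 * R / r + 1 := by
    rw [hn]; push_cast
    have := @Nat.cast_div_le ℝ _ _ _ (2 * R) r
    push_cast at this
    linarith
  have hmid : (w.1, z.2) ∈ bx c R := by
    rw [mem_bx] at hz hw ⊢; exact ⟨hw.1, hz.2⟩
  have hz' := hz
  have hw' := hw
  rw [mem_bx] at hz' hw'
  simp only [abs_le] at hz' hw'
  have e1 : z.1 + (w.1 - z.1) = w.1 := by ring
  have e2 : z.2 + (w.2 - z.2) = w.2 := by ring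
  have h1 := e6_hor h hz n (w.1 - z.1) (by rw [e1]; exact hmid) (by rw [abs_le]; omega)
  have h2 := e6_ver h hmid n (w.2 - z.2) (by
    show (w.1, z.2 + (w.2 - z.2)) ∈ bx c R
    rw [e2]; exact hw) (by rw [abs_le]; omega)
  rw [e1] at h1
  have h2' : |f (w.1, z.2) - f w| ≤ n * δ := by
    have e3 : (((w.1, z.2) : Pt).1, ((w.1, z.2) : Pt).2 + (w.2 - z.2)) = w := by
      show (w.1, z.2 + (w.2 - z.2)) = w
      rw [e2]
    rw [e3] at h2
    exact h2
  have h3 := abs_sub_le (f z) (f (w.1, z.2)) (f w)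
  have h4 : (n : ℝ) * δ ≤ (2 * R / r + 1) * δ := mul_le_mul_of_nonneg_right hn2 hδ
  have h5 : (4 * (R : ℝ) / r + 2) * δ = (2 * R / r + 1) * δ + (2 * R / r + 1) * δ := by ring
  rw [h5]
  linarith

end MHL
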