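import Pool.Agent.MHL.StE

/-!
# MHL E7: local oscillation of an exit time
-/

set_option autoImplicit false

namespace MHL

lemma e7_nonneg (h2 : St_E2) {E : Env} {B : Finset Pt} {t : Pt → ℝ}
    (ht : Gr E B (fun _ => 1) t) (z : Pt) : 0 ≤ t z := by
  by_cases hz : z ∈ B
  · have := h2 E B (fun w => - t w) ?_ ?_ z hz
    · linarith
    · intro w hw
      have h := ht.eq w hw
      unfold Pf at h ⊢
      dsimp only at h ⊢
      linarith
    · intro w hw
      refine ⟨fun h => ?_, fun h => ?_⟩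
      · rw [ht.off _ h]; simp
      · rw [ht.off _ h]; simp
  · rw [ht.off z hz]

lemma e7_en (h1 : St_E1) {E : Env} {B : Finset Pt} {t : Pt → ℝ}
    (ht : Gr E B (fun _ => 1) t) (m : ℝ) (hm : ∀ z ∈ B, t z ≤ m) (U : Finset Pt) :
    en E t U ≤ 2 * (B.card * m) := by
  refine (h1 E B U t ht.off).trans ?_
  refine mul_le_mul_of_nonneg_left ?_ (by norm_num)
  calc ∑ z ∈ B, t z * (t z - Pf E t z) ≤ ∑ z ∈ B, m := by
        refine Finset.sum_le_sum fun z hz => ?_
        rw [ht.eq z hz, mul_one]; exact hm z hz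
    _ = B.card * m := by rw [Finset.sum_const, nsmul_eq_mul]

lemma e7_en_sub (E : Env) (f g : Pt → ℝ) (U : Finset Pt) :
    en E (fun z => f z - g z) U ≤ 2 * en E f U + 2 * en E g U := by
  have : 2 * en E f U + 2 * en E g U = (∑ z ∈ U,
      (2 * ((f (E.s1 z) - f z) ^ 2 + (f (E.s2 z) - f z) ^ 2) +
      2 * ((g (E.s1 z) - g z) ^ 2 + (g (E.s2 z) - g z) ^ 2))) / 2 := by
    unfold en
    rw [Finset.sum_add_distrib (f := fun z => 2 * ((f (E.s1 z) - f z) ^ 2 + (f (E.s2 z) - f z) ^ 2)),
      ← Finset.mul_sum, ← Finset.mul_sum]; ring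
  rw [this]
  unfold en
  refine div_le_div_of_nonneg_right (Finset.sum_le_sum fun z _ => ?_) (by norm_num)
  nlinarith [sq_nonneg ((f (E.s1 z) - f z) + (g (E.s1 z) - g z)),
    sq_nonneg ((f (E.s2 z) - f z) + (g (E.s2 z) - g z))]

theorem thm_E7 (h1 : St_E1) (h2 : St_E2) : St_E7 := by
  intro E Λ T m M0 s c B t tl hMT hΛ hs hsub ht hm htl hM0 w hw
  have ht0 := e7_nonneg h2 ht
  have htl0 := e7_nonneg h2 htl
  set V := bx c (4 * 2 ^ s) with hV
  -- tl ≤ t
  have hle : ∀ z, tl z ≤ t z := by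
    intro z
    by_cases hz : z ∈ V
    · have := h2 E V (fun w => tl w - t w) ?_ ?_ z hz
      · linarith
      · intro x hx
        have a1 := ht.eq x (hsub hx)
        have a2 := htl.eq x hx
        unfold Pf at a1 a2 ⊢
        dsimp only at a1 a2 ⊢
        linarith
      · intro x hx
        refine ⟨fun h => ?_, fun h => ?_⟩
        · rw [htl.off _ h]; linarith [ht0 (E.s1 x)]
        · rw [htl.off _ h]; linarith [ht0 (E.s2 x)]
    · rw [htl.off z hz]; exact ht0 z
  have hm0 : 0 ≤ m := (ht0 c).trans (hm c)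
  have hharm : ∀ z ∈ V, Hm E (fun z => t z - tl z) z := by
    intro z hz
    have a1 := ht.eq z (hsub hz)
    have a2 := htl.eq z hz
    unfold Pf at a1 a2
    unfold Hm
    dsimp only at a1 a2 ⊢
    linarith
  have hcw : c ∈ bx c (2 ^ s) := by rw [mem_bx]; simp
  have hmt := hMT s hs c (fun z => t z - tl z) hharm c hcw w hw
  have hcard : (V.card : ℝ) ≤ B.card := by exact_mod_cast Finset.card_le_card hsub
  have hen : en E (fun z => t z - tl z) V ≤ 8 * (B.card * m) := by
    have a1 := e7_en_sub E t tl V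
    have a2 := e7_en h1 ht m (fun z _ => hm z) V
    have a3 := e7_en h1 htl m (fun z _ => (hle z).trans (hm z)) V
    have a4 : (V.card : ℝ) * m ≤ B.card * m := mul_le_mul_of_nonneg_right hcard hm0
    linarith
  have hsq : 0 < Real.sqrt (2 ^ s) := Real.sqrt_pos.2 (by positivity)
  have hkey : ((t c - tl c) - (t w - tl w)) ^ 2 ≤ 8 * Λ * B.card * m / Real.sqrt (2 ^ s) := by
    rw [le_div_iff₀ hsq]
    have a5 := mul_le_mul_of_nonneg_left hen hΛ
    linarith
  have hab := Real.abs_le_sqrt hkey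
  have h3 : |tl c - tl w| ≤ M0 := by
    rw [abs_le]
    have := htl0 c; have := htl0 w; have := hM0 c; have := hM0 w
    constructor <;> linarith
  have h4 : t c - t w = ((t c - tl c) - (t w - tl w)) + (tl c - tl w) := by ring
  rw [h4]
  exact (abs_add_le _ _).trans (add_le_add hab h3)

end MHL
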