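import Pool.Agent.MHL.StE

/-!
# MHL: growth of the exit times
-/

set_option autoImplicit false

namespace MHL

lemma e8_succ_mem {c z w : Pt} {a : ℕ} (hz : z ∈ bx c a) (h : adj4 z w) : w ∈ bx c (a + 1) := by
  rw [mem_bx] at hz ⊢
  obtain ⟨h1, h2⟩ := hz
  rw [adj4_iff] at h
  rw [abs_le] at h1 h2
  push_cast
  rw [abs_le, abs_le]
  rcases h with ⟨h3, h4 | h4⟩ | ⟨h3, h4 | h4⟩ <;> refine ⟨⟨?_, ?_⟩, ⟨?_, ?_⟩⟩ <;> omega

lemma e8_nonneg (h : St_E2) {E : Env} {B : Finset Pt} {t : Pt → ℝ}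
    (ht : Gr E B (fun _ => 1) t) (z : Pt) : 0 ≤ t z := by
  by_cases hz : z ∈ B
  · have := h E B (fun z => - t z) (fun z hz => by
      have h1 := ht.eq z hz
      unfold Pf at h1 ⊢
      linarith) (fun z _ => ⟨fun h2 => by
        show - t (E.s1 z) ≤ 0
        rw [ht.off _ h2]; simp, fun h2 => by
        show - t (E.s2 z) ≤ 0
        rw [ht.off _ h2]; simp⟩) z hz
    have h3 : - t z ≤ 0 := this
    linarith
  · rw [ht.off z hz]

theorem thm_E8 (h : St_E2) : St_E8 := by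
  intro E c a b t0 t1 Δ z0 hab h0 h1 hz0 hosc
  have hsub : bx c a ⊆ bx c b := by
    intro z hz
    rw [mem_bx] at hz ⊢
    have : (a : ℤ) ≤ b := by exact_mod_cast (by omega : a ≤ b)
    exact ⟨hz.1.trans this, hz.2.trans this⟩
  have hsub' : bx c a ⊆ bx c (a + 1) := by
    intro z hz
    rw [mem_bx] at hz ⊢
    have : (a : ℤ) ≤ ((a + 1 : ℕ) : ℤ) := by exact_mod_cast (by omega : a ≤ a + 1)
    exact ⟨hz.1.trans this, hz.2.trans this⟩
  have hcmp : ∀ z ∈ bx c a, t0 z - t1 z ≤ 0 := by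
    refine h E (bx c a) (fun z => t0 z - t1 z) (fun z hz => ?_) (fun z hz => ⟨fun h2 => ?_, fun h2 => ?_⟩)
    · have e0 := h0.eq z hz
      have e1 := h1.eq z (hsub hz)
      unfold Pf at e0 e1 ⊢
      linarith
    · show t0 (E.s1 z) - t1 (E.s1 z) ≤ 0
      rw [h0.off _ h2]
      linarith [e8_nonneg h h1 (E.s1 z)]
    · show t0 (E.s2 z) - t1 (E.s2 z) ≤ 0
      rw [h0.off _ h2]
      linarith [e8_nonneg h h1 (E.s2 z)]
  have hz0c := hcmp z0 hz0
  have key : ∀ z ∈ bx c a, t0 z0 - Δ - (t1 z - t0 z) ≤ 0 := by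
    refine h E (bx c a) (fun z => t0 z0 - Δ - (t1 z - t0 z)) (fun z hz => ?_)
      (fun z hz => ⟨fun h2 => ?_, fun h2 => ?_⟩)
    · have e0 := h0.eq z hz
      have e1 := h1.eq z (hsub hz)
      unfold Pf at e0 e1 ⊢
      linarith
    · show t0 z0 - Δ - (t1 (E.s1 z) - t0 (E.s1 z)) ≤ 0
      rw [h0.off _ h2]
      have h3 := hosc z0 (hsub' hz0) (E.s1 z) (e8_succ_mem hz (adj4_s1 E z))
      have h4 := (abs_le.1 h3).2
      linarith
    · show t0 z0 - Δ - (t1 (E.s2 z) - t0 (E.s2 z)) ≤ 0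
      rw [h0.off _ h2]
      have h3 := hosc z0 (hsub' hz0) (E.s2 z) (e8_succ_mem hz (adj4_s2 E z))
      have h4 := (abs_le.1 h3).2
      linarith
  have := key z0 hz0
  linarith

end MHL
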