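import Pool.Agent.MHL.StE

/-!
# MHL E9: induction step for the exit times
-/

set_option autoImplicit false

namespace MHL

lemma e9_card (c : Pt) (r : ℕ) : ((bx c r).card : ℝ) = (2 * (r : ℝ) + 1) ^ 2 := by
  have h : (bx c r).card = (2 * r + 1) * (2 * r + 1) := by
    unfold bx
    rw [Finset.card_Icc_prod, Int.card_Icc, Int.card_Icc]
    congr 1
    · dsimp only; omega
    · dsimp only; omega
  rw [h]; push_cast; ring

lemma e9_nonneg (h2 : St_E2) {E : Env} {B : Finset Pt} {t : Pt → ℝ}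
    (ht : Gr E B (fun _ => 1) t) (z : Pt) : 0 ≤ t z := by
  by_cases hz : z ∈ B
  · have := h2 E B (fun w => - t w) ?_ ?_ z hz
    · linarith
    · intro w hw
      have h := ht.eq w hw
      unfold Pf at h ⊢
      dsimp only at h ⊢
      linarith
    · intro w hw
      refine ⟨fun h => ?_, fun h => ?_⟩
      · rw [ht.off _ h]; simp
      · rw [ht.off _ h]; simp
  · rw [ht.off z hz]

lemma e9_le (h2 : St_E2) {E : Env} {V B : Finset Pt} {tl t : Pt → ℝ} (hsub : V ⊆ B)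
    (htl : Gr E V (fun _ => 1) tl) (ht : Gr E B (fun _ => 1) t) (z : Pt) : tl z ≤ t z := by
  have ht0 := e9_nonneg h2 ht
  by_cases hz : z ∈ V
  · have := h2 E V (fun w => tl w - t w) ?_ ?_ z hz
    · linarith
    · intro x hx
      have a1 := ht.eq x (hsub hx)
      have a2 := htl.eq x hx
      unfold Pf at a1 a2 ⊢
      dsimp only at a1 a2 ⊢
      linarith
    · intro x hx
      refine ⟨fun h => ?_, fun h => ?_⟩
      · rw [htl.off _ h]; linarith [ht0 (E.s1 x)]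
      · rw [htl.off _ h]; linarith [ht0 (E.s2 x)]
  · rw [htl.off z hz]; exact ht0 z

lemma e9_sub {c p : Pt} {R r S : ℕ} (hp : p ∈ bx c R) (h : R + r ≤ S) : bx p r ⊆ bx c S := by
  intro z hz
  rw [mem_bx, abs_le, abs_le] at hp hz ⊢
  omega

/-- one growth step -/
lemma e9_step (h3 : St_E3) (h6 : St_E6) (h7 : St_E7) (h8 : St_E8) (h9 : St_E9a) (h2 : St_E2)
    (E : Env) (Λ T Q : ℝ) (s : ℕ) (K r ρ : ℕ) (hMT : MTa E Λ T) (hΛ : 1 ≤ Λ) (hQ : 1 ≤ Q)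
    (hs : (2 : ℝ) ^ s ≤ T) (hr : r = 2 ^ s) (hρ : ρ = 8 * K * r) (hK : 40000 ≤ (K : ℝ))
    (hKQ : 10 ^ 12 * (K : ℝ) ^ 3 * Λ ≤ Q)
    (hloc : ∀ (c : Pt) (t : Pt → ℝ), Gr E (bx c (4 * 2 ^ s)) (fun _ => 1) t →
      ∀ z, t z ≤ (4 * (r : ℝ)) ^ (3 / 2 : ℝ) * Q)
    (c : Pt) (m0 : ℝ) (hm0 : (ρ : ℝ) ^ (3 / 2 : ℝ) * Q ≤ m0) (i : ℕ) (hi : i < K)
    (t0 t1 : Pt → ℝ) (ht0 : Gr E (bx c (ρ + 8 * i * r)) (fun _ => 1) t0)
    (ht1 : Gr E (bx c (ρ + 8 * (i + 1) * r)) (fun _ => 1) t1)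
    (z0 : Pt) (hz0 : z0 ∈ bx c (ρ + 8 * i * r)) (hbig : m0 ≤ t0 z0) :
    ∃ z1 ∈ bx c (ρ + 8 * (i + 1) * r), 3 / 2 * t0 z0 ≤ t1 z1 := by
  have hr1 : 1 ≤ r := by rw [hr]; exact Nat.one_le_two_pow
  have hiK : 8 * (i + 1) * r ≤ ρ := by
    rw [hρ]; exact Nat.mul_le_mul_right r (by omega)
  have hexp : 8 * (i + 1) * r = 8 * i * r + 8 * r := by ring
  have hsub01 : bx c (ρ + 8 * i * r) ⊆ bx c (ρ + 8 * (i + 1) * r) := by
    refine e9_sub (c := c) (p := c) (R := 0) (by rw [mem_bx]; simp) (by omega)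
  obtain ⟨w, hw, hmax⟩ := (bx c (ρ + 8 * (i + 1) * r)).exists_max_image t1
    ⟨z0, hsub01 hz0⟩
  refine ⟨w, hw, ?_⟩
  have hnn := e9_nonneg h2 ht1
  have hall : ∀ z, t1 z ≤ t1 w := by
    intro z
    by_cases hz : z ∈ bx c (ρ + 8 * (i + 1) * r)
    · exact hmax z hz
    · rw [ht1.off z hz]; exact hnn w
  have hm01 : m0 ≤ t1 w := hbig.trans ((e9_le h2 hsub01 ht0 ht1 z0).trans (hall z0))
  have hrR : (1 : ℝ) ≤ r := by exact_mod_cast hr1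
  have hρR : (ρ : ℝ) = 8 * (K : ℝ) * r := by rw [hρ]; push_cast; ring
  have hsr : Real.sqrt (2 ^ s) = Real.sqrt (r : ℝ) := by rw [hr]; push_cast; rfl
  -- local oscillation
  set δ : ℝ := Real.sqrt (8 * Λ * (25 * (ρ : ℝ) ^ 2) * t1 w / Real.sqrt r) +
    (4 * (r : ℝ)) ^ (3 / 2 : ℝ) * Q with hδ
  have hloc2 : ∀ p ∈ bx c (ρ + 8 * i * r + 1), ∀ q ∈ bx p r, |t1 p - t1 q| ≤ δ := by
    intro p hp q hq
    obtain ⟨tl, htl⟩ := h3 E (bx p (4 * 2 ^ s)) (fun _ => 1)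
    have hsub : bx p (4 * 2 ^ s) ⊆ bx c (ρ + 8 * (i + 1) * r) :=
      e9_sub hp (by rw [← hr]; omega)
    have := h7 E Λ T (t1 w) ((4 * (r : ℝ)) ^ (3 / 2 : ℝ) * Q) s p
      (bx c (ρ + 8 * (i + 1) * r)) t1 tl hMT (by linarith) hs hsub ht1 hall htl
      (hloc p tl htl) q (by rw [← hr]; exact hq)
    refine this.trans ?_
    rw [hδ, hsr]
    refine add_le_add (Real.sqrt_le_sqrt ?_) le_rfl
    refine div_le_div_of_nonneg_right ?_ (Real.sqrt_nonneg _)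
    refine mul_le_mul_of_nonneg_right ?_ (hnn w)
    refine mul_le_mul_of_nonneg_left ?_ (by linarith)
    rw [e9_card]
    have h1 : ((ρ + 8 * (i + 1) * r : ℕ) : ℝ) ≤ 2 * ρ := by
      have : (ρ + 8 * (i + 1) * r : ℕ) ≤ 2 * ρ := by omega
      exact_mod_cast this
    have h1' : (0 : ℝ) ≤ ((ρ + 8 * (i + 1) * r : ℕ) : ℝ) := Nat.cast_nonneg _
    have h2' : (1 : ℝ) ≤ ρ := by rw [hρR]; nlinarith
    have : (25 : ℝ) * (ρ : ℝ) ^ 2 = (5 * ρ) ^ 2 := by ring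
    rw [this]
    exact pow_le_pow_left₀ (by linarith) (by linarith) 2
  have hδ0 : 0 ≤ δ := by rw [hδ]; positivity
  have hch := h6 t1 c (ρ + 8 * i * r + 1) r δ hr1 hδ0 hloc2
  have hR : ((ρ + 8 * i * r + 1 : ℕ) : ℝ) ≤ 2 * ρ := by
    have : (ρ + 8 * i * r + 1 : ℕ) ≤ 2 * ρ := by omega
    exact_mod_cast this
  have hfac : 4 * ((ρ + 8 * i * r + 1 : ℕ) : ℝ) / r + 2 ≤ 65 * K := by
    have : 4 * ((ρ + 8 * i * r + 1 : ℕ) : ℝ) / r ≤ 64 * K := by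
      rw [div_le_iff₀ (by linarith)]
      rw [hρR] at hR
      linarith
    linarith
  have hnum := h9 K r ρ Λ Q m0 (t1 w) hρR hrR hK hΛ hQ hKQ hm0 hm01
  have hD : ∀ z ∈ bx c (ρ + 8 * i * r + 1), ∀ w' ∈ bx c (ρ + 8 * i * r + 1),
      |t1 z - t1 w'| ≤ t1 w / 100 + m0 / 8 := by
    intro z hz w' hw'
    refine (hch z hz w' hw').trans (le_trans ?_ hnum)
    exact mul_le_mul_of_nonneg_right hfac hδ0
  have h8' := h8 E c (ρ + 8 * i * r) (ρ + 8 * (i + 1) * r) t0 t1 (t1 w / 100 + m0 / 8) z0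
    (by omega) ht0 ht1 hz0 hD
  have h8'' := h8'.trans (hall z0)
  have hm0pos : 0 ≤ m0 := by
    refine le_trans ?_ hm0
    positivity
  linarith

theorem thm_E9 (h3 : St_E3) (h5 : St_E5) (h6 : St_E6) (h7 : St_E7) (h8 : St_E8) (h9 : St_E9a)
    (h2 : St_E2) : St_E9 := by
  intro E Λ T Q s κ hMT hΛ hQ hs hK hKQ hexp hloc c t ht z
  by_contra hcon
  rw [not_le] at hcon
  obtain ⟨r, hr⟩ : ∃ r : ℕ, r = 2 ^ s := ⟨_, rfl⟩
  obtain ⟨K, hKd⟩ : ∃ K : ℕ, K = 2 ^ κ := ⟨_, rfl⟩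
  obtain ⟨ρ, hρ⟩ : ∃ ρ : ℕ, ρ = 8 * K * r := ⟨_, rfl⟩
  have hρ2 : 2 ^ (s + 3 + κ) = ρ := by rw [hρ, hKd, hr, pow_add, pow_add]; ring
  have hρ2R : (2 : ℝ) ^ (s + 3 + κ) = (ρ : ℝ) := by rw [← hρ2]; push_cast; rfl
  have hKR : (2 : ℝ) ^ κ = (K : ℝ) := by rw [hKd]; push_cast; rfl
  have hrR : (2 : ℝ) ^ s = (r : ℝ) := by rw [hr]; push_cast; rfl
  have hr1 : 1 ≤ r := by rw [hr]; exact Nat.one_le_two_pow
  have hr1R : (1 : ℝ) ≤ r := by exact_mod_cast hr1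
  rw [hρ2] at ht
  rw [hρ2R] at hcon hexp
  rw [hKR] at hK hKQ
  have hloc' : ∀ (c : Pt) (t : Pt → ℝ), Gr E (bx c (4 * 2 ^ s)) (fun _ => 1) t →
      ∀ z, t z ≤ (4 * (r : ℝ)) ^ (3 / 2 : ℝ) * Q := by
    intro c t ht z
    have e1 : 2 ^ (s + 2) = 4 * 2 ^ s := by rw [pow_add]; ring
    have e2 : (2 : ℝ) ^ (s + 2) = 4 * (r : ℝ) := by rw [pow_add, hrR]; ring
    have := hloc c t (by rw [e1]; exact ht) z
    rw [e2] at this
    exact this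
  have hzB : z ∈ bx c ρ := by
    by_contra hz
    rw [ht.off z hz] at hcon
    have : 0 ≤ (ρ : ℝ) ^ (3 / 2 : ℝ) * Q := by positivity
    linarith
  have hind : ∀ i : ℕ, i ≤ K → ∃ (ti : Pt → ℝ) (zi : Pt),
      Gr E (bx c (ρ + 8 * i * r)) (fun _ => 1) ti ∧ zi ∈ bx c (ρ + 8 * i * r) ∧
      (3 / 2) ^ i * t z ≤ ti zi := by
    intro i
    induction i with
    | zero =>
      intro _
      refine ⟨t, z, ?_, ?_, ?_⟩
      · simpa using ht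
      · simpa using hzB
      · simp
    | succ i ih =>
      intro hi
      obtain ⟨ti, zi, hti, hzi, hbig⟩ := ih (by omega)
      obtain ⟨t1, ht1⟩ := h3 E (bx c (ρ + 8 * (i + 1) * r)) (fun _ => 1)
      have htz : 0 ≤ t z := by
        have : 0 ≤ (ρ : ℝ) ^ (3 / 2 : ℝ) * Q := by positivity
        linarith
      have hge : t z ≤ ti zi := by
        refine le_trans ?_ hbig
        have : (1 : ℝ) ≤ (3 / 2) ^ i := one_le_pow₀ (by norm_num)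
        nlinarith
      obtain ⟨z1, hz1, h1⟩ := e9_step h3 h6 h7 h8 h9 h2 E Λ T Q s K r ρ hMT hΛ hQ hs hr hρ hK hKQ
        hloc' c (t z) hcon.le i (by omega) ti t1 hti ht1 zi hzi hge
      refine ⟨t1, z1, ht1, hz1, ?_⟩
      rw [pow_succ]
      linarith
  obtain ⟨tK, zK, htK, hzK, hbig⟩ := hind K le_rfl
  have hrad : ρ + 8 * K * r = 2 * ρ := by omega
  rw [hrad] at htK
  have h5' := h5 E c (2 * ρ) tK htK zK
  have e5 : (4 : ℝ) * (2 * ((2 * ρ : ℕ) : ℝ) + 1) ^ 3 = 4 * (4 * (ρ : ℝ) + 1) ^ 3 := by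
    push_cast; ring
  rw [e5] at h5'
  rw [← hKd] at hexp
  have hρ1 : (1 : ℝ) ≤ (ρ : ℝ) := by
    have : (ρ : ℝ) = 8 * (K : ℝ) * r := by rw [hρ]; push_cast; ring
    rw [this]; nlinarith
  have h1 : (1 : ℝ) ≤ (ρ : ℝ) ^ (3 / 2 : ℝ) := Real.one_le_rpow hρ1 (by norm_num)
  have h2' : (1 : ℝ) < t z := by
    refine lt_of_le_of_lt ?_ hcon
    nlinarith
  have hpos : (0 : ℝ) < (3 / 2) ^ K := by positivity
  nlinarith

end MHL
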