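import Pool.Agent.MHL.StE

/-!
# MHL E9a: numerical estimate for the growth step
-/

set_option autoImplicit false

namespace MHL

lemma e9a_rpow (x : ℝ) (hx : 0 ≤ x) : x ^ (3 / 2 : ℝ) = x * Real.sqrt x := by
  rw [Real.sqrt_eq_rpow, show (3 / 2 : ℝ) = 1 + 1 / 2 by norm_num,
    Real.rpow_add_of_nonneg hx (by norm_num) (by norm_num), Real.rpow_one]

theorem thm_E9a : St_E9a := by
  intro K r ρ Λ Q m0 m1 hρ hr hK hΛ hQ hQ2 hm0 hm1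
  obtain ⟨a, ha0, ha⟩ : ∃ a : ℝ, 1 ≤ a ∧ r = a ^ 2 := by
    refine ⟨Real.sqrt r, ?_, ?_⟩
    · rw [show (1 : ℝ) = Real.sqrt 1 by simp]; exact Real.sqrt_le_sqrt hr
    · rw [Real.sq_sqrt (by linarith)]
  obtain ⟨k, hk0, hk⟩ : ∃ k : ℝ, 200 ≤ k ∧ K = k ^ 2 := by
    refine ⟨Real.sqrt K, ?_, ?_⟩
    · rw [show (200 : ℝ) = Real.sqrt (200 ^ 2) by rw [Real.sqrt_sq (by norm_num)]]
      exact Real.sqrt_le_sqrt (by norm_num; linarith)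
    · rw [Real.sq_sqrt (by linarith)]
  obtain ⟨b, hb0, hb⟩ : ∃ b : ℝ, 2.8 ≤ b ∧ b ^ 2 = 8 := by
    refine ⟨Real.sqrt 8, ?_, ?_⟩
    · rw [show (2.8 : ℝ) = Real.sqrt (2.8 ^ 2) by rw [Real.sqrt_sq (by norm_num)]]
      exact Real.sqrt_le_sqrt (by norm_num)
    · rw [Real.sq_sqrt (by norm_num)]
  have hsr : Real.sqrt r = a := by rw [ha, Real.sqrt_sq (by linarith)]
  have hρ2 : ρ = (b * k * a) ^ 2 := by rw [hρ, ha, hk]; nlinarith [hb]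
  have hsρ : Real.sqrt ρ = b * k * a := by
    rw [hρ2, Real.sqrt_sq (by positivity)]
  have hρ0 : 0 ≤ ρ := by rw [hρ2]; positivity
  have h32 : ρ ^ (3 / 2 : ℝ) = 8 * b * k ^ 3 * a ^ 3 := by
    rw [e9a_rpow ρ hρ0, hsρ, hρ2]
    calc (b * k * a) ^ 2 * (b * k * a) = b ^ 2 * b * k ^ 3 * a ^ 3 := by ring
      _ = 8 * b * k ^ 3 * a ^ 3 := by rw [hb]
  have h4r : (4 * r) ^ (3 / 2 : ℝ) = 8 * a ^ 3 := by
    rw [e9a_rpow _ (by linarith)]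
    have : (4 * r) = (2 * a) ^ 2 := by rw [ha]; ring
    rw [this, Real.sqrt_sq (by positivity)]; ring
  rw [h4r, hsr]
  rw [h32] at hm0
  have hk3 : 0 < k ^ 3 := by positivity
  have ha3 : 0 < a ^ 3 := by positivity
  have hQ2' : 10 ^ 12 * k ^ 6 * Λ ≤ Q := by
    have : 10 ^ 12 * K ^ 3 * Λ = 10 ^ 12 * k ^ 6 * Λ := by rw [hk]; ring
    linarith
  -- second term
  have hs2 : 65 * K * (8 * a ^ 3 * Q) ≤ m0 / 8 := by
    have h1 : 65 * K * (8 * a ^ 3 * Q) = (k ^ 2 * a ^ 3 * Q) * 520 := by rw [hk]; ring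
    have h2 : (k ^ 2 * a ^ 3 * Q) * 520 ≤ (k ^ 2 * a ^ 3 * Q) * (b * k) := by
      refine mul_le_mul_of_nonneg_left ?_ (by positivity)
      nlinarith
    have h3 : (k ^ 2 * a ^ 3 * Q) * (b * k) = (8 * b * k ^ 3 * a ^ 3 * Q) / 8 := by ring
    rw [h1]; linarith
  -- first term
  have hm1pos : 0 < m1 := by
    have : 0 < 8 * b * k ^ 3 * a ^ 3 * Q := by positivity
    linarith
  have hbig : 5.408e11 * Λ * k ^ 8 * a ^ 3 ≤ m1 := by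
    have h1 : 8 * b * k ^ 3 * a ^ 3 * (10 ^ 12 * k ^ 6 * Λ) ≤ 8 * b * k ^ 3 * a ^ 3 * Q :=
      mul_le_mul_of_nonneg_left hQ2' (by positivity)
    have h2 : 8 * b * k ^ 3 * a ^ 3 * (10 ^ 12 * k ^ 6 * Λ) = (Λ * k ^ 8 * a ^ 3) * (8 * 10 ^ 12 * (b * k)) := by
      ring
    have h3 : (Λ * k ^ 8 * a ^ 3) * 5.408e11 ≤ (Λ * k ^ 8 * a ^ 3) * (8 * 10 ^ 12 * (b * k)) := by
      refine mul_le_mul_of_nonneg_left ?_ (by positivity)
      nlinarith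
    linarith
  have hs1 : 65 * K * Real.sqrt (8 * Λ * (25 * ρ ^ 2) * m1 / a) ≤ m1 / 100 := by
    have e1 : 8 * Λ * (25 * ρ ^ 2) * m1 / a = 12800 * Λ * k ^ 4 * a ^ 3 * m1 := by
      rw [div_eq_iff (by positivity), hρ, ha, hk]; ring
    rw [e1]
    have e2 : Real.sqrt (12800 * Λ * k ^ 4 * a ^ 3 * m1) ≤ m1 / 100 / (65 * K) := by
      refine Real.sqrt_le_iff.2 ⟨by positivity, ?_⟩
      have e3 : (m1 / 100 / (65 * K)) ^ 2 = m1 ^ 2 / (6500 * k ^ 2) ^ 2 := by rw [hk]; field_simp; norm_num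
      rw [e3, le_div_iff₀ (by positivity)]
      have : 12800 * Λ * k ^ 4 * a ^ 3 * m1 * (6500 * k ^ 2) ^ 2 = (5.408e11 * Λ * k ^ 8 * a ^ 3) * m1 := by
        ring
      rw [this, sq]
      exact mul_le_mul_of_nonneg_right hbig hm1pos.le
    have hKpos : 0 < 65 * K := by linarith
    calc 65 * K * Real.sqrt (12800 * Λ * k ^ 4 * a ^ 3 * m1)
        ≤ 65 * K * (m1 / 100 / (65 * K)) := mul_le_mul_of_nonneg_left e2 hKpos.le
      _ = m1 / 100 := by field_simp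
  have : 65 * K * (Real.sqrt (8 * Λ * (25 * ρ ^ 2) * m1 / a) + 8 * a ^ 3 * Q)
      = 65 * K * Real.sqrt (8 * Λ * (25 * ρ ^ 2) * m1 / a) + 65 * K * (8 * a ^ 3 * Q) := by ring
  rw [this]; linarith

end MHL
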