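import Pool.Agent.MHL.StE

/-!
# MHL: the bound for exit times of boxes (assembly of Section 7)
-/

set_option autoImplicit false

namespace MHL

theorem thm_ET (h5 : St_E5) (h9 : St_E9) (h10 : St_E10) : St_ET := by
  intro ε hε hε1
  obtain ⟨T0, hT0⟩ := h10 ε hε hε1
  refine ⟨T0, fun T hT E hM => ?_⟩
  obtain ⟨hT1, κ, hκ1, hκ2, hκ3, hκ4⟩ := hT0 T hT
  have hTpos : (0 : ℝ) < T := by linarith
  have hΛ1 : (1 : ℝ) ≤ T ^ ε := Real.one_le_rpow hT1 hε.le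
  have hQ1 : (1 : ℝ) ≤ T ^ (4 * ε) := Real.one_le_rpow hT1 (by linarith)
  have h108 : (108 : ℝ) ≤ T ^ ε := by
    by_contra hc
    push Not at hc
    have e1 : T ^ (4 * ε) = (T ^ ε) ^ 4 := by
      rw [← Real.rpow_natCast (T ^ ε) 4, ← Real.rpow_mul hTpos.le]
      congr 1
      push_cast
      ring
    rw [e1] at hκ2
    have h1 : (10 : ℝ) ^ 12 * ((2 : ℝ) ^ κ) ^ 3 ≤ (T ^ ε) ^ 3 := by
      have h2 : (10 : ℝ) ^ 12 * ((2 : ℝ) ^ κ) ^ 3 * T ^ ε ≤ (T ^ ε) ^ 3 * T ^ ε := by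
        calc _ ≤ (T ^ ε) ^ 4 := hκ2
          _ = (T ^ ε) ^ 3 * T ^ ε := by ring
      exact le_of_mul_le_mul_right h2 (by linarith)
    have h3 : (T ^ ε) ^ 3 ≤ 108 ^ 3 := pow_le_pow_left₀ (by linarith) hc.le 3
    have h4 : (1 : ℝ) ≤ ((2 : ℝ) ^ κ) ^ 3 := one_le_pow₀ (by linarith)
    nlinarith
  intro s
  induction s using Nat.strong_induction_on with
  | _ s ih =>
    intro hs c t ht z
    rcases le_or_gt ((2 : ℝ) ^ s) (T ^ (2 * ε)) with hsm | hbig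
    · have h1 := h5 E c (2 ^ s) t ht z
      push_cast at h1
      have hx1 : (1 : ℝ) ≤ (2 : ℝ) ^ s := one_le_pow₀ (by norm_num)
      set x : ℝ := (2 : ℝ) ^ s with hx
      have h2 : 4 * (2 * x + 1) ^ 3 ≤ 108 * x ^ 3 := by
        have : (2 * x + 1) ^ 3 ≤ (3 * x) ^ 3 := pow_le_pow_left₀ (by positivity) (by linarith) 3
        nlinarith
      have h3 : x ^ 3 = x ^ (3 / 2 : ℝ) * x ^ (3 / 2 : ℝ) := by
        rw [← Real.rpow_add (by positivity), ← Real.rpow_natCast x 3]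
        norm_num
      have h4 : x ^ (3 / 2 : ℝ) ≤ (T ^ ε) ^ 3 := by
        calc x ^ (3 / 2 : ℝ) ≤ (T ^ (2 * ε)) ^ (3 / 2 : ℝ) :=
              Real.rpow_le_rpow (by positivity) hsm (by norm_num)
          _ = (T ^ ε) ^ 3 := by
              rw [← Real.rpow_natCast (T ^ ε) 3, ← Real.rpow_mul hTpos.le,
                ← Real.rpow_mul hTpos.le]
              congr 1
              push_cast
              ring
      have e1 : T ^ (4 * ε) = (T ^ ε) ^ 3 * T ^ ε := by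
        have : (T ^ ε) ^ 3 * T ^ ε = (T ^ ε) ^ 4 := by ring
        rw [this, ← Real.rpow_natCast (T ^ ε) 4, ← Real.rpow_mul hTpos.le]
        congr 1
        push_cast
        ring
      have hx0 : 0 ≤ x ^ (3 / 2 : ℝ) := by positivity
      calc t z ≤ 4 * (2 * x + 1) ^ 3 := h1
        _ ≤ 108 * x ^ 3 := h2
        _ = x ^ (3 / 2 : ℝ) * (x ^ (3 / 2 : ℝ) * 108) := by rw [h3]; ring
        _ ≤ x ^ (3 / 2 : ℝ) * ((T ^ ε) ^ 3 * T ^ ε) :=
            mul_le_mul_of_nonneg_left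
              (mul_le_mul h4 h108 (by norm_num) (by positivity)) hx0
        _ = x ^ (3 / 2 : ℝ) * T ^ (4 * ε) := by rw [e1]
    · have h1 : (2 : ℝ) ^ (3 + κ) < 2 ^ s := by
        calc (2 : ℝ) ^ (3 + κ) = 8 * 2 ^ κ := by rw [pow_add]; norm_num
          _ ≤ T ^ (2 * ε) := hκ3
          _ < 2 ^ s := hbig
      have h2 : 3 + κ < s := (pow_lt_pow_iff_right₀ (by norm_num : (1 : ℝ) < 2)).1 h1
      obtain ⟨s', rfl⟩ : ∃ s', s = s' + 3 + κ := ⟨s - 3 - κ, by omega⟩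
      have hlt : s' + 2 < s' + 3 + κ := by omega
      have hle2 : (2 : ℝ) ^ (s' + 2) ≤ T :=
        (pow_le_pow_right₀ (by norm_num) hlt.le).trans hs
      have hle0 : (2 : ℝ) ^ s' ≤ T :=
        (pow_le_pow_right₀ (by norm_num) (by omega)).trans hs
      refine h9 E (T ^ ε) T (T ^ (4 * ε)) s' κ hM hΛ1 hQ1 hle0 hκ1 hκ2 ?_
        (fun c t ht z => ih (s' + 2) hlt hle2 c t ht z) c t ht z
      refine le_trans ?_ hκ4
      have : (4 * (2 : ℝ) ^ (s' + 3 + κ) + 1) ^ 3 ≤ (4 * T + 1) ^ 3 :=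
        pow_le_pow_left₀ (by positivity) (by linarith) 3
      linarith

end MHL
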