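import Pool.Agent.MHL.StP

/-!
# MHL, part P: a window of length `n ≤ N` is uniformly distributed
-/

set_option autoImplicit false

namespace MHL

/-- restriction along an injective map: each fibre has the same number of elements -/
lemma p0_sum {ι κ : Type} [Fintype ι] [DecidableEq ι] [Fintype κ] [DecidableEq κ] (e : ι → κ)
    (he : Function.Injective e) (F : (ι → Bool) → ℝ) :
    ∑ h : κ → Bool, F (fun i => h (e i)) =
      2 ^ (Fintype.card κ - Fintype.card ι) * ∑ c : ι → Bool, F c := by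
  classical
  rw [← Equiv.sum_comp (Equiv.piEquivPiSubtypeProd (fun k => k ∈ Set.range e)
    (fun _ : κ => Bool)).symm, Fintype.sum_prod_type]
  have h1 : ∀ (x : {k : κ // k ∈ Set.range e} → Bool) (y : {k : κ // ¬ k ∈ Set.range e} → Bool),
      F (fun i => (Equiv.piEquivPiSubtypeProd (fun k => k ∈ Set.range e)
        (fun _ : κ => Bool)).symm (x, y) (e i)) = F (fun i => x ⟨e i, ⟨i, rfl⟩⟩) := by
    intro x y
    congr 1
    funext i
    simp [Equiv.piEquivPiSubtypeProd]
  simp only [h1]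
  simp only [Finset.sum_const, Finset.card_univ, nsmul_eq_mul]
  rw [← Finset.mul_sum]
  have h2 : Fintype.card ({k : κ // ¬ k ∈ Set.range e} → Bool) =
      2 ^ (Fintype.card κ - Fintype.card ι) := by
    rw [Fintype.card_fun, Fintype.card_bool, Fintype.card_subtype_compl]
    congr 2
    exact (Fintype.card_congr (Equiv.ofInjective e he)).symm
  rw [h2]
  push_cast
  congr 1
  rw [← Equiv.sum_comp (Equiv.arrowCongr (Equiv.ofInjective e he) (Equiv.refl Bool))]
  refine Finset.sum_congr rfl fun c _ => ?_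
  congr 1
  funext i
  have : (Equiv.ofInjective e he).symm ⟨e i, ⟨i, rfl⟩⟩ = i := by
    rw [Equiv.symm_apply_eq]
    rfl
  show (Equiv.arrowCongr (Equiv.ofInjective e he) (Equiv.refl Bool)) c ⟨e i, ⟨i, rfl⟩⟩ = c i
  simp only [Equiv.arrowCongr_apply, Function.comp, Equiv.refl_apply]
  rw [this]

lemma p0_inj (N : ℕ) [NeZero N] (a : ℤ) (n : ℕ) (h : n ≤ N) :
    Function.Injective (fun i : Fin n => ((a + (i : ℕ) : ℤ) : ZMod N)) := by
  intro i j hij
  simp only at hij
  rw [ZMod.intCast_eq_intCast_iff] at hij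
  have h1 := hij.dvd
  have hi := i.2
  have hj := j.2
  have h2 : (N : ℤ) ∣ ((j : ℕ) : ℤ) - ((i : ℕ) : ℤ) := by
    have : (a + ((j : ℕ) : ℤ)) - (a + ((i : ℕ) : ℤ)) = ((j : ℕ) : ℤ) - ((i : ℕ) : ℤ) := by ring
    rwa [this] at h1
  obtain ⟨c, hc⟩ := h2
  ext
  have hN : (0 : ℤ) < N := by exact_mod_cast Nat.pos_of_ne_zero (NeZero.ne N)
  have hc0 : c = 0 := by
    by_contra hne
    rcases lt_or_gt_of_ne hne with hlt | hgt
    · have : (N : ℤ) * c ≤ N * (-1) := mul_le_mul_of_nonneg_left (by omega) hN.le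
      omega
    · have : (N : ℤ) * 1 ≤ N * c := mul_le_mul_of_nonneg_left (by omega) hN.le
      omega
  rw [hc0] at hc
  omega

theorem thm_P0 : St_P0 := by
  intro N _ a n F hn
  unfold ea fa
  rw [p0_sum (fun i : Fin n => ((a + (i : ℕ) : ℤ) : ZMod N)) (p0_inj N a n hn) F, ZMod.card,
    Fintype.card_fin]
  have h : (2 : ℝ) ^ N = 2 ^ (N - n) * 2 ^ n := by
    rw [← pow_add]
    congr 1
    omega
  rw [h]
  rw [mul_div_mul_left _ _ (by positivity)]

end MHL
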