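import Pool.Agent.MHL.StP

/-!
# MHL, module P1: independence of disjoint sets of coordinates
-/

set_option autoImplicit false

namespace MHL

open Classical in
/-- exchange of the coordinates outside of `S` -/
noncomputable def p1_swap {N : ℕ} (S : Set (ZMod N))
    (p : (ZMod N → Bool) × (ZMod N → Bool)) : (ZMod N → Bool) × (ZMod N → Bool) :=
  (fun i => if i ∈ S then p.1 i else p.2 i, fun i => if i ∈ S then p.2 i else p.1 i)

lemma p1_inv {N : ℕ} (S : Set (ZMod N)) : Function.Involutive (p1_swap S) := by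
  intro p
  apply Prod.ext
  · funext i
    by_cases hi : i ∈ S <;> simp [p1_swap, hi]
  · funext i
    by_cases hi : i ∈ S <;> simp [p1_swap, hi]

theorem thm_P1 : St_P1 := by
  intro N _ S F G hF hG
  have h1 : ∑ p : (ZMod N → Bool) × (ZMod N → Bool), F p.1 * G p.2 =
      ∑ p : (ZMod N → Bool) × (ZMod N → Bool), F p.1 * G p.1 := by
    have h0 := Equiv.sum_comp (Function.Involutive.toPerm (p1_swap S) (p1_inv S))
      (fun p : (ZMod N → Bool) × (ZMod N → Bool) => F p.1 * G p.1)
    rw [← h0]
    refine Finset.sum_congr rfl fun p _ => ?_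
    have e1 : F p.1 = F (p1_swap S p).1 := by
      apply hF
      intro i hi
      simp [p1_swap, hi]
    have e2 : G p.2 = G (p1_swap S p).1 := by
      apply hG
      intro i hi
      simp [p1_swap, hi]
    rw [e1, e2]
    rfl
  rw [Fintype.sum_prod_type, Fintype.sum_prod_type] at h1
  have hc : (Fintype.card (ZMod N → Bool) : ℝ) = 2 ^ N := by
    rw [Fintype.card_fun, ZMod.card, Fintype.card_bool]
    push_cast
    rfl
  have h2 : (∑ h, F h) * (∑ h, G h) = 2 ^ N * ∑ h, F h * G h := by
    rw [Finset.sum_mul_sum, h1, Finset.mul_sum]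
    refine Finset.sum_congr rfl fun h _ => ?_
    show ∑ _y : (ZMod N → Bool), F h * G h = 2 ^ N * (F h * G h)
    rw [Finset.sum_const, Finset.card_univ, nsmul_eq_mul, hc]
  have hp : (2 : ℝ) ^ N ≠ 0 := by positivity
  unfold ea
  rw [div_mul_div_comm, h2, mul_div_mul_left _ _ hp]

end MHL
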