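import Pool.Agent.MHL.StP

/-!
# MHL, part P: Hoeffding's inequality
-/

set_option autoImplicit false

namespace MHL

open Pool.Agent.Helper47.Manh (sg)

lemma p2_exp (n : ℕ) (l : ℝ) :
    ∑ c : Fin n → Bool, Real.exp (l * (ts c : ℝ)) = (2 * Real.cosh l) ^ n := by
  have h1 : ∀ c : Fin n → Bool, Real.exp (l * (ts c : ℝ)) =
      ∏ i, Real.exp (l * (sg (c i) : ℝ)) := by
    intro c
    rw [← Real.exp_sum]
    congr 1
    unfold ts
    push_cast
    rw [Finset.mul_sum]
  simp only [h1]
  have h2 := Finset.prod_univ_sum (fun _ : Fin n => (Finset.univ : Finset Bool))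
    (fun _ b => Real.exp (l * (sg b : ℝ)))
  rw [Fintype.piFinset_univ] at h2
  rw [← h2]
  have h3 : ∑ b : Bool, Real.exp (l * (sg b : ℝ)) = 2 * Real.cosh l := by
    rw [Fintype.sum_bool, Real.cosh_eq]
    unfold sg
    simp
    ring
  simp only [h3]
  simp

theorem thm_P2 : St_P2 := by
  intro n x hn hx
  have hn0 : (0 : ℝ) < n := by exact_mod_cast hn
  set l : ℝ := x / n with hl
  have hl0 : 0 ≤ l := by positivity
  have h1 : ∀ c : Fin n → Bool, (if x < |(ts c : ℝ)| then (1 : ℝ) else 0) ≤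
      Real.exp (-(l * x)) * Real.exp (l * (ts c : ℝ)) +
        Real.exp (-(l * x)) * Real.exp ((-l) * (ts c : ℝ)) := by
    intro c
    split_ifs with h
    · rw [← Real.exp_add, ← Real.exp_add]
      rcases le_abs.1 h.le with h' | h'
      · have e1 : (1 : ℝ) ≤ Real.exp (-(l * x) + l * (ts c : ℝ)) := by
          rw [Real.one_le_exp_iff]
          nlinarith
        have e2 := Real.exp_pos (-(l * x) + (-l) * (ts c : ℝ))
        linarith
      · have e1 : (1 : ℝ) ≤ Real.exp (-(l * x) + (-l) * (ts c : ℝ)) := by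
          rw [Real.one_le_exp_iff]
          nlinarith
        have e2 := Real.exp_pos (-(l * x) + l * (ts c : ℝ))
        linarith
    · positivity
  have h2 : ∑ c : Fin n → Bool, (if x < |(ts c : ℝ)| then (1 : ℝ) else 0) ≤
      2 * (Real.exp (-(l * x)) * (2 * Real.cosh l) ^ n) := by
    refine (Finset.sum_le_sum fun c _ => h1 c).trans ?_
    rw [Finset.sum_add_distrib, ← Finset.mul_sum, ← Finset.mul_sum, p2_exp, p2_exp,
      Real.cosh_neg]
    linarith
  have h3 : Real.cosh l ^ n ≤ Real.exp (x ^ 2 / (2 * n)) := by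
    have h4 : Real.cosh l ^ n ≤ Real.exp (l ^ 2 / 2) ^ n :=
      pow_le_pow_left₀ (Real.cosh_pos l).le (Real.cosh_le_exp_half_sq l) n
    refine h4.trans ?_
    rw [← Real.exp_nat_mul, Real.exp_le_exp]
    rw [hl]
    apply le_of_eq
    field_simp
  unfold fa
  have h5 : (0 : ℝ) < 2 ^ n := by positivity
  rw [div_le_iff₀ h5]
  refine h2.trans ?_
  rw [mul_pow]
  have h6 : Real.exp (-(l * x)) * Real.exp (x ^ 2 / (2 * n)) = Real.exp (-(x ^ 2) / (2 * n)) := by
    rw [← Real.exp_add, hl]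
    congr 1
    field_simp
    ring
  rw [← h6]
  have h7 := mul_le_mul_of_nonneg_left h3 (Real.exp_pos (-(l * x))).le
  nlinarith [mul_le_mul_of_nonneg_left h7 h5.le]

end MHL
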