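import Pool.Agent.MHL.StP

/-!
# MHL: P3, the inequality of Paley and Zygmund for sums of signs
-/

set_option autoImplicit false

namespace MHL

open Pool.Agent.Helper47.Manh (sg)

lemma p3_cons (n : ℕ) (F : (Fin (n + 1) → Bool) → ℝ) :
    ∑ c, F c = ∑ c : Fin n → Bool, (F (Fin.cons true c) + F (Fin.cons false c)) := by
  rw [← (Fin.consEquiv (fun _ : Fin (n + 1) => Bool)).sum_comp F, Fintype.sum_prod_type,
    Fintype.sum_bool, ← Finset.sum_add_distrib]
  rfl

lemma p3_ts (n : ℕ) (b : Bool) (c : Fin n → Bool) :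
    ts (Fin.cons b c : Fin (n + 1) → Bool) = sg b + ts c := by
  unfold ts
  rw [Fin.sum_univ_succ]
  simp

lemma p3_m2 (n : ℕ) : ∑ c : Fin n → Bool, (ts c : ℝ) ^ 2 = n * 2 ^ n := by
  induction n with
  | zero => simp [ts]
  | succ n ih =>
    rw [p3_cons]
    have h : ∀ c : Fin n → Bool, (ts (Fin.cons true c : Fin (n + 1) → Bool) : ℝ) ^ 2 +
        (ts (Fin.cons false c : Fin (n + 1) → Bool) : ℝ) ^ 2 = 2 + 2 * (ts c : ℝ) ^ 2 := by
      intro c
      rw [p3_ts, p3_ts]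
      simp only [sg]
      push_cast
      ring
    rw [Finset.sum_congr rfl (fun c _ => h c), Finset.sum_add_distrib, ← Finset.mul_sum, ih]
    simp
    ring

lemma p3_m4 (n : ℕ) : ∑ c : Fin n → Bool, (ts c : ℝ) ^ 4 = (3 * n ^ 2 - 2 * n) * 2 ^ n := by
  induction n with
  | zero => simp [ts]
  | succ n ih =>
    rw [p3_cons]
    have h : ∀ c : Fin n → Bool, (ts (Fin.cons true c : Fin (n + 1) → Bool) : ℝ) ^ 4 +
        (ts (Fin.cons false c : Fin (n + 1) → Bool) : ℝ) ^ 4 =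
        2 + 12 * (ts c : ℝ) ^ 2 + 2 * (ts c : ℝ) ^ 4 := by
      intro c
      rw [p3_ts, p3_ts]
      simp only [sg]
      push_cast
      ring
    rw [Finset.sum_congr rfl (fun c _ => h c), Finset.sum_add_distrib, Finset.sum_add_distrib,
      ← Finset.mul_sum, ← Finset.mul_sum, ih, p3_m2]
    simp
    ring

/-- keep this signature -/
theorem thm_P3 : St_P3 := by
  intro n hn
  classical
  have hn' : (1 : ℝ) ≤ n := by exact_mod_cast hn
  set s : ℝ := Real.sqrt n / 2 with hs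
  have hs0 : 0 ≤ s := by positivity
  have hss : s ^ 2 = n / 4 := by
    rw [hs, div_pow, Real.sq_sqrt (by positivity)]
    norm_num
  set S : Finset (Fin n → Bool) := Finset.univ.filter (fun c => ¬ |(ts c : ℝ)| < s) with hS
  set T : Finset (Fin n → Bool) := Finset.univ.filter (fun c => |(ts c : ℝ)| < s) with hT
  have hcard : (T.card : ℝ) + S.card = 2 ^ n := by
    have h := Finset.card_filter_add_card_filter_not (s := (Finset.univ : Finset (Fin n → Bool)))
      (fun c => |(ts c : ℝ)| < s)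
    rw [Finset.card_univ] at h
    have h2 : Fintype.card (Fin n → Bool) = 2 ^ n := by simp
    rw [h2] at h
    have h3 : ((T.card + S.card : ℕ) : ℝ) = ((2 ^ n : ℕ) : ℝ) := congrArg Nat.cast h
    rw [Nat.cast_add, Nat.cast_pow] at h3
    exact h3
  have hfa : fa (fun c : Fin n → Bool => if |(ts c : ℝ)| < s then (1 : ℝ) else 0) =
      T.card / 2 ^ n := by
    unfold fa
    rw [Finset.sum_boole]
  rw [hfa]
  have h1 : ∑ c ∈ T, (ts c : ℝ) ^ 2 ≤ n / 4 * 2 ^ n := by
    calc ∑ c ∈ T, (ts c : ℝ) ^ 2 ≤ ∑ c ∈ T, (n : ℝ) / 4 := by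
          apply Finset.sum_le_sum
          intro c hc
          rw [hT, Finset.mem_filter] at hc
          rw [← hss, ← sq_abs]
          exact pow_le_pow_left₀ (abs_nonneg _) hc.2.le 2
      _ = n / 4 * T.card := by rw [Finset.sum_const, nsmul_eq_mul]; ring
      _ ≤ n / 4 * 2 ^ n := by
          apply mul_le_mul_of_nonneg_left _ (by positivity)
          have : (0 : ℝ) ≤ S.card := by positivity
          linarith
  have h2 : ∑ c ∈ T, (ts c : ℝ) ^ 2 + ∑ c ∈ S, (ts c : ℝ) ^ 2 = n * 2 ^ n := by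
    rw [← p3_m2]
    exact Finset.sum_filter_add_sum_filter_not _ _ _
  have h3 : (∑ c ∈ S, (ts c : ℝ) ^ 2) ^ 2 ≤ S.card * (3 * n ^ 2 * 2 ^ n) := by
    calc (∑ c ∈ S, (ts c : ℝ) ^ 2) ^ 2 ≤ S.card * ∑ c ∈ S, ((ts c : ℝ) ^ 2) ^ 2 :=
          sq_sum_le_card_mul_sum_sq
      _ ≤ S.card * (3 * n ^ 2 * 2 ^ n) := by
          apply mul_le_mul_of_nonneg_left _ (by positivity)
          calc ∑ c ∈ S, ((ts c : ℝ) ^ 2) ^ 2 ≤ ∑ c : Fin n → Bool, (ts c : ℝ) ^ 4 := by
                rw [Finset.sum_congr rfl (fun c _ => (by ring : ((ts c : ℝ) ^ 2) ^ 2 = ts c ^ 4))]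
                apply Finset.sum_le_sum_of_subset_of_nonneg (Finset.filter_subset _ _)
                intro c _ _
                positivity
            _ = (3 * n ^ 2 - 2 * n) * 2 ^ n := p3_m4 n
            _ ≤ 3 * n ^ 2 * 2 ^ n := by
                apply mul_le_mul_of_nonneg_right _ (by positivity)
                linarith
  have h4 : 3 / 4 * (n * 2 ^ n) ≤ ∑ c ∈ S, (ts c : ℝ) ^ 2 := by linarith
  have h5 : (3 / 4 * ((n : ℝ) * 2 ^ n)) ^ 2 ≤ S.card * (3 * n ^ 2 * 2 ^ n) :=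
    (pow_le_pow_left₀ (by positivity) h4 2).trans h3
  have h6 : 3 / 16 * (2 : ℝ) ^ n ≤ S.card := by
    have hpos : (0 : ℝ) < 3 * n ^ 2 * 2 ^ n := by positivity
    have : 3 / 16 * (2 : ℝ) ^ n * (3 * n ^ 2 * 2 ^ n) ≤ S.card * (3 * n ^ 2 * 2 ^ n) := by
      refine le_trans (le_of_eq ?_) h5
      ring
    exact le_of_mul_le_mul_right this hpos
  rw [div_le_iff₀ (by positivity)]
  linarith

end MHL
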