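import Pool.Agent.MHL.StP

/-!
# MHL: local bound for sums of random signs
-/

set_option autoImplicit false

namespace MHL

open Pool.Agent.Helper47.Manh (sg sg_true sg_false)

lemma p4_central (j : ℕ) : (Nat.centralBinom j) ^ 2 * (2 * j + 1) ≤ 16 ^ j := by
  induction j with
  | zero => simp
  | succ j ih =>
    have h := Nat.succ_mul_centralBinom_succ j
    have h1 : ((j + 1) * Nat.centralBinom (j + 1)) ^ 2 * (2 * (j + 1) + 1) ≤
        (j + 1) ^ 2 * 16 ^ (j + 1) := by
      rw [h]
      calc (2 * (2 * j + 1) * Nat.centralBinom j) ^ 2 * (2 * (j + 1) + 1)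
          = 4 * ((2 * j + 1) * (2 * j + 3)) * (Nat.centralBinom j ^ 2 * (2 * j + 1)) := by ring
        _ ≤ 4 * (4 * (j + 1) ^ 2) * 16 ^ j := by
            apply Nat.mul_le_mul _ ih
            apply Nat.mul_le_mul_left
            nlinarith
        _ = (j + 1) ^ 2 * 16 ^ (j + 1) := by ring
    rw [mul_pow, mul_assoc] at h1
    exact Nat.le_of_mul_le_mul_left h1 (by positivity)

lemma p4_choose (n : ℕ) : (n.choose (n / 2)) ^ 2 * n ≤ 4 ^ n := by
  rcases Nat.even_or_odd' n with ⟨j, rfl | rfl⟩
  · have h : 2 * j / 2 = j := by omega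
    rw [h]
    have h1 := p4_central j
    rw [Nat.centralBinom] at h1
    calc ((2 * j).choose j) ^ 2 * (2 * j) ≤ ((2 * j).choose j) ^ 2 * (2 * j + 1) :=
          Nat.mul_le_mul_left _ (by omega)
      _ ≤ 16 ^ j := h1
      _ = 4 ^ (2 * j) := by rw [pow_mul]; norm_num
  · have h : (2 * j + 1) / 2 = j := by omega
    rw [h]
    have h1 := p4_central (j + 1)
    have h2 : Nat.centralBinom (j + 1) = 2 * (2 * j + 1).choose j := by
      rw [Nat.centralBinom]
      have e : 2 * (j + 1) = (2 * j + 1) + 1 := by ring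
      rw [e, Nat.choose_succ_succ, Nat.choose_symm_half]
      ring
    rw [h2] at h1
    have h3 : 4 * (((2 * j + 1).choose j) ^ 2 * (2 * j + 1)) ≤ 4 * 4 ^ (2 * j + 1) := by
      calc 4 * (((2 * j + 1).choose j) ^ 2 * (2 * j + 1))
          ≤ (2 * (2 * j + 1).choose j) ^ 2 * (2 * (j + 1) + 1) := by nlinarith
        _ ≤ 16 ^ (j + 1) := h1
        _ = 4 * 4 ^ (2 * j + 1) := by
            rw [pow_succ, pow_succ, pow_mul]
            norm_num
            ring
    omega

lemma p4_choose_real {n : ℕ} (hn : 1 ≤ n) :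
    ((n.choose (n / 2) : ℕ) : ℝ) ≤ 2 ^ n / Real.sqrt n := by
  have hs : 0 < Real.sqrt (n : ℝ) := Real.sqrt_pos.2 (by exact_mod_cast hn)
  rw [le_div_iff₀ hs]
  apply le_of_sq_le_sq ?_ (by positivity)
  rw [mul_pow, Real.sq_sqrt (by positivity), ← pow_mul, mul_comm n 2, pow_mul]
  have := p4_choose n
  have h2 : (((n.choose (n / 2)) ^ 2 * n : ℕ) : ℝ) ≤ ((4 ^ n : ℕ) : ℝ) := by exact_mod_cast this
  push_cast at h2
  refine h2.trans (le_of_eq ?_)
  norm_num

/-- number of positive signs -/
def p4_K {n : ℕ} (c : Fin n → Bool) : ℕ := (Finset.univ.filter (fun i => c i = true)).card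

lemma p4_ts {n : ℕ} (c : Fin n → Bool) : ts c = 2 * (p4_K c : ℤ) - n := by
  unfold ts p4_K
  have h1 : ∀ i, sg (c i) = 2 * (if c i = true then (1 : ℤ) else 0) - 1 := by
    intro i
    cases h : c i <;> simp
  rw [Finset.sum_congr rfl fun i _ => h1 i, Finset.sum_sub_distrib, ← Finset.mul_sum,
    Finset.sum_boole]
  simp

lemma p4_K_le {n : ℕ} (c : Fin n → Bool) : p4_K c ≤ n := by
  unfold p4_K
  exact (Finset.card_filter_le _ _).trans (by simp)

lemma p4_card (n k : ℕ) :
    ((Finset.univ : Finset (Fin n → Bool)).filter (fun c => p4_K c = k)).card ≤ n.choose k := by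
  have h1 : (Finset.powersetCard k (Finset.univ : Finset (Fin n))).card = n.choose k := by
    rw [Finset.card_powersetCard, Finset.card_univ, Fintype.card_fin]
  rw [← h1]
  apply Finset.card_le_card_of_injOn (fun c => Finset.univ.filter (fun i => c i = true))
  · intro c hc
    rw [Finset.mem_coe, Finset.mem_filter] at hc
    rw [Finset.mem_coe, Finset.mem_powersetCard]
    exact ⟨Finset.subset_univ _, hc.2⟩
  · intro c _ c' _ hcc
    funext i
    have h2 := Finset.ext_iff.1 hcc i
    simp only [Finset.mem_filter, Finset.mem_univ, true_and] at h2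
    cases h : c i <;> cases h' : c' i <;> simp_all

theorem thm_P4 : St_P4 := by
  classical
  intro n L hn hL
  have hs : 0 < Real.sqrt (n : ℝ) := Real.sqrt_pos.2 (by exact_mod_cast hn)
  unfold fa
  rw [div_le_iff₀ (by positivity), Finset.sum_boole]
  set T : Finset ℕ := (Finset.range (n + 1)).filter (fun k => |((2 * (k : ℤ) - n : ℤ) : ℝ)| ≤ L)
    with hT
  have hcard : ((Finset.univ : Finset (Fin n → Bool)).filter
      (fun c => |(ts c : ℝ)| ≤ L)).card ≤ T.card * n.choose (n / 2) := by
    have h1 : ((Finset.univ : Finset (Fin n → Bool)).filter (fun c => |(ts c : ℝ)| ≤ L)) ⊆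
        T.biUnion (fun k => (Finset.univ : Finset (Fin n → Bool)).filter
          (fun c => p4_K c = k)) := by
      intro c hc
      rw [Finset.mem_filter] at hc
      rw [Finset.mem_biUnion]
      refine ⟨p4_K c, ?_, by simp⟩
      rw [hT, Finset.mem_filter, Finset.mem_range]
      refine ⟨by have := p4_K_le c; omega, ?_⟩
      rw [← p4_ts]
      exact hc.2
    refine (Finset.card_le_card h1).trans (Finset.card_biUnion_le.trans ?_)
    refine (Finset.sum_le_card_nsmul _ _ (n.choose (n / 2)) fun k _ =>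
      (p4_card n k).trans (Nat.choose_le_middle k n)).trans ?_
    rw [smul_eq_mul]
  have hTc : (T.card : ℝ) ≤ L + 1 := by
    rcases T.eq_empty_or_nonempty with h | h
    · rw [h]
      simp only [Finset.card_empty, Nat.cast_zero]
      linarith
    · have hmin := T.min'_mem h
      set k0 := T.min' h with hk0
      have hsub : T ⊆ Finset.Icc k0 (k0 + ⌊L⌋₊) := by
        intro k hk
        rw [Finset.mem_Icc]
        refine ⟨T.min'_le k hk, ?_⟩
        rw [hT, Finset.mem_filter] at hk hmin
        have h2 := abs_le.1 hk.2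
        have h3 := abs_le.1 hmin.2
        have h4 : ((k - k0 : ℕ) : ℝ) ≤ L := by
          rcases le_total k k0 with h5 | h5
          · rw [Nat.sub_eq_zero_of_le h5, Nat.cast_zero]
            exact hL
          · rw [Nat.cast_sub h5]
            have h6 := h2.2
            have h7 := h3.1
            push_cast at h6 h7
            linarith
        have h5 := Nat.le_floor h4
        omega
      have h6 := Finset.card_le_card hsub
      rw [Nat.card_Icc] at h6
      have h7 : T.card ≤ ⌊L⌋₊ + 1 := by omega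
      have h8 := Nat.floor_le hL
      have h9 : (T.card : ℝ) ≤ (⌊L⌋₊ : ℝ) + 1 := by exact_mod_cast h7
      linarith
  have hA : (((Finset.univ : Finset (Fin n → Bool)).filter
      (fun c => |(ts c : ℝ)| ≤ L)).card : ℝ) ≤ (T.card : ℝ) * (n.choose (n / 2) : ℕ) := by
    exact_mod_cast hcard
  refine hA.trans ?_
  calc (T.card : ℝ) * (n.choose (n / 2) : ℕ) ≤ (2 * L + 1) * (2 ^ n / Real.sqrt n) := by
        apply mul_le_mul (by linarith) (p4_choose_real hn) (by positivity) (by linarith)
    _ = (2 * L + 1) / Real.sqrt n * 2 ^ n := by ring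

end MHL
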