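import Pool.Agent.MHL.StP

/-!
# MHL: module P6 (large local time is unlikely)
-/

set_option autoImplicit false

namespace MHL

lemma p6_ch_nonneg (H : ℤ → ℝ) (q : ℕ) (L : ℝ) : ∀ (p : ℕ) (b : ℤ) (n : ℕ), 0 ≤ ch H q L p b n
  | 0, _, _ => by simp [ch]
  | p + 1, b, n => by
    rw [ch]
    refine Finset.sum_nonneg fun i _ => mul_nonneg ?_ (p6_ch_nonneg H q L p _ _)
    split_ifs <;> norm_num

lemma p6_choose (z p : ℕ) (y : ℝ) (hp : 1 ≤ p) (hy : 2 * (p : ℝ) ≤ y) (hz : y ≤ z) :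
    (y / (2 * p)) ^ p ≤ (z.choose p : ℝ) := by
  have hp0 : (0 : ℝ) < p := by exact_mod_cast hp
  have h1 := Nat.pow_sub_le_descFactorial z p
  have h2 : (z.descFactorial p : ℝ) = (p.factorial : ℝ) * (z.choose p : ℝ) := by
    exact_mod_cast Nat.descFactorial_eq_factorial_mul_choose z p
  have h3 : (p.factorial : ℝ) ≤ (p : ℝ) ^ p := by
    exact_mod_cast Nat.factorial_le_pow p
  have hpz : p ≤ z := by
    have : (p : ℝ) ≤ z := by linarith
    exact_mod_cast this
  have h4 : (((z + 1 - p : ℕ) : ℝ)) ^ p ≤ (z.descFactorial p : ℝ) := by exact_mod_cast h1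
  have h5 : ((z + 1 - p : ℕ) : ℝ) = (z : ℝ) + 1 - p := by
    rw [Nat.cast_sub (by omega)]
    push_cast
    ring
  have h6 : y / 2 ≤ ((z + 1 - p : ℕ) : ℝ) := by
    rw [h5]
    linarith
  have h7 : (y / 2) ^ p ≤ (((z + 1 - p : ℕ) : ℝ)) ^ p :=
    pow_le_pow_left₀ (by linarith) h6 p
  have hc : (0 : ℝ) ≤ (z.choose p : ℝ) := Nat.cast_nonneg _
  have h8 : (y / 2) ^ p ≤ (p : ℝ) ^ p * (z.choose p : ℝ) := by
    calc (y / 2) ^ p ≤ (z.descFactorial p : ℝ) := h7.trans h4
      _ = (p.factorial : ℝ) * (z.choose p : ℝ) := h2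
      _ ≤ _ := mul_le_mul_of_nonneg_right h3 hc
  have h9 : y / (2 * p) = y / 2 / p := by rw [div_div]
  rw [h9, div_pow, div_le_iff₀ (by positivity)]
  linarith [h8]

lemma p6_event (ha : St_P6a) (H : ℤ → ℝ) (q n p : ℕ) (a : ℤ) (A : ℝ) (hn : 1 ≤ n)
    (hA : 2 ≤ A) (hp : 1 ≤ p) (hpA : 4 * (p : ℝ) ≤ A ^ 3) (x : ℝ)
    (hx : A ^ 3 * Real.sqrt n < (((Finset.range n).filter
      (fun i : ℕ => |H (a + i * q) - x| ≤ 2 * A * Real.sqrt q)).card : ℝ)) :
    ∃ i ∈ Finset.range n, (A ^ 3 * Real.sqrt n / (4 * p)) ^ p ≤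
      ch H q (4 * A * Real.sqrt q) p (a + i * q) (n - i) := by
  have hs1 : 1 ≤ Real.sqrt n := by
    rw [Real.one_le_sqrt]
    exact_mod_cast hn
  have hp1 : (1 : ℝ) ≤ p := by exact_mod_cast hp
  have hA3 : (8 : ℝ) ≤ A ^ 3 := by nlinarith [sq_nonneg (A - 2), sq_nonneg A]
  have hAs : (8 : ℝ) ≤ A ^ 3 * Real.sqrt n := by nlinarith
  set S := (Finset.range n).filter (fun i : ℕ => |H (a + i * q) - x| ≤ 2 * A * Real.sqrt q)
    with hS
  have hSne : S.Nonempty := by
    rw [← Finset.card_pos]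
    have : (0 : ℝ) < (S.card : ℝ) := by linarith
    exact_mod_cast this
  obtain ⟨i1, hi1, hmin⟩ := Finset.exists_min_image S (fun i => i) hSne
  have hi1' := hi1
  rw [hS, Finset.mem_filter, Finset.mem_range] at hi1'
  refine ⟨i1, Finset.mem_range.2 hi1'.1, ?_⟩
  set T := (Finset.Ico 1 (n - i1)).filter
    (fun i : ℕ => |H ((a + i1 * q) + i * q) - x| ≤ 2 * A * Real.sqrt q) with hT
  have hcard : (S.erase i1).card ≤ T.card := by
    refine Finset.card_le_card_of_injOn (fun i => i - i1) ?_ ?_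
    · intro i hi
      have hi2 := Finset.mem_erase.1 hi
      have h3 := hmin i hi2.2
      have h4 := hi2.2
      rw [hS, Finset.mem_filter, Finset.mem_range] at h4
      have h5 : i1 < i := lt_of_le_of_ne h3 (Ne.symm hi2.1)
      rw [hT, Finset.mem_coe, Finset.mem_filter, Finset.mem_Ico]
      refine ⟨⟨?_, ?_⟩, ?_⟩
      · show 1 ≤ i - i1
        omega
      · show i - i1 < n - i1
        omega
      · show |H ((a + i1 * q) + ((i - i1 : ℕ) : ℤ) * q) - x| ≤ 2 * A * Real.sqrt q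
        have h6 : (a + i1 * q) + ((i - i1 : ℕ) : ℤ) * q = a + i * q := by
          rw [Nat.cast_sub h5.le]
          ring
        rw [h6]
        exact h4.2
    · intro i hi j hj hij
      have hi2 := Finset.mem_erase.1 (Finset.mem_coe.1 hi)
      have hj2 := Finset.mem_erase.1 (Finset.mem_coe.1 hj)
      have h3 := hmin i hi2.2
      have h4 := hmin j hj2.2
      have h5 : i - i1 = j - i1 := hij
      have h3' : i1 ≤ i := h3
      have h4' : i1 ≤ j := h4
      omega
  rw [Finset.card_erase_of_mem hi1] at hcard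
  have hSpos : 1 ≤ S.card := Finset.card_pos.2 hSne
  have hz : (S.card : ℝ) ≤ (T.card : ℝ) + 1 := by
    have : S.card ≤ T.card + 1 := by omega
    exact_mod_cast this
  have h1 := ha H q (2 * A * Real.sqrt q) x p (n - i1) (a + i1 * q) hi1'.2
  have h2 := p6_choose T.card p (A ^ 3 * Real.sqrt n / 2) hp (by nlinarith) (by linarith)
  have h3 : A ^ 3 * Real.sqrt n / (4 * p) = A ^ 3 * Real.sqrt n / 2 / (2 * p) := by
    rw [div_div]
    ring
  rw [h3]
  have h4 : 2 * (2 * A * Real.sqrt q) = 4 * A * Real.sqrt q := by ring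
  rw [h4] at h1
  exact h2.trans h1

theorem thm_P6 (ha : St_P6a) (hb : St_P6b) : St_P6 := by
  classical
  intro N _ q n p a A hq hn hnq hA hp hpA
  have hs1 : 1 ≤ Real.sqrt n := by
    rw [Real.one_le_sqrt]
    exact_mod_cast hn
  have hp1 : (1 : ℝ) ≤ p := by exact_mod_cast hp
  have hq1 : 1 ≤ Real.sqrt q := by
    rw [Real.one_le_sqrt]
    exact_mod_cast hq
  have hA3 : (8 : ℝ) ≤ A ^ 3 := by nlinarith [sq_nonneg (A - 2), sq_nonneg A]
  set K : ℝ := (A ^ 3 * Real.sqrt n / (4 * p)) ^ p with hK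
  have hKpos : 0 < K := by
    rw [hK]
    positivity
  set G : ℕ → (ZMod N → Bool) → ℝ := fun i h =>
    ch (fun y => (sm (gs h) y : ℝ)) q (4 * A * Real.sqrt q) p (a + i * q) (n - i) with hG
  have hG0 : ∀ i h, 0 ≤ G i h := fun i h => p6_ch_nonneg _ _ _ _ _ _
  have step1 : pb (fun h : ZMod N → Bool => ∃ x : ℝ, A ^ 3 * Real.sqrt n <
    (((Finset.range n).filter
      (fun i : ℕ => |(sm (gs h) (a + i * q) : ℝ) - x| ≤ 2 * A * Real.sqrt q)).card : ℝ))
      ≤ ea (fun h => ∑ i ∈ Finset.range n, G i h / K) := by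
    unfold pb ea
    refine div_le_div_of_nonneg_right (Finset.sum_le_sum fun h _ => ?_) (by positivity)
    split_ifs with hev
    · obtain ⟨x, hx⟩ := hev
      obtain ⟨i, hi, hi2⟩ := p6_event ha (fun y => (sm (gs h) y : ℝ)) q n p a A hn hA hp hpA x hx
      have h1 : (1 : ℝ) ≤ G i h / K := by
        rw [le_div_iff₀ hKpos, one_mul]
        exact hi2
      exact h1.trans (Finset.single_le_sum (f := fun i => G i h / K)
        (fun j _ => div_nonneg (hG0 j h) hKpos.le) hi)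
    · exact Finset.sum_nonneg fun j _ => div_nonneg (hG0 j h) hKpos.le
  refine step1.trans ?_
  have step2 : ea (fun h => ∑ i ∈ Finset.range n, G i h / K)
      = ∑ i ∈ Finset.range n, ea (G i) / K := by
    unfold ea
    rw [Finset.sum_comm, Finset.sum_div]
    refine Finset.sum_congr rfl fun i _ => ?_
    rw [← Finset.sum_div]
    ring
  rw [step2]
  have step3 : ∀ i ∈ Finset.range n, ea (G i) / K ≤ (72 * p / A ^ 2) ^ p := by
    intro i hi
    rw [Finset.mem_range] at hi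
    have h1 := hb N q (n - i) p (a + i * q) (4 * A * Real.sqrt q) hq
      ((Nat.mul_le_mul_right q (Nat.sub_le n i)).trans hnq) (by positivity)
    have h2 : (2 * (4 * A * Real.sqrt q) + 1) / Real.sqrt q * (2 * Real.sqrt ((n - i : ℕ) : ℝ))
        ≤ 18 * A * Real.sqrt n := by
      have h3 : (2 * (4 * A * Real.sqrt q) + 1) / Real.sqrt q ≤ 9 * A := by
        rw [div_le_iff₀ (by linarith)]
        nlinarith
      have h4 : Real.sqrt ((n - i : ℕ) : ℝ) ≤ Real.sqrt n := by
        apply Real.sqrt_le_sqrt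
        exact_mod_cast Nat.sub_le n i
      calc (2 * (4 * A * Real.sqrt q) + 1) / Real.sqrt q * (2 * Real.sqrt ((n - i : ℕ) : ℝ))
          ≤ 9 * A * (2 * Real.sqrt n) := by
            apply mul_le_mul h3 (by linarith) (by positivity) (by positivity)
        _ = 18 * A * Real.sqrt n := by ring
    have h5 : ea (G i) ≤ (18 * A * Real.sqrt n) ^ p :=
      h1.trans (pow_le_pow_left₀ (by positivity) h2 p)
    rw [div_le_iff₀ hKpos, hK, ← mul_pow]
    refine h5.trans (le_of_eq ?_)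
    congr 1
    have hA0 : A ≠ 0 := by linarith
    have hp0 : (p : ℝ) ≠ 0 := by linarith
    field_simp
    ring
  refine (Finset.sum_le_sum step3).trans (le_of_eq ?_)
  rw [Finset.sum_const, Finset.card_range, nsmul_eq_mul]

end MHL
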