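import Pool.Agent.MHL.StP

/-!
# MHL: binomial moments are bounded by chains of return times
-/

set_option autoImplicit false

namespace MHL

lemma p6a_ch_nonneg (H : ℤ → ℝ) (q : ℕ) (L : ℝ) (p : ℕ) :
    ∀ (b : ℤ) (n : ℕ), 0 ≤ ch H q L p b n := by
  induction p with
  | zero => intro b n; simp [ch]
  | succ p ih =>
    intro b n
    rw [ch]
    refine Finset.sum_nonneg fun i _ => mul_nonneg ?_ (ih _ _)
    split_ifs <;> norm_num

lemma p6a_choose (p : ℕ) (S : Finset ℕ) :
    S.card.choose (p + 1) ≤ ∑ i ∈ S, ((S.filter (fun j => i < j)).card).choose p := by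
  induction S using Finset.induction_on_min with
  | empty => simp
  | insert m S hm ih =>
    have hmS : m ∉ S := fun h => lt_irrefl m (hm m h)
    rw [Finset.card_insert_of_notMem hmS, Nat.choose_succ_succ, Finset.sum_insert hmS]
    have h1 : (insert m S).filter (fun j => m < j) = S := by
      ext j
      simp only [Finset.mem_filter, Finset.mem_insert]
      constructor
      · rintro ⟨rfl | h, h2⟩
        · exact absurd h2 (lt_irrefl _)
        · exact h
      · intro h
        exact ⟨Or.inr h, hm j h⟩
    have h2 : ∀ i ∈ S, (insert m S).filter (fun j => i < j) = S.filter (fun j => i < j) := by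
      intro i hi
      ext j
      simp only [Finset.mem_filter, Finset.mem_insert]
      constructor
      · rintro ⟨rfl | h, h2⟩
        · exact absurd (h2.trans (hm i hi)) (lt_irrefl _)
        · exact ⟨h, h2⟩
      · rintro ⟨h, h2⟩
        exact ⟨Or.inr h, h2⟩
    rw [h1]
    refine Nat.add_le_add_left (ih.trans (le_of_eq ?_)) _
    refine Finset.sum_congr rfl fun i hi => ?_
    rw [h2 i hi]

theorem thm_P6a : St_P6a := by
  intro H q L x p
  induction p with
  | zero =>
    intro n b _
    simp [ch]
  | succ p ih =>
    intro n b hb
    set S : Finset ℕ := (Finset.Ico 1 n).filter (fun i : ℕ => |H (b + i * q) - x| ≤ L) with hS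
    have h1 : ((S.card.choose (p + 1) : ℕ) : ℝ) ≤
        ∑ i ∈ S, (((S.filter (fun j => i < j)).card.choose p : ℕ) : ℝ) := by
      exact_mod_cast p6a_choose p S
    refine h1.trans ?_
    rw [ch]
    have h2 : ∀ i ∈ S, (((S.filter (fun j => i < j)).card.choose p : ℕ) : ℝ) ≤
        (if |H (b + i * q) - H b| ≤ 2 * L then (1 : ℝ) else 0) *
          ch H q (2 * L) p (b + i * q) (n - i) := by
      intro i hi
      rw [hS, Finset.mem_filter, Finset.mem_Ico] at hi
      have h3 : |H (b + i * q) - H b| ≤ 2 * L := by
        have e : H (b + i * q) - H b = (H (b + i * q) - x) - (H b - x) := by ring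
        rw [e]
        exact (abs_sub _ _).trans (by linarith [hi.2])
      rw [if_pos h3, one_mul]
      refine le_trans ?_ (ih (n - i) (b + i * q) hi.2)
      have h4 : (S.filter (fun j => i < j)).card ≤
          ((Finset.Ico 1 (n - i)).filter
            (fun j : ℕ => |H (b + i * q + j * q) - x| ≤ L)).card := by
        apply Finset.card_le_card_of_injOn (fun j => j - i)
        · intro j hj
          rw [Finset.mem_coe, Finset.mem_filter, hS, Finset.mem_filter, Finset.mem_Ico] at hj
          rw [Finset.mem_coe, Finset.mem_filter, Finset.mem_Ico]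
          refine ⟨by show 1 ≤ j - i ∧ j - i < n - i; omega, ?_⟩
          have e : b + i * q + ((j - i : ℕ) : ℤ) * q = b + j * q := by
            have : ((j - i : ℕ) : ℤ) = j - i := by
              rw [Nat.cast_sub hj.2.le]
            rw [this]
            ring
          rw [e]
          exact hj.1.2
        · intro j hj j' hj' hjj
          rw [Finset.mem_coe, Finset.mem_filter] at hj hj'
          have := hj.2
          have := hj'.2
          simp only at hjj
          omega
      exact_mod_cast Nat.choose_le_choose p h4
    refine (Finset.sum_le_sum h2).trans ?_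
    apply Finset.sum_le_sum_of_subset_of_nonneg (Finset.filter_subset _ _)
    intro i _ _
    refine mul_nonneg ?_ (p6a_ch_nonneg _ _ _ _ _ _)
    split_ifs <;> norm_num

end MHL
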