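import Pool.Agent.MHL.StP

/-!
# MHL: expectation of the number of chains of return times
-/

set_option autoImplicit false

namespace MHL

open Pool.Agent.Helper47.Manh (sg)

lemma p6b_sm (g : ℤ → ℤ) (b : ℤ) (m : ℕ) :
    sm g (b + m) - sm g b = ∑ j ∈ Finset.range m, g (b + j) := by
  induction m with
  | zero => simp
  | succ m ih =>
    rw [Finset.sum_range_succ, ← ih]
    have : b + ((m + 1 : ℕ) : ℤ) = (b + m) + 1 := by push_cast; ring
    rw [this, sm_succ]
    ring

lemma p6b_ts {N : ℕ} (h : ZMod N → Bool) (b : ℤ) (m : ℕ) :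
    sm (gs h) (b + m) - sm (gs h) b =
      ts (fun j : Fin m => h ((b + (j : ℕ) : ℤ) : ZMod N)) := by
  rw [p6b_sm]
  unfold ts gs
  rw [Fin.sum_univ_eq_sum_range (fun j => sg (h ((b + (j : ℕ) : ℤ) : ZMod N))) m]

lemma p6b_diff {N : ℕ} (h h' : ZMod N → Bool) (b : ℤ) (m : ℕ)
    (hh : ∀ j : ℕ, j < m → h ((b + (j : ℕ) : ℤ) : ZMod N) = h' ((b + (j : ℕ) : ℤ) : ZMod N)) :
    sm (gs h) (b + m) - sm (gs h) b = sm (gs h') (b + m) - sm (gs h') b := by
  rw [p6b_sm, p6b_sm]
  refine Finset.sum_congr rfl fun j hj => ?_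
  unfold gs
  rw [hh j (Finset.mem_range.1 hj)]

lemma p6b_ch {N : ℕ} (h h' : ZMod N → Bool) (q : ℕ) (L : ℝ) (p : ℕ) :
    ∀ (n : ℕ) (b : ℤ),
    (∀ j : ℕ, j < n * q → h ((b + (j : ℕ) : ℤ) : ZMod N) = h' ((b + (j : ℕ) : ℤ) : ZMod N)) →
    ch (fun y => (sm (gs h) y : ℝ)) q L p b n = ch (fun y => (sm (gs h') y : ℝ)) q L p b n := by
  induction p with
  | zero => intro n b _; simp [ch]
  | succ p ih =>
    intro n b hh
    rw [ch, ch]
    refine Finset.sum_congr rfl fun i hi => ?_
    rw [Finset.mem_Ico] at hi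
    have hlt : i * q ≤ n * q := Nat.mul_le_mul_right q hi.2.le
    have e1 : ((sm (gs h) (b + i * q) : ℝ) - sm (gs h) b) =
        ((sm (gs h') (b + i * q) : ℝ) - sm (gs h') b) := by
      have := p6b_diff h h' b (i * q) (fun j hj => hh j (lt_of_lt_of_le hj hlt))
      push_cast at this
      exact_mod_cast this
    simp only [e1]
    congr 1
    apply ih
    intro j hj
    have e2 : (b + i * q : ℤ) + (j : ℕ) = b + ((i * q + j : ℕ) : ℤ) := by push_cast; ring
    rw [e2]
    apply hh
    have e3 : n * q = i * q + (n - i) * q := by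
      rw [← Nat.add_mul]
      congr 1
      omega
    omega

lemma p6b_sqrt (n : ℕ) : ∑ i ∈ Finset.Ico 1 n, 1 / Real.sqrt i ≤ 2 * Real.sqrt n := by
  have key : ∀ m : ℕ, ∑ i ∈ Finset.range m, 1 / Real.sqrt ((i + 1 : ℕ) : ℝ) ≤
      2 * Real.sqrt m := by
    intro m
    induction m with
    | zero => simp
    | succ m ih =>
      rw [Finset.sum_range_succ]
      have h1 : 0 < Real.sqrt ((m + 1 : ℕ) : ℝ) := Real.sqrt_pos.2 (by positivity)
      have h0 : 0 ≤ Real.sqrt (m : ℝ) := Real.sqrt_nonneg _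
      have h2 : Real.sqrt (m : ℝ) ≤ Real.sqrt ((m + 1 : ℕ) : ℝ) :=
        Real.sqrt_le_sqrt (by push_cast; linarith)
      have h3 : Real.sqrt ((m + 1 : ℕ) : ℝ) ^ 2 = m + 1 := by
        rw [Real.sq_sqrt (by positivity)]
        push_cast
        ring
      have h4 : Real.sqrt (m : ℝ) ^ 2 = m := Real.sq_sqrt (by positivity)
      have h5 : 1 / Real.sqrt ((m + 1 : ℕ) : ℝ) ≤
          2 * Real.sqrt ((m + 1 : ℕ) : ℝ) - 2 * Real.sqrt (m : ℝ) := by
        rw [div_le_iff₀ h1]
        nlinarith [sq_nonneg (Real.sqrt ((m + 1 : ℕ) : ℝ) - Real.sqrt (m : ℝ))]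
      linarith
  rw [Finset.sum_Ico_eq_sum_range]
  have h1 : ∑ k ∈ Finset.range (n - 1), 1 / Real.sqrt ((1 + k : ℕ) : ℝ) ≤
      2 * Real.sqrt ((n - 1 : ℕ) : ℝ) := by
    refine (le_of_eq ?_).trans (key (n - 1))
    refine Finset.sum_congr rfl fun k _ => ?_
    rw [add_comm]
  refine h1.trans ?_
  have : Real.sqrt ((n - 1 : ℕ) : ℝ) ≤ Real.sqrt (n : ℝ) :=
    Real.sqrt_le_sqrt (by exact_mod_cast Nat.sub_le n 1)
  linarith

lemma p6b_ea_sum {N : ℕ} [NeZero N] {ι : Type*} (s : Finset ι)
    (F : ι → (ZMod N → Bool) → ℝ) :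
    ea (fun h => ∑ i ∈ s, F i h) = ∑ i ∈ s, ea (F i) := by
  unfold ea
  rw [Finset.sum_comm, Finset.sum_div]

lemma p6b_ea_one {N : ℕ} [NeZero N] : ea (fun _ : ZMod N → Bool => (1 : ℝ)) = 1 := by
  unfold ea
  rw [Finset.sum_const, Finset.card_univ, Fintype.card_fun, ZMod.card, Fintype.card_bool,
    nsmul_eq_mul, mul_one]
  push_cast
  exact div_self (by positivity)

lemma p6b_ea_nonneg {N : ℕ} [NeZero N] {F : (ZMod N → Bool) → ℝ} (hF : ∀ h, 0 ≤ F h) :
    0 ≤ ea F := div_nonneg (Finset.sum_nonneg fun h _ => hF h) (by positivity)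

lemma p6b_ch_nonneg (H : ℤ → ℝ) (q : ℕ) (L : ℝ) (p : ℕ) :
    ∀ (b : ℤ) (n : ℕ), 0 ≤ ch H q L p b n := by
  induction p with
  | zero => intro b n; simp [ch]
  | succ p ih =>
    intro b n
    rw [ch]
    refine Finset.sum_nonneg fun i _ => mul_nonneg ?_ (ih _ _)
    split_ifs <;> norm_num

theorem thm_P6b (h0 : St_P0) (h1 : St_P1) (h4 : St_P4) : St_P6b := by
  intro N _ q n p
  induction p generalizing n with
  | zero =>
    intro b L _ _ _
    rw [pow_zero]
    simp only [ch]
    rw [p6b_ea_one]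
  | succ p ih =>
    intro b L hq hn hL
    set C : ℝ := (2 * L + 1) / Real.sqrt q with hC
    have hC0 : 0 ≤ C := div_nonneg (by linarith) (Real.sqrt_nonneg _)
    have hsum : ea (fun h : ZMod N → Bool => ch (fun y => (sm (gs h) y : ℝ)) q L (p + 1) b n) =
        ∑ i ∈ Finset.Ico 1 n, ea (fun h : ZMod N → Bool =>
          (if |(sm (gs h) (b + i * q) : ℝ) - sm (gs h) b| ≤ L then (1 : ℝ) else 0) *
            ch (fun y => (sm (gs h) y : ℝ)) q L p (b + i * q) (n - i)) := by
      rw [← p6b_ea_sum]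
      congr 1
    rw [hsum]
    have hterm : ∀ i ∈ Finset.Ico 1 n, ea (fun h : ZMod N → Bool =>
          (if |(sm (gs h) (b + i * q) : ℝ) - sm (gs h) b| ≤ L then (1 : ℝ) else 0) *
            ch (fun y => (sm (gs h) y : ℝ)) q L p (b + i * q) (n - i)) ≤
        C * (1 / Real.sqrt i) * (C * (2 * Real.sqrt n)) ^ p := by
      intro i hi
      rw [Finset.mem_Ico] at hi
      have hiq : i * q ≤ n * q := Nat.mul_le_mul_right q hi.2.le
      have e3 : n * q = i * q + (n - i) * q := by
        rw [← Nat.add_mul]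
        congr 1
        omega
      rw [h1 N {z : ZMod N | ∃ j : ℕ, j < i * q ∧ z = ((b + (j : ℕ) : ℤ) : ZMod N)}
        (fun h => if |(sm (gs h) (b + i * q) : ℝ) - sm (gs h) b| ≤ L then (1 : ℝ) else 0)
        (fun h => ch (fun y => (sm (gs h) y : ℝ)) q L p (b + i * q) (n - i)) ?_ ?_]
      · apply mul_le_mul
        · -- probability of one return
          have e1 : ea (fun h : ZMod N → Bool =>
              if |(sm (gs h) (b + i * q) : ℝ) - sm (gs h) b| ≤ L then (1 : ℝ) else 0) =
              fa (fun c : Fin (i * q) → Bool => if |(ts c : ℝ)| ≤ L then (1 : ℝ) else 0) := by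
            rw [← h0 N b (i * q) _ (hiq.trans hn)]
            congr 1
            funext h
            have e2 := p6b_ts h b (i * q)
            have e4 : ((sm (gs h) (b + i * q) : ℝ) - sm (gs h) b) =
                ((ts (fun j : Fin (i * q) => h ((b + (j : ℕ) : ℤ) : ZMod N)) : ℤ) : ℝ) := by
              rw [← e2]
              push_cast
              rfl
            rw [e4]
          rw [e1]
          refine (h4 (i * q) L (Nat.mul_pos (by omega) (by omega)) hL).trans (le_of_eq ?_)
          rw [hC]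
          push_cast
          rw [Real.sqrt_mul (by positivity)]
          have hi0 : Real.sqrt (i : ℝ) ≠ 0 := by
            have : (0 : ℝ) < i := by exact_mod_cast (show 0 < i by omega)
            exact (Real.sqrt_pos.2 this).ne'
          have hq0 : Real.sqrt (q : ℝ) ≠ 0 := by
            have : (0 : ℝ) < q := by exact_mod_cast (show 0 < q by omega)
            exact (Real.sqrt_pos.2 this).ne'
          field_simp
        · refine (ih (n - i) (b + i * q) L hq ?_ hL).trans ?_
          · omega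
          · apply pow_le_pow_left₀ (by positivity)
            apply mul_le_mul_of_nonneg_left ?_ hC0
            have : Real.sqrt ((n - i : ℕ) : ℝ) ≤ Real.sqrt (n : ℝ) :=
              Real.sqrt_le_sqrt (by exact_mod_cast Nat.sub_le n i)
            linarith
        · exact p6b_ea_nonneg fun h => p6b_ch_nonneg _ _ _ _ _ _
        · positivity
      · intro h h' hh
        have e1 : ((sm (gs h) (b + i * q) : ℝ) - sm (gs h) b) =
            ((sm (gs h') (b + i * q) : ℝ) - sm (gs h') b) := by
          have := p6b_diff h h' b (i * q) (fun j hj => hh _ ⟨j, hj, rfl⟩)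
          push_cast at this
          exact_mod_cast this
        rw [e1]
      · intro h h' hh
        apply p6b_ch
        intro j hj
        apply hh
        rintro ⟨j', hj', he⟩
        have e5 := (ZMod.intCast_eq_intCast_iff_dvd_sub _ _ N).1 he
        obtain ⟨t, ht⟩ := e5
        have hA : (b + j' : ℤ) - (b + i * q + j) = -(((i * q + j : ℕ) : ℤ) - j') := by
          push_cast
          ring
        rw [hA] at ht
        have hpos : (0 : ℤ) < ((i * q + j : ℕ) : ℤ) - j' := by
          have : (j' : ℤ) < ((i * q + j : ℕ) : ℤ) := by exact_mod_cast (by omega)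
          omega
        have hlt : ((i * q + j : ℕ) : ℤ) - j' < N := by
          have : ((i * q + j : ℕ) : ℤ) < N := by exact_mod_cast (by omega)
          omega
        have hN : (0 : ℤ) < N := by omega
        rcases lt_trichotomy t 0 with h6 | h6 | h6
        · nlinarith
        · subst h6
          omega
        · nlinarith
    refine (Finset.sum_le_sum hterm).trans ?_
    rw [← Finset.sum_mul, ← Finset.mul_sum, pow_succ, mul_comm]
    apply mul_le_mul_of_nonneg_left ?_ (by positivity)
    exact mul_le_mul_of_nonneg_left (p6b_sqrt n) hC0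

end MHL
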