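import Pool.Agent.MHL.StP

/-!
# MHL: P7a, reduction to finitely many events by periodicity
-/

set_option autoImplicit false

namespace MHL

lemma p7a_per {N : ℕ} [NeZero N] (h : ZMod N → Bool) (k y : ℤ) :
    gs h (y + (N : ℤ) * k) = gs h y := by
  unfold gs
  have : (((y + (N : ℤ) * k : ℤ)) : ZMod N) = (y : ZMod N) := by
    push_cast
    rw [ZMod.natCast_self]
    ring
  rw [this]

lemma p7a_sm {N : ℕ} [NeZero N] (h : ZMod N → Bool) (k n : ℤ) :
    sm (gs h) (n + (N : ℤ) * k) = sm (gs h) n + sm (gs h) ((N : ℤ) * k) := by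
  have h1 := sm_shift (gs h) ((N : ℤ) * k) n
  have h2 : (fun j => gs h (j + (N : ℤ) * k)) = gs h := by
    funext j
    exact p7a_per h k j
  rw [h2] at h1
  linarith

theorem thm_P7a : St_P7a := by
  intro N M _ A h hA H1 H2 H3 lo
  have hN : 0 < N := Nat.pos_of_ne_zero (NeZero.ne N)
  have hdec : ∀ a : ℤ, ∃ (a0 : ℕ) (k : ℤ), a0 < N ∧ a = (a0 : ℤ) + (N : ℤ) * k := by
    intro a
    have hN' : (0 : ℤ) < N := by exact_mod_cast hN
    refine ⟨(a % (N : ℤ)).toNat, a / (N : ℤ), ?_, ?_⟩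
    · have h1 := Int.emod_nonneg a hN'.ne'
      have h2 := Int.emod_lt_of_pos a hN'
      omega
    · have h1 := Int.emod_nonneg a hN'.ne'
      rw [Int.toNat_of_nonneg h1]
      exact (Int.emod_add_mul_ediv a (N : ℤ)).symm
  refine ⟨?_, ?_, ?_⟩
  · intro a b ha hab hb
    obtain ⟨a0, k, ha0, hak⟩ := hdec a
    obtain ⟨n, hn⟩ : ∃ n : ℕ, b = a + n := ⟨(b - a).toNat, by omega⟩
    rcases Nat.eq_zero_or_pos n with hn0 | hn0
    · subst hn0
      have : b = a := by rw [hn]; simp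
      subst this
      simp
    · have h1 := H1 a0 n ha0 hn0 (by omega)
      have e1 : b = ((a0 : ℤ) + n) + (N : ℤ) * k := by rw [hn, hak]; ring
      have e2 : (b : ℝ) - a = (n : ℝ) := by rw [hn]; push_cast; ring
      rw [e2, e1, hak, p7a_sm, p7a_sm]
      push_cast
      have e3 : ((sm (gs h) ((a0 : ℤ) + n) : ℤ) : ℝ) + (sm (gs h) ((N : ℤ) * k) : ℤ) -
          ((sm (gs h) (a0 : ℤ) : ℤ) + (sm (gs h) ((N : ℤ) * k) : ℤ)) =
          (sm (gs h) ((a0 : ℤ) + n) : ℤ) - (sm (gs h) (a0 : ℤ) : ℤ) := by ring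
      rw [e3]
      exact h1
  · intro a b ha hab hb hAb
    obtain ⟨a0, k, ha0, hak⟩ := hdec a
    obtain ⟨n, hn⟩ : ∃ n : ℕ, b = a + n := ⟨(b - a).toNat, by omega⟩
    have e2 : (b : ℝ) - a = (n : ℝ) := by rw [hn]; push_cast; ring
    rw [e2] at hAb ⊢
    obtain ⟨s, t, ⟨hs1, hs2⟩, ⟨ht1, ht2⟩, hst⟩ := H2 a0 n ha0 (by omega) hAb
    refine ⟨s + (N : ℤ) * k, t + (N : ℤ) * k, ⟨by omega, by omega⟩, ⟨by omega, by omega⟩, ?_⟩
    rw [p7a_sm, p7a_sm]
    push_cast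
    linarith
  · intro a q n x hq hn ha hb
    obtain ⟨a0, k, ha0, hak⟩ := hdec a
    have hnq : n * q ≤ M := by
      have : (n : ℤ) * q ≤ M := by linarith
      exact_mod_cast this
    have h3 := H3 a0 q n ha0 hq hn hnq (x - sm (gs h) ((N : ℤ) * k))
    refine le_trans (le_of_eq ?_) h3
    congr 2
    refine Finset.filter_congr fun i _ => ?_
    have e1 : a + (i : ℤ) * q = ((a0 : ℤ) + i * q) + (N : ℤ) * k := by rw [hak]; ring
    rw [e1, p7a_sm]
    push_cast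
    have e3 : (sm (gs h) ((a0 : ℤ) + i * q) : ℝ) + (sm (gs h) ((N : ℤ) * k) : ℝ) - x =
        (sm (gs h) ((a0 : ℤ) + i * q) : ℝ) - (x - (sm (gs h) ((N : ℤ) * k) : ℝ)) := by ring
    rw [e3]

end MHL
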