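import Pool.Agent.MHL.StP

/-!
# MHL: union bound for good environments
-/

set_option autoImplicit false

namespace MHL

open Pool.Agent.Helper47.Manh (sg)

section
variable {N : ℕ} [NeZero N]

lemma p7b_ea_mono {F G : (ZMod N → Bool) → ℝ} (h : ∀ x, F x ≤ G x) : ea F ≤ ea G := by
  unfold ea
  exact div_le_div_of_nonneg_right (Finset.sum_le_sum fun x _ => h x) (by positivity)

lemma p7b_ea_sum {ι : Type*} (s : Finset ι) (F : ι → (ZMod N → Bool) → ℝ) :
    ea (fun h => ∑ i ∈ s, F i h) = ∑ i ∈ s, ea (F i) := by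
  unfold ea
  rw [Finset.sum_comm, Finset.sum_div]

lemma p7b_union {ι : Type*} (s : Finset ι) (S : (ZMod N → Bool) → Prop)
    (T : ι → (ZMod N → Bool) → Prop) (h : ∀ x, S x → ∃ i ∈ s, T i x) :
    pb S ≤ ∑ i ∈ s, pb (T i) := by
  classical
  unfold pb
  rw [← p7b_ea_sum]
  refine p7b_ea_mono fun x => ?_
  have hnn : ∀ i ∈ s, (0 : ℝ) ≤ (if T i x then (1 : ℝ) else 0) := by
    intro i _; split_ifs <;> norm_num
  by_cases hx : S x
  · obtain ⟨i, hi, hT⟩ := h x hx
    rw [if_pos hx]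
    refine le_trans (le_of_eq ?_) (Finset.single_le_sum hnn hi)
    rw [if_pos hT]
  · rw [if_neg hx]
    exact Finset.sum_nonneg hnn

lemma p7b_or (S A B : (ZMod N → Bool) → Prop) (h : ∀ x, S x → A x ∨ B x) :
    pb S ≤ pb A + pb B := by
  have h1 := p7b_union (Finset.univ : Finset Bool) S (fun b => if b then A else B) (by
    intro x hx
    rcases h x hx with h | h
    · exact ⟨true, Finset.mem_univ _, by simpa using h⟩
    · exact ⟨false, Finset.mem_univ _, by simpa using h⟩)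
  simpa using h1

lemma p7b_mono (S A : (ZMod N → Bool) → Prop) (h : ∀ x, S x → A x) : pb S ≤ pb A := by
  have h1 := p7b_union (Finset.univ : Finset Unit) S (fun _ => A) (by
    intro x hx
    exact ⟨(), Finset.mem_univ _, h x hx⟩)
  simpa using h1

lemma p7b_false (S : (ZMod N → Bool) → Prop) (h : ∀ x, ¬ S x) : pb S = 0 := by
  unfold pb ea
  simp [h]

omit [NeZero N] in
lemma p7b_ts (h : ZMod N → Bool) (a : ℤ) (n : ℕ) :
    ((ts (fun i : Fin n => h ((a + (i : ℕ) : ℤ) : ZMod N)) : ℤ) : ℝ)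
      = (sm (gs h) (a + n) : ℝ) - sm (gs h) a := by
  rw [← sum_Ico_real (gs h) (show a ≤ a + n by omega)]
  unfold ts gs
  push_cast
  rw [Fin.sum_univ_eq_sum_range (fun i : ℕ => ((sg (h ((a : ZMod N) + (i : ZMod N))) : ℤ) : ℝ)) n]
  refine Finset.sum_bij (fun i _ => a + (i : ℤ)) ?_ ?_ ?_ ?_
  · intro i hi
    rw [Finset.mem_range] at hi
    rw [Finset.mem_Ico]; omega
  · intro i _ j _ hij
    simpa using hij
  · intro b hb
    rw [Finset.mem_Ico] at hb
    exact ⟨(b - a).toNat, by rw [Finset.mem_range]; omega, by omega⟩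
  · intro i _
    push_cast
    rfl

end

theorem thm_P7b (h0 : St_P0) (h2 : St_P2) (h5 : St_P5) (h6 : St_P6) (h7 : St_P7a) : St_P7b := by
  intro N M p _ A hM hMN hA hp hpA
  have hA0 : (0 : ℝ) < A := by linarith
  have hA1 : (1 : ℝ) ≤ A := by linarith
  -- the three events
  set E1 : ℕ × ℕ → (ZMod N → Bool) → Prop := fun x h =>
    A * Real.sqrt x.2 < |(sm (gs h) (x.1 + x.2) : ℝ) - sm (gs h) x.1| with hE1
  set E2 : ℕ × ℕ → (ZMod N → Bool) → Prop := fun x h =>
    A ^ 4 ≤ x.2 ∧ ∀ s t : ℤ, (x.1 : ℤ) ≤ s → s ≤ x.1 + x.2 → (x.1 : ℤ) ≤ t → t ≤ x.1 + x.2 →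
      (sm (gs h) s : ℝ) - sm (gs h) t < Real.sqrt x.2 / A with hE2
  set E3 : ℕ × ℕ × ℕ → (ZMod N → Bool) → Prop := fun x h =>
    x.2.2 * x.2.1 ≤ M ∧ ∃ y : ℝ, A ^ 3 * Real.sqrt x.2.2 <
    (((Finset.range x.2.2).filter
      (fun i : ℕ => |(sm (gs h) (x.1 + i * x.2.1) : ℝ) - y| ≤ 2 * A * Real.sqrt x.2.1)).card : ℝ)
    with hE3
  set I1 : Finset (ℕ × ℕ) := Finset.range N ×ˢ Finset.Icc 1 M with hI1
  set I3 : Finset (ℕ × ℕ × ℕ) := Finset.range N ×ˢ Finset.Icc 1 M ×ˢ Finset.Icc 1 M with hI3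
  have hcard1 : (I1.card : ℝ) = N * M := by
    rw [hI1, Finset.card_product, Finset.card_range, Nat.card_Icc]
    push_cast; simp
  have hcard3 : (I3.card : ℝ) = N * M * M := by
    rw [hI3, Finset.card_product, Finset.card_product, Finset.card_range, Nat.card_Icc,
      Nat.add_sub_cancel]
    push_cast; ring
  have hb1 : ∀ x ∈ I1, pb (E1 x) ≤ 2 * Real.exp (-(A ^ 2) / 2) := by
    rintro ⟨a, n⟩ hx
    rw [hI1, Finset.mem_product, Finset.mem_range, Finset.mem_Icc] at hx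
    simp only at hx
    obtain ⟨ha, hn1, hnM⟩ := hx
    have hn0 : (0 : ℝ) < n := by exact_mod_cast hn1
    have e1 : pb (E1 (a, n)) = fa (fun c : Fin n → Bool =>
        if A * Real.sqrt n < |(ts c : ℝ)| then (1 : ℝ) else 0) := by
      rw [← h0 N a n _ (hnM.trans hMN)]
      unfold pb
      congr 1
      funext h
      rw [p7b_ts]
    rw [e1]
    refine (h2 n (A * Real.sqrt n) hn1 (by positivity)).trans (le_of_eq ?_)
    congr 2
    rw [mul_pow, Real.sq_sqrt hn0.le]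
    field_simp
  have hb2 : ∀ x ∈ I1, pb (E2 x) ≤ (13 / 16) ^ ⌊A ^ 2 / 5⌋₊ := by
    rintro ⟨a, n⟩ hx
    rw [hI1, Finset.mem_product, Finset.mem_range, Finset.mem_Icc] at hx
    simp only at hx
    obtain ⟨ha, hn1, hnM⟩ := hx
    have hn0 : (0 : ℝ) < n := by exact_mod_cast hn1
    by_cases hAn : A ^ 4 ≤ n
    · refine (p7b_mono _ _ (fun h hh => hh.2)).trans ?_
      set m : ℕ := ⌈4 * (n : ℝ) / A ^ 2⌉₊ with hm
      have hm1 : 4 * (n : ℝ) / A ^ 2 ≤ m := Nat.le_ceil _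
      have hm2 : (m : ℝ) < 4 * (n : ℝ) / A ^ 2 + 1 := Nat.ceil_lt_add_one (by positivity)
      have hm0 : 1 ≤ m := by
        rw [Nat.one_le_iff_ne_zero]
        intro h
        rw [h] at hm1
        have : 0 < 4 * (n : ℝ) / A ^ 2 := by positivity
        push_cast at hm1
        linarith
      have hk : ((⌊A ^ 2 / 5⌋₊ : ℕ) : ℝ) ≤ A ^ 2 / 5 := Nat.floor_le (by positivity)
      have hA24 : A ^ 2 ≤ n := by
        refine le_trans ?_ hAn
        exact pow_le_pow_right₀ hA1 (by norm_num)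
      have hkm : ⌊A ^ 2 / 5⌋₊ * m ≤ n := by
        have : ((⌊A ^ 2 / 5⌋₊ * m : ℕ) : ℝ) ≤ n := by
          push_cast
          calc ((⌊A ^ 2 / 5⌋₊ : ℕ) : ℝ) * m ≤ (A ^ 2 / 5) * (4 * (n : ℝ) / A ^ 2 + 1) := by
                apply mul_le_mul hk hm2.le (by positivity) (by positivity)
            _ = 4 * n / 5 + A ^ 2 / 5 := by field_simp
            _ ≤ n := by linarith
        exact_mod_cast this
      refine h5 N a n ⌊A ^ 2 / 5⌋₊ m (Real.sqrt n / A) hm0 hkm (hnM.trans hMN) ?_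
      rw [div_le_div_iff₀ hA0 (by norm_num)]
      have h3 : 4 * (n : ℝ) ≤ A ^ 2 * m := by
        rw [div_le_iff₀ (by positivity)] at hm1
        linarith
      have h4 : Real.sqrt n * 2 = Real.sqrt (4 * n) := by
        rw [Real.sqrt_mul (by norm_num), show (4 : ℝ) = 2 ^ 2 by norm_num,
          Real.sqrt_sq (by norm_num)]
        ring
      have h5 : Real.sqrt m * A = Real.sqrt (A ^ 2 * m) := by
        rw [Real.sqrt_mul (by positivity), Real.sqrt_sq hA0.le]
        ring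
      rw [h4, h5]
      exact Real.sqrt_le_sqrt h3
    · rw [p7b_false _ (fun h hh => hAn hh.1)]
      positivity
  have hb3 : ∀ x ∈ I3, pb (E3 x) ≤ M * (72 * p / A ^ 2) ^ p := by
    rintro ⟨a, q, n⟩ hx
    rw [hI3, Finset.mem_product, Finset.mem_product, Finset.mem_range, Finset.mem_Icc,
      Finset.mem_Icc] at hx
    simp only at hx
    obtain ⟨ha, ⟨hq1, hqM⟩, hn1, hnM⟩ := hx
    by_cases hnq : n * q ≤ M
    · refine (p7b_mono _ _ (fun h hh => hh.2)).trans ?_
      refine (h6 N q n p a A hq1 hn1 (hnq.trans hMN) hA hp hpA).trans ?_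
      have : (n : ℝ) ≤ M := by exact_mod_cast hnM
      exact mul_le_mul_of_nonneg_right this (by positivity)
    · rw [p7b_false _ (fun h hh => hnq hh.1)]
      positivity
  have hmain : ∀ h : ZMod N → Bool, (¬ ∀ lo : ℤ, Good A (gs h) lo (lo + M)) →
      (∃ x ∈ I1, E1 x h) ∨ (∃ x ∈ I1, E2 x h) ∨ (∃ x ∈ I3, E3 x h) := by
    intro h hh
    by_contra hcon
    push Not at hcon
    obtain ⟨c1, c2, c3⟩ := hcon
    refine hh (h7 N M A h hA1 ?_ ?_ ?_)
    · intro a n ha hn hnM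
      have := c1 (a, n) (by
        rw [hI1, Finset.mem_product, Finset.mem_range, Finset.mem_Icc]; exact ⟨ha, hn, hnM⟩)
      simpa only [hE1, not_lt] using this
    · intro a n ha hnM hAn
      have hn1 : 1 ≤ n := by
        rw [Nat.one_le_iff_ne_zero]
        intro h0
        rw [h0] at hAn
        have : 0 < A ^ 4 := by positivity
        push_cast at hAn
        linarith
      have := c2 (a, n) (by
        rw [hI1, Finset.mem_product, Finset.mem_range, Finset.mem_Icc]; exact ⟨ha, hn1, hnM⟩)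
      simp only [hE2, not_and, not_forall, not_lt] at this
      obtain ⟨s, t, hs1, hs2, ht1, ht2, hst⟩ := this hAn
      exact ⟨s, t, ⟨hs1, hs2⟩, ⟨ht1, ht2⟩, hst⟩
    · intro a q n ha hq hn hnq x
      have hqM : q ≤ M := le_trans (Nat.le_mul_of_pos_left q (by omega)) hnq
      have hnM : n ≤ M := le_trans (Nat.le_mul_of_pos_right n (by omega)) hnq
      have := c3 (a, q, n) (by
        rw [hI3, Finset.mem_product, Finset.mem_product, Finset.mem_range, Finset.mem_Icc,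
          Finset.mem_Icc]
        exact ⟨ha, ⟨hq, hqM⟩, hn, hnM⟩)
      simp only [hE3, not_and, not_exists, not_lt] at this
      exact this hnq x
  refine (p7b_or _ (fun h => ∃ x ∈ I1, E1 x h) (fun h => (∃ x ∈ I1, E2 x h) ∨
    (∃ x ∈ I3, E3 x h)) hmain).trans ?_
  have g1 : pb (fun h => ∃ x ∈ I1, E1 x h) ≤ N * M * (2 * Real.exp (-(A ^ 2) / 2)) := by
    refine (p7b_union I1 _ E1 (fun h hh => hh)).trans ?_
    refine (Finset.sum_le_sum hb1).trans (le_of_eq ?_)
    rw [Finset.sum_const, nsmul_eq_mul, hcard1]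
  have g2 : pb (fun h => ∃ x ∈ I1, E2 x h) ≤ N * M * (13 / 16) ^ ⌊A ^ 2 / 5⌋₊ := by
    refine (p7b_union I1 _ E2 (fun h hh => hh)).trans ?_
    refine (Finset.sum_le_sum hb2).trans (le_of_eq ?_)
    rw [Finset.sum_const, nsmul_eq_mul, hcard1]
  have g3 : pb (fun h => ∃ x ∈ I3, E3 x h) ≤ N * M * M * (M * (72 * p / A ^ 2) ^ p) := by
    refine (p7b_union I3 _ E3 (fun h hh => hh)).trans ?_
    refine (Finset.sum_le_sum hb3).trans (le_of_eq ?_)
    rw [Finset.sum_const, nsmul_eq_mul, hcard3]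
  have g4 := p7b_or (fun h => (∃ x ∈ I1, E2 x h) ∨ (∃ x ∈ I3, E3 x h))
    (fun h => ∃ x ∈ I1, E2 x h) (fun h => ∃ x ∈ I3, E3 x h) (fun h hh => hh)
  linarith

end MHL
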