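import Pool.Agent.MHL.StP

/-!
# MHL: P7c, choice of parameters
-/

set_option autoImplicit false

open Filter Topology

namespace MHL

lemma p7c_sq (ε : ℝ) (T : ℕ) : ((T : ℝ) ^ ε) ^ 2 = (T : ℝ) ^ (2 * ε) := by
  rw [← Real.rpow_natCast, ← Real.rpow_mul (Nat.cast_nonneg T)]
  congr 1
  push_cast
  ring

lemma p7c_exp (ε : ℝ) (hε : 0 < ε) (c : ℝ) (hc : 0 < c) :
    Tendsto (fun T : ℕ => (T : ℝ) ^ 4 * Real.exp (-c * ((T : ℝ) ^ ε) ^ 2)) atTop (𝓝 0) := by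
  have h1 := tendsto_rpow_mul_exp_neg_mul_atTop_nhds_zero (2 / ε) c hc
  have h2 : Tendsto (fun T : ℕ => (T : ℝ) ^ (2 * ε)) atTop atTop :=
    (tendsto_rpow_atTop (by positivity)).comp tendsto_natCast_atTop_atTop
  refine (h1.comp h2).congr' ?_
  filter_upwards with T
  simp only [Function.comp]
  rw [p7c_sq, ← Real.rpow_mul (Nat.cast_nonneg T)]
  congr 1
  have : 2 * ε * (2 / ε) = ((4 : ℕ) : ℝ) := by
    push_cast
    field_simp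
    norm_num
  rw [this, Real.rpow_natCast]

lemma p7c_floor (y : ℝ) : ((13 : ℝ) / 16) ^ ⌊y⌋₊ ≤ 16 / 13 * Real.exp (Real.log (13 / 16) * y) := by
  have h1 : Real.exp (Real.log (13 / 16) * y) = ((13 : ℝ) / 16) ^ y := by
    rw [Real.rpow_def_of_pos (by norm_num)]
  have h2 : ((13 : ℝ) / 16) ^ ((⌊y⌋₊ : ℝ) + 1) ≤ ((13 : ℝ) / 16) ^ y :=
    Real.rpow_le_rpow_of_exponent_ge (by norm_num) (by norm_num) (Nat.lt_floor_add_one y).le
  rw [h1]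
  rw [Real.rpow_add (by norm_num), Real.rpow_one, Real.rpow_natCast] at h2
  have h3 : 0 < ((13 : ℝ) / 16) ^ ⌊y⌋₊ := by positivity
  linarith

theorem thm_P7c : St_P7c := by
  intro ε hε
  obtain ⟨p, hp⟩ : ∃ p : ℕ, p = ⌈4 / ε⌉₊ + 1 := ⟨_, rfl⟩
  have hp1 : 1 ≤ p := by omega
  have hpε : 8 ≤ 2 * ε * p := by
    have h1 : 4 / ε ≤ p := by
      rw [hp]; push_cast
      linarith [Nat.le_ceil (4 / ε)]
    rw [div_le_iff₀ hε] at h1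
    linarith
  have hlog : Real.log (13 / 16) < 0 := Real.log_neg (by norm_num) (by norm_num)
  have e1 : ∀ᶠ T : ℕ in atTop, (T : ℝ) ^ 4 * Real.exp (-(1 / 2) * ((T : ℝ) ^ ε) ^ 2) < 1 / 12288 :=
    (p7c_exp ε hε (1 / 2) (by norm_num)).eventually_lt_const (by norm_num)
  have e2 : ∀ᶠ T : ℕ in atTop, (T : ℝ) ^ 4 *
      Real.exp (-(-(Real.log (13 / 16)) / 5) * ((T : ℝ) ^ ε) ^ 2) < 1 / 10000 :=
    (p7c_exp ε hε (-(Real.log (13 / 16)) / 5) (by linarith)).eventually_lt_const (by norm_num)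
  have e3 : ∀ᶠ T : ℕ in atTop, (2 : ℝ) ≤ (T : ℝ) ^ ε :=
    ((tendsto_rpow_atTop hε).comp tendsto_natCast_atTop_atTop).eventually_ge_atTop 2
  have e4 : ∀ᶠ T : ℕ in atTop, (4 * p : ℝ) ≤ (T : ℝ) ^ ε :=
    ((tendsto_rpow_atTop hε).comp tendsto_natCast_atTop_atTop).eventually_ge_atTop (4 * p : ℝ)
  have e5 : ∀ᶠ T : ℕ in atTop, (3 * (128 * 4096 * (72 * p) ^ p) : ℝ) ≤ T :=
    tendsto_natCast_atTop_atTop.eventually_ge_atTop _
  have e6 : ∀ᶠ T : ℕ in atTop, 1 ≤ T := eventually_ge_atTop 1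
  obtain ⟨T0, hT0⟩ := eventually_atTop.1 (e1.and (e2.and (e3.and (e4.and (e5.and e6)))))
  refine ⟨p, T0, hp1, fun T hT => ?_⟩
  obtain ⟨h1, h2, h3, h4, h5, h6⟩ := hT0 T hT
  have hT1 : (1 : ℝ) ≤ T := by exact_mod_cast h6
  have hTpos : (0 : ℝ) < T := by linarith
  refine ⟨h6, h3, ?_, ?_⟩
  · have h7 : (1 : ℝ) ≤ ((T : ℝ) ^ ε) ^ 2 := one_le_pow₀ (by linarith)
    have h8 : (T : ℝ) ^ ε ≤ ((T : ℝ) ^ ε) ^ 3 := by
      calc (T : ℝ) ^ ε = (T : ℝ) ^ ε * 1 := by ring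
        _ ≤ (T : ℝ) ^ ε * ((T : ℝ) ^ ε) ^ 2 := by gcongr
        _ = ((T : ℝ) ^ ε) ^ 3 := by ring
    linarith
  · have hX : 0 < ((T : ℝ) ^ ε) ^ 2 := by positivity
    have t1 : (128 * T : ℝ) * (16 * T) * (2 * Real.exp (-(((T : ℝ) ^ ε) ^ 2) / 2)) ≤
        1 / 3 * (1 / (T : ℝ) ^ 2) := by
      rw [mul_one_div, le_div_iff₀ (by positivity)]
      have : -(((T : ℝ) ^ ε) ^ 2) / 2 = -(1 / 2) * ((T : ℝ) ^ ε) ^ 2 := by ring
      rw [this]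
      calc (128 * T : ℝ) * (16 * T) * (2 * Real.exp (-(1 / 2) * ((T : ℝ) ^ ε) ^ 2)) * (T : ℝ) ^ 2
          = 4096 * ((T : ℝ) ^ 4 * Real.exp (-(1 / 2) * ((T : ℝ) ^ ε) ^ 2)) := by ring
        _ ≤ 1 / 3 := by linarith
    have t2 : (128 * T : ℝ) * (16 * T) * (13 / 16) ^ ⌊((T : ℝ) ^ ε) ^ 2 / 5⌋₊ ≤
        1 / 3 * (1 / (T : ℝ) ^ 2) := by
      rw [mul_one_div, le_div_iff₀ (by positivity)]
      have hf := p7c_floor (((T : ℝ) ^ ε) ^ 2 / 5)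
      have : Real.log (13 / 16) * (((T : ℝ) ^ ε) ^ 2 / 5) =
          -(-(Real.log (13 / 16)) / 5) * ((T : ℝ) ^ ε) ^ 2 := by ring
      rw [this] at hf
      calc (128 * T : ℝ) * (16 * T) * (13 / 16) ^ ⌊((T : ℝ) ^ ε) ^ 2 / 5⌋₊ * (T : ℝ) ^ 2
          ≤ (128 * T : ℝ) * (16 * T) * (16 / 13 *
            Real.exp (-(-(Real.log (13 / 16)) / 5) * ((T : ℝ) ^ ε) ^ 2)) * (T : ℝ) ^ 2 := by
            gcongr
        _ = 2048 * (16 / 13) * ((T : ℝ) ^ 4 *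
            Real.exp (-(-(Real.log (13 / 16)) / 5) * ((T : ℝ) ^ ε) ^ 2)) := by ring
        _ ≤ 1 / 3 := by linarith
    have t3 : (128 * T : ℝ) * (16 * T) * (16 * T) * ((16 * T) * (72 * p / ((T : ℝ) ^ ε) ^ 2) ^ p) ≤
        1 / 3 * (1 / (T : ℝ) ^ 2) := by
      rw [mul_one_div, le_div_iff₀ (by positivity)]
      have h8 : (T : ℝ) ^ 8 ≤ (((T : ℝ) ^ ε) ^ 2) ^ p := by
        rw [p7c_sq, ← Real.rpow_natCast, ← Real.rpow_natCast, ← Real.rpow_mul hTpos.le]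
        apply Real.rpow_le_rpow_of_exponent_le hT1
        push_cast
        exact hpε
      have h9 : (T : ℝ) ^ 6 / (((T : ℝ) ^ ε) ^ 2) ^ p ≤ 1 / T := by
        rw [div_le_div_iff₀ (by positivity) hTpos]
        calc (T : ℝ) ^ 6 * T = (T : ℝ) ^ 7 * 1 := by ring
          _ ≤ (T : ℝ) ^ 7 * T := by gcongr
          _ = (T : ℝ) ^ 8 := by ring
          _ ≤ 1 * (((T : ℝ) ^ ε) ^ 2) ^ p := by linarith
      calc (128 * T : ℝ) * (16 * T) * (16 * T) *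
            ((16 * T) * (72 * p / ((T : ℝ) ^ ε) ^ 2) ^ p) * (T : ℝ) ^ 2
          = 128 * 4096 * (72 * (p : ℝ)) ^ p * ((T : ℝ) ^ 6 / (((T : ℝ) ^ ε) ^ 2) ^ p) := by
            rw [div_pow]
            field_simp
            norm_num
        _ ≤ 128 * 4096 * (72 * (p : ℝ)) ^ p * (1 / T) := by gcongr
        _ ≤ 1 / 3 := by
            rw [mul_one_div, div_le_iff₀ hTpos]
            linarith
    linarith

end MHL
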