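import Pool.Agent.MHL.StX

/-!
# MHL X1: existence and uniqueness for the resolvent equation on the torus
-/

set_option autoImplicit false

namespace MHL

/-- the linear map `χ ↦ χ - q P χ` -/
noncomputable def x1_L {N : ℕ} (h v : ZMod N → Bool) (q : ℝ) :
    (Tr N → ℝ) →ₗ[ℝ] (Tr N → ℝ) where
  toFun χ z := χ z - q * tP h v χ z
  map_add' f g := by
    funext z
    simp only [tP, Pi.add_apply]
    ring
  map_smul' c f := by
    funext z
    simp only [tP, Pi.smul_apply, smul_eq_mul, RingHom.id_apply]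
    ring

lemma x1_zero {N : ℕ} [NeZero N] (h v : ZMod N → Bool) (q : ℝ) (h0 : 0 ≤ q) (h1 : q < 1)
    (χ : Tr N → ℝ) (hχ : ∀ z, χ z = q * tP h v χ z) : χ = 0 := by
  haveI : Nonempty (Tr N) := ⟨0⟩
  obtain ⟨z0, hz0⟩ := Finite.exists_max (fun z => |χ z|)
  have e1 : |tP h v χ z0| ≤ |χ z0| := by
    unfold tP
    rw [abs_div, abs_of_pos (show (0 : ℝ) < 2 by norm_num)]
    have := abs_add_le (χ (t1 h z0)) (χ (t2 v z0))
    have a1 := hz0 (t1 h z0)
    have a2 := hz0 (t2 v z0)
    rw [div_le_iff₀ (by norm_num)]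
    linarith
  have e2 : |χ z0| ≤ q * |χ z0| := by
    have e4 : |χ z0| = q * |tP h v χ z0| := by
      conv_lhs => rw [hχ z0, abs_mul, abs_of_nonneg h0]
    rw [e4]
    have := mul_le_mul_of_nonneg_left e1 h0
    rw [e4] at this
    exact this
  have e3 : |χ z0| ≤ 0 := by
    have := abs_nonneg (χ z0)
    nlinarith
  funext z
  have h2 := (hz0 z).trans e3
  exact abs_nonpos_iff.mp h2

lemma x1_inj {N : ℕ} [NeZero N] (h v : ZMod N → Bool) (q : ℝ) (h0 : 0 ≤ q) (h1 : q < 1) :
    Function.Injective (x1_L h v q) := by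
  rw [injective_iff_map_eq_zero]
  intro χ hχ
  refine x1_zero h v q h0 h1 χ fun z => ?_
  have h2 : χ z - q * tP h v χ z = 0 := congrFun hχ z
  linarith

theorem thm_X1 : St_X1 := by
  intro N _ h v q h0 h1
  have hi := x1_inj h v q h0 h1
  have hs : Function.Surjective (x1_L h v q) := LinearMap.injective_iff_surjective.mp hi
  refine ⟨fun f => ?_, fun f χ χ' h2 h3 => ?_⟩
  · obtain ⟨χ, hχ⟩ := hs f
    exact ⟨χ, fun z => congrFun hχ z⟩
  · apply hi
    funext z
    exact (h2 z).trans (h3 z).symm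

end MHL
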