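import Pool.Agent.MHL.StX

/-!
# MHL, X10: the main inequality for `D` (telescoping over the scales)
-/

set_option autoImplicit false

namespace MHL

lemma x10_key (A X : ℝ) (k : ℕ) :
    (A * 2 ^ k * Real.sqrt (2 ^ k) / 2) * X / 4 ^ k = A / (2 * Real.sqrt (2 ^ k)) * X := by
  have hs : Real.sqrt ((2 : ℝ) ^ k) * Real.sqrt ((2 : ℝ) ^ k) = 2 ^ k :=
    Real.mul_self_sqrt (by positivity)
  have hs0 : 0 < Real.sqrt ((2 : ℝ) ^ k) := Real.sqrt_pos.mpr (by positivity)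
  have h4 : (4 : ℝ) ^ k = (Real.sqrt ((2 : ℝ) ^ k) * Real.sqrt ((2 : ℝ) ^ k)) * 2 ^ k := by
    rw [hs, ← mul_pow]; norm_num
  have h2 : (0 : ℝ) < 2 ^ k := by positivity
  rw [h4]
  field_simp

theorem thm_X10 (h3 : St_X3) (h7 : St_X7) (h8 : St_X8) (h9 : St_X9) : St_X10 := by
  intro N t m _ h v A Λ Q χ ht hR hA hΛ hQ hsm hMT hm hu hu'
  obtain ⟨hD0, hDt, hχ, -, -⟩ := h3 N t h v χ ht hR
  have hK : ∀ k ≤ m, ∀ z : Tr N, |csq k (ff h) z| ≤ A * 2 ^ k * Real.sqrt (2 ^ k) / 2 := by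
    intro k hk z
    exact h8 N h A k (fun a => hsm a k hk) z
  have hK0 : ∀ k : ℕ, 0 ≤ A * 2 ^ k * Real.sqrt (2 ^ k) / 2 := by
    intro k
    positivity
  have hstep : ∀ k < m, |Ek (ff h) χ k - Ek (ff h) χ (k + 1)| ≤ A / (2 * Real.sqrt (2 ^ k)) *
      Real.sqrt (Bk Λ (((2 : ℝ) ^ (k + 3)) ^ (3 / 2 : ℝ) * Q) (DD h χ) t k) := by
    intro k hk
    have h4 : (2 : ℝ) ^ (k + 3) ≤ t := by
      have h5 : (2 : ℝ) ^ (k + 1) ≤ 2 ^ m := pow_le_pow_right₀ (by norm_num) (by omega)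
      have h6 : (2 : ℝ) ^ (k + 3) = 4 * 2 ^ (k + 1) := by ring
      rw [h6]
      linarith
    have h40 : (2 : ℝ) ^ (k + 1) ≤ t :=
      le_trans (pow_le_pow_right₀ (by norm_num) (by omega)) h4
    have hbx : 4 * 2 ^ (k + 1) = 2 ^ (k + 3) := by ring
    have h2 := (h9 N (ff h) χ k _
      (Bk Λ (((2 : ℝ) ^ (k + 3)) ^ (3 / 2 : ℝ) * Q) (DD h χ) t k) (hK0 k) (hK k hk.le)).2.1
      (by
        intro a b ha hb
        refine h7 N t h v Λ t _ k a b χ ht hR hMT h40 hΛ (by positivity) ?_ ?_ ha hb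
        · intro c u hG z
          rw [hbx] at hG
          exact hu (k + 3) c u h4 hG z
        · intro c u hG z
          rw [hbx] at hG
          exact hu' (k + 3) c u h4 hG z)
    rw [x10_key] at h2
    exact h2
  have hlast : |Ek (ff h) χ m| ≤ A / (2 * Real.sqrt (2 ^ m)) * Real.sqrt (t * DD h χ) := by
    have h2 := (h9 N (ff h) χ m _ 0 (hK0 m) (hK m le_rfl)).2.2
    rw [x10_key] at h2
    refine le_trans h2 ?_
    have h5 : Real.sqrt (ta (fun z => χ z ^ 2)) ≤ Real.sqrt (t * DD h χ) := Real.sqrt_le_sqrt hχ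
    have h6 : 0 ≤ A / (2 * Real.sqrt (2 ^ m)) := by positivity
    exact mul_le_mul_of_nonneg_left h5 h6
  have h0 : Ek (ff h) χ 0 = DD h χ := (h9 N (ff h) χ 0 _ 0 (hK0 0) (hK 0 (Nat.zero_le m))).1
  have htel : ∑ k ∈ Finset.range m, (Ek (ff h) χ k - Ek (ff h) χ (k + 1)) =
      Ek (ff h) χ 0 - Ek (ff h) χ m := Finset.sum_range_sub' (fun k => Ek (ff h) χ k) m
  have hsum : ∑ k ∈ Finset.range m, (Ek (ff h) χ k - Ek (ff h) χ (k + 1)) ≤
      ∑ k ∈ Finset.range m, A / (2 * Real.sqrt (2 ^ k)) *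
        Real.sqrt (Bk Λ (((2 : ℝ) ^ (k + 3)) ^ (3 / 2 : ℝ) * Q) (DD h χ) t k) := by
    refine Finset.sum_le_sum ?_
    intro k hk
    exact le_trans (le_abs_self _) (hstep k (Finset.mem_range.mp hk))
  have h8' := le_abs_self (Ek (ff h) χ m)
  linarith

end MHL
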