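import Pool.Agent.MHL.StX

/-!
# MHL / X11: solution of the main inequality for `D`
-/

set_option autoImplicit false

namespace MHL

lemma x11_alg {L s τ D y r : ℝ} (hL : 1 ≤ L) (hs : 1 ≤ s) (hτ : 1 ≤ τ) (hsτ : s ≤ τ ^ 2)
    (hD : 0 ≤ D) (hy : 0 ≤ y) (hyD : y ^ 2 = D + 1) (hr : 1 ≤ r) (hr2 : r ^ 2 = 2) :
    2 * (2 * (L / (r * s)) * (2 * ((8 * (2 * s ^ 2) + 1) ^ 2 * (8 * D + 1)) +
      4 * (16 * r * s ^ 3 * L ^ 4) * ((8 * (2 * s ^ 2) + 1) ^ 2 * (D / τ ^ 6)))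
    + 8 / s ^ 4 * (16 * r * s ^ 3 * L ^ 4) ^ 2 * ((8 * (2 * s ^ 2) + 1) ^ 2 * (D / τ ^ 6)))
      + s ^ 4 / 2 ≤ (s * (1600 * L ^ 4 * τ * y + τ ^ 2)) ^ 2 := by
  have hs0 : 0 < s := by linarith
  have hτ0 : 0 < τ := by linarith
  have hL0 : 0 < L := by linarith
  have hr0 : 0 < r := by linarith
  have hs2 : 1 ≤ s ^ 2 := one_le_pow₀ hs
  obtain ⟨P, hP⟩ : ∃ P, P = (8 * (2 * s ^ 2) + 1) ^ 2 := ⟨_, rfl⟩
  have hP0 : 0 ≤ P := by rw [hP]; positivity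
  have hP1 : P ≤ 289 * s ^ 4 := by
    rw [hP]
    nlinarith
  obtain ⟨d, hd⟩ : ∃ d, d = D / τ ^ 6 := ⟨_, rfl⟩
  have hd0 : 0 ≤ d := by rw [hd]; positivity
  rw [← hP, ← hd]
  have hy2 : D ≤ y ^ 2 := by linarith
  have hs4 : s ^ 4 ≤ τ ^ 8 := by
    calc s ^ 4 ≤ (τ ^ 2) ^ 4 := pow_le_pow_left₀ hs0.le hsτ 4
      _ = τ ^ 8 := by ring
  -- the product P d
  have hPd : P * d ≤ 289 * (τ ^ 2 * y ^ 2) := by
    calc P * d ≤ (289 * s ^ 4) * d := mul_le_mul_of_nonneg_right hP1 hd0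
      _ ≤ (289 * τ ^ 8) * d := by gcongr
      _ = 289 * (τ ^ 2 * D) := by rw [hd]; field_simp
      _ ≤ 289 * (τ ^ 2 * y ^ 2) := by gcongr
  have hPd0 : 0 ≤ P * d := mul_nonneg hP0 hd0
  have hL8 : L ≤ L ^ 8 := by
    calc L = L ^ 1 := (pow_one L).symm
      _ ≤ L ^ 8 := pow_le_pow_right₀ hL (by norm_num)
  have hL5 : L ^ 5 ≤ L ^ 8 := pow_le_pow_right₀ hL (by norm_num)
  -- the four terms
  have e1 : 2 * (2 * (L / (r * s)) * (2 * (P * (8 * D + 1)) + 4 * (16 * r * s ^ 3 * L ^ 4) * (P * d))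
      + 8 / s ^ 4 * (16 * r * s ^ 3 * L ^ 4) ^ 2 * (P * d)) + s ^ 4 / 2 =
      8 * (L / (r * s)) * (P * (8 * D + 1)) + 256 * L ^ 5 * s ^ 2 * (P * d) +
        4096 * r ^ 2 * s ^ 2 * L ^ 8 * (P * d) + s ^ 4 / 2 := by
    field_simp
    ring
  rw [e1, hr2]
  have h1 : 8 * (L / (r * s)) * (P * (8 * D + 1)) ≤ 18496 * (L ^ 8 * (s ^ 2 * (τ ^ 2 * y ^ 2))) := by
    have a1 : L / (r * s) ≤ L / s := by
      apply div_le_div_of_nonneg_left hL0.le hs0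
      nlinarith
    have a2 : P * (8 * D + 1) ≤ (289 * s ^ 4) * (8 * y ^ 2) := by
      apply mul_le_mul hP1 _ (by linarith) (by positivity)
      linarith
    calc 8 * (L / (r * s)) * (P * (8 * D + 1))
        ≤ 8 * (L / s) * ((289 * s ^ 4) * (8 * y ^ 2)) := by
          apply mul_le_mul _ a2 (mul_nonneg hP0 (by linarith)) (by positivity)
          linarith
      _ = 18496 * (L * (s ^ 2 * (s * y ^ 2))) := by
          field_simp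
          ring
      _ ≤ 18496 * (L ^ 8 * (s ^ 2 * (τ ^ 2 * y ^ 2))) := by gcongr
  have h2 : 256 * L ^ 5 * s ^ 2 * (P * d) ≤ 73984 * (L ^ 8 * (s ^ 2 * (τ ^ 2 * y ^ 2))) := by
    calc 256 * L ^ 5 * s ^ 2 * (P * d) ≤ 256 * L ^ 8 * s ^ 2 * (289 * (τ ^ 2 * y ^ 2)) := by
          gcongr
      _ = 73984 * (L ^ 8 * (s ^ 2 * (τ ^ 2 * y ^ 2))) := by ring
  have h3 : 4096 * 2 * s ^ 2 * L ^ 8 * (P * d) ≤ 2367488 * (L ^ 8 * (s ^ 2 * (τ ^ 2 * y ^ 2))) := by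
    calc 4096 * 2 * s ^ 2 * L ^ 8 * (P * d) ≤ 4096 * 2 * s ^ 2 * L ^ 8 * (289 * (τ ^ 2 * y ^ 2)) := by
          gcongr
      _ = 2367488 * (L ^ 8 * (s ^ 2 * (τ ^ 2 * y ^ 2))) := by ring
  have h4 : s ^ 4 / 2 ≤ s ^ 2 * τ ^ 4 := by
    have : s ^ 2 ≤ τ ^ 4 := by
      calc s ^ 2 ≤ (τ ^ 2) ^ 2 := pow_le_pow_left₀ hs0.le hsτ 2
        _ = τ ^ 4 := by ring
    nlinarith
  have h5 : (s * (1600 * L ^ 4 * τ * y + τ ^ 2)) ^ 2 =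
      2560000 * (L ^ 8 * (s ^ 2 * (τ ^ 2 * y ^ 2))) + 3200 * (L ^ 4 * s ^ 2 * τ ^ 3 * y) +
        s ^ 2 * τ ^ 4 := by ring
  have h6 : 0 ≤ L ^ 8 * (s ^ 2 * (τ ^ 2 * y ^ 2)) := by positivity
  have h7 : 0 ≤ L ^ 4 * s ^ 2 * τ ^ 3 * y := by positivity
  rw [h5]
  linarith

/-- the mean square of the increments of scale `k` in the variables `τ = t^(1/6)`, `s = 2^(k/2)` -/
lemma x11_Bk {L τ D y : ℝ} {k : ℕ} (hL : 1 ≤ L) (hτ : 1 ≤ τ)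
    (hk : (2 : ℝ) ^ k ≤ τ ^ 4) (hD : 0 ≤ D) (hy : 0 ≤ y) (hyD : y ^ 2 = D + 1) :
    Bk L (((2 : ℝ) ^ (k + 3)) ^ (3 / 2 : ℝ) * L ^ 4) D (τ ^ 6) k ≤
      (Real.sqrt (2 ^ k) * (1600 * L ^ 4 * τ * y + τ ^ 2)) ^ 2 := by
  obtain ⟨s, hs⟩ : ∃ s, s = Real.sqrt (2 ^ k) := ⟨_, rfl⟩
  have h2k : (1 : ℝ) ≤ 2 ^ k := one_le_pow₀ (by norm_num)
  have hs2 : s ^ 2 = 2 ^ k := by
    rw [hs]
    exact Real.sq_sqrt (by positivity)
  have hs1 : 1 ≤ s := by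
    rw [hs]
    exact Real.one_le_sqrt.2 h2k
  have hs0 : 0 < s := by linarith
  have hr2 : (Real.sqrt 2) ^ 2 = 2 := Real.sq_sqrt (by norm_num)
  have hr1 : 1 ≤ Real.sqrt 2 := Real.one_le_sqrt.2 (by norm_num)
  have hsτ : s ≤ τ ^ 2 := by
    apply le_of_sq_le_sq _ (by positivity)
    rw [hs2]
    calc (2 : ℝ) ^ k ≤ τ ^ 4 := hk
      _ = (τ ^ 2) ^ 2 := by ring
  have e1 : (2 : ℝ) ^ (k + 1) = 2 * s ^ 2 := by rw [hs2]; ring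
  have e2 : Real.sqrt (2 * s ^ 2) = Real.sqrt 2 * s := by
    rw [Real.sqrt_mul (by norm_num), Real.sqrt_sq hs0.le]
  have e3 : (4 : ℝ) ^ k = s ^ 4 := by
    have : (4 : ℝ) = 2 ^ 2 := by norm_num
    rw [this, ← pow_mul, mul_comm, pow_mul, ← hs2]
    ring
  have e4 : ((2 : ℝ) ^ (k + 3)) ^ (3 / 2 : ℝ) = 16 * Real.sqrt 2 * s ^ 3 := by
    have h1 : (2 : ℝ) ^ (k + 3) = (2 * Real.sqrt 2 * s) ^ 2 := by
      rw [mul_pow, mul_pow, hr2, hs2]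
      ring
    rw [h1, ← Real.rpow_natCast, ← Real.rpow_mul (by positivity)]
    have h2 : ((2 : ℕ) : ℝ) * (3 / 2 : ℝ) = ((3 : ℕ) : ℝ) := by norm_num
    rw [h2, Real.rpow_natCast]
    have h3 : (2 * Real.sqrt 2 * s) ^ 3 = 8 * ((Real.sqrt 2) ^ 2 * Real.sqrt 2) * s ^ 3 := by ring
    rw [h3, hr2]
    ring
  rw [← hs]
  unfold Bk
  rw [e1, e2, e3, e4]
  exact x11_alg hL hs1 hτ hsτ hD hy hyD hr1 hr2

/-- the inequality in the variables `τ = t^(1/6)`, `L = t^ε` -/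
lemma x11_main {L τ D : ℝ} {m : ℕ} (hL : 1 ≤ L) (hτ : 1 ≤ τ) (hm : (2 : ℝ) ^ m ≤ τ ^ 4)
    (hm' : τ ^ 4 ≤ 2 ^ (m + 1)) (hD : 0 ≤ D) (hmL : 800 * (m : ℝ) + 2 ≤ L)
    (h : D ≤ ∑ k ∈ Finset.range m, L / (2 * Real.sqrt (2 ^ k)) *
      Real.sqrt (Bk L (((2 : ℝ) ^ (k + 3)) ^ (3 / 2 : ℝ) * L ^ 4) D (τ ^ 6) k)
      + L / (2 * Real.sqrt (2 ^ m)) * Real.sqrt (τ ^ 6 * D)) : D ≤ L ^ 12 * τ ^ 2 := by
  have hτ0 : 0 < τ := by linarith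
  have hL0 : 0 < L := by linarith
  obtain ⟨y, hy⟩ : ∃ y, y = Real.sqrt (D + 1) := ⟨_, rfl⟩
  have hy0 : 0 ≤ y := by rw [hy]; exact Real.sqrt_nonneg _
  have hyD : y ^ 2 = D + 1 := by rw [hy]; exact Real.sq_sqrt (by linarith)
  -- the sum
  have h1 : ∀ k ∈ Finset.range m, L / (2 * Real.sqrt (2 ^ k)) *
      Real.sqrt (Bk L (((2 : ℝ) ^ (k + 3)) ^ (3 / 2 : ℝ) * L ^ 4) D (τ ^ 6) k) ≤
      800 * L ^ 5 * τ * y + L * τ ^ 2 / 2 := by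
    intro k hk
    rw [Finset.mem_range] at hk
    have hk2 : (2 : ℝ) ^ k ≤ τ ^ 4 := (pow_le_pow_right₀ (by norm_num) hk.le).trans hm
    have hs0 : 0 < Real.sqrt (2 ^ k) := Real.sqrt_pos.2 (by positivity)
    have h2 : Real.sqrt (Bk L (((2 : ℝ) ^ (k + 3)) ^ (3 / 2 : ℝ) * L ^ 4) D (τ ^ 6) k) ≤
        Real.sqrt (2 ^ k) * (1600 * L ^ 4 * τ * y + τ ^ 2) :=
      Real.sqrt_le_iff.2 ⟨by positivity, x11_Bk hL hτ hk2 hD hy0 hyD⟩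
    calc L / (2 * Real.sqrt (2 ^ k)) *
        Real.sqrt (Bk L (((2 : ℝ) ^ (k + 3)) ^ (3 / 2 : ℝ) * L ^ 4) D (τ ^ 6) k)
        ≤ L / (2 * Real.sqrt (2 ^ k)) *
          (Real.sqrt (2 ^ k) * (1600 * L ^ 4 * τ * y + τ ^ 2)) := by gcongr
      _ = 800 * L ^ 5 * τ * y + L * τ ^ 2 / 2 := by
          field_simp
          ring
  have h2 := Finset.sum_le_sum h1
  rw [Finset.sum_const, Finset.card_range, nsmul_eq_mul] at h2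
  -- the last term
  have h3 : L / (2 * Real.sqrt (2 ^ m)) * Real.sqrt (τ ^ 6 * D) ≤ L * τ * y := by
    have hs0 : 0 < Real.sqrt (2 ^ m) := Real.sqrt_pos.2 (by positivity)
    have h4 : Real.sqrt (τ ^ 6 * D) ≤ τ ^ 3 * y := by
      apply Real.sqrt_le_iff.2 ⟨by positivity, ?_⟩
      calc τ ^ 6 * D ≤ τ ^ 6 * y ^ 2 := by
            have : D ≤ y ^ 2 := by linarith
            gcongr
        _ = (τ ^ 3 * y) ^ 2 := by ring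
    have h5 : τ ^ 2 ≤ 2 * Real.sqrt (2 ^ m) := by
      apply le_of_sq_le_sq _ (by positivity)
      rw [mul_pow, Real.sq_sqrt (by positivity)]
      calc (τ ^ 2) ^ 2 = τ ^ 4 := by ring
        _ ≤ 2 ^ (m + 1) := hm'
        _ = 2 * 2 ^ m := by ring
        _ ≤ 2 ^ 2 * 2 ^ m := by
          have : (0 : ℝ) < 2 ^ m := by positivity
          linarith
    calc L / (2 * Real.sqrt (2 ^ m)) * Real.sqrt (τ ^ 6 * D)
        ≤ L / τ ^ 2 * (τ ^ 3 * y) := by gcongr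
      _ = L * τ * y := by field_simp
  have hm0 : (0 : ℝ) ≤ m := Nat.cast_nonneg m
  have h4 : D ≤ (800 * m * L ^ 5 + L) * τ * y + m * (L * τ ^ 2 / 2) := by
    calc D ≤ m * (800 * L ^ 5 * τ * y + L * τ ^ 2 / 2) + L * τ * y := by linarith
      _ = _ := by ring
  have hL5 : L ≤ L ^ 5 := by
    calc L = L ^ 1 := (pow_one L).symm
      _ ≤ L ^ 5 := pow_le_pow_right₀ hL (by norm_num)
  obtain ⟨a, ha⟩ : ∃ a, a = (800 * m + 1) * L ^ 5 * τ := ⟨_, rfl⟩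
  have h5 : y ^ 2 ≤ a * y + ((m : ℝ) + 1) * (L * τ ^ 2) := by
    have h6 : (800 * m * L ^ 5 + L) * τ * y ≤ a * y := by
      rw [ha]
      have : (800 * m * L ^ 5 + L) ≤ (800 * m + 1) * L ^ 5 := by linarith
      gcongr
    have h7 : 1 ≤ L * τ ^ 2 := one_le_mul_of_one_le_of_one_le hL (one_le_pow₀ hτ)
    have h8 : 0 ≤ (m : ℝ) * (L * τ ^ 2) := by positivity
    nlinarith
  have h6 : y ^ 2 ≤ a ^ 2 + 2 * (((m : ℝ) + 1) * (L * τ ^ 2)) := by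
    nlinarith [sq_nonneg (a - y)]
  have h7 : a ^ 2 + 2 * (((m : ℝ) + 1) * (L * τ ^ 2)) ≤ (800 * m + 2) ^ 2 * (L ^ 10 * τ ^ 2) := by
    have h8 : L * τ ^ 2 ≤ L ^ 10 * τ ^ 2 := by
      have : L ≤ L ^ 10 := by
        calc L = L ^ 1 := (pow_one L).symm
          _ ≤ L ^ 10 := pow_le_pow_right₀ hL (by norm_num)
      gcongr
    have h9 : a ^ 2 = (800 * m + 1) ^ 2 * (L ^ 10 * τ ^ 2) := by rw [ha]; ring
    rw [h9]
    have h10 : 0 ≤ L ^ 10 * τ ^ 2 := by positivity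
    have h11 : 2 * (((m : ℝ) + 1) * (L * τ ^ 2)) ≤ 2 * (((m : ℝ) + 1) * (L ^ 10 * τ ^ 2)) := by
      gcongr
    have h12 : 0 ≤ (m : ℝ) * (L ^ 10 * τ ^ 2) := mul_nonneg hm0 h10
    nlinarith
  have h8 : (800 * (m : ℝ) + 2) ^ 2 * (L ^ 10 * τ ^ 2) ≤ L ^ 12 * τ ^ 2 := by
    calc (800 * (m : ℝ) + 2) ^ 2 * (L ^ 10 * τ ^ 2) ≤ L ^ 2 * (L ^ 10 * τ ^ 2) := by gcongr
      _ = L ^ 12 * τ ^ 2 := by ring
  linarith

lemma x11_large {ε : ℝ} (hε : 0 < ε) : ∃ T0 : ℕ, 1 ≤ T0 ∧ ∀ t : ℕ, T0 ≤ t →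
    800 * Real.log t + 2 ≤ (t : ℝ) ^ ε := by
  have h1 := (isLittleO_log_rpow_atTop hε).bound (show (0 : ℝ) < 1 / 1600 by norm_num)
  have h2 := (tendsto_rpow_atTop hε).eventually_ge_atTop 4
  have h3 := tendsto_natCast_atTop_atTop.eventually ((h1.and h2).and
    (Filter.eventually_ge_atTop (1 : ℝ)))
  obtain ⟨T0, hT0⟩ := Filter.eventually_atTop.1 h3
  refine ⟨max T0 1, le_max_right _ _, fun t ht => ?_⟩
  obtain ⟨⟨h4, h5⟩, h6⟩ := hT0 t ((le_max_left _ _).trans ht)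
  rw [Real.norm_of_nonneg (Real.log_nonneg h6), Real.norm_of_nonneg (by positivity)] at h4
  linarith

/-- solution of the main inequality -/
theorem thm_X11 : St_X11 := by
  intro ε hε _
  obtain ⟨T0, hT1, hT0⟩ := x11_large hε
  refine ⟨T0, fun t m D ht hm hm' hD h => ?_⟩
  have ht1 : (1 : ℝ) ≤ t := by exact_mod_cast hT1.trans ht
  have ht0 : (0 : ℝ) < t := by linarith
  obtain ⟨τ, hτ⟩ : ∃ τ, τ = (t : ℝ) ^ (1 / 6 : ℝ) := ⟨_, rfl⟩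
  obtain ⟨L, hL⟩ : ∃ L, L = (t : ℝ) ^ ε := ⟨_, rfl⟩
  have hτ1 : 1 ≤ τ := by rw [hτ]; exact Real.one_le_rpow ht1 (by norm_num)
  have hL1 : 1 ≤ L := by rw [hL]; exact Real.one_le_rpow ht1 hε.le
  have hτn : ∀ n : ℕ, τ ^ n = (t : ℝ) ^ ((n : ℝ) / 6) := by
    intro n
    rw [hτ, ← Real.rpow_natCast, ← Real.rpow_mul ht0.le]
    congr 1
    ring
  have hτ6 : τ ^ 6 = t := by
    rw [hτn]
    norm_num
  have hτ4 : τ ^ 4 = (t : ℝ) ^ (2 / 3 : ℝ) := by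
    rw [hτn]
    norm_num
  have hL4 : (t : ℝ) ^ (4 * ε) = L ^ 4 := by
    rw [hL, ← Real.rpow_natCast, ← Real.rpow_mul ht0.le]
    congr 1
    push_cast
    ring
  have hfin : L ^ 12 * τ ^ 2 = (t : ℝ) ^ (1 / 3 + 12 * ε) := by
    rw [hτn, hL, ← Real.rpow_natCast, ← Real.rpow_mul ht0.le, ← Real.rpow_add ht0]
    congr 1
    push_cast
    ring
  rw [← hfin]
  rw [hL4, ← hL] at h
  have hmL : 800 * (m : ℝ) + 2 ≤ L := by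
    rw [hL]
    refine le_trans ?_ (hT0 t ht)
    have h1 : (m : ℝ) * Real.log 2 ≤ 2 / 3 * Real.log t := by
      have h2 := Real.log_le_log (by positivity) hm
      rw [Real.log_pow, Real.log_rpow ht0] at h2
      exact h2
    have h3 := Real.log_two_gt_d9
    have h4 : 0 ≤ Real.log t := Real.log_nonneg ht1
    have h5 : (0 : ℝ) ≤ m := Nat.cast_nonneg m
    nlinarith
  refine x11_main hL1 hτ1 (by rw [hτ4]; exact hm) (by rw [hτ4]; exact hm') hD hmL ?_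
  rw [hτ6]
  exact h

end MHL
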