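import Pool.Agent.MHL.StX

/-!
# MHL [X13a]: elementary properties of the moments
-/

set_option autoImplicit false

namespace MHL

open Pool.Agent.Helper47.Manh (sg)

lemma x13a_add {N : ℕ} [NeZero N] (F G : Tr N → ℝ) :
    ta (fun z => F z + G z) = ta F + ta G := by
  unfold ta
  rw [Finset.sum_add_distrib, add_div]

lemma x13a_mul {N : ℕ} [NeZero N] (c : ℝ) (F : Tr N → ℝ) :
    ta (fun z => c * F z) = c * ta F := by
  unfold ta
  rw [← Finset.mul_sum, mul_div_assoc]

lemma x13a_const {N : ℕ} [NeZero N] (c : ℝ) : ta (fun _ : Tr N => c) = c := by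
  unfold ta
  rw [Finset.sum_const, Finset.card_univ, Fintype.card_prod, ZMod.card, nsmul_eq_mul]
  have hN : (N : ℝ) ≠ 0 := by exact_mod_cast NeZero.ne N
  push_cast
  field_simp

lemma x13a_sg2 (b : Bool) : ((sg b : ℤ) : ℝ) ^ 2 = 1 := by
  unfold sg; split_ifs <;> norm_num

lemma x13a_sgabs (b : Bool) : |((sg b : ℤ) : ℝ)| = 1 := by
  unfold sg; split_ifs <;> norm_num

lemma x13a_sq {N : ℕ} (h v : ZMod N → Bool) (n : ℕ) :
    ∀ z : Tr N, mm1 h v n z ^ 2 ≤ mm2 h v n z := by
  induction n with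
  | zero => intro z; simp [mm1, mm2]
  | succ n ih =>
    intro z
    have ha := ih (t1 h z)
    have hb := ih (t2 v z)
    have hs := x13a_sg2 (h z.2)
    have e1 : mm1 h v (n + 1) z = ff h z + tP h v (mm1 h v n) z := rfl
    have e2 : mm2 h v (n + 1) z =
      1 / 2 + (sg (h z.2) : ℝ) * mm1 h v n (t1 h z) + tP h v (mm2 h v n) z := rfl
    rw [e1, e2]
    unfold ff tP
    generalize ((sg (h z.2) : ℤ) : ℝ) = σ at *
    generalize mm1 h v n (t1 h z) = a at *
    generalize mm1 h v n (t2 v z) = b at *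
    generalize mm2 h v n (t1 h z) = A at *
    generalize mm2 h v n (t2 v z) = B at *
    nlinarith [sq_nonneg (σ + a - b)]

lemma x13a_abs {N : ℕ} (h v : ZMod N → Bool) (n : ℕ) :
    ∀ z : Tr N, |mm1 h v n z| ≤ n := by
  induction n with
  | zero => intro z; simp [mm1]
  | succ n ih =>
    intro z
    have ha := abs_le.1 (ih (t1 h z))
    have hb := abs_le.1 (ih (t2 v z))
    have hs := abs_le.1 (x13a_sgabs (h z.2)).le
    have e1 : mm1 h v (n + 1) z = ff h z + tP h v (mm1 h v n) z := rfl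
    rw [e1]
    unfold ff tP
    rw [abs_le]
    push_cast
    constructor <;> linarith

lemma x13a_up {N : ℕ} (h v : ZMod N → Bool) (n : ℕ) :
    ∀ z : Tr N, mm2 h v n z ≤ (n : ℝ) ^ 2 := by
  induction n with
  | zero => intro z; simp [mm2]
  | succ n ih =>
    intro z
    have ha := ih (t1 h z)
    have hb := ih (t2 v z)
    have hs := x13a_sgabs (h z.2)
    have hm : |(sg (h z.2) : ℝ) * mm1 h v n (t1 h z)| ≤ n := by
      rw [abs_mul, hs, one_mul]; exact x13a_abs h v n _
    have hm' := (abs_le.1 hm).2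
    have e2 : mm2 h v (n + 1) z =
      1 / 2 + (sg (h z.2) : ℝ) * mm1 h v n (t1 h z) + tP h v (mm2 h v n) z := rfl
    rw [e2]
    unfold tP
    push_cast
    nlinarith [Nat.cast_nonneg (α := ℝ) n]

theorem thm_X13a (h : St_X2) : St_X13a := by
  intro N _ hh v n
  refine ⟨?_, fun z => (sq_nonneg _).trans (x13a_sq hh v n z), x13a_up hh v n, x13a_abs hh v n⟩
  have e2 : mm2 hh v (n + 1) = fun z =>
      (1 / 2 + (sg (hh z.2) : ℝ) * mm1 hh v n (t1 hh z)) + tP hh v (mm2 hh v n) z := rfl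
  have hG : ta (fun z : Tr N => (sg (hh z.2) : ℝ) * mm1 hh v n (t1 hh z)) =
      2 * ta (fun z => ff hh z * mm1 hh v n z) := by
    have h1 := (h N hh v (fun z => (sg (hh z.2) : ℝ) * mm1 hh v n z) (fun _ => 0)).1
    have h2 : ∀ z : Tr N, (t1 hh z).2 = z.2 := fun _ => rfl
    simp only [h2] at h1
    rw [h1, ← x13a_mul]
    congr 1
    funext z
    unfold ff
    ring
  have hP : ta (tP hh v (mm2 hh v n)) = ta (mm2 hh v n) := by
    have h1 := (h N hh v (mm2 hh v n) (fun _ => 0)).1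
    have h2 := (h N hh v (mm2 hh v n) (fun _ => 0)).2.1
    have e : tP hh v (mm2 hh v n) = fun z => (1 / 2 : ℝ) *
        (mm2 hh v n (t1 hh z) + mm2 hh v n (t2 v z)) := by
      funext z; unfold tP; ring
    rw [e, x13a_mul, x13a_add, h1, h2]
    ring
  rw [e2, x13a_add, x13a_add, hG, hP, x13a_const]
  ring

end MHL
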