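import Pool.Agent.MHL.StX

/-!
# MHL: invariance and identities on the torus
-/

set_option autoImplicit false

namespace MHL

open Pool.Agent.Helper47.Manh (sg)

lemma x2_t1 {N : ℕ} [NeZero N] (h : ZMod N → Bool) : Function.Bijective (t1 h) := by
  rw [← Finite.injective_iff_bijective]
  intro z w hzw
  unfold t1 at hzw
  rw [Prod.mk.injEq] at hzw
  obtain ⟨h1, h2⟩ := hzw
  rw [h2] at h1
  exact Prod.ext (add_right_cancel h1) h2

lemma x2_t2 {N : ℕ} [NeZero N] (v : ZMod N → Bool) : Function.Bijective (t2 v) := by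
  rw [← Finite.injective_iff_bijective]
  intro z w hzw
  unfold t2 at hzw
  rw [Prod.mk.injEq] at hzw
  obtain ⟨h1, h2⟩ := hzw
  rw [h1] at h2
  exact Prod.ext h1 (add_right_cancel h2)

lemma x2_sum1 {N : ℕ} [NeZero N] (h : ZMod N → Bool) (F : Tr N → ℝ) :
    ∑ z, F (t1 h z) = ∑ z, F z := (x2_t1 h).sum_comp F

lemma x2_sum2 {N : ℕ} [NeZero N] (v : ZMod N → Bool) (F : Tr N → ℝ) :
    ∑ z, F (t2 v z) = ∑ z, F z := (x2_t2 v).sum_comp F

theorem thm_X2 : St_X2 := by
  intro N _ h v F G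
  have hN : (0 : ℝ) ≤ (N : ℝ) ^ 2 := by positivity
  refine ⟨?_, ?_, ?_, ?_, ?_, ?_⟩
  · unfold ta
    rw [x2_sum1]
  · unfold ta
    rw [x2_sum2]
  · intro a
    unfold ta
    have h1 : ∑ z : Tr N, F (z + a) = ∑ z, F z := Equiv.sum_comp (Equiv.addRight a) F
    rw [h1]
  · unfold ta
    refine div_le_div_of_nonneg_right ?_ hN
    have h1 : ∑ z, tP h v F z ^ 2 ≤ ∑ z, (F (t1 h z) ^ 2 / 2 + F (t2 v z) ^ 2 / 2) := by
      refine Finset.sum_le_sum fun z _ => ?_
      unfold tP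
      nlinarith [sq_nonneg (F (t1 h z) - F (t2 v z))]
    refine h1.trans (le_of_eq ?_)
    rw [Finset.sum_add_distrib, x2_sum1 h (fun z => F z ^ 2 / 2),
      x2_sum2 v (fun z => F z ^ 2 / 2), ← Finset.sum_add_distrib]
    refine Finset.sum_congr rfl fun z _ => ?_
    ring
  · unfold ta
    rw [← sub_div, mul_div_assoc']
    congr 1
    have h1 : ∀ z, ((F (t1 h z) - F z) ^ 2 + (F (t2 v z) - F z) ^ 2) / 2 =
        F (t1 h z) ^ 2 / 2 + F (t2 v z) ^ 2 / 2 + (F z ^ 2 - 2 * (F z * tP h v F z)) := by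
      intro z
      unfold tP
      ring
    simp only [h1]
    rw [Finset.sum_add_distrib, Finset.sum_add_distrib, x2_sum1 h (fun z => F z ^ 2 / 2),
      x2_sum2 v (fun z => F z ^ 2 / 2), Finset.sum_sub_distrib, ← Finset.mul_sum,
      ← Finset.sum_div]
    ring
  · unfold ta
    rw [div_pow, div_mul_div_comm, ← sq]
    refine div_le_div_of_nonneg_right ?_ (by positivity)
    exact Finset.sum_mul_sq_le_sq_mul_sq _ _ _

end MHL
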