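import Pool.Agent.MHL.StX

/-!
# MHL X3: energy of the corrector on the torus
-/

set_option autoImplicit false

namespace MHL

open Pool.Agent.Helper47.Manh (sg)

lemma x3_add {N : ℕ} [NeZero N] (F G : Tr N → ℝ) :
    ta (fun z => F z + G z) = ta F + ta G := by
  unfold ta
  rw [Finset.sum_add_distrib, add_div]

lemma x3_smul {N : ℕ} [NeZero N] (c : ℝ) (F : Tr N → ℝ) :
    ta (fun z => c * F z) = c * ta F := by
  unfold ta
  rw [← Finset.mul_sum, mul_div_assoc]

lemma x3_mono {N : ℕ} [NeZero N] {F G : Tr N → ℝ} (h : ∀ z, F z ≤ G z) : ta F ≤ ta G := by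
  unfold ta
  exact div_le_div_of_nonneg_right (Finset.sum_le_sum fun z _ => h z) (by positivity)

lemma x3_const {N : ℕ} [NeZero N] (c : ℝ) : ta (fun _ : Tr N => c) = c := by
  unfold ta
  have hN : (N : ℝ) ≠ 0 := by exact_mod_cast NeZero.ne N
  rw [Finset.sum_const, Finset.card_univ, Fintype.card_prod, ZMod.card, nsmul_eq_mul]
  push_cast
  field_simp

lemma x3_nonneg {N : ℕ} [NeZero N] {F : Tr N → ℝ} (h : ∀ z, 0 ≤ F z) : 0 ≤ ta F := by
  have := x3_mono (F := fun _ => 0) (G := F) h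
  rwa [x3_const] at this

lemma x3_sg (b : Bool) : (sg b : ℝ) ^ 2 = 1 := by
  unfold sg
  split_ifs <;> norm_num

theorem thm_X3 (h2 : St_X2) : St_X3 := by
  intro N t _ h v χ ht hR
  have ht0 : (2 : ℝ) ≤ t := by exact_mod_cast ht
  obtain ⟨-, -, -, hP, hE, hCS⟩ := h2 N h v χ (ff h)
  have hCS' := (h2 N h v (ff h) χ).2.2.2.2.2
  set te : ℝ := ta (fun z => ((χ (t1 h z) - χ z) ^ 2 + (χ (t2 v z) - χ z) ^ 2) / 2) with hte
  set c2 : ℝ := ta (fun z => χ z ^ 2) with hc2
  set cp : ℝ := ta (fun z => χ z * tP h v χ z) with hcp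
  have hte0 : 0 ≤ te := x3_nonneg fun z => by positivity
  have hc0 : 0 ≤ c2 := x3_nonneg fun z => by positivity
  have hD : DD h χ = c2 - (1 - 1 / (t : ℝ)) * cp := by
    have e1 : (fun z => ff h z * χ z) =
        fun z => χ z ^ 2 + (-(1 - 1 / (t : ℝ))) * (χ z * tP h v χ z) := by
      funext z
      rw [← hR z]
      ring
    unfold DD
    rw [e1, x3_add (fun z => χ z ^ 2) (fun z => (-(1 - 1 / (t : ℝ))) * (χ z * tP h v χ z)),
      x3_smul]
    ring
  have hcp2 : cp = c2 - te / 2 := by linarith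
  have hD2 : DD h χ = c2 / t + (1 - 1 / (t : ℝ)) * te / 2 := by
    rw [hD, hcp2]
    ring
  have hq : (1 : ℝ) / 2 ≤ 1 - 1 / (t : ℝ) := by
    have : 1 / (t : ℝ) ≤ 1 / 2 := one_div_le_one_div_of_le (by norm_num) ht0
    linarith
  have hqt : te / 4 ≤ (1 - 1 / (t : ℝ)) * te / 2 := by nlinarith
  have hct : 0 ≤ c2 / t := div_nonneg hc0 (by linarith)
  have hD0 : 0 ≤ DD h χ := by rw [hD2]; linarith
  have hte4 : te ≤ 4 * DD h χ := by rw [hD2]; linarith
  have hc2D : c2 ≤ t * DD h χ := by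
    have : c2 / t ≤ DD h χ := by rw [hD2]; linarith
    rw [div_le_iff₀ (by linarith)] at this
    linarith
  have hff : ta (fun z => ff h z ^ 2) = 1 / 4 := by
    have : (fun z : Tr N => ff h z ^ 2) = fun _ => 1 / 4 := by
      funext z
      unfold ff
      rw [div_pow, x3_sg]
      norm_num
    rw [this, x3_const]
  refine ⟨hD0, ?_, hc2D, ?_, ?_⟩
  · have h3 : DD h χ ^ 2 ≤ 1 / 4 * (t * DD h χ) := by
      have h4 : DD h χ ^ 2 ≤ ta (fun z => ff h z ^ 2) * ta (fun z => χ z ^ 2) := hCS'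
      rw [hff] at h4
      linarith
    by_contra hcon
    push Not at hcon
    nlinarith
  · have h3 : ta (ew h v χ) ≤ ta (fun z => 2 *
        (((χ (t1 h z) - χ z) ^ 2 + (χ (t2 v z) - χ z) ^ 2) / 2) + 1) := by
      refine x3_mono fun z => ?_
      unfold ew
      have h5 := x3_sg (h z.2)
      have h6 := sq_nonneg ((χ (t1 h z) - χ z) - (sg (h z.2) : ℝ))
      have h7 := sq_nonneg (χ (t2 v z) - χ z)
      nlinarith
    rw [x3_add (fun z => 2 * (((χ (t1 h z) - χ z) ^ 2 + (χ (t2 v z) - χ z) ^ 2) / 2))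
      (fun _ => 1), x3_smul, x3_const] at h3
    linarith
  · have h3 : (fun z => (tP h v χ z / t) ^ 2) = fun z => (1 / (t : ℝ) ^ 2) * (tP h v χ z ^ 2) := by
      funext z
      ring
    rw [h3, x3_smul]
    have h4 : (1 / (t : ℝ) ^ 2) * ta (fun z => tP h v χ z ^ 2) ≤
        (1 / (t : ℝ) ^ 2) * (t * DD h χ) :=
      mul_le_mul_of_nonneg_left (hP.trans hc2D) (by positivity)
    refine h4.trans (le_of_eq ?_)
    field_simp

end MHL
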