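import Pool.Agent.MHL.StX

/-!
# MHL [X4]: the lift of the corrector
-/

set_option autoImplicit false

namespace MHL

open Pool.Agent.Helper47.Manh (sg)

lemma x4_s1 {N : ℕ} (h v : ZMod N → Bool) (p : Pt) :
    (cst ((tE h v).s1 p) : Tr N) = t1 h (cst p) := by
  simp only [cst, Env.s1, t1, tE, gs]
  ext <;> push_cast <;> rfl

lemma x4_s2 {N : ℕ} (h v : ZMod N → Bool) (p : Pt) :
    (cst ((tE h v).s2 p) : Tr N) = t2 v (cst p) := by
  simp only [cst, Env.s2, t2, tE, gs]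
  ext <;> push_cast <;> rfl

lemma x4_c1 {N : ℕ} (h v : ZMod N → Bool) (p : Pt) :
    ((((tE h v).s1 p).1 : ℤ) : ℝ) = (p.1 : ℝ) + (sg (h (cst p : Tr N).2) : ℝ) := by
  simp only [cst, Env.s1, tE, gs]
  push_cast
  rfl

lemma x4_c2 {N : ℕ} (h v : ZMod N → Bool) (p : Pt) :
    ((((tE h v).s2 p).1 : ℤ) : ℝ) = (p.1 : ℝ) := rfl

theorem thm_X4 : St_X4 := by
  intro N t _ h v χ ht hR
  have htp : (0 : ℝ) < t := by exact_mod_cast (by omega : 0 < t)
  refine ⟨fun p => ?_, fun U => ?_⟩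
  · have h1 := hR (cst p)
    unfold Pf
    simp only [x4_s1, x4_s2, x4_c1, x4_c2]
    unfold tP ff at h1
    unfold tP
    have e : -((χ (t1 h (cst p)) + χ (t2 v (cst p))) / 2 / (t : ℝ)) =
        -(1 / (t : ℝ) * ((χ (t1 h (cst p)) + χ (t2 v (cst p))) / 2)) := by ring
    rw [e]
    have e2 : (1 - 1 / (t : ℝ)) * ((χ (t1 h (cst p)) + χ (t2 v (cst p))) / 2) =
      ((χ (t1 h (cst p)) + χ (t2 v (cst p))) / 2) -
        1 / (t : ℝ) * ((χ (t1 h (cst p)) + χ (t2 v (cst p))) / 2) := by ring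
    rw [e2] at h1
    linarith
  · unfold en
    rw [Finset.sum_div]
    refine Finset.sum_congr rfl fun p _ => ?_
    simp only [x4_s1, x4_s2, x4_c1, x4_c2]
    unfold ew
    ring

end MHL
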