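import Pool.Agent.MHL.StX

/-!
# MHL: local estimate for the differences of averages over dyadic squares
-/

set_option autoImplicit false

namespace MHL

lemma x5_cs_prod (k : ℕ) (f : Pt → ℝ) (z : Pt) :
    csq k f z = ∑ p ∈ Finset.range (2 ^ k) ×ˢ Finset.range (2 ^ k),
      f (z.1 + (p.1 : ℤ), z.2 + (p.2 : ℤ)) := by
  unfold csq
  rw [Finset.sum_product]

lemma x5_card (k : ℕ) :
    ((Finset.range (2 ^ k) ×ˢ Finset.range (2 ^ k)).card : ℝ) = 4 ^ k := by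
  rw [Finset.card_product, Finset.card_range]
  push_cast
  rw [← mul_pow]
  norm_num

lemma x5_cs_le (k : ℕ) (f : Pt → ℝ) (z : Pt) (u : ℝ)
    (h : ∀ i j : ℕ, i < 2 ^ k → j < 2 ^ k → f (z.1 + (i : ℤ), z.2 + (j : ℤ)) ≤ u) :
    csq k f z ≤ 4 ^ k * u := by
  rw [x5_cs_prod, ← x5_card, ← nsmul_eq_mul]
  refine Finset.sum_le_card_nsmul _ _ _ fun p hp => ?_
  rw [Finset.mem_product, Finset.mem_range, Finset.mem_range] at hp
  exact h p.1 p.2 hp.1 hp.2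

lemma x5_le_cs (k : ℕ) (f : Pt → ℝ) (z : Pt) (u : ℝ)
    (h : ∀ i j : ℕ, i < 2 ^ k → j < 2 ^ k → u ≤ f (z.1 + (i : ℤ), z.2 + (j : ℤ))) :
    4 ^ k * u ≤ csq k f z := by
  rw [x5_cs_prod, ← x5_card, ← nsmul_eq_mul]
  refine Finset.card_nsmul_le_sum _ _ _ fun p hp => ?_
  rw [Finset.mem_product, Finset.mem_range, Finset.mem_range] at hp
  exact h p.1 p.2 hp.1 hp.2

lemma x5_cs_sub (k : ℕ) (f g : Pt → ℝ) (z : Pt) :
    csq k (fun p => f p - g p) z = csq k f z - csq k g z := by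
  rw [x5_cs_prod, x5_cs_prod, x5_cs_prod, ← Finset.sum_sub_distrib]

lemma x5_cs_sq (k : ℕ) (f : Pt → ℝ) (z : Pt) (B : Finset Pt)
    (hB : ∀ i j : ℕ, i < 2 ^ k → j < 2 ^ k → (z.1 + (i : ℤ), z.2 + (j : ℤ)) ∈ B) :
    csq k f z ^ 2 ≤ 4 ^ k * ∑ p ∈ B, f p ^ 2 := by
  rw [x5_cs_prod]
  refine (sq_sum_le_card_mul_sum_sq).trans ?_
  rw [x5_card]
  apply mul_le_mul_of_nonneg_left ?_ (by positivity)
  have hinj : Set.InjOn (fun p : ℕ × ℕ => ((z.1 + (p.1 : ℤ), z.2 + (p.2 : ℤ)) : Pt))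
      (Finset.range (2 ^ k) ×ˢ Finset.range (2 ^ k) : Finset (ℕ × ℕ)) := by
    rintro ⟨i, j⟩ _ ⟨i', j'⟩ _ h
    simp only [Prod.mk.injEq, add_right_inj, Nat.cast_inj] at h
    exact Prod.ext h.1 h.2
  rw [← Finset.sum_image (f := fun p => f p ^ 2) hinj]
  apply Finset.sum_le_sum_of_subset_of_nonneg
  · intro p hp
    rw [Finset.mem_image] at hp
    obtain ⟨⟨i, j⟩, hij, rfl⟩ := hp
    rw [Finset.mem_product, Finset.mem_range, Finset.mem_range] at hij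
    exact hB i j hij.1 hij.2
  · intro _ _ _
    positivity

/-- averages of a function with small oscillation are close -/
lemma x5_avg (k l : ℕ) (f : Pt → ℝ) (z z' : Pt) (B : Finset Pt) (δ : ℝ)
    (hB : ∀ i j : ℕ, i < 2 ^ k → j < 2 ^ k → (z.1 + (i : ℤ), z.2 + (j : ℤ)) ∈ B)
    (hB' : ∀ i j : ℕ, i < 2 ^ l → j < 2 ^ l → (z'.1 + (i : ℤ), z'.2 + (j : ℤ)) ∈ B)
    (h : ∀ p ∈ B, ∀ p' ∈ B, f p ≤ f p' + δ) :
    csq k f z / 4 ^ k - csq l f z' / 4 ^ l ≤ δ := by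
  have h4 : ∀ n : ℕ, (0 : ℝ) < 4 ^ n := fun n => by positivity
  have h1 : ∀ p' ∈ B, csq k f z / 4 ^ k - δ ≤ f p' := by
    intro p' hp'
    have := x5_cs_le k f z (f p' + δ) fun i j hi hj => h _ (hB i j hi hj) p' hp'
    have h2 : csq k f z / 4 ^ k ≤ f p' + δ := by
      rw [div_le_iff₀ (h4 k)]
      linarith
    linarith
  have h2 := x5_le_cs l f z' (csq k f z / 4 ^ k - δ) fun i j hi hj => h1 _ (hB' i j hi hj)
  have h3 : csq k f z / 4 ^ k - δ ≤ csq l f z' / 4 ^ l := by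
    rw [le_div_iff₀ (h4 l)]
    linarith
  linarith

theorem thm_X5 (h1 : St_E1) (h3 : St_E3) (h4 : St_E4) : St_X5 := by
  intro E Λ T M k a b c w g t t' hMT hkT hΛ hM ht htM ht' htM' hw ha hb
  set B := bx c (4 * 2 ^ (k + 1)) with hBdef
  obtain ⟨ψ, hψ⟩ := h3 E B g
  set G : ℝ := ∑ z ∈ B, g z ^ 2 with hG
  have hG0 : 0 ≤ G := Finset.sum_nonneg fun _ _ => by positivity
  have hψ2 : ∑ z ∈ B, ψ z ^ 2 ≤ M ^ 2 * G :=
    h4 E B M g ψ t t' hψ ht ht' (fun z _ => htM z) (fun z _ => htM' z)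
  -- energy of psi
  have hψg : ∑ z ∈ B, ψ z * g z ≤ M * G := by
    have hcs := Finset.sum_mul_sq_le_sq_mul_sq B ψ g
    have h5 : (∑ z ∈ B, ψ z * g z) ^ 2 ≤ (M * G) ^ 2 := by
      refine hcs.trans ?_
      have := mul_le_mul_of_nonneg_right hψ2 hG0
      rw [hG] at this ⊢
      nlinarith
    exact le_of_sq_le_sq h5 (by positivity)
  have hen : en E ψ B ≤ 2 * (M * G) := by
    refine (h1 E B B ψ hψ.off).trans ?_
    have : ∑ z ∈ B, ψ z * (ψ z - Pf E ψ z) = ∑ z ∈ B, ψ z * g z :=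
      Finset.sum_congr rfl fun z hz => by rw [hψ.eq z hz]
    rw [this]
    linarith
  set wh : Pt → ℝ := fun z => w z - ψ z with hwh
  have hharm : ∀ z ∈ B, Hm E wh z := by
    intro z hz
    have e1 := hw z hz
    have e2 := hψ.eq z hz
    unfold Pf at e1 e2
    unfold Hm
    simp only [hwh]
    linarith
  have henw : en E wh B ≤ 2 * en E w B + 2 * en E ψ B := by
    unfold en
    rw [← mul_div_assoc, ← mul_div_assoc, ← add_div]
    apply div_le_div_of_nonneg_right ?_ (by norm_num)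
    rw [Finset.mul_sum, Finset.mul_sum, ← Finset.sum_add_distrib]
    apply Finset.sum_le_sum
    intro z _
    simp only [hwh]
    nlinarith [sq_nonneg ((w (E.s1 z) - w z) + (ψ (E.s1 z) - ψ z)),
      sq_nonneg ((w (E.s2 z) - w z) + (ψ (E.s2 z) - ψ z))]
  have hs : 0 < Real.sqrt (2 ^ (k + 1)) := Real.sqrt_pos.2 (by positivity)
  set Q : ℝ := 2 * en E w B + 4 * M * G with hQ
  have hQ0 : 0 ≤ Q := by
    have := en_nonneg E w B
    positivity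
  have hosc : ∀ z ∈ bx c (2 ^ (k + 1)), ∀ z' ∈ bx c (2 ^ (k + 1)),
      (wh z - wh z') ^ 2 ≤ Λ / Real.sqrt (2 ^ (k + 1)) * Q := by
    intro z hz z' hz'
    have h5 := hMT (k + 1) hkT c wh hharm z hz z' hz'
    have h6 : Λ * en E wh B ≤ Λ * Q := mul_le_mul_of_nonneg_left (by rw [hQ]; linarith) hΛ
    rw [div_mul_eq_mul_div, le_div_iff₀ hs]
    linarith
  set δ : ℝ := Real.sqrt (Λ / Real.sqrt (2 ^ (k + 1)) * Q) with hδ
  have hδ2 : δ ^ 2 = Λ / Real.sqrt (2 ^ (k + 1)) * Q := Real.sq_sqrt (by positivity)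
  have hδ0 : 0 ≤ δ := Real.sqrt_nonneg _
  have hosc' : ∀ z ∈ bx c (2 ^ (k + 1)), ∀ z' ∈ bx c (2 ^ (k + 1)), wh z ≤ wh z' + δ := by
    intro z hz z' hz'
    have h5 : wh z - wh z' ≤ δ := Real.le_sqrt_of_sq_le (hosc z hz z' hz')
    linarith
  -- the points of the squares
  have hpow : (2 : ℤ) ^ (k + 1) = 2 * 2 ^ k := by rw [pow_succ]; ring
  have hsq1 : ∀ i j : ℕ, i < 2 ^ k → j < 2 ^ k →
      ((sft k a b c).1 + (i : ℤ), (sft k a b c).2 + (j : ℤ)) ∈ bx c (2 ^ (k + 1)) := by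
    intro i j hi hj
    have hi' : (i : ℤ) < 2 ^ k := by exact_mod_cast hi
    have hj' : (j : ℤ) < 2 ^ k := by exact_mod_cast hj
    have ha' : (2 : ℤ) ^ k * a ≤ 2 ^ k := by
      have : (a : ℤ) ≤ 1 := by exact_mod_cast ha
      nlinarith [show (0 : ℤ) < 2 ^ k by positivity]
    have hb' : (2 : ℤ) ^ k * b ≤ 2 ^ k := by
      have : (b : ℤ) ≤ 1 := by exact_mod_cast hb
      nlinarith [show (0 : ℤ) < 2 ^ k by positivity]
    have ha0 : (0 : ℤ) ≤ 2 ^ k * a := by positivity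
    have hb0 : (0 : ℤ) ≤ 2 ^ k * b := by positivity
    rw [mem_bx]
    unfold sft
    simp only
    push_cast
    rw [hpow]
    constructor
    · rw [abs_le]
      constructor <;> linarith
    · rw [abs_le]
      constructor <;> linarith
  have hsq2 : ∀ i j : ℕ, i < 2 ^ (k + 1) → j < 2 ^ (k + 1) →
      (c.1 + (i : ℤ), c.2 + (j : ℤ)) ∈ bx c (2 ^ (k + 1)) := by
    intro i j hi hj
    have hi' : (i : ℤ) < 2 ^ (k + 1) := by exact_mod_cast hi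
    have hj' : (j : ℤ) < 2 ^ (k + 1) := by exact_mod_cast hj
    have hp : (0 : ℤ) < 2 ^ (k + 1) := by positivity
    rw [mem_bx]
    simp only
    push_cast
    constructor
    · rw [abs_le]
      constructor <;> linarith
    · rw [abs_le]
      constructor <;> linarith
  have hBsub : bx c (2 ^ (k + 1)) ⊆ B := by
    intro z hz
    rw [hBdef]
    rw [mem_bx] at hz ⊢
    push_cast at hz ⊢
    have hp : (0 : ℤ) < 2 ^ (k + 1) := by positivity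
    constructor <;> linarith [hz.1, hz.2]
  -- harmonic part
  have hA1 : (csq k wh (sft k a b c) / 4 ^ k - csq (k + 1) wh c / 4 ^ (k + 1)) ^ 2 ≤ δ ^ 2 := by
    have h5 := x5_avg k (k + 1) wh (sft k a b c) c (bx c (2 ^ (k + 1))) δ hsq1 hsq2 hosc'
    have h6 := x5_avg (k + 1) k wh c (sft k a b c) (bx c (2 ^ (k + 1))) δ hsq2 hsq1 hosc'
    apply sq_le_sq'
    · linarith
    · exact h5
  -- Green part
  have h4k : (0 : ℝ) < 4 ^ k := by positivity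
  have hP1 : (csq k ψ (sft k a b c) / 4 ^ k) ^ 2 ≤ M ^ 2 * G / 4 ^ k := by
    have h5 := x5_cs_sq k ψ (sft k a b c) B fun i j hi hj => hBsub (hsq1 i j hi hj)
    rw [div_pow, div_le_div_iff₀ (by positivity) h4k]
    have h6 : csq k ψ (sft k a b c) ^ 2 ≤ 4 ^ k * (M ^ 2 * G) :=
      h5.trans (mul_le_mul_of_nonneg_left hψ2 h4k.le)
    calc csq k ψ (sft k a b c) ^ 2 * 4 ^ k ≤ 4 ^ k * (M ^ 2 * G) * 4 ^ k :=
          mul_le_mul_of_nonneg_right h6 h4k.le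
      _ = M ^ 2 * G * (4 ^ k) ^ 2 := by ring
  have hP2 : (csq (k + 1) ψ c / 4 ^ (k + 1)) ^ 2 ≤ M ^ 2 * G / 4 ^ (k + 1) := by
    have h4k1 : (0 : ℝ) < 4 ^ (k + 1) := by positivity
    have h5 := x5_cs_sq (k + 1) ψ c B fun i j hi hj => hBsub (hsq2 i j hi hj)
    rw [div_pow, div_le_div_iff₀ (by positivity) h4k1]
    have h6 : csq (k + 1) ψ c ^ 2 ≤ 4 ^ (k + 1) * (M ^ 2 * G) :=
      h5.trans (mul_le_mul_of_nonneg_left hψ2 h4k1.le)
    calc csq (k + 1) ψ c ^ 2 * 4 ^ (k + 1) ≤ 4 ^ (k + 1) * (M ^ 2 * G) * 4 ^ (k + 1) :=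
          mul_le_mul_of_nonneg_right h6 h4k1.le
      _ = M ^ 2 * G * (4 ^ (k + 1)) ^ 2 := by ring
  have hP2' : M ^ 2 * G / 4 ^ (k + 1) = M ^ 2 * G / 4 ^ k / 4 := by
    rw [pow_succ (4 : ℝ) k, div_div]
  rw [hP2'] at hP2
  set p1 : ℝ := csq k ψ (sft k a b c) / 4 ^ k with hp1
  set p2 : ℝ := csq (k + 1) ψ c / 4 ^ (k + 1) with hp2
  have e1 : csq k w (sft k a b c) / 4 ^ k - csq (k + 1) w c / 4 ^ (k + 1) =
      (csq k wh (sft k a b c) / 4 ^ k - csq (k + 1) wh c / 4 ^ (k + 1)) + (p1 - p2) := by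
    have e2 : csq k wh (sft k a b c) = csq k w (sft k a b c) - csq k ψ (sft k a b c) :=
      x5_cs_sub k w ψ _
    have e3 : csq (k + 1) wh c = csq (k + 1) w c - csq (k + 1) ψ c := x5_cs_sub (k + 1) w ψ _
    rw [e2, e3, hp1, hp2]
    ring
  rw [e1]
  set d : ℝ := csq k wh (sft k a b c) / 4 ^ k - csq (k + 1) wh c / 4 ^ (k + 1) with hd
  have hMG : 0 ≤ M ^ 2 * G / 4 ^ k := by positivity
  have e4 : (8 : ℝ) / 4 ^ k * M ^ 2 * G = 8 * (M ^ 2 * G / 4 ^ k) := by ring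
  rw [e4]
  have e5 : 2 * (Λ / Real.sqrt (2 ^ (k + 1))) * (2 * en E w B + 4 * M * G) = 2 * δ ^ 2 := by
    rw [hδ2, hQ]
    ring
  rw [e5]
  nlinarith [sq_nonneg (d - (p1 - p2)), sq_nonneg (p1 + p2)]

end MHL
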