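import Pool.Agent.MHL.StX

/-!
# MHL: averages over the torus of sums over boxes
-/

set_option autoImplicit false

namespace MHL

lemma x6_card (R : ℕ) : ((bx (0, 0) R).card : ℝ) = (2 * (R : ℝ) + 1) ^ 2 := by
  have h : (bx (0, 0) R).card = (2 * R + 1) ^ 2 := by
    unfold bx
    rw [← Finset.Icc_product_Icc, Finset.card_product, Int.card_Icc, sq]
    simp only [zero_sub, zero_add]
    have : ((R : ℤ) + 1 - -(R : ℤ)).toNat = 2 * R + 1 := by omega
    rw [this]
  rw [h]
  push_cast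
  ring

lemma x6_sum {N : ℕ} [NeZero N] (F : Tr N → ℝ) (R : ℕ) (z : Tr N) :
    ∑ p ∈ bx (lft z) R, F (cst p) = ∑ p ∈ bx (0, 0) R, F (z + cst p) := by
  symm
  refine Finset.sum_bij (fun p _ => ((z.1.val : ℤ) + p.1, (z.2.val : ℤ) + p.2)) ?_ ?_ ?_ ?_
  · intro p hp
    rw [mem_bx] at hp ⊢
    simpa [lft] using hp
  · intro p _ q _ h
    simp only [Prod.mk.injEq, add_right_inj] at h
    exact Prod.ext h.1 h.2
  · intro p hp
    refine ⟨(p.1 - z.1.val, p.2 - z.2.val), ?_, ?_⟩
    · rw [mem_bx] at hp ⊢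
      simpa [lft] using hp
    · simp
  · intro p _
    congr 1
    unfold cst
    ext
    · simp
    · simp

theorem thm_X6 (h : St_X2) : St_X6 := by
  intro N _ F R
  have h1 : ta (fun z : Tr N => ∑ p ∈ bx (lft z) R, F (cst p)) =
      ∑ p ∈ bx (0, 0) R, ta (fun z : Tr N => F (z + cst p)) := by
    unfold ta
    rw [← Finset.sum_div, Finset.sum_comm]
    congr 1
    exact Finset.sum_congr rfl fun z _ => x6_sum F R z
  rw [h1]
  have h2 : ∀ p ∈ bx (0, 0) R, ta (fun z : Tr N => F (z + cst p)) = ta F := fun p _ =>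
    (h N (fun _ => true) (fun _ => true) F F).2.2.1 (cst p)
  rw [Finset.sum_congr rfl h2, Finset.sum_const, nsmul_eq_mul, x6_card]

end MHL
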