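import Pool.Agent.MHL.StX

/-!
# MHL: torus average of the local estimate
-/

set_option autoImplicit false

namespace MHL

open Pool.Agent.Helper47.Manh (sg)

lemma x7_gauss (n : ℕ) : ∑ i ∈ Finset.range n, (i : ℝ) = n * (n - 1) / 2 := by
  induction n with
  | zero => simp
  | succ n ih =>
    rw [Finset.sum_range_succ, ih]
    push_cast
    ring

/-- average of the first coordinate over a square -/
lemma x7_x (k : ℕ) (q : Pt) :
    csq k (fun p : Pt => (p.1 : ℝ)) q / 4 ^ k = (q.1 : ℝ) + ((2 : ℝ) ^ k - 1) / 2 := by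
  unfold csq
  have h1 : ∀ i ∈ Finset.range (2 ^ k), ∑ _j ∈ Finset.range (2 ^ k), (((q.1 + (i : ℤ) : ℤ)) : ℝ) =
      2 ^ k * (q.1 : ℝ) + 2 ^ k * (i : ℝ) := by
    intro i _
    rw [Finset.sum_const, Finset.card_range, nsmul_eq_mul]
    push_cast
    ring
  rw [Finset.sum_congr rfl h1, Finset.sum_add_distrib, Finset.sum_const, Finset.card_range,
    ← Finset.mul_sum, x7_gauss, nsmul_eq_mul]
  have h4 : (4 : ℝ) ^ k = 2 ^ k * 2 ^ k := by
    rw [← mul_pow]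
    norm_num
  have h2 : (2 : ℝ) ^ k ≠ 0 := by positivity
  rw [h4]
  push_cast
  field_simp

lemma x7_cs_add (k : ℕ) (f g : Pt → ℝ) (q : Pt) :
    csq k (fun p => f p + g p) q = csq k f q + csq k g q := by
  unfold csq
  rw [← Finset.sum_add_distrib]
  refine Finset.sum_congr rfl fun i _ => ?_
  rw [← Finset.sum_add_distrib]

lemma x7_cs_cst {N : ℕ} (k : ℕ) (χ : Tr N → ℝ) (q : Pt) :
    csq k (fun p : Pt => χ (cst p)) q = csq k χ (cst q) := by
  unfold csq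
  refine Finset.sum_congr rfl fun i _ => Finset.sum_congr rfl fun j _ => ?_
  congr 1
  unfold cst
  push_cast
  rfl

lemma x7_cst_lft {N : ℕ} [NeZero N] (z : Tr N) : cst (lft z) = z := by
  unfold cst lft
  simp

lemma x7_cst_sft {N : ℕ} [NeZero N] (k a b : ℕ) (z : Tr N) :
    (cst (sft k a b (lft z)) : Tr N) = sft k a b z := by
  have h := x7_cst_lft z
  unfold cst at h ⊢
  unfold sft
  rw [Prod.ext_iff] at h
  simp only at h ⊢
  push_cast
  rw [h.1, h.2]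

lemma x7_ta_mono {N : ℕ} [NeZero N] {F G : Tr N → ℝ} (h : ∀ z, F z ≤ G z) : ta F ≤ ta G := by
  unfold ta
  exact div_le_div_of_nonneg_right (Finset.sum_le_sum fun z _ => h z) (by positivity)

lemma x7_ta_add {N : ℕ} [NeZero N] (F G : Tr N → ℝ) :
    ta (fun z => F z + G z) = ta F + ta G := by
  unfold ta
  rw [Finset.sum_add_distrib, add_div]

lemma x7_ta_mul {N : ℕ} [NeZero N] (c : ℝ) (F : Tr N → ℝ) :
    ta (fun z => c * F z) = c * ta F := by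
  unfold ta
  rw [← Finset.mul_sum, mul_div_assoc]

lemma x7_ta_const {N : ℕ} [NeZero N] (c : ℝ) : ta (fun _ : Tr N => c) = c := by
  unfold ta
  have hN : (N : ℝ) ≠ 0 := by exact_mod_cast NeZero.ne N
  rw [Finset.sum_const, Finset.card_univ, Fintype.card_prod, ZMod.card, nsmul_eq_mul]
  push_cast
  field_simp

theorem thm_X7 (h3 : St_X3) (h4 : St_X4) (h5 : St_X5) (h6 : St_X6) (he : St_E3) : St_X7 := by
  intro N t _ h v Λ T M k a b χ ht hχ hMT hkT hΛ hM hG hG' ha hb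
  obtain ⟨hw, hen⟩ := h4 N t h v χ ht hχ
  obtain ⟨_, _, _, hew, hgg⟩ := h3 N t h v χ ht hχ
  set E := tE h v with hE
  set R : ℕ := 4 * 2 ^ (k + 1) with hR
  set w : Pt → ℝ := fun z => χ (cst z) + (z.1 : ℝ) with hwdef
  set g : Pt → ℝ := fun p => -(tP h v χ (cst p) / t) with hg
  set e : Tr N → ℝ := fun z => ∑ p ∈ bx (lft z) R, ew h v χ (cst p) with hedef
  set G2 : Tr N → ℝ := fun z => ∑ p ∈ bx (lft z) R, (tP h v χ (cst p) / t) ^ 2 with hG2
  set c1 : ℝ := 2 * (Λ / Real.sqrt (2 ^ (k + 1))) with hc1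
  have hc10 : 0 ≤ c1 := by positivity
  have hpt : ∀ z : Tr N, (csq k χ (sft k a b z) / 4 ^ k - csq (k + 1) χ z / 4 ^ (k + 1)) ^ 2 ≤
      2 * (c1 * (2 * e z + 4 * M * G2 z) + 8 / 4 ^ k * M ^ 2 * G2 z) + 4 ^ k / 2 := by
    intro z
    obtain ⟨t0, ht0⟩ := he E (bx (lft z) R) (fun _ => 1)
    obtain ⟨t0', ht0'⟩ := he E.rev (bx (lft z) R) (fun _ => 1)
    have key := h5 E Λ T M k a b (lft z) w g t0 t0' hMT hkT hΛ hM ht0 (hG _ _ ht0) ht0'
      (hG' _ _ ht0') (fun p _ => hw p) ha hb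
    rw [hen] at key
    have e1 : ∑ p ∈ bx (lft z) (4 * 2 ^ (k + 1)), g p ^ 2 = G2 z := by
      rw [hG2]
      simp only
      refine Finset.sum_congr rfl fun p _ => ?_
      rw [hg]
      simp only
      ring
    rw [e1] at key
    have e2 : csq k w (sft k a b (lft z)) / 4 ^ k =
        csq k χ (sft k a b z) / 4 ^ k +
          (((sft k a b (lft z)).1 : ℝ) + ((2 : ℝ) ^ k - 1) / 2) := by
      rw [hwdef, x7_cs_add k (fun p => χ (cst p)) (fun p => (p.1 : ℝ)), add_div, x7_x,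
        x7_cs_cst, x7_cst_sft]
    have e3 : csq (k + 1) w (lft z) / 4 ^ (k + 1) =
        csq (k + 1) χ z / 4 ^ (k + 1) +
          (((lft z).1 : ℝ) + ((2 : ℝ) ^ (k + 1) - 1) / 2) := by
      rw [hwdef, x7_cs_add (k + 1) (fun p => χ (cst p)) (fun p => (p.1 : ℝ)), add_div, x7_x,
        x7_cs_cst, x7_cst_lft]
    have e4 : ((sft k a b (lft z)).1 : ℝ) = ((lft z).1 : ℝ) + 2 ^ k * a := by
      unfold sft
      push_cast
      ring
    rw [e2, e3, e4] at key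
    set X : ℝ := csq k χ (sft k a b z) / 4 ^ k - csq (k + 1) χ z / 4 ^ (k + 1) with hX
    have e5 : csq k χ (sft k a b z) / 4 ^ k +
        (((lft z).1 : ℝ) + 2 ^ k * a + ((2 : ℝ) ^ k - 1) / 2) -
        (csq (k + 1) χ z / 4 ^ (k + 1) + (((lft z).1 : ℝ) + ((2 : ℝ) ^ (k + 1) - 1) / 2)) =
        X + 2 ^ k * ((a : ℝ) - 1 / 2) := by
      rw [hX, pow_succ]
      ring
    rw [e5] at key
    have e6 : (2 ^ k * ((a : ℝ) - 1 / 2)) ^ 2 = 4 ^ k / 4 := by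
      have h7 : ((a : ℝ) - 1 / 2) ^ 2 = 1 / 4 := by
        have : a = 0 ∨ a = 1 := by omega
        rcases this with rfl | rfl <;> norm_num
      rw [mul_pow, h7, ← pow_mul, mul_comm k 2, pow_mul]
      norm_num
      ring
    have e7 : X ^ 2 ≤ 2 * (X + 2 ^ k * ((a : ℝ) - 1 / 2)) ^ 2 +
        2 * (2 ^ k * ((a : ℝ) - 1 / 2)) ^ 2 := by
      nlinarith [sq_nonneg (X + 2 * (2 ^ k * ((a : ℝ) - 1 / 2)))]
    rw [e6] at e7
    refine e7.trans ?_
    have e8 : ∑ p ∈ bx (lft z) (4 * 2 ^ (k + 1)), ew h v χ (cst p) = e z := rfl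
    rw [e8] at key
    linarith
  refine (x7_ta_mono hpt).trans ?_
  have e1 : ta (fun z : Tr N => 2 * (c1 * (2 * e z + 4 * M * G2 z) + 8 / 4 ^ k * M ^ 2 * G2 z)
      + 4 ^ k / 2) = 2 * (c1 * (2 * ta e + 4 * M * ta G2) + 8 / 4 ^ k * M ^ 2 * ta G2)
      + 4 ^ k / 2 := by
    rw [x7_ta_add (fun z : Tr N => 2 * (c1 * (2 * e z + 4 * M * G2 z) +
      8 / 4 ^ k * M ^ 2 * G2 z)) (fun _ => 4 ^ k / 2), x7_ta_const, x7_ta_mul,
      x7_ta_add (fun z : Tr N => c1 * (2 * e z + 4 * M * G2 z)), x7_ta_mul,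
      x7_ta_add (fun z : Tr N => 2 * e z), x7_ta_mul, x7_ta_mul, x7_ta_mul]
  rw [e1]
  have e2 : ta e = (8 * 2 ^ (k + 1) + 1) ^ 2 * ta (ew h v χ) := by
    rw [hedef, h6 N (ew h v χ) R, hR]
    push_cast
    ring
  have e3 : ta G2 = (8 * 2 ^ (k + 1) + 1) ^ 2 * ta (fun z => (tP h v χ z / t) ^ 2) := by
    rw [hG2, h6 N (fun z => (tP h v χ z / t) ^ 2) R, hR]
    push_cast
    ring
  rw [e2, e3]
  unfold Bk
  have hS : (0 : ℝ) ≤ (8 * 2 ^ (k + 1) + 1) ^ 2 := by positivity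
  have i1 : (8 * (2 : ℝ) ^ (k + 1) + 1) ^ 2 * ta (ew h v χ) ≤
      (8 * 2 ^ (k + 1) + 1) ^ 2 * (8 * DD h χ + 1) := mul_le_mul_of_nonneg_left hew hS
  have i2 : (8 * (2 : ℝ) ^ (k + 1) + 1) ^ 2 * ta (fun z => (tP h v χ z / t) ^ 2) ≤
      (8 * 2 ^ (k + 1) + 1) ^ 2 * (DD h χ / t) := mul_le_mul_of_nonneg_left hgg hS
  have i3 := mul_le_mul_of_nonneg_left i2 (show (0 : ℝ) ≤ 4 * M by positivity)
  have i4 := mul_le_mul_of_nonneg_left i2 (show (0 : ℝ) ≤ 8 / 4 ^ k * M ^ 2 by positivity)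
  have i5 := mul_le_mul_of_nonneg_left (add_le_add (mul_le_mul_of_nonneg_left i1
    (show (0 : ℝ) ≤ 2 by norm_num)) i3) hc10
  linarith

end MHL
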