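import Pool.Agent.MHL.StX

/-!
# MHL: sums of the mean horizontal step over dyadic squares
-/

set_option autoImplicit false

namespace MHL

open Pool.Agent.Helper47.Manh (sg)

lemma x8_range (g : ℤ → ℤ) (a : ℤ) (n : ℕ) :
    ∑ j ∈ Finset.range n, g (a + j) = sm g (a + n) - sm g a := by
  induction n with
  | zero => simp
  | succ n ih =>
    rw [Finset.sum_range_succ, ih]
    have : a + ((n + 1 : ℕ) : ℤ) = (a + n) + 1 := by push_cast; ring
    rw [this, sm_succ]
    ring

lemma x8_row {N : ℕ} [NeZero N] (h : ZMod N → Bool) (y : ZMod N) (n : ℕ) :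
    ∑ j ∈ Finset.range n, (sg (h (y + (j : ZMod N))) : ℝ) =
      (sm (gs h) ((y.val : ℤ) + n) : ℝ) - sm (gs h) (y.val : ℤ) := by
  have h1 := x8_range (gs h) (y.val : ℤ) n
  have h2 : ∑ j ∈ Finset.range n, gs h ((y.val : ℤ) + (j : ℤ)) =
      ∑ j ∈ Finset.range n, sg (h (y + (j : ZMod N))) := by
    refine Finset.sum_congr rfl fun j _ => ?_
    unfold gs
    congr 2
    push_cast
    rw [ZMod.natCast_zmod_val]
  rw [h2] at h1
  exact_mod_cast h1

theorem thm_X8 : St_X8 := by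
  intro N _ h A k hA z
  have h1 : csq k (ff h) z = 2 ^ k * ((sm (gs h) ((z.2.val : ℤ) + 2 ^ k) : ℝ) -
      sm (gs h) (z.2.val : ℤ)) / 2 := by
    unfold csq ff
    simp only []
    rw [Finset.sum_const, Finset.card_range, nsmul_eq_mul, ← Finset.sum_div, x8_row]
    push_cast
    ring
  rw [h1, abs_div, abs_mul, abs_of_pos (by positivity : (0 : ℝ) < 2 ^ k),
    abs_of_pos (by norm_num : (0 : ℝ) < 2)]
  have h2 := hA (z.2.val : ℤ)
  have h3 : (0 : ℝ) < 2 ^ k := by positivity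
  have h4 := mul_le_mul_of_nonneg_left h2 h3.le
  have h5 : A * 2 ^ k * Real.sqrt (2 ^ k) / 2 = 2 ^ k * (A * Real.sqrt (2 ^ k)) / 2 := by ring
  rw [h5]
  exact div_le_div_of_nonneg_right h4 (by norm_num)

end MHL
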