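import Pool.Agent.MHL.StX

/-!
# MHL: telescoping over scales
-/

set_option autoImplicit false

namespace MHL

lemma x9_split (g : ℕ → ℕ → ℝ) (M : ℕ) :
    ∑ i ∈ Finset.range (M + M), ∑ j ∈ Finset.range (M + M), g i j =
      ∑ i ∈ Finset.range M, ∑ j ∈ Finset.range M, g i j +
      ∑ i ∈ Finset.range M, ∑ j ∈ Finset.range M, g i (M + j) +
      ∑ i ∈ Finset.range M, ∑ j ∈ Finset.range M, g (M + i) j +
      ∑ i ∈ Finset.range M, ∑ j ∈ Finset.range M, g (M + i) (M + j) := by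
  rw [Finset.sum_range_add]
  simp only [Finset.sum_range_add, Finset.sum_add_distrib]
  ring

lemma x9_cs_succ {R : Type*} [CommRing R] (k : ℕ) (f : R × R → ℝ) (z : R × R) :
    csq (k + 1) f z = csq k f (sft k 0 0 z) + csq k f (sft k 0 1 z) + csq k f (sft k 1 0 z) +
      csq k f (sft k 1 1 z) := by
  unfold csq sft
  have h2 : 2 ^ (k + 1) = 2 ^ k + 2 ^ k := by ring
  rw [h2, x9_split (fun i j => f (z.1 + (i : R), z.2 + (j : R)))]
  simp only [mul_zero, mul_one, Nat.cast_zero, add_zero, Nat.cast_add, add_assoc]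

section
variable {N : ℕ} [NeZero N]

lemma x9_ta_sum {ι : Type*} (s : Finset ι) (F : ι → Tr N → ℝ) :
    ta (fun z => ∑ i ∈ s, F i z) = ∑ i ∈ s, ta (F i) := by
  unfold ta
  rw [Finset.sum_comm, Finset.sum_div]

lemma x9_ta_mul (c : ℝ) (F : Tr N → ℝ) : ta (fun z => c * F z) = c * ta F := by
  unfold ta
  rw [← Finset.mul_sum, mul_div_assoc]

lemma x9_ta_add (F G : Tr N → ℝ) : ta (fun z => F z + G z) = ta F + ta G := by
  unfold ta
  rw [Finset.sum_add_distrib, add_div]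

lemma x9_ta_mono {F G : Tr N → ℝ} (h : ∀ z, F z ≤ G z) : ta F ≤ ta G := by
  unfold ta
  exact div_le_div_of_nonneg_right (Finset.sum_le_sum fun z _ => h z) (by positivity)

lemma x9_ta_const (c : ℝ) : ta (fun _ : Tr N => c) = c := by
  unfold ta
  rw [Finset.sum_const, Finset.card_univ, Fintype.card_prod, ZMod.card, nsmul_eq_mul]
  have : (N : ℝ) ≠ 0 := by exact_mod_cast NeZero.ne N
  push_cast
  field_simp

lemma x9_ta_nonneg {F : Tr N → ℝ} (h : ∀ z, 0 ≤ F z) : 0 ≤ ta F := by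
  unfold ta
  exact div_nonneg (Finset.sum_nonneg fun z _ => h z) (by positivity)

lemma x9_cauchy (h : St_X2) (F G : Tr N → ℝ) (K B : ℝ) (hK : 0 ≤ K) (hF : ∀ z, |F z| ≤ K)
    (hG : ta (fun z => G z ^ 2) ≤ B) : |ta (fun z => F z * G z)| ≤ K * Real.sqrt B := by
  have h1 := (h N (fun _ => false) (fun _ => false) F G).2.2.2.2.2
  have h2 : ta (fun z => F z ^ 2) ≤ K ^ 2 := by
    refine (x9_ta_mono (G := fun _ => K ^ 2) fun z => ?_).trans (x9_ta_const _).le
    exact sq_le_sq' (by have := abs_le.1 (hF z); linarith) (abs_le.1 (hF z)).2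
  have h3 : 0 ≤ ta (fun z => G z ^ 2) := x9_ta_nonneg fun z => sq_nonneg _
  have h4 : ta (fun z => F z * G z) ^ 2 ≤ K ^ 2 * B :=
    h1.trans (mul_le_mul h2 hG h3 (sq_nonneg _))
  have h5 : |ta (fun z => F z * G z)| ≤ Real.sqrt (K ^ 2 * B) := Real.abs_le_sqrt h4
  rwa [Real.sqrt_mul (sq_nonneg _), Real.sqrt_sq hK] at h5

lemma x9_trans (h : St_X2) (F : Tr N → ℝ) (a : Tr N) : ta (fun z => F (z + a)) = ta F :=
  (h N (fun _ => false) (fun _ => false) F F).2.2.1 a

lemma x9_cs_sq (h : St_X2) (χ : Tr N → ℝ) (k : ℕ) :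
    ta (fun z => csq k χ z ^ 2) ≤ 16 ^ k * ta (fun z => χ z ^ 2) := by
  have h1 : ∀ z : Tr N, csq k χ z ^ 2 ≤ 4 ^ k *
      ∑ p ∈ Finset.range (2 ^ k) ×ˢ Finset.range (2 ^ k),
        χ (z + ((p.1 : ZMod N), (p.2 : ZMod N))) ^ 2 := by
    intro z
    have e : csq k χ z = ∑ p ∈ Finset.range (2 ^ k) ×ˢ Finset.range (2 ^ k),
        χ (z + ((p.1 : ZMod N), (p.2 : ZMod N))) := by
      unfold csq
      rw [Finset.sum_product]
      rfl
    rw [e]
    have := sq_sum_le_card_mul_sum_sq (s := Finset.range (2 ^ k) ×ˢ Finset.range (2 ^ k))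
      (f := fun p : ℕ × ℕ => χ (z + ((p.1 : ZMod N), (p.2 : ZMod N))))
    refine this.trans (le_of_eq ?_)
    rw [Finset.card_product, Finset.card_range]
    push_cast
    rw [← mul_pow]
    norm_num
  refine (x9_ta_mono h1).trans (le_of_eq ?_)
  rw [x9_ta_mul, x9_ta_sum]
  have h2 : ∀ p ∈ Finset.range (2 ^ k) ×ˢ Finset.range (2 ^ k),
      ta (fun z : Tr N => χ (z + ((p.1 : ZMod N), (p.2 : ZMod N))) ^ 2) =
        ta (fun z => χ z ^ 2) := fun p _ =>
    x9_trans h (fun z => χ z ^ 2) ((p.1 : ZMod N), (p.2 : ZMod N))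
  rw [Finset.sum_congr rfl h2, Finset.sum_const, Finset.card_product, Finset.card_range,
    nsmul_eq_mul]
  push_cast
  rw [← mul_pow, ← mul_assoc, ← mul_pow]
  norm_num

end

theorem thm_X9 (h : St_X2) : St_X9 := by
  intro N _ f χ k K B hK hf
  refine ⟨?_, ?_, ?_⟩
  · unfold Ek csq
    simp
  · intro hB
    have key : ∀ a b : ℕ, a ≤ 1 → b ≤ 1 →
        |ta (fun z => csq k f (sft k a b z) *
          (csq k χ (sft k a b z) / 4 ^ k - csq (k + 1) χ z / 4 ^ (k + 1)))| ≤ K * Real.sqrt B :=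
      fun a b ha hb => x9_cauchy h _ _ K B hK (fun z => hf _) (hB a b ha hb)
    have hexp : ∀ a b : ℕ, ta (fun z => csq k f (sft k a b z) *
          (csq k χ (sft k a b z) / 4 ^ k - csq (k + 1) χ z / 4 ^ (k + 1))) =
        4 ^ k * Ek f χ k - ta (fun z => csq k f (sft k a b z) * csq (k + 1) χ z) / 4 ^ (k + 1) := by
      intro a b
      have e1 : (fun z : Tr N => csq k f (sft k a b z) *
          (csq k χ (sft k a b z) / 4 ^ k - csq (k + 1) χ z / 4 ^ (k + 1))) =
          fun z => (1 / 4 ^ k) * (csq k f (sft k a b z) * csq k χ (sft k a b z)) +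
            (-(1 / 4 ^ (k + 1))) * (csq k f (sft k a b z) * csq (k + 1) χ z) := by
        funext z; ring
      rw [e1, x9_ta_add, x9_ta_mul, x9_ta_mul]
      have e2 : ta (fun z : Tr N => csq k f (sft k a b z) * csq k χ (sft k a b z)) =
          ta (fun z => csq k f z * csq k χ z) :=
        x9_trans h (fun z => csq k f z * csq k χ z)
          ((((2 ^ k * a : ℕ) : ZMod N)), (((2 ^ k * b : ℕ) : ZMod N)))
      rw [e2]
      unfold Ek
      have h16 : (16 : ℝ) ^ k = 4 ^ k * 4 ^ k := by rw [← mul_pow]; norm_num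
      rw [h16]
      field_simp
      ring
    have hsum : ta (fun z => csq (k + 1) f z * csq (k + 1) χ z) =
        ta (fun z => csq k f (sft k 0 0 z) * csq (k + 1) χ z) +
        ta (fun z => csq k f (sft k 0 1 z) * csq (k + 1) χ z) +
        ta (fun z => csq k f (sft k 1 0 z) * csq (k + 1) χ z) +
        ta (fun z => csq k f (sft k 1 1 z) * csq (k + 1) χ z) := by
      rw [← x9_ta_add, ← x9_ta_add, ← x9_ta_add]
      congr 1
      funext z
      rw [x9_cs_succ k f z]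
      ring
    have e3 : Ek f χ (k + 1) = ta (fun z => csq (k + 1) f z * csq (k + 1) χ z) / 16 ^ (k + 1) := rfl
    have hk0 := abs_le.1 (key 0 0 (by norm_num) (by norm_num))
    have hk1 := abs_le.1 (key 0 1 (by norm_num) (by norm_num))
    have hk2 := abs_le.1 (key 1 0 (by norm_num) (by norm_num))
    have hk3 := abs_le.1 (key 1 1 (by norm_num) (by norm_num))
    rw [hexp] at hk0 hk1 hk2 hk3
    have e4 : Ek f χ k - Ek f χ (k + 1) =
        ((4 ^ k * Ek f χ k - ta (fun z => csq k f (sft k 0 0 z) * csq (k + 1) χ z) / 4 ^ (k + 1)) +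
        (4 ^ k * Ek f χ k - ta (fun z => csq k f (sft k 0 1 z) * csq (k + 1) χ z) / 4 ^ (k + 1)) +
        (4 ^ k * Ek f χ k - ta (fun z => csq k f (sft k 1 0 z) * csq (k + 1) χ z) / 4 ^ (k + 1)) +
        (4 ^ k * Ek f χ k - ta (fun z => csq k f (sft k 1 1 z) * csq (k + 1) χ z) / 4 ^ (k + 1)))
        / (4 * 4 ^ k) := by
      rw [e3, hsum]
      have h16 : (16 : ℝ) ^ (k + 1) = (4 * 4 ^ k) * 4 ^ (k + 1) := by
        have : (16 : ℝ) ^ (k + 1) = 4 ^ (k + 1) * 4 ^ (k + 1) := by rw [← mul_pow]; norm_num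
        rw [this, pow_succ]; ring
      rw [h16]
      field_simp
      ring
    have h4 : (0 : ℝ) < 4 ^ k := by positivity
    rw [e4, abs_div, abs_of_pos (show (0 : ℝ) < 4 * 4 ^ k by positivity),
      div_le_div_iff₀ (by positivity) h4]
    have h5 : |(4 ^ k * Ek f χ k - ta (fun z => csq k f (sft k 0 0 z) * csq (k + 1) χ z) / 4 ^ (k + 1)) +
        (4 ^ k * Ek f χ k - ta (fun z => csq k f (sft k 0 1 z) * csq (k + 1) χ z) / 4 ^ (k + 1)) +
        (4 ^ k * Ek f χ k - ta (fun z => csq k f (sft k 1 0 z) * csq (k + 1) χ z) / 4 ^ (k + 1)) +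
        (4 ^ k * Ek f χ k - ta (fun z => csq k f (sft k 1 1 z) * csq (k + 1) χ z) / 4 ^ (k + 1))|
        ≤ 4 * (K * Real.sqrt B) := by
      rw [abs_le]
      constructor <;> linarith [hk0.1, hk0.2, hk1.1, hk1.2, hk2.1, hk2.2, hk3.1, hk3.2]
    calc _ ≤ 4 * (K * Real.sqrt B) * 4 ^ k := mul_le_mul_of_nonneg_right h5 h4.le
      _ = K * Real.sqrt B * (4 * 4 ^ k) := by ring
  · have h1 := x9_cauchy h (csq k f) (csq k χ) K _ hK hf (x9_cs_sq h χ k)
    unfold Ek
    have h16 : (16 : ℝ) ^ k = 4 ^ k * 4 ^ k := by rw [← mul_pow]; norm_num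
    have h2 : Real.sqrt (16 ^ k * ta (fun z => χ z ^ 2)) =
        4 ^ k * Real.sqrt (ta (fun z => χ z ^ 2)) := by
      rw [h16, Real.sqrt_mul (by positivity), Real.sqrt_mul_self (by positivity)]
    rw [h2] at h1
    have h4 : (0 : ℝ) < 4 ^ k := by positivity
    rw [abs_div, abs_of_pos (show (0 : ℝ) < 16 ^ k by positivity), div_le_div_iff₀ (by positivity) h4,
      h16]
    calc _ ≤ K * (4 ^ k * Real.sqrt (ta (fun z => χ z ^ 2))) * 4 ^ k :=
          mul_le_mul_of_nonneg_right h1 h4.le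
      _ = _ := by ring

end MHL
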