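import Pool.Agent.MHL.StX

/-!
# MHL: the corrector bound in good environments (assembly of Section 8)
-/

set_option autoImplicit false

namespace MHL

theorem thm_XC (hET : St_ET) (h10 : St_X10) (h11 : St_X11) (h3 : St_X3) : St_XC := by
  intro ε hε hε1
  obtain ⟨T1, hT1⟩ := hET ε hε hε1
  obtain ⟨T2, hT2⟩ := h11 ε hε hε1
  refine ⟨max (max ⌈T1⌉₊ T2) 64, fun t N _ h v χ ht hM hM' hg hR => ?_⟩
  have ht1 : T1 ≤ (t : ℝ) := by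
    have h1 : ⌈T1⌉₊ ≤ t := le_trans (le_trans (le_max_left _ _) (le_max_left _ _)) ht
    exact (Nat.le_ceil T1).trans (by exact_mod_cast h1)
  have ht2 : T2 ≤ t := le_trans (le_trans (le_max_right _ _) (le_max_left _ _)) ht
  have ht64 : 64 ≤ t := le_trans (le_max_right _ _) ht
  have ht64' : (64 : ℝ) ≤ t := by exact_mod_cast ht64
  have htpos : (0 : ℝ) < t := by linarith
  have ht2' : 2 ≤ t := by omega
  have hone : (1 : ℝ) ≤ (t : ℝ) ^ (2 / 3 : ℝ) := Real.one_le_rpow (by linarith) (by norm_num)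
  -- choice of `m`
  obtain ⟨m, hm1, hm2⟩ : ∃ m : ℕ, (2 : ℝ) ^ m ≤ (t : ℝ) ^ (2 / 3 : ℝ) ∧
      (t : ℝ) ^ (2 / 3 : ℝ) ≤ 2 ^ (m + 1) := by
    have hf := Nat.floor_pos.2 hone
    refine ⟨Nat.log 2 ⌊(t : ℝ) ^ (2 / 3 : ℝ)⌋₊, ?_, ?_⟩
    · have h1 := Nat.pow_log_le_self 2 hf.ne'
      have h2 : ((2 ^ Nat.log 2 ⌊(t : ℝ) ^ (2 / 3 : ℝ)⌋₊ : ℕ) : ℝ) ≤
          (⌊(t : ℝ) ^ (2 / 3 : ℝ)⌋₊ : ℝ) := by exact_mod_cast h1
      push_cast at h2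
      exact h2.trans (Nat.floor_le (by positivity))
    · have h1 := Nat.lt_pow_succ_log_self (by norm_num : 1 < 2) ⌊(t : ℝ) ^ (2 / 3 : ℝ)⌋₊
      have h2 : ⌊(t : ℝ) ^ (2 / 3 : ℝ)⌋₊ + 1 ≤
          2 ^ (Nat.log 2 ⌊(t : ℝ) ^ (2 / 3 : ℝ)⌋₊ + 1) := h1
      have h3 : ((⌊(t : ℝ) ^ (2 / 3 : ℝ)⌋₊ : ℝ) + 1) ≤
          2 ^ (Nat.log 2 ⌊(t : ℝ) ^ (2 / 3 : ℝ)⌋₊ + 1) := by exact_mod_cast h2
      exact (Nat.lt_floor_add_one _).le.trans h3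
  have h23 : 4 * (t : ℝ) ^ (2 / 3 : ℝ) ≤ t := by
    have e : (t : ℝ) = (t : ℝ) ^ (2 / 3 : ℝ) * (t : ℝ) ^ (1 / 3 : ℝ) := by
      rw [← Real.rpow_add htpos]
      norm_num
    have h4 : (4 : ℝ) ≤ (t : ℝ) ^ (1 / 3 : ℝ) := by
      have : (64 : ℝ) ^ (1 / 3 : ℝ) = 4 := by
        rw [show (64 : ℝ) = 4 ^ (3 : ℝ) by norm_num, ← Real.rpow_mul (by norm_num)]
        norm_num
      rw [← this]
      exact Real.rpow_le_rpow (by norm_num) ht64' (by norm_num)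
    nlinarith [Real.rpow_pos_of_pos htpos (2 / 3 : ℝ)]
  have hD := (h3 N t h v χ ht2' hR).1
  refine hT2 t m (DD h χ) ht2 hm1 hm2 hD ?_
  refine h10 N t m h v ((t : ℝ) ^ ε) ((t : ℝ) ^ ε) ((t : ℝ) ^ (4 * ε)) χ ht2' hR
    (by positivity) (by positivity) (by positivity) ?_ hM (by linarith) ?_ ?_
  · intro a k hk
    refine hg a k ?_
    have : (2 : ℝ) ^ k ≤ 2 ^ m := pow_le_pow_right₀ (by norm_num) hk
    linarith
  · intro s c u hs hu z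
    exact hT1 t ht1 (tE h v) hM s hs c u hu z
  · intro s c u hs hu z
    exact hT1 t ht1 (tE h v).rev hM' s hs c u hu z

end MHL
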