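import Pool.Agent.MHL.StZ

/-!
# MHL: average over the coins
-/

set_option autoImplicit false

namespace MHL

open Pool.Agent.Helper47.Manh

/-- the walk started at `z`, as a displacement -/
def z1_w {N T : ℕ} (h v : ZMod N → Bool) (c : Fin T → Bool) (n : ℕ) (z : Tr N) : ℤ × ℤ :=
  walk (fun k => h (k + z.2)) (fun j => v (j + z.1)) (ext c) n

lemma z1_ext_cons {T : ℕ} (b : Bool) (c : Fin T → Bool) (i : ℕ) :
    ext (Fin.cons b c : Fin (T + 1) → Bool) (1 + i) = ext c i := by
  unfold ext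
  by_cases h : i < T
  · have h1 : 1 + i < T + 1 := by omega
    rw [dif_pos h1, dif_pos h]
    have h2 : (⟨1 + i, h1⟩ : Fin (T + 1)) = Fin.succ ⟨i, h⟩ := by
      ext; simp [add_comm]
    rw [h2, Fin.cons_succ]
  · have h1 : ¬ 1 + i < T + 1 := by omega
    rw [dif_neg h1, dif_neg h]

lemma z1_true {N T : ℕ} (h v : ZMod N → Bool) (c : Fin T → Bool) (n : ℕ) (z : Tr N) :
    (z1_w h v (Fin.cons true c : Fin (T + 1) → Bool) (n + 1) z).1 =
      sg (h z.2) + (z1_w h v c n (t1 h z)).1 := by
  unfold z1_w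
  rw [add_comm n 1, walk_add]
  have h1 : walk (fun k => h (k + z.2)) (fun j => v (j + z.1))
      (ext (Fin.cons true c : Fin (T + 1) → Bool)) 1 = (sg (h z.2), 0) := by
    rw [walk_succ]
    have h2 : ext (Fin.cons true c : Fin (T + 1) → Bool) 0 = true := by
      unfold ext
      rw [dif_pos (Nat.succ_pos T)]
      rfl
    rw [h2]
    simp
  rw [h1]
  have h3 : (fun i => ext (Fin.cons true c : Fin (T + 1) → Bool) (1 + i)) = ext c := by
    funext i; exact z1_ext_cons _ _ _
  have h4 : (fun k : ZMod N => h (k + (((sg (h z.2), (0 : ℤ)).2 : ℤ) : ZMod N) + z.2)) =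
      fun k => h (k + (t1 h z).2) := by
    funext k
    simp [t1]
  have h5 : (fun j : ZMod N => v (j + (((sg (h z.2), (0 : ℤ)).1 : ℤ) : ZMod N) + z.1)) =
      fun j => v (j + (t1 h z).1) := by
    funext j
    simp only [t1]
    congr 1
    ring
  rw [h3, h4, h5]
  rfl

lemma z1_false {N T : ℕ} (h v : ZMod N → Bool) (c : Fin T → Bool) (n : ℕ) (z : Tr N) :
    (z1_w h v (Fin.cons false c : Fin (T + 1) → Bool) (n + 1) z).1 =
      (z1_w h v c n (t2 v z)).1 := by
  unfold z1_w
  rw [add_comm n 1, walk_add]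
  have h1 : walk (fun k => h (k + z.2)) (fun j => v (j + z.1))
      (ext (Fin.cons false c : Fin (T + 1) → Bool)) 1 = (0, sg (v z.1)) := by
    rw [walk_succ]
    have h2 : ext (Fin.cons false c : Fin (T + 1) → Bool) 0 = false := by
      unfold ext
      rw [dif_pos (Nat.succ_pos T)]
      rfl
    rw [h2]
    simp
  rw [h1]
  have h3 : (fun i => ext (Fin.cons false c : Fin (T + 1) → Bool) (1 + i)) = ext c := by
    funext i; exact z1_ext_cons _ _ _
  have h4 : (fun k : ZMod N => h (k + ((((0 : ℤ), sg (v z.1)).2 : ℤ) : ZMod N) + z.2)) =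
      fun k => h (k + (t2 v z).2) := by
    funext k
    simp only [t2]
    congr 1
    ring
  have h5 : (fun j : ZMod N => v (j + ((((0 : ℤ), sg (v z.1)).1 : ℤ) : ZMod N) + z.1)) =
      fun j => v (j + (t2 v z).1) := by
    funext j
    simp [t2]
  rw [h3, h4, h5]
  simp

lemma z1_sum_succ {T : ℕ} (f : (Fin (T + 1) → Bool) → ℝ) :
    ∑ c, f c = ∑ c : Fin T → Bool, f (Fin.cons true c) + ∑ c : Fin T → Bool, f (Fin.cons false c) := by
  rw [← Equiv.sum_comp (Fin.consEquiv (fun _ : Fin (T + 1) => Bool)), Fintype.sum_prod_type]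
  simp [Fin.consEquiv]

lemma z1_main {N : ℕ} [NeZero N] (h v : ZMod N → Bool) : ∀ (T n : ℕ) (z : Tr N), n ≤ T →
    ∑ c : Fin T → Bool, ((z1_w h v c n z).1 : ℝ) = 2 ^ T * mm1 h v n z ∧
    ∑ c : Fin T → Bool, ((z1_w h v c n z).1 : ℝ) ^ 2 = 2 ^ T * mm2 h v n z := by
  intro T
  induction T with
  | zero =>
    intro n z hn
    obtain rfl : n = 0 := by omega
    simp [z1_w, mm1, mm2]
  | succ T ih =>
    intro n z hn
    rcases n with _ | n
    · simp [z1_w, mm1, mm2]
    · obtain ⟨a1, a2⟩ := ih n (t1 h z) (by omega)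
      obtain ⟨b1, b2⟩ := ih n (t2 v z) (by omega)
      have hcard : ∑ _c : Fin T → Bool, (1 : ℝ) = 2 ^ T := by simp
      have hs : ((sg (h z.2) : ℤ) : ℝ) ^ 2 = 1 := by
        have := sg_sq (h z.2)
        rw [sq]
        exact_mod_cast this
      constructor
      · rw [z1_sum_succ]
        simp only [z1_true, z1_false]
        rw [b1]
        have h1 : ∑ c : Fin T → Bool, (((sg (h z.2) + (z1_w h v c n (t1 h z)).1 : ℤ)) : ℝ) =
            2 ^ T * sg (h z.2) + 2 ^ T * mm1 h v n (t1 h z) := by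
          rw [← a1, ← hcard, Finset.sum_mul, ← Finset.sum_add_distrib]
          refine Finset.sum_congr rfl fun c _ => ?_
          push_cast
          ring
        rw [h1]
        simp only [mm1, ff, tP]
        ring
      · rw [z1_sum_succ]
        simp only [z1_true, z1_false]
        rw [b2]
        have h1 : ∑ c : Fin T → Bool, (((sg (h z.2) + (z1_w h v c n (t1 h z)).1 : ℤ)) : ℝ) ^ 2 =
            2 ^ T * 1 + 2 * sg (h z.2) * (2 ^ T * mm1 h v n (t1 h z)) +
              2 ^ T * mm2 h v n (t1 h z) := by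
          rw [← a1, ← a2, ← hcard, Finset.sum_mul, Finset.mul_sum, ← Finset.sum_add_distrib,
            ← Finset.sum_add_distrib]
          refine Finset.sum_congr rfl fun c _ => ?_
          push_cast
          linear_combination hs
        rw [h1]
        simp only [mm2, tP]
        ring

theorem thm_Z1 : St_Z1 := by
  intro N T n _ hn
  unfold Vf Av
  have h1 : ∑ ω : Om N T, ((pos ω n).1 : ℝ) ^ 2 =
      2 ^ T * ∑ h : ZMod N → Bool, ∑ v : ZMod N → Bool, mm2 h v n (0, 0) := by
    rw [Fintype.sum_prod_type, Finset.mul_sum]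
    refine Finset.sum_congr rfl fun h _ => ?_
    rw [Fintype.sum_prod_type, Finset.mul_sum]
    refine Finset.sum_congr rfl fun v _ => ?_
    rw [← (z1_main h v T n (0, 0) hn).2]
    refine Finset.sum_congr rfl fun c _ => ?_
    unfold z1_w pos
    simp
  have h2 : (Fintype.card (Om N T) : ℝ) = 2 ^ N * 2 ^ N * 2 ^ T := by
    have h3 : Fintype.card (Om N T) = 2 ^ N * 2 ^ N * 2 ^ T := by
      simp [Om, Fintype.card_prod, ZMod.card, mul_assoc]
    rw [h3]
    push_cast
    ring
  rw [h1, h2]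
  have h4 : (2 : ℝ) ^ T ≠ 0 := by positivity
  field_simp

end MHL
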