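import Pool.Agent.MHL.StZ

/-!
# MHL: Z2, translation invariance of the law of the environment
-/

set_option autoImplicit false

namespace MHL

open Pool.Agent.Helper47.Manh (sg Vf)

lemma z2_t1 {N : ℕ} (h : ZMod N → Bool) (a b : ZMod N) (z : Tr N) :
    ((t1 (fun k => h (k + b)) z).1 + a, (t1 (fun k => h (k + b)) z).2 + b) =
      t1 h (z.1 + a, z.2 + b) := by
  unfold t1
  ext
  · simp only
    ring
  · rfl

lemma z2_t2 {N : ℕ} (v : ZMod N → Bool) (a b : ZMod N) (z : Tr N) :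
    ((t2 (fun k => v (k + a)) z).1 + a, (t2 (fun k => v (k + a)) z).2 + b) =
      t2 v (z.1 + a, z.2 + b) := by
  unfold t2
  ext
  · rfl
  · simp only
    ring

lemma z2_tP {N : ℕ} (h v : ZMod N → Bool) (a b : ZMod N) (f g : Tr N → ℝ)
    (hfg : ∀ z, f z = g (z.1 + a, z.2 + b)) (z : Tr N) :
    tP (fun k => h (k + b)) (fun k => v (k + a)) f z = tP h v g (z.1 + a, z.2 + b) := by
  unfold tP
  rw [hfg, hfg, z2_t1, z2_t2]

lemma z2_mm1 {N : ℕ} (h v : ZMod N → Bool) (a b : ZMod N) (n : ℕ) : ∀ z : Tr N,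
    mm1 (fun k => h (k + b)) (fun k => v (k + a)) n z = mm1 h v n (z.1 + a, z.2 + b) := by
  induction n with
  | zero => intro z; rfl
  | succ n ih =>
    intro z
    show ff (fun k => h (k + b)) z + tP (fun k => h (k + b)) (fun k => v (k + a))
      (mm1 (fun k => h (k + b)) (fun k => v (k + a)) n) z =
      ff h (z.1 + a, z.2 + b) + tP h v (mm1 h v n) (z.1 + a, z.2 + b)
    rw [z2_tP h v a b _ _ ih z]
    rfl

lemma z2_mm2 {N : ℕ} (h v : ZMod N → Bool) (a b : ZMod N) (n : ℕ) : ∀ z : Tr N,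
    mm2 (fun k => h (k + b)) (fun k => v (k + a)) n z = mm2 h v n (z.1 + a, z.2 + b) := by
  induction n with
  | zero => intro z; rfl
  | succ n ih =>
    intro z
    show 1 / 2 + (sg (h (z.2 + b)) : ℝ) * mm1 (fun k => h (k + b)) (fun k => v (k + a)) n
        (t1 (fun k => h (k + b)) z) + tP (fun k => h (k + b)) (fun k => v (k + a))
      (mm2 (fun k => h (k + b)) (fun k => v (k + a)) n) z =
      1 / 2 + (sg (h (z.2 + b)) : ℝ) * mm1 h v n (t1 h (z.1 + a, z.2 + b)) +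
        tP h v (mm2 h v n) (z.1 + a, z.2 + b)
    rw [z2_tP h v a b _ _ ih z, z2_mm1, z2_t1]

lemma z2_sh {N : ℕ} [NeZero N] (b : ZMod N) (F : (ZMod N → Bool) → ℝ) :
    ∑ h : ZMod N → Bool, F (fun k => h (k + b)) = ∑ h : ZMod N → Bool, F h :=
  (((Equiv.addRight b).symm).arrowCongr (Equiv.refl Bool)).sum_comp F

theorem thm_Z2 : St_Z2 := by
  intro N n _
  have hN : (N : ℝ) ≠ 0 := by
    have := NeZero.ne N
    exact_mod_cast this
  have key : ∀ z : Tr N, ∑ h : ZMod N → Bool, ∑ v : ZMod N → Bool, mm2 h v n z =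
      ∑ h : ZMod N → Bool, ∑ v : ZMod N → Bool, mm2 h v n (0, 0) := by
    rintro ⟨a, b⟩
    rw [← z2_sh b (fun h => ∑ v : ZMod N → Bool, mm2 h v n (0, 0))]
    refine Finset.sum_congr rfl fun h _ => ?_
    rw [← z2_sh a (fun v => mm2 (fun k => h (k + b)) v n (0, 0))]
    refine Finset.sum_congr rfl fun v _ => ?_
    rw [z2_mm2 h v a b n (0, 0)]
    simp
  unfold ta
  have h1 : ∀ h : ZMod N → Bool, ∑ v : ZMod N → Bool, (∑ z, mm2 h v n z) / (N : ℝ) ^ 2 =
      (∑ z, ∑ v : ZMod N → Bool, mm2 h v n z) / (N : ℝ) ^ 2 := by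
    intro h
    rw [← Finset.sum_div, Finset.sum_comm]
  have h2 : ∑ h : ZMod N → Bool, ∑ z, ∑ v : ZMod N → Bool, mm2 h v n z =
      ∑ z, ∑ h : ZMod N → Bool, ∑ v : ZMod N → Bool, mm2 h v n z := Finset.sum_comm
  rw [Finset.sum_congr rfl (fun h _ => h1 h), ← Finset.sum_div, h2,
    Finset.sum_congr rfl (fun z _ => key z), Finset.sum_const, Finset.card_univ, nsmul_eq_mul]
  have hc : ((Fintype.card (Tr N) : ℕ) : ℝ) = (N : ℝ) ^ 2 := by
    rw [Fintype.card_prod, ZMod.card]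
    push_cast
    ring
  rw [hc]
  field_simp

end MHL
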