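import Pool.Agent.MHL.ZF
import Pool.Agent.Helper47.Manh.Model

/-!
# MHL: the upper bound `t^{4/3 + ε}` for the time averages of `V`, from the partial results
-/

set_option autoImplicit false

namespace MHL

open Pool.Agent.Helper47.Manh (sg Vf V V_eq)
open Filter

/-- averaging -/
lemma zg_avg (hMT : St_MT) (hXC : St_XC) (h1 : St_X1) (h3 : St_X3) (h13 : St_X13)
    (hPB : St_PB) (hZ1 : St_Z1) (hZ2 : St_Z2) (ε : ℝ) (hε : 0 < ε) (hε1 : ε ≤ 1 / 2) :
    ∃ T0 : ℕ, ∀ t : ℕ, T0 ≤ t → (∑ n ∈ Finset.range (t + 1), V n) ≤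
      2 * (4 * (t : ℝ) ^ 2 * (1 / 2 + 2 * (t : ℝ) ^ (1 / 3 + 24 * ε)) +
        3 * (1 / 2 + 2 * (t : ℝ))) := by
  obtain ⟨ε', hε', T1, hT1⟩ := zf_quenched hMT hXC h1 h3 h13 ε hε hε1
  obtain ⟨T2, hT2⟩ := hPB ε' hε'
  obtain ⟨T3, hT3⟩ := hPB ε hε
  refine ⟨max (max T1 (max T2 T3)) 4, fun t ht => ?_⟩
  have ht1 : T1 ≤ t := le_trans (le_trans (le_max_left _ _) (le_max_left _ _)) ht
  have ht2 : T2 ≤ 4 * t := by
    have : T2 ≤ t := le_trans (le_trans (le_trans (le_max_left _ _) (le_max_right _ _))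
      (le_max_left _ _)) ht
    omega
  have ht3 : T3 ≤ 4 * t := by
    have : T3 ≤ t := le_trans (le_trans (le_trans (le_max_right _ _) (le_max_right _ _))
      (le_max_left _ _)) ht
    omega
  have ht4 : 4 ≤ t := le_trans (le_max_right _ _) ht
  have ht4' : (4 : ℝ) ≤ t := by exact_mod_cast ht4
  obtain ⟨N, hN⟩ : ∃ N : ℕ, N = 128 * (4 * t) := ⟨_, rfl⟩
  have : NeZero N := ⟨by omega⟩
  classical
  set G1 : (ZMod N → Bool) → Prop := fun h =>
    ∀ lo : ℤ, Good (((4 * t : ℕ) : ℝ) ^ ε') (gs h) lo (lo + (16 * (4 * t) : ℕ)) with hG1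
  set G2 : (ZMod N → Bool) → Prop := fun h =>
    ∀ lo : ℤ, Good (((4 * t : ℕ) : ℝ) ^ ε) (gs h) lo (lo + (16 * (4 * t) : ℕ)) with hG2
  have hp1 : pb (fun h => ¬ G1 h) ≤ 1 / ((4 * t : ℕ) : ℝ) ^ 2 := hT2 (4 * t) N ht2 hN
  have hp2 : pb (fun h => ¬ G2 h) ≤ 1 / ((4 * t : ℕ) : ℝ) ^ 2 := hT3 (4 * t) N ht3 hN
  set i1 : (ZMod N → Bool) → ℝ := fun h => if ¬ G1 h then (1 : ℝ) else 0 with hi1
  set i2 : (ZMod N → Bool) → ℝ := fun h => if ¬ G2 h then (1 : ℝ) else 0 with hi2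
  have hi1n : ∀ h, 0 ≤ i1 h := fun h => by rw [hi1]; dsimp only; split_ifs <;> norm_num
  have hi2n : ∀ h, 0 ≤ i2 h := fun h => by rw [hi2]; dsimp only; split_ifs <;> norm_num
  set a : ℝ := 4 * (t : ℝ) ^ 2 * (1 / 2 + 2 * (t : ℝ) ^ (1 / 3 + 24 * ε)) with ha
  set b : ℝ := 4 * (t : ℝ) ^ 2 * (1 / 2 + 2 * (t : ℝ)) with hb
  have ha0 : 0 ≤ a := by positivity
  have hb0 : 0 ≤ b := by positivity
  have hW : ∀ h v : ZMod N → Bool, ∑ n ∈ Finset.range (t + 1), ta (mm2 h v n) ≤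
      a + (i1 h + i1 v + i2 h) * b := by
    intro h v
    obtain ⟨hA, hB⟩ := hT1 t N h v ht1
    by_cases g1 : G1 h
    · by_cases g2 : G1 v
      · by_cases g3 : G2 h
        · have := hA g1 g2 g3
          have h0 : 0 ≤ (i1 h + i1 v + i2 h) * b :=
            mul_nonneg (by linarith [hi1n h, hi1n v, hi2n h]) hb0
          linarith
        · have e : i2 h = 1 := by rw [hi2]; simp [g3]
          have : b ≤ (i1 h + i1 v + i2 h) * b := by
            nlinarith [hi1n h, hi1n v]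
          linarith
      · have e : i1 v = 1 := by rw [hi1]; simp [g2]
        have : b ≤ (i1 h + i1 v + i2 h) * b := by
          nlinarith [hi1n h, hi2n h]
        linarith
    · have e : i1 h = 1 := by rw [hi1]; simp [g1]
      have : b ≤ (i1 h + i1 v + i2 h) * b := by
        nlinarith [hi1n v, hi2n h]
      linarith
  have hc : (Fintype.card (ZMod N → Bool) : ℝ) = 2 ^ N := by
    rw [Fintype.card_fun, ZMod.card, Fintype.card_bool]
    push_cast
    ring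
  have h2N : (0 : ℝ) < 2 ^ N := by positivity
  have hs1 : (∑ h, i1 h) = pb (fun h => ¬ G1 h) * 2 ^ N := by
    unfold pb ea
    rw [div_mul_cancel₀ _ h2N.ne']
    refine Finset.sum_congr rfl fun h _ => ?_
    have e1 : i1 h = if ¬ G1 h then (1 : ℝ) else 0 := rfl
    rw [e1]
    by_cases hh : G1 h
    · simp only [hh, not_true_eq_false, if_false]
    · simp only [hh, not_false_eq_true, if_true]
  have hs2 : (∑ h, i2 h) = pb (fun h => ¬ G2 h) * 2 ^ N := by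
    unfold pb ea
    rw [div_mul_cancel₀ _ h2N.ne']
    refine Finset.sum_congr rfl fun h _ => ?_
    have e1 : i2 h = if ¬ G2 h then (1 : ℝ) else 0 := rfl
    rw [e1]
    by_cases hh : G2 h
    · simp only [hh, not_true_eq_false, if_false]
    · simp only [hh, not_false_eq_true, if_true]
  have hsum : ∑ h : ZMod N → Bool, ∑ v : ZMod N → Bool,
      ∑ n ∈ Finset.range (t + 1), ta (mm2 h v n) ≤
      (2 ^ N * 2 ^ N) * (a + (2 * pb (fun h => ¬ G1 h) + pb (fun h => ¬ G2 h)) * b) := by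
    calc _ ≤ ∑ h : ZMod N → Bool, ∑ v : ZMod N → Bool, (a + (i1 h + i1 v + i2 h) * b) :=
          Finset.sum_le_sum fun h _ => Finset.sum_le_sum fun v _ => hW h v
      _ = ∑ h : ZMod N → Bool, ((2 ^ N) * (a + (i1 h + i2 h) * b) + (∑ v, i1 v) * b) := by
          refine Finset.sum_congr rfl fun h _ => ?_
          rw [Finset.sum_mul, ← hc, ← nsmul_eq_mul, ← Finset.card_univ, ← Finset.sum_const,
            ← Finset.sum_add_distrib]
          refine Finset.sum_congr rfl fun v _ => ?_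
          ring
      _ = (2 ^ N) * ((2 ^ N) * a + ((∑ h, i1 h) + ∑ h, i2 h) * b) +
            (2 ^ N) * ((∑ v, i1 v) * b) := by
          rw [Finset.sum_add_distrib, Finset.sum_const, Finset.card_univ, nsmul_eq_mul, hc,
            ← Finset.mul_sum]
          congr 2
          rw [Finset.sum_add_distrib, Finset.sum_const, Finset.card_univ, nsmul_eq_mul, hc,
            ← Finset.sum_mul, Finset.sum_add_distrib]
      _ = _ := by rw [hs1, hs2]; ring
  have hVf : ∀ n ∈ Finset.range (t + 1), V n = 2 * ((∑ h : ZMod N → Bool,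
      ∑ v : ZMod N → Bool, ta (mm2 h v n)) / (2 ^ N * 2 ^ N)) := by
    intro n hn
    rw [Finset.mem_range] at hn
    rw [V_eq N t n (by omega) (by omega), hZ1 N t n (by omega), hZ2 N n]
  rw [Finset.sum_congr rfl hVf, ← Finset.mul_sum, ← Finset.sum_div]
  refine mul_le_mul_of_nonneg_left ?_ (by norm_num)
  rw [div_le_iff₀ (by positivity)]
  have hcomm : ∑ n ∈ Finset.range (t + 1), ∑ h : ZMod N → Bool, ∑ v : ZMod N → Bool,
      ta (mm2 h v n) = ∑ h : ZMod N → Bool, ∑ v : ZMod N → Bool,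
      ∑ n ∈ Finset.range (t + 1), ta (mm2 h v n) := by
    rw [Finset.sum_comm]
    refine Finset.sum_congr rfl fun h _ => ?_
    rw [Finset.sum_comm]
  rw [hcomm]
  refine hsum.trans ?_
  rw [mul_comm (2 ^ N * 2 ^ N : ℝ)]
  refine mul_le_mul_of_nonneg_right ?_ (by positivity)
  have h5 : (2 * pb (fun h => ¬ G1 h) + pb (fun h => ¬ G2 h)) * b ≤
      (3 * (1 / ((4 * t : ℕ) : ℝ) ^ 2)) * b :=
    mul_le_mul_of_nonneg_right (by linarith) hb0
  have h6 : (3 * (1 / ((4 * t : ℕ) : ℝ) ^ 2)) * b ≤ 3 * (1 / 2 + 2 * (t : ℝ)) := by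
    rw [hb]
    push_cast
    have ht0 : (0 : ℝ) < t := by linarith
    have e : 3 * (1 / (4 * (t : ℝ)) ^ 2) * (4 * (t : ℝ) ^ 2 * (1 / 2 + 2 * (t : ℝ))) =
        3 / 4 * (1 / 2 + 2 * (t : ℝ)) := by
      field_simp
    rw [e]
    nlinarith
  linarith

/-- the time averages of `V` are at most `t^{4/3+ε}` -/
theorem zg_upper (hMT : St_MT) (hXC : St_XC) (h1 : St_X1) (h3 : St_X3) (h13 : St_X13)
    (hPB : St_PB) (hZ1 : St_Z1) (hZ2 : St_Z2) :
    ∀ ε : ℝ, 0 < ε → ∀ᶠ t : ℕ in atTop,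
      (∑ s ∈ Finset.range (t + 1), V s) / t ≤ (t : ℝ) ^ ((4 : ℝ) / 3 + ε) := by
  intro ε hε
  set δ : ℝ := min (ε / 48) (1 / 2) with hδ
  have hδ0 : 0 < δ := by rw [hδ]; exact lt_min (by linarith) (by norm_num)
  have hδ1 : δ ≤ 1 / 2 := min_le_right _ _
  have hδ2 : 24 * δ ≤ ε / 2 := by
    have : δ ≤ ε / 48 := min_le_left _ _
    linarith
  obtain ⟨T0, hT0⟩ := zg_avg hMT hXC h1 h3 h13 hPB hZ1 hZ2 δ hδ0 hδ1
  have h6 : Tendsto (fun T : ℕ => (T : ℝ) ^ (ε / 2)) atTop atTop :=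
    (tendsto_rpow_atTop (by linarith)).comp tendsto_natCast_atTop_atTop
  filter_upwards [h6.eventually_ge_atTop 40, eventually_ge_atTop T0, eventually_ge_atTop 4] with
    t ht40 htT ht4
  have ht4' : (4 : ℝ) ≤ t := by exact_mod_cast ht4
  have ht0 : (0 : ℝ) < t := by linarith
  have hS := hT0 t htT
  rw [div_le_iff₀ ht0]
  refine hS.trans ?_
  set x : ℝ := (t : ℝ) ^ (1 / 3 + 24 * δ) with hx
  have hx1 : 1 ≤ x := Real.one_le_rpow (by linarith) (by linarith)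
  have hxle : x ≤ (t : ℝ) ^ (1 / 3 + ε / 2) :=
    Real.rpow_le_rpow_of_exponent_le (by linarith) (by linarith)
  have e1 : (t : ℝ) ^ ((4 : ℝ) / 3 + ε) * t =
      (t : ℝ) ^ 2 * ((t : ℝ) ^ (1 / 3 + ε / 2) * (t : ℝ) ^ (ε / 2)) := by
    rw [← Real.rpow_natCast (t : ℝ) 2, ← Real.rpow_add ht0, ← Real.rpow_add ht0]
    nth_rewrite 2 [← Real.rpow_one (t : ℝ)]
    rw [← Real.rpow_add ht0]
    congr 1
    push_cast
    ring
  rw [e1]
  have h7 : x * 40 ≤ (t : ℝ) ^ (1 / 3 + ε / 2) * (t : ℝ) ^ (ε / 2) :=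
    mul_le_mul hxle ht40 (by norm_num) (by positivity)
  have h8 : 2 * (4 * (t : ℝ) ^ 2 * (1 / 2 + 2 * x) + 3 * (1 / 2 + 2 * (t : ℝ))) ≤
      (t : ℝ) ^ 2 * (x * 40) := by
    have h9 : (t : ℝ) * 4 ≤ (t : ℝ) ^ 2 := by nlinarith
    have h10 : (t : ℝ) ^ 2 ≤ (t : ℝ) ^ 2 * x := le_mul_of_one_le_right (by positivity) hx1
    nlinarith
  exact h8.trans (mul_le_mul_of_nonneg_left h7 (by positivity))

end MHL
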