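import Pool.Agent.MHL.AllMT
import Pool.Agent.MHL.E1
import Pool.Agent.MHL.E2
import Pool.Agent.MHL.E3
import Pool.Agent.MHL.E4
import Pool.Agent.MHL.E5
import Pool.Agent.MHL.E6
import Pool.Agent.MHL.E7
import Pool.Agent.MHL.E8
import Pool.Agent.MHL.E9
import Pool.Agent.MHL.E9a
import Pool.Agent.MHL.E10
import Pool.Agent.MHL.ET
import Pool.Agent.MHL.P0
import Pool.Agent.MHL.P1
import Pool.Agent.MHL.P2
import Pool.Agent.MHL.P3
import Pool.Agent.MHL.P4
import Pool.Agent.MHL.P5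
import Pool.Agent.MHL.P6
import Pool.Agent.MHL.P6a
import Pool.Agent.MHL.P6b
import Pool.Agent.MHL.P7a
import Pool.Agent.MHL.P7b
import Pool.Agent.MHL.P7c
import Pool.Agent.MHL.X1
import Pool.Agent.MHL.X2
import Pool.Agent.MHL.X3
import Pool.Agent.MHL.X4
import Pool.Agent.MHL.X5
import Pool.Agent.MHL.X6
import Pool.Agent.MHL.X7
import Pool.Agent.MHL.X8
import Pool.Agent.MHL.X9
import Pool.Agent.MHL.X10
import Pool.Agent.MHL.X11
import Pool.Agent.MHL.XC
import Pool.Agent.MHL.X13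
import Pool.Agent.MHL.X13a
import Pool.Agent.MHL.Z1
import Pool.Agent.MHL.Z2
import Pool.Agent.MHL.ZG

/-!
# MHL: `log V(t) / log t → 4/3` for the walk on the randomly oriented Manhattan lattice
-/

set_option autoImplicit false

namespace MHL

open Filter
open Pool.Agent.Helper47.Manh (V facts equiv43)

theorem allPB : St_PB := by
  have p5 := thm_P5 thm_P0 thm_P1 thm_P3
  have p6 := thm_P6 thm_P6a (thm_P6b thm_P0 thm_P1 thm_P4)
  exact PB_of (thm_P7b thm_P0 thm_P2 p5 p6 thm_P7a) thm_P7c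

theorem allET : St_ET := by
  have e2 := thm_E2 thm_E1
  have e3 := thm_E3 e2
  have e5 := thm_E5 thm_E1 e2
  have e7 := thm_E7 thm_E1 e2
  have e8 := thm_E8 e2
  exact thm_ET e5 (thm_E9 e3 e5 thm_E6 e7 e8 thm_E9a e2) thm_E10

theorem allXC : St_XC := by
  have e2 := thm_E2 thm_E1
  have e3 := thm_E3 e2
  have e4 := thm_E4 e2 e3
  have x3 := thm_X3 thm_X2
  have x5 := thm_X5 thm_E1 e3 e4
  have x7 := thm_X7 x3 thm_X4 x5 (thm_X6 thm_X2) e3
  exact thm_XC allET (thm_X10 x3 x7 thm_X8 (thm_X9 thm_X2)) thm_X11 x3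

/-- the time averages of `E |X_t|^2` are eventually at most `t^{4/3+ε}` -/
theorem upper : ∀ ε : ℝ, 0 < ε → ∀ᶠ t : ℕ in atTop,
    (∑ s ∈ Finset.range (t + 1), V s) / t ≤ (t : ℝ) ^ ((4 : ℝ) / 3 + ε) :=
  zg_upper allMT allXC thm_X1 (thm_X3 thm_X2)
    (thm_X13 thm_X1 (thm_X3 thm_X2) (thm_X13a thm_X2)) allPB thm_Z1 thm_Z2

/-- the law `E |X_t|^2 = t^{4/3 + o(1)}` -/
theorem law43 : Tendsto (fun t : ℕ => Real.log (V t) / Real.log (t : ℝ)) atTop (nhds (4 / 3 : ℝ)) :=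
  (equiv43 facts).2 upper

end MHL
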