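import Pool.Agent.MHL.StP

/-!
# MHL / P5: small oscillation on a window is unlikely
-/

set_option autoImplicit false

namespace MHL

open Pool.Agent.Helper47.Manh (sg)

lemma p5_diff {N : ℕ} (h : ZMod N → Bool) (b : ℤ) (m : ℕ) :
    sm (gs h) (b + m) - sm (gs h) b =
      ts (fun i : Fin m => h ((b + (i : ℕ) : ℤ) : ZMod N)) := by
  unfold ts
  rw [Fin.sum_univ_eq_sum_range (fun i : ℕ => sg (h ((b + (i : ℕ) : ℤ) : ZMod N))) m]
  induction m with
  | zero => simp
  | succ m ih =>
    rw [Finset.sum_range_succ, ← ih, show b + ((m + 1 : ℕ) : ℤ) = (b + m) + 1 by push_cast; ring,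
      sm_succ]
    unfold gs
    ring

/-- indicator of the event that block `j` has a small increment -/
noncomputable def p5_B {N : ℕ} (a : ℤ) (m j : ℕ) (h : ZMod N → Bool) : ℝ :=
  if |(ts (fun i : Fin m => h ((a + ((j * m : ℕ) : ℤ) + (i : ℕ) : ℤ) : ZMod N)) : ℝ)| <
    Real.sqrt m / 2 then (1 : ℝ) else 0

lemma p5_B_nonneg {N : ℕ} (a : ℤ) (m j : ℕ) (h : ZMod N → Bool) : 0 ≤ p5_B a m j h := by
  unfold p5_B
  split_ifs <;> norm_num

lemma p5_ea_mono {N : ℕ} [NeZero N] {F G : (ZMod N → Bool) → ℝ} (h : ∀ x, F x ≤ G x) :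
    ea F ≤ ea G := by
  unfold ea
  exact div_le_div_of_nonneg_right (Finset.sum_le_sum fun x _ => h x) (by positivity)

lemma p5_ea_one {N : ℕ} [NeZero N] : ea (fun _ : ZMod N → Bool => (1 : ℝ)) = 1 := by
  unfold ea
  rw [Finset.sum_const, Finset.card_univ, Fintype.card_fun, ZMod.card, Fintype.card_bool]
  simp

lemma p5_B_congr {N : ℕ} (a : ℤ) (m j : ℕ) {h h' : ZMod N → Bool}
    (hh : ∀ i : ℕ, i < m → h ((a + ((j * m : ℕ) : ℤ) + (i : ℕ) : ℤ) : ZMod N) =
      h' ((a + ((j * m : ℕ) : ℤ) + (i : ℕ) : ℤ) : ZMod N)) : p5_B a m j h = p5_B a m j h' := by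
  unfold p5_B
  have : (fun i : Fin m => h ((a + ((j * m : ℕ) : ℤ) + (i : ℕ) : ℤ) : ZMod N)) =
      (fun i : Fin m => h' ((a + ((j * m : ℕ) : ℤ) + (i : ℕ) : ℤ) : ZMod N)) := by
    funext i
    exact hh i i.2
  rw [this]

lemma p5_prod (h0 : St_P0) (h1 : St_P1) (h3 : St_P3) (N : ℕ) [NeZero N] (a : ℤ) (m : ℕ)
    (hm : 1 ≤ m) : ∀ k : ℕ, k * m ≤ N →
    ea (fun h : ZMod N → Bool => ∏ j ∈ Finset.range k, p5_B a m j h) ≤ (13 / 16) ^ k := by
  intro k
  induction k with
  | zero =>
    intro _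
    simp only [Finset.range_zero, Finset.prod_empty, pow_zero]
    rw [p5_ea_one]
  | succ k ih =>
    intro hk
    have hk1 : k * m + m ≤ N := by
      have : (k + 1) * m = k * m + m := by ring
      omega
    have ih' := ih (by omega)
    simp only [Finset.prod_range_succ]
    have hind := h1 N {x : ZMod N | ∃ i : ℕ, i < k * m ∧ x = ((a + (i : ℕ) : ℤ) : ZMod N)}
      (fun h => ∏ j ∈ Finset.range k, p5_B a m j h) (fun h => p5_B a m k h) ?_ ?_
    · rw [hind, pow_succ]
      have hG : ea (fun h : ZMod N → Bool => p5_B a m k h) ≤ 13 / 16 := by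
        have h4 := h0 N (a + ((k * m : ℕ) : ℤ)) m
          (fun c => if |(ts c : ℝ)| < Real.sqrt m / 2 then (1 : ℝ) else 0) (by omega)
        have h5 : ea (fun h : ZMod N → Bool => p5_B a m k h) =
            fa (fun c : Fin m → Bool => if |(ts c : ℝ)| < Real.sqrt m / 2 then (1 : ℝ) else 0) :=
          h4
        rw [h5]
        exact h3 m hm
      have hG0 : 0 ≤ ea (fun h : ZMod N → Bool => p5_B a m k h) := by
        unfold ea
        exact div_nonneg (Finset.sum_nonneg fun h _ => p5_B_nonneg a m k h) (by positivity)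
      exact mul_le_mul ih' hG hG0 (by positivity)
    · intro h h' hh
      apply Finset.prod_congr rfl
      intro j hj
      apply p5_B_congr
      intro i hi
      apply hh
      refine ⟨j * m + i, ?_, ?_⟩
      · have hj1 : j + 1 ≤ k := Finset.mem_range.1 hj
        have hj2 : (j + 1) * m ≤ k * m := Nat.mul_le_mul_right m hj1
        have hj3 : (j + 1) * m = j * m + m := by ring
        omega
      · congr 1
        push_cast
        ring
    · intro h h' hh
      apply p5_B_congr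
      intro i hi
      apply hh
      rintro ⟨i', hi', he⟩
      rw [ZMod.intCast_eq_intCast_iff_dvd_sub] at he
      have h6 : (N : ℤ) ∣ ((k * m : ℕ) : ℤ) + i - i' := by
        have h7 : ((k * m : ℕ) : ℤ) + i - i' =
            -((a + (i' : ℤ)) - (a + ((k * m : ℕ) : ℤ) + i)) := by ring
        rw [h7]
        exact (dvd_neg).2 he
      have h8 := Int.le_of_dvd (by omega) h6
      omega

theorem thm_P5 (h0 : St_P0) (h1 : St_P1) (h3 : St_P3) : St_P5 := by
  intro N _ a n k m y hm hkm hnN hy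
  refine le_trans ?_ (p5_prod h0 h1 h3 N a m hm k (hkm.trans hnN))
  unfold pb
  apply p5_ea_mono
  intro h
  have hprod0 : 0 ≤ ∏ j ∈ Finset.range k, p5_B a m j h :=
    Finset.prod_nonneg fun j _ => p5_B_nonneg a m j h
  split_ifs with hS
  · rw [Finset.prod_eq_one]
    intro j hj
    have hj1 : j + 1 ≤ k := Finset.mem_range.1 hj
    have hj2 : (j + 1) * m ≤ k * m := Nat.mul_le_mul_right m hj1
    have hj3 : (j + 1) * m = j * m + m := by ring
    have hd := p5_diff h (a + ((j * m : ℕ) : ℤ)) m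
    have hA := hS (a + ((j * m : ℕ) : ℤ) + m) (a + ((j * m : ℕ) : ℤ)) (by omega) (by omega)
      (by omega) (by omega)
    have hB := hS (a + ((j * m : ℕ) : ℤ)) (a + ((j * m : ℕ) : ℤ) + m) (by omega) (by omega)
      (by omega) (by omega)
    unfold p5_B
    rw [if_pos]
    rw [← hd]
    push_cast at hA hB ⊢
    rw [abs_lt]
    constructor <;> linarith
  · exact hprod0

end MHL
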