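import Pool.Agent.MHL.StC

/-!
# MHL [Par]: existence of the parameters of the growth lemma

All the parameters are expressed by `Z = T ^ (ε / 1000)` and `x = √(2 ^ s)`:
`K1 = Z ^ 40`, `φ = x / Z ^ 15`, `n = ⌈Z ^ 400⌉`, `d = ⌊φ² / (2 A²)⌋`, `2 ^ k0 ≈ x² / Z ^ 360`,
`2 ^ (a j) ≈ Z ^ 20`, `L = Z ^ 1000`, `e ≤ x / Z ^ 990`.
-/

set_option autoImplicit false

namespace MHL

lemma par_c5 {Z x e m : ℝ} (hZ : 10 ^ 10 ≤ Z) (hx : 1 ≤ x) (he0 : 0 < e) (he : e * Z ^ 990 ≤ x)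
    (hm0 : 0 ≤ m) (hm : m ≤ 2 * Z ^ 400) :
    128 * (m + 1) ^ 2 * e + 80 * (m + 1) * Real.sqrt (Z ^ 40 * e) ≤ (x / Z ^ 15) / 4 := by
  have hZ1 : (1 : ℝ) ≤ Z := le_trans (by norm_num) hZ
  have hZ0 : (0 : ℝ) < Z := by linarith
  have hmm : m + 1 ≤ 3 * Z ^ 400 := by
    have : (1 : ℝ) ≤ Z ^ 400 := one_le_pow₀ hZ1
    linarith
  have h1 : 128 * (m + 1) ^ 2 * e ≤ x / Z ^ 15 / 8 := by
    rw [le_div_iff₀ (by norm_num), le_div_iff₀ (by positivity)]
    calc 128 * (m + 1) ^ 2 * e * 8 * Z ^ 15 ≤ 128 * (3 * Z ^ 400) ^ 2 * e * 8 * Z ^ 15 := by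
          gcongr
      _ = 9216 * (e * Z ^ 815) := by ring
      _ ≤ Z * (e * Z ^ 815) := by
          apply mul_le_mul_of_nonneg_right _ (by positivity)
          exact le_trans (by norm_num) hZ
      _ = e * Z ^ 816 := by ring
      _ ≤ e * Z ^ 990 := by
          apply mul_le_mul_of_nonneg_left _ he0.le
          exact pow_le_pow_right₀ hZ1 (by norm_num)
      _ ≤ x := he
  have h2 : Real.sqrt (Z ^ 40 * e) ≤ x / Z ^ 475 := by
    rw [Real.sqrt_le_iff]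
    refine ⟨by positivity, ?_⟩
    rw [div_pow, le_div_iff₀ (by positivity)]
    calc Z ^ 40 * e * (Z ^ 475) ^ 2 = e * Z ^ 990 := by ring
      _ ≤ x := he
      _ ≤ x ^ 2 := by nlinarith
  have h3 : 80 * (m + 1) * Real.sqrt (Z ^ 40 * e) ≤ x / Z ^ 15 / 8 := by
    calc 80 * (m + 1) * Real.sqrt (Z ^ 40 * e) ≤ 80 * (3 * Z ^ 400) * (x / Z ^ 475) := by
          gcongr
      _ ≤ x / Z ^ 15 / 8 := by
          rw [le_div_iff₀ (by norm_num), le_div_iff₀ (by positivity), ← mul_div_assoc,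
            div_mul_eq_mul_div, div_mul_eq_mul_div, div_le_iff₀ (by positivity)]
          calc 80 * (3 * Z ^ 400) * x * 8 * Z ^ 15 = 1920 * (x * Z ^ 415) := by ring
            _ ≤ Z * (x * Z ^ 415) := by
                apply mul_le_mul_of_nonneg_right _ (by positivity)
                exact le_trans (by norm_num) hZ
            _ = x * Z ^ 416 := by ring
            _ ≤ x * Z ^ 475 := by
                apply mul_le_mul_of_nonneg_left _ (by linarith)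
                exact pow_le_pow_right₀ hZ1 (by norm_num)
  linarith

lemma par_c6 {Z x e m A D B : ℝ} (hZ : 10 ^ 10 ≤ Z) (hx : 1 ≤ x) (he0 : 0 < e)
    (he : e * Z ^ 990 ≤ x) (hm0 : Z ^ 400 ≤ m) (hm : m ≤ 2 * Z ^ 400) (hA1 : 1 ≤ A)
    (hA : A ^ 3 ≤ Z) (hD : x ^ 2 / (4 * A ^ 2 * Z ^ 30) ≤ D) (hB0 : 0 < B)
    (hB : B ≤ x ^ 2 / Z ^ 360) (hB2 : x ^ 2 / Z ^ 360 ≤ 2 * B) :
    (3 + 4 * (20 * x ^ 2 / D + 3)) * (6 * x ^ 2 / B +
      8 * (A * (2000 * (m + 1) * Real.sqrt (Z ^ 40 * Z ^ 1000 * e) * B ^ (1 / 4 : ℝ)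
        + 2 * m * Real.sqrt B)) / (x / Z ^ 15) + 3) ≤ m / 2 := by
  have hZ1 : (1 : ℝ) ≤ Z := le_trans (by norm_num) hZ
  have hZ0 : (0 : ℝ) < Z := by linarith
  have hx0 : (0 : ℝ) < x := by linarith
  have hA0 : (0 : ℝ) < A := by linarith
  have hmm : m + 1 ≤ 3 * Z ^ 400 := by
    have : (1 : ℝ) ≤ Z ^ 400 := one_le_pow₀ hZ1
    linarith
  have hm00 : (0 : ℝ) ≤ m := le_trans (by positivity) hm0
  have hD0 : 0 < D := lt_of_lt_of_le (by positivity) hD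
  have h1 : 20 * x ^ 2 / D ≤ 80 * A ^ 2 * Z ^ 30 := by
    rw [div_le_iff₀ hD0]
    rw [div_le_iff₀ (by positivity)] at hD
    calc 20 * x ^ 2 ≤ 20 * (D * (4 * A ^ 2 * Z ^ 30)) := by linarith
      _ = 80 * A ^ 2 * Z ^ 30 * D := by ring
  have h2 : 6 * x ^ 2 / B ≤ 12 * Z ^ 360 := by
    rw [div_le_iff₀ hB0]
    rw [div_le_iff₀ (by positivity)] at hB2
    calc 6 * x ^ 2 ≤ 6 * (2 * B * Z ^ 360) := by linarith
      _ = 12 * Z ^ 360 * B := by ring
  have h3 : Real.sqrt (Z ^ 40 * Z ^ 1000 * e) ≤ Z ^ 25 * Real.sqrt x := by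
    have e1 : Z ^ 25 * Real.sqrt x = Real.sqrt ((Z ^ 25) ^ 2 * x) := by
      rw [Real.sqrt_mul (by positivity), Real.sqrt_sq (by positivity)]
    rw [e1]
    apply Real.sqrt_le_sqrt
    calc Z ^ 40 * Z ^ 1000 * e = (Z ^ 25) ^ 2 * (e * Z ^ 990) := by ring
      _ ≤ (Z ^ 25) ^ 2 * x := by gcongr
  have hsx : Real.sqrt x * Real.sqrt x = x := Real.mul_self_sqrt hx0.le
  have h4 : B ^ (1 / 4 : ℝ) ≤ Real.sqrt x / Z ^ 90 := by
    have e1 : (Real.sqrt x / Z ^ 90) ^ 4 = x ^ 2 / Z ^ 360 := by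
      rw [div_pow]
      have : Real.sqrt x ^ 4 = (Real.sqrt x * Real.sqrt x) ^ 2 := by ring
      rw [this, hsx]
      congr 1
      ring
    have e2 : ((Real.sqrt x / Z ^ 90) ^ 4) ^ (1 / 4 : ℝ) = Real.sqrt x / Z ^ 90 := by
      have := Real.pow_rpow_inv_natCast (x := Real.sqrt x / Z ^ 90) (n := 4) (by positivity)
        (by norm_num)
      have h : ((4 : ℕ) : ℝ)⁻¹ = (1 / 4 : ℝ) := by norm_num
      rw [h] at this
      exact this
    rw [← e2, e1]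
    exact Real.rpow_le_rpow hB0.le hB (by norm_num)
  have h5 : Real.sqrt B ≤ x / Z ^ 180 := by
    rw [Real.sqrt_le_iff]
    refine ⟨by positivity, hB.trans (le_of_eq ?_)⟩
    rw [div_pow]
    congr 1
    ring
  have h6 : 8 * (A * (2000 * (m + 1) * Real.sqrt (Z ^ 40 * Z ^ 1000 * e) * B ^ (1 / 4 : ℝ)
        + 2 * m * Real.sqrt B)) / (x / Z ^ 15) ≤ 48032 * A * Z ^ 350 := by
    rw [div_le_iff₀ (by positivity)]
    have e1 : 2000 * (m + 1) * Real.sqrt (Z ^ 40 * Z ^ 1000 * e) * B ^ (1 / 4 : ℝ) ≤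
        2000 * (3 * Z ^ 400) * (Z ^ 25 * Real.sqrt x) * (Real.sqrt x / Z ^ 90) := by
      gcongr
    have e2 : 2000 * (3 * Z ^ 400) * (Z ^ 25 * Real.sqrt x) * (Real.sqrt x / Z ^ 90) =
        6000 * Z ^ 335 * x := by
      have : 2000 * (3 * Z ^ 400) * (Z ^ 25 * Real.sqrt x) * (Real.sqrt x / Z ^ 90) =
        6000 * (Real.sqrt x * Real.sqrt x) * (Z ^ 425 / Z ^ 90) := by ring
      rw [this, hsx]
      have h9 : Z ^ 425 / Z ^ 90 = Z ^ 335 := by
        rw [div_eq_iff (by positivity)]; ring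
      rw [h9]; ring
    have e3 : 2 * m * Real.sqrt B ≤ 2 * (2 * Z ^ 400) * (x / Z ^ 180) := by gcongr
    have e4 : 2 * (2 * Z ^ 400) * (x / Z ^ 180) = 4 * Z ^ 220 * x := by
      have h9 : Z ^ 400 / Z ^ 180 = Z ^ 220 := by
        rw [div_eq_iff (by positivity)]; ring
      calc 2 * (2 * Z ^ 400) * (x / Z ^ 180) = 4 * x * (Z ^ 400 / Z ^ 180) := by ring
        _ = _ := by rw [h9]; ring
    have e5 : Z ^ 220 ≤ Z ^ 335 := pow_le_pow_right₀ hZ1 (by norm_num)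
    have e6 : 48032 * A * Z ^ 350 * (x / Z ^ 15) = 48032 * A * Z ^ 335 * x := by
      have h9 : Z ^ 350 / Z ^ 15 = Z ^ 335 := by
        rw [div_eq_iff (by positivity)]; ring
      calc 48032 * A * Z ^ 350 * (x / Z ^ 15) = 48032 * A * (Z ^ 350 / Z ^ 15) * x := by ring
        _ = _ := by rw [h9]
    rw [e6]
    calc 8 * (A * (2000 * (m + 1) * Real.sqrt (Z ^ 40 * Z ^ 1000 * e) * B ^ (1 / 4 : ℝ)
        + 2 * m * Real.sqrt B)) ≤ 8 * (A * (6000 * Z ^ 335 * x + 4 * Z ^ 335 * x)) := by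
          apply mul_le_mul_of_nonneg_left _ (by norm_num)
          apply mul_le_mul_of_nonneg_left _ hA0.le
          apply add_le_add
          · rw [← e2]; exact e1
          · refine e3.trans ?_
            rw [e4]
            gcongr
      _ = 48032 * A * Z ^ 335 * x := by ring
  have hA2 : 1 ≤ A ^ 2 := one_le_pow₀ hA1
  have hF : 3 + 4 * (20 * x ^ 2 / D + 3) ≤ 335 * A ^ 2 * Z ^ 30 := by
    have : (1 : ℝ) ≤ A ^ 2 * Z ^ 30 := one_le_mul_of_one_le_of_one_le hA2 (one_le_pow₀ hZ1)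
    nlinarith
  have hS : 6 * x ^ 2 / B +
      8 * (A * (2000 * (m + 1) * Real.sqrt (Z ^ 40 * Z ^ 1000 * e) * B ^ (1 / 4 : ℝ)
        + 2 * m * Real.sqrt B)) / (x / Z ^ 15) + 3 ≤ 48047 * A * Z ^ 360 := by
    have e1 : Z ^ 350 ≤ Z ^ 360 := pow_le_pow_right₀ hZ1 (by norm_num)
    have e2 : 48032 * A * Z ^ 350 ≤ 48032 * A * Z ^ 360 := by gcongr
    have e3 : Z ^ 360 ≤ A * Z ^ 360 := le_mul_of_one_le_left (by positivity) hA1
    have e4 : (1 : ℝ) ≤ Z ^ 360 := one_le_pow₀ hZ1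
    linarith
  have hS0 : 0 ≤ 6 * x ^ 2 / B +
      8 * (A * (2000 * (m + 1) * Real.sqrt (Z ^ 40 * Z ^ 1000 * e) * B ^ (1 / 4 : ℝ)
        + 2 * m * Real.sqrt B)) / (x / Z ^ 15) + 3 := by positivity
  calc _ ≤ (335 * A ^ 2 * Z ^ 30) * (48047 * A * Z ^ 360) :=
        mul_le_mul hF hS hS0 (by positivity)
    _ = (335 * 48047) * A ^ 3 * Z ^ 390 := by ring
    _ ≤ (Z / 2) * Z * Z ^ 390 := by
        have : (335 * 48047 : ℝ) ≤ Z / 2 := by
          rw [le_div_iff₀ (by norm_num)]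
          exact le_trans (by norm_num) hZ
        gcongr
    _ = Z ^ 392 / 2 := by ring
    _ ≤ Z ^ 400 / 2 := by
        have : Z ^ 392 ≤ Z ^ 400 := pow_le_pow_right₀ hZ1 (by norm_num)
        linarith
    _ ≤ m / 2 := by linarith

/-- the parameters in terms of `Z` -/
lemma par_core {Z A e : ℝ} {a j s : ℕ} (hj : 2 ≤ j) (hZj : 10 ^ 10 * 4 ^ j ≤ Z) (hA1 : 1 ≤ A)
    (hA : A ^ (9 + 3 * j) ≤ Z) (ha : 1 ≤ a) (haj : ((2 : ℝ) ^ a) ^ j ≤ Z ^ 20)
    (hX : Z ^ 500 ≤ (2 : ℝ) ^ s) (hs : (s : ℝ) + 2 ≤ Z) (he0 : 0 < e)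
    (he : e * Z ^ 990 ≤ Real.sqrt (2 ^ s)) :
    ∃ P : GP, P.s = s ∧ P.a = a ∧ P.j = j ∧ P.A = A ∧ P.L = Z ^ 1000 ∧ P.e = e := by
  have h4j : (1 : ℝ) ≤ 4 ^ j := one_le_pow₀ (by norm_num)
  have hZ : 10 ^ 10 ≤ Z := le_trans (by linarith) hZj
  have hZ1 : (1 : ℝ) ≤ Z := le_trans (by norm_num) hZ
  have hZ0 : (0 : ℝ) < Z := by linarith
  have hA0 : (0 : ℝ) < A := by linarith
  have hAk : ∀ k : ℕ, k ≤ 9 + 3 * j → A ^ k ≤ Z := fun k hk =>
    (pow_le_pow_right₀ hA1 hk).trans hA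
  set x : ℝ := Real.sqrt (2 ^ s) with hx
  have hx2 : x ^ 2 = (2 : ℝ) ^ s := Real.sq_sqrt (by positivity)
  have hx250 : Z ^ 250 ≤ x := by
    rw [hx]
    apply Real.le_sqrt_of_sq_le
    calc (Z ^ 250) ^ 2 = Z ^ 500 := by ring
      _ ≤ 2 ^ s := hX
  have hx1 : 1 ≤ x := (one_le_pow₀ hZ1).trans hx250
  have hx0 : 0 < x := by linarith
  -- `s' = s - a j`
  have h2aj : (2 : ℝ) ^ (a * j) ≤ Z ^ 20 := by rw [pow_mul]; exact haj
  have hajs : a * j ≤ s := by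
    have h1 : (2 : ℝ) ^ (a * j) ≤ 2 ^ s :=
      h2aj.trans ((pow_le_pow_right₀ hZ1 (by norm_num)).trans hX)
    exact (pow_le_pow_iff_right₀ (by norm_num : (1 : ℝ) < 2)).1 h1
  obtain ⟨s', hs'⟩ : ∃ s', s = s' + a * j := ⟨s - a * j, by omega⟩
  -- `n`
  set n : ℕ := ⌈Z ^ 400⌉₊ with hn
  have hn1 : Z ^ 400 ≤ (n : ℝ) := Nat.le_ceil _
  have hn2 : (n : ℝ) ≤ 2 * Z ^ 400 := by
    have h1 := (Nat.ceil_lt_add_one (by positivity : (0 : ℝ) ≤ Z ^ 400)).le
    have h2 : (1 : ℝ) ≤ Z ^ 400 := one_le_pow₀ hZ1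
    linarith
  have hn0 : 1 ≤ n := by
    have : (1 : ℝ) ≤ n := (one_le_pow₀ hZ1).trans hn1
    exact_mod_cast this
  -- `φ`
  set φ : ℝ := x / Z ^ 15 with hφ
  have hφ0 : 0 < φ := by positivity
  have hφ1 : Z ^ 235 ≤ φ := by
    rw [hφ, le_div_iff₀ (by positivity)]
    calc Z ^ 235 * Z ^ 15 = Z ^ 250 := by ring
      _ ≤ x := hx250
  have hφ2 : φ ^ 2 = x ^ 2 / Z ^ 30 := by
    rw [hφ, div_pow]
    congr 1
    ring
  -- `d`
  set d : ℕ := ⌊φ ^ 2 / (2 * A ^ 2)⌋₊ with hd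
  have hd1 : (d : ℝ) ≤ φ ^ 2 / (2 * A ^ 2) := Nat.floor_le (by positivity)
  have hd4 : 1 ≤ φ ^ 2 / (4 * A ^ 2) := by
    rw [le_div_iff₀ (by positivity), one_mul]
    calc 4 * A ^ 2 ≤ Z * Z := by
          apply mul_le_mul (le_trans (by norm_num) hZ) (hAk 2 (by omega)) (by positivity) hZ0.le
      _ = Z ^ 2 := by ring
      _ ≤ Z ^ 470 := pow_le_pow_right₀ hZ1 (by norm_num)
      _ = (Z ^ 235) ^ 2 := by ring
      _ ≤ φ ^ 2 := by gcongr
  have hd2 : φ ^ 2 / (4 * A ^ 2) ≤ (d : ℝ) := by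
    have h1 := (Nat.sub_one_lt_floor (φ ^ 2 / (2 * A ^ 2))).le
    have h2 : φ ^ 2 / (2 * A ^ 2) = 2 * (φ ^ 2 / (4 * A ^ 2)) := by
      field_simp; norm_num
    rw [← hd, h2] at h1
    linarith
  have hd0 : 1 ≤ d := by
    have : (1 : ℝ) ≤ d := hd4.trans hd2
    exact_mod_cast this
  have hdx : x ^ 2 / (4 * A ^ 2 * Z ^ 30) ≤ (d : ℝ) := by
    refine (le_of_eq ?_).trans hd2
    rw [hφ2, div_div]
    congr 1
    ring
  -- `k0`
  have hy1 : (1 : ℝ) ≤ x ^ 2 / Z ^ 360 := by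
    rw [le_div_iff₀ (by positivity), one_mul, hx2]
    exact (pow_le_pow_right₀ hZ1 (by norm_num)).trans hX
  obtain ⟨k0, hk1, hk2⟩ := exists_nat_pow_near hy1 (by norm_num : (1 : ℝ) < 2)
  have hk2' : x ^ 2 / Z ^ 360 ≤ 2 * 2 ^ k0 := by
    have : (2 : ℝ) ^ (k0 + 1) = 2 * 2 ^ k0 := by rw [pow_succ]; ring
    rw [← this]; exact hk2.le
  refine ⟨{ s := s, s' := s', a := a, j := j, n := n, d := d, k0 := k0, A := A, L := Z ^ 1000,
            K1 := Z ^ 40, φ := φ, e := e, hs := hs', ha := ha, hj := by omega,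
            haj := ?_, hn := hn0, hd := hd0, hA := hA1, hL := one_le_pow₀ hZ1,
            hK1 := one_le_pow₀ hZ1, hφ := (one_le_pow₀ hZ1).trans hφ1, he := he0, c2 := ?_,
            c3 := ?_, c4 := ?_, c5 := ?_, c6 := ?_, c7 := ?_, c8 := ?_, c9 := ?_, c10 := ?_,
            c11 := ?_ }, rfl, rfl, rfl, rfl, rfl, rfl⟩
  · exact hj.trans (Nat.le_mul_of_pos_left j ha)
  · -- c2
    have h1 : Real.sqrt (2 * d) ≤ φ / A := by
      rw [Real.sqrt_le_iff]
      refine ⟨by positivity, ?_⟩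
      rw [div_pow]
      have h2 : φ ^ 2 / (2 * A ^ 2) * 2 = φ ^ 2 / A ^ 2 := by field_simp
      linarith
    calc A * Real.sqrt (2 * d) ≤ A * (φ / A) := by gcongr
      _ = φ := mul_div_cancel₀ _ hA0.ne'
  · -- c3
    have h1 : x ^ 2 / (4 * A ^ 2 * Z ^ 30) * Z ^ 40 ≤ d * Z ^ 40 := by gcongr
    refine lt_of_lt_of_le ?_ h1
    rw [div_mul_eq_mul_div, lt_div_iff₀ (by positivity), ← hx2]
    calc 2 * ((s : ℝ) + 2) * x ^ 2 * (4 * A ^ 2 * Z ^ 30) ≤
          2 * Z * x ^ 2 * (4 * Z * Z ^ 30) := by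
            have := hAk 2 (by omega)
            gcongr
      _ = 8 * (x ^ 2 * Z ^ 32) := by ring
      _ < Z * (x ^ 2 * Z ^ 32) := by
          apply mul_lt_mul_of_pos_right _ (by positivity)
          exact lt_of_lt_of_le (by norm_num) hZ
      _ = x ^ 2 * Z ^ 33 := by ring
      _ ≤ x ^ 2 * Z ^ 40 := by
          apply mul_le_mul_of_nonneg_left _ (by positivity)
          exact pow_le_pow_right₀ hZ1 (by norm_num)
  · -- c4
    have h1 : (16 : ℝ) * 2 ^ k0 ≤ 2 ^ s := by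
      rw [← hx2]
      rw [le_div_iff₀ (by positivity)] at hk1
      calc (16 : ℝ) * 2 ^ k0 ≤ Z ^ 360 * 2 ^ k0 := by
            apply mul_le_mul_of_nonneg_right _ (by positivity)
            calc (16 : ℝ) ≤ Z := le_trans (by norm_num) hZ
              _ = Z ^ 1 := (pow_one Z).symm
              _ ≤ Z ^ 360 := pow_le_pow_right₀ hZ1 (by norm_num)
        _ = 2 ^ k0 * Z ^ 360 := by ring
        _ ≤ x ^ 2 := hk1
    exact_mod_cast h1
  · -- c5
    exact par_c5 hZ hx1 he0 he (Nat.cast_nonneg n) hn2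
  · -- c6
    rw [← hx2]
    exact par_c6 hZ hx1 he0 he hn1 hn2 hA1 (hAk 3 (by omega)) hdx (by positivity) hk1 hk2'
  · -- c7
    have h1 : x / Z ^ 10 ≤ Real.sqrt (2 ^ s') := by
      apply Real.le_sqrt_of_sq_le
      rw [div_pow, div_le_iff₀ (by positivity), hx2, hs', pow_add]
      apply mul_le_mul_of_nonneg_left _ (by positivity)
      calc (2 : ℝ) ^ (a * j) ≤ Z ^ 20 := h2aj
        _ = (Z ^ 10) ^ 2 := by ring
    refine le_trans ?_ h1
    rw [hφ, ← mul_div_assoc, div_le_div_iff₀ (by positivity) (by positivity)]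
    calc 20 * x * Z ^ 10 = 20 * (x * Z ^ 10) := by ring
      _ ≤ Z * (x * Z ^ 10) := by
          apply mul_le_mul_of_nonneg_right _ (by positivity)
          exact le_trans (by norm_num) hZ
      _ = x * Z ^ 11 := by ring
      _ ≤ x * Z ^ 15 := by
          apply mul_le_mul_of_nonneg_left _ hx0.le
          exact pow_le_pow_right₀ hZ1 (by norm_num)
  · -- c8
    change 100 * A * φ ≤ x
    rw [hφ, ← mul_div_assoc, div_le_iff₀ (by positivity)]
    calc 100 * A * x ≤ Z * Z * x := by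
          have h1 := hAk 1 (by omega)
          rw [pow_one] at h1
          have h2 : (100 : ℝ) ≤ Z := le_trans (by norm_num) hZ
          gcongr
      _ = x * Z ^ 2 := by ring
      _ ≤ x * Z ^ 15 := by
          apply mul_le_mul_of_nonneg_left _ hx0.le
          exact pow_le_pow_right₀ hZ1 (by norm_num)
  · -- c9
    calc 5 * A ^ 4 ≤ 5 * Z := by
          have := hAk 4 (by omega)
          linarith
      _ ≤ Z * Z := by
          apply mul_le_mul_of_nonneg_right _ hZ0.le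
          exact le_trans (by norm_num) hZ
      _ = Z ^ 2 := by ring
      _ ≤ Z ^ 500 := pow_le_pow_right₀ hZ1 (by norm_num)
      _ ≤ 2 ^ s := hX
      _ ≤ 2 * 2 ^ s := by
          have : (0 : ℝ) ≤ 2 ^ s := by positivity
          linarith
  · -- c10
    have h1 : (100 : ℝ) * d ≤ 2 ^ s := by
      rw [← hx2]
      calc (100 : ℝ) * d ≤ 100 * (φ ^ 2 / (2 * A ^ 2)) := by linarith
        _ ≤ 100 * φ ^ 2 := by
            apply mul_le_mul_of_nonneg_left _ (by norm_num)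
            apply div_le_self (by positivity)
            have : 1 ≤ A ^ 2 := one_le_pow₀ hA1
            linarith
        _ ≤ x ^ 2 := by
            rw [hφ2, ← mul_div_assoc, div_le_iff₀ (by positivity)]
            calc 100 * x ^ 2 ≤ Z * x ^ 2 := by
                  apply mul_le_mul_of_nonneg_right _ (by positivity)
                  exact le_trans (by norm_num) hZ
              _ = x ^ 2 * Z ^ 1 := by ring
              _ ≤ x ^ 2 * Z ^ 30 := by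
                  apply mul_le_mul_of_nonneg_left _ (by positivity)
                  exact pow_le_pow_right₀ hZ1 (by norm_num)
    exact_mod_cast h1
  · -- c11
    have h1 : Real.sqrt (2 ^ (a * j)) ≤ Z ^ 10 := by
      rw [Real.sqrt_le_iff]
      refine ⟨by positivity, h2aj.trans (le_of_eq ?_)⟩
      ring
    have h2 : Real.sqrt (2 ^ a) ≤ Z ^ 10 := by
      refine le_trans (Real.sqrt_le_sqrt ?_) h1
      exact pow_le_pow_right₀ (by norm_num) (Nat.le_mul_of_pos_right a (by omega))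
    have h3 : A ^ (5 + 3 * j) ≤ Z := hAk _ (by omega)
    calc Real.sqrt (2 ^ (a * j)) * (6 * A * Real.sqrt (2 ^ a) * (4 * A ^ 3) ^ j) * (80 * A ^ 4)
        = Real.sqrt (2 ^ (a * j)) * Real.sqrt (2 ^ a) * (480 * 4 ^ j) * A ^ (5 + 3 * j) := by
          rw [mul_pow, ← pow_mul, pow_add]; ring
      _ ≤ Z ^ 10 * Z ^ 10 * Z * Z := by
          have h4 : (480 : ℝ) * 4 ^ j ≤ Z := le_trans (by linarith) hZj
          gcongr
      _ = Z ^ 22 := by ring
      _ ≤ Z ^ 400 := pow_le_pow_right₀ hZ1 (by norm_num)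
      _ ≤ n := hn1

theorem thm_Par : St_Par := by
  intro ε hε hε1
  set N : ℕ := ⌈53 / ε⌉₊ with hN
  have hN53 : 53 / ε ≤ (N : ℝ) := Nat.le_ceil _
  have hN1' : (1 : ℝ) ≤ N := by
    refine le_trans ?_ hN53
    rw [le_div_iff₀ hε]; linarith
  have hN1 : 1 ≤ N := by exact_mod_cast hN1'
  set j : ℕ := 2 * N with hj
  set q : ℕ := (9 + 3 * j) * N with hq
  have hq0 : 0 < q := Nat.mul_pos (by omega) hN1
  have hq0' : (0 : ℝ) < q := by exact_mod_cast hq0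
  set M : ℝ := max ((10 ^ 10 * 4 ^ j) ^ N) ((4000 / ε + 2) ^ 2) with hM
  have hδ : 0 < ε / 1000 := by positivity
  have hev := ((tendsto_rpow_atTop hδ).eventually_ge_atTop M).and
    (Filter.eventually_ge_atTop (1 : ℝ))
  obtain ⟨T0, hT0⟩ := Filter.eventually_atTop.1 hev
  refine ⟨ε / (1000 * q), by positivity, N, T0, fun T hT => ?_⟩
  obtain ⟨hZM, hT1⟩ := hT0 T hT
  have hTpos : 0 < T := by linarith
  set Z : ℝ := T ^ (ε / 1000) with hZdef
  set A : ℝ := T ^ (ε / (1000 * q)) with hAdef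
  have hpow : ∀ k : ℕ, Z ^ k = T ^ (ε / 1000 * k) := fun k => by
    rw [hZdef, ← Real.rpow_natCast, ← Real.rpow_mul hTpos.le]
  have hc1 : (10 : ℝ) ^ 10 * 4 ^ j ≤ (10 ^ 10 * 4 ^ j) ^ N := by
    apply le_self_pow₀ _ (by omega)
    have : (1 : ℝ) ≤ 4 ^ j := one_le_pow₀ (by norm_num)
    linarith
  have hM1 : ((10 : ℝ) ^ 10 * 4 ^ j) ^ N ≤ Z := (le_max_left _ _).trans hZM
  have hZj : (10 : ℝ) ^ 10 * 4 ^ j ≤ Z := hc1.trans hM1
  have h4j : (1 : ℝ) ≤ 4 ^ j := one_le_pow₀ (by norm_num)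
  have hZ10 : (10 : ℝ) ^ 10 ≤ Z := le_trans (by linarith) hZj
  have hZ1 : (1 : ℝ) ≤ Z := le_trans (by norm_num) hZ10
  have hZ0 : (0 : ℝ) < Z := by linarith
  have hA1 : 1 ≤ A := Real.one_le_rpow hT1 (by positivity)
  have hAq : A ^ q = Z := by
    rw [hAdef, ← Real.rpow_natCast, ← Real.rpow_mul hTpos.le, hZdef]
    congr 1
    field_simp
  have hAj : A ^ (9 + 3 * j) ≤ Z := by
    rw [← hAq]
    exact pow_le_pow_right₀ hA1 (Nat.le_mul_of_pos_right _ hN1)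
  -- `a`
  obtain ⟨a, ha1, ha2⟩ := exists_nat_pow_near (one_le_pow₀ (n := 20) hZ1)
    (one_lt_pow₀ (by norm_num : (1 : ℝ) < 2) (by omega : j ≠ 0))
  have haj : ((2 : ℝ) ^ a) ^ j ≤ Z ^ 20 := by
    rw [← pow_mul, mul_comm a j, pow_mul]; exact ha1
  have h2j : (2 : ℝ) ^ j ≤ Z := by
    refine le_trans ?_ hZj
    have h1 : (2 : ℝ) ^ j ≤ 4 ^ j := pow_le_pow_left₀ (by norm_num) (by norm_num) j
    linarith
  have ha : 1 ≤ a := by
    by_contra hcon
    have h0 : a = 0 := by omega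
    rw [h0, zero_add, pow_one] at ha2
    have h1 : Z ≤ Z ^ 20 := le_self_pow₀ hZ1 (by norm_num)
    linarith
  have ha19 : Z ^ 19 ≤ (2 : ℝ) ^ (a * j) := by
    have h1 : (2 : ℝ) ^ (a * j) = ((2 : ℝ) ^ j) ^ a := by rw [← pow_mul, mul_comm j a]
    rw [h1]
    rw [pow_succ] at ha2
    have h2 : ((2 : ℝ) ^ j) ^ a * 2 ^ j ≤ ((2 : ℝ) ^ j) ^ a * Z := by gcongr
    have h3 : Z ^ 19 * Z < ((2 : ℝ) ^ j) ^ a * Z := by
      calc Z ^ 19 * Z = Z ^ 20 := by ring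
        _ < _ := ha2
        _ ≤ _ := h2
    exact (lt_of_mul_lt_mul_right h3 hZ0.le).le
  refine ⟨a, j, 10 ^ 10 * A ^ 9 * Real.sqrt (2 ^ a) * (4 * A ^ 3) ^ j, ?_, ?_, ?_, ?_⟩
  · -- `1 ≤ Ls`
    have h1 : 1 ≤ Real.sqrt ((2 : ℝ) ^ a) := by
      rw [Real.one_le_sqrt]
      exact one_le_pow₀ (by norm_num)
    have h2 : 1 ≤ (4 * A ^ 3) ^ j := one_le_pow₀ (by
      have : 1 ≤ A ^ 3 := one_le_pow₀ hA1
      linarith)
    have h3 : 1 ≤ A ^ 9 := one_le_pow₀ hA1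
    have h4 : (1 : ℝ) ≤ 10 ^ 10 * A ^ 9 := one_le_mul_of_one_le_of_one_le (by norm_num) h3
    exact one_le_mul_of_one_le_of_one_le (one_le_mul_of_one_le_of_one_le h4 h1) h2
  · -- `Ls ^ N ≤ T ^ (ε / 100)`
    have h1 : Real.sqrt ((2 : ℝ) ^ a) ^ N ≤ Z ^ 5 := by
      have h2 : (Real.sqrt ((2 : ℝ) ^ a) ^ N) ^ 4 ≤ (Z ^ 5) ^ 4 := by
        calc (Real.sqrt ((2 : ℝ) ^ a) ^ N) ^ 4 = ((Real.sqrt ((2 : ℝ) ^ a) ^ 2)) ^ j := by
              rw [hj, ← pow_mul, ← pow_mul]; congr 1; ring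
          _ = ((2 : ℝ) ^ a) ^ j := by rw [Real.sq_sqrt (by positivity)]
          _ ≤ Z ^ 20 := haj
          _ = (Z ^ 5) ^ 4 := by ring
      exact le_of_pow_le_pow_left₀ (by norm_num) (by positivity) h2
    have h3 : T ^ (ε / 100) = Z ^ 10 := by
      rw [hpow]; congr 1; push_cast; ring
    rw [h3]
    calc (10 ^ 10 * A ^ 9 * Real.sqrt (2 ^ a) * (4 * A ^ 3) ^ j) ^ N
        = (10 ^ 10 * 4 ^ j) ^ N * A ^ q * Real.sqrt (2 ^ a) ^ N := by
          have : (10 ^ 10 * A ^ 9 * Real.sqrt (2 ^ a) * (4 * A ^ 3) ^ j : ℝ) =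
              (10 ^ 10 * 4 ^ j) * A ^ (9 + 3 * j) * Real.sqrt (2 ^ a) := by
            rw [mul_pow, ← pow_mul, pow_add]; ring
          rw [this, mul_pow, mul_pow, ← pow_mul]
      _ ≤ Z * Z * Z ^ 5 := by
          rw [hAq]
          gcongr
      _ = Z ^ 7 := by ring
      _ ≤ Z ^ 10 := pow_le_pow_right₀ hZ1 (by norm_num)
  · -- `T ≤ (2 ^ (a j)) ^ N`
    calc T = T ^ (1 : ℝ) := (Real.rpow_one T).symm
      _ ≤ T ^ (ε / 1000 * ((19 * N : ℕ) : ℝ)) := by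
          apply Real.rpow_le_rpow_of_exponent_le hT1
          push_cast
          have h1 : 53 ≤ ε * N := by
            rw [div_le_iff₀ hε] at hN53; linarith
          have h2 : ε / 1000 * (19 * (N : ℝ)) = 19 / 1000 * (ε * N) := by ring
          rw [h2]
          linarith
      _ = Z ^ (19 * N) := (hpow _).symm
      _ = (Z ^ 19) ^ N := by rw [pow_mul]
      _ ≤ _ := by gcongr
  · intro s e hs1 hs2 he0 he
    have hX : Z ^ 500 ≤ (2 : ℝ) ^ s := by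
      refine (le_of_eq ?_).trans hs1
      rw [hpow]; congr 1; push_cast; ring
    have hs : (s : ℝ) + 2 ≤ Z := by
      set z : ℝ := T ^ (ε / 2000) with hz
      have hz1 : 1 ≤ z := Real.one_le_rpow hT1 (by positivity)
      have hzz : z ^ 2 = Z := by
        rw [hz, hZdef, ← Real.rpow_natCast, ← Real.rpow_mul hTpos.le]
        congr 1; push_cast; ring
      have h1 : Real.log T ≤ z / (ε / 2000) := Real.log_le_rpow_div hTpos.le (by positivity)
      have h2 : (s : ℝ) * Real.log 2 ≤ Real.log T := by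
        rw [← Real.log_pow]
        exact Real.log_le_log (by positivity) hs2
      have h3 : (1 / 2 : ℝ) ≤ Real.log 2 := by
        have := Real.log_two_gt_d9
        linarith
      have h4 : (s : ℝ) ≤ 2 * Real.log T := by
        have : (s : ℝ) * (1 / 2) ≤ s * Real.log 2 := by gcongr
        linarith
      have h5 : 4000 / ε + 2 ≤ z := by
        have h6 : (4000 / ε + 2) ^ 2 ≤ z ^ 2 := by
          rw [hzz]; exact (le_max_right _ _).trans hZM
        exact le_of_pow_le_pow_left₀ (by norm_num) (by linarith) h6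
      have h6 : z / (ε / 2000) = 2000 / ε * z := by field_simp
      rw [h6] at h1
      calc (s : ℝ) + 2 ≤ 4000 / ε * z + 2 * z := by
            have : 4000 / ε * z = 2 * (2000 / ε * z) := by ring
            rw [this]
            linarith
        _ = (4000 / ε + 2) * z := by ring
        _ ≤ z * z := by gcongr
        _ = Z := by rw [← hzz]; ring
    have he' : e * Z ^ 990 ≤ Real.sqrt (2 ^ s) := by
      refine (le_of_eq ?_).trans he
      rw [hpow]; congr 2; push_cast; ring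
    obtain ⟨P, h1, h2, h3, h4, h5, h6⟩ :=
      par_core (by omega : 2 ≤ j) hZj hA1 hAj ha haj hX hs he0 he'
    refine ⟨P, h1, h2, h3, h4, ?_, h6, ?_⟩
    · rw [h5, hpow]; congr 1; push_cast; ring
    · unfold GP.loss
      rw [h2, h3, h4]

end MHL
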