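import Pool.Agent.MHL.StC

/-!
# MHL: symmetries of the lattice, general transport
-/

set_option autoImplicit false

namespace MHL

/-- `σ` is an involution of the lattice mapping the environment `E'` to `E` -/
structure SymTr (E E' : Env) (σ : Pt → Pt) : Prop where
  inv : ∀ z, σ (σ z) = z
  box : ∀ (c : Pt) (r : ℕ) (z : Pt), z ∈ bx c r → σ z ∈ bx (σ c) r
  s : ∀ z, (σ (E'.s1 z) = E.s1 (σ z) ∧ σ (E'.s2 z) = E.s2 (σ z)) ∨
    (σ (E'.s1 z) = E.s2 (σ z) ∧ σ (E'.s2 z) = E.s1 (σ z))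
  zero : σ (0, 0) = (0, 0)

variable {E E' : Env} {σ : Pt → Pt}

lemma sm_box (h : SymTr E E' σ) (c : Pt) (r : ℕ) (z : Pt) : z ∈ bx c r ↔ σ z ∈ bx (σ c) r := by
  refine ⟨h.box c r z, fun hz => ?_⟩
  have := h.box _ _ _ hz
  rwa [h.inv, h.inv] at this

lemma sm_en (h : SymTr E E' σ) (u : Pt → ℝ) (c : Pt) (r : ℕ) :
    en E' (fun z => u (σ z)) (bx c r) = en E u (bx (σ c) r) := by
  unfold en
  congr 1
  refine Finset.sum_bij (fun z _ => σ z) (fun z hz => h.box _ _ _ hz) ?_ ?_ ?_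
  · intro a _ b _ hab
    have h1 : σ (σ a) = σ (σ b) := congrArg σ hab
    rwa [h.inv, h.inv] at h1
  · intro b hb
    refine ⟨σ b, ?_, h.inv b⟩
    rw [sm_box h, h.inv]; exact hb
  · intro z _
    rcases h.s z with ⟨h1, h2⟩ | ⟨h1, h2⟩
    · simp only [h1, h2]
    · simp only [h1, h2]; ring

lemma sm_hm (h : SymTr E E' σ) (u : Pt → ℝ) (z : Pt) (hz : Hm E u (σ z)) :
    Hm E' (fun z => u (σ z)) z := by
  unfold Hm at *
  rcases h.s z with ⟨h1, h2⟩ | ⟨h1, h2⟩
  · simp only [h1, h2]; exact hz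
  · simp only [h1, h2]; linarith

lemma sm_ctx (h : SymTr E E' σ) {P : GP} {u : Pt → ℝ} (hC : Ctx P E u)
    (hg : GoodE P.A E' (0, 0) (8 * 2 ^ P.s)) : Ctx P E' (fun z => u (σ z)) := by
  refine ⟨hg, ?_, ?_, ?_⟩
  · intro z hz
    refine sm_hm h u z (hC.harm _ ?_)
    have := h.box _ _ _ hz
    rwa [h.zero] at this
  · rw [sm_en h, h.zero]; exact hC.energy
  · intro i c hi hsub z hz w hw
    rw [sm_en h]
    refine hC.osc i (σ c) hi ?_ _ (h.box _ _ _ hz) _ (h.box _ _ _ hw)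
    intro v hv
    have h1 : σ v ∈ bx c (4 * 2 ^ i) := by rw [sm_box h, h.inv]; exact hv
    have h2 := h.box _ _ _ (hsub h1)
    rwa [h.inv, h.zero] at h2

lemma sm_concl (h : SymTr E E' σ) {P : GP} {u : Pt → ℝ}
    (hC : Concl P E' (fun z => u (σ z))) : Concl P E u := by
  obtain ⟨c, z, w, h1, h2, h3, h4, h5⟩ := hC
  refine ⟨σ c, σ z, σ w, ?_, h.box _ _ _ h2, h.box _ _ _ h3, h4, ?_⟩
  · intro v hv
    have h6 : σ v ∈ bx c (4 * 2 ^ P.s') := by rw [sm_box h, h.inv]; exact hv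
    have h7 := h.box _ _ _ (h1 h6)
    rwa [h.inv, h.zero] at h7
  · rw [sm_en h] at h5
    exact h5

lemma sm_symm_ry (E : Env) : SymTr E E.ry (fun z => (z.1, -z.2)) := by
  refine ⟨fun z => by simp, ?_, ?_, by simp⟩
  · intro c r z hz
    rw [mem_bx] at hz ⊢
    refine ⟨hz.1, ?_⟩
    show |(-z.2) - (-c.2)| ≤ (r : ℤ)
    rw [show (-z.2) - (-c.2) = -(z.2 - c.2) by ring, abs_neg]
    exact hz.2
  · intro z
    left
    refine ⟨rfl, ?_⟩
    simp only [Env.s2, Env.ry]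
    ext <;> simp; ring

lemma sm_symm_rx (E : Env) : SymTr E E.rx (fun z => (-z.1, z.2)) := by
  refine ⟨fun z => by simp, ?_, ?_, by simp⟩
  · intro c r z hz
    rw [mem_bx] at hz ⊢
    refine ⟨?_, hz.2⟩
    show |(-z.1) - (-c.1)| ≤ (r : ℤ)
    rw [show (-z.1) - (-c.1) = -(z.1 - c.1) by ring, abs_neg]
    exact hz.1
  · intro z
    left
    refine ⟨?_, rfl⟩
    simp only [Env.s1, Env.rx]
    ext <;> simp; ring

lemma sm_symm_tr (E : Env) : SymTr E E.tr (fun z => (z.2, z.1)) := by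
  refine ⟨fun z => rfl, ?_, ?_, rfl⟩
  · intro c r z hz
    rw [mem_bx] at hz ⊢
    exact ⟨hz.2, hz.1⟩
  · intro z
    right
    exact ⟨rfl, rfl⟩

/-! ### good windows -/

lemma Good2.mono {A : ℝ} {g : ℤ → ℤ} {lo hi lo' hi' : ℤ} (h : Good2 A g lo hi) (h1 : lo ≤ lo')
    (h2 : hi' ≤ hi) : Good2 A g lo' hi' :=
  ⟨fun a b ha hab hb => h.g1 a b (h1.trans ha) hab (hb.trans h2),
    fun a b ha hab hb => h.g2 a b (h1.trans ha) hab (hb.trans h2),
    fun a q n x hq hn ha hb => h.g3 a q n x hq hn (h1.trans ha) (hb.trans h2)⟩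

lemma Good2.neg {A : ℝ} {g : ℤ → ℤ} {lo hi : ℤ} (h : Good2 A g lo hi) :
    Good2 A (fun k => - g k) lo hi := by
  refine ⟨fun a b ha hab hb => ?_, fun a b ha hab hb hA => ?_, fun a q n x hq hn ha hb => ?_⟩
  · rw [sm_neg, sm_neg]
    push_cast
    have := h.g1 a b ha hab hb
    rw [show (-(sm g b : ℝ) - -(sm g a : ℝ)) = -((sm g b : ℝ) - sm g a) by ring, abs_neg]
    exact this
  · obtain ⟨s, t, hs, ht, hst⟩ := h.g2 a b ha hab hb hA
    refine ⟨t, s, ht, hs, ?_⟩
    rw [sm_neg, sm_neg]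
    push_cast
    linarith
  · refine le_trans (le_of_eq ?_) (h.g3 a q n (-x) hq hn ha hb)
    congr 2
    refine Finset.filter_congr fun i _ => ?_
    rw [sm_neg]
    push_cast
    rw [show (-(sm g (a + (i : ℤ) * q) : ℝ) - x) = -((sm g (a + (i : ℤ) * q) : ℝ) - -x) by ring,
      abs_neg]

lemma Good2.refl {A : ℝ} {g : ℤ → ℤ} {lo hi : ℤ} (h : Good2 A g lo hi) :
    Good2 A (fun k => g (-k)) (1 - hi) (1 - lo) := by
  refine ⟨fun a b ha hab hb => ?_, fun a b ha hab hb hA => ?_, fun a q n x hq hn ha hb => ?_⟩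
  · rw [sm_refl, sm_refl]
    push_cast
    have := h.g1 (1 - b) (1 - a) (by omega) (by omega) (by omega)
    push_cast at this
    rw [show ((sm g 1 : ℝ) - sm g (1 - b) - (sm g 1 - sm g (1 - a))) =
      (sm g (1 - a) : ℝ) - sm g (1 - b) by ring]
    refine this.trans (le_of_eq ?_)
    congr 2
    ring
  · obtain ⟨s, t, hs, ht, hst⟩ := h.g2 (1 - b) (1 - a) (by omega) (by omega) (by omega)
      (by push_cast; linarith)
    refine ⟨1 - t, 1 - s, by omega, by omega, ?_⟩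
    rw [sm_refl, sm_refl]
    push_cast
    rw [show (1 : ℤ) - (1 - t) = t by ring, show (1 : ℤ) - (1 - s) = s by ring]
    push_cast at hst
    rw [show ((1 : ℝ) - a - (1 - b)) = b - a by ring] at hst
    linarith
  · have h3 := h.g3 (1 - a - ((n : ℤ) - 1) * q) q n ((sm g 1 : ℝ) - x) hq hn (by omega)
      (by linarith)
    refine le_trans (le_of_eq ?_) h3
    congr 1
    refine Finset.card_bij (fun i _ => n - 1 - i) ?_ ?_ ?_
    · intro i hi
      simp only [Finset.mem_filter, Finset.mem_range] at hi ⊢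
      refine ⟨by omega, ?_⟩
      have e : 1 - a - ((n : ℤ) - 1) * q + ((n - 1 - i : ℕ) : ℤ) * q = 1 - (a + i * q) := by
        have : ((n - 1 - i : ℕ) : ℤ) = (n : ℤ) - 1 - i := by omega
        rw [this]; ring
      rw [e]
      have h4 := hi.2
      rw [sm_refl] at h4
      push_cast at h4
      rw [show ((sm g 1 : ℝ) - sm g (1 - (a + (i : ℤ) * q)) - x) =
        -((sm g (1 - (a + (i : ℤ) * q)) : ℝ) - (sm g 1 - x)) by ring, abs_neg] at h4
      exact h4
    · intro i hi j hj hij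
      simp only [Finset.mem_filter, Finset.mem_range] at hi hj
      omega
    · intro j hj
      simp only [Finset.mem_filter, Finset.mem_range] at hj
      refine ⟨n - 1 - j, ?_, by omega⟩
      simp only [Finset.mem_filter, Finset.mem_range]
      refine ⟨by omega, ?_⟩
      rw [sm_refl]
      push_cast
      have e : 1 - a - ((n : ℤ) - 1) * q + (j : ℤ) * q = 1 - (a + ((n - 1 - j : ℕ) : ℤ) * q) := by
        have : ((n - 1 - j : ℕ) : ℤ) = (n : ℤ) - 1 - j := by omega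
        rw [this]; ring
      have h4 := hj.2
      rw [e] at h4
      rw [show ((sm g 1 : ℝ) - sm g (1 - (a + ((n - 1 - j : ℕ) : ℤ) * q)) - x) =
        -((sm g (1 - (a + ((n - 1 - j : ℕ) : ℤ) * q)) : ℝ) - (sm g 1 - x)) by ring, abs_neg]
      exact h4

/-- windows of the first kind give windows of the second kind of half the length -/
lemma Good.to2 {A : ℝ} {g : ℤ → ℤ} {lo : ℤ} {M : ℕ} (hA : 1 ≤ A)
    (h : Good A g lo (lo + 2 * M)) : Good2 A g lo (lo + M) := by
  refine ⟨fun a b ha hab hb => h.g1 a b ha hab (by omega),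
    fun a b ha hab hb => h.g2 a b ha hab (by omega), fun a q n x hq hn ha hb => ?_⟩
  rcases Nat.lt_or_ge n 2 with h2 | h2
  · have hn1 : n = 1 := by omega
    subst hn1
    have h3 : (((Finset.range 1).filter
      (fun i : ℕ => |(sm g (a + i * q) : ℝ) - x| ≤ 2 * A * Real.sqrt q)).card : ℝ) ≤ 1 := by
      have : ((Finset.range 1).filter
        (fun i : ℕ => |(sm g (a + i * q) : ℝ) - x| ≤ 2 * A * Real.sqrt q)).card ≤ 1 :=
        (Finset.card_filter_le _ _).trans (by simp)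
      exact_mod_cast this
    refine h3.trans ?_
    rw [Nat.cast_one, Real.sqrt_one, mul_one]
    exact one_le_pow₀ hA
  · refine h.g3 a q n x hq hn ha ?_
    have hq' : (q : ℤ) ≤ ((n : ℤ) - 1) * q := by
      have : (1 : ℤ) ≤ (n : ℤ) - 1 := by omega
      nlinarith
    have : (n : ℤ) * q = ((n : ℤ) - 1) * q + q := by ring
    rw [this]; linarith

end MHL
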