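import Pool.Agent.MHL.StB

/-!
# MHL: frozen statements, part C: column data, barrier rows, alternation, chain lemma, growth lemma
-/

set_option autoImplicit false

namespace MHL

/-! ### near-level relations -/

/-- number of exceptional levels per line -/
noncomputable def GP.Z (P : GP) : ℝ := 6 * 2 ^ P.s / 2 ^ P.k0 + 8 * P.Xi / P.φ

/-- column data (paper 5.5): rectangle `[x0,x1] x [y0,y1]` with good sides, walls `U i`,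
levels `lev i`, left traces `t i`, `i ≤ n` -/
structure CD (P : GP) (E : Env) (u : Pt → ℝ) (x0 x1 y0 y1 : ℤ) (lev : ℕ → ℝ) (U : ℕ → Set Pt)
    (t : ℕ → ℤ) : Prop where
  ctx : Ctx P E u
  lv : ∃ cm cp : ℝ, Lv P E u cm cp lev
  hx0 : 2 ^ P.s ≤ x0 ∧ 2 * x0 < 3 * 2 ^ P.s
  hx1 : 2 * 2 ^ P.s - P.d ≤ x1 ∧ x1 < 2 * 2 ^ P.s
  hy0 : -2 * 2 ^ P.s - P.d ≤ y0 ∧ y0 ≤ -2 * 2 ^ P.s
  hy1 : 2 * 2 ^ P.s ≤ y1 ∧ y1 ≤ 2 * 2 ^ P.s + P.d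
  gx0 : GCol P E u x0
  gx1 : GCol P E u x1
  gy0 : GRow P E u y0
  gy1 : GRow P E u y1
  wall : ∀ i ≤ P.n, Wall u x0 x1 y0 y1 (lev i) (U i)
  mono : ∀ i < P.n, U (i + 1) ⊆ U i
  tr : ∀ i ≤ P.n, y0 < t i ∧ t i ≤ y1 ∧ ∀ y : ℤ, y0 ≤ y → y ≤ y1 → ((x0, y) ∈ U i ↔ t i ≤ y)

/-- trace of the restricted walls on the column `x` -/
def PT (P : GP) (x0 x y0 y1 : ℤ) (U : ℕ → Set Pt) (p : ℕ → ℤ) : Prop :=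
  (∀ i ≤ P.n, y0 < p i ∧ p i ≤ y1 ∧
    ∀ y : ℤ, y0 ≤ y → y ≤ y1 → ((x, y) ∈ dn (U i) x0 x y0 y1 ↔ p i ≤ y)) ∧
  ∀ i j : ℕ, i ≤ j → j ≤ P.n → p i ≤ p j

/-- existence of the traces -/
def St_N0 : Prop := ∀ (P : GP) (E : Env) (u : Pt → ℝ) (x0 x1 y0 y1 : ℤ) (lev : ℕ → ℝ)
  (U : ℕ → Set Pt) (t : ℕ → ℤ) (x : ℤ), CD P E u x0 x1 y0 y1 lev U t → x0 ≤ x → x ≤ x1 →
  ∃ p : ℕ → ℤ, PT P x0 x y0 y1 U p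

/-- relation on a good column -/
def St_N1 : Prop := ∀ (P : GP) (E : Env) (u : Pt → ℝ) (x0 x1 y0 y1 : ℤ) (lev : ℕ → ℝ)
  (U : ℕ → Set Pt) (t : ℕ → ℤ) (x : ℤ) (p : ℕ → ℤ), CD P E u x0 x1 y0 y1 lev U t →
  x0 ≤ x → x ≤ x1 → GCol P E u x → PT P x0 x y0 y1 U p →
  ∃ Ex : Finset ℕ, (Ex.card : ℝ) ≤ 2 * P.Z ∧ ∀ i : ℕ, 1 ≤ i → i ≤ P.n → i ∉ Ex →
    |((sm E.h (p i) : ℝ) - sm E.v (x + 1)) - ((sm E.h (t i) : ℝ) - sm E.v x0)| ≤ P.φ / 2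

/-- barrier row above the starting point (DOWN) -/
def St_N2a : Prop := ∀ (P : GP) (E : Env) (u : Pt → ℝ) (x0 x1 y0 y1 : ℤ) (lev : ℕ → ℝ)
  (U : ℕ → Set Pt) (t : ℕ → ℤ) (x y : ℤ) (p : ℕ → ℤ), CD P E u x0 x1 y0 y1 lev U t →
  x0 ≤ x → x ≤ x1 → GCol P E u x → PT P x0 x y0 y1 U p → y0 < y → y < y1 → GRow P E u y →
  ∃ Ex : Finset ℕ, (Ex.card : ℝ) ≤ 2 * P.Z + 1 ∧ ∀ i : ℕ, 1 ≤ i → i ≤ P.n → i ∉ Ex →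
    (∀ x' : ℤ, x0 ≤ x' → x' ≤ x →
      P.φ / 2 + 1 < |((sm E.h y : ℝ) - sm E.v (x' + 1)) - ((sm E.h (t i) : ℝ) - sm E.v x0)|) →
    t i ≤ y → p i ≤ y

/-- barrier row below the starting point (UP) -/
def St_N2b : Prop := ∀ (P : GP) (E : Env) (u : Pt → ℝ) (x0 x1 y0 y1 : ℤ) (lev : ℕ → ℝ)
  (U : ℕ → Set Pt) (t : ℕ → ℤ) (x y : ℤ) (p : ℕ → ℤ), CD P E u x0 x1 y0 y1 lev U t →
  x0 ≤ x → x ≤ x1 → GCol P E u x → PT P x0 x y0 y1 U p → y0 < y → y < y1 → GRow P E u y →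
  ∃ Ex : Finset ℕ, (Ex.card : ℝ) ≤ 2 * P.Z + 1 ∧ ∀ i : ℕ, 1 ≤ i → i ≤ P.n → i ∉ Ex →
    (∀ x' : ℤ, x0 ≤ x' → x' ≤ x →
      P.φ / 2 + 1 < |((sm E.h y : ℝ) - sm E.v (x' + 1)) - ((sm E.h (t i) : ℝ) - sm E.v x0)|) →
    y < t (i - 1) → y < p i

/-- barrier rows are not crossed -/
def St_N2 : Prop := ∀ (P : GP) (E : Env) (u : Pt → ℝ) (x0 x1 y0 y1 : ℤ) (lev : ℕ → ℝ)
  (U : ℕ → Set Pt) (t : ℕ → ℤ) (x y : ℤ) (p : ℕ → ℤ), CD P E u x0 x1 y0 y1 lev U t →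
  x0 ≤ x → x ≤ x1 → GCol P E u x → PT P x0 x y0 y1 U p → y0 < y → y < y1 → GRow P E u y →
  ∃ Ex : Finset ℕ, (Ex.card : ℝ) ≤ 4 * P.Z + 3 ∧ ∀ i : ℕ, 1 ≤ i → i ≤ P.n → i ∉ Ex →
    (∀ x' : ℤ, x0 ≤ x' → x' ≤ x →
      P.φ / 2 + 1 < |((sm E.h y : ℝ) - sm E.v (x' + 1)) - ((sm E.h (t i) : ℝ) - sm E.v x0)|) →
    (t i ≤ y ↔ p i ≤ y)

/-- net of good rows -/
def St_N3 : Prop := ∀ (P : GP) (E : Env) (u : Pt → ℝ) (y0 y1 : ℤ), Ctx P E u →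
  -2 * 2 ^ P.s - P.d ≤ y0 ∧ y0 ≤ -2 * 2 ^ P.s → 2 * 2 ^ P.s ≤ y1 ∧ y1 ≤ 2 * 2 ^ P.s + P.d →
  ∃ Y : Finset ℤ, (Y.card : ℝ) ≤ 8 * 2 ^ P.s / P.d + 6 ∧
    (∀ y ∈ Y, y0 < y ∧ y < y1 ∧ GRow P E u y) ∧
    ∀ p : ℤ, y0 ≤ p → p ≤ y1 → ∃ y ∈ Y, |p - y| ≤ P.d

/-- data for the alternation lemma (paper 5.8) -/
structure Alt (A φ X : ℝ) (g : ℤ → ℤ) (lo hi : ℤ) (w : ℕ) (GG : Finset ℕ) (pM pm : ℕ → ℤ)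
    (k : ℕ → ℝ) (WM Wm : ℝ) (Y : Finset ℤ) : Prop where
  hA : 1 ≤ A
  hφ : 1 ≤ φ
  hX : 0 < X
  g1 : ∀ a b : ℤ, lo ≤ a → a ≤ b → b ≤ hi →
    |(sm g b : ℝ) - sm g a| ≤ A * Real.sqrt ((b : ℝ) - a)
  hw : A * Real.sqrt (2 * w) ≤ φ
  rM : ∀ i ∈ GG, lo ≤ pM i ∧ pM i ≤ hi
  rm : ∀ i ∈ GG, lo ≤ pm i ∧ pm i ≤ hi
  mono : ∀ i ∈ GG, ∀ j ∈ GG, i ≤ j → pM i ≤ pM j ∧ pm i ≤ pm j
  relM : ∀ i ∈ GG, |(sm g (pM i) : ℝ) - WM - k i| ≤ φ / 2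
  relm : ∀ i ∈ GG, |(sm g (pm i) : ℝ) - Wm - k i| ≤ φ / 2
  yr : ∀ y ∈ Y, lo ≤ y ∧ y ≤ hi
  net : ∀ p : ℤ, lo ≤ p → p ≤ hi → ∃ y ∈ Y, |p - y| ≤ w
  bar : ∀ y ∈ Y, ∀ i ∈ GG,
    (∀ v : ℝ, Wm - φ ≤ v → v ≤ WM + φ → φ / 2 + 1 < |(sm g y : ℝ) - v - k i|) →
    (pM i ≤ y ↔ pm i ≤ y)
  amp : Real.sqrt X / (2 * A) ≤ WM - Wm
  len : (hi : ℝ) - lo ≤ 4.5 * X

/-- alternation lemma: a long monotone piece (up to `20 φ`) -/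
def St_A : Prop := ∀ (A φ X : ℝ) (g : ℤ → ℤ) (lo hi : ℤ) (w : ℕ) (GG : Finset ℕ) (pM pm : ℕ → ℤ)
  (k : ℕ → ℝ) (WM Wm : ℝ) (Y : Finset ℤ), Alt A φ X g lo hi w GG pM pm k WM Wm Y →
  ∃ BB ⊆ GG, (GG.card : ℝ) ≤ 19 * A ^ 4 * BB.card ∧
    ((∀ i ∈ BB, ∀ j ∈ BB, i < j → k i - 20 * φ ≤ k j) ∨
     (∀ i ∈ BB, ∀ j ∈ BB, i < j → k j - 20 * φ ≤ k i))

/-- the good set of levels and the data of the alternation lemma -/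
def St_N4 : Prop := ∀ (P : GP) (E : Env) (u : Pt → ℝ) (x0 x1 y0 y1 : ℤ) (lev : ℕ → ℝ)
  (U : ℕ → Set Pt) (t : ℕ → ℤ), CD P E u x0 x1 y0 y1 lev U t →
  ∃ (GG : Finset ℕ) (pM pm : ℕ → ℤ) (WM Wm : ℝ) (Y : Finset ℤ), GG ⊆ Finset.Icc 1 P.n ∧
    (P.n : ℝ) / 2 ≤ GG.card ∧
    Alt P.A P.φ (2 ^ P.s) E.h y0 y1 P.d GG pM pm
      (fun i => (sm E.h (t i) : ℝ) - sm E.v x0) WM Wm Y

/-- long monotone piece of the left traces -/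
def St_N5 : Prop := ∀ (P : GP) (E : Env) (u : Pt → ℝ) (x0 x1 y0 y1 : ℤ) (lev : ℕ → ℝ)
  (U : ℕ → Set Pt) (t : ℕ → ℤ), CD P E u x0 x1 y0 y1 lev U t →
  ∃ BB ⊆ Finset.Icc 1 P.n, (P.n : ℝ) ≤ 38 * P.A ^ 4 * BB.card ∧
    ((∀ i ∈ BB, ∀ j ∈ BB, i < j → (sm E.h (t i) : ℝ) - 20 * P.φ ≤ sm E.h (t j)) ∨
     (∀ i ∈ BB, ∀ j ∈ BB, i < j → (sm E.h (t j) : ℝ) - 20 * P.φ ≤ sm E.h (t i)))

/-! ### chain lemma -/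

/-- goodness is invariant under change of sign -/
def St_Gn : Prop := ∀ (A : ℝ) (g : ℤ → ℤ) (lo hi : ℤ), Good2 A g lo hi →
  Good2 A (fun k => - g k) lo hi

/-- chain lemma: a set on which `H` is almost nondecreasing meets few cells -/
def St_C : Prop := ∀ (P : GP) (g : ℤ → ℤ) (β : ℝ) (Y : Finset ℤ),
  Good2 P.A g (-(8 * 2 ^ P.s)) (8 * 2 ^ P.s) → 0 ≤ β → β ≤ Real.sqrt (2 ^ P.s') →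
  (∀ y ∈ Y, -3 * 2 ^ P.s ≤ y ∧ y < 3 * 2 ^ P.s) →
  (∀ y ∈ Y, ∀ y' ∈ Y, y < y' → (sm g y : ℝ) - β ≤ sm g y') →
  ((Y.image (fun y => y / 2 ^ P.s')).card : ℝ) ≤ P.mp

/-! ### conclusion on a column -/

/-- lower bound for the sum of squares of oscillations -/
noncomputable def GP.sig (P : GP) : ℝ := 1 / (1478656 * P.A ^ 8 * P.mp)

/-- sum of squares of the oscillations at scale `2^s'` on the column `x` -/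
noncomputable def cs (P : GP) (u : Pt → ℝ) (x : ℤ) : ℝ :=
  ∑ k ∈ Finset.Icc (-3 * 2 ^ (P.s - P.s') : ℤ) (3 * 2 ^ (P.s - P.s')),
    osc (Finset.Icc (k * 2 ^ P.s' - 2 ^ P.s') (k * 2 ^ P.s' + 2 ^ P.s')) (fun y : ℤ => u (x, y)) ^ 2

/-- from the column data -/
def St_K0 : Prop := ∀ (P : GP) (E : Env) (u : Pt → ℝ) (x0 x1 y0 y1 : ℤ) (lev : ℕ → ℝ)
  (U : ℕ → Set Pt) (t : ℕ → ℤ), CD P E u x0 x1 y0 y1 lev U t → P.sig ≤ cs P u x0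

/-- both crossings of the right rectangle of `box(0,2X) \ box(0,X)` -/
def CrR (u : Pt → ℝ) (X : ℤ) (cm cp : ℝ) : Prop :=
  (∃ p q : Pt, p.1 = X ∧ q.1 = 2 * X ∧
    Cn adj4 ({z | cp < u z} ∩ rc X (2 * X) (-2 * X) (2 * X)) p q) ∧
  (∃ p q : Pt, p.1 = X ∧ q.1 = 2 * X ∧
    Cn adj8 ({z | u z ≤ cm} ∩ rc X (2 * X) (-2 * X) (2 * X)) p q)

/-- construction of the column data when the high crossing starts above the low one -/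
def St_K1 : Prop := ∀ (P : GP) (E : Env) (u : Pt → ℝ) (x0 x1 y0 y1 yp ym : ℤ) (cm cp : ℝ)
  (q0 q1 : Pt), Ctx P E u → cm + 1 / 4 ≤ cp →
  2 ^ P.s ≤ x0 ∧ 2 * x0 < 3 * 2 ^ P.s → 2 * 2 ^ P.s - P.d ≤ x1 ∧ x1 < 2 * 2 ^ P.s →
  -2 * 2 ^ P.s - P.d ≤ y0 ∧ y0 ≤ -2 * 2 ^ P.s → 2 * 2 ^ P.s ≤ y1 ∧ y1 ≤ 2 * 2 ^ P.s + P.d →
  GCol P E u x0 → GCol P E u x1 → GRow P E u y0 → GRow P E u y1 →
  Cn adj4 ({z | cp < u z} ∩ rc x0 x1 y0 y1) (x0, yp) q0 → q0.1 = x1 →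
  Cn adj8 ({z | u z ≤ cm} ∩ rc x0 x1 y0 y1) (x0, ym) q1 → q1.1 = x1 → ym < yp →
  ∃ (lev : ℕ → ℝ) (U : ℕ → Set Pt) (t : ℕ → ℤ), CD P E u x0 x1 y0 y1 lev U t

/-- reflected function -/
def ryu (u : Pt → ℝ) : Pt → ℝ := fun z => u (z.1, -z.2)
/-- reflected function -/
def rxu (u : Pt → ℝ) : Pt → ℝ := fun z => u (-z.1, z.2)

/-- context with a margin for the good window (a reflection costs one unit) -/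
def CtxM (P : GP) (E : Env) (u : Pt → ℝ) (m : ℕ) : Prop :=
  Ctx P E u ∧ GoodE P.A E (0, 0) (8 * 2 ^ P.s + m)

/-- reflection `y ↦ -y` -/
def St_Ry : Prop := ∀ (P : GP) (E : Env) (u : Pt → ℝ),
  (∀ m : ℕ, CtxM P E u (m + 1) → CtxM P E.ry (ryu u) m) ∧
  (∀ x : ℤ, GCol P E u x → GCol P E.ry (ryu u) x) ∧
  (∀ y : ℤ, GRow P E u y → GRow P E.ry (ryu u) (-y)) ∧ (∀ x : ℤ, cs P (ryu u) x = cs P u x)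

/-- every good column in `[X, 3X/2)` -/
def St_K : Prop := ∀ (P : GP) (E : Env) (u : Pt → ℝ) (cm cp : ℝ) (x0 : ℤ), CtxM P E u 1 →
  cm + 1 / 4 ≤ cp → CrR u (2 ^ P.s) cm cp → 2 ^ P.s ≤ x0 → 2 * x0 < 3 * 2 ^ P.s →
  GCol P E u x0 → P.sig ≤ cs P u x0

/-- selection of a small box -/
def St_G1 : Prop := ∀ (P : GP) (E : Env) (u : Pt → ℝ), Ctx P E u →
  (∀ x0 : ℤ, 2 ^ P.s ≤ x0 → 2 * x0 < 3 * 2 ^ P.s → GCol P E u x0 → P.sig ≤ cs P u x0) →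
  Concl P E u

/-- reflection `x ↦ -x` and transposition: context and conclusion -/
def St_Sy : Prop := ∀ (P : GP) (E : Env) (u : Pt → ℝ),
  (∀ m : ℕ, CtxM P E u (m + 1) → CtxM P E.rx (rxu u) m) ∧
  (∀ m : ℕ, CtxM P E u m → CtxM P E.tr (tru u) m) ∧
  (Concl P E.rx (rxu u) → Concl P E u) ∧ (Concl P E.tr (tru u) → Concl P E u)

/-- growth lemma -/
def St_GL : Prop := ∀ (P : GP) (E : Env) (u : Pt → ℝ) (z0 z1 : Pt), CtxM P E u 2 →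
  z0 ∈ bx (0, 0) (2 ^ P.s) → z1 ∈ bx (0, 0) (2 ^ P.s) → 1 ≤ u z1 - u z0 → Concl P E u

/-! ### descent -/

/-- growth lemma for a general centre and scale -/
def St_GLs : Prop := ∀ (P : GP) (E : Env) (u : Pt → ℝ) (c z0 z1 : Pt) (θ : ℝ),
  GoodE P.A E c (8 * 2 ^ P.s + 2) → (∀ z ∈ bx c (4 * 2 ^ P.s), Hm E u z) →
  (∀ (i : ℕ) (c' : Pt), 4 * 2 ^ i ≤ 2 ^ P.s → bx c' (4 * 2 ^ i) ⊆ bx c (4 * 2 ^ P.s) →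
    ∀ z ∈ bx c' (2 ^ i), ∀ w ∈ bx c' (2 ^ i),
      Real.sqrt (2 ^ i) * (u z - u w) ^ 2 ≤ P.L * en E u (bx c' (4 * 2 ^ i))) →
  z0 ∈ bx c (2 ^ P.s) → z1 ∈ bx c (2 ^ P.s) → 0 < θ → θ ≤ u z1 - u z0 →
  en E u (bx c (4 * 2 ^ P.s)) ≤ P.e * θ ^ 2 →
  ∃ c' z w : Pt, bx c' (4 * 2 ^ P.s') ⊆ bx c (4 * 2 ^ P.s) ∧ z ∈ bx c' (2 ^ P.s') ∧
    w ∈ bx c' (2 ^ P.s') ∧ 0 < u z - u w ∧
    Real.sqrt (2 ^ P.s) / (P.e * P.loss) * en E u (bx c' (4 * 2 ^ P.s'))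
      ≤ Real.sqrt (2 ^ P.s') * (u z - u w) ^ 2

/-- trivial bound -/
def St_TB : Prop := ∀ (E : Env) (u : Pt → ℝ) (c z w : Pt) (r : ℕ), (∀ z ∈ bx c r, Hm E u z) →
  z ∈ bx c r → w ∈ bx c r → (u z - u w) ^ 2 ≤ 8 * r * en E u (bx c r)

/-- existence of parameters -/
def St_Par : Prop := ∀ ε : ℝ, 0 < ε → ε ≤ 1 → ∃ ε' : ℝ, 0 < ε' ∧ ∃ (N : ℕ) (T0 : ℝ),
  ∀ T : ℝ, T0 ≤ T → ∃ (a j : ℕ) (Ls : ℝ), 1 ≤ Ls ∧ Ls ^ N ≤ T ^ (ε / 100) ∧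
    T ≤ ((2 : ℝ) ^ (a * j)) ^ N ∧
    ∀ (s : ℕ) (e : ℝ), T ^ (ε / 2) ≤ 2 ^ s → (2 : ℝ) ^ s ≤ T → 0 < e →
      e * T ^ (99 * ε / 100) ≤ Real.sqrt (2 ^ s) →
      ∃ P : GP, P.s = s ∧ P.a = a ∧ P.j = j ∧ P.A = T ^ ε' ∧ P.L = T ^ ε ∧ P.e = e ∧
        P.loss ≤ Ls

end MHL
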