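import Pool.Agent.MHL.Api
import Pool.Agent.MHL.StM

/-!
# MHL: frozen statements, part E: linear algebra in a box and exit times (Sections 6, 7)
-/

set_option autoImplicit false

namespace MHL

/-- Markov operator -/
noncomputable def Pf (E : Env) (u : Pt → ℝ) (z : Pt) : ℝ := (u (E.s1 z) + u (E.s2 z)) / 2

/-- `ψ` vanishes off `B` and `(1 - P) ψ = g` on `B` -/
structure Gr (E : Env) (B : Finset Pt) (g ψ : Pt → ℝ) : Prop where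
  off : ∀ z, z ∉ B → ψ z = 0
  eq : ∀ z ∈ B, ψ z - Pf E ψ z = g z

/-- mixing estimate with constant `Λ`, all dyadic radii `≤ T`, all centres -/
def MTa (E : Env) (Λ T : ℝ) : Prop :=
  ∀ s : ℕ, (2 : ℝ) ^ s ≤ T → ∀ (c : Pt) (u : Pt → ℝ), (∀ z ∈ bx c (4 * 2 ^ s), Hm E u z) →
    ∀ z ∈ bx c (2 ^ s), ∀ w ∈ bx c (2 ^ s),
      Real.sqrt (2 ^ s) * (u z - u w) ^ 2 ≤ Λ * en E u (bx c (4 * 2 ^ s))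

/-- energy of a finitely supported function -/
def St_E1 : Prop := ∀ (E : Env) (B U : Finset Pt) (ψ : Pt → ℝ), (∀ z, z ∉ B → ψ z = 0) →
  en E ψ U ≤ 2 * ∑ z ∈ B, ψ z * (ψ z - Pf E ψ z)

/-- maximum principle -/
def St_E2 : Prop := ∀ (E : Env) (B : Finset Pt) (ψ : Pt → ℝ), (∀ z ∈ B, ψ z ≤ Pf E ψ z) →
  (∀ z ∈ B, (E.s1 z ∉ B → ψ (E.s1 z) ≤ 0) ∧ (E.s2 z ∉ B → ψ (E.s2 z) ≤ 0)) →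
  ∀ z ∈ B, ψ z ≤ 0

/-- existence of the Green function -/
def St_E3 : Prop := ∀ (E : Env) (B : Finset Pt) (g : Pt → ℝ), ∃ ψ : Pt → ℝ, Gr E B g ψ

/-- `L²` bound by exit times -/
def St_E4 : Prop := ∀ (E : Env) (B : Finset Pt) (M : ℝ) (g ψ t t' : Pt → ℝ), Gr E B g ψ →
  Gr E B (fun _ => 1) t → Gr E.rev B (fun _ => 1) t' → (∀ z ∈ B, t z ≤ M) →
  (∀ z ∈ B, t' z ≤ M) → ∑ z ∈ B, ψ z ^ 2 ≤ M ^ 2 * ∑ z ∈ B, g z ^ 2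

/-- trivial bound for the exit time of a box -/
def St_E5 : Prop := ∀ (E : Env) (c : Pt) (r : ℕ) (t : Pt → ℝ),
  Gr E (bx c r) (fun _ => 1) t → ∀ z, t z ≤ 4 * (2 * (r : ℝ) + 1) ^ 3

/-- chaining -/
def St_E6 : Prop := ∀ (f : Pt → ℝ) (c : Pt) (R r : ℕ) (δ : ℝ), 1 ≤ r → 0 ≤ δ →
  (∀ p ∈ bx c R, ∀ q ∈ bx p r, |f p - f q| ≤ δ) →
  ∀ z ∈ bx c R, ∀ w ∈ bx c R, |f z - f w| ≤ (4 * (R : ℝ) / r + 2) * δ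

/-- local oscillation of an exit time -/
def St_E7 : Prop := ∀ (E : Env) (Λ T m M0 : ℝ) (s : ℕ) (c : Pt) (B : Finset Pt)
  (t tl : Pt → ℝ), MTa E Λ T → 0 ≤ Λ → (2 : ℝ) ^ s ≤ T → bx c (4 * 2 ^ s) ⊆ B →
  Gr E B (fun _ => 1) t → (∀ z, t z ≤ m) → Gr E (bx c (4 * 2 ^ s)) (fun _ => 1) tl →
  (∀ z, tl z ≤ M0) → ∀ w ∈ bx c (2 ^ s),
  |t c - t w| ≤ Real.sqrt (8 * Λ * B.card * m / Real.sqrt (2 ^ s)) + M0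

/-- growth of exit times for boxes `bx c a ⊂ bx c b` -/
def St_E8 : Prop := ∀ (E : Env) (c : Pt) (a b : ℕ) (t0 t1 : Pt → ℝ) (Δ : ℝ) (z0 : Pt),
  a + 1 ≤ b → Gr E (bx c a) (fun _ => 1) t0 → Gr E (bx c b) (fun _ => 1) t1 →
  z0 ∈ bx c a → (∀ z ∈ bx c (a + 1), ∀ w ∈ bx c (a + 1), |t1 z - t1 w| ≤ Δ) →
  2 * t0 z0 - Δ ≤ t1 z0

/-- numerical estimate for the growth step -/
def St_E9a : Prop := ∀ (K r ρ Λ Q m0 m1 : ℝ), ρ = 8 * K * r → 1 ≤ r → 40000 ≤ K → 1 ≤ Λ →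
  1 ≤ Q → 10 ^ 12 * K ^ 3 * Λ ≤ Q → ρ ^ (3 / 2 : ℝ) * Q ≤ m0 → m0 ≤ m1 →
  65 * K * (Real.sqrt (8 * Λ * (25 * ρ ^ 2) * m1 / Real.sqrt r) + (4 * r) ^ (3 / 2 : ℝ) * Q)
    ≤ m1 / 100 + m0 / 8

/-- induction step for the exit times -/
def St_E9 : Prop := ∀ (E : Env) (Λ T Q : ℝ) (s κ : ℕ), MTa E Λ T → 1 ≤ Λ → 1 ≤ Q →
  (2 : ℝ) ^ s ≤ T → 40000 ≤ (2 : ℝ) ^ κ → 10 ^ 12 * ((2 : ℝ) ^ κ) ^ 3 * Λ ≤ Q →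
  4 * (4 * (2 : ℝ) ^ (s + 3 + κ) + 1) ^ 3 ≤ (3 / 2) ^ (2 ^ κ) →
  (∀ (c : Pt) (t : Pt → ℝ), Gr E (bx c (2 ^ (s + 2))) (fun _ => 1) t →
    ∀ z, t z ≤ ((2 : ℝ) ^ (s + 2)) ^ (3 / 2 : ℝ) * Q) →
  ∀ (c : Pt) (t : Pt → ℝ), Gr E (bx c (2 ^ (s + 3 + κ))) (fun _ => 1) t →
    ∀ z, t z ≤ ((2 : ℝ) ^ (s + 3 + κ)) ^ (3 / 2 : ℝ) * Q

/-- parameters for the exit times -/
def St_E10 : Prop := ∀ ε : ℝ, 0 < ε → ε ≤ 1 → ∃ T0 : ℝ, ∀ T : ℝ, T0 ≤ T → 1 ≤ T ∧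
  ∃ κ : ℕ, 40000 ≤ (2 : ℝ) ^ κ ∧ 10 ^ 12 * ((2 : ℝ) ^ κ) ^ 3 * T ^ ε ≤ T ^ (4 * ε) ∧
    8 * (2 : ℝ) ^ κ ≤ T ^ (2 * ε) ∧ 4 * (4 * T + 1) ^ 3 ≤ (3 / 2) ^ (2 ^ κ)

/-- exit times -/
def St_ET : Prop := ∀ ε : ℝ, 0 < ε → ε ≤ 1 → ∃ T0 : ℝ, ∀ T : ℝ, T0 ≤ T → ∀ E : Env,
  MTa E (T ^ ε) T → ∀ s : ℕ, (2 : ℝ) ^ s ≤ T → ∀ (c : Pt) (t : Pt → ℝ),
  Gr E (bx c (2 ^ s)) (fun _ => 1) t →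
  ∀ z, t z ≤ ((2 : ℝ) ^ s) ^ (3 / 2 : ℝ) * T ^ (4 * ε)

end MHL
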