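import Pool.Agent.MHL.Api
import Pool.Agent.Helper47.Manh.Walk

/-!
# MHL: frozen statements, part P: random signs on `ZMod N` are good (Section 9)
-/

set_option autoImplicit false

namespace MHL

open Pool.Agent.Helper47.Manh (sg)

/-- average over all sign sequences indexed by `ZMod N` -/
noncomputable def ea {N : ℕ} [NeZero N] (F : (ZMod N → Bool) → ℝ) : ℝ := (∑ h, F h) / 2 ^ N

open Classical in
/-- probability of an event -/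
noncomputable def pb {N : ℕ} [NeZero N] (S : (ZMod N → Bool) → Prop) : ℝ :=
  ea (fun h => if S h then (1 : ℝ) else 0)

/-- periodic sequence of signs -/
def gs {N : ℕ} (h : ZMod N → Bool) (y : ℤ) : ℤ := sg (h (y : ZMod N))

/-- average over sign sequences of length `n` -/
noncomputable def fa {n : ℕ} (F : (Fin n → Bool) → ℝ) : ℝ := (∑ c, F c) / 2 ^ n

/-- total sum of a finite sequence of signs -/
def ts {n : ℕ} (c : Fin n → Bool) : ℤ := ∑ i, sg (c i)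

/-- independence of disjoint sets of coordinates -/
def St_P1 : Prop := ∀ (N : ℕ) [NeZero N] (S : Set (ZMod N)) (F G : (ZMod N → Bool) → ℝ),
  (∀ h h' : ZMod N → Bool, (∀ i ∈ S, h i = h' i) → F h = F h') →
  (∀ h h' : ZMod N → Bool, (∀ i ∉ S, h i = h' i) → G h = G h') →
  ea (fun h => F h * G h) = ea F * ea G

/-- a window of length `n ≤ N` is uniformly distributed -/
def St_P0 : Prop := ∀ (N : ℕ) [NeZero N] (a : ℤ) (n : ℕ) (F : (Fin n → Bool) → ℝ), n ≤ N →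
  ea (fun h : ZMod N → Bool => F (fun i => h ((a + (i : ℕ) : ℤ) : ZMod N))) = fa F

/-- Hoeffding -/
def St_P2 : Prop := ∀ (n : ℕ) (x : ℝ), 1 ≤ n → 0 ≤ x →
  fa (fun c : Fin n → Bool => if x < |(ts c : ℝ)| then (1 : ℝ) else 0)
    ≤ 2 * Real.exp (-(x ^ 2) / (2 * n))

/-- Paley-Zygmund -/
def St_P3 : Prop := ∀ n : ℕ, 1 ≤ n →
  fa (fun c : Fin n → Bool => if |(ts c : ℝ)| < Real.sqrt n / 2 then (1 : ℝ) else 0) ≤ 13 / 16

/-- local bound -/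
def St_P4 : Prop := ∀ (n : ℕ) (L : ℝ), 1 ≤ n → 0 ≤ L →
  fa (fun c : Fin n → Bool => if |(ts c : ℝ)| ≤ L then (1 : ℝ) else 0)
    ≤ (2 * L + 1) / Real.sqrt n

/-- small oscillation on a window is unlikely -/
def St_P5 : Prop := ∀ (N : ℕ) [NeZero N] (a : ℤ) (n k m : ℕ) (y : ℝ), 1 ≤ m → k * m ≤ n →
  n ≤ N → y ≤ Real.sqrt m / 2 →
  pb (fun h : ZMod N → Bool => ∀ s t : ℤ, a ≤ s → s ≤ a + n → a ≤ t → t ≤ a + n →
    (sm (gs h) s : ℝ) - sm (gs h) t < y) ≤ (13 / 16) ^ k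

/-- weighted number of chains of `p` successive return times -/
noncomputable def ch (H : ℤ → ℝ) (q : ℕ) (L : ℝ) : ℕ → ℤ → ℕ → ℝ
  | 0, _, _ => 1
  | p + 1, b, n => ∑ i ∈ Finset.Ico 1 n,
      (if |H (b + i * q) - H b| ≤ L then (1 : ℝ) else 0) * ch H q L p (b + i * q) (n - i)

/-- binomial moments are bounded by chains (deterministic) -/
def St_P6a : Prop := ∀ (H : ℤ → ℝ) (q : ℕ) (L x : ℝ) (p n : ℕ) (b : ℤ), |H b - x| ≤ L →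
  ((((Finset.Ico 1 n).filter (fun i : ℕ => |H (b + i * q) - x| ≤ L)).card.choose p : ℕ) : ℝ)
    ≤ ch H q (2 * L) p b n

/-- expectation of the number of chains -/
def St_P6b : Prop := ∀ (N : ℕ) [NeZero N] (q n p : ℕ) (b : ℤ) (L : ℝ), 1 ≤ q → n * q ≤ N →
  0 ≤ L → ea (fun h : ZMod N → Bool => ch (fun y => (sm (gs h) y : ℝ)) q L p b n)
    ≤ ((2 * L + 1) / Real.sqrt q * (2 * Real.sqrt n)) ^ p

/-- large local time is unlikely -/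
def St_P6 : Prop := ∀ (N : ℕ) [NeZero N] (q n p : ℕ) (a : ℤ) (A : ℝ), 1 ≤ q → 1 ≤ n →
  n * q ≤ N → 2 ≤ A → 1 ≤ p → 4 * (p : ℝ) ≤ A ^ 3 →
  pb (fun h : ZMod N → Bool => ∃ x : ℝ, A ^ 3 * Real.sqrt n <
    (((Finset.range n).filter
      (fun i : ℕ => |(sm (gs h) (a + i * q) : ℝ) - x| ≤ 2 * A * Real.sqrt q)).card : ℝ))
    ≤ n * (72 * p / A ^ 2) ^ p

/-- reduction to finitely many events (deterministic) -/
def St_P7a : Prop := ∀ (N M : ℕ) [NeZero N] (A : ℝ) (h : ZMod N → Bool), 1 ≤ A →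
  (∀ a n : ℕ, a < N → 1 ≤ n → n ≤ M →
    |(sm (gs h) (a + n) : ℝ) - sm (gs h) a| ≤ A * Real.sqrt n) →
  (∀ a n : ℕ, a < N → n ≤ M → A ^ 4 ≤ n → ∃ s t : ℤ, (a ≤ s ∧ s ≤ a + n) ∧ (a ≤ t ∧ t ≤ a + n) ∧
    Real.sqrt n / A ≤ (sm (gs h) s : ℝ) - sm (gs h) t) →
  (∀ a q n : ℕ, a < N → 1 ≤ q → 1 ≤ n → n * q ≤ M → ∀ x : ℝ,
    (((Finset.range n).filter
      (fun i : ℕ => |(sm (gs h) (a + i * q) : ℝ) - x| ≤ 2 * A * Real.sqrt q)).card : ℝ)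
      ≤ A ^ 3 * Real.sqrt n) →
  ∀ lo : ℤ, Good A (gs h) lo (lo + M)

/-- union bound -/
def St_P7b : Prop := ∀ (N M p : ℕ) [NeZero N] (A : ℝ), 1 ≤ M → M ≤ N → 2 ≤ A → 1 ≤ p →
  4 * (p : ℝ) ≤ A ^ 3 →
  pb (fun h : ZMod N → Bool => ¬ ∀ lo : ℤ, Good A (gs h) lo (lo + M)) ≤
    N * M * (2 * Real.exp (-(A ^ 2) / 2)) + N * M * (13 / 16) ^ ⌊A ^ 2 / 5⌋₊
      + N * M * M * (M * (72 * p / A ^ 2) ^ p)

/-- choice of parameters -/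
def St_P7c : Prop := ∀ ε : ℝ, 0 < ε → ∃ (p T0 : ℕ), 1 ≤ p ∧ ∀ T : ℕ, T0 ≤ T →
  1 ≤ T ∧ 2 ≤ (T : ℝ) ^ ε ∧ 4 * (p : ℝ) ≤ ((T : ℝ) ^ ε) ^ 3 ∧
  (128 * T : ℝ) * (16 * T) * (2 * Real.exp (-(((T : ℝ) ^ ε) ^ 2) / 2)) +
    (128 * T : ℝ) * (16 * T) * (13 / 16) ^ ⌊((T : ℝ) ^ ε) ^ 2 / 5⌋₊ +
    (128 * T : ℝ) * (16 * T) * (16 * T) * ((16 * T) * (72 * p / ((T : ℝ) ^ ε) ^ 2) ^ p)
      ≤ 1 / (T : ℝ) ^ 2

/-- good environments have probability at least `1 - T^{-2}` -/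
def St_PB : Prop := ∀ ε : ℝ, 0 < ε → ∃ T0 : ℕ, ∀ (T N : ℕ) [NeZero N], T0 ≤ T → N = 128 * T →
  pb (fun h : ZMod N → Bool => ¬ ∀ lo : ℤ, Good ((T : ℝ) ^ ε) (gs h) lo (lo + (16 * T : ℕ)))
    ≤ 1 / (T : ℝ) ^ 2

theorem PB_of (h7b : St_P7b) (h7c : St_P7c) : St_PB := by
  intro ε hε
  obtain ⟨p, T0, hp, h⟩ := h7c ε hε
  refine ⟨T0, fun T N _ hT hN => ?_⟩
  obtain ⟨h1, h2, h3, h4⟩ := h T hT
  refine (h7b N (16 * T) p ((T : ℝ) ^ ε) (by omega) (by omega) h2 hp h3).trans ?_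
  refine le_trans (le_of_eq ?_) h4
  subst hN
  push_cast
  ring

end MHL
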