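import Pool.Agent.MHL.StE
import Pool.Agent.MHL.StP

/-!
# MHL: frozen statements, part X: the corrector on the torus (Section 8)
-/

set_option autoImplicit false

namespace MHL

open Pool.Agent.Helper47.Manh (sg)

/-- the torus -/
abbrev Tr (N : ℕ) := ZMod N × ZMod N

/-- projection to the torus -/
def cst {N : ℕ} (z : Pt) : Tr N := ((z.1 : ZMod N), (z.2 : ZMod N))

/-- representative of a point of the torus -/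
def lft {N : ℕ} (z : Tr N) : Pt := ((z.1.val : ℤ), (z.2.val : ℤ))

lemma gs_or {N : ℕ} (h : ZMod N → Bool) (y : ℤ) : gs h y = 1 ∨ gs h y = -1 := by
  unfold gs sg
  split_ifs <;> simp

/-- periodic environment -/
def tE {N : ℕ} (h v : ZMod N → Bool) : Env := ⟨gs h, gs v, gs_or h, gs_or v⟩

/-- horizontal successor on the torus -/
def t1 {N : ℕ} (h : ZMod N → Bool) (z : Tr N) : Tr N := (z.1 + ((sg (h z.2) : ℤ) : ZMod N), z.2)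
/-- vertical successor on the torus -/
def t2 {N : ℕ} (v : ZMod N → Bool) (z : Tr N) : Tr N := (z.1, z.2 + ((sg (v z.1) : ℤ) : ZMod N))
/-- Markov operator on the torus -/
noncomputable def tP {N : ℕ} (h v : ZMod N → Bool) (f : Tr N → ℝ) (z : Tr N) : ℝ :=
  (f (t1 h z) + f (t2 v z)) / 2
/-- average over the torus -/
noncomputable def ta {N : ℕ} [NeZero N] (F : Tr N → ℝ) : ℝ := (∑ z, F z) / (N : ℝ) ^ 2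
/-- mean horizontal step -/
noncomputable def ff {N : ℕ} (h : ZMod N → Bool) (z : Tr N) : ℝ := (sg (h z.2) : ℝ) / 2
/-- resolvent equation -/
def Rs {N : ℕ} (h v : ZMod N → Bool) (q : ℝ) (f χ : Tr N → ℝ) : Prop :=
  ∀ z, χ z - q * tP h v χ z = f z
/-- the quantity `D` -/
noncomputable def DD {N : ℕ} [NeZero N] (h : ZMod N → Bool) (χ : Tr N → ℝ) : ℝ :=
  ta (fun z => ff h z * χ z)
/-- energy density of `χ + x` -/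
noncomputable def ew {N : ℕ} (h v : ZMod N → Bool) (χ : Tr N → ℝ) (z : Tr N) : ℝ :=
  ((χ (t1 h z) - χ z + (sg (h z.2) : ℝ)) ^ 2 + (χ (t2 v z) - χ z) ^ 2) / 2

/-- existence and uniqueness for the resolvent equation -/
def St_X1 : Prop := ∀ (N : ℕ) [NeZero N] (h v : ZMod N → Bool) (q : ℝ), 0 ≤ q → q < 1 →
  (∀ f : Tr N → ℝ, ∃ χ : Tr N → ℝ, Rs h v q f χ) ∧
  (∀ f χ χ' : Tr N → ℝ, Rs h v q f χ → Rs h v q f χ' → χ = χ')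

/-- invariance and identities on the torus -/
def St_X2 : Prop := ∀ (N : ℕ) [NeZero N] (h v : ZMod N → Bool) (F G : Tr N → ℝ),
  ta (fun z => F (t1 h z)) = ta F ∧ ta (fun z => F (t2 v z)) = ta F ∧
  (∀ a : Tr N, ta (fun z => F (z + a)) = ta F) ∧
  ta (fun z => tP h v F z ^ 2) ≤ ta (fun z => F z ^ 2) ∧
  ta (fun z => ((F (t1 h z) - F z) ^ 2 + (F (t2 v z) - F z) ^ 2) / 2) =
    2 * (ta (fun z => F z ^ 2) - ta (fun z => F z * tP h v F z)) ∧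
  ta (fun z => F z * G z) ^ 2 ≤ ta (fun z => F z ^ 2) * ta (fun z => G z ^ 2)

/-- (8.1), (8.2): energy of the corrector -/
def St_X3 : Prop := ∀ (N t : ℕ) [NeZero N] (h v : ZMod N → Bool) (χ : Tr N → ℝ), 2 ≤ t →
  Rs h v (1 - 1 / (t : ℝ)) (ff h) χ →
  0 ≤ DD h χ ∧ DD h χ ≤ t ∧ ta (fun z => χ z ^ 2) ≤ t * DD h χ ∧
  ta (ew h v χ) ≤ 8 * DD h χ + 1 ∧ ta (fun z => (tP h v χ z / t) ^ 2) ≤ DD h χ / t

/-- the lift `χ + x` -/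
def St_X4 : Prop := ∀ (N t : ℕ) [NeZero N] (h v : ZMod N → Bool) (χ : Tr N → ℝ), 2 ≤ t →
  Rs h v (1 - 1 / (t : ℝ)) (ff h) χ →
  (∀ p : Pt, (χ (cst p) + (p.1 : ℝ)) - Pf (tE h v) (fun z => χ (cst z) + (z.1 : ℝ)) p
    = - (tP h v χ (cst p) / t)) ∧
  (∀ U : Finset Pt, en (tE h v) (fun z => χ (cst z) + (z.1 : ℝ)) U = ∑ p ∈ U, ew h v χ (cst p))

/-- sum over the dyadic square with corner `z` -/
noncomputable def csq {R : Type*} [CommRing R] (k : ℕ) (f : R × R → ℝ) (z : R × R) : ℝ :=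
  ∑ i ∈ Finset.range (2 ^ k), ∑ j ∈ Finset.range (2 ^ k), f (z.1 + (i : R), z.2 + (j : R))

/-- corner of one of the four children -/
def sft {R : Type*} [CommRing R] (k a b : ℕ) (z : R × R) : R × R :=
  (z.1 + ((2 ^ k * a : ℕ) : R), z.2 + ((2 ^ k * b : ℕ) : R))

/-- local estimate -/
def St_X5 : Prop := ∀ (E : Env) (Λ T M : ℝ) (k a b : ℕ) (c : Pt) (w g t t' : Pt → ℝ),
  MTa E Λ T → (2 : ℝ) ^ (k + 1) ≤ T → 0 ≤ Λ → 0 ≤ M →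
  Gr E (bx c (4 * 2 ^ (k + 1))) (fun _ => 1) t → (∀ z, t z ≤ M) →
  Gr E.rev (bx c (4 * 2 ^ (k + 1))) (fun _ => 1) t' → (∀ z, t' z ≤ M) →
  (∀ z ∈ bx c (4 * 2 ^ (k + 1)), w z - Pf E w z = g z) → a ≤ 1 → b ≤ 1 →
  (csq k w (sft k a b c) / 4 ^ k - csq (k + 1) w c / 4 ^ (k + 1)) ^ 2 ≤
    2 * (Λ / Real.sqrt (2 ^ (k + 1))) * (2 * en E w (bx c (4 * 2 ^ (k + 1))) +
      4 * M * ∑ z ∈ bx c (4 * 2 ^ (k + 1)), g z ^ 2)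
    + 8 / 4 ^ k * M ^ 2 * ∑ z ∈ bx c (4 * 2 ^ (k + 1)), g z ^ 2

/-- averages of sums over boxes -/
def St_X6 : Prop := ∀ (N : ℕ) [NeZero N] (F : Tr N → ℝ) (R : ℕ),
  ta (fun z : Tr N => ∑ p ∈ bx (lft z) R, F (cst p)) = (2 * (R : ℝ) + 1) ^ 2 * ta F

/-- upper bound for the mean square of the increments of scale `k` -/
noncomputable def Bk (Λ M D t : ℝ) (k : ℕ) : ℝ :=
  2 * (2 * (Λ / Real.sqrt (2 ^ (k + 1))) * (2 * ((8 * 2 ^ (k + 1) + 1) ^ 2 * (8 * D + 1)) +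
      4 * M * ((8 * 2 ^ (k + 1) + 1) ^ 2 * (D / t)))
    + 8 / 4 ^ k * M ^ 2 * ((8 * 2 ^ (k + 1) + 1) ^ 2 * (D / t))) + 4 ^ k / 2

/-- torus average of the local estimate -/
def St_X7 : Prop := ∀ (N t : ℕ) [NeZero N] (h v : ZMod N → Bool) (Λ T M : ℝ) (k a b : ℕ)
  (χ : Tr N → ℝ), 2 ≤ t → Rs h v (1 - 1 / (t : ℝ)) (ff h) χ → MTa (tE h v) Λ T →
  (2 : ℝ) ^ (k + 1) ≤ T → 0 ≤ Λ → 0 ≤ M →
  (∀ (c : Pt) (u : Pt → ℝ), Gr (tE h v) (bx c (4 * 2 ^ (k + 1))) (fun _ => 1) u →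
    ∀ z, u z ≤ M) →
  (∀ (c : Pt) (u : Pt → ℝ), Gr (tE h v).rev (bx c (4 * 2 ^ (k + 1))) (fun _ => 1) u →
    ∀ z, u z ≤ M) → a ≤ 1 → b ≤ 1 →
  ta (fun z => (csq k χ (sft k a b z) / 4 ^ k - csq (k + 1) χ z / 4 ^ (k + 1)) ^ 2) ≤
    Bk Λ M (DD h χ) t k

/-- sums of `f` over dyadic squares -/
def St_X8 : Prop := ∀ (N : ℕ) [NeZero N] (h : ZMod N → Bool) (A : ℝ) (k : ℕ),
  (∀ a : ℤ, |(sm (gs h) (a + 2 ^ k) : ℝ) - sm (gs h) a| ≤ A * Real.sqrt (2 ^ k)) →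
  ∀ z : Tr N, |csq k (ff h) z| ≤ A * 2 ^ k * Real.sqrt (2 ^ k) / 2

/-- scale `k` version of `⟨f, χ⟩` -/
noncomputable def Ek {N : ℕ} [NeZero N] (f χ : Tr N → ℝ) (k : ℕ) : ℝ :=
  ta (fun z => csq k f z * csq k χ z) / 16 ^ k

/-- telescoping over scales -/
def St_X9 : Prop := ∀ (N : ℕ) [NeZero N] (f χ : Tr N → ℝ) (k : ℕ) (K B : ℝ), 0 ≤ K →
  (∀ z, |csq k f z| ≤ K) →
  Ek f χ 0 = ta (fun z => f z * χ z) ∧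
  ((∀ a b : ℕ, a ≤ 1 → b ≤ 1 →
    ta (fun z => (csq k χ (sft k a b z) / 4 ^ k - csq (k + 1) χ z / 4 ^ (k + 1)) ^ 2) ≤ B) →
    |Ek f χ k - Ek f χ (k + 1)| ≤ K * Real.sqrt B / 4 ^ k) ∧
  |Ek f χ k| ≤ K * Real.sqrt (ta (fun z => χ z ^ 2)) / 4 ^ k

/-- main inequality for `D` -/
def St_X10 : Prop := ∀ (N t m : ℕ) [NeZero N] (h v : ZMod N → Bool) (A Λ Q : ℝ)
  (χ : Tr N → ℝ), 2 ≤ t → Rs h v (1 - 1 / (t : ℝ)) (ff h) χ → 0 ≤ A → 0 ≤ Λ → 0 ≤ Q →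
  (∀ (a : ℤ) (k : ℕ), k ≤ m →
    |(sm (gs h) (a + 2 ^ k) : ℝ) - sm (gs h) a| ≤ A * Real.sqrt (2 ^ k)) →
  MTa (tE h v) Λ t → 4 * (2 : ℝ) ^ m ≤ t →
  (∀ (s : ℕ) (c : Pt) (u : Pt → ℝ), (2 : ℝ) ^ s ≤ t → Gr (tE h v) (bx c (2 ^ s)) (fun _ => 1) u →
    ∀ z, u z ≤ ((2 : ℝ) ^ s) ^ (3 / 2 : ℝ) * Q) →
  (∀ (s : ℕ) (c : Pt) (u : Pt → ℝ), (2 : ℝ) ^ s ≤ t →
    Gr (tE h v).rev (bx c (2 ^ s)) (fun _ => 1) u →
    ∀ z, u z ≤ ((2 : ℝ) ^ s) ^ (3 / 2 : ℝ) * Q) →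
  DD h χ ≤ ∑ k ∈ Finset.range m, A / (2 * Real.sqrt (2 ^ k)) *
      Real.sqrt (Bk Λ (((2 : ℝ) ^ (k + 3)) ^ (3 / 2 : ℝ) * Q) (DD h χ) t k)
    + A / (2 * Real.sqrt (2 ^ m)) * Real.sqrt (t * DD h χ)

/-- solution of the main inequality -/
def St_X11 : Prop := ∀ ε : ℝ, 0 < ε → ε ≤ 1 → ∃ T0 : ℕ, ∀ (t m : ℕ) (D : ℝ), T0 ≤ t →
  (2 : ℝ) ^ m ≤ (t : ℝ) ^ (2 / 3 : ℝ) → (t : ℝ) ^ (2 / 3 : ℝ) ≤ 2 ^ (m + 1) → 0 ≤ D →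
  D ≤ ∑ k ∈ Finset.range m, (t : ℝ) ^ ε / (2 * Real.sqrt (2 ^ k)) *
      Real.sqrt (Bk ((t : ℝ) ^ ε) (((2 : ℝ) ^ (k + 3)) ^ (3 / 2 : ℝ) * (t : ℝ) ^ (4 * ε)) D t k)
    + (t : ℝ) ^ ε / (2 * Real.sqrt (2 ^ m)) * Real.sqrt (t * D) →
  D ≤ (t : ℝ) ^ (1 / 3 + 12 * ε)

/-- bound for the corrector in good environments -/
def St_XC : Prop := ∀ ε : ℝ, 0 < ε → ε ≤ 1 → ∃ T0 : ℕ, ∀ (t N : ℕ) [NeZero N]
  (h v : ZMod N → Bool) (χ : Tr N → ℝ), T0 ≤ t →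
  MTa (tE h v) ((t : ℝ) ^ ε) t → MTa (tE h v).rev ((t : ℝ) ^ ε) t →
  (∀ (a : ℤ) (k : ℕ), (2 : ℝ) ^ k ≤ t →
    |(sm (gs h) (a + 2 ^ k) : ℝ) - sm (gs h) a| ≤ (t : ℝ) ^ ε * Real.sqrt (2 ^ k)) →
  Rs h v (1 - 1 / (t : ℝ)) (ff h) χ → DD h χ ≤ (t : ℝ) ^ (1 / 3 + 12 * ε)

/-! ### the mean square displacement -/

/-- quenched mean of `x_n - x_0` -/
noncomputable def mm1 {N : ℕ} (h v : ZMod N → Bool) : ℕ → Tr N → ℝ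
  | 0 => fun _ => 0
  | n + 1 => fun z => ff h z + tP h v (mm1 h v n) z

/-- quenched mean of `(x_n - x_0)^2` -/
noncomputable def mm2 {N : ℕ} (h v : ZMod N → Bool) : ℕ → Tr N → ℝ
  | 0 => fun _ => 0
  | n + 1 => fun z => 1 / 2 + (sg (h z.2) : ℝ) * mm1 h v n (t1 h z) + tP h v (mm2 h v n) z

/-- elementary properties of the moments -/
def St_X13a : Prop := ∀ (N : ℕ) [NeZero N] (h v : ZMod N → Bool) (n : ℕ),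
  ta (mm2 h v (n + 1)) = ta (mm2 h v n) + 1 / 2 + 2 * ta (fun z => ff h z * mm1 h v n z) ∧
  (∀ z, 0 ≤ mm2 h v n z) ∧ (∀ z, mm2 h v n z ≤ (n : ℝ) ^ 2) ∧ (∀ z, |mm1 h v n z| ≤ n)

/-- (8.4) -/
def St_X13 : Prop := ∀ (N t : ℕ) [NeZero N] (h v : ZMod N → Bool) (χ : Tr N → ℝ), 2 ≤ t →
  Rs h v (1 - 1 / (t : ℝ)) (ff h) χ →
  ∑ n ∈ Finset.range (t + 1), ta (mm2 h v n) ≤ 4 * (t : ℝ) ^ 2 * (1 / 2 + 2 * DD h χ)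

end MHL
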