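import Pool.Agent.MHL.StX
import Pool.Agent.Helper47.Manh.Chain

/-!
# MHL: frozen statements, part Z: link with the finite model of the walk
-/

set_option autoImplicit false

namespace MHL

open Pool.Agent.Helper47.Manh (sg Vf)

/-- average over the coins -/
def St_Z1 : Prop := ∀ (N T n : ℕ) [NeZero N], n ≤ T →
  Vf N T n = (∑ h : ZMod N → Bool, ∑ v : ZMod N → Bool, mm2 h v n (0, 0)) / (2 ^ N * 2 ^ N)

/-- translation invariance of the law of the environment -/
def St_Z2 : Prop := ∀ (N n : ℕ) [NeZero N],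
  ∑ h : ZMod N → Bool, ∑ v : ZMod N → Bool, mm2 h v n (0, 0) =
    ∑ h : ZMod N → Bool, ∑ v : ZMod N → Bool, ta (mm2 h v n)

end MHL
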