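import Pool.Agent.MHL.StX

/-!
# MHL: the averaged mean square displacement in terms of the corrector
-/

set_option autoImplicit false

namespace MHL

open Pool.Agent.Helper47.Manh (sg)

lemma x13_quarter (t : ℕ) (ht : 2 ≤ t) : (1 : ℝ) / 4 ≤ (1 - 1 / (t : ℝ)) ^ t := by
  have ht0 : (0 : ℝ) < t := by exact_mod_cast (by omega : 0 < t)
  have hq : (0 : ℝ) ≤ 1 - 1 / (t : ℝ) := by
    rw [sub_nonneg, div_le_one ht0]
    exact_mod_cast (by omega : 1 ≤ t)
  have hB : ∀ k : ℕ, 1 - (k : ℝ) / t ≤ (1 - 1 / (t : ℝ)) ^ k := by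
    intro k
    have h1 : -2 ≤ -(1 / (t : ℝ)) := by
      have : 1 / (t : ℝ) ≤ 1 := by
        rw [div_le_one ht0]
        exact_mod_cast (by omega : 1 ≤ t)
      linarith
    have h2 := one_add_mul_le_pow h1 k
    have e : 1 + (k : ℝ) * -(1 / (t : ℝ)) = 1 - (k : ℝ) / t := by ring
    rw [e] at h2
    have e2 : 1 + -(1 / (t : ℝ)) = 1 - 1 / (t : ℝ) := by ring
    rw [e2] at h2
    exact h2
  rcases Nat.even_or_odd' t with ⟨k, hk | hk⟩
  · have h1 := hB k
    have e1 : 1 - (k : ℝ) / t = 1 / 2 := by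
      rw [hk]
      push_cast
      have : (k : ℝ) ≠ 0 := by
        have : 0 < k := by omega
        exact_mod_cast this.ne'
      field_simp
      ring
    rw [e1] at h1
    have e2 : (1 - 1 / (t : ℝ)) ^ t = ((1 - 1 / (t : ℝ)) ^ k) ^ 2 := by
      rw [← pow_mul]
      congr 1
      omega
    rw [e2]
    nlinarith
  · have h1 := hB k
    have hk0 : 1 ≤ k := by omega
    have hkr : (1 : ℝ) ≤ k := by exact_mod_cast hk0
    have e0 : (t : ℝ) = 2 * k + 1 := by rw [hk]; push_cast; ring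
    have e1 : 1 - (k : ℝ) / t = (k + 1) / (2 * k + 1) := by
      rw [e0]
      field_simp
      ring
    have e3 : 1 - 1 / (t : ℝ) = 2 * k / (2 * k + 1) := by
      rw [e0]
      field_simp
      ring
    have e2 : (1 - 1 / (t : ℝ)) ^ t = ((1 - 1 / (t : ℝ)) ^ k) ^ 2 * (1 - 1 / (t : ℝ)) := by
      rw [← pow_mul, ← pow_succ]
      congr 1
      omega
    rw [e2]
    rw [e1] at h1
    have h2 : ((k + 1 : ℝ) / (2 * k + 1)) ^ 2 ≤ ((1 - 1 / (t : ℝ)) ^ k) ^ 2 :=
      pow_le_pow_left₀ (by positivity) h1 2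
    have h3 : (1 : ℝ) / 4 ≤ ((k + 1 : ℝ) / (2 * k + 1)) ^ 2 * (2 * k / (2 * k + 1)) := by
      rw [div_pow, div_mul_div_comm, div_le_div_iff₀ (by norm_num) (by positivity)]
      nlinarith [mul_pos (show (0 : ℝ) < k by linarith) (show (0 : ℝ) < k by linarith)]
    refine h3.trans ?_
    rw [e3] at hq ⊢
    rw [e3] at h2
    exact mul_le_mul_of_nonneg_right h2 hq

theorem thm_X13 (h1 : St_X1) (h3 : St_X3) (ha : St_X13a) : St_X13 := by
  intro N t _ h v χ ht hχ
  have ht0 : (0 : ℝ) < t := by exact_mod_cast (by omega : 0 < t)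
  have hD := (h3 N t h v χ ht hχ).1
  set q : ℝ := 1 - 1 / (t : ℝ) with hq
  have hq1 : q < 1 := by
    have : 0 < 1 / (t : ℝ) := by positivity
    linarith
  have hq0 : 0 ≤ q := by
    rw [hq, sub_nonneg, div_le_one ht0]
    exact_mod_cast (by omega : 1 ≤ t)
  have hqn : ‖q‖ < 1 := by
    rw [Real.norm_eq_abs, abs_of_nonneg hq0]
    exact hq1
  have h1q : (1 - q) = 1 / (t : ℝ) := by rw [hq]; ring
  have h1q0 : (1 - q) ≠ 0 := by rw [h1q]; positivity
  -- summability
  have hs1 : ∀ z, Summable fun n : ℕ => q ^ n * mm1 h v n z := by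
    intro z
    refine Summable.of_norm_bounded (g := fun n : ℕ => (n : ℝ) ^ 1 * q ^ n)
      (summable_pow_mul_geometric_of_norm_lt_one 1 hqn) fun n => ?_
    rw [norm_mul, norm_pow, Real.norm_eq_abs, Real.norm_eq_abs, abs_of_nonneg hq0, pow_one,
      mul_comm]
    exact mul_le_mul_of_nonneg_right ((ha N h v n).2.2.2 z) (by positivity)
  have hta0 : ∀ n, 0 ≤ ta (mm2 h v n) := by
    intro n
    unfold ta
    exact div_nonneg (Finset.sum_nonneg fun z _ => (ha N h v n).2.1 z) (by positivity)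
  have hN0 : (0 : ℝ) < (N : ℝ) ^ 2 := by
    have : (0 : ℝ) < N := by exact_mod_cast Nat.pos_of_ne_zero (NeZero.ne N)
    positivity
  have hta1 : ∀ n, ta (mm2 h v n) ≤ (n : ℝ) ^ 2 := by
    intro n
    unfold ta
    rw [div_le_iff₀ hN0]
    refine (Finset.sum_le_sum fun z _ => (ha N h v n).2.2.1 z).trans ?_
    rw [Finset.sum_const, Finset.card_univ, Fintype.card_prod, ZMod.card, nsmul_eq_mul]
    push_cast
    exact le_of_eq (by ring)
  have hs2 : Summable fun n : ℕ => q ^ n * ta (mm2 h v n) := by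
    refine Summable.of_norm_bounded (g := fun n : ℕ => (n : ℝ) ^ 2 * q ^ n)
      (summable_pow_mul_geometric_of_norm_lt_one 2 hqn) fun n => ?_
    rw [norm_mul, norm_pow, Real.norm_eq_abs, Real.norm_eq_abs, abs_of_nonneg hq0,
      abs_of_nonneg (hta0 n), mul_comm]
    exact mul_le_mul_of_nonneg_right (hta1 n) (by positivity)
  have hgeo : HasSum (fun n : ℕ => q ^ n) (1 - q)⁻¹ := hasSum_geometric_of_lt_one hq0 hq1
  -- the generating function of the first moments
  set A : Tr N → ℝ := fun z => ∑' n : ℕ, q ^ n * mm1 h v n z with hA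
  have hAs : ∀ z, HasSum (fun n : ℕ => q ^ n * mm1 h v n z) (A z) := fun z => (hs1 z).hasSum
  have hAeq : ∀ z, A z - q * tP h v A z = q * (1 - q)⁻¹ * ff h z := by
    intro z
    have e1 : A z = 0 + ∑' n : ℕ, q ^ (n + 1) * mm1 h v (n + 1) z := by
      rw [hA]
      simp only
      rw [(hs1 z).tsum_eq_zero_add]
      simp [mm1]
    have e2 : HasSum (fun n : ℕ => q ^ (n + 1) * mm1 h v (n + 1) z)
        (q * ff h z * (1 - q)⁻¹ + q / 2 * (A (t1 h z) + A (t2 v z))) := by
      have := (hgeo.mul_left (q * ff h z)).add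
        (((hAs (t1 h z)).add (hAs (t2 v z))).mul_left (q / 2))
      refine this.congr_fun ?_
      intro n
      simp only [mm1, tP]
      ring
    rw [e2.tsum_eq] at e1
    rw [e1]
    unfold tP
    ring
  have hAχ : A = fun z => q * (1 - q)⁻¹ * χ z := by
    refine (h1 N h v q hq0 hq1).2 (fun z => q * (1 - q)⁻¹ * ff h z) _ _ hAeq ?_
    intro z
    have := hχ z
    simp only [tP] at this ⊢
    rw [← this]
    ring
  -- the generating function of the correlations
  have hC : HasSum (fun n : ℕ => q ^ n * ta (fun z => ff h z * mm1 h v n z))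
      (q * (1 - q)⁻¹ * DD h χ) := by
    have e1 : HasSum (fun n : ℕ => ∑ z, ff h z * (q ^ n * mm1 h v n z))
        (∑ z, ff h z * A z) := hasSum_sum fun z _ => (hAs z).mul_left _
    have e2 := e1.div_const ((N : ℝ) ^ 2)
    have e3 : (∑ z, ff h z * A z) / (N : ℝ) ^ 2 = q * (1 - q)⁻¹ * DD h χ := by
      rw [hAχ]
      unfold DD ta
      rw [← mul_div_assoc, Finset.mul_sum]
      congr 1
      refine Finset.sum_congr rfl fun z _ => ?_
      ring
    rw [e3] at e2
    refine e2.congr_fun ?_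
    intro n
    unfold ta
    rw [← mul_div_assoc, Finset.mul_sum]
    congr 1
    refine Finset.sum_congr rfl fun z _ => ?_
    ring
  -- the generating function of the second moments
  set S : ℝ := ∑' n : ℕ, q ^ n * ta (mm2 h v n) with hS
  have hSs : HasSum (fun n : ℕ => q ^ n * ta (mm2 h v n)) S := hs2.hasSum
  have hSeq : S = q * (S + (1 - q)⁻¹ * (1 / 2) + 2 * (q * (1 - q)⁻¹ * DD h χ)) := by
    have e1 : S = 0 + ∑' n : ℕ, q ^ (n + 1) * ta (mm2 h v (n + 1)) := by
      rw [hS, hs2.tsum_eq_zero_add]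
      simp [mm2, ta]
    have e2 : HasSum (fun n : ℕ => q ^ (n + 1) * ta (mm2 h v (n + 1)))
        (q * (S + (1 - q)⁻¹ * (1 / 2) + 2 * (q * (1 - q)⁻¹ * DD h χ))) := by
      have := (((hSs.add (hgeo.mul_right (1 / 2))).add (hC.mul_left 2))).mul_left q
      refine this.congr_fun ?_
      intro n
      rw [(ha N h v n).1]
      ring
    rw [e2.tsum_eq, zero_add] at e1
    exact e1
  have hSval : S = (t : ℝ) ^ 2 * (q / 2 + 2 * q ^ 2 * DD h χ) := by
    have e1 : (1 - q)⁻¹ = (t : ℝ) := by rw [h1q]; simp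
    rw [e1] at hSeq
    have e2 : (1 - q) * S = q * (t * (1 / 2) + 2 * (q * t * DD h χ)) := by linarith
    rw [h1q] at e2
    have e3 : S = t * (1 / (t : ℝ) * S) := by field_simp
    rw [e3, e2]
    ring
  have hSle : S ≤ (t : ℝ) ^ 2 * (1 / 2 + 2 * DD h χ) := by
    rw [hSval]
    apply mul_le_mul_of_nonneg_left ?_ (by positivity)
    have : q ^ 2 ≤ 1 := pow_le_one₀ hq0 hq1.le
    nlinarith
  have hfin : ∑ n ∈ Finset.range (t + 1), q ^ n * ta (mm2 h v n) ≤ S :=
    hs2.sum_le_tsum _ fun n _ => mul_nonneg (by positivity) (hta0 n)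
  have hterm : ∀ n ∈ Finset.range (t + 1), ta (mm2 h v n) ≤ 4 * (q ^ n * ta (mm2 h v n)) := by
    intro n hn
    rw [Finset.mem_range] at hn
    have e1 : q ^ t ≤ q ^ n := pow_le_pow_of_le_one hq0 hq1.le (by omega)
    have e2 := x13_quarter t ht
    rw [← hq] at e2
    have e3 := hta0 n
    nlinarith
  refine (Finset.sum_le_sum hterm).trans ?_
  rw [← Finset.mul_sum]
  linarith

end MHL
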