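import Pool.Agent.MHL.StZ
import Pool.Agent.MHL.StM

/-!
# MHL: averaging over the environment, final form of the upper bound
-/

set_option autoImplicit false

namespace MHL

open Pool.Agent.Helper47.Manh (sg Vf)

lemma zf_good_neg {A : ℝ} {g : ℤ → ℤ} {lo hi : ℤ} (h : Good2 A g lo hi) :
    Good2 A (fun k => - g k) lo hi := by
  refine ⟨fun a b h1 h2 h3 => ?_, fun a b h1 h2 h3 h4 => ?_, fun a q n x h1 h2 h3 h4 => ?_⟩
  · rw [sm_neg, sm_neg]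
    have := h.g1 a b h1 h2 h3
    push_cast
    rw [show (-(sm g b : ℝ) - -(sm g a : ℝ)) = -((sm g b : ℝ) - sm g a) by ring, abs_neg]
    exact this
  · obtain ⟨s, t, hs, ht, hst⟩ := h.g2 a b h1 h2 h3 h4
    refine ⟨t, s, ht, hs, ?_⟩
    rw [sm_neg, sm_neg]
    push_cast
    linarith
  · have := h.g3 a q n (-x) h1 h2 h3 h4
    have e : ((Finset.range n).filter
      (fun i : ℕ => |(sm (fun k => - g k) (a + i * q) : ℝ) - x| ≤ 2 * A * Real.sqrt q)) =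
      ((Finset.range n).filter
      (fun i : ℕ => |(sm g (a + i * q) : ℝ) - (-x)| ≤ 2 * A * Real.sqrt q)) := by
      refine Finset.filter_congr fun i _ => ?_
      rw [sm_neg]
      push_cast
      rw [show (-(sm g (a + i * q) : ℝ) - x) = -((sm g (a + i * q) : ℝ) - (-x)) by ring, abs_neg]
    rw [e]
    exact this

lemma zf_good2 {A : ℝ} {g : ℤ → ℤ} {lo : ℤ} (M : ℕ) (hA : 1 ≤ A)
    (h : Good A g lo (lo + 2 * M)) : Good2 A g lo (lo + M) := by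
  have hM : (0 : ℤ) ≤ M := by positivity
  refine ⟨fun a b h1 h2 h3 => h.g1 a b h1 h2 (by linarith),
    fun a b h1 h2 h3 h4 => h.g2 a b h1 h2 (by linarith) h4, fun a q n x h1 h2 h3 h4 => ?_⟩
  rcases Nat.lt_or_ge n 2 with hn | hn
  · have : n = 1 := by omega
    subst this
    have h5 : (((Finset.range 1).filter
      (fun i : ℕ => |(sm g (a + i * q) : ℝ) - x| ≤ 2 * A * Real.sqrt q)).card : ℝ) ≤ 1 := by
      have := Finset.card_filter_le (Finset.range 1)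
        (fun i : ℕ => |(sm g (a + i * q) : ℝ) - x| ≤ 2 * A * Real.sqrt q)
      rw [Finset.card_range] at this
      exact_mod_cast this
    have h6 : (1 : ℝ) ≤ A ^ 3 * Real.sqrt ((1 : ℕ) : ℝ) := by
      simp only [Nat.cast_one, Real.sqrt_one, mul_one]
      exact one_le_pow₀ hA
    exact h5.trans h6
  · refine h.g3 a q n x h1 h2 h3 ?_
    have hn' : (2 : ℤ) ≤ n := by exact_mod_cast hn
    have hq : (1 : ℤ) ≤ q := by exact_mod_cast h1
    nlinarith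

lemma zf_MTa_mono {E : Env} {Λ Λ' T : ℝ} (h : MTa E Λ T) (hl : Λ ≤ Λ') : MTa E Λ' T :=
  fun s hs c u hu z hz w hw => (h s hs c u hu z hz w hw).trans
    (mul_le_mul_of_nonneg_right hl (en_nonneg _ _ _))

lemma zf_MTa_of {E : Env} {Λ : ℝ} (t : ℕ)
    (h : ∀ c : Pt, MTp E Λ c (16 * t) (4 * (t : ℝ))) : MTa E Λ t := by
  intro s hs c u hu z hz w hw
  have hs' : 2 ^ s ≤ t := by exact_mod_cast hs
  have ht0 : (0 : ℝ) ≤ t := Nat.cast_nonneg t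
  refine h c s (by linarith) c ?_ u hu z hz w hw
  intro p hp
  rw [mem_bx] at hp ⊢
  have : ((16 * 2 ^ s : ℕ) : ℤ) ≤ ((16 * t : ℕ) : ℤ) := by exact_mod_cast (by omega : 16 * 2 ^ s ≤ 16 * t)
  exact ⟨hp.1.trans this, hp.2.trans this⟩

lemma zf_goodE {N : ℕ} (h v : ZMod N → Bool) (A : ℝ) (t : ℕ) (hA : 1 ≤ A)
    (hh : ∀ lo : ℤ, Good A (gs h) lo (lo + (16 * (4 * t) : ℕ)))
    (hv : ∀ lo : ℤ, Good A (gs v) lo (lo + (16 * (4 * t) : ℕ))) (c : Pt) :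
    GoodE A (tE h v) c (16 * t) ∧ GoodE A (tE h v).rev c (16 * t) := by
  have e0 : ∀ x : ℤ, x - ((16 * t : ℕ) : ℤ) + ((16 * (4 * t) : ℕ) : ℤ) =
      x - ((16 * t : ℕ) : ℤ) + 2 * ((32 * t : ℕ) : ℤ) := by
    intro x; push_cast; ring
  have e1 : ∀ x : ℤ, x - ((16 * t : ℕ) : ℤ) + ((32 * t : ℕ) : ℤ) = x + ((16 * t : ℕ) : ℤ) := by
    intro x; push_cast; ring
  have h1 := hh (c.2 - ((16 * t : ℕ) : ℤ))
  have h2 := hv (c.1 - ((16 * t : ℕ) : ℤ))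
  rw [e0] at h1 h2
  have h1' := zf_good2 (32 * t) hA h1
  have h2' := zf_good2 (32 * t) hA h2
  rw [e1] at h1' h2'
  exact ⟨⟨h1', h2'⟩, ⟨zf_good_neg h1', zf_good_neg h2'⟩⟩

/-- the mixing estimate in a good periodic environment -/
lemma zf_MT (hMT : St_MT) (ε : ℝ) (hε : 0 < ε) (hε1 : ε ≤ 1) : ∃ ε' : ℝ, 0 < ε' ∧ ∃ T0 : ℕ,
    ∀ (t N : ℕ) [NeZero N] (h v : ZMod N → Bool), T0 ≤ t →
    (∀ lo : ℤ, Good (((4 * t : ℕ) : ℝ) ^ ε') (gs h) lo (lo + (16 * (4 * t) : ℕ))) →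
    (∀ lo : ℤ, Good (((4 * t : ℕ) : ℝ) ^ ε') (gs v) lo (lo + (16 * (4 * t) : ℕ))) →
    MTa (tE h v) ((t : ℝ) ^ (2 * ε)) t ∧ MTa (tE h v).rev ((t : ℝ) ^ (2 * ε)) t := by
  obtain ⟨ε', hε', T0, hT0⟩ := hMT ε hε hε1
  refine ⟨ε', hε', max ⌈T0⌉₊ 4, fun t N _ h v ht hh hv => ?_⟩
  have ht4 : 4 ≤ t := le_trans (le_max_right _ _) ht
  have ht4' : (4 : ℝ) ≤ t := by exact_mod_cast ht4
  have htT : T0 ≤ 4 * (t : ℝ) := by
    have h1 : ⌈T0⌉₊ ≤ t := le_trans (le_max_left _ _) ht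
    have h2 : (⌈T0⌉₊ : ℝ) ≤ t := by exact_mod_cast h1
    have := Nat.le_ceil T0
    linarith
  have hcast : ((4 * t : ℕ) : ℝ) = 4 * (t : ℝ) := by push_cast; ring
  rw [hcast] at hh hv
  have hA : (1 : ℝ) ≤ (4 * (t : ℝ)) ^ ε' := Real.one_le_rpow (by linarith) hε'.le
  have hΛ : (4 * (t : ℝ)) ^ ε ≤ (t : ℝ) ^ (2 * ε) := by
    rw [mul_comm 2 ε, Real.rpow_mul (by linarith), Real.rpow_two,
      Real.mul_rpow (by norm_num) (by linarith), sq]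
    exact mul_le_mul_of_nonneg_right (Real.rpow_le_rpow (by norm_num) ht4' hε.le) (by positivity)
  have key := fun c => zf_goodE h v ((4 * (t : ℝ)) ^ ε') t hA hh hv c
  exact ⟨zf_MTa_mono (zf_MTa_of t fun c => hT0 _ htT _ c _ (key c).1) hΛ,
    zf_MTa_mono (zf_MTa_of t fun c => hT0 _ htT _ c _ (key c).2) hΛ⟩

/-- bound of the quenched sum in terms of the three good events -/
lemma zf_quenched (hMT : St_MT) (hXC : St_XC) (h1 : St_X1) (h3 : St_X3) (h13 : St_X13)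
    (ε : ℝ) (hε : 0 < ε) (hε1 : ε ≤ 1 / 2) : ∃ ε' : ℝ, 0 < ε' ∧ ∃ T0 : ℕ,
    ∀ (t N : ℕ) [NeZero N] (h v : ZMod N → Bool), T0 ≤ t →
    ((∀ lo : ℤ, Good (((4 * t : ℕ) : ℝ) ^ ε') (gs h) lo (lo + (16 * (4 * t) : ℕ))) →
    (∀ lo : ℤ, Good (((4 * t : ℕ) : ℝ) ^ ε') (gs v) lo (lo + (16 * (4 * t) : ℕ))) →
    (∀ lo : ℤ, Good (((4 * t : ℕ) : ℝ) ^ ε) (gs h) lo (lo + (16 * (4 * t) : ℕ))) →
    ∑ n ∈ Finset.range (t + 1), ta (mm2 h v n) ≤
      4 * (t : ℝ) ^ 2 * (1 / 2 + 2 * (t : ℝ) ^ (1 / 3 + 24 * ε))) ∧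
    ∑ n ∈ Finset.range (t + 1), ta (mm2 h v n) ≤ 4 * (t : ℝ) ^ 2 * (1 / 2 + 2 * (t : ℝ)) := by
  obtain ⟨ε', hε', T1, hT1⟩ := zf_MT hMT ε hε (by linarith)
  obtain ⟨T2, hT2⟩ := hXC (2 * ε) (by linarith) (by linarith)
  refine ⟨ε', hε', max (max T1 T2) 4, fun t N _ h v ht => ?_⟩
  have ht1 : T1 ≤ t := le_trans (le_trans (le_max_left _ _) (le_max_left _ _)) ht
  have ht2 : T2 ≤ t := le_trans (le_trans (le_max_right _ _) (le_max_left _ _)) ht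
  have ht4 : 4 ≤ t := le_trans (le_max_right _ _) ht
  have ht4' : (4 : ℝ) ≤ t := by exact_mod_cast ht4
  have htwo : 2 ≤ t := by omega
  have hq0 : (0 : ℝ) ≤ 1 - 1 / (t : ℝ) := by
    have : 1 / (t : ℝ) ≤ 1 := by rw [div_le_one (by linarith)]; linarith
    linarith
  have hq1 : 1 - 1 / (t : ℝ) < 1 := by
    have : 0 < 1 / (t : ℝ) := by positivity
    linarith
  obtain ⟨χ, hχ⟩ := (h1 N h v (1 - 1 / (t : ℝ)) hq0 hq1).1 (ff h)
  have hsum := h13 N t h v χ htwo hχ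
  have h3' := h3 N t h v χ htwo hχ
  constructor
  · intro ha hb hc
    obtain ⟨hM, hM'⟩ := hT1 t N h v ht1 ha hb
    have hD : DD h χ ≤ (t : ℝ) ^ (1 / 3 + 12 * (2 * ε)) := by
      refine hT2 t N h v χ ht2 hM hM' ?_ hχ
      intro a k hk
      have hk' : 2 ^ k ≤ t := by exact_mod_cast hk
      have hcast : ((4 * t : ℕ) : ℝ) = 4 * (t : ℝ) := by push_cast; ring
      have h5 := (hc a).g1 a (a + 2 ^ k) le_rfl (by
        have : (0 : ℤ) ≤ 2 ^ k := by positivity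
        linarith) (by
        have : ((2 ^ k : ℕ) : ℤ) ≤ ((16 * (4 * t) : ℕ) : ℤ) := by
          exact_mod_cast (by omega : 2 ^ k ≤ 16 * (4 * t))
        push_cast at this ⊢
        linarith)
      have hΛ : (4 * (t : ℝ)) ^ ε ≤ (t : ℝ) ^ (2 * ε) := by
        rw [mul_comm 2 ε, Real.rpow_mul (by linarith), Real.rpow_two,
          Real.mul_rpow (by norm_num) (by linarith), sq]
        exact mul_le_mul_of_nonneg_right (Real.rpow_le_rpow (by norm_num) ht4' hε.le)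
          (by positivity)
      refine h5.trans ?_
      rw [hcast]
      push_cast
      rw [show (a : ℝ) + 2 ^ k - a = 2 ^ k by ring]
      exact mul_le_mul_of_nonneg_right hΛ (Real.sqrt_nonneg _)
    refine hsum.trans ?_
    rw [show 1 / 3 + 12 * (2 * ε) = 1 / 3 + 24 * ε by ring] at hD
    exact mul_le_mul_of_nonneg_left (by linarith) (by positivity)
  · refine hsum.trans ?_
    exact mul_le_mul_of_nonneg_left (by linarith [h3'.2.1]) (by positivity)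

end MHL
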